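import Pool.Agent.Lib.MP_2f3286_ag.Full.Defs

set_option autoImplicit false

/-!
Gauss valuation rings of a function field over an algebraically closed field, and the existence of
a Frobenius automorphism.
-/

open Polynomial IntermediateField IsDedekindDomain NumberField
open scoped Pointwise

namespace Pool.Agent.Lib.MP_2f3286_ag.Full

section Gauss

variable {kb L : Type*} [Field kb] [Field L] [Algebra kb L]

/-- A coefficient of maximal value. -/
lemma exists_max_coeff (V : ValuationSubring kb) {f : kb[X]} (hf : f ≠ 0) :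
    ∃ i, f.coeff i ≠ 0 ∧ ∀ j, f.coeff j / f.coeff i ∈ V := by
  obtain ⟨i, hi, hmax⟩ := Finset.exists_max_image f.support (fun j => V.valuation (f.coeff j))
    (by rwa [Finset.nonempty_iff_ne_empty, Ne, Polynomial.support_eq_empty])
  have hi0 : f.coeff i ≠ 0 := Polynomial.mem_support_iff.1 hi
  refine ⟨i, hi0, fun j => ?_⟩
  rw [← V.valuation_le_one_iff, map_div₀]
  by_cases hj : f.coeff j = 0
  · rw [hj, map_zero, zero_div]; exact zero_le_one
  · have h1 := hmax j (Polynomial.mem_support_iff.2 hj)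
    exact div_le_one_of_le₀ h1 zero_le

/-- The value of a polynomial in `t` for a Gauss valuation. -/
lemma IsGauss.valuation_aeval {t : L} {𝒲 : ValuationSubring L} (h : IsGauss kb t 𝒲) {f : kb[X]}
    {i : ℕ} (hi : f.coeff i ≠ 0) (hmax : ∀ j, algebraMap kb L (f.coeff j / f.coeff i) ∈ 𝒲) :
    𝒲.valuation (aeval t f) = 𝒲.valuation (algebraMap kb L (f.coeff i)) := by
  have hi' : algebraMap kb L (f.coeff i) ≠ 0 := by simpa using hi
  have h1 := h (C (f.coeff i)⁻¹ * f) (fun j => by
    rw [coeff_C_mul, 𝒲.valuation_le_one_iff]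
    have := hmax j
    rwa [div_eq_inv_mul] at this) ⟨i, by
      rw [coeff_C_mul, inv_mul_cancel₀ hi, map_one, map_one]⟩
  rw [map_mul, aeval_C, map_mul, map_inv₀, map_inv₀] at h1
  have h2 : 𝒲.valuation (algebraMap kb L (f.coeff i)) ≠ 0 := by
    rwa [Ne, map_eq_zero]
  field_simp at h1
  exact h1

theorem gauss_comap (t : L) (ht : Transcendental kb t) (𝒲 𝒲' : ValuationSubring L)
    (h : IsGauss kb t 𝒲) (h' : IsGauss kb t 𝒲')
    (hc : 𝒲.comap (algebraMap kb L) = 𝒲'.comap (algebraMap kb L))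
    (x : L) (hx : x ∈ adjoin kb {t}) : x ∈ 𝒲 ↔ x ∈ 𝒲' := by
  obtain ⟨f, g, rfl⟩ := (IntermediateField.mem_adjoin_simple_iff kb x).1 hx
  by_cases hf : f = 0
  · simp [hf, 𝒲.zero_mem, 𝒲'.zero_mem]
  by_cases hg : g = 0
  · simp [hg, 𝒲.zero_mem, 𝒲'.zero_mem]
  obtain ⟨i, hi, hmax⟩ := exists_max_coeff (𝒲.comap (algebraMap kb L)) hf
  obtain ⟨j, hj, hmaxg⟩ := exists_max_coeff (𝒲.comap (algebraMap kb L)) hg
  have e1 := h.valuation_aeval hi (fun n => hmax n)
  have e2 := h.valuation_aeval hj (fun n => hmaxg n)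
  rw [hc] at hmax hmaxg
  have e3 := h'.valuation_aeval hi (fun n => hmax n)
  have e4 := h'.valuation_aeval hj (fun n => hmaxg n)
  have q1 : 𝒲.valuation (aeval t f / aeval t g) =
      𝒲.valuation (algebraMap kb L (f.coeff i / g.coeff j)) := by
    rw [map_div₀, e1, e2, map_div₀, map_div₀]
  have q2 : 𝒲'.valuation (aeval t f / aeval t g) =
      𝒲'.valuation (algebraMap kb L (f.coeff i / g.coeff j)) := by
    rw [map_div₀, e3, e4, map_div₀, map_div₀]
  rw [← 𝒲.valuation_le_one_iff, ← 𝒲'.valuation_le_one_iff, q1, q2,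
    𝒲.valuation_le_one_iff, 𝒲'.valuation_le_one_iff]
  have : f.coeff i / g.coeff j ∈ 𝒲.comap (algebraMap kb L) ↔
      f.coeff i / g.coeff j ∈ 𝒲'.comap (algebraMap kb L) := by rw [hc]
  exact this

/-- A valuation ring dominating the localisation of a subring at a prime ideal. -/
lemma exists_dominating {A : Type*} [CommRing A] (φ : A →+* L) (P : Ideal A) [P.IsPrime]
    (hφ : ∀ a, φ a = 0 → a ∈ P) : ∃ 𝒲 : ValuationSubring L, (∀ a, φ a ∈ 𝒲) ∧
      (∀ a ∈ P, 𝒲.valuation (φ a) < 1) ∧ ∀ a, a ∉ P → 𝒲.valuation (φ a) = 1 := by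
  have hunit : ∀ y : P.primeCompl, IsUnit (φ y) := by
    intro y
    rw [isUnit_iff_ne_zero]
    exact fun h => y.2 (hφ _ h)
  set ψ : Localization.AtPrime P →+* L := IsLocalization.lift (M := P.primeCompl) hunit with hψ
  obtain ⟨𝒲, h1, h2⟩ := IsLocalRing.exists_factor_valuationRing ψ
  have hφψ : ∀ a, ψ (algebraMap A _ a) = φ a := fun a => IsLocalization.lift_eq hunit a
  have hmem : ∀ a, φ a ∈ 𝒲 := fun a => by
    rw [← hφψ]; exact h1 _
  refine ⟨𝒲, hmem, fun a ha => ?_, fun a ha => ?_⟩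
  · have h3 : ¬ IsUnit (algebraMap A (Localization.AtPrime P) a) := by
      rw [IsLocalization.AtPrime.isUnit_to_map_iff (Localization.AtPrime P) P]
      exact fun h => h ha
    have h4 : ¬ IsUnit (⟨φ a, hmem a⟩ : 𝒲) := by
      intro h5
      apply h3
      apply (isUnit_map_iff (ψ.codRestrict 𝒲.toSubring h1) _).1
      have e : (ψ.codRestrict 𝒲.toSubring h1) (algebraMap A _ a) =
          (⟨φ a, hmem a⟩ : 𝒲.toSubring) := Subtype.ext (hφψ a)
      rw [e]
      exact h5
    rw [𝒲.valuation_eq_one_iff ⟨φ a, hmem a⟩] at h4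
    exact lt_of_le_of_ne ((𝒲.valuation_le_one_iff _).2 (hmem a)) h4
  · have h3 : IsUnit (algebraMap A (Localization.AtPrime P) a) := by
      rw [IsLocalization.AtPrime.isUnit_to_map_iff (Localization.AtPrime P) P]
      exact ha
    have h4 := h3.map (ψ.codRestrict 𝒲.toSubring h1)
    have e : (ψ.codRestrict 𝒲.toSubring h1) (algebraMap A _ a) =
          (⟨φ a, hmem a⟩ : 𝒲.toSubring) := Subtype.ext (hφψ a)
    rw [e] at h4
    exact (𝒲.valuation_eq_one_iff ⟨φ a, hmem a⟩).1 h4

theorem exists_gauss (t : L) (ht : Transcendental kb t) (V : ValuationSubring kb) :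
    ∃ 𝒲 : ValuationSubring L, 𝒲.comap (algebraMap kb L) = V ∧ IsGauss kb t 𝒲 := by
  set φ : V[X] →+* L := (aeval t : kb[X] →ₐ[kb] L).toRingHom.comp (mapRingHom V.subtype) with hφ
  set P : Ideal V[X] := (IsLocalRing.maximalIdeal V).map C with hP
  have hPp : P.IsPrime := Ideal.isPrime_map_C_of_isPrime
  have hinj : Function.Injective φ := by
    apply Function.Injective.comp (g := (aeval t : kb[X] →ₐ[kb] L).toRingHom)
    · exact transcendental_iff_injective.1 ht
    · exact Polynomial.map_injective _ Subtype.val_injective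
  have h0 : ∀ a, φ a = 0 → a ∈ P := by
    intro a ha
    rw [(map_eq_zero_iff φ hinj).1 ha]
    exact P.zero_mem
  obtain ⟨𝒲, h1, h2, h3⟩ := exists_dominating φ P h0
  have hC : ∀ c : V, φ (C c) = algebraMap kb L c := by
    intro c
    simp [hφ]
  have hmem : ∀ f : V[X], f ∈ P ↔ ∀ n, f.coeff n ∈ IsLocalRing.maximalIdeal V :=
    fun f => Ideal.mem_map_C_iff
  have hCP : ∀ c : V, C c ∈ P ↔ c ∈ IsLocalRing.maximalIdeal V := by
    intro c
    rw [hmem]
    constructor
    · intro h
      simpa using h 0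
    · intro h n
      rw [coeff_C]
      split_ifs
      · exact h
      · exact Ideal.zero_mem _
  have hcomap : 𝒲.comap (algebraMap kb L) = V := by
    ext c
    rw [ValuationSubring.mem_comap]
    constructor
    · intro hc
      by_contra hcV
      have hc0 : c ≠ 0 := fun h => hcV (h ▸ V.zero_mem)
      have h4 : c⁻¹ ∈ V := (V.mem_or_inv_mem c).resolve_left hcV
      have h5 : (⟨c⁻¹, h4⟩ : V) ∈ IsLocalRing.maximalIdeal V := by
        rw [V.valuation_lt_one_iff]
        show V.valuation c⁻¹ < 1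
        rw [map_inv₀]
        have h6 : 1 < V.valuation c := by
          rw [← not_le, V.valuation_le_one_iff]; exact hcV
        exact inv_lt_one_of_one_lt₀ h6
      have h6 := h2 (C ⟨c⁻¹, h4⟩) ((hCP _).2 h5)
      rw [hC, map_inv₀, map_inv₀] at h6
      have h7 : 𝒲.valuation (algebraMap kb L c) ≤ 1 := (𝒲.valuation_le_one_iff _).2 hc
      have h8 : 𝒲.valuation (algebraMap kb L c) ≠ 0 := by
        rw [Ne, map_eq_zero, map_eq_zero]; exact hc0
      have h9 := mul_lt_mul'' h6 (lt_of_le_of_ne h7 ?_) zero_le zero_le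
      · rw [inv_mul_cancel₀ h8, one_mul] at h9
        exact lt_irrefl _ h9
      · intro h10
        rw [h10, inv_one] at h6
        exact lt_irrefl _ h6
    · intro hc
      have := h1 (C ⟨c, hc⟩)
      rwa [hC] at this
  refine ⟨𝒲, hcomap, ?_⟩
  intro f hf hi
  have hfV : ∀ i, f.coeff i ∈ V := by
    intro i
    rw [← hcomap, ValuationSubring.mem_comap, ← 𝒲.valuation_le_one_iff]
    exact hf i
  obtain ⟨F, hF⟩ : ∃ F : V[X], F.map V.subtype = f := by
    rw [← Polynomial.mem_lifts, Polynomial.lifts_iff_coeff_lifts]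
    intro n
    exact ⟨⟨f.coeff n, hfV n⟩, rfl⟩
  have hFP : F ∉ P := by
    rw [hmem]
    intro hall
    obtain ⟨i, hi⟩ := hi
    have h4 := hall i
    have h5 := h2 (C (F.coeff i)) ((hCP _).2 h4)
    rw [hC] at h5
    have e : ((F.coeff i : V) : kb) = f.coeff i := by
      rw [← hF, coeff_map]; rfl
    rw [e, hi] at h5
    exact lt_irrefl _ h5
  have h4 := h3 F hFP
  have e : φ F = aeval t f := by
    rw [hφ, ← hF]; rfl
  rwa [e] at h4

/-- Values of elements algebraic over a subfield. -/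
lemma exists_pow_value {E : Type*} [Field E] [Algebra E L] (𝒲 : ValuationSubring L) {y : L}
    (hy : y ≠ 0) (halg : IsAlgebraic E y) :
    ∃ (n : ℕ) (a : E), 1 ≤ n ∧ a ≠ 0 ∧ 𝒲.valuation (y ^ n) = 𝒲.valuation (algebraMap E L a) := by
  obtain ⟨p, hp, hpy⟩ := halg
  obtain ⟨i, hi, hmax⟩ := Finset.exists_max_image p.support
    (fun j => 𝒲.valuation (algebraMap E L (p.coeff j) * y ^ j))
    (by rwa [Finset.nonempty_iff_ne_empty, Ne, Polynomial.support_eq_empty])
  have hne : ∀ j ∈ p.support, algebraMap E L (p.coeff j) * y ^ j ≠ 0 := by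
    intro j hj
    apply mul_ne_zero
    · simpa using Polynomial.mem_support_iff.1 hj
    · exact pow_ne_zero _ hy
  -- some other index has the same value
  have h1 : ∃ j ∈ p.support, j ≠ i ∧ 𝒲.valuation (algebraMap E L (p.coeff i) * y ^ i) =
      𝒲.valuation (algebraMap E L (p.coeff j) * y ^ j) := by
    by_contra hcon
    push Not at hcon
    have h2 : ∀ j ∈ p.support.erase i, 𝒲.valuation (algebraMap E L (p.coeff j) * y ^ j) <
        𝒲.valuation (algebraMap E L (p.coeff i) * y ^ i) := by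
      intro j hj
      rw [Finset.mem_erase] at hj
      exact lt_of_le_of_ne (hmax j hj.2) (hcon j hj.2 hj.1).symm
    have h3 : 𝒲.valuation (∑ j ∈ p.support.erase i, algebraMap E L (p.coeff j) * y ^ j) <
        𝒲.valuation (algebraMap E L (p.coeff i) * y ^ i) := by
      apply Valuation.map_sum_lt _ _ h2
      rw [Ne, map_eq_zero]
      exact hne i hi
    have h4 : ∑ j ∈ p.support, algebraMap E L (p.coeff j) * y ^ j = 0 := by
      rw [← hpy, Polynomial.aeval_def, Polynomial.eval₂_eq_sum, Polynomial.sum_def]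
    rw [← Finset.add_sum_erase _ _ hi] at h4
    have h5 := eq_neg_of_add_eq_zero_left h4
    rw [h5, Valuation.map_neg] at h3
    exact lt_irrefl _ h3
  obtain ⟨j, hj, hji, h2⟩ := h1
  -- wlog
  have key : ∀ i j : ℕ, i < j → p.coeff i ≠ 0 → p.coeff j ≠ 0 →
      𝒲.valuation (algebraMap E L (p.coeff i) * y ^ i) =
      𝒲.valuation (algebraMap E L (p.coeff j) * y ^ j) →
      ∃ (n : ℕ) (a : E), 1 ≤ n ∧ a ≠ 0 ∧
        𝒲.valuation (y ^ n) = 𝒲.valuation (algebraMap E L a) := by
    intro i j hij hci hcj h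
    refine ⟨j - i, p.coeff i / p.coeff j, by omega, div_ne_zero hci hcj, ?_⟩
    have e : y ^ j = y ^ (j - i) * y ^ i := by rw [← pow_add]; congr 1; omega
    rw [e, ← mul_assoc, map_mul, map_mul _ (algebraMap E L (p.coeff j) * y ^ (j - i))] at h
    have hyi : 𝒲.valuation (y ^ i) ≠ 0 := by
      rw [Ne, map_eq_zero]; exact pow_ne_zero _ hy
    have h3 := mul_right_cancel₀ hyi h
    rw [map_div₀, map_div₀, h3, map_mul]
    have hj0 : 𝒲.valuation (algebraMap E L (p.coeff j)) ≠ 0 := by
      rw [Ne, map_eq_zero, map_eq_zero]; exact hcj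
    rw [mul_div_cancel_left₀ _ hj0]
  have hci := Polynomial.mem_support_iff.1 hi
  have hcj := Polynomial.mem_support_iff.1 hj
  rcases lt_or_gt_of_ne hji with h | h
  · exact key j i h hcj hci h2.symm
  · exact key i j h hci hcj h2

theorem exists_unit_mul [IsAlgClosed kb] (t : L)
    (halg : ∀ x : L, IsAlgebraic (adjoin kb {t}) x) (𝒲 : ValuationSubring L)
    (hG : IsGauss kb t 𝒲) (y : L) (hy : y ≠ 0) :
    ∃ c : kb, c ≠ 0 ∧ 𝒲.valuation (algebraMap kb L c * y) = 1 := by
  obtain ⟨n, a, hn, ha, hv⟩ := exists_pow_value 𝒲 hy (halg y)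
  -- the value of `a` is the value of a constant
  have h1 : ∃ b : kb, b ≠ 0 ∧ 𝒲.valuation (a : L) = 𝒲.valuation (algebraMap kb L b) := by
    obtain ⟨f, g, hfg⟩ := (IntermediateField.mem_adjoin_simple_iff kb (a : L)).1 a.2
    have ha' : (a : L) ≠ 0 := by simpa using ha
    have hf : f ≠ 0 := by
      rintro rfl
      rw [map_zero, zero_div] at hfg
      exact ha' hfg
    have hg : g ≠ 0 := by
      rintro rfl
      rw [map_zero, div_zero] at hfg
      exact ha' hfg
    obtain ⟨i, hi, hmax⟩ := exists_max_coeff (𝒲.comap (algebraMap kb L)) hf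
    obtain ⟨j, hj, hmaxg⟩ := exists_max_coeff (𝒲.comap (algebraMap kb L)) hg
    refine ⟨f.coeff i / g.coeff j, div_ne_zero hi hj, ?_⟩
    rw [hfg, map_div₀, hG.valuation_aeval hi (fun n => hmax n),
      hG.valuation_aeval hj (fun n => hmaxg n), map_div₀, map_div₀]
  obtain ⟨b, hb, hab⟩ := h1
  have hv' : 𝒲.valuation (y ^ n) = 𝒲.valuation (algebraMap kb L b) := hv.trans hab
  obtain ⟨c, hc⟩ := IsAlgClosed.exists_pow_nat_eq b (by omega : 0 < n)
  have hc0 : c ≠ 0 := by
    rintro rfl
    rw [zero_pow (by omega)] at hc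
    exact hb hc.symm
  refine ⟨c⁻¹, inv_ne_zero hc0, ?_⟩
  have h2 : 𝒲.valuation (algebraMap kb L c⁻¹ * y) ^ n = 1 := by
    rw [← map_pow, mul_pow, ← map_pow, map_mul, hv', ← map_mul, ← map_mul, inv_pow, hc,
      inv_mul_cancel₀ hb, map_one, map_one]
  exact (pow_eq_one_iff_of_nonneg zero_le (by omega)).1 h2

end Gauss

section Frob

/-- A quotient representation with respect to a prime containing `p`. -/
lemma exists_frac_repr {R kb : Type*} [CommRing R] [Field kb] [CharZero kb] [Algebra R kb]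
    (B : Subalgebra R kb)
    (hB : ∀ x : kb, IsIntegral ℤ x → x ∈ B) (Q : Ideal B) [Q.IsPrime] (p : ℕ)
    (hp : p.Prime) (hpQ : (p : B) ∈ Q) (x : kb) (hx : x ≠ 0) (hxa : IsAlgebraic ℚ x) :
    ∃ a b : B, b ∉ Q ∧ (x * b = a ∨ x⁻¹ * b = a) := by
  have hfd : FiniteDimensional ℚ (adjoin ℚ {x}) :=
    IntermediateField.adjoin.finiteDimensional hxa.isIntegral
  have hnf : NumberField (adjoin ℚ {x}) := { to_charZero := inferInstance, to_finiteDimensional := hfd }
  let F := adjoin ℚ {x}
  let j : 𝓞 F →+* B :=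
    { toFun := fun y => ⟨((y : F) : kb), hB _ (by
        have h1 : IsIntegral ℤ (y : F) := y.isIntegral_coe
        exact h1.map (F.val.restrictScalars ℤ))⟩
      map_one' := rfl
      map_mul' := fun _ _ => rfl
      map_zero' := rfl
      map_add' := fun _ _ => rfl }
  have hj : ∀ y, ((j y : B) : kb) = ((y : F) : kb) := fun y => rfl
  set P : Ideal (𝓞 F) := Q.comap j with hP
  have hPp : P.IsPrime := Ideal.comap_isPrime j Q
  have hpP : (p : 𝓞 F) ∈ P := by
    rw [hP, Ideal.mem_comap, map_natCast]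
    exact hpQ
  have hP0 : P ≠ ⊥ := by
    intro h
    rw [h, Ideal.mem_bot] at hpP
    exact hp.ne_zero (by exact_mod_cast hpP)
  have hdvr := IsLocalization.AtPrime.isDiscreteValuationRing_of_dedekind_domain (𝓞 F) hP0
    (Localization.AtPrime P)
  set y : F := ⟨x, IntermediateField.mem_adjoin_simple_self ℚ x⟩ with hy
  have hy0 : y ≠ 0 := by
    intro h
    exact hx (congrArg Subtype.val h)
  obtain ⟨c, d, hd, hcd⟩ := IsFractionRing.div_surjective (𝓞 F) y
  have hd0 : d ≠ 0 := nonZeroDivisors.ne_zero hd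
  have hc0 : c ≠ 0 := by
    rintro rfl
    rw [map_zero, zero_div] at hcd
    exact hy0 hcd.symm
  have key : ∀ c d : 𝓞 F, d ≠ 0 → algebraMap (𝓞 F) (Localization.AtPrime P) d ∣
      algebraMap (𝓞 F) (Localization.AtPrime P) c → ∃ a b : B, b ∉ Q ∧
      (((c : F) : kb) / ((d : F) : kb)) * b = a := by
    intro c d hd ⟨r, hr⟩
    obtain ⟨a, b, rfl⟩ := IsLocalization.exists_mk'_eq P.primeCompl r
    have h1 : c * b = d * a := by
      apply IsLocalization.injective (Localization.AtPrime P) P.primeCompl_le_nonZeroDivisors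
      rw [map_mul, map_mul, hr, mul_assoc, IsLocalization.mk'_spec]
    refine ⟨j a, j b, fun h => b.2 h, ?_⟩
    have h2 : ((d : F) : kb) ≠ 0 := by
      intro h
      apply hd
      have : (d : F) = 0 := Subtype.ext h
      exact_mod_cast this
    rw [hj, hj]
    have h3 : ((c : F) : kb) * (((b : 𝓞 F) : F) : kb) = ((d : F) : kb) * ((a : F) : kb) := by
      have := congrArg (fun z : 𝓞 F => ((z : F) : kb)) h1
      simpa using this
    field_simp
    exact h3
  have hxy : x = ((c : F) : kb) / ((d : F) : kb) := by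
    have := congrArg (fun z : F => (z : kb)) hcd
    simp only [hy] at this
    rw [← this]
    rfl
  rcases ValuationRing.dvd_total (algebraMap (𝓞 F) (Localization.AtPrime P) d)
    (algebraMap (𝓞 F) (Localization.AtPrime P) c) with h | h
  · obtain ⟨a, b, hb, hab⟩ := key c d hd0 h
    exact ⟨a, b, hb, Or.inl (by rw [hxy]; exact hab)⟩
  · obtain ⟨a, b, hb, hab⟩ := key d c hc0 h
    exact ⟨a, b, hb, Or.inr (by rw [hxy, inv_div]; exact hab)⟩

universe u in
theorem exists_frob {k : Type u} [Field k] [NumberField k] (p : ℕ) [Fact p.Prime] :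
    ∃ (V : ValuationSubring (AlgebraicClosure k)) (φ : Gal(AlgebraicClosure k/k)) (e : ℕ),
      1 ≤ e ∧ V.valuation (p : AlgebraicClosure k) < 1 ∧ (∀ x, φ x ∈ V ↔ x ∈ V) ∧
      ∀ x ∈ V, V.valuation (φ x - x ^ p ^ e) < 1 := by
  have hp : p.Prime := Fact.out
  let kb := AlgebraicClosure k
  let B := integralClosure (𝓞 k) kb
  -- a maximal ideal above `p`
  have hintB : Algebra.IsIntegral (𝓞 k) B := integralClosure.AlgebraIsIntegral
  have hintZ : Algebra.IsIntegral ℤ (𝓞 k) := inferInstance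
  have hZB : Algebra.IsIntegral ℤ B := Algebra.IsIntegral.trans (𝓞 k)
  have hpm : (Ideal.span {(p : ℤ)}).IsMaximal :=
    PrincipalIdealRing.isMaximal_of_irreducible (Nat.prime_iff_prime_int.1 hp).irreducible
  obtain ⟨Q, hQ, hQp⟩ := Ideal.exists_ideal_over_maximal_of_isIntegral (S := B)
    (Ideal.span {(p : ℤ)}) (by
      rw [(RingHom.injective_iff_ker_eq_bot _).1 (FaithfulSMul.algebraMap_injective ℤ B)]
      exact bot_le)
  have hpQ : (p : B) ∈ Q := by
    have : (p : ℤ) ∈ Q.comap (algebraMap ℤ B) := by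
      rw [hQp]; exact Ideal.mem_span_singleton_self _
    simpa using this
  -- the prime of `k` below
  let P : Ideal (𝓞 k) := Q.under (𝓞 k)
  have hQP : Q.LiesOver P := ⟨rfl⟩
  have hPp : P.IsPrime := inferInstance
  have hpP : (p : 𝓞 k) ∈ P := by
    show algebraMap (𝓞 k) B (p : 𝓞 k) ∈ Q
    rw [map_natCast]; exact hpQ
  have hP0 : P ≠ ⊥ := by
    intro h
    rw [h, Ideal.mem_bot] at hpP
    exact hp.ne_zero (by exact_mod_cast hpP)
  have hPm : P.IsMaximal := hPp.isMaximal hP0
  have hfin : Finite (𝓞 k ⧸ P) := Ideal.finiteQuotientOfFreeOfNeBot P hP0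
  let iF : Field (𝓞 k ⧸ P) := Ideal.Quotient.field P
  let iL : Field (B ⧸ Q) := Ideal.Quotient.field Q
  let iFt : Fintype (𝓞 k ⧸ P) := Fintype.ofFinite _
  have hchar : CharP (𝓞 k ⧸ P) p := by
    have h0 : ((p : ℕ) : 𝓞 k ⧸ P) = 0 := by
      have := Ideal.Quotient.eq_zero_iff_mem.2 hpP
      rwa [map_natCast] at this
    exact (CharP.charP_iff_prime_eq_zero hp).2 h0
  obtain ⟨e, -, he⟩ := FiniteField.card (𝓞 k ⧸ P) p
  have hint : Algebra.IsIntegral (𝓞 k ⧸ P) (B ⧸ Q) := inferInstance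
  have halg : Algebra.IsAlgebraic (𝓞 k ⧸ P) (B ⧸ Q) := inferInstance
  let σ₀ : (B ⧸ Q) ≃ₐ[𝓞 k ⧸ P] (B ⧸ Q) :=
    FiniteField.frobeniusAlgEquivOfAlgebraic (𝓞 k ⧸ P) (B ⧸ Q)
  -- the Galois group acts on `B`
  let G := Gal(kb/k)
  have hcomm : @SMulCommClass G (𝓞 k) kb _ Algebra.toSMul := by
    refine @SMulCommClass.mk G (𝓞 k) kb _ Algebra.toSMul fun g a x => ?_
    rw [Algebra.smul_def, Algebra.smul_def]
    show g (algebraMap (𝓞 k) kb a * x) = algebraMap (𝓞 k) kb a * g x
    rw [map_mul]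
    congr 1
    exact g.commutes (a : k)
  let act : MulSemiringAction G B := inferInstance
  have hcomm' : SMulCommClass G (𝓞 k) B := inferInstance
  let tB : TopologicalSpace B := ⊥
  have dB : DiscreteTopology B := ⟨rfl⟩
  have hinv : Algebra.IsInvariant (𝓞 k) B G := by
    constructor
    intro b hb
    have h1 : ∀ g : G, g (b : kb) = b := fun g => congrArg Subtype.val (hb g)
    have h2 : (b : kb) ∈ (⊥ : IntermediateField k kb) :=
      (InfiniteGalois.mem_bot_iff_fixed (b : kb)).2 h1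
    obtain ⟨a, ha⟩ := IntermediateField.mem_bot.1 h2
    have h3 : IsIntegral (𝓞 k) (b : kb) := b.2
    have h4 : IsIntegral ℤ a := by
      have h5 : IsIntegral ℤ (b : kb) := isIntegral_trans (R := ℤ) (A := 𝓞 k) _ h3
      rw [← ha] at h5
      exact (isIntegral_algebraMap_iff (FaithfulSMul.algebraMap_injective k kb)).1 h5
    refine ⟨⟨a, h4⟩, Subtype.ext ?_⟩
    rw [← ha]
    rfl
  have hcont : ContinuousSMul G B := by
    rw [continuousSMul_iff_stabilizer_isOpen]
    intro b
    have h1 := stabilizer_isOpen_of_isIntegral (K := k) (b : kb)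
    convert h1 using 1
    ext g
    simp only [SetLike.mem_coe, MulAction.mem_stabilizer_iff]
    constructor
    · intro h; exact congrArg Subtype.val h
    · intro h; exact Subtype.ext h
  obtain ⟨φ, hφ⟩ := Ideal.Quotient.stabilizerHom_surjective_of_profinite (G := G) P Q σ₀
  have hφq : ∀ b : B, (φ : G) • b - b ^ p ^ (e : ℕ) ∈ Q := by
    intro b
    rw [← Ideal.Quotient.eq]
    have h1 := DFunLike.congr_fun hφ (Ideal.Quotient.mk Q b)
    rw [map_pow, ← he]
    exact h1
  have hφQ : ∀ b : B, (φ : G) • b ∈ Q ↔ b ∈ Q := by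
    intro b
    have h1 := hφq b
    constructor
    · intro h
      have h2 : b ^ p ^ (e : ℕ) ∈ Q := by
        have := Q.sub_mem h h1
        simpa using this
      exact hQ.isPrime.mem_of_pow_mem _ h2
    · intro h
      have h2 : b ^ p ^ (e : ℕ) ∈ Q := Ideal.pow_mem_of_mem Q h _ (pow_pos hp.pos _)
      have := Q.add_mem h1 h2
      simpa using this
  -- the valuation ring
  have hQprime : Q.IsPrime := hQ.isPrime
  obtain ⟨V, h1, h2, h3⟩ := exists_dominating (algebraMap B kb) Q (fun a ha => by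
    have : a = 0 := Subtype.ext ha
    rw [this]; exact Q.zero_mem)
  have hBmem : ∀ x : kb, IsIntegral ℤ x → x ∈ B := fun x hx => hx.tower_top
  have halgQ : ∀ x : kb, IsAlgebraic ℚ x := fun x =>
    (Algebra.IsAlgebraic.trans ℚ k kb).isAlgebraic x
  have hrepr : ∀ x ∈ V, ∃ a b : B, b ∉ Q ∧ x * b = a := by
    intro x hx
    by_cases hx0 : x = 0
    · refine ⟨0, 1, ?_, by simp [hx0]⟩
      intro h
      exact hQprime.ne_top ((Ideal.eq_top_iff_one _).2 h)
    obtain ⟨a, b, hb, hab⟩ := exists_frac_repr B hBmem Q p hp hpQ x hx0 (halgQ x)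
    rcases hab with hab | hab
    · exact ⟨a, b, hb, hab⟩
    · refine ⟨b, a, ?_, ?_⟩
      · intro ha
        have h4 := h2 a ha
        have h5 := h3 b hb
        have h6 : algebraMap B kb a = x⁻¹ * algebraMap B kb b := hab.symm
        rw [h6, map_mul, h5, mul_one, map_inv₀] at h4
        have h7 : V.valuation x ≤ 1 := (V.valuation_le_one_iff _).2 hx
        have h8 : V.valuation x ≠ 0 := by
          rw [Ne, map_eq_zero]; exact hx0
        have h9 : V.valuation x ≠ 1 := by
          intro h10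
          rw [h10, inv_one] at h4
          exact lt_irrefl _ h4
        have h10 := mul_lt_mul'' h4 (lt_of_le_of_ne h7 h9) zero_le zero_le
        rw [inv_mul_cancel₀ h8, one_mul] at h10
        exact lt_irrefl _ h10
      · rw [← hab, mul_inv_cancel_left₀ hx0]
  have hmemV : ∀ (x : kb) (a b : B), b ∉ Q → x * b = a → x ∈ V := by
    intro x a b hb hab
    rw [← V.valuation_le_one_iff]
    have h4 := congrArg V.valuation hab
    rw [map_mul] at h4
    have h5 : V.valuation (b : kb) = 1 := h3 b hb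
    rw [h5, mul_one] at h4
    rw [h4, V.valuation_le_one_iff]
    exact h1 a
  refine ⟨V, (φ : G), e, e.pos, ?_, ?_, ?_⟩
  · have := h2 (p : B) hpQ
    rwa [map_natCast] at this
  · intro x
    constructor
    · intro hx
      obtain ⟨a, b, hb, hab⟩ := hrepr _ hx
      have e1 : x * (((φ : G)⁻¹ • b : B) : kb) = (((φ : G)⁻¹ • a : B) : kb) := by
        show x * (φ : G)⁻¹ (b : kb) = (φ : G)⁻¹ (a : kb)
        rw [← hab, map_mul]
        congr 1
        exact ((φ : G).symm_apply_apply x).symm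
      refine hmemV x _ _ ?_ e1
      rw [← hφQ, smul_inv_smul]
      exact hb
    · intro hx
      obtain ⟨a, b, hb, hab⟩ := hrepr _ hx
      have e1 : (φ : G) x * (((φ : G) • b : B) : kb) = (((φ : G) • a : B) : kb) := by
        show (φ : G) x * (φ : G) (b : kb) = (φ : G) (a : kb)
        rw [← hab, map_mul]
      refine hmemV _ _ _ ?_ e1
      rw [hφQ]
      exact hb
  · intro x hx
    obtain ⟨a, b, hb, hab⟩ := hrepr _ hx
    have e1 : (φ : G) x * (((φ : G) • b : B) : kb) = (((φ : G) • a : B) : kb) := by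
      show (φ : G) x * (φ : G) (b : kb) = (φ : G) (a : kb)
      rw [← hab, map_mul]
    have v1 : V.valuation (b : kb) = 1 := h3 b hb
    have v2 : V.valuation (((φ : G) • b : B) : kb) = 1 := h3 _ (by rw [hφQ]; exact hb)
    set n := p ^ (e : ℕ) with hn
    -- the numerator
    have e2 : ((φ : G) x - x ^ n) * ((((φ : G) • b : B) : kb) * (b : kb) ^ n) =
        (((((φ : G) • a - a ^ n) * b ^ n - a ^ n * ((φ : G) • b - b ^ n) : B)) : kb) := by
      push_cast
      have e3 : (x * (b : kb)) ^ n = (a : kb) ^ n := by rw [hab]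
      rw [mul_pow] at e3
      linear_combination (b : kb) ^ n * e1 - (((φ : G) • b : B) : kb) * e3
    have e4 := congrArg V.valuation e2
    rw [map_mul, map_mul, map_pow, v1, v2, one_pow, one_mul, mul_one] at e4
    rw [e4]
    exact h2 (((φ : G) • a - a ^ n) * b ^ n - a ^ n * ((φ : G) • b - b ^ n))
      (Q.sub_mem (Q.mul_mem_right _ (hφq a)) (Q.mul_mem_left _ (hφq b)))

end Frob

end Pool.Agent.Lib.MP_2f3286_ag.Full
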