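import Mathlib

/-!
# Shared definitions of the full fundamental group campaign
-/

open Polynomial

namespace Pool.Agent.Lib.MP_2f3286_ag.Full

/-- `A` is open in `N` -/
def OpenIn {G : Type*} [Group G] [TopologicalSpace G] (N A : Subgroup G) : Prop :=
  ∃ O : Subgroup G, IsOpen (O : Set G) ∧ O ⊓ N ≤ A

/-- `𝒲` induces on `kb(t)` the Gauss valuation. -/
def IsGauss (kb : Type*) {L : Type*} [Field kb] [Field L] [Algebra kb L] (t : L)
    (𝒲 : ValuationSubring L) : Prop :=
  ∀ f : kb[X], (∀ i, 𝒲.valuation (algebraMap kb L (f.coeff i)) ≤ 1) →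
    (∃ i, 𝒲.valuation (algebraMap kb L (f.coeff i)) = 1) → 𝒲.valuation (aeval t f) = 1

/-- The automorphisms of `M` over `K` that are the identity on `kb`. -/
def geomGroup (K M kb : Type*) [Field K] [Field M] [Field kb] [Algebra K M] [Algebra kb M] :
    Subgroup Gal(M/K) where
  carrier := {g | ∀ a : kb, g (algebraMap kb M a) = algebraMap kb M a}
  one_mem' _ := rfl
  mul_mem' {g h} hg hh a := by
    rw [AlgEquiv.mul_apply, hh a, hg a]
  inv_mem' {g} hg a := by
    have h1 : g⁻¹ (g (algebraMap kb M a)) = algebraMap kb M a := g.symm_apply_apply _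
    rwa [hg a] at h1

theorem mem_geomGroup {K M kb : Type*} [Field K] [Field M] [Field kb] [Algebra K M] [Algebra kb M]
    {g : Gal(M/K)} : g ∈ geomGroup K M kb ↔ ∀ a : kb, g (algebraMap kb M a) = algebraMap kb M a :=
  Iff.rfl

end Pool.Agent.Lib.MP_2f3286_ag.Full
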