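import Mathlib
import Pool.Agent.Lib.MP_2f3286_ag.Points
import Pool.Agent.Lib.MP_2f3286_ag.Full.Defs

/-!
# The points of the integral closure over a point with values in the algebraic closure
-/

open scoped Pointwise

namespace Pool.Agent.Lib.MP_2f3286_ag.Full

variable {R K M : Type*} [CommRing R] [Field K] [Field M] [Algebra R K] [Algebra K M] [Algebra R M]
  [IsScalarTower R K M] [IsGalois K M]
  {k kb : Type*} [Field k] [Field kb] [Algebra k kb] [IsGalois k kb] [IsAlgClosed kb]
  [Algebra kb M] [Algebra k M] [Algebra k K] [IsScalarTower k K M] [IsScalarTower k kb M]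

/-- every automorphism of `M` over `K` preserves `kb` -/
theorem exists_apply_alg (k : Type*) {K M kb : Type*} [Field K] [Field M] [Algebra K M]
    [Field k] [Field kb] [Algebra k kb] [Algebra.IsAlgebraic k kb] [IsAlgClosed kb]
    [Algebra kb M] [Algebra k M] [Algebra k K] [IsScalarTower k K M] [IsScalarTower k kb M]
    (g : Gal(M/K)) (a : kb) :
    ∃ a' : kb, g (algebraMap kb M a) = algebraMap kb M a' := by
  have h2 : IsIntegral k a := Algebra.IsIntegral.isIntegral a
  have h3 : Polynomial.aeval (g (algebraMap kb M a)) (minpoly k a) = 0 := by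
    have h4 : (g.toAlgHom.restrictScalars k : M →ₐ[k] M) (algebraMap kb M a) =
      g (algebraMap kb M a) := rfl
    rw [← h4, Polynomial.aeval_algHom_apply, Polynomial.aeval_algebraMap_apply, minpoly.aeval,
      map_zero, map_zero]
  have h5 : (((minpoly k a).map (algebraMap k kb)).map (algebraMap kb M)).IsRoot
      (g (algebraMap kb M a)) := by
    rw [Polynomial.map_map, ← IsScalarTower.algebraMap_eq, Polynomial.IsRoot,
      Polynomial.eval_map_algebraMap]
    exact h3
  have h0 : (minpoly k a).map (algebraMap k kb) ≠ 0 := by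
    rw [Polynomial.map_ne_zero_iff (algebraMap k kb).injective]
    exact minpoly.ne_zero h2
  obtain ⟨r', hr'⟩ := (IsAlgClosed.splits ((minpoly k a).map (algebraMap k kb))).mem_range_of_isRoot
    h0 h5
  exact ⟨r', hr'.symm⟩

/-- The group of automorphisms over `kb` acts transitively on the points over a `kb`-point. -/
theorem points_trans' (hRn : ∀ x : K, IsIntegral R x → ∃ r : R, algebraMap R K r = x)
    (hBk : ∀ a : kb, IsIntegral R (algebraMap kb M a))
    (Ψ Ψ' : integralClosure R M →+* kb)
    (hΨ : ∀ a : kb, Ψ ⟨algebraMap kb M a, hBk a⟩ = a)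
    (hΨ' : ∀ a : kb, Ψ' ⟨algebraMap kb M a, hBk a⟩ = a)
    (hθ : ∀ r : R, Ψ' (algebraMap R _ r) = Ψ (algebraMap R _ r))
    (hkR : ∀ a : k, ∃ r : R, algebraMap R M r = algebraMap k M a) :
    ∃ g : Gal(M/K), (∀ a : kb, g (algebraMap kb M a) = algebraMap kb M a) ∧
      ∀ b, Ψ' b = Ψ (actHom R g b) := by
  have hsurj : Function.Surjective Ψ := fun a => ⟨_, hΨ a⟩
  let F : IntermediateField k kb :=
    IntermediateField.adjoin k (Set.range fun r : R => Ψ (algebraMap R _ r))
  let θ : R → F := fun r => ⟨Ψ (algebraMap R _ r),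
    IntermediateField.subset_adjoin k _ ⟨r, rfl⟩⟩
  obtain ⟨h1, g, hg⟩ := points_aux (k := F) hRn Ψ Ψ' hsurj θ (fun r => rfl) (fun r => hθ r)
  -- the automorphism of `kb`
  have hτ : ∃ τ : Gal(kb/k), ∀ b, Ψ (actHom R g b) = τ (Ψ' b) := by
    let G : kb → kb := fun a => Ψ (actHom R g ⟨algebraMap kb M a, hBk a⟩)
    have hG : ∀ b, G (Ψ' b) = Ψ (actHom R g b) := by
      intro b
      have h2 : Ψ' (⟨algebraMap kb M (Ψ' b), hBk _⟩ - b) = 0 := by
        rw [map_sub, hΨ', sub_self]
      rw [hg, map_sub, map_sub, sub_eq_zero] at h2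
      exact h2
    have hGinj : ∀ a a', G a = G a' → a = a' := by
      intro a a' h
      have h2 : Ψ (actHom R g (⟨algebraMap kb M a, hBk a⟩ - ⟨algebraMap kb M a', hBk a'⟩)) = 0 := by
        rw [map_sub, map_sub]
        exact sub_eq_zero.mpr h
      rw [← hg, map_sub, hΨ', hΨ', sub_eq_zero] at h2
      exact h2
    have hGk : ∀ a : k, G (algebraMap k kb a) = algebraMap k kb a := by
      intro a
      obtain ⟨r, hr⟩ := hkR a
      have h2 : (⟨algebraMap kb M (algebraMap k kb a), hBk _⟩ : integralClosure R M) =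
          algebraMap R _ r := by
        apply Subtype.ext
        change algebraMap kb M (algebraMap k kb a) = algebraMap R M r
        rw [hr, ← IsScalarTower.algebraMap_apply]
      change Ψ (actHom R g ⟨algebraMap kb M (algebraMap k kb a), hBk _⟩) = _
      rw [h2, actHom_alg, ← h2, hΨ]
    let G' : kb →ₐ[k] kb :=
      { toFun := G
        map_one' := by rw [← map_one Ψ', hG, map_one, map_one]; exact (map_one Ψ').symm
        map_mul' := fun a a' => by
          have h2 : G (Ψ' (⟨algebraMap kb M a, hBk a⟩ * ⟨algebraMap kb M a', hBk a'⟩)) =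
            G (Ψ' ⟨algebraMap kb M a, hBk a⟩) * G (Ψ' ⟨algebraMap kb M a', hBk a'⟩) := by
              rw [hG, hG, hG, map_mul, map_mul]
          rw [map_mul, hΨ', hΨ'] at h2
          exact h2
        map_zero' := by
          have h2 := hG 0
          rw [map_zero, map_zero, map_zero] at h2
          exact h2
        map_add' := fun a a' => by
          have h2 : G (Ψ' (⟨algebraMap kb M a, hBk a⟩ + ⟨algebraMap kb M a', hBk a'⟩)) =
            G (Ψ' ⟨algebraMap kb M a, hBk a⟩) + G (Ψ' ⟨algebraMap kb M a', hBk a'⟩) := by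
              rw [hG, hG, hG, map_add, map_add]
          rw [map_add, hΨ', hΨ'] at h2
          exact h2
        commutes' := hGk }
    have hbij : Function.Bijective G' := Algebra.IsAlgebraic.algHom_bijective G'
    exact ⟨AlgEquiv.ofBijective G' hbij, fun b => (hG b).symm⟩
  obtain ⟨τ, hτ⟩ := hτ
  have hτF : ∀ x ∈ F, τ x = x := by
    intro x hx
    have h2 : F ≤ IntermediateField.fixedField (Subgroup.zpowers τ) := by
      rw [IntermediateField.adjoin_le_iff]
      rintro _ ⟨r, rfl⟩
      rw [SetLike.mem_coe, IntermediateField.mem_fixedField_iff]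
      intro f hf
      have h3 : τ (Ψ (algebraMap R _ r)) = Ψ (algebraMap R _ r) := by
        have h4 := hτ (algebraMap R _ r)
        rw [actHom_alg, hθ] at h4
        exact h4.symm
      have h5 : τ ∈ MulAction.stabilizer Gal(kb/k) (Ψ (algebraMap R _ r)) := h3
      exact (Subgroup.zpowers_le.mpr h5) hf
    exact (IntermediateField.mem_fixedField_iff _ _).mp (h2 hx) τ (Subgroup.mem_zpowers τ)
  let τF : Gal(kb/F) := AlgEquiv.ofRingEquiv (f := τ.toRingEquiv) (fun x => hτF x x.2)
  have hτF' : ∀ x, τF x = τ x := fun x => rfl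
  obtain ⟨t, ht⟩ := h1 τF⁻¹
  have hfin : ∀ b, Ψ' b = Ψ (actHom R (t * g) b) := by
    intro b
    rw [actHom_mul, ht, hτ, ← hτF']
    exact (τF.symm_apply_apply _).symm
  refine ⟨t * g, fun a => ?_, hfin⟩
  -- `t * g` preserves `kb`
  obtain ⟨a', ha'⟩ := exists_apply_alg k (t * g) a
  have h6 := hfin ⟨algebraMap kb M a, hBk a⟩
  have h7 : actHom R (t * g) ⟨algebraMap kb M a, hBk a⟩ = ⟨algebraMap kb M a', hBk a'⟩ :=
    Subtype.ext ha'
  rw [h7, hΨ, hΨ'] at h6
  rw [ha', h6]

end Pool.Agent.Lib.MP_2f3286_ag.Full
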