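import Mathlib

/-!
# Extension of valuation rings in algebraic extensions
-/

namespace Pool.Agent.Lib.MP_2f3286_ag.Full

open Polynomial

section ValExt

variable {E M : Type*} [Field E] [Field M] [Algebra E M]

/-- an element that is integral over a subring of a valuation ring is in the valuation ring -/
theorem mem_of_isIntegral_comap {𝔒 : ValuationSubring E} {𝒲 : ValuationSubring M}
    (h : 𝒲.comap (algebraMap E M) = 𝔒) {x : M} (hx : IsIntegral 𝔒 x) : x ∈ 𝒲 := by
  subst h
  obtain ⟨f, hf, hfx⟩ := hx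
  let j : (𝒲.comap (algebraMap E M)) →+* 𝒲 :=
    { toFun := fun a => ⟨algebraMap E M a, a.2⟩
      map_one' := by ext; simp
      map_mul' := by intro a b; ext; simp
      map_zero' := by ext; simp
      map_add' := by intro a b; ext; simp }
  have h1 : IsIntegral 𝒲 x := by
    refine ⟨f.map j, hf.map j, ?_⟩
    rw [eval₂_map]
    exact hfx
  obtain ⟨y, hy⟩ := (IsIntegrallyClosed.isIntegral_iff (R := 𝒲) (K := M)).mp h1
  rw [← hy]
  exact y.2

/-- **Unit coefficient lemma.** -/
theorem unit_coeff_aux {𝔒 : ValuationSubring E} {𝒲 : ValuationSubring M}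
    (h : 𝒲.comap (algebraMap E M) = 𝔒) (y : M) (n : ℕ) :
    ∀ f : (integralClosure 𝔒 M)[X], f.natDegree ≤ n → aeval y f = 0 →
      (∃ i, 𝒲.valuation (f.coeff i : M) = 1) →
      ∃ a b : M, IsIntegral 𝔒 a ∧ IsIntegral 𝔒 b ∧ y * b = a ∧
        (𝒲.valuation a = 1 ∨ 𝒲.valuation b = 1) := by
  have hle : ∀ c : integralClosure 𝔒 M, 𝒲.valuation (c : M) ≤ 1 := by
    intro c
    rw [𝒲.valuation_le_one_iff]
    exact mem_of_isIntegral_comap h c.2
  have hlt : ∀ c : integralClosure 𝔒 M, 𝒲.valuation (c : M) ≠ 1 → 𝒲.valuation (c : M) < 1 :=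
    fun c hc => lt_of_le_of_ne (hle c) hc
  induction n with
  | zero =>
    intro f hf hfy hu
    exfalso
    rw [Nat.le_zero, natDegree_eq_zero] at hf
    obtain ⟨a, rfl⟩ := hf
    obtain ⟨i, hi⟩ := hu
    rw [aeval_C] at hfy
    have ha : (a : M) = 0 := hfy
    rcases Nat.eq_zero_or_pos i with rfl | hi0
    · rw [coeff_C_zero, ha, map_zero] at hi
      exact zero_ne_one hi
    · rw [coeff_C_of_ne_zero (by omega)] at hi
      simp at hi
  | succ n ih =>
    intro f hf hfy hu
    by_cases hfn : f.natDegree ≤ n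
    · exact ih f hfn hfy hu
    have hdeg : f.natDegree = n + 1 := by omega
    set lc := f.leadingCoeff with hlc
    -- `b = lc * y` is integral
    have hb : IsIntegral (integralClosure 𝔒 M) ((lc : M) * y) := by
      have := RingHom.isIntegralElem_leadingCoeff_mul (f := algebraMap (integralClosure 𝔒 M) M)
        (p := f) y (by rw [← aeval_def]; exact hfy)
      exact this
    have hb' : IsIntegral 𝔒 ((lc : M) * y) := isIntegral_trans _ hb
    set b : integralClosure 𝔒 M := ⟨(lc : M) * y, hb'⟩ with hbdef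
    by_cases h1 : 𝒲.valuation (lc : M) = 1
    · exact ⟨(lc : M) * y, lc, hb', lc.2, mul_comm _ _, Or.inr h1⟩
    by_cases h2 : 𝒲.valuation (b : M) = 1
    · exact ⟨(lc : M) * y, lc, hb', lc.2, mul_comm _ _, Or.inl h2⟩
    have hb1 := hlt b h2
    have hl1 := hlt lc h1
    set g : (integralClosure 𝔒 M)[X] := f.eraseLead + C b * X ^ n with hg
    have hgdeg : g.natDegree ≤ n := by
      refine (natDegree_add_le _ _).trans (max_le ?_ ?_)
      · have := eraseLead_natDegree_le f
        omega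
      · exact natDegree_C_mul_X_pow_le _ _
    have hgy : aeval y g = 0 := by
      have h3 : aeval y f = aeval y f.eraseLead + (lc : M) * y ^ (n + 1) := by
        conv_lhs => rw [← eraseLead_add_C_mul_X_pow f]
        rw [map_add, map_mul, map_pow, aeval_X, aeval_C, hdeg]
        rfl
      rw [hg, map_add, map_mul, map_pow, aeval_X, aeval_C]
      have h4 : algebraMap (integralClosure 𝔒 M) M b = (lc : M) * y := rfl
      rw [h4]
      rw [h3] at hfy
      linear_combination hfy
    refine ih g hgdeg hgy ?_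
    obtain ⟨i, hi⟩ := hu
    have hi' : i ≤ n := by
      by_contra hcon
      rcases Nat.lt_or_ge (n + 1) i with h3 | h3
      · rw [coeff_eq_zero_of_natDegree_lt (by omega)] at hi
        simp at hi
      · have : i = f.natDegree := by omega
        rw [this] at hi
        exact h1 hi
    have hcoeff : g.coeff i = f.coeff i + if i = n then b else 0 := by
      rw [hg, coeff_add, eraseLead_coeff_of_ne i (by omega), coeff_C_mul, coeff_X_pow]
      split_ifs <;> simp
    refine ⟨i, ?_⟩
    rw [hcoeff]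
    by_cases hin : i = n
    · rw [if_pos hin]
      have h5 : ((f.coeff i + b : integralClosure 𝔒 M) : M) = (f.coeff i : M) + (b : M) := rfl
      rw [h5, Valuation.map_add_eq_of_lt_left _ (by rw [hi]; exact hb1), hi]
    · rw [if_neg hin, add_zero, hi]

/-- a finite family of elements of a valued field can be scaled to be primitive -/
theorem exists_scale {ι : Type*} (𝔒 : ValuationSubring E) (s : Finset ι) (c : ι → E)
    (hc : ∃ i ∈ s, c i ≠ 0) :
    ∃ d : E, d ≠ 0 ∧ (∀ i ∈ s, d * c i ∈ 𝔒) ∧ ∃ j ∈ s, d * c j = 1 := by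
  obtain ⟨i₀, hi₀, hci₀⟩ := hc
  obtain ⟨j, hj, hmax⟩ := s.exists_max_image (fun i => 𝔒.valuation (c i)) ⟨i₀, hi₀⟩
  have hcj : c j ≠ 0 := by
    intro h0
    have := hmax i₀ hi₀
    rw [h0, map_zero, le_zero_iff, map_eq_zero] at this
    exact hci₀ this
  refine ⟨(c j)⁻¹, inv_ne_zero hcj, fun i hi => ?_, j, hj, inv_mul_cancel₀ hcj⟩
  rw [← 𝔒.valuation_le_one_iff, map_mul, map_inv₀]
  have h1 : 𝔒.valuation (c j) ≠ 0 := by rwa [Ne, map_eq_zero]
  rw [inv_mul_le_iff₀ (zero_lt_iff.mpr h1), mul_one]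
  exact hmax i hi

theorem exists_integral_div [Algebra.IsAlgebraic E M] (𝔒 : ValuationSubring E)
    (𝒲 : ValuationSubring M) (h : 𝒲.comap (algebraMap E M) = 𝔒) (x : M) (hx : x ∈ 𝒲) :
    ∃ a b : M, IsIntegral 𝔒 a ∧ IsIntegral 𝔒 b ∧ 𝒲.valuation b = 1 ∧ x * b = a := by
  obtain ⟨f, hf0, hfx⟩ := Algebra.IsAlgebraic.isAlgebraic (R := E) x
  obtain ⟨i₀, hi₀⟩ : ∃ i, f.coeff i ≠ 0 := by
    by_contra hcon
    push Not at hcon
    exact hf0 (ext (by simpa using hcon))
  obtain ⟨d, hd0, hd, j, hj, hdj⟩ := exists_scale 𝔒 f.support (fun i => f.coeff i)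
    ⟨i₀, mem_support_iff.mpr hi₀, hi₀⟩
  have hd' : ∀ i, d * f.coeff i ∈ 𝔒 := by
    intro i
    by_cases hi : i ∈ f.support
    · exact hd i hi
    · rw [notMem_support_iff.mp hi, mul_zero]; exact 𝔒.zero_mem
  -- the polynomial with coefficients in `𝔒`
  let f₀ : 𝔒[X] := ∑ i ∈ f.support, C (⟨d * f.coeff i, hd' i⟩ : 𝔒) * X ^ i
  have hcoeff : ∀ i, ((f₀.coeff i : 𝔒) : E) = d * f.coeff i := by
    intro i
    simp only [f₀, finsetSum_coeff, coeff_C_mul, coeff_X_pow, mul_ite, mul_one, mul_zero,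
      Finset.sum_ite_eq]
    split_ifs with hi
    · rfl
    · rw [notMem_support_iff.mp hi, mul_zero]; rfl
  have hmap : f₀.map (algebraMap 𝔒 E) = C d * f := by
    ext i
    rw [coeff_map, coeff_C_mul]
    exact hcoeff i
  let f₁ : (integralClosure 𝔒 M)[X] := f₀.map (algebraMap 𝔒 (integralClosure 𝔒 M))
  have hf₁ : aeval x f₁ = 0 := by
    have h1 : aeval x f₁ = aeval x f₀ := by
      simp only [f₁]
      rw [aeval_map_algebraMap]
    rw [h1, ← aeval_map_algebraMap E, hmap, map_mul, hfx, mul_zero]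
  have hu : ∃ i, 𝒲.valuation ((f₁.coeff i : integralClosure 𝔒 M) : M) = 1 := by
    refine ⟨j, ?_⟩
    have h2 : ((f₁.coeff j : integralClosure 𝔒 M) : M) = algebraMap E M (d * f.coeff j) := by
      simp only [f₁]
      rw [coeff_map, ← hcoeff j]
      rfl
    rw [h2, hdj, map_one, map_one]
  obtain ⟨a, b, ha, hb, hab, hor⟩ := unit_coeff_aux h x f₁.natDegree f₁ le_rfl hf₁ hu
  refine ⟨a, b, ha, hb, ?_, hab⟩
  rcases hor with ha1 | hb1
  · rw [← hab, map_mul] at ha1
    have hx1 : 𝒲.valuation x ≤ 1 := (𝒲.valuation_le_one_iff x).mpr hx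
    have hb1 : 𝒲.valuation b ≤ 1 :=
      (𝒲.valuation_le_one_iff b).mpr (mem_of_isIntegral_comap h hb)
    refine le_antisymm hb1 ?_
    calc (1 : 𝒲.ValueGroup) = 𝒲.valuation x * 𝒲.valuation b := ha1.symm
      _ ≤ 1 * 𝒲.valuation b := by gcongr
      _ = 𝒲.valuation b := one_mul _
  · exact hb1

theorem val_lt_one_iff {K : Type*} [Field K] (A : ValuationSubring K) (x : K) :
    A.valuation x < 1 ↔ x = 0 ∨ x⁻¹ ∉ A := by
  by_cases hx : x = 0
  · simp [hx]
  · have h1 : A.valuation x ≠ 0 := by rwa [Ne, map_eq_zero]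
    rw [← A.valuation_le_one_iff, map_inv₀, inv_le_one₀ (zero_lt_iff.mpr h1), not_le]
    simp [hx]

theorem val_lt_one_comap {𝔒 : ValuationSubring E} {𝒲 : ValuationSubring M}
    (h : 𝒲.comap (algebraMap E M) = 𝔒) (a : E) :
    𝒲.valuation (algebraMap E M a) < 1 ↔ 𝔒.valuation a < 1 := by
  rw [val_lt_one_iff, val_lt_one_iff, ← h, ValuationSubring.mem_comap, map_inv₀, map_eq_zero]

theorem val_eq_one_of_mem {K : Type*} [Field K] {A : ValuationSubring K} {x : K} (hx : x ∈ A)
    (h : ¬ A.valuation x < 1) : A.valuation x = 1 :=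
  le_antisymm ((A.valuation_le_one_iff x).mpr hx) (not_lt.mp h)

/-- the integral closure is contained in the valuation ring -/
def incl {𝔒 : ValuationSubring E} {𝒲 : ValuationSubring M}
    (h : 𝒲.comap (algebraMap E M) = 𝔒) : integralClosure 𝔒 M →+* 𝒲 where
  toFun c := ⟨c, mem_of_isIntegral_comap h c.2⟩
  map_one' := rfl
  map_mul' _ _ := rfl
  map_zero' := rfl
  map_add' _ _ := rfl

/-- the prime ideal of the integral closure given by a valuation ring -/
def PP {𝔒 : ValuationSubring E} {𝒲 : ValuationSubring M}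
    (h : 𝒲.comap (algebraMap E M) = 𝔒) : Ideal (integralClosure 𝔒 M) :=
  (IsLocalRing.maximalIdeal 𝒲).comap (incl h)

theorem mem_PP {𝔒 : ValuationSubring E} {𝒲 : ValuationSubring M}
    (h : 𝒲.comap (algebraMap E M) = 𝔒) (c : integralClosure 𝔒 M) :
    c ∈ PP h ↔ 𝒲.valuation (c : M) < 1 :=
  𝒲.valuation_lt_one_iff (incl h c)

instance PP_prime {𝔒 : ValuationSubring E} {𝒲 : ValuationSubring M}
    (h : 𝒲.comap (algebraMap E M) = 𝔒) : (PP h).IsPrime :=
  Ideal.IsPrime.comap _

theorem PP_comap {𝔒 : ValuationSubring E} {𝒲 : ValuationSubring M}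
    (h : 𝒲.comap (algebraMap E M) = 𝔒) :
    (PP h).comap (algebraMap 𝔒 (integralClosure 𝔒 M)) = IsLocalRing.maximalIdeal 𝔒 := by
  ext a
  rw [Ideal.mem_comap, mem_PP, 𝔒.valuation_lt_one_iff]
  exact val_lt_one_comap h (a : E)

theorem PP_isMaximal {𝔒 : ValuationSubring E} {𝒲 : ValuationSubring M}
    (h : 𝒲.comap (algebraMap E M) = 𝔒) : (PP h).IsMaximal := by
  apply Ideal.isMaximal_of_isIntegral_of_isMaximal_comap (R := 𝔒)
  rw [PP_comap h]
  exact IsLocalRing.maximalIdeal.isMaximal 𝔒

/-- a valuation ring over `𝔒` is determined by its prime ideal -/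
theorem eq_of_PP_eq [Algebra.IsAlgebraic E M] {𝔒 : ValuationSubring E}
    {𝒲 𝒲' : ValuationSubring M} (h : 𝒲.comap (algebraMap E M) = 𝔒)
    (h' : 𝒲'.comap (algebraMap E M) = 𝔒) (hP : PP h = PP h') : 𝒲 = 𝒲' := by
  have key : ∀ {𝒰 𝒰' : ValuationSubring M} (k : 𝒰.comap (algebraMap E M) = 𝔒)
      (k' : 𝒰'.comap (algebraMap E M) = 𝔒), PP k = PP k' → 𝒰 ≤ 𝒰' := by
    intro 𝒰 𝒰' k k' hk x hx
    obtain ⟨a, b, ha, hb, hb1, hab⟩ := exists_integral_div 𝔒 𝒰 k x hx
    have h1 : (⟨b, hb⟩ : integralClosure 𝔒 M) ∉ PP k' := by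
      rw [← hk, mem_PP]
      exact hb1.ge.not_gt
    rw [mem_PP] at h1
    have h2 : 𝒰'.valuation b = 1 := val_eq_one_of_mem (mem_of_isIntegral_comap k' hb) h1
    have h3 : 𝒰'.valuation a ≤ 1 := (𝒰'.valuation_le_one_iff a).mpr (mem_of_isIntegral_comap k' ha)
    rw [← hab, map_mul, h2, mul_one] at h3
    exact (𝒰'.valuation_le_one_iff x).mp h3
  exact le_antisymm (key h h' hP) (key h' h hP.symm)

theorem exists_integral_residue [Algebra.IsAlgebraic E M] (𝔒 : ValuationSubring E)
    (𝒲 : ValuationSubring M) (h : 𝒲.comap (algebraMap E M) = 𝔒) (x : M) (hx : x ∈ 𝒲) :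
    ∃ b : M, IsIntegral 𝔒 b ∧ b ∈ 𝒲 ∧ 𝒲.valuation (x - b) < 1 := by
  obtain ⟨a, b, ha, hb, hb1, hab⟩ := exists_integral_div 𝔒 𝒲 h x hx
  have hmax := PP_isMaximal h
  have h1 : (⟨b, hb⟩ : integralClosure 𝔒 M) ∉ PP h := by
    rw [mem_PP]
    exact hb1.ge.not_gt
  obtain ⟨c, hc⟩ := hmax.exists_inv h1
  obtain ⟨i, hi, hci⟩ := hc
  rw [mem_PP] at hi
  have h2 : (c : M) * b + (i : M) = 1 := congrArg (fun z : integralClosure 𝔒 M => (z : M)) hci
  refine ⟨a * c, ha.mul c.2, 𝒲.mul_mem _ _ (mem_of_isIntegral_comap h ha)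
    (mem_of_isIntegral_comap h c.2), ?_⟩
  have h3 : x - a * c = x * i := by
    rw [← hab]
    linear_combination (-x) * h2
  rw [h3, map_mul]
  have hx1 : 𝒲.valuation x ≤ 1 := (𝒲.valuation_le_one_iff x).mpr hx
  calc 𝒲.valuation x * 𝒲.valuation (i : M) ≤ 1 * 𝒲.valuation (i : M) := by gcongr
    _ = 𝒲.valuation (i : M) := one_mul _
    _ < 1 := hi

/-! ### transitivity -/

section trans

variable {G : Type*} [Group G] [MulSemiringAction G M]

/-- the action on the integral closure -/
@[reducible] def smulClosure (hE : ∀ (g : G) (x : E), g • algebraMap E M x = algebraMap E M x)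
    (𝔒 : ValuationSubring E) : MulSemiringAction G (integralClosure 𝔒 M) :=
  have key : ∀ (g : G) (c : M), IsIntegral 𝔒 c → IsIntegral 𝔒 (g • c) := by
    intro g c hc
    let f : M →ₐ[𝔒] M :=
      { MulSemiringAction.toRingHom G M g with
        commutes' := fun a => hE g (a : E) }
    exact hc.map f
  { smul := fun g c => ⟨g • (c : M), key g c c.2⟩
    one_smul := fun c => Subtype.ext (one_smul G (c : M))
    mul_smul := fun g h c => Subtype.ext (mul_smul g h (c : M))
    smul_zero := fun g => Subtype.ext (smul_zero g)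
    smul_add := fun g a b => Subtype.ext (smul_add g (a : M) (b : M))
    smul_one := fun g => Subtype.ext (smul_one g)
    smul_mul := fun g a b => Subtype.ext (smul_mul' g (a : M) (b : M)) }

variable [TopologicalSpace G] [IsTopologicalGroup G] [CompactSpace G]
  [TotallyDisconnectedSpace G]

theorem algebraic_of_profinite
    (hopen : ∀ x : M, IsOpen (MulAction.stabilizer G x : Set G))
    (hE : ∀ (g : G) (x : E), g • algebraMap E M x = algebraMap E M x)
    (hfix : ∀ x : M, (∀ g : G, g • x = x) → ∃ y, algebraMap E M y = x) :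
    Algebra.IsAlgebraic E M := by
  let _ : TopologicalSpace M := ⊥
  have : DiscreteTopology M := ⟨rfl⟩
  have : ContinuousSMul G M := continuousSMul_iff_stabilizer_isOpen.mpr hopen
  have : SMulCommClass G E M := ⟨fun g a x => by
    rw [Algebra.smul_def, Algebra.smul_def, smul_mul', hE]⟩
  have : Algebra.IsInvariant E M G := ⟨fun x hx => hfix x hx⟩
  have : Algebra.IsIntegral E M := Algebra.IsInvariant.isIntegral_of_profinite (G := G)
  infer_instance

theorem val_trans
    (hopen : ∀ x : M, IsOpen (MulAction.stabilizer G x : Set G))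
    (hE : ∀ (g : G) (x : E), g • algebraMap E M x = algebraMap E M x)
    (hfix : ∀ x : M, (∀ g : G, g • x = x) → ∃ y, algebraMap E M y = x)
    (𝒲 𝒲' : ValuationSubring M)
    (h : 𝒲.comap (algebraMap E M) = 𝒲'.comap (algebraMap E M)) :
    ∃ g : G, ∀ x, x ∈ 𝒲' ↔ g • x ∈ 𝒲 := by
  have halg : Algebra.IsAlgebraic E M := algebraic_of_profinite hopen hE hfix
  obtain ⟨𝔒, h𝔒⟩ : ∃ 𝔒, 𝒲.comap (algebraMap E M) = 𝔒 := ⟨_, rfl⟩
  have h𝔒' : 𝒲'.comap (algebraMap E M) = 𝔒 := by rw [← h, h𝔒]
  let _ : MulSemiringAction G (integralClosure 𝔒 M) := smulClosure hE 𝔒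
  have hcoe : ∀ (g : G) (c : integralClosure 𝔒 M), ((g • c : integralClosure 𝔒 M) : M)
      = g • (c : M) := fun _ _ => rfl
  let _ : TopologicalSpace (integralClosure 𝔒 M) := ⊥
  have : DiscreteTopology (integralClosure 𝔒 M) := ⟨rfl⟩
  have : ContinuousSMul G (integralClosure 𝔒 M) := by
    refine continuousSMul_iff_stabilizer_isOpen.mpr fun c => ?_
    have : (MulAction.stabilizer G c : Set G) = (MulAction.stabilizer G (c : M) : Set G) := by
      ext g
      rw [SetLike.mem_coe, SetLike.mem_coe, MulAction.mem_stabilizer_iff,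
        MulAction.mem_stabilizer_iff, ← hcoe]
      exact Subtype.ext_iff
    rw [this]
    exact hopen _
  have hsm : ∀ (a : 𝔒) (c : integralClosure 𝔒 M), ((a • c : integralClosure 𝔒 M) : M)
      = algebraMap E M (a : E) * (c : M) := by
    intro a c
    rw [Subalgebra.coe_smul, Algebra.smul_def]
    rfl
  have : SMulCommClass G 𝔒 (integralClosure 𝔒 M) := ⟨fun g a x => by
    apply Subtype.ext
    rw [hcoe, hsm, hsm, hcoe, smul_mul', hE]⟩
  have : Algebra.IsInvariant 𝔒 (integralClosure 𝔒 M) G := by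
    refine ⟨fun c hc => ?_⟩
    obtain ⟨y, hy⟩ := hfix (c : M) (fun g => by rw [← hcoe, hc g])
    have hy' : y ∈ 𝔒 := by
      rw [← h𝔒, ValuationSubring.mem_comap, hy]
      exact mem_of_isIntegral_comap h𝔒 c.2
    exact ⟨⟨y, hy'⟩, Subtype.ext hy⟩
  have hunder : (PP h𝔒').under 𝔒 = (PP h𝔒).under 𝔒 := by
    change (PP h𝔒').comap (algebraMap 𝔒 (integralClosure 𝔒 M))
      = (PP h𝔒).comap (algebraMap 𝔒 (integralClosure 𝔒 M))
    rw [PP_comap, PP_comap]
  obtain ⟨g, hg⟩ := Algebra.IsInvariant.exists_smul_of_under_eq_of_profinite (G := G)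
    (PP h𝔒') (PP h𝔒) hunder
  have hg' : ∀ c : integralClosure 𝔒 M, c ∈ PP h𝔒' ↔ g • c ∈ PP h𝔒 := by
    intro c
    rw [hg, Ideal.smul_mem_pointwise_smul_iff]
  refine ⟨g, fun x => ⟨fun hx => ?_, fun hx => ?_⟩⟩
  · obtain ⟨a, b, ha, hb, hb1, hab⟩ := exists_integral_div 𝔒 𝒲' h𝔒' x hx
    have h1 : (⟨b, hb⟩ : integralClosure 𝔒 M) ∉ PP h𝔒' := by
      rw [mem_PP]; exact hb1.ge.not_gt
    rw [hg', mem_PP] at h1
    have h2 : 𝒲.valuation (g • b) = 1 :=
      val_eq_one_of_mem (mem_of_isIntegral_comap h𝔒 (g • (⟨b, hb⟩ : integralClosure 𝔒 M)).2) h1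
    have h3 : 𝒲.valuation (g • a) ≤ 1 := (𝒲.valuation_le_one_iff _).mpr
      (mem_of_isIntegral_comap h𝔒 (g • (⟨a, ha⟩ : integralClosure 𝔒 M)).2)
    rw [← hab, smul_mul', map_mul, h2, mul_one] at h3
    exact (𝒲.valuation_le_one_iff _).mp h3
  · obtain ⟨a, b, ha, hb, hb1, hab⟩ := exists_integral_div 𝔒 𝒲 h𝔒 (g • x) hx
    have h1 : (g⁻¹ • (⟨b, hb⟩ : integralClosure 𝔒 M)) ∉ PP h𝔒' := by
      rw [hg', smul_inv_smul, mem_PP]; exact hb1.ge.not_gt
    rw [mem_PP] at h1
    have h2 : 𝒲'.valuation (g⁻¹ • b) = 1 :=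
      val_eq_one_of_mem
        (mem_of_isIntegral_comap h𝔒' (g⁻¹ • (⟨b, hb⟩ : integralClosure 𝔒 M)).2) h1
    have h3 : 𝒲'.valuation (g⁻¹ • a) ≤ 1 := (𝒲'.valuation_le_one_iff _).mpr
      (mem_of_isIntegral_comap h𝔒' (g⁻¹ • (⟨a, ha⟩ : integralClosure 𝔒 M)).2)
    rw [← hab, smul_mul', inv_smul_smul, map_mul, h2, mul_one] at h3
    exact (𝒲'.valuation_le_one_iff _).mp h3

end trans

/-! ### finiteness -/

/-- coefficients in `𝔒`, not all in the maximal ideal: values in the extension -/
theorem val_algebraMap_of_mem {𝔒 : ValuationSubring E} {𝒲 : ValuationSubring M}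
    (h : 𝒲.comap (algebraMap E M) = 𝔒) {a : E} (ha : a ∈ 𝔒) :
    𝒲.valuation (algebraMap E M a) ≤ 1 := by
  rw [𝒲.valuation_le_one_iff, ← ValuationSubring.mem_comap, h]
  exact ha

theorem linearIndependent_of_residue {𝔒 : ValuationSubring E} {ι : Type*} [Finite ι]
    (𝒲 : ι → ValuationSubring M) (h : ∀ i, (𝒲 i).comap (algebraMap E M) = 𝔒) (e : ι → M)
    (he : ∀ i j, i ≠ j → (𝒲 j).valuation (e i) < 1) (he' : ∀ i, (𝒲 i).valuation (e i) = 1) :
    LinearIndependent E e := by
  classical
  have := Fintype.ofFinite ι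
  rw [Fintype.linearIndependent_iff]
  intro c hc
  by_contra hcon
  push Not at hcon
  obtain ⟨i₀, hi₀⟩ := hcon
  obtain ⟨d, hd0, hd, j, -, hj⟩ := exists_scale 𝔒 Finset.univ c ⟨i₀, Finset.mem_univ _, hi₀⟩
  have h1 : ∑ i, algebraMap E M (d * c i) * e i = 0 := by
    have : ∑ i, algebraMap E M (d * c i) * e i = algebraMap E M d * ∑ i, c i • e i := by
      rw [Finset.mul_sum]
      refine Finset.sum_congr rfl fun i _ => ?_
      rw [map_mul, Algebra.smul_def, mul_assoc]
    rw [this, hc, mul_zero]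
  rw [← Finset.add_sum_erase _ _ (Finset.mem_univ j), hj, map_one, one_mul] at h1
  have h2 : (𝒲 j).valuation (∑ i ∈ Finset.univ.erase j, algebraMap E M (d * c i) * e i) < 1 := by
    apply Valuation.map_sum_lt _ one_ne_zero
    intro i hi
    rw [map_mul]
    calc (𝒲 j).valuation (algebraMap E M (d * c i)) * (𝒲 j).valuation (e i)
        ≤ 1 * (𝒲 j).valuation (e i) := by
          gcongr
          exact val_algebraMap_of_mem (h j) (hd i (Finset.mem_univ i))
      _ = (𝒲 j).valuation (e i) := one_mul _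
      _ < 1 := he i j (Finset.ne_of_mem_erase hi)
  have h3 : e j = -∑ i ∈ Finset.univ.erase j, algebraMap E M (d * c i) * e i := by
    linear_combination h1
  have h4 := he' j
  rw [h3, Valuation.map_neg] at h4
  exact h2.ne h4

theorem val_finite [FiniteDimensional E M] (𝔒 : ValuationSubring E) :
    {𝒲 : ValuationSubring M | 𝒲.comap (algebraMap E M) = 𝔒}.Finite := by
  classical
  by_contra hinf
  obtain ⟨t, ht, htc⟩ := Set.Infinite.exists_subset_card_eq hinf (Module.finrank E M + 1)
  let 𝒲 : t → ValuationSubring M := fun i => i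
  have h : ∀ i, (𝒲 i).comap (algebraMap E M) = 𝔒 := fun i => ht i.2
  let P : t → Ideal (integralClosure 𝔒 M) := fun i => PP (h i)
  have hcop : Pairwise (Function.onFun IsCoprime P) := by
    intro i j hij
    have := PP_isMaximal (h i)
    have := PP_isMaximal (h j)
    apply Ideal.isCoprime_of_isMaximal
    intro heq
    exact hij (Subtype.ext (eq_of_PP_eq (h i) (h j) heq))
  have hex : ∀ i : t, ∃ r : integralClosure 𝔒 M, ∀ j, r - (if i = j then 1 else 0) ∈ P j :=
    fun i => Ideal.exists_forall_sub_mem_ideal hcop (fun j => if i = j then 1 else 0)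
  choose r hr using hex
  have hli : LinearIndependent E (fun i => ((r i : integralClosure 𝔒 M) : M)) := by
    apply linearIndependent_of_residue 𝒲 h
    · intro i j hij
      have h1 := hr i j
      rw [if_neg hij, sub_zero] at h1
      exact (mem_PP (h j) (r i)).mp h1
    · intro i
      have h1 := hr i i
      rw [if_pos rfl] at h1
      apply val_eq_one_of_mem (mem_of_isIntegral_comap (h i) (r i).2)
      intro h2
      have h3 : r i ∈ P i := (mem_PP (h i) (r i)).mpr h2
      have h4 : (1 : integralClosure 𝔒 M) ∈ P i := by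
        have := (P i).sub_mem h3 h1
        rwa [sub_sub_cancel] at this
      exact (PP_prime (h i)).ne_top ((Ideal.eq_top_iff_one _).mpr h4)
  have h5 := hli.fintype_card_le_finrank
  rw [Fintype.card_coe, htc] at h5
  omega

theorem val_unique_of_deg [FiniteDimensional E M] (𝒲 : ValuationSubring M)
    (x : Fin (Module.finrank E M) → M) (hx : ∀ i, x i ∈ 𝒲)
    (hind : ∀ c : Fin (Module.finrank E M) → E, (∀ i, algebraMap E M (c i) ∈ 𝒲) →
      (∃ i, 𝒲.valuation (algebraMap E M (c i)) = 1) →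
      𝒲.valuation (∑ i, algebraMap E M (c i) * x i) = 1)
    (𝒲' : ValuationSubring M)
    (h : 𝒲'.comap (algebraMap E M) = 𝒲.comap (algebraMap E M)) : 𝒲' = 𝒲 := by
  classical
  by_contra hne
  obtain ⟨𝔒, h𝔒⟩ : ∃ 𝔒, 𝒲.comap (algebraMap E M) = 𝔒 := ⟨_, rfl⟩
  have h𝔒' : 𝒲'.comap (algebraMap E M) = 𝔒 := by rw [h, h𝔒]
  have hmax := PP_isMaximal h𝔒
  have hmax' := PP_isMaximal h𝔒'
  have hcop : IsCoprime (PP h𝔒) (PP h𝔒') := by
    apply Ideal.isCoprime_of_isMaximal
    intro heq
    exact hne (eq_of_PP_eq h𝔒 h𝔒' heq).symm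
  obtain ⟨u, hu, v, hv, huv⟩ := (Ideal.isCoprime_iff_exists).mp hcop
  -- `v = 1` modulo `P`, `v ∈ P'`; `u ∈ P`, `u = 1` modulo `P'`
  choose b hb hbW hbx using fun i => exists_integral_residue 𝔒 𝒲 h𝔒 (x i) (hx i)
  have hle : ∀ c : integralClosure 𝔒 M, 𝒲.valuation (c : M) ≤ 1 := fun c =>
    (𝒲.valuation_le_one_iff _).mpr (mem_of_isIntegral_comap h𝔒 c.2)
  have hle' : ∀ c : integralClosure 𝔒 M, 𝒲'.valuation (c : M) ≤ 1 := fun c =>
    (𝒲'.valuation_le_one_iff _).mpr (mem_of_isIntegral_comap h𝔒' c.2)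
  have huW : 𝒲.valuation (u : M) < 1 := (mem_PP h𝔒 u).mp hu
  have hvW : 𝒲'.valuation (v : M) < 1 := (mem_PP h𝔒' v).mp hv
  have huv' : (u : M) + (v : M) = 1 := congrArg (fun z : integralClosure 𝔒 M => (z : M)) huv
  have huW' : 𝒲'.valuation (u : M) = 1 := by
    have : (u : M) = 1 - v := by linear_combination huv'
    rw [this]
    exact Valuation.map_one_sub_of_lt _ hvW
  -- the `n + 1` elements
  let e : Option (Fin (Module.finrank E M)) → M := fun o => o.elim (u : M) (fun i => b i * v)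
  have hli : LinearIndependent E e := by
    rw [Fintype.linearIndependent_iff]
    intro c hc
    by_contra hcon
    push Not at hcon
    obtain ⟨i₀, hi₀⟩ := hcon
    obtain ⟨d, hd0, hd, j, -, hj⟩ := exists_scale 𝔒 Finset.univ c ⟨i₀, Finset.mem_univ _, hi₀⟩
    have h1 : ∑ i, algebraMap E M (d * c i) * e i = 0 := by
      have : ∑ i, algebraMap E M (d * c i) * e i = algebraMap E M d * ∑ i, c i • e i := by
        rw [Finset.mul_sum]
        refine Finset.sum_congr rfl fun i _ => ?_
        rw [map_mul, Algebra.smul_def, mul_assoc]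
      rw [this, hc, mul_zero]
    rw [Fintype.sum_option] at h1
    have hd𝔒 : ∀ o, d * c o ∈ 𝔒 := fun o => hd o (Finset.mem_univ o)
    have hdW : ∀ o, 𝒲.valuation (algebraMap E M (d * c o)) ≤ 1 := fun o =>
      val_algebraMap_of_mem h𝔒 (hd𝔒 o)
    have hdW' : ∀ o, 𝒲'.valuation (algebraMap E M (d * c o)) ≤ 1 := fun o =>
      val_algebraMap_of_mem h𝔒' (hd𝔒 o)
    by_cases hex : ∃ i : Fin (Module.finrank E M), 𝒲.valuation (algebraMap E M (d * c (some i))) = 1
    · -- contradiction in `𝒲`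
      have h2 := hind (fun i => d * c (some i))
        (fun i => (𝒲.valuation_le_one_iff _).mp (hdW _)) hex
      have h3 : ∑ i, algebraMap E M (d * c (some i)) * x i
          = ∑ i, algebraMap E M (d * c (some i)) * (x i - b i * v)
            - algebraMap E M (d * c none) * u := by
        have h4 : algebraMap E M (d * c none) * (u : M)
            + ∑ i, algebraMap E M (d * c (some i)) * (b i * v) = 0 := h1
        have h5 : ∑ i, algebraMap E M (d * c (some i)) * (x i - b i * v)
            = ∑ i, algebraMap E M (d * c (some i)) * x i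
              - ∑ i, algebraMap E M (d * c (some i)) * (b i * v) := by
          rw [← Finset.sum_sub_distrib]
          exact Finset.sum_congr rfl fun i _ => by ring
        rw [h5]
        linear_combination h4
      have h6 : 𝒲.valuation (∑ i, algebraMap E M (d * c (some i)) * (x i - b i * v)
            - algebraMap E M (d * c none) * u) < 1 := by
        refine (Valuation.map_sub _ _ _).trans_lt (max_lt ?_ ?_)
        · apply Valuation.map_sum_lt _ one_ne_zero
          intro i _
          have h7 : x i - b i * v = (x i - b i) + b i * u := by linear_combination (-(b i)) * huv'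
          rw [map_mul 𝒲.valuation, h7]
          have h8 : 𝒲.valuation ((x i - b i) + b i * u) < 1 := by
            refine (Valuation.map_add _ _ _).trans_lt (max_lt (hbx i) ?_)
            rw [map_mul]
            calc 𝒲.valuation (b i) * 𝒲.valuation (u : M) ≤ 1 * 𝒲.valuation (u : M) := by
                  gcongr
                  exact (𝒲.valuation_le_one_iff _).mpr (hbW i)
              _ = 𝒲.valuation (u : M) := one_mul _
              _ < 1 := huW
          calc 𝒲.valuation (algebraMap E M (d * c (some i))) *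
                𝒲.valuation ((x i - b i) + b i * u)
              ≤ 1 * 𝒲.valuation ((x i - b i) + b i * u) := by
                gcongr
                exact hdW _
            _ = 𝒲.valuation ((x i - b i) + b i * u) := one_mul _
            _ < 1 := h8
        · rw [map_mul]
          calc 𝒲.valuation (algebraMap E M (d * c none)) * 𝒲.valuation (u : M)
              ≤ 1 * 𝒲.valuation (u : M) := by
                gcongr
                exact hdW _
            _ = 𝒲.valuation (u : M) := one_mul _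
            _ < 1 := huW
      rw [← h3, h2] at h6
      exact lt_irrefl _ h6
    · -- contradiction in `𝒲'`
      push Not at hex
      have hj' : j = none := by
        rcases j with _ | i
        · rfl
        · exfalso
          apply hex i
          rw [hj, map_one, map_one]
      have h2 : (u : M) + ∑ i, algebraMap E M (d * c (some i)) * (b i * v) = 0 := by
        have h4 : algebraMap E M (d * c none) * (u : M)
            + ∑ i, algebraMap E M (d * c (some i)) * (b i * v) = 0 := h1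
        rw [hj'] at hj
        rw [hj, map_one, one_mul] at h4
        exact h4
      have h3 : 𝒲'.valuation (∑ i, algebraMap E M (d * c (some i)) * (b i * v)) < 1 := by
        apply Valuation.map_sum_lt _ one_ne_zero
        intro i _
        rw [map_mul 𝒲'.valuation, map_mul 𝒲'.valuation (b i)]
        calc 𝒲'.valuation (algebraMap E M (d * c (some i))) *
              (𝒲'.valuation (b i) * 𝒲'.valuation (v : M))
            ≤ 1 * (1 * 𝒲'.valuation (v : M)) := by
              gcongr
              · exact hdW' _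
              · exact (𝒲'.valuation_le_one_iff _).mpr (mem_of_isIntegral_comap h𝔒' (hb i))
          _ = 𝒲'.valuation (v : M) := by rw [one_mul, one_mul]
          _ < 1 := hvW
      have h4 : (u : M) = -∑ i, algebraMap E M (d * c (some i)) * (b i * v) := by
        linear_combination h2
      rw [h4, Valuation.map_neg] at huW'
      exact h3.ne huW'
  have h5 := hli.fintype_card_le_finrank
  rw [Fintype.card_option, Fintype.card_fin] at h5
  omega

end ValExt

end Pool.Agent.Lib.MP_2f3286_ag.Full
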