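import Pool.Agent.Lib.MP_2f3286_ag.Full.WField

/-!
# Characters and valuations
-/


open Polynomial IntermediateField
open scoped Pointwise

namespace Pool.Agent.Lib.MP_2f3286_ag.Full

/-! ### characters with values in `ℤ_ℓ` -/

section

variable {ℓ : ℕ} [Fact ℓ.Prime]

theorem exists_unit_char {H : Type*} [Group H] [TopologicalSpace H]
    (χ : H →ₜ* Multiplicative ℤ_[ℓ]) (h : ∃ h, χ h ≠ 1) :
    ∃ χ₁ : H →ₜ* Multiplicative ℤ_[ℓ], (∃ h, IsUnit (χ₁ h).toAdd) ∧
      ∃ a : ℕ, ∀ h, (χ h).toAdd = (ℓ : ℤ_[ℓ]) ^ a * (χ₁ h).toAdd := by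
  classical
  have hex : ∃ n : ℕ, ∃ h, (χ h).toAdd ≠ 0 ∧ (χ h).toAdd.valuation = n := by
    obtain ⟨h, hh⟩ := h
    exact ⟨_, h, fun h0 => hh (Multiplicative.toAdd.injective h0), rfl⟩
  set a := Nat.find hex with ha
  obtain ⟨h₀, h₀0, h₀a⟩ := Nat.find_spec hex
  have hmin : ∀ h, (ℓ : ℤ_[ℓ]) ^ a ∣ (χ h).toAdd := by
    intro h
    by_cases h0 : (χ h).toAdd = 0
    · rw [h0]; exact dvd_zero _
    · have h1 : a ≤ (χ h).toAdd.valuation := Nat.find_min' hex ⟨h, h0, rfl⟩
      rw [← Ideal.mem_span_singleton, PadicInt.mem_span_pow_iff_le_valuation _ h0]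
      exact h1
  have hl0 : (ℓ : ℤ_[ℓ]) ^ a ≠ 0 := pow_ne_zero _ (by exact_mod_cast (Fact.out : ℓ.Prime).ne_zero)
  choose c hc using hmin
  have hcl : Topology.IsClosedEmbedding (fun x : ℤ_[ℓ] => (ℓ : ℤ_[ℓ]) ^ a * x) :=
    Continuous.isClosedEmbedding (continuous_const.mul continuous_id)
      (mul_right_injective₀ hl0)
  have hcont : Continuous c := by
    rw [hcl.isInducing.continuous_iff]
    have h2 : (fun x : ℤ_[ℓ] => (ℓ : ℤ_[ℓ]) ^ a * x) ∘ c = fun h => (χ h).toAdd := by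
      funext h; exact (hc h).symm
    rw [h2]
    exact continuous_toAdd.comp χ.continuous_toFun
  refine ⟨{ toFun := fun h => Multiplicative.ofAdd (c h)
            map_one' := ?_
            map_mul' := ?_
            continuous_toFun := continuous_ofAdd.comp hcont }, ⟨h₀, ?_⟩, a, fun h => hc h⟩
  · apply Multiplicative.toAdd.injective
    apply mul_left_cancel₀ hl0
    change (ℓ : ℤ_[ℓ]) ^ a * c 1 = (ℓ : ℤ_[ℓ]) ^ a * 0
    rw [← hc, map_one, mul_zero]
    rfl
  · intro x y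
    apply Multiplicative.toAdd.injective
    apply mul_left_cancel₀ hl0
    change (ℓ : ℤ_[ℓ]) ^ a * c (x * y) = (ℓ : ℤ_[ℓ]) ^ a * (c x + c y)
    rw [← hc, map_mul, mul_add, ← hc, ← hc]
    rfl
  · change IsUnit (c h₀)
    rw [PadicInt.isUnit_iff]
    by_contra hne
    have hlt : ‖c h₀‖ < 1 := lt_of_le_of_ne (PadicInt.norm_le_one _) hne
    rw [PadicInt.norm_lt_one_iff_dvd] at hlt
    obtain ⟨d, hd⟩ := hlt
    have h3 : (χ h₀).toAdd = (ℓ : ℤ_[ℓ]) ^ (a + 1) * d := by
      rw [hc, hd, pow_succ, mul_assoc]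
    have h4 : a + 1 ≤ (χ h₀).toAdd.valuation := by
      rw [← PadicInt.mem_span_pow_iff_le_valuation _ h₀0, Ideal.mem_span_singleton]
      exact ⟨d, h3⟩
    omega

theorem surj_of_unit {D : Type*} [Group D] [TopologicalSpace D] [CompactSpace D]
    (χ : D →ₜ* Multiplicative ℤ_[ℓ]) (h : ∃ d, IsUnit (χ d).toAdd) :
    Function.Surjective χ := by
  obtain ⟨d, u, hu⟩ := h
  have hc : IsClosed (Set.range fun x : D => (χ x).toAdd) :=
    (isCompact_range (continuous_toAdd.comp χ.continuous_toFun)).isClosed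
  have h1 : ∀ z : ℤ_[ℓ], z * u ∈ Set.range fun x : D => (χ x).toAdd := by
    have h2 : IsClosed {z : ℤ_[ℓ] | z * u ∈ Set.range fun x : D => (χ x).toAdd} :=
      hc.preimage (continuous_id.mul continuous_const)
    intro z
    refine PadicInt.denseRange_intCast.induction_on (p := fun z : ℤ_[ℓ] =>
      z * u ∈ Set.range fun x : D => (χ x).toAdd) z h2 ?_
    intro n
    refine ⟨d ^ n, ?_⟩
    change (χ (d ^ n)).toAdd = _
    rw [map_zpow, toAdd_zpow, ← hu, zsmul_eq_mul]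
  intro z
  obtain ⟨x, hx⟩ := h1 (z.toAdd * ((u⁻¹ : ℤ_[ℓ]ˣ) : ℤ_[ℓ]))
  refine ⟨x, Multiplicative.toAdd.injective ?_⟩
  rw [mul_assoc, Units.inv_mul, mul_one] at hx
  exact hx

end

/-! ### valuations -/

section

variable {L M : Type*} [Field L] [Field M] (f : L →+* M) (W : ValuationSubring M)

theorem val_eq_one_iff_mem {x : M} : W.valuation x = 1 ↔ x ≠ 0 ∧ x ∈ W ∧ x⁻¹ ∈ W := by
  constructor
  · intro h
    refine ⟨?_, ?_, ?_⟩
    · rintro rfl
      rw [map_zero] at h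
      exact zero_ne_one h
    · rw [← W.valuation_le_one_iff, h]
    · rw [← W.valuation_le_one_iff, map_inv₀, h, inv_one]
  · rintro ⟨h0, h1, h2⟩
    rw [← W.valuation_le_one_iff] at h1 h2
    rw [map_inv₀] at h2
    have h3 : W.valuation x ≠ 0 := (Valuation.ne_zero_iff _).mpr h0
    refine le_antisymm h1 ?_
    by_contra h4
    push Not at h4
    have h5 := (one_lt_inv₀ (zero_lt_iff.mpr h3)).mpr h4
    exact absurd h2 (not_le.mpr h5)

theorem val_comap_le_one (x : L) : (W.comap f).valuation x ≤ 1 ↔ W.valuation (f x) ≤ 1 := by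
  rw [ValuationSubring.valuation_le_one_iff, ValuationSubring.valuation_le_one_iff]
  exact Iff.rfl

theorem val_comap_eq_one (x : L) : (W.comap f).valuation x = 1 ↔ W.valuation (f x) = 1 := by
  rw [val_eq_one_iff_mem, val_eq_one_iff_mem, ValuationSubring.mem_comap,
    ValuationSubring.mem_comap, map_inv₀, Ne, Ne, map_eq_zero]

theorem val_comap_lt_one (x : L) : (W.comap f).valuation x < 1 ↔ W.valuation (f x) < 1 := by
  rw [lt_iff_le_and_ne, lt_iff_le_and_ne, val_comap_le_one, Ne, val_comap_eq_one]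

theorem isGauss_comap {kb : Type*} [Field kb] [Algebra kb L] [Algebra kb M] (φ : kb →+* kb)
    (hf : ∀ a, f (algebraMap kb L a) = algebraMap kb M (φ a)) (t : L)
    (h : IsGauss kb (f t) W) : IsGauss kb t (W.comap f) := by
  intro q hq ⟨i, hi⟩
  rw [val_comap_eq_one] at hi ⊢
  have h1 : f (aeval t q) = aeval (f t) (q.map φ) := by
    rw [aeval_def, aeval_def, hom_eval₂, eval₂_map]
    congr 1
    ext a
    exact hf a
  rw [h1]
  refine h _ (fun j => ?_) ⟨i, ?_⟩
  · rw [coeff_map, ← hf]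
    exact (val_comap_le_one f W _).mp (hq j)
  · rw [coeff_map, ← hf]
    exact hi

end

end Pool.Agent.Lib.MP_2f3286_ag.Full
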