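import Mathlib

/-!
# The asymptotic Lie algebra of a group of `p`-adic matrices

`asym_lie`: for a group of `p`-adic integral matrices congruent to `1` modulo `p ^ 2`, the set of
all matrices `X` such that for every `R` and all large `m` some element of the group is
`1 + p ^ m X` modulo `p ^ (m + R)` is a Lie algebra, and it contains `Φ (g - 1)` for every element
`g` of the group, with `Φ` congruent to `1` modulo `p` (namely `log g = Φ (g - 1)`).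
-/

namespace Pool.Agent.Lib.MP_2f3286_ag.Full

open Filter Topology

namespace Asym

set_option linter.unusedSectionVars false
set_option linter.unusedTactic false

variable {p : ℕ} [Fact p.Prime] {n : Type*} [Fintype n] [DecidableEq n]

/-- `X ≡ 0 mod p ^ N` -/
def Sm (N : ℤ) (X : Matrix n n ℚ_[p]) : Prop := ∀ i j, ‖X i j‖ ≤ (p : ℝ) ^ (-N)

variable (p) in
theorem ppos : (0 : ℝ) < p := by exact_mod_cast (Fact.out : p.Prime).pos

variable (p) in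
theorem one_lt : (1 : ℝ) < p := by exact_mod_cast (Fact.out : p.Prime).one_lt

theorem Sm.mono {N M : ℤ} {X : Matrix n n ℚ_[p]} (h : Sm N X) (hNM : M ≤ N) : Sm M X := fun i j =>
  (h i j).trans (zpow_le_zpow_right₀ (one_lt p).le (by omega))

theorem Sm.zero (N : ℤ) : Sm N (0 : Matrix n n ℚ_[p]) := fun i j => by
  have := (zpow_pos (ppos p) (-N)).le
  simpa using this

theorem Sm.neg {N : ℤ} {X : Matrix n n ℚ_[p]} (h : Sm N X) : Sm N (-X) := fun i j => by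
  simpa using h i j

theorem Sm.add {N : ℤ} {X Y : Matrix n n ℚ_[p]} (hX : Sm N X) (hY : Sm N Y) : Sm N (X + Y) :=
  fun i j => (Padic.nonarchimedean _ _).trans (max_le (hX i j) (hY i j))

theorem Sm.sub {N : ℤ} {X Y : Matrix n n ℚ_[p]} (hX : Sm N X) (hY : Sm N Y) : Sm N (X - Y) := by
  rw [sub_eq_add_neg]; exact hX.add hY.neg

theorem Sm.mul {N M : ℤ} {X Y : Matrix n n ℚ_[p]} (hX : Sm N X) (hY : Sm M Y) :
    Sm (N + M) (X * Y) := fun i j => by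
  rw [Matrix.mul_apply]
  refine IsUltrametricDist.norm_sum_le_of_forall_le_of_nonneg (zpow_pos (ppos p) _).le
    fun k _ => ?_
  rw [norm_mul, neg_add, zpow_add₀ (ppos p).ne']
  exact mul_le_mul (hX i k) (hY k j) (norm_nonneg _) (zpow_pos (ppos p) _).le

theorem Sm.smul {N k : ℤ} {X : Matrix n n ℚ_[p]} {c : ℚ_[p]} (hc : ‖c‖ ≤ (p : ℝ) ^ (-k))
    (hX : Sm N X) : Sm (k + N) (c • X) := fun i j => by
  rw [Matrix.smul_apply, smul_eq_mul, norm_mul, neg_add, zpow_add₀ (ppos p).ne']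
  exact mul_le_mul hc (hX i j) (norm_nonneg _) (zpow_pos (ppos p) _).le

theorem Sm.ppow {N : ℤ} {X : Matrix n n ℚ_[p]} (hX : Sm N X) (m : ℕ) :
    Sm (m + N) ((p : ℚ_[p]) ^ m • X) :=
  hX.smul (by rw [Padic.norm_p_pow])

theorem Sm.sum {N : ℤ} {ι : Type*} {s : Finset ι} {X : ι → Matrix n n ℚ_[p]}
    (h : ∀ k ∈ s, Sm N (X k)) : Sm N (∑ k ∈ s, X k) := by
  classical
  induction s using Finset.induction_on with
  | empty => simpa using Sm.zero N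
  | insert a s ha ih =>
    rw [Finset.sum_insert ha]
    exact (h a (Finset.mem_insert_self a s)).add
      (ih fun k hk => h k (Finset.mem_insert_of_mem hk))

theorem exists_sm (X : Matrix n n ℚ_[p]) : ∃ a : ℕ, Sm (-(a : ℤ)) X := by
  obtain ⟨a, ha⟩ := pow_unbounded_of_one_lt (∑ i, ∑ j, ‖X i j‖) (one_lt p)
  refine ⟨a, fun i j => ?_⟩
  rw [neg_neg, zpow_natCast]
  refine le_trans ?_ ha.le
  refine le_trans ?_ (Finset.single_le_sum (f := fun i => ∑ j, ‖X i j‖)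
    (fun i _ => Finset.sum_nonneg fun j _ => norm_nonneg _) (Finset.mem_univ i))
  exact Finset.single_le_sum (f := fun j => ‖X i j‖) (fun j _ => norm_nonneg _) (Finset.mem_univ j)

theorem Sm.one : Sm 0 (1 : Matrix n n ℚ_[p]) := fun i j => by
  rw [Matrix.one_apply]
  split_ifs <;> simp

/-! ### the asymptotic Lie algebra -/

section Mem

variable {Γ : Type*} [Group Γ] (G : Γ →* Matrix n n ℚ_[p])

/-- for all `R` and all large `m` some `G γ` is `1 + p ^ m X` modulo `p ^ (m + R)` -/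
def Mem (X : Matrix n n ℚ_[p]) : Prop :=
  ∀ R : ℕ, ∃ m₀ : ℕ, ∀ m : ℕ, m₀ ≤ m → ∃ γ, Sm (m + R) (G γ - 1 - (p : ℚ_[p]) ^ m • X)

variable {G}

theorem Mem.zero : Mem G 0 := fun R => ⟨0, fun m _ => ⟨1, by
  simpa using Sm.zero _⟩⟩

theorem sm_of_approx {a m R : ℕ} {g X : Matrix n n ℚ_[p]} (ha : Sm (-(a : ℤ)) X)
    (h : Sm (m + R) (g - 1 - (p : ℚ_[p]) ^ m • X)) : Sm (m - a) (g - 1) := by
  have h1 : Sm ((m : ℤ) - a) ((p : ℚ_[p]) ^ m • X) := (ha.ppow m).mono (by omega)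
  have h2 := (h.mono (show (m : ℤ) - a ≤ m + R by omega)).add h1
  simpa using h2

theorem Mem.add {X Y : Matrix n n ℚ_[p]} (hX : Mem G X) (hY : Mem G Y) : Mem G (X + Y) := by
  intro R
  obtain ⟨a, ha⟩ := exists_sm X
  obtain ⟨b, hb⟩ := exists_sm Y
  obtain ⟨m₁, h₁⟩ := hX R
  obtain ⟨m₂, h₂⟩ := hY R
  refine ⟨m₁ + m₂ + R + a + b, fun m hm => ?_⟩
  obtain ⟨γ, hγ⟩ := h₁ m (by omega)
  obtain ⟨δ, hδ⟩ := h₂ m (by omega)
  refine ⟨γ * δ, ?_⟩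
  have e : G (γ * δ) - 1 - (p : ℚ_[p]) ^ m • (X + Y)
      = (G γ - 1 - (p : ℚ_[p]) ^ m • X) + (G δ - 1 - (p : ℚ_[p]) ^ m • Y)
        + (G γ - 1) * (G δ - 1) := by
    rw [map_mul, smul_add]
    noncomm_ring
  rw [e]
  exact (hγ.add hδ).add (((sm_of_approx ha hγ).mul (sm_of_approx hb hδ)).mono (by push_cast; omega))

theorem Mem.of_closure {X : Matrix n n ℚ_[p]} (h : ∀ R : ℕ, ∃ Y, Mem G Y ∧ Sm R (X - Y)) :
    Mem G X := by
  intro R
  obtain ⟨Y, hY, hXY⟩ := h R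
  obtain ⟨m₀, h₀⟩ := hY R
  refine ⟨m₀, fun m hm => ?_⟩
  obtain ⟨γ, hγ⟩ := h₀ m hm
  refine ⟨γ, ?_⟩
  have e : G γ - 1 - (p : ℚ_[p]) ^ m • X
      = (G γ - 1 - (p : ℚ_[p]) ^ m • Y) - (p : ℚ_[p]) ^ m • (X - Y) := by
    rw [smul_sub]; abel
  rw [e]
  exact hγ.sub (hXY.ppow m)

theorem Mem.shift {X : Matrix n n ℚ_[p]} (hX : Mem G X) (k : ℕ) :
    Mem G (((p : ℚ_[p]) ^ k)⁻¹ • X) := by
  have hp : (p : ℚ_[p]) ≠ 0 := by exact_mod_cast (Fact.out : p.Prime).ne_zero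
  intro R
  obtain ⟨m₀, h₀⟩ := hX (R + k)
  refine ⟨m₀ + k, fun m hm => ?_⟩
  obtain ⟨γ, hγ⟩ := h₀ (m - k) (by omega)
  refine ⟨γ, ?_⟩
  have e : (p : ℚ_[p]) ^ m • ((p : ℚ_[p]) ^ k)⁻¹ • X = (p : ℚ_[p]) ^ (m - k) • X := by
    rw [smul_smul]
    congr 1
    rw [mul_inv_eq_iff_eq_mul₀ (pow_ne_zero _ hp), ← pow_add]
    congr 1
    omega
  rw [e]
  exact hγ.mono (by push_cast; omega)

theorem Mem.nat {X : Matrix n n ℚ_[p]} (hX : Mem G X) (a : ℕ) : Mem G ((a : ℚ_[p]) • X) := by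
  induction a with
  | zero => simpa using Mem.zero
  | succ a ih =>
    have : ((a + 1 : ℕ) : ℚ_[p]) • X = (a : ℚ_[p]) • X + X := by
      push_cast; rw [add_smul, one_smul]
    rw [this]
    exact ih.add hX

theorem Mem.int {X : Matrix n n ℚ_[p]} (hX : Mem G X) (c : ℤ_[p]) : Mem G ((c : ℚ_[p]) • X) := by
  refine Mem.of_closure fun R => ?_
  obtain ⟨b, hb⟩ := exists_sm X
  obtain ⟨a, ha⟩ := PadicInt.denseRange_natCast.exists_dist_lt c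
    (zpow_pos (ppos p) (-((R : ℤ) + b)))
  refine ⟨(a : ℚ_[p]) • X, hX.nat a, ?_⟩
  rw [← sub_smul]
  have h1 : ‖(c : ℚ_[p]) - (a : ℚ_[p])‖ ≤ (p : ℝ) ^ (-((R : ℤ) + b)) := by
    rw [dist_eq_norm, PadicInt.norm_def] at ha
    have := ha.le
    push_cast at this
    exact this
  exact (hb.smul h1).mono (by omega)

theorem Mem.smul {X : Matrix n n ℚ_[p]} (hX : Mem G X) (c : ℚ_[p]) : Mem G (c • X) := by
  have hp : (p : ℚ_[p]) ≠ 0 := by exact_mod_cast (Fact.out : p.Prime).ne_zero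
  obtain ⟨k, hk⟩ := pow_unbounded_of_one_lt ‖c‖ (one_lt p)
  have h1 : ‖(p : ℚ_[p]) ^ k * c‖ ≤ 1 := by
    rw [norm_mul, Padic.norm_p_pow, zpow_neg, zpow_natCast]
    rw [inv_mul_le_iff₀ (pow_pos (ppos p) k)]
    linarith
  have h2 := (hX.int ⟨(p : ℚ_[p]) ^ k * c, h1⟩).shift k
  have e : ((p : ℚ_[p]) ^ k)⁻¹ • (((⟨(p : ℚ_[p]) ^ k * c, h1⟩ : ℤ_[p]) : ℚ_[p]) • X) = c • X := by
    rw [smul_smul]
    congr 1
    change ((p : ℚ_[p]) ^ k)⁻¹ * ((p : ℚ_[p]) ^ k * c) = c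
    rw [inv_mul_cancel_left₀ (pow_ne_zero _ hp)]
  rwa [e] at h2

theorem Mem.bracket (hG : ∀ γ, Sm 0 (G γ)) {X Y : Matrix n n ℚ_[p]} (hX : Mem G X)
    (hY : Mem G Y) : Mem G (X * Y - Y * X) := by
  intro R
  obtain ⟨a, ha⟩ := exists_sm X
  obtain ⟨b, hb⟩ := exists_sm Y
  obtain ⟨m₁, h₁⟩ := hX (R + b)
  obtain ⟨m₂, h₂⟩ := hY (R + a)
  set B : ℕ := m₁ + m₂ + R + 2 * a + 2 * b with hB
  refine ⟨2 * B, fun m hm => ?_⟩
  obtain ⟨γ, hγ⟩ := h₁ (m / 2) (by omega)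
  obtain ⟨δ, hδ⟩ := h₂ (m - m / 2) (by omega)
  obtain ⟨k, hk⟩ : ∃ k, k = m / 2 := ⟨_, rfl⟩
  obtain ⟨l, hl⟩ : ∃ l, l = m - m / 2 := ⟨_, rfl⟩
  rw [← hk] at hγ
  rw [← hl] at hδ
  have hkB : B ≤ k := by omega
  have hlB : B ≤ l := by omega
  have hkl : k + l = m := by omega
  refine ⟨γ * δ * γ⁻¹ * δ⁻¹, ?_⟩
  have hA1 := sm_of_approx ha hγ
  have hA2 := sm_of_approx hb hδ
  set A := G γ - 1 with hA
  set C := G δ - 1 with hC
  have hi1 : G γ * G γ⁻¹ = 1 := by rw [← map_mul, mul_inv_cancel, map_one]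
  have hi2 : G δ * G δ⁻¹ = 1 := by rw [← map_mul, mul_inv_cancel, map_one]
  have hi1' : G γ⁻¹ * G γ = 1 := by rw [← map_mul, inv_mul_cancel, map_one]
  have hi2' : G δ⁻¹ * G δ = 1 := by rw [← map_mul, inv_mul_cancel, map_one]
  -- the inverses
  have hD1 : Sm (k - a) (G γ⁻¹ - 1) := by
    have e : G γ⁻¹ - 1 = -(G γ⁻¹ * A) := by
      rw [hA, mul_sub, hi1', mul_one]; abel
    rw [e]
    exact (((hG γ⁻¹).mul hA1).mono (by omega)).neg
  have hD2 : Sm (l - b) (G δ⁻¹ - 1) := by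
    have e : G δ⁻¹ - 1 = -(G δ⁻¹ * C) := by
      rw [hC, mul_sub, hi2', mul_one]; abel
    rw [e]
    exact (((hG δ⁻¹).mul hA2).mono (by omega)).neg
  have hD : Sm (B - a - b) (G γ⁻¹ * G δ⁻¹ - 1) := by
    have e : G γ⁻¹ * G δ⁻¹ - 1 = (G γ⁻¹ - 1) * G δ⁻¹ + (G δ⁻¹ - 1) := by noncomm_ring
    rw [e]
    exact ((hD1.mul (hG δ⁻¹)).mono (by push_cast; omega)).add (hD2.mono (by push_cast; omega))
  have hbr : G (γ * δ * γ⁻¹ * δ⁻¹) - 1
      = (A * C - C * A) + (A * C - C * A) * (G γ⁻¹ * G δ⁻¹ - 1) := by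
    have e1 : A * C - C * A = G γ * G δ - G δ * G γ := by
      rw [hA, hC]; noncomm_ring
    have e2 : G δ * G γ * (G γ⁻¹ * G δ⁻¹) = 1 := by
      rw [mul_assoc, ← mul_assoc (G γ), hi1, one_mul, hi2]
    rw [e1, map_mul, map_mul, map_mul, mul_sub, mul_one, sub_mul (G γ * G δ), e2]
    rw [mul_assoc (G γ * G δ)]
    abel
  have hsplit : G (γ * δ * γ⁻¹ * δ⁻¹) - 1 - (p : ℚ_[p]) ^ m • (X * Y - Y * X)
      = ((A - (p : ℚ_[p]) ^ k • X) * C + (p : ℚ_[p]) ^ k • X * (C - (p : ℚ_[p]) ^ l • Y))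
        - ((C - (p : ℚ_[p]) ^ l • Y) * A + (p : ℚ_[p]) ^ l • Y * (A - (p : ℚ_[p]) ^ k • X))
        + (A * C - C * A) * (G γ⁻¹ * G δ⁻¹ - 1) := by
    rw [hbr, ← hkl, pow_add, smul_sub, mul_smul, mul_smul]
    have e1 : (p : ℚ_[p]) ^ k • (p : ℚ_[p]) ^ l • (X * Y)
        = ((p : ℚ_[p]) ^ k • X) * ((p : ℚ_[p]) ^ l • Y) := by
      rw [smul_mul_assoc, mul_smul_comm]
    have e2 : (p : ℚ_[p]) ^ k • (p : ℚ_[p]) ^ l • (Y * X)
        = ((p : ℚ_[p]) ^ l • Y) * ((p : ℚ_[p]) ^ k • X) := by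
      rw [smul_mul_assoc, mul_smul_comm, smul_comm]
    rw [e1, e2]
    generalize (p : ℚ_[p]) ^ k • X = X'
    generalize (p : ℚ_[p]) ^ l • Y = Y'
    noncomm_ring
  rw [hsplit]
  have hX' : Sm ((k : ℤ) - a) ((p : ℚ_[p]) ^ k • X) := (ha.ppow k).mono (by omega)
  have hY' : Sm ((l : ℤ) - b) ((p : ℚ_[p]) ^ l • Y) := (hb.ppow l).mono (by omega)
  refine (Sm.sub (Sm.add ?_ ?_) (Sm.add ?_ ?_)).add ?_
  · exact (hγ.mul hA2).mono (by push_cast; omega)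
  · exact (hX'.mul hδ).mono (by push_cast; omega)
  · exact (hδ.mul hA1).mono (by push_cast; omega)
  · exact (hY'.mul hγ).mono (by push_cast; omega)
  · refine (Sm.mul (Sm.sub (hA1.mul hA2) ((hA2.mul hA1).mono ?_)) hD).mono ?_
    · omega
    · push_cast; omega

end Mem

/-! ### the logarithm -/

theorem sm_pow {N : ℤ} (hN : 0 ≤ N) {h : Matrix n n ℚ_[p]} (hh : Sm N (h - 1)) (i : ℕ) :
    Sm N (h ^ i - 1) := by
  induction i with
  | zero => simpa using Sm.zero N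
  | succ i ih =>
    have e : h ^ (i + 1) - 1 = (h ^ i - 1) * (h - 1) + (h ^ i - 1) + (h - 1) := by
      rw [pow_succ]; noncomm_ring
    rw [e]
    exact (((ih.mul hh).mono (by omega)).add ih).add hh

theorem sm_p_one : Sm 1 ((p : ℚ_[p]) • (1 : Matrix n n ℚ_[p])) := by
  have := (Sm.one (p := p) (n := n)).ppow 1
  simpa using this

theorem sm_geom {N : ℤ} (hN : 1 ≤ N) {h : Matrix n n ℚ_[p]} (hh : Sm N (h - 1)) :
    Sm 1 (∑ i ∈ Finset.range p, h ^ i) := by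
  have e : ∑ i ∈ Finset.range p, h ^ i
      = ∑ i ∈ Finset.range p, (h ^ i - 1) + (p : ℚ_[p]) • (1 : Matrix n n ℚ_[p]) := by
    rw [Finset.sum_sub_distrib]
    simp [Nat.cast_smul_eq_nsmul]
  rw [e]
  exact (Sm.sum fun i _ => (sm_pow (by omega) hh i).mono hN).add sm_p_one

theorem sm_pow_p {N : ℤ} (hN : 1 ≤ N) {h : Matrix n n ℚ_[p]} (hh : Sm N (h - 1)) :
    Sm (N + 1) (h ^ p - 1) := by
  rw [← geom_sum_mul]
  exact ((sm_geom hN hh).mul hh).mono (by omega)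

theorem sm_pow_pow {g : Matrix n n ℚ_[p]} (hg : Sm 2 (g - 1)) (j : ℕ) :
    Sm (j + 2) (g ^ p ^ j - 1) := by
  induction j with
  | zero => simpa using hg
  | succ j ih =>
    rw [pow_succ, pow_mul]
    exact (sm_pow_p (by omega) ih).mono (by push_cast; omega)

/-- the factor `T_j` -/
noncomputable def T (g : Matrix n n ℚ_[p]) (j : ℕ) : Matrix n n ℚ_[p] :=
  (p : ℚ_[p])⁻¹ • ∑ i ∈ Finset.range p, (g ^ p ^ j) ^ i

theorem sm_T {g : Matrix n n ℚ_[p]} (hg : Sm 2 (g - 1)) (j : ℕ) : Sm (j + 1) (T g j - 1) := by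
  have hp : (p : ℚ_[p]) ≠ 0 := by exact_mod_cast (Fact.out : p.Prime).ne_zero
  have e : T g j - 1 = (p : ℚ_[p])⁻¹ • ∑ i ∈ Finset.range p, ((g ^ p ^ j) ^ i - 1) := by
    unfold T
    rw [Finset.sum_sub_distrib, smul_sub]
    congr 1
    simp only [Finset.sum_const, Finset.card_range]
    rw [← Nat.cast_smul_eq_nsmul ℚ_[p], smul_smul, inv_mul_cancel₀ hp, one_smul]
  rw [e]
  have h1 : ‖(p : ℚ_[p])⁻¹‖ ≤ (p : ℝ) ^ (-(-1 : ℤ)) := by
    rw [norm_inv, Padic.norm_p]; simp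
  exact ((Sm.sum fun i _ => sm_pow (by omega) (sm_pow_pow hg j) i).smul h1).mono (by omega)

/-- `Φ_j = p ^ (-j) (1 + g + ... + g ^ (p ^ j - 1))` -/
noncomputable def Ph (g : Matrix n n ℚ_[p]) : ℕ → Matrix n n ℚ_[p]
  | 0 => 1
  | j + 1 => T g j * Ph g j

theorem sm_Ph {g : Matrix n n ℚ_[p]} (hg : Sm 2 (g - 1)) (j : ℕ) : Sm 0 (Ph g j) := by
  induction j with
  | zero => exact Sm.one
  | succ j ih =>
    have h1 : Sm 0 (T g j) := by
      have := ((sm_T hg j).mono (show (0 : ℤ) ≤ j + 1 by omega)).add Sm.one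
      simpa using this
    exact (h1.mul ih).mono (by omega)

theorem Ph_mul (g : Matrix n n ℚ_[p]) (j : ℕ) :
    (p : ℚ_[p]) ^ j • (Ph g j * (g - 1)) = g ^ p ^ j - 1 := by
  have hp : (p : ℚ_[p]) ≠ 0 := by exact_mod_cast (Fact.out : p.Prime).ne_zero
  induction j with
  | zero => simp [Ph]
  | succ j ih =>
    have e : (p : ℚ_[p]) ^ (j + 1) • (Ph g (j + 1) * (g - 1))
        = ((p : ℚ_[p]) • T g j) * ((p : ℚ_[p]) ^ j • (Ph g j * (g - 1))) := by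
      rw [smul_mul_assoc, mul_smul_comm, smul_smul, pow_succ']
      simp only [Ph, mul_assoc]
    rw [e, ih]
    unfold T
    rw [smul_smul, mul_inv_cancel₀ hp, one_smul, geom_sum_mul, ← pow_mul, ← pow_succ]

theorem sm_Ph_succ {g : Matrix n n ℚ_[p]} (hg : Sm 2 (g - 1)) (j : ℕ) :
    Sm (j + 1) (Ph g (j + 1) - Ph g j) := by
  have e : Ph g (j + 1) - Ph g j = (T g j - 1) * Ph g j := by
    simp only [Ph]; noncomm_ring
  rw [e]
  exact ((sm_T hg j).mul (sm_Ph hg j)).mono (by omega)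

theorem sm_Ph_le {g : Matrix n n ℚ_[p]} (hg : Sm 2 (g - 1)) {j k : ℕ} (hjk : j ≤ k) :
    Sm (j + 1) (Ph g k - Ph g j) := by
  induction k, hjk using Nat.le_induction with
  | base => simpa using Sm.zero _
  | succ k hjk ih =>
    have e : Ph g (k + 1) - Ph g j = (Ph g (k + 1) - Ph g k) + (Ph g k - Ph g j) := by abel
    rw [e]
    exact ((sm_Ph_succ hg k).mono (by omega)).add ih

theorem exists_lim {g : Matrix n n ℚ_[p]} (hg : Sm 2 (g - 1)) :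
    ∃ Φ : Matrix n n ℚ_[p], ∀ j : ℕ, Sm (j + 1) (Φ - Ph g j) := by
  have hc : ∀ i k, ∃ L : ℚ_[p], Tendsto (fun j => Ph g j i k) atTop (𝓝 L) := by
    intro i k
    apply cauchySeq_tendsto_of_complete
    rw [Metric.cauchySeq_iff']
    intro ε hε
    obtain ⟨N, hN⟩ := exists_pow_lt_of_lt_one hε
      (show (p : ℝ)⁻¹ < 1 from inv_lt_one_of_one_lt₀ (one_lt p))
    refine ⟨N, fun j hj => ?_⟩
    rw [dist_eq_norm]
    refine lt_of_le_of_lt (sm_Ph_le hg hj i k) (lt_of_le_of_lt ?_ hN)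
    rw [inv_pow, ← zpow_natCast, ← zpow_neg]
    exact zpow_le_zpow_right₀ (one_lt p).le (by omega)
  choose Φ hΦ using hc
  refine ⟨Matrix.of Φ, fun j i k => ?_⟩
  have h1 : Tendsto (fun l => ‖Ph g l i k - Ph g j i k‖) atTop (𝓝 ‖Φ i k - Ph g j i k‖) :=
    ((hΦ i k).sub_const _).norm
  refine le_of_tendsto h1 ?_
  filter_upwards [eventually_ge_atTop j] with l hl
  exact sm_Ph_le hg hl i k

theorem mem_of_lim {Γ : Type*} [Group Γ] {G : Γ →* Matrix n n ℚ_[p]} {γ : Γ}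
    (hg : Sm 2 (G γ - 1)) {Φ : Matrix n n ℚ_[p]} (hΦ : ∀ j : ℕ, Sm (j + 1) (Φ - Ph (G γ) j)) :
    Mem G (Φ * (G γ - 1)) := by
  intro R
  refine ⟨R, fun m hm => ⟨γ ^ p ^ m, ?_⟩⟩
  rw [map_pow, ← Ph_mul, ← smul_sub, ← sub_mul]
  have h1 : Sm ((m : ℤ) + 1) (Ph (G γ) m - Φ) := by
    have := (hΦ m).neg
    rwa [neg_sub] at this
  exact ((h1.mul hg).ppow m).mono (by omega)

/-- the matrices with `p`-adic entries -/
noncomputable def toQ : Matrix n n ℤ_[p] →+* Matrix n n ℚ_[p] :=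
  (PadicInt.Coe.ringHom (p := p)).mapMatrix

theorem toQ_apply (A : Matrix n n ℤ_[p]) (i j : n) : toQ A i j = ((A i j : ℤ_[p]) : ℚ_[p]) := rfl

theorem sm_toQ (A : Matrix n n ℤ_[p]) : Sm 0 (toQ A) := fun i j => by
  rw [toQ_apply]
  simpa using PadicInt.norm_le_one (A i j)

end Asym

open Asym in
theorem asym_lie {p : ℕ} [Fact p.Prime] {n : Type*} [Fintype n] [DecidableEq n] {Γ : Type*}
    [Group Γ] (r : Γ →* Matrix n n ℤ_[p])
    (hr : ∀ γ, ∃ A : Matrix n n ℤ_[p], r γ = 1 + (p : ℤ_[p]) ^ 2 • A) :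
    ∃ 𝔤 : Submodule ℚ_[p] (Matrix n n ℚ_[p]),
      (∀ X ∈ 𝔤, ∀ Y ∈ 𝔤, X * Y - Y * X ∈ 𝔤) ∧
      (∀ X ∈ 𝔤, ∀ R : ℕ, ∃ (m : ℕ) (γ : Γ), R ≤ m ∧ ∀ i j,
        ‖(((r γ - 1 : Matrix n n ℤ_[p]) i j : ℤ_[p]) : ℚ_[p]) - (p : ℚ_[p]) ^ m * X i j‖ ≤
          (p : ℝ) ^ (-((m : ℤ) + R))) ∧
      ∀ γ, ∃ Φ B : Matrix n n ℤ_[p], Φ = 1 + (p : ℤ_[p]) • B ∧
        (Φ * (r γ - 1)).map (fun x : ℤ_[p] => (x : ℚ_[p])) ∈ 𝔤 := by
  have hp : (p : ℚ_[p]) ≠ 0 := by exact_mod_cast (Fact.out : p.Prime).ne_zero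
  set G : Γ →* Matrix n n ℚ_[p] := (toQ (p := p) (n := n)).toMonoidHom.comp r with hGdef
  have hGr : ∀ γ, G γ = toQ (r γ) := fun γ => rfl
  have hG0 : ∀ γ, Sm 0 (G γ) := fun γ => sm_toQ _
  have hG2 : ∀ γ, Sm 2 (G γ - 1) := by
    intro γ
    obtain ⟨A, hA⟩ := hr γ
    have e : G γ - 1 = (p : ℚ_[p]) ^ 2 • toQ A := by
      rw [hGr, hA, map_add, map_one, add_sub_cancel_left]
      ext i j
      simp [toQ_apply]
    rw [e]
    exact ((sm_toQ A).ppow 2).mono (by norm_num)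
  refine ⟨{ carrier := {X | Mem G X}
            add_mem' := fun hX hY => Mem.add hX hY
            zero_mem' := Mem.zero
            smul_mem' := fun c X hX => Mem.smul hX c }, ?_, ?_, ?_⟩
  · intro X hX Y hY
    exact Mem.bracket hG0 hX hY
  · intro X hX R
    obtain ⟨m₀, h₀⟩ := (show Mem G X from hX) R
    obtain ⟨γ, hγ⟩ := h₀ (m₀ + R) (by omega)
    refine ⟨m₀ + R, γ, by omega, fun i j => ?_⟩
    have h1 := hγ i j
    have e : (G γ - 1 - (p : ℚ_[p]) ^ (m₀ + R) • X) i j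
        = (((r γ - 1 : Matrix n n ℤ_[p]) i j : ℤ_[p]) : ℚ_[p]) - (p : ℚ_[p]) ^ (m₀ + R) * X i j := by
      have e1 : G γ - 1 = toQ (r γ - 1) := by rw [map_sub, map_one]; rfl
      rw [e1, Matrix.sub_apply, toQ_apply, Matrix.smul_apply, smul_eq_mul]
    rw [e] at h1
    exact h1
  · intro γ
    obtain ⟨Φ, hΦ⟩ := exists_lim (hG2 γ)
    have h0 : Sm 1 (Φ - 1) := by
      have := hΦ 0
      simpa [Ph] using this
    have hB : ∀ i j, ‖(p : ℚ_[p])⁻¹ * (Φ - 1) i j‖ ≤ 1 := by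
      intro i j
      rw [norm_mul, norm_inv, Padic.norm_p, inv_inv]
      have := mul_le_mul_of_nonneg_left (h0 i j) (ppos p).le
      refine this.trans ?_
      rw [zpow_neg, zpow_one, mul_inv_cancel₀ (ppos p).ne']
    set B : Matrix n n ℤ_[p] := Matrix.of fun i j => ⟨(p : ℚ_[p])⁻¹ * (Φ - 1) i j, hB i j⟩ with hBdef
    refine ⟨1 + (p : ℤ_[p]) • B, B, rfl, ?_⟩
    have hΦQ : toQ (1 + (p : ℤ_[p]) • B) = Φ := by
      rw [map_add, map_one]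
      have : toQ ((p : ℤ_[p]) • B) = Φ - 1 := by
        ext i j
        rw [toQ_apply, Matrix.smul_apply, smul_eq_mul, PadicInt.coe_mul, PadicInt.coe_natCast]
        change (p : ℚ_[p]) * ((p : ℚ_[p])⁻¹ * (Φ - 1) i j) = _
        rw [mul_inv_cancel_left₀ hp]
      rw [this]; abel
    have e : ((1 + (p : ℤ_[p]) • B) * (r γ - 1)).map (fun x : ℤ_[p] => (x : ℚ_[p]))
        = Φ * (G γ - 1) := by
      have : ((1 + (p : ℤ_[p]) • B) * (r γ - 1)).map (fun x : ℤ_[p] => (x : ℚ_[p]))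
          = toQ ((1 + (p : ℤ_[p]) • B) * (r γ - 1)) := rfl
      rw [this, map_mul, hΦQ, map_sub, map_one]; rfl
    rw [e]
    exact mem_of_lim (hG2 γ) hΦ

end Pool.Agent.Lib.MP_2f3286_ag.Full
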