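import Mathlib

/-! Bertini–Noether for monic polynomials over `kb[t]` and valuation rings of `kb` (algebraically
closed, algebraic over `ℚ`) above almost all primes. -/

open Polynomial
open scoped Pointwise

namespace Pool.Agent.Lib.MP_2f3286_ag.Full

namespace BN

/-! ### The filter of almost all valuation rings -/

/-- The filter of sets containing all valuation rings above all but finitely many primes. -/
def vf (kb : Type*) [Field kb] : Filter (ValuationSubring kb) where
  sets := {S | ∃ B : Finset ℕ, ∀ p : ℕ, p.Prime → p ∉ B → ∀ V : ValuationSubring kb,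
      V.valuation (p : kb) < 1 → V ∈ S}
  univ_sets := ⟨∅, fun _ _ _ _ _ => Set.mem_univ _⟩
  sets_of_superset := by
    rintro S T ⟨B, hB⟩ hST
    exact ⟨B, fun p hp hpB V hV => hST (hB p hp hpB V hV)⟩
  inter_sets := by
    classical
    rintro S T ⟨B, hB⟩ ⟨B', hB'⟩
    refine ⟨B ∪ B', fun p hp hpB V hV => ?_⟩
    rw [Finset.notMem_union] at hpB
    exact ⟨hB p hp hpB.1 V hV, hB' p hp hpB.2 V hV⟩

theorem eventually_vf {kb : Type*} [Field kb] {P : ValuationSubring kb → Prop} :
    (∀ᶠ V : ValuationSubring kb in vf kb, P V) ↔ ∃ B : Finset ℕ, ∀ p : ℕ, p.Prime → p ∉ B →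
      ∀ V : ValuationSubring kb, V.valuation (p : kb) < 1 → P V := Iff.rfl

section

variable {kb : Type*} [Field kb]

theorem nat_unit_of_coprime (V : ValuationSubring kb) {p N : ℕ} (hV : V.valuation (p : kb) < 1)
    (h : IsCoprime (p : ℤ) (N : ℤ)) : V.valuation (N : kb) = 1 := by
  obtain ⟨a, b, hab⟩ := h
  have hle : ∀ z : ℤ, V.valuation (z : kb) ≤ 1 := fun z => by
    rw [ValuationSubring.valuation_le_one_iff]
    exact intCast_mem V z
  have h1 : (a : kb) * p + b * N = 1 := by exact_mod_cast congrArg (Int.cast : ℤ → kb) hab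
  have h2 : V.valuation ((a : kb) * p) < 1 := by
    rw [map_mul]
    exact lt_of_le_of_lt (mul_le_of_le_one_left' (hle a)) hV
  have hN : V.valuation (N : kb) ≤ 1 := by exact_mod_cast hle N
  refine le_antisymm hN ?_
  by_contra hlt
  rw [not_le] at hlt
  have h3 : V.valuation ((b : kb) * N) < 1 := by
    rw [map_mul]
    exact lt_of_le_of_lt (mul_le_of_le_one_left' (hle b)) hlt
  have h4 := Valuation.map_add_lt V.valuation h2 h3
  rw [h1, map_one] at h4
  exact lt_irrefl _ h4

variable [CharZero kb] [Algebra.IsAlgebraic ℚ kb]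

theorem eventually_mem (a : kb) : ∀ᶠ V : ValuationSubring kb in vf kb, a ∈ V := by
  rw [eventually_vf]
  have halg : IsAlgebraic ℤ a := by
    rw [IsFractionRing.isAlgebraic_iff ℤ ℚ kb]
    exact Algebra.IsAlgebraic.isAlgebraic a
  obtain ⟨N, hN0, hN⟩ := halg.exists_integral_multiple
  refine ⟨N.natAbs.primeFactors, fun p hp hpN V hV => ?_⟩
  have hcop : IsCoprime (p : ℤ) (N.natAbs : ℤ) := by
    rw [Nat.isCoprime_iff_coprime, Nat.Prime.coprime_iff_not_dvd hp]
    intro hd
    exact hpN (Nat.mem_primeFactors.2 ⟨hp, hd, Int.natAbs_ne_zero.2 hN0⟩)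
  have hval := nat_unit_of_coprime V hV hcop
  have hval' : V.valuation (N : kb) = 1 := by
    rcases Int.natAbs_eq N with h | h
    · rw [h, Int.cast_natCast]; exact hval
    · rw [h, Int.cast_neg, Int.cast_natCast, Valuation.map_neg]; exact hval
  have hmem : N • a ∈ V := by
    have h1 : IsIntegral V (N • a) := hN.tower_top
    obtain ⟨y, hy⟩ := IsIntegrallyClosed.isIntegral_iff.1 h1
    rw [← hy]
    exact y.2
  have hN0' : (N : kb) ≠ 0 := by exact_mod_cast hN0
  have : a = (N : kb)⁻¹ * (N • a) := by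
    rw [zsmul_eq_mul, inv_mul_cancel_left₀ hN0']
  rw [this]
  refine V.mul_mem _ _ ?_ hmem
  rw [← ValuationSubring.valuation_le_one_iff, map_inv₀, hval', inv_one]

theorem eventually_lift_poly (f : kb[X]) :
    ∀ᶠ V : ValuationSubring kb in vf kb, ∃ f₀ : V[X], f₀.map (algebraMap V kb) = f := by
  induction f using Polynomial.induction_on' with
  | add p q hp hq =>
    filter_upwards [hp, hq] with V ⟨p₀, hp₀⟩ ⟨q₀, hq₀⟩
    exact ⟨p₀ + q₀, by rw [Polynomial.map_add, hp₀, hq₀]⟩
  | monomial n a =>
    filter_upwards [eventually_mem a] with V hV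
    exact ⟨monomial n ⟨a, hV⟩, by rw [Polynomial.map_monomial]; rfl⟩

theorem eventually_lift_poly₂ (f : kb[X][X]) :
    ∀ᶠ V : ValuationSubring kb in vf kb, ∃ f₀ : V[X][X], f₀.map (mapRingHom (algebraMap V kb)) = f := by
  induction f using Polynomial.induction_on' with
  | add p q hp hq =>
    filter_upwards [hp, hq] with V ⟨p₀, hp₀⟩ ⟨q₀, hq₀⟩
    exact ⟨p₀ + q₀, by rw [Polynomial.map_add, hp₀, hq₀]⟩
  | monomial n a =>
    filter_upwards [eventually_lift_poly a] with V ⟨a₀, ha₀⟩
    exact ⟨monomial n a₀, by rw [Polynomial.map_monomial, coe_mapRingHom, ha₀]⟩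

theorem eventually_lift_mv {σ : Type*} (f : MvPolynomial σ kb) :
    ∀ᶠ V : ValuationSubring kb in vf kb, ∃ f₀ : MvPolynomial σ V, MvPolynomial.map (algebraMap V kb) f₀ = f := by
  induction f using MvPolynomial.induction_on with
  | C a =>
    filter_upwards [eventually_mem a] with V hV
    exact ⟨MvPolynomial.C ⟨a, hV⟩, by rw [MvPolynomial.map_C]; rfl⟩
  | add p q hp hq =>
    filter_upwards [hp, hq] with V ⟨p₀, hp₀⟩ ⟨q₀, hq₀⟩
    exact ⟨p₀ + q₀, by rw [map_add, hp₀, hq₀]⟩
  | mul_X p n hp =>
    filter_upwards [hp] with V ⟨p₀, hp₀⟩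
    exact ⟨p₀ * MvPolynomial.X n, by rw [map_mul, hp₀, MvPolynomial.map_X]⟩

/-- Nullstellensatz over almost all residue fields. -/
theorem eventually_no_zero [IsAlgClosed kb] {σ ι : Type*} [Finite σ] (P : ι → MvPolynomial σ kb)
    (hP : ∀ x : σ → kb, ∃ i, MvPolynomial.eval x (P i) ≠ 0) :
    ∀ᶠ V : ValuationSubring kb in vf kb, ∀ P₀ : ι → MvPolynomial σ V,
      (∀ i, MvPolynomial.map (algebraMap V kb) (P₀ i) = P i) →
      ∀ y : σ → IsLocalRing.ResidueField V,
        ∃ i, MvPolynomial.eval₂ (IsLocalRing.residue V) y (P₀ i) ≠ 0 := by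
  classical
  have htop : Ideal.span (Set.range P) = ⊤ := by
    by_contra hne
    obtain ⟨M, hM, hle⟩ := Ideal.exists_le_maximal _ hne
    obtain ⟨x, hx⟩ := MvPolynomial.isMaximal_iff_eq_vanishingIdeal_singleton.1 hM
    obtain ⟨i, hi⟩ := hP x
    apply hi
    have h1 : P i ∈ M := hle (Ideal.subset_span ⟨i, rfl⟩)
    rw [hx, MvPolynomial.mem_vanishingIdeal_singleton_iff] at h1
    rw [← MvPolynomial.coe_aeval_eq_eval]
    exact h1
  have h1 : (1 : MvPolynomial σ kb) ∈ Ideal.span (Set.range P) := by rw [htop]; trivial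
  obtain ⟨c, hc⟩ := (Finsupp.mem_span_range_iff_exists_finsupp).1 h1
  simp only [smul_eq_mul] at hc
  have hlift : ∀ᶠ V : ValuationSubring kb in vf kb, ∀ i ∈ c.support, ∃ f₀ : MvPolynomial σ V,
      MvPolynomial.map (algebraMap V kb) f₀ = c i := by
    rw [Filter.eventually_all_finset]
    intro i _
    exact eventually_lift_mv (c i)
  filter_upwards [hlift] with V hV P₀ hP₀ y
  by_contra hcon
  push Not at hcon
  choose! g hg using hV
  have hinj : Function.Injective (MvPolynomial.map (σ := σ) (algebraMap V kb)) :=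
    MvPolynomial.map_injective _ (IsFractionRing.injective V kb)
  have hsum : ∑ i ∈ c.support, g i * P₀ i = 1 := by
    apply hinj
    rw [map_sum, map_one, ← hc, Finsupp.sum]
    refine Finset.sum_congr rfl fun i hi => ?_
    rw [map_mul, hg i hi, hP₀ i]
  have h2 := congrArg (MvPolynomial.eval₂ (IsLocalRing.residue V) y) hsum
  rw [MvPolynomial.eval₂_sum, MvPolynomial.eval₂_one] at h2
  have h3 : ∑ i ∈ c.support, MvPolynomial.eval₂ (IsLocalRing.residue V) y (g i * P₀ i) = 0 := by
    refine Finset.sum_eq_zero fun i _ => ?_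
    rw [MvPolynomial.eval₂_mul, hcon i, mul_zero]
  rw [h3] at h2
  exact zero_ne_one h2

end

/-! ### Weighted degree -/

section weight

variable {κ : Type*} [CommRing κ]

/-- `t ↦ s`, `Y ↦ s^c Y`. -/
noncomputable def wt (c : ℕ) : κ[X][X] →+* κ[X][X] :=
  eval₂RingHom (mapRingHom (C : κ →+* κ[X])) (C X * X ^ c)

theorem wt_coeff (c : ℕ) (G : κ[X][X]) (m i : ℕ) :
    ((wt c G).coeff m).coeff i = if c * i ≤ m then (G.coeff i).coeff (m - c * i) else 0 := by
  induction G using Polynomial.induction_on' with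
  | add p q hp hq =>
    rw [map_add, coeff_add, coeff_add, hp, hq, coeff_add, coeff_add]
    split_ifs <;> simp
  | monomial n a =>
    rw [wt, coe_eval₂RingHom, eval₂_monomial, coe_mapRingHom, mul_pow, ← C_pow, ← pow_mul,
      mul_left_comm, coeff_C_mul, coeff_mul_X_pow', coeff_monomial]
    by_cases hin : n = i
    · subst hin
      rw [if_pos rfl]
      split_ifs with h
      · rw [coeff_map, mul_comm, coeff_C_mul, coeff_X_pow, if_pos rfl, mul_one]
      · rw [mul_zero, coeff_zero]
    · rw [if_neg hin, coeff_zero, ite_self]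
      split_ifs with h
      · rw [coeff_map, mul_comm, coeff_C_mul, coeff_X_pow, if_neg (Ne.symm hin), mul_zero]
      · rw [mul_zero, coeff_zero]

theorem natDegree_wt_le (c : ℕ) (F : κ[X][X]) (W : ℕ)
    (h : ∀ i j, (F.coeff i).coeff j ≠ 0 → j + c * i ≤ W) : (wt c F).natDegree ≤ W := by
  rw [natDegree_le_iff_coeff_eq_zero]
  intro m hm
  ext i
  rw [wt_coeff, coeff_zero]
  split_ifs with hci
  · by_contra hne
    have := h i _ hne
    omega
  · rfl

theorem le_natDegree_wt (c : ℕ) {G : κ[X][X]} [Nontrivial κ] (hG : G.Monic) :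
    c * G.natDegree ≤ (wt c G).natDegree := by
  apply le_natDegree_of_ne_zero
  intro h0
  have h := wt_coeff c G (c * G.natDegree) G.natDegree
  rw [if_pos le_rfl, h0, Nat.sub_self, coeff_zero, coeff_natDegree, hG.leadingCoeff,
    coeff_one_zero] at h
  exact zero_ne_one h

variable [IsDomain κ]

/-- Monic factors of a monic polynomial have coefficients of bounded degree. -/
theorem natDegree_coeff_le {F G H : κ[X][X]} (hG : G.Monic) (hH : H.Monic) (hGH : G * H = F)
    (c : ℕ) (hF : ∀ i, (F.coeff i).natDegree ≤ c) (i : ℕ) :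
    (G.coeff i).natDegree ≤ c * F.natDegree := by
  have hFm : F.Monic := hGH ▸ hG.mul hH
  have hdeg : F.natDegree = G.natDegree + H.natDegree := by rw [← hGH, hG.natDegree_mul hH]
  have h1 : (wt c F).natDegree ≤ c * F.natDegree := by
    refine natDegree_wt_le c F _ fun i j hij => ?_
    rcases lt_trichotomy i F.natDegree with hi | hi | hi
    · have hj : j ≤ c := (le_natDegree_of_ne_zero hij).trans (hF i)
      calc j + c * i ≤ c + c * i := by omega
        _ = c * (i + 1) := by ring
        _ ≤ c * F.natDegree := Nat.mul_le_mul_left c hi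
    · subst hi
      rw [coeff_natDegree, hFm.leadingCoeff, coeff_one] at hij
      have : j = 0 := by
        by_contra hj
        exact hij (if_neg hj)
      omega
    · exact absurd (by rw [coeff_eq_zero_of_natDegree_lt hi, coeff_zero]) hij
  have h2 : wt c F = wt c G * wt c H := by rw [← hGH, map_mul]
  have hG' := le_natDegree_wt c hG
  have hH' := le_natDegree_wt c hH
  have hne : ∀ {G : κ[X][X]}, G.Monic → wt c G ≠ 0 := by
    intro G hG h0
    have h := wt_coeff c G (c * G.natDegree) G.natDegree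
    rw [if_pos le_rfl, h0, Nat.sub_self, coeff_zero, coeff_zero, coeff_natDegree, hG.leadingCoeff,
      coeff_one_zero] at h
    exact zero_ne_one h
  rw [h2, natDegree_mul (hne hG) (hne hH), hdeg, mul_add] at h1
  have h3 : (wt c G).natDegree ≤ c * G.natDegree := by omega
  rw [natDegree_le_iff_coeff_eq_zero]
  intro j hj
  have h4 := wt_coeff c G (j + c * i) i
  rw [if_pos (Nat.le_add_left _ _), Nat.add_sub_cancel,
    coeff_eq_zero_of_natDegree_lt (p := wt c G), coeff_zero] at h4
  · exact h4.symm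
  · have : c * G.natDegree ≤ c * F.natDegree := by rw [hdeg]; exact Nat.mul_le_mul_left c (by omega)
    omega

end weight

/-! ### Parametrised monic polynomials -/

section mk

variable {A : Type*} [CommRing A]

/-- The monic polynomial of degree `a` with coefficients of degree at most `D` -/
noncomputable def mk (a D : ℕ) (x : Fin a × Fin (D + 1) → A) : A[X][X] :=
  X ^ a + ∑ i : Fin a, C (∑ j : Fin (D + 1), C (x (i, j)) * X ^ (j : ℕ)) * X ^ (i : ℕ)

theorem mk_map_bn {A' : Type*} [CommRing A'] (f : A →+* A') (a D : ℕ) (x : Fin a × Fin (D + 1) → A) :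
    (mk a D x).map (mapRingHom f) = mk a D (fun i => f (x i)) := by
  simp only [mk, Polynomial.map_add, Polynomial.map_pow, map_X, Polynomial.map_sum,
    Polynomial.map_mul, map_C, coe_mapRingHom]

theorem mk_degree_aux (a D : ℕ) (x : Fin a × Fin (D + 1) → A) :
    (∑ i : Fin a, C (∑ j : Fin (D + 1), C (x (i, j)) * X ^ (j : ℕ)) * X ^ (i : ℕ) :
      A[X][X]).degree < a :=
  degree_sum_fin_lt (fun i => ∑ j : Fin (D + 1), C (x (i, j)) * X ^ (j : ℕ))

theorem mk_monic (a D : ℕ) (x : Fin a × Fin (D + 1) → A) : (mk a D x).Monic :=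
  monic_X_pow_add (mk_degree_aux a D x)

theorem mk_natDegree [Nontrivial A] (a D : ℕ) (x : Fin a × Fin (D + 1) → A) :
    (mk a D x).natDegree = a := by
  rw [mk, natDegree_add_eq_left_of_degree_lt, natDegree_X_pow]
  rw [degree_X_pow]
  exact mk_degree_aux a D x

theorem exists_mk {G : A[X][X]} (hG : G.Monic) (D : ℕ) (hD : ∀ i, (G.coeff i).natDegree ≤ D) :
    ∃ x, mk G.natDegree D x = G := by
  refine ⟨fun q => (G.coeff q.1).coeff q.2, ?_⟩
  have h1 : ∀ i, ∑ j : Fin (D + 1), C ((G.coeff i).coeff j) * X ^ (j : ℕ) = G.coeff i := by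
    intro i
    rw [Fin.sum_univ_eq_sum_range (fun j => C ((G.coeff i).coeff j) * (X : A[X]) ^ j) (D + 1)]
    exact (as_sum_range_C_mul_X_pow' _ (Nat.lt_succ_of_le (hD i))).symm
  rw [mk]
  simp only [h1]
  rw [Fin.sum_univ_eq_sum_range (fun i => C (G.coeff i) * (X : A[X][X]) ^ i) G.natDegree]
  exact hG.as_sum.symm

/-- generic factors minus `F` -/
noncomputable def gen (a b D : ℕ) (F : A[X][X]) :
    (MvPolynomial ((Fin a × Fin (D + 1)) ⊕ (Fin b × Fin (D + 1))) A)[X][X] :=
  mk a D (fun q => MvPolynomial.X (Sum.inl q)) * mk b D (fun q => MvPolynomial.X (Sum.inr q)) -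
    F.map (mapRingHom MvPolynomial.C)

theorem gen_eval {A' : Type*} [CommRing A'] (f : A →+* A') (a b D : ℕ) (F : A[X][X])
    (y : (Fin a × Fin (D + 1)) ⊕ (Fin b × Fin (D + 1)) → A') :
    (gen a b D F).map (mapRingHom (MvPolynomial.eval₂Hom f y)) =
      mk a D (fun q => y (Sum.inl q)) * mk b D (fun q => y (Sum.inr q)) -
        F.map (mapRingHom f) := by
  rw [gen, Polynomial.map_sub, Polynomial.map_mul, mk_map_bn, mk_map_bn, Polynomial.map_map,
    mapRingHom_comp]
  simp only [MvPolynomial.coe_eval₂Hom, MvPolynomial.eval₂_X, MvPolynomial.eval₂Hom_comp_C]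

theorem gen_map {A' : Type*} [CommRing A'] (f : A →+* A') (a b D : ℕ) (F : A[X][X]) :
    (gen a b D F).map (mapRingHom (MvPolynomial.map f)) =
      gen a b D (F.map (mapRingHom f)) := by
  rw [gen, gen, Polynomial.map_sub, Polynomial.map_mul, mk_map_bn, mk_map_bn, Polynomial.map_map,
    mapRingHom_comp, Polynomial.map_map, mapRingHom_comp]
  simp only [MvPolynomial.map_X]
  congr 4
  ext x
  simp

theorem map_coeff_coeff {A' : Type*} [CommRing A'] (f : A →+* A') (E : A[X][X]) (u v : ℕ) :
    f ((E.coeff u).coeff v) = (((E.map (mapRingHom f)).coeff u).coeff v) := by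
  rw [coeff_map, coe_mapRingHom, coeff_map]

end mk

section main

variable {kb : Type*} [Field kb] [IsAlgClosed kb] [CharZero kb] [Algebra.IsAlgebraic ℚ kb]

theorem eventually_no_factor (F : kb[X][X]) (a b D : ℕ)
    (hF : ∀ x y, mk a D x * mk b D y ≠ F) :
    ∀ᶠ V : ValuationSubring kb in vf kb, ∀ F₀ : V[X][X],
      F₀.map (mapRingHom (algebraMap V kb)) = F → ∀ x y,
      mk a D x * mk b D y ≠ F₀.map (mapRingHom (IsLocalRing.residue V)) := by
  have h := eventually_no_zero (fun q : ℕ × ℕ => ((gen a b D F).coeff q.1).coeff q.2) (by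
    intro x
    by_contra hcon
    push Not at hcon
    apply hF (fun q => x (Sum.inl q)) (fun q => x (Sum.inr q))
    have h1 := gen_eval (RingHom.id kb) a b D F x
    have h2 : (gen a b D F).map (mapRingHom (MvPolynomial.eval₂Hom (RingHom.id kb) x)) = 0 := by
      ext u v
      rw [← map_coeff_coeff, coeff_zero, coeff_zero]
      exact hcon (u, v)
    rw [h2, mapRingHom_id, Polynomial.map_id] at h1
    exact (sub_eq_zero.1 h1.symm))
  filter_upwards [h] with V hV F₀ hF₀ x y hxy
  obtain ⟨⟨u, v⟩, huv⟩ := hV (fun q : ℕ × ℕ => ((gen a b D F₀).coeff q.1).coeff q.2) (by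
    rintro ⟨u, v⟩
    dsimp only
    rw [map_coeff_coeff, gen_map, hF₀]) (Sum.elim x y)
  apply huv
  have h1 := map_coeff_coeff (MvPolynomial.eval₂Hom (IsLocalRing.residue V) (Sum.elim x y))
    (gen a b D F₀) u v
  rw [gen_eval] at h1
  simp only [Sum.elim_inl, Sum.elim_inr] at h1
  rw [hxy, sub_self, coeff_zero, coeff_zero] at h1
  exact h1

theorem eventually_irreducible (F : kb[X][X]) (hm : F.Monic) (hirr : Irreducible F) :
    ∀ᶠ V : ValuationSubring kb in vf kb, ∀ F₀ : V[X][X],
      F₀.map (mapRingHom (algebraMap V kb)) = F →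
      Irreducible (F₀.map (mapRingHom (IsLocalRing.residue V))) := by
  classical
  set c := F.support.sup (fun i => (F.coeff i).natDegree) with hc
  have hcF : ∀ i, (F.coeff i).natDegree ≤ c := by
    intro i
    by_cases hi : i ∈ F.support
    · exact Finset.le_sup (f := fun i => (F.coeff i).natDegree) hi
    · rw [notMem_support_iff.1 hi, natDegree_zero]
      exact Nat.zero_le _
  set n := F.natDegree with hn
  have hfac := (Monic.irreducible_iff_natDegree hm).1 hirr
  have key : ∀ᶠ V : ValuationSubring kb in vf kb, ∀ a ∈ Finset.range n, 1 ≤ a → ∀ F₀ : V[X][X],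
      F₀.map (mapRingHom (algebraMap V kb)) = F → ∀ x y,
      mk a (c * n) x * mk (n - a) (c * n) y ≠ F₀.map (mapRingHom (IsLocalRing.residue V)) := by
    rw [Filter.eventually_all_finset]
    intro a ha
    rw [Finset.mem_range] at ha
    by_cases h1 : 1 ≤ a
    · have := eventually_no_factor F a (n - a) (c * n) (by
        intro x y hxy
        rcases hfac.2 _ _ (mk_monic _ _ _) (mk_monic _ _ _) hxy with h | h
        · rw [mk_natDegree] at h; omega
        · rw [mk_natDegree] at h; omega)
      filter_upwards [this] with V hV _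
      exact hV
    · exact Filter.Eventually.of_forall fun V h => absurd h h1
  filter_upwards [key] with V hV F₀ hF₀
  have hinj : Function.Injective (mapRingHom (algebraMap V kb)) := by
    rw [coe_mapRingHom]
    exact Polynomial.map_injective _ (IsFractionRing.injective V kb)
  have hF₀m : F₀.Monic := by
    apply monic_of_injective hinj
    rw [hF₀]; exact hm
  have hF₀n : F₀.natDegree = n := by
    rw [hn, ← hF₀, hF₀m.natDegree_map]
  have hrm : (F₀.map (mapRingHom (IsLocalRing.residue V))).Monic := hF₀m.map _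
  have hrn : (F₀.map (mapRingHom (IsLocalRing.residue V))).natDegree = n := by
    rw [hF₀m.natDegree_map, hF₀n]
  have hrc : ∀ i, ((F₀.map (mapRingHom (IsLocalRing.residue V))).coeff i).natDegree ≤ c := by
    intro i
    rw [coeff_map, coe_mapRingHom]
    refine natDegree_map_le.trans ?_
    have h2 := hcF i
    rwa [← hF₀, coeff_map, coe_mapRingHom,
      natDegree_map_eq_of_injective (IsFractionRing.injective V kb)] at h2
  rw [Monic.irreducible_iff_natDegree hrm]
  refine ⟨fun h1 => ?_, fun G H hG hH hGH => ?_⟩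
  · have : n = 0 := by rw [← hrn, h1, natDegree_one]
    have h2 : F = 1 := hm.natDegree_eq_zero.1 (hn ▸ this)
    exact hfac.1 h2
  · by_contra hcon
    push Not at hcon
    have hdeg : G.natDegree + H.natDegree = n := by rw [← hG.natDegree_mul hH, hGH, hrn]
    have hb1 := natDegree_coeff_le hG hH hGH c hrc
    have hb2 := natDegree_coeff_le hH hG (by rw [mul_comm, hGH]) c hrc
    rw [hrn] at hb1 hb2
    obtain ⟨x, hx⟩ := exists_mk hG (c * n) hb1
    have hH' : H.natDegree = n - G.natDegree := by omega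
    have hy' := exists_mk hH (c * n) hb2
    rw [hH'] at hy'
    obtain ⟨y, hy⟩ := hy'
    refine hV G.natDegree (Finset.mem_range.2 (by omega)) (by omega) F₀ hF₀ x y ?_
    rw [hx, hy, hGH]

omit [IsAlgClosed kb] [Algebra.IsAlgebraic ℚ kb] in
theorem exists_bezout (F : kb[X][X]) (hm : F.Monic) (hirr : Irreducible F) :
    ∃ (U W : kb[X][X]) (r : kb[X]), r ≠ 0 ∧ U * F + W * derivative F = C r := by
  have h1 : Irreducible (F.map (algebraMap kb[X] (RatFunc kb))) :=
    (hm.irreducible_iff_irreducible_map_fraction_map).1 hirr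
  have h2 : (F.map (algebraMap kb[X] (RatFunc kb))).Separable := h1.separable
  obtain ⟨a, b, hab⟩ := h2
  obtain ⟨r₁, hr₁, hU⟩ := IsLocalization.integerNormalization_spec (nonZeroDivisors kb[X]) a
  obtain ⟨r₂, hr₂, hW⟩ := IsLocalization.integerNormalization_spec (nonZeroDivisors kb[X]) b
  have hinj : Function.Injective (algebraMap kb[X] (RatFunc kb)) :=
    IsFractionRing.injective kb[X] (RatFunc kb)
  refine ⟨C r₂ * IsLocalization.integerNormalization (nonZeroDivisors kb[X]) a,
    C r₁ * IsLocalization.integerNormalization (nonZeroDivisors kb[X]) b, r₁ * r₂,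
    mul_ne_zero (nonZeroDivisors.ne_zero hr₁) (nonZeroDivisors.ne_zero hr₂), ?_⟩
  apply Polynomial.map_injective _ hinj
  rw [Polynomial.map_add, Polynomial.map_mul, Polynomial.map_mul, Polynomial.map_mul,
    Polynomial.map_mul, hU, hW, map_C, map_C, map_C, ← derivative_map, map_mul, C_mul]
  have e1 : r₁ • a = C (algebraMap kb[X] (RatFunc kb) r₁) * a := by
    rw [← Polynomial.smul_eq_C_mul, algebraMap_smul]
  have e2 : r₂ • b = C (algebraMap kb[X] (RatFunc kb) r₂) * b := by
    rw [← Polynomial.smul_eq_C_mul, algebraMap_smul]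
  rw [e1, e2]
  linear_combination (C (algebraMap kb[X] (RatFunc kb) r₁) * C (algebraMap kb[X] (RatFunc kb) r₂)) *
    hab

end main

end BN

open BN in
theorem bertini_noether {kb : Type*} [Field kb] [IsAlgClosed kb] [CharZero kb]
    [Algebra.IsAlgebraic ℚ kb] (F : kb[X][X]) (hm : F.Monic) (hirr : Irreducible F) :
    ∃ B : Finset ℕ, ∀ p : ℕ, p.Prime → p ∉ B → ∀ V : ValuationSubring kb,
      V.valuation (p : kb) < 1 → ∃ F₀ : V[X][X],
        F₀.Monic ∧ F₀.map (mapRingHom (algebraMap V kb)) = F ∧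
        Irreducible (F₀.map (mapRingHom (IsLocalRing.residue V))) ∧
        ∃ (U W : (IsLocalRing.ResidueField V)[X][X]) (r : (IsLocalRing.ResidueField V)[X]),
          r ≠ 0 ∧ U * F₀.map (mapRingHom (IsLocalRing.residue V)) +
            W * derivative (F₀.map (mapRingHom (IsLocalRing.residue V))) = C r := by
  rw [← eventually_vf]
  obtain ⟨U, W, r, hr, hUW⟩ := exists_bezout F hm hirr
  obtain ⟨j, hj⟩ : ∃ j, r.coeff j ≠ 0 := by
    by_contra hcon
    push Not at hcon
    exact hr (by ext i; rw [hcon i, coeff_zero])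
  filter_upwards [eventually_irreducible F hm hirr, eventually_lift_poly₂ F,
    eventually_lift_poly₂ U, eventually_lift_poly₂ W, eventually_lift_poly r,
    eventually_mem (r.coeff j)⁻¹] with V h1 ⟨F₀, hF₀⟩ ⟨U₀, hU₀⟩ ⟨W₀, hW₀⟩ ⟨r₀, hr₀⟩ hinv
  have hinj0 : Function.Injective (algebraMap V kb) := IsFractionRing.injective V kb
  have hinj : Function.Injective (mapRingHom (algebraMap V kb)) := by
    rw [coe_mapRingHom]
    exact Polynomial.map_injective _ hinj0
  have hF₀m : F₀.Monic := by
    apply monic_of_injective hinj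
    rw [hF₀]; exact hm
  refine ⟨F₀, hF₀m, hF₀, h1 F₀ hF₀, U₀.map (mapRingHom (IsLocalRing.residue V)),
    W₀.map (mapRingHom (IsLocalRing.residue V)), r₀.map (IsLocalRing.residue V), ?_, ?_⟩
  · intro h0
    have h2 : IsLocalRing.residue V (r₀.coeff j) = 0 := by
      rw [← coeff_map, h0, coeff_zero]
    have h3 : algebraMap V kb (r₀.coeff j) = r.coeff j := by rw [← hr₀, coeff_map]
    have h4 : r₀.coeff j * ⟨(r.coeff j)⁻¹, hinv⟩ = 1 := by
      apply hinj0
      rw [map_mul, h3, map_one]
      exact mul_inv_cancel₀ hj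
    have h5 := congrArg (IsLocalRing.residue V) h4
    rw [map_mul, h2, zero_mul, map_one] at h5
    exact zero_ne_one h5
  · have h6 : U₀ * F₀ + W₀ * derivative F₀ = C r₀ := by
      apply Polynomial.map_injective _ hinj
      rw [Polynomial.map_add, Polynomial.map_mul, Polynomial.map_mul, ← derivative_map, hF₀, hU₀,
        hW₀, map_C, coe_mapRingHom, hr₀]
      exact hUW
    have h7 := congrArg (Polynomial.map (mapRingHom (IsLocalRing.residue V))) h6
    rw [Polynomial.map_add, Polynomial.map_mul, Polynomial.map_mul, ← derivative_map, map_C,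
      coe_mapRingHom] at h7
    exact h7

end Pool.Agent.Lib.MP_2f3286_ag.Full
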