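import Mathlib

/-!
# Continuous characters with values in the `ℓ`-adic integers
-/

set_option autoImplicit false

namespace Pool.Agent.Lib.MP_2f3286_ag.Full

namespace CharB

section charb

variable {H : Type*} [Group H] [TopologicalSpace H] {ℓ : ℕ} [Fact ℓ.Prime]

/-- continuous additive functions -/
def AddChar' (f : H → ℤ_[ℓ]) : Prop := Continuous f ∧ ∀ a b, f (a * b) = f a + f b

theorem dvd_iff_toZMod (x : ℤ_[ℓ]) : PadicInt.toZMod x = 0 ↔ (ℓ : ℤ_[ℓ]) ∣ x := by
  rw [← RingHom.mem_ker, PadicInt.ker_toZMod, PadicInt.maximalIdeal_eq_span_p,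
    Ideal.mem_span_singleton]

theorem ell_ne_zero : (ℓ : ℤ_[ℓ]) ≠ 0 := by
  have := (Fact.out : ℓ.Prime).ne_zero
  exact_mod_cast this

theorem continuous_toZMod' : Continuous (fun x : ℤ_[ℓ] => PadicInt.toZMod x) := by
  rw [continuous_discrete_rng]
  intro b
  rw [Metric.isOpen_iff]
  intro x hx
  refine ⟨1, one_pos, fun y hy => ?_⟩
  rw [Set.mem_preimage, Set.mem_singleton_iff] at hx ⊢
  rw [Metric.mem_ball, dist_eq_norm, PadicInt.norm_lt_one_iff_dvd, ← dvd_iff_toZMod, map_sub,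
    sub_eq_zero] at hy
  rw [hy, hx]

theorem AddChar'.div {f : H → ℤ_[ℓ]} (hf : AddChar' f) (h : ∀ x, (ℓ : ℤ_[ℓ]) ∣ f x) :
    ∃ g : H → ℤ_[ℓ], AddChar' g ∧ ∀ x, f x = (ℓ : ℤ_[ℓ]) * g x := by
  choose g hg using h
  refine ⟨g, ⟨?_, ?_⟩, hg⟩
  · have hc : Continuous fun x : ℤ_[ℓ] => (ℓ : ℤ_[ℓ]) * x := continuous_const.mul continuous_id
    have hi : Function.Injective fun x : ℤ_[ℓ] => (ℓ : ℤ_[ℓ]) * x :=
      mul_right_injective₀ ell_ne_zero
    rw [(hc.isClosedEmbedding hi).isInducing.continuous_iff]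
    have : (fun x : ℤ_[ℓ] => (ℓ : ℤ_[ℓ]) * x) ∘ g = f := by
      funext x
      exact (hg x).symm
    rw [this]
    exact hf.1
  · intro a b
    have := hf.2 a b
    rw [hg, hg, hg, ← mul_add] at this
    exact mul_left_cancel₀ ell_ne_zero this

theorem AddChar'.comb {d : ℕ} {e : Fin d → H → ℤ_[ℓ]} (he : ∀ i, AddChar' (e i)) {f : H → ℤ_[ℓ]}
    (hf : AddChar' f) (a : Fin d → ℤ_[ℓ]) : AddChar' fun h => f h - ∑ i, a i * e i h := by
  refine ⟨?_, ?_⟩
  · exact hf.1.sub (continuous_finsetSum _ fun i _ => continuous_const.mul (he i).1)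
  · intro x y
    simp only [hf.2, (he _).2, mul_add, Finset.sum_add_distrib]
    ring

end charb

end CharB

open CharB in
/-- Continuous characters form a free module of finite rank. -/
theorem char_basis {H : Type*} [Group H] [TopologicalSpace H] [IsTopologicalGroup H] (ℓ : ℕ)
    [Fact ℓ.Prime]
    (hfin : Finite (H →ₜ* Multiplicative (ZMod ℓ))) :
    ∃ (d : ℕ) (e : H → Fin d → ℤ_[ℓ]), Continuous e ∧ (∀ a b, e (a * b) = e a + e b) ∧
      ∀ χ : H →ₜ* Multiplicative ℤ_[ℓ], ∃! a : Fin d → ℤ_[ℓ], ∀ h, (χ h).toAdd = a ⬝ᵥ e h := by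
  classical
  -- the space of reductions
  let W : Submodule (ZMod ℓ) (H → ZMod ℓ) :=
    { carrier := {g | ∃ f : H → ℤ_[ℓ], AddChar' f ∧ ∀ x, g x = PadicInt.toZMod (f x)}
      add_mem' := by
        rintro a b ⟨f, hf, hf'⟩ ⟨g, hg, hg'⟩
        refine ⟨fun x => f x + g x, ⟨hf.1.add hg.1, fun x y => ?_⟩, fun x => ?_⟩
        · simp only [hf.2, hg.2]; ring
        · rw [Pi.add_apply, hf', hg', map_add]
      zero_mem' := ⟨fun _ => 0, ⟨continuous_const, fun _ _ => by simp⟩, fun x => by simp⟩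
      smul_mem' := by
        rintro c g ⟨f, hf, hf'⟩
        refine ⟨fun x => (c.val : ℤ_[ℓ]) * f x, ⟨continuous_const.mul hf.1, fun x y => ?_⟩,
          fun x => ?_⟩
        · simp only [hf.2]; ring
        · rw [Pi.smul_apply, hf', map_mul, map_natCast, ZMod.natCast_zmod_val, smul_eq_mul] }
  have hWc : ∀ g ∈ W, ∃ χ : H →ₜ* Multiplicative (ZMod ℓ), ∀ x, (χ x).toAdd = g x := by
    rintro g ⟨f, hf, hf'⟩
    refine ⟨⟨⟨⟨fun x => Multiplicative.ofAdd (g x), ?_⟩, ?_⟩, ?_⟩, fun x => rfl⟩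
    · have h1 : f 1 = 0 := by
        have := hf.2 1 1
        rw [mul_one] at this
        linear_combination -this
      rw [hf', h1, map_zero, ofAdd_zero]
    · intro x y
      simp only
      rw [hf', hf', hf', hf.2, map_add, ofAdd_add]
    · have : g = fun x => PadicInt.toZMod (f x) := funext hf'
      show Continuous fun x => Multiplicative.ofAdd (g x)
      rw [this]
      exact continuous_ofAdd.comp (continuous_toZMod'.comp hf.1)
  choose! Θ hΘ using hWc
  have : Finite W := Finite.of_injective (fun w : W => Θ w.1) (by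
    intro w w' hww
    apply Subtype.ext
    funext x
    rw [← hΘ w.1 w.2, ← hΘ w'.1 w'.2]
    exact congrArg (fun χ : H →ₜ* Multiplicative (ZMod ℓ) => (χ x).toAdd) hww)
  set d := Module.finrank (ZMod ℓ) W with hd
  let b := Module.finBasis (ZMod ℓ) W
  have hlift : ∀ i, ∃ f : H → ℤ_[ℓ], AddChar' f ∧ ∀ x, (b i : H → ZMod ℓ) x =
      PadicInt.toZMod (f x) := fun i => (b i).2
  choose e he hbe using hlift
  have key1 : ∀ f : H → ℤ_[ℓ], AddChar' f → ∃ (c : Fin d → ℤ_[ℓ]) (g : H → ℤ_[ℓ]), AddChar' g ∧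
      ∀ x, f x = ∑ i, c i * e i x + ℓ * g x := by
    intro f hf
    let w : W := ⟨fun x => PadicInt.toZMod (f x), f, hf, fun x => rfl⟩
    let c : Fin d → ℤ_[ℓ] := fun i => ((b.repr w i).val : ℤ_[ℓ])
    have hw : ∀ x, PadicInt.toZMod (f x) = ∑ i, b.repr w i * (b i : H → ZMod ℓ) x := by
      intro x
      have h1 := congrArg (fun w : W => (w : H → ZMod ℓ) x) (b.sum_repr w)
      simp only [Submodule.coe_sum, Submodule.coe_smul, Finset.sum_apply, Pi.smul_apply,
        smul_eq_mul] at h1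
      exact h1.symm
    obtain ⟨g, hg, hg'⟩ := (AddChar'.comb he hf c).div (fun x => by
      rw [← dvd_iff_toZMod, map_sub, map_sum, hw, sub_eq_zero]
      refine Finset.sum_congr rfl fun i _ => ?_
      rw [map_mul, ← hbe, map_natCast, ZMod.natCast_zmod_val])
    exact ⟨c, g, hg, fun x => by rw [← hg' x]; ring⟩
  have key2 : ∀ (n : ℕ) (f : H → ℤ_[ℓ]), AddChar' f → ∃ (c : Fin d → ℤ_[ℓ]) (g : H → ℤ_[ℓ]),
      AddChar' g ∧ ∀ x, f x = ∑ i, c i * e i x + (ℓ : ℤ_[ℓ]) ^ n * g x := by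
    intro n
    induction n with
    | zero => exact fun f hf => ⟨0, f, hf, fun x => by simp⟩
    | succ n ih =>
      intro f hf
      obtain ⟨c, g, hg, h1⟩ := ih f hf
      obtain ⟨c', g', hg', h2⟩ := key1 g hg
      refine ⟨fun i => c i + (ℓ : ℤ_[ℓ]) ^ n * c' i, g', hg', fun x => ?_⟩
      rw [h1, h2]
      simp only [add_mul, Finset.sum_add_distrib, mul_add, Finset.mul_sum, mul_assoc]
      ring
  have hpos : (0 : ℝ) < ℓ := by exact_mod_cast (Fact.out : ℓ.Prime).pos
  have hzero : ∀ y : ℤ_[ℓ], (∀ n : ℕ, (ℓ : ℤ_[ℓ]) ^ n ∣ y) → y = 0 := by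
    intro y hy
    by_contra hne
    have h1 := hy (y.valuation + 1)
    rw [← Ideal.mem_span_singleton, ← PadicInt.norm_le_pow_iff_mem_span_pow,
      PadicInt.norm_le_pow_iff_le_valuation y hne] at h1
    omega
  refine ⟨d, fun h i => e i h, continuous_pi fun i => (he i).1, fun a a' => funext fun i =>
    (he i).2 a a', fun χ => ?_⟩
  have hχ : AddChar' fun h => (χ h).toAdd :=
    ⟨continuous_toAdd.comp χ.continuous_toFun, fun x y => by simp only [map_mul, toAdd_mul]⟩
  have huniq : ∀ (n : ℕ) (c : Fin d → ℤ_[ℓ]), (∀ h, ∑ i, c i * e i h = 0) →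
      ∀ i, (ℓ : ℤ_[ℓ]) ^ n ∣ c i := by
    intro n
    induction n with
    | zero => intro c _ i; simp
    | succ n ih =>
      intro c hc
      have h1 : ∀ i, PadicInt.toZMod (c i) = 0 := by
        have hli := b.linearIndependent
        rw [Fintype.linearIndependent_iff] at hli
        refine hli (fun i => PadicInt.toZMod (c i)) ?_
        apply Subtype.ext
        funext x
        have h2 := congrArg PadicInt.toZMod (hc x)
        rw [map_sum, map_zero] at h2
        simp only [Submodule.coe_sum, Submodule.coe_smul, Finset.sum_apply, Pi.smul_apply,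
          smul_eq_mul, Submodule.coe_zero, Pi.zero_apply]
        rw [← h2]
        exact Finset.sum_congr rfl fun i _ => by rw [map_mul, ← hbe]
      have h2 : ∀ i, ∃ z, c i = ℓ * z := fun i => (dvd_iff_toZMod _).1 (h1 i)
      choose z hz using h2
      intro i
      rw [hz i, pow_succ']
      refine mul_dvd_mul_left _ (ih z (fun h => ?_) i)
      have h3 := hc h
      simp only [hz, mul_assoc] at h3
      rw [← Finset.mul_sum] at h3
      exact (mul_eq_zero.1 h3).resolve_left ell_ne_zero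
  have hex : ∃ a : Fin d → ℤ_[ℓ], ∀ (n : ℕ) (h : H),
      ‖(χ h).toAdd - ∑ i, a i * e i h‖ ≤ (ℓ : ℝ) ^ (-(n : ℤ)) := by
    let T : ℕ → Set (Fin d → ℤ_[ℓ]) := fun n =>
      {a | ∀ h : H, ‖(χ h).toAdd - ∑ i, a i * e i h‖ ≤ (ℓ : ℝ) ^ (-(n : ℤ))}
    have hTc : ∀ n, IsClosed (T n) := by
      intro n
      have : T n = ⋂ h : H, {a | ‖(χ h).toAdd - ∑ i, a i * e i h‖ ≤ (ℓ : ℝ) ^ (-(n : ℤ))} := by
        ext a
        simp only [T, Set.mem_iInter, Set.mem_ofPred_eq]
        exact Iff.rfl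
      rw [this]
      refine isClosed_iInter fun h => isClosed_le ?_ continuous_const
      refine (continuous_const.sub (continuous_finsetSum _ fun i _ => ?_)).norm
      exact (continuous_apply i).mul continuous_const
    have hTn : ∀ n, (T n).Nonempty := by
      intro n
      obtain ⟨c, g, hg, h1⟩ := key2 n _ hχ
      refine ⟨c, fun h => ?_⟩
      rw [PadicInt.norm_le_pow_iff_mem_span_pow, Ideal.mem_span_singleton]
      exact ⟨g h, by rw [h1]; ring⟩
    obtain ⟨a, ha⟩ := IsCompact.nonempty_iInter_of_sequence_nonempty_isCompact_isClosed T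
      (fun n a ha h => (ha h).trans (by
        apply zpow_le_zpow_right₀
        · exact_mod_cast (Fact.out : ℓ.Prime).one_le
        · push_cast; linarith)) hTn (hTc 0).isCompact hTc
    rw [Set.mem_iInter] at ha
    exact ⟨a, fun n h => ha n h⟩
  obtain ⟨a, ha⟩ := hex
  have ha' : ∀ h, (χ h).toAdd = ∑ i, a i * e i h := by
    intro h
    rw [← sub_eq_zero]
    refine hzero _ fun n => ?_
    rw [← Ideal.mem_span_singleton, ← PadicInt.norm_le_pow_iff_mem_span_pow]
    exact ha n h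
  refine ⟨a, fun h => ha' h, fun a' h' => ?_⟩
  funext i
  rw [← sub_eq_zero]
  refine hzero _ fun n => huniq n (fun i => a' i - a i) (fun h => ?_) i
  have h1 := h' h
  simp only [dotProduct] at h1
  simp only [sub_mul, Finset.sum_sub_distrib]
  rw [← h1, ← ha' h, sub_self]

end Pool.Agent.Lib.MP_2f3286_ag.Full
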