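import Mathlib
import Pool.Agent.Lib.MP_2f3286_ag.Full.CharB

/-!
# The representation on the characters of a normal subgroup
-/

open Matrix

namespace Pool.Agent.Lib.MP_2f3286_ag.Full

/-- a coordinate of a continuous additive map, as a character -/
def mkChar {H : Type*} [Group H] [TopologicalSpace H] {ℓ : ℕ} [Fact ℓ.Prime]
    (f : H → ℤ_[ℓ]) (hf : Continuous f) (hadd : ∀ a b, f (a * b) = f a + f b) :
    H →ₜ* Multiplicative ℤ_[ℓ] where
  toFun h := Multiplicative.ofAdd (f h)
  map_one' := by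
    have h1 := hadd 1 1
    rw [mul_one, left_eq_add] at h1
    rw [h1]; rfl
  map_mul' a b := by rw [hadd]; rfl
  continuous_toFun := continuous_ofAdd.comp hf

@[simp] theorem mkChar_apply {H : Type*} [Group H] [TopologicalSpace H] {ℓ : ℕ} [Fact ℓ.Prime]
    (f : H → ℤ_[ℓ]) (hf : Continuous f) (hadd : ∀ a b, f (a * b) = f a + f b) (h : H) :
    (mkChar f hf hadd h).toAdd = f h := rfl

theorem continuous_conjNormal {G : Type*} [Group G] [TopologicalSpace G] [IsTopologicalGroup G]
    (H : Subgroup G) [H.Normal] (g : G) : Continuous fun h : H => MulAut.conjNormal g h := by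
  rw [Topology.IsInducing.subtypeVal.continuous_iff]
  have h2 : Continuous fun h : H => g * (h : G) * g⁻¹ := by fun_prop
  exact h2.congr fun h => (MulAut.conjNormal_apply g h).symm

theorem char_rep {G : Type*} [Group G] [TopologicalSpace G] [IsTopologicalGroup G]
    (H : Subgroup G) [H.Normal] (ℓ : ℕ) [Fact ℓ.Prime]
    (hfin : Finite (H →ₜ* Multiplicative (ZMod ℓ))) :
    ∃ (d : ℕ) (e : H → Fin d → ℤ_[ℓ]) (A : G →* Matrix (Fin d) (Fin d) ℤ_[ℓ]), Continuous e ∧
      (∀ a b, e (a * b) = e a + e b) ∧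
      (∀ g h, e (MulAut.conjNormal g h) = (A g).mulVec (e h)) ∧
      (∀ χ : H →ₜ* Multiplicative ℤ_[ℓ], ∀ h, e h = 0 → χ h = 1) ∧
      ∀ g : G, (∀ χ : H →ₜ* Multiplicative ℤ_[ℓ],
        (∀ h, χ (MulAut.conjNormal g h) = χ h) → ∀ h, χ h = 1) →
        ∀ v, (A g).mulVec v = v → v = 0 := by
  classical
  obtain ⟨d, e, hec, hea, heu⟩ := char_basis (H := H) ℓ hfin
  -- uniqueness of coordinates
  have huniq : ∀ a a' : Fin d → ℤ_[ℓ], (∀ h, a ⬝ᵥ e h = a' ⬝ᵥ e h) → a = a' := by
    intro a a' h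
    have hc : Continuous fun h : H => a ⬝ᵥ e h := by
      unfold dotProduct
      fun_prop
    obtain ⟨a₀, -, h0⟩ := heu (mkChar (fun h : H => a ⬝ᵥ e h) hc (fun x y => by
      rw [hea, dotProduct_add]))
    rw [h0 a (fun h => rfl), h0 a' (fun x => h x)]
  have huniqM : ∀ B C : Matrix (Fin d) (Fin d) ℤ_[ℓ], (∀ h, B.mulVec (e h) = C.mulVec (e h)) →
      B = C := by
    intro B C h
    ext i j
    have h1 : (fun j => B i j) = fun j => C i j :=
      huniq _ _ (fun x => congrFun (h x) i)
    exact congrFun h1 j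
  have hmat : ∀ g : G, ∃ B : Matrix (Fin d) (Fin d) ℤ_[ℓ], ∀ h,
      e (MulAut.conjNormal g h) = B.mulVec (e h) := by
    intro g
    have h1 : ∀ i, ∃ a : Fin d → ℤ_[ℓ], ∀ h, e (MulAut.conjNormal g h) i = a ⬝ᵥ e h := by
      intro i
      have hc : Continuous fun h : H => e (MulAut.conjNormal g h) i :=
        (continuous_apply i).comp (hec.comp (continuous_conjNormal H g))
      obtain ⟨a, ha, -⟩ := heu (mkChar (fun h : H => e (MulAut.conjNormal g h) i) hc
        (fun x y => by rw [map_mul, hea]; rfl))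
      exact ⟨a, ha⟩
    choose B hB using h1
    exact ⟨Matrix.of B, fun h => funext fun i => hB i h⟩
  choose A hA using hmat
  refine ⟨d, e, { toFun := A, map_one' := ?_, map_mul' := ?_ }, hec, hea, hA, ?_, ?_⟩
  · apply huniqM
    intro h
    rw [← hA, map_one, one_mulVec]; rfl
  · intro g g'
    apply huniqM
    intro h
    rw [← mulVec_mulVec, ← hA, ← hA, ← hA, map_mul]; rfl
  · intro χ h hh
    obtain ⟨a, ha, -⟩ := heu χ
    have h1 := ha h
    rw [hh, dotProduct_zero] at h1
    exact h1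
  · intro g hg v hv
    by_contra hne
    have h1 : ∃ v ≠ 0, (A g - 1).mulVec v = 0 := ⟨v, hne, by
      rw [sub_mulVec, one_mulVec, sub_eq_zero]; exact hv⟩
    rw [Matrix.exists_mulVec_eq_zero_iff, ← Matrix.exists_vecMul_eq_zero_iff] at h1
    obtain ⟨w, hw0, hw⟩ := h1
    rw [vecMul_sub, vecMul_one, sub_eq_zero] at hw
    apply hw0
    have hc : Continuous fun h : H => w ⬝ᵥ e h := by
      unfold dotProduct
      fun_prop
    have h2 := hg (mkChar (fun h : H => w ⬝ᵥ e h) hc (fun x y => by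
      rw [hea, dotProduct_add])) (fun h => by
        apply Multiplicative.toAdd.injective
        simp only [mkChar_apply]
        rw [hA, dotProduct_mulVec, hw])
    apply huniq
    intro h
    rw [zero_dotProduct]
    exact h2 h

end Pool.Agent.Lib.MP_2f3286_ag.Full
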