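import Mathlib
import Pool.Agent.Lib.MP_2f3286_ag.KSplit
import Pool.Agent.Lib.MP_2f3286_ag.LG

set_option autoImplicit false

/-!
# The density of completely split primes in a Galois extension
-/

open NumberField IsDedekindDomain Filter Topology Ideal Polynomial
open scoped Pointwise

namespace Pool.Agent.Lib.MP_2f3286_ag.Full

section split

variable {F E : Type*} [Field F] [NumberField F] [Field E] [NumberField E] [Algebra F E]

theorem exists_integral_generator :
    ∃ α : 𝓞 E, ∀ g : Gal(E/F), g • α = α → g = 1 := by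
  obtain ⟨α, hα⟩ := Field.exists_primitive_element F E
  have halg : IsAlgebraic ℤ α := by
    have h1 : IsAlgebraic ℚ α := Algebra.IsAlgebraic.isAlgebraic α
    exact (IsFractionRing.isAlgebraic_iff ℤ ℚ E).mpr h1
  obtain ⟨n, hn, hint⟩ := halg.exists_integral_multiple
  refine ⟨⟨n • α, hint⟩, fun g hg => ?_⟩
  have h1 : g (n • α) = n • α := congrArg (fun x : 𝓞 E => (x : E)) hg
  have h2 : g α = α := by
    rw [map_zsmul] at h1
    rw [zsmul_eq_mul, zsmul_eq_mul] at h1
    exact mul_left_cancel₀ (Int.cast_ne_zero.mpr hn) h1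
  have h3 : (g : E →ₐ[F] E) = ((1 : Gal(E/F)) : E →ₐ[F] E) := by
    refine AlgHom.ext_of_adjoin_eq_top (s := {α}) ?_ ?_
    · rw [← IntermediateField.adjoin_simple_toSubalgebra_of_isAlgebraic
        (Algebra.IsAlgebraic.isAlgebraic α), hα]
      rfl
    · intro x hx
      rw [Set.mem_singleton_iff] at hx
      rw [hx]
      exact h2
  ext x
  exact DFunLike.congr_fun h3 x

variable [IsGalois F E]

/-- the prime below -/
noncomputable def below (F : Type*) {E : Type*} [Field F] [NumberField F] [Field E] [NumberField E]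
    [Algebra F E] (P : HeightOneSpectrum (𝓞 E)) : HeightOneSpectrum (𝓞 F) :=
  (exists_below (L := F) P).choose

theorem below_spec (P : HeightOneSpectrum (𝓞 E)) : P.asIdeal.LiesOver (below F P).asIdeal :=
  (exists_below (L := F) P).choose_spec

theorem exists_smul_eq (w : HeightOneSpectrum (𝓞 F)) (P Q : Ideal (𝓞 E)) [P.IsPrime] [Q.IsPrime]
    [P.LiesOver w.asIdeal] [Q.LiesOver w.asIdeal] : ∃ g : Gal(E/F), g • P = Q := by
  have := w.isPrime
  exact exists_smul_eq_of_isGaloisGroup w.asIdeal P Q Gal(E/F)

/-- the primes of `F` that have an (equivalently: all) prime of `E` above with trivial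
decomposition group -/
def Splits (F E : Type*) [Field F] [NumberField F] [Field E] [NumberField E] [Algebra F E] :
    Set (HeightOneSpectrum (𝓞 F)) :=
  {w | ∃ P : HeightOneSpectrum (𝓞 E), P.asIdeal.LiesOver w.asIdeal ∧
      ∀ g : Gal(E/F), g • P.asIdeal = P.asIdeal → g = 1}

theorem sum_ge_of_split : ∃ C : ℝ, ∀ s : ℝ, 1 < s →
    ∑' P, xw E s P ≤ (Nat.card Gal(E/F) : ℝ) * ∑' w : Splits F E, xw F s w + C := by
  classical
  obtain ⟨α, hα⟩ := exists_integral_generator (F := F) (E := E)
  -- bad primes
  set δ : 𝓞 E := ∏ g ∈ (Finset.univ.filter fun g : Gal(E/F) => g ≠ 1), (g • α - α) with hδ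
  have hδ0 : δ ≠ 0 := by
    rw [hδ, Finset.prod_ne_zero_iff]
    intro g hg h
    exact (Finset.mem_filter.mp hg).2 (hα g (sub_eq_zero.mp h))
  have hbad : ∀ P : HeightOneSpectrum (𝓞 E), δ ∉ P.asIdeal →
      ∀ g ∈ inertia Gal(E/F) P.asIdeal, g = 1 := by
    intro P hP g hg
    by_contra hne
    apply hP
    rw [hδ]
    refine Ideal.mem_of_dvd _ (Finset.dvd_prod_of_mem _ (Finset.mem_filter.mpr
      ⟨Finset.mem_univ g, hne⟩)) ?_
    exact hg α
  let T : Finset (HeightOneSpectrum (𝓞 F)) := ((finite_mem hδ0).toFinset).image (below F)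
  choose PP hPP using fun w : HeightOneSpectrum (𝓞 F) => exists_prime_over (E := E) w
  have hex : ∀ P : HeightOneSpectrum (𝓞 E), ∃ g : Gal(E/F), g • (PP (below F P)).asIdeal = P.asIdeal := by
    intro P
    have h1 := below_spec (F := F) P
    have h2 := hPP (below F P)
    have h3 := P.isPrime
    have h4 := (PP (below F P)).isPrime
    exact exists_smul_eq (below F P) _ _
  choose gg hgg using hex
  let e : HeightOneSpectrum (𝓞 E) → Gal(E/F) × HeightOneSpectrum (𝓞 F) := fun P => (gg P, below F P)
  have he : Function.Injective e := by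
    intro P Q h
    have h1 : gg P = gg Q := congrArg Prod.fst h
    have h2 : below F P = below F Q := congrArg Prod.snd h
    apply HeightOneSpectrum.ext
    rw [← hgg P, ← hgg Q, h1, h2]
  refine ⟨(Nat.card Gal(E/F) : ℝ) * (∑' w, xw F 2 w + T.card), fun s hs => ?_⟩
  let b : HeightOneSpectrum (𝓞 F) → ℝ := fun w =>
    Set.indicator (Splits F E) (xw F s) w + (xw F 2 w +
      Set.indicator (T : Set (HeightOneSpectrum (𝓞 F))) (fun _ => (1 : ℝ)) w)
  have hb0 : ∀ w, 0 ≤ Set.indicator (Splits F E) (xw F s) w :=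
    fun w => Set.indicator_nonneg (fun _ _ => xw_nonneg F s _) w
  have hb1 : ∀ w, 0 ≤ Set.indicator (T : Set (HeightOneSpectrum (𝓞 F))) (fun _ => (1 : ℝ)) w :=
    fun w => Set.indicator_nonneg (fun _ _ => zero_le_one) w
  have hle : ∀ P, xw E s P ≤ b (below F P) := by
    intro P
    have hl := below_spec (F := F) P
    set w := below F P with hw
    have hwp := w.isPrime
    have hwm := w.isMaximal
    have hPp := P.isPrime
    have hcard := card_stabilizer_eq_card_inertia_mul_finrank (G := Gal(E/F)) w.asIdeal P.asIdeal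
    have hnorm := absNorm_eq_pow_inertiaDeg'_of_liesOver P.asIdeal w.asIdeal w.isPrime w.ne_bot
    have hPmax : P.asIdeal.IsMaximal := P.isMaximal
    rw [inertiaDeg'_eq_inertiaDeg] at hnorm
    have hf0 : 0 < P.asIdeal.inertiaDeg (𝓞 F) := by
      rcases Nat.eq_zero_or_pos (P.asIdeal.inertiaDeg (𝓞 F)) with h | h
      · rw [h, mul_zero] at hcard
        have : 0 < Nat.card (MulAction.stabilizer Gal(E/F) P.asIdeal) := Nat.card_pos
        omega
      · exact h
    rcases Nat.lt_or_ge 1 (P.asIdeal.inertiaDeg (𝓞 F)) with hf | hf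
    · -- residue degree at least two
      have h1 : xw E s P ≤ xw F 2 w := by
        rw [xw, xw, hnorm, Nat.cast_pow, ← Real.rpow_natCast, ← Real.rpow_mul (Nat.cast_nonneg _)]
        refine Real.rpow_le_rpow_of_exponent_le ?_ ?_
        · exact_mod_cast absNorm_pos F w
        · have h2 : (2 : ℝ) ≤ (P.asIdeal.inertiaDeg (𝓞 F) : ℝ) := by exact_mod_cast hf
          nlinarith
      have := hb0 w
      have := hb1 w
      simp only [b]
      linarith
    · have hf1 : P.asIdeal.inertiaDeg (𝓞 F) = 1 := by omega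
      rw [hf1, pow_one] at hnorm
      have hx : xw E s P = xw F s w := by rw [xw, xw, hnorm]
      by_cases hPδ : δ ∈ P.asIdeal
      · have hwT : w ∈ (T : Set (HeightOneSpectrum (𝓞 F))) := by
          rw [Finset.mem_coe]
          exact Finset.mem_image_of_mem _ ((finite_mem hδ0).mem_toFinset.mpr hPδ)
        simp only [b]
        rw [Set.indicator_of_mem hwT]
        have := hb0 w
        have := xw_nonneg F 2 w
        have := xw_le_one E (by linarith : (0 : ℝ) ≤ s) P
        linarith
      · have hin := hbad P hPδ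
        have h1 : Nat.card (inertia Gal(E/F) P.asIdeal) = 1 := by
          rw [Nat.card_eq_one_iff_unique]
          refine ⟨⟨fun a c => Subtype.ext ((hin a.1 a.2).trans (hin c.1 c.2).symm)⟩, ⟨1⟩⟩
        rw [h1, hf1, mul_one, Nat.card_eq_one_iff_unique] at hcard
        have hwS : w ∈ Splits F E := by
          refine ⟨P, hl, fun g hg => ?_⟩
          have := hcard.1.elim ⟨g, hg⟩ 1
          exact congrArg Subtype.val this
        simp only [b]
        rw [Set.indicator_of_mem hwS, hx]
        have := hb1 w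
        have := xw_nonneg F 2 w
        linarith
  have hsumE := summable_xw E hs
  have hsF := summable_xw F hs
  have hs2 := summable_xw F one_lt_two
  have hsT : Summable (Set.indicator (T : Set (HeightOneSpectrum (𝓞 F))) (fun _ => (1 : ℝ))) :=
    summable_of_hasFiniteSupport (T.finite_toSet.subset (by
      intro w hw
      by_contra hn
      exact hw (Set.indicator_of_notMem hn _)))
  have hsb : Summable b := (hsF.indicator _).add (hs2.add hsT)
  have hbnn : ∀ w, 0 ≤ b w := fun w => by
    have := hb0 w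
    have := hb1 w
    have := xw_nonneg F 2 w
    simp only [b]
    linarith
  have hsgb : Summable fun p : Gal(E/F) × HeightOneSpectrum (𝓞 F) => b p.2 := by
    rw [summable_prod_of_nonneg (fun p => hbnn p.2)]
    exact ⟨fun _ => hsb, Summable.of_finite⟩
  calc ∑' P, xw E s P ≤ ∑' p : Gal(E/F) × HeightOneSpectrum (𝓞 F), b p.2 :=
        Summable.tsum_le_tsum_of_inj e he (fun p _ => hbnn p.2) hle hsumE hsgb
    _ = (Nat.card Gal(E/F) : ℝ) * ∑' w, b w := by
        rw [hsgb.tsum_prod' (fun _ => hsb)]
        change ∑' _ : Gal(E/F), ∑' w, b w = _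
        rw [tsum_const, nsmul_eq_mul]
    _ = _ := by
        have h1 : ∑' w, b w = ∑' w : Splits F E, xw F s w + (∑' w, xw F 2 w + T.card) := by
          simp only [b]
          rw [Summable.tsum_add (hsF.indicator _) (hs2.add hsT), Summable.tsum_add hs2 hsT]
          congr 1
          · exact (tsum_subtype (Splits F E) (xw F s)).symm
          · congr 1
            rw [← tsum_subtype, tsum_const]
            simp
        rw [h1]
        ring

theorem split_asymp : ∃ C : ℝ, ∀ᶠ s : ℝ in 𝓝[>] 1,
    |(Nat.card Gal(E/F) : ℝ) * ∑' w : Splits F E, xw F s w - Real.log (1 / (s - 1))| ≤ C := by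
  obtain ⟨C, hC⟩ := primeSum_asymp E
  obtain ⟨C', hC'⟩ := sum_ge_of_split (F := F) (E := E)
  refine ⟨C + |C'|, ?_⟩
  filter_upwards [hC, self_mem_nhdsWithin] with s hs1 hs
  have h1 := sum_le_of_split (E := E) (Splits F E) (fun w hw => hw) hs
  have h2 := hC' s hs
  have h3 := abs_le.mp hs1
  have h4 := le_abs_self C'
  have h5 := abs_nonneg C'
  rw [abs_le]
  constructor <;> linarith

end split

end Pool.Agent.Lib.MP_2f3286_ag.Full
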