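import Mathlib
import Pool.Agent.Lib.MP_2f3286_ag.Full.ChebA

set_option autoImplicit false

/-!
# Primes with full decomposition group in a cyclic extension
-/

open NumberField IsDedekindDomain Filter Topology Ideal Polynomial
open scoped Pointwise

namespace Pool.Agent.Lib.MP_2f3286_ag.Full

section

variable {F E : Type*} [Field F] [NumberField F] [Field E] [NumberField E] [Algebra F E]
  [IsGalois F E]

omit [NumberField F] [NumberField E] [IsGalois F E] in
theorem smul_liesOver (K : IntermediateField F E) [NumberField K] [Normal F K] (x : Gal(E/F))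
    (P : Ideal (𝓞 E)) (Q : Ideal (𝓞 K)) [hPQ : P.LiesOver Q] :
    (x • P).LiesOver (AlgEquiv.restrictNormalHom K x • Q) := by
  constructor
  ext y
  rw [Ideal.mem_comap, Ideal.mem_pointwise_smul_iff_inv_smul_mem,
    Ideal.mem_pointwise_smul_iff_inv_smul_mem]
  have h1 : x⁻¹ • algebraMap (𝓞 K) (𝓞 E) y =
      algebraMap (𝓞 K) (𝓞 E) ((AlgEquiv.restrictNormalHom K x)⁻¹ • y) := by
    rw [← map_inv]
    apply RingOfIntegers.ext
    exact (AlgEquiv.restrictNormal_commutes x⁻¹ K y.1).symm
  rw [h1]
  exact Ideal.mem_of_liesOver P Q _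

omit [NumberField F] [NumberField E] [IsGalois F E] in
theorem mem_iff_restrict_eq_one (K : IntermediateField F E) [Normal F K] (x : Gal(E/F)) :
    AlgEquiv.restrictNormalHom K x = 1 ↔ x ∈ K.fixingSubgroup := by
  rw [← MonoidHom.mem_ker, IntermediateField.restrictNormalHom_ker]

theorem splits_eq (H : Subgroup Gal(E/F)) (hcomm : ∀ a b : Gal(E/F), a * b = b * a)
    (PP : HeightOneSpectrum (𝓞 F) → HeightOneSpectrum (𝓞 E))
    (hPP : ∀ w, (PP w).asIdeal.LiesOver w.asIdeal) [NumberField (IntermediateField.fixedField H)]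
    [Normal F (IntermediateField.fixedField H)] :
    Splits F (IntermediateField.fixedField H) =
      {w | MulAction.stabilizer Gal(E/F) (PP w).asIdeal ≤ H} := by
  set K := IntermediateField.fixedField H with hK
  have hfix : K.fixingSubgroup = H := IntermediateField.fixingSubgroup_fixedField H
  have hKE : IsGalois K E := inferInstance
  ext w
  have hw1 := hPP w
  have hw2 := (PP w).isPrime
  constructor
  · rintro ⟨Q, hQ, hQst⟩ x hx
    rw [MulAction.mem_stabilizer_iff] at hx
    obtain ⟨P', hP'⟩ := exists_prime_over (E := E) Q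
    have h1 : P'.asIdeal.LiesOver w.asIdeal := Ideal.LiesOver.trans P'.asIdeal Q.asIdeal w.asIdeal
    have h2 := P'.isPrime
    obtain ⟨g, hg⟩ := exists_smul_eq w (PP w).asIdeal P'.asIdeal
    have h3 : x • P'.asIdeal = P'.asIdeal := by
      rw [← hg, ← mul_smul, hcomm x g, mul_smul, hx]
    have h4 := smul_liesOver K x P'.asIdeal Q.asIdeal
    rw [h3] at h4
    have h5 : AlgEquiv.restrictNormalHom K x • Q.asIdeal = Q.asIdeal := by
      rw [h4.over, ← hP'.over]
    have h6 := hQst _ h5
    rw [← hfix]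
    exact (mem_iff_restrict_eq_one K x).mp h6
  · intro hst
    obtain ⟨Q, hQ⟩ := exists_below (L := K) (PP w)
    refine ⟨Q, ?_, fun g' hg' => ?_⟩
    · exact Ideal.LiesOver.tower_bot (PP w).asIdeal Q.asIdeal w.asIdeal
    · obtain ⟨g, rfl⟩ := AlgEquiv.restrictNormalHom_surjective (F := F) (K₁ := K) E g'
      have h1 := smul_liesOver K g (PP w).asIdeal Q.asIdeal
      rw [hg'] at h1
      have hpr : (g • (PP w).asIdeal).IsPrime := inferInstance
      obtain ⟨h, hh⟩ := exists_smul_eq (F := K) Q (g • (PP w).asIdeal) (PP w).asIdeal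
      let h0 : Gal(E/F) := h.restrictScalars F
      have h2 : h0 ∈ K.fixingSubgroup := fun a => h.commutes a
      have h3 : (h0 * g) • (PP w).asIdeal = (PP w).asIdeal := by
        rw [mul_smul]
        conv_rhs => rw [← hh]
        rfl
      have h4 : h0 * g ∈ K.fixingSubgroup := by
        rw [hfix]
        exact hst h3
      have h5 := (mul_mem_cancel_left h2).mp h4
      exact (mem_iff_restrict_eq_one K g).mpr h5

theorem stab_asymp (H : Subgroup Gal(E/F)) (hcomm : ∀ a b : Gal(E/F), a * b = b * a)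
    (PP : HeightOneSpectrum (𝓞 F) → HeightOneSpectrum (𝓞 E))
    (hPP : ∀ w, (PP w).asIdeal.LiesOver w.asIdeal) :
    ∃ C : ℝ, ∀ᶠ s : ℝ in 𝓝[>] 1,
      |(Nat.card Gal(E/F) : ℝ) * ∑' w, Set.indicator
          {w | MulAction.stabilizer Gal(E/F) (PP w).asIdeal ≤ H} (xw F s) w -
        Nat.card H * Real.log (1 / (s - 1))| ≤ C := by
  have hnormal : H.Normal := ⟨fun n hn g => by rw [hcomm g n, mul_assoc, mul_inv_cancel, mul_one]; exact hn⟩
  set K := IntermediateField.fixedField H with hK
  have hKnf : NumberField K := NumberField.of_module_finite F K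
  have hKg : IsGalois F K := inferInstance
  obtain ⟨C, hC⟩ := split_asymp (F := F) (E := K)
  refine ⟨Nat.card H * C, ?_⟩
  filter_upwards [hC] with s hs
  rw [splits_eq H hcomm PP hPP, tsum_subtype] at hs
  have h1 : Nat.card Gal(E/F) = Nat.card H * Nat.card Gal(K/F) := by
    rw [IsGalois.card_aut_eq_finrank, IsGalois.card_aut_eq_finrank,
      ← Module.finrank_mul_finrank F K E, IntermediateField.finrank_fixedField_eq_card, mul_comm]
  rw [h1, Nat.cast_mul, mul_assoc, ← mul_sub, abs_mul, Nat.abs_cast]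
  exact mul_le_mul_of_nonneg_left hs (Nat.cast_nonneg _)

/-- the number of generators of `H` -/
noncomputable def gen {G : Type*} [Group G] (H : Subgroup G) : ℕ :=
  Nat.card {g : G // Subgroup.zpowers g = H}

open Classical in
theorem sum_gen {G : Type*} [Group G] [Finite G] [Fintype (Subgroup G)] (H : Subgroup G) :
    Nat.card H = ∑ D ∈ Finset.univ.filter (fun D : Subgroup G => D ≤ H), gen D := by
  classical
  have := Fintype.ofFinite G
  have h1 : Nat.card H = (Finset.univ.filter fun g : G => g ∈ H).card := by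
    rw [Nat.card_eq_fintype_card, Fintype.card_subtype]
  rw [h1, Finset.card_eq_sum_card_fiberwise (f := fun g : G => Subgroup.zpowers g)
    (t := Finset.univ.filter (fun D : Subgroup G => D ≤ H))]
  · refine Finset.sum_congr rfl fun D hD => ?_
    rw [Finset.mem_filter] at hD
    rw [gen, Nat.card_eq_fintype_card, Fintype.card_subtype]
    congr 1
    ext g
    simp only [Finset.mem_filter, Finset.mem_univ, true_and, and_iff_right_iff_imp]
    intro hg
    apply hD.2
    rw [← hg]
    exact Subgroup.mem_zpowers g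
  · intro g hg
    simp only [Finset.coe_filter, Finset.mem_univ, true_and, Set.mem_ofPred_eq] at hg ⊢
    rw [Subgroup.zpowers_le]
    exact hg

theorem stab_eq_asymp (hcomm : ∀ a b : Gal(E/F), a * b = b * a)
    (PP : HeightOneSpectrum (𝓞 F) → HeightOneSpectrum (𝓞 E))
    (hPP : ∀ w, (PP w).asIdeal.LiesOver w.asIdeal) (H : Subgroup Gal(E/F)) :
    ∃ C : ℝ, ∀ᶠ s : ℝ in 𝓝[>] 1,
      |(Nat.card Gal(E/F) : ℝ) * ∑' w, Set.indicator
          {w | MulAction.stabilizer Gal(E/F) (PP w).asIdeal = H} (xw F s) w -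
        gen H * Real.log (1 / (s - 1))| ≤ C := by
  classical
  have hfin : Fintype (Subgroup Gal(E/F)) := Fintype.ofFinite _
  induction H using WellFoundedLT.induction with
  | _ H ih =>
  obtain ⟨C, hC⟩ := stab_asymp H hcomm PP hPP
  let below' : Finset (Subgroup Gal(E/F)) := Finset.univ.filter fun D => D < H
  have hle : (Finset.univ.filter fun D : Subgroup Gal(E/F) => D ≤ H) = insert H below' := by
    ext D
    simp only [Finset.mem_filter, Finset.mem_univ, true_and, Finset.mem_insert, below', le_iff_lt_or_eq]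
    tauto
  have hH : H ∉ below' := by simp [below']
  have hih : ∀ D : below', ∃ C : ℝ, ∀ᶠ s : ℝ in 𝓝[>] 1,
      |(Nat.card Gal(E/F) : ℝ) * ∑' w, Set.indicator
          {w | MulAction.stabilizer Gal(E/F) (PP w).asIdeal = D.1} (xw F s) w -
        gen D.1 * Real.log (1 / (s - 1))| ≤ C := fun D => ih D.1 (Finset.mem_filter.mp D.2).2
  choose CC hCC using hih
  have hall : ∀ᶠ s : ℝ in 𝓝[>] 1, ∀ D : below', |(Nat.card Gal(E/F) : ℝ) * ∑' w, Set.indicator
          {w | MulAction.stabilizer Gal(E/F) (PP w).asIdeal = D.1} (xw F s) w -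
        gen D.1 * Real.log (1 / (s - 1))| ≤ CC D := eventually_all.mpr hCC
  refine ⟨C + ∑ D, CC D, ?_⟩
  filter_upwards [hC, hall, self_mem_nhdsWithin] with s hs1 hs2 hs
  have hsum := summable_xw F (hs : (1 : ℝ) < s)
  have h1 : ∑' w, Set.indicator {w | MulAction.stabilizer Gal(E/F) (PP w).asIdeal ≤ H} (xw F s) w =
      ∑ D ∈ Finset.univ.filter (fun D : Subgroup Gal(E/F) => D ≤ H), ∑' w, Set.indicator
          {w | MulAction.stabilizer Gal(E/F) (PP w).asIdeal = D} (xw F s) w := by
    rw [← Summable.tsum_finsetSum (fun D _ => hsum.indicator _)]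
    refine tsum_congr fun w => ?_
    by_cases hw : MulAction.stabilizer Gal(E/F) (PP w).asIdeal ≤ H
    · rw [Set.indicator_of_mem (by exact hw), Finset.sum_eq_single
        (MulAction.stabilizer Gal(E/F) (PP w).asIdeal)]
      · rw [Set.indicator_of_mem (by rfl)]
      · intro D _ hD
        exact Set.indicator_of_notMem (fun h => hD h.symm) _
      · intro h
        refine absurd ?_ h
        rw [Finset.mem_filter]
        exact ⟨Finset.mem_univ _, hw⟩
    · rw [Set.indicator_of_notMem (by exact hw)]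
      refine (Finset.sum_eq_zero fun D hD => ?_).symm
      refine Set.indicator_of_notMem (fun h => hw ?_) _
      rw [show MulAction.stabilizer Gal(E/F) (PP w).asIdeal = D from h]
      exact (Finset.mem_filter.mp hD).2
  rw [h1, sum_gen H, hle, Finset.sum_insert hH, Finset.sum_insert hH] at hs1
  have h2 : |∑ D ∈ below', ((Nat.card Gal(E/F) : ℝ) * ∑' w, Set.indicator
          {w | MulAction.stabilizer Gal(E/F) (PP w).asIdeal = D} (xw F s) w -
        gen D * Real.log (1 / (s - 1)))| ≤ ∑ D, CC D := by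
    rw [← Finset.sum_coe_sort]
    exact (Finset.abs_sum_le_sum_abs _ _).trans (Finset.sum_le_sum fun D _ => hs2 D)
  rw [Finset.sum_sub_distrib, ← Finset.mul_sum, ← Finset.sum_mul] at h2
  push_cast at hs1
  have h3 := abs_le.mp hs1
  have h4 := abs_le.mp h2
  rw [abs_le]
  constructor <;> nlinarith [h3.1, h3.2, h4.1, h4.2]

/-- In a cyclic extension there are infinitely many primes with full decomposition group. -/
theorem exists_stab_top [hcyc : IsCyclic Gal(E/F)] (T : Finset (HeightOneSpectrum (𝓞 F))) :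
    ∃ w ∉ T, ∃ P : HeightOneSpectrum (𝓞 E), P.asIdeal.LiesOver w.asIdeal ∧
      ∀ g : Gal(E/F), g • P.asIdeal = P.asIdeal := by
  classical
  have hcomm : ∀ a b : Gal(E/F), a * b = b * a := by
    obtain ⟨g, hg⟩ := hcyc.exists_generator
    intro a b
    obtain ⟨m, rfl⟩ := hg a
    obtain ⟨n, rfl⟩ := hg b
    simp only [← zpow_add, add_comm]
  choose PP hPP using fun w : HeightOneSpectrum (𝓞 F) => exists_prime_over (E := E) w
  by_contra hcon
  push Not at hcon
  obtain ⟨C, hC⟩ := stab_eq_asymp hcomm PP hPP ⊤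
  have hgen : 1 ≤ gen (⊤ : Subgroup Gal(E/F)) := by
    obtain ⟨g, hg⟩ := hcyc.exists_generator
    have : Nonempty {g : Gal(E/F) // Subgroup.zpowers g = ⊤} :=
      ⟨⟨g, by rw [eq_top_iff]; exact fun x _ => hg x⟩⟩
    exact Nat.one_le_iff_ne_zero.mpr Nat.card_pos.ne'
  have hsub : ∀ w, MulAction.stabilizer Gal(E/F) (PP w).asIdeal = ⊤ → w ∈ T := by
    intro w hw
    by_contra hwT
    obtain ⟨g, hg⟩ := hcon w hwT (PP w) (hPP w)
    apply hg
    have : g ∈ MulAction.stabilizer Gal(E/F) (PP w).asIdeal := by rw [hw]; trivial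
    exact this
  have hev := tendsto_log.eventually_gt_atTop ((Nat.card Gal(E/F) : ℝ) * T.card + C)
  obtain ⟨s, hs1, hs2, hs⟩ := (hev.and (hC.and self_mem_nhdsWithin)).exists
  have hs' : (1 : ℝ) < s := hs
  have hsum := summable_xw F hs'
  have hbound : ∑' w, Set.indicator
          {w | MulAction.stabilizer Gal(E/F) (PP w).asIdeal = ⊤} (xw F s) w ≤ T.card := by
    have h2 : Summable (Set.indicator (T : Set (HeightOneSpectrum (𝓞 F))) (fun _ => (1 : ℝ))) :=
      summable_of_hasFiniteSupport (T.finite_toSet.subset (by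
        intro w hw
        by_contra hn
        exact hw (Set.indicator_of_notMem hn _)))
    have h5 : ∑' w, Set.indicator (T : Set (HeightOneSpectrum (𝓞 F))) (fun _ => (1 : ℝ)) w = T.card := by
      rw [← tsum_subtype, tsum_const]
      simp
    rw [← h5]
    refine Summable.tsum_le_tsum (fun w => ?_) (hsum.indicator _) h2
    by_cases hw : MulAction.stabilizer Gal(E/F) (PP w).asIdeal = ⊤
    · rw [Set.indicator_of_mem (by exact hw), Set.indicator_of_mem (by exact_mod_cast hsub w hw)]
      exact xw_le_one F (by linarith) w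
    · rw [Set.indicator_of_notMem (by exact hw)]
      exact Set.indicator_nonneg (fun _ _ => zero_le_one) w
  have h3 := (abs_le.mp hs2).1
  have hG : (0 : ℝ) ≤ Nat.card Gal(E/F) := Nat.cast_nonneg _
  have h4 : (Nat.card Gal(E/F) : ℝ) * ∑' w, Set.indicator
          {w | MulAction.stabilizer Gal(E/F) (PP w).asIdeal = ⊤} (xw F s) w ≤
      (Nat.card Gal(E/F) : ℝ) * T.card := mul_le_mul_of_nonneg_left hbound hG
  have hL : 0 ≤ Real.log (1 / (s - 1)) := by
    have hC0 : 0 ≤ C := (abs_nonneg _).trans hs2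
    have : (0 : ℝ) ≤ (Nat.card Gal(E/F) : ℝ) * T.card := by positivity
    linarith
  have h5 : Real.log (1 / (s - 1)) ≤ gen (⊤ : Subgroup Gal(E/F)) * Real.log (1 / (s - 1)) := by
    have : (1 : ℝ) ≤ gen (⊤ : Subgroup Gal(E/F)) := by exact_mod_cast hgen
    nlinarith
  linarith

end

end Pool.Agent.Lib.MP_2f3286_ag.Full
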