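import Mathlib
import Pool.Agent.Lib.MP_2f3286_ag.Full.ChebA
import Pool.Agent.Lib.MP_2f3286_ag.Local
import Pool.Agent.Lib.MP_2f3286_ag.Pair

set_option autoImplicit false

/-!
# Decomposition groups and completions
-/

open NumberField IsDedekindDomain Filter Topology Ideal Polynomial IntermediateField WithZero
open scoped Pointwise

namespace Pool.Agent.Lib.MP_2f3286_ag.Full

section

variable {F E : Type*} [Field F] [NumberField F] [Field E] [NumberField E] [Algebra F E]

omit [NumberField F] in
theorem intValuation_smul (P : HeightOneSpectrum (𝓞 E)) (g : Gal(E/F))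
    (hg : g • P.asIdeal = P.asIdeal) (x : 𝓞 E) : P.intValuation (g • x) = P.intValuation x := by
  have hmem : ∀ (n : ℕ) (z : 𝓞 E), g • z ∈ P.asIdeal ^ n ↔ z ∈ P.asIdeal ^ n := by
    intro n z
    have h1 : g • (P.asIdeal ^ n) = P.asIdeal ^ n := by
      rw [Ideal.pointwise_smul_def] at hg ⊢
      rw [Ideal.map_pow, hg]
    conv_lhs => rw [← h1]
    exact Ideal.smul_mem_pointwise_smul_iff
  by_cases hx : x = 0
  · rw [hx, smul_zero]
  have hgx : g • x ≠ 0 := by
    intro h
    apply hx
    have := congrArg (fun z => g⁻¹ • z) h
    simpa using this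
  have key : ∀ n : ℕ, P.intValuation (g • x) ≤ exp (-(n : ℤ)) ↔ P.intValuation x ≤ exp (-(n : ℤ)) := by
    intro n
    rw [HeightOneSpectrum.intValuation_le_pow_iff_mem, HeightOneSpectrum.intValuation_le_pow_iff_mem,
      hmem]
  rw [HeightOneSpectrum.intValuation_eq_exp_neg_multiplicity _ hx,
    HeightOneSpectrum.intValuation_eq_exp_neg_multiplicity _ hgx] at key ⊢
  apply le_antisymm
  · exact (key _).mpr le_rfl
  · exact (key _).mp le_rfl

omit [NumberField F] in
theorem valuation_aut (P : HeightOneSpectrum (𝓞 E)) (g : Gal(E/F))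
    (hg : g • P.asIdeal = P.asIdeal) (x : E) : P.valuation E (g x) = P.valuation E x := by
  obtain ⟨a, b, hb, rfl⟩ := IsFractionRing.div_surjective (A := 𝓞 E) x
  have h1 : ∀ c : 𝓞 E, g (algebraMap (𝓞 E) E c) = algebraMap (𝓞 E) E (g • c) := fun c => rfl
  rw [map_div₀, map_div₀, map_div₀, h1, h1, HeightOneSpectrum.valuation_of_algebraMap,
    HeightOneSpectrum.valuation_of_algebraMap, HeightOneSpectrum.valuation_of_algebraMap,
    HeightOneSpectrum.valuation_of_algebraMap, intValuation_smul P g hg, intValuation_smul P g hg]

variable [IsGalois F E]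

/-- an element whose image under an embedding into the algebraic closure of the completion lies in
the completion is fixed by the Galois group if the decomposition group is everything (integral
case) -/
theorem fixed_of_completion_int (w : HeightOneSpectrum (𝓞 F)) (P : HeightOneSpectrum (𝓞 E))
    [P.asIdeal.LiesOver w.asIdeal] (hst : ∀ g : Gal(E/F), g • P.asIdeal = P.asIdeal)
    (i : E →ₐ[F] AlgebraicClosure (w.adicCompletion F)) (y : E) (hy : IsIntegral ℤ y)
    (z : w.adicCompletion F)
    (hz : algebraMap _ (AlgebraicClosure (w.adicCompletion F)) z = i y) (g : Gal(E/F)) :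
    g y = y := by
  classical
  have hG : 0 < Nat.card Gal(E/F) := Nat.card_pos
  -- integers of the completion
  have hint : ∀ c : w.adicCompletion F, IsIntegral (w.adicCompletionIntegers F)
      (algebraMap (w.adicCompletion F) (AlgebraicClosure (w.adicCompletion F)) c) →
      Valued.v c ≤ 1 := by
    intro c hc
    rw [isIntegral_algebraMap_iff
        (algebraMap (w.adicCompletion F) (AlgebraicClosure (w.adicCompletion F))).injective] at hc
    obtain ⟨o, ho⟩ := IsIntegrallyClosed.isIntegral_iff.mp hc
    rw [← ho]
    exact o.2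
  have hiy : ∀ h : Gal(E/F), IsIntegral (w.adicCompletionIntegers F) (i (h y)) := by
    intro h
    obtain ⟨p, hp, he⟩ := hy
    refine ⟨p.map (Int.castRingHom _), hp.map _, ?_⟩
    rw [Polynomial.eval₂_map]
    have h1 := congrArg (fun t => i (h t)) he
    simp only [map_zero] at h1
    rw [← h1]
    change _ = ((i : E →+* AlgebraicClosure (w.adicCompletion F)).comp (h : E →+* E)) _
    rw [Polynomial.hom_eval₂]
    congr 1
    exact RingHom.ext_int _ _
  have hz1 : Valued.v z ≤ 1 := by
    apply hint
    rw [hz]
    exact hiy 1
  have key : ∀ N : ℕ, P.valuation E (y - g y) ^ Nat.card Gal(E/F) ≤ exp (-(N : ℤ)) := by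
    intro N
    obtain ⟨a, ha⟩ := exists_approx w z N
    have hN1 : exp (-(N : ℤ)) ≤ (1 : WithZero (Multiplicative ℤ)) := by
      rw [← exp_zero, exp_le_exp]
      omega
    have ha1 : Valued.v (algebraMap F (w.adicCompletion F) a) ≤ 1 := by
      have h1 : algebraMap F (w.adicCompletion F) a =
          z - (z - algebraMap F (w.adicCompletion F) a) := by ring
      rw [h1]
      exact (Valuation.map_sub _ _ _).trans (max_le hz1 (ha.trans hN1))
    set x : E := algebraMap F E a - y with hx
    set b : F := Algebra.norm F x with hb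
    have hbprod : algebraMap F E b = ∏ h : Gal(E/F), h x := Algebra.norm_eq_prod_automorphisms F x
    have hxi : ∀ h : Gal(E/F), i (h x) = algebraMap F _ a - i (h y) := by
      intro h
      rw [hx, map_sub, map_sub, AlgEquiv.commutes, AlgHom.commutes]
    have hb1 : w.valuation F b ≤ exp (-(N : ℤ)) := by
      rw [← val_alg]
      set a' : w.adicCompletion F := algebraMap F (w.adicCompletion F) a - z with ha'
      set c : AlgebraicClosure (w.adicCompletion F) :=
        ∏ h ∈ Finset.univ.erase (1 : Gal(E/F)), i (h x) with hc
      have h1 : algebraMap (w.adicCompletion F) (AlgebraicClosure (w.adicCompletion F))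
          (algebraMap F (w.adicCompletion F) b) = algebraMap _ _ a' * c := by
        rw [← IsScalarTower.algebraMap_apply F (w.adicCompletion F)
          (AlgebraicClosure (w.adicCompletion F)), ← i.commutes b, hbprod, map_prod,
          ← Finset.mul_prod_erase Finset.univ _ (Finset.mem_univ (1 : Gal(E/F))), hc]
        congr 1
        rw [hxi, ha', map_sub, hz, ← IsScalarTower.algebraMap_apply F (w.adicCompletion F)
          (AlgebraicClosure (w.adicCompletion F))]
        rfl
      have hcint : IsIntegral (w.adicCompletionIntegers F) c := by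
        rw [hc]
        refine IsIntegral.prod _ fun h _ => ?_
        rw [hxi]
        refine IsIntegral.sub ?_ (hiy h)
        rw [IsScalarTower.algebraMap_apply F (w.adicCompletion F)
          (AlgebraicClosure (w.adicCompletion F))]
        exact isIntegral_algebraMap (x := (⟨algebraMap F (w.adicCompletion F) a, ha1⟩ :
          w.adicCompletionIntegers F))
      by_cases ha0 : a' = 0
      · rw [ha0, map_zero, zero_mul, map_eq_zero] at h1
        rw [h1, map_zero]
        exact zero_le
      · have h2 : c = algebraMap (w.adicCompletion F) (AlgebraicClosure (w.adicCompletion F))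
            (algebraMap F (w.adicCompletion F) b / a') := by
          rw [map_div₀, h1, mul_div_cancel_left₀]
          rwa [_root_.map_ne_zero]
        have h3 := hint _ (h2 ▸ hcint)
        have h4 : algebraMap F (w.adicCompletion F) b =
            a' * (algebraMap F (w.adicCompletion F) b / a') := by
          rw [mul_div_cancel₀ _ ha0]
        rw [h4, map_mul]
        have h5 : Valued.v a' ≤ exp (-(N : ℤ)) := by
          rw [ha', Valuation.map_sub_swap]
          exact ha
        calc Valued.v a' * Valued.v (algebraMap F (w.adicCompletion F) b / a')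
            ≤ exp (-(N : ℤ)) * 1 := mul_le_mul' h5 h3
          _ = _ := mul_one _
    have hb2 : P.valuation E (algebraMap F E b) ≤ exp (-(N : ℤ)) := by
      rw [← HeightOneSpectrum.valuation_liesOver E w P]
      have he : w.asIdeal.ramificationIdx' P.asIdeal ≠ 0 :=
        Ideal.IsDedekindDomain.ramificationIdx'_ne_zero_of_liesOver P.asIdeal w.ne_bot
      exact (pow_le_of_le_one zero_le (hb1.trans hN1) he).trans hb1
    have hb3 : P.valuation E (algebraMap F E b) = P.valuation E x ^ Nat.card Gal(E/F) := by
      rw [hbprod, map_prod, Finset.prod_congr rfl (fun h _ => valuation_aut P h (hst h) x),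
        Finset.prod_const, Finset.card_univ, Nat.card_eq_fintype_card]
    rw [hb3] at hb2
    refine le_trans (pow_le_pow_left' ?_ _) hb2
    have h6 : y - g y = g x - x := by
      rw [hx, map_sub, AlgEquiv.commutes]
      ring
    rw [h6]
    refine (Valuation.map_sub _ _ _).trans ?_
    rw [valuation_aut P g (hst g) x, max_self]
  by_contra hne
  have h1 : P.valuation E (y - g y) ≠ 0 := by
    rw [Valuation.ne_zero_iff]
    exact sub_ne_zero.mpr (Ne.symm hne)
  obtain ⟨m, hm⟩ := exists_exp_neg_lt (pow_ne_zero (Nat.card Gal(E/F)) h1)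
  exact absurd (key m) (not_le.mpr hm)

/-- an element whose image under an embedding into the algebraic closure of the completion lies in
the completion is fixed by the Galois group if the decomposition group is everything -/
theorem fixed_of_completion (w : HeightOneSpectrum (𝓞 F)) (P : HeightOneSpectrum (𝓞 E))
    [P.asIdeal.LiesOver w.asIdeal] (hst : ∀ g : Gal(E/F), g • P.asIdeal = P.asIdeal)
    (i : E →ₐ[F] AlgebraicClosure (w.adicCompletion F)) (y : E) 
    (z : w.adicCompletion F)
    (hz : algebraMap _ (AlgebraicClosure (w.adicCompletion F)) z = i y) (g : Gal(E/F)) :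
    g y = y := by
  have halg : IsAlgebraic ℤ y := by
    have h1 : IsAlgebraic ℚ y := Algebra.IsAlgebraic.isAlgebraic y
    exact (IsFractionRing.isAlgebraic_iff ℤ ℚ E).mpr h1
  obtain ⟨n, hn, hint⟩ := halg.exists_integral_multiple
  have h1 := fixed_of_completion_int w P hst i (n • y) hint (n • z) (by
    rw [map_zsmul, map_zsmul, hz]) g
  rw [map_zsmul, zsmul_eq_mul, zsmul_eq_mul] at h1
  exact mul_left_cancel₀ (Int.cast_ne_zero.mpr hn) h1

/-- if the decomposition group is everything, then every automorphism comes from the completion -/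
theorem exists_local_lift (w : HeightOneSpectrum (𝓞 F)) (P : HeightOneSpectrum (𝓞 E))
    [P.asIdeal.LiesOver w.asIdeal] (hst : ∀ g : Gal(E/F), g • P.asIdeal = P.asIdeal)
    (i : E →ₐ[F] AlgebraicClosure (w.adicCompletion F)) (σ : Gal(E/F)) :
    ∃ τ : Gal(AlgebraicClosure (w.adicCompletion F)/w.adicCompletion F), ∀ x, i (σ x) = τ (i x) := by
  have hchar : CharZero (w.adicCompletion F) := charZero_of_injective_algebraMap
      (algebraMap F (w.adicCompletion F)).injective
  let H : Subgroup Gal(E/F) :=
    { carrier := {g | ∃ τ : Gal(AlgebraicClosure (w.adicCompletion F)/w.adicCompletion F),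
        ∀ x, i (g x) = τ (i x)}
      one_mem' := ⟨1, fun x => rfl⟩
      mul_mem' := by
        rintro g h ⟨τ, hτ⟩ ⟨τ', hτ'⟩
        refine ⟨τ * τ', fun x => ?_⟩
        rw [AlgEquiv.mul_apply, AlgEquiv.mul_apply, hτ, hτ']
      inv_mem' := by
        rintro g ⟨τ, hτ⟩
        refine ⟨τ⁻¹, fun x => ?_⟩
        have h1 := hτ (g⁻¹ x)
        have h2 : g (g⁻¹ x) = x := g.apply_symm_apply x
        rw [h2] at h1
        rw [h1]
        exact (τ.symm_apply_apply _).symm }
  have hbot : IntermediateField.fixedField H = ⊥ := by
    rw [eq_bot_iff]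
    intro y hy
    rw [IntermediateField.mem_fixedField_iff] at hy
    have h1 : ∀ τ : Gal(AlgebraicClosure (w.adicCompletion F)/w.adicCompletion F),
        τ (i y) = i y := by
      intro τ
      obtain ⟨g, hg⟩ := exists_restrict (k := F) (kb := E) (F := w.adicCompletion F) i τ
      rw [← hg, hy g ⟨τ, hg⟩]
    obtain ⟨z, hz⟩ := mem_of_fixed (F := w.adicCompletion F) h1
    have h2 := fixed_of_completion w P hst i y z hz
    rw [IsGalois.mem_bot_iff_fixed]
    exact h2
  have htop : H = ⊤ := by
    rw [← IntermediateField.fixingSubgroup_fixedField H, hbot, IntermediateField.fixingSubgroup_bot]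
  have h3 : σ ∈ H := by rw [htop]; trivial
  exact h3

end

end Pool.Agent.Lib.MP_2f3286_ag.Full
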