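import Mathlib
import Pool.Agent.Lib.MP_2f3286_ag.Full.ChebB
import Pool.Agent.Lib.MP_2f3286_ag.Full.ChebC
import Pool.Agent.Lib.MP_2f3286_ag.Dens

set_option autoImplicit false

/-!
# Every automorphism is close to a decomposition group
-/

open NumberField IsDedekindDomain Filter Topology Ideal Polynomial IntermediateField WithZero
open scoped Pointwise

namespace Pool.Agent.Lib.MP_2f3286_ag.Full

theorem exists_j_tower {k kb F : Type*} [Field k] [NumberField k] [Field kb] [Algebra k kb]
    [IsGalois k kb] [Field F] [NumberField F] [Algebra k F] [Algebra F kb] [IsScalarTower k F kb]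
    (v : HeightOneSpectrum (𝓞 k)) (w : HeightOneSpectrum (𝓞 F)) [w.asIdeal.LiesOver v.asIdeal]
    (ι : kb →ₐ[k] AlgebraicClosure (v.adicCompletion k)) :
    ∃ (j : AlgebraicClosure (v.adicCompletion k) →+* AlgebraicClosure (w.adicCompletion F))
      (ρ : Gal(kb/k)),
      (∀ x : F, j (ι (ρ (algebraMap F kb x))) =
        algebraMap _ (AlgebraicClosure (w.adicCompletion F)) (algebraMap F (w.adicCompletion F) x)) ∧
      ∀ τ : Gal(AlgebraicClosure (w.adicCompletion F)/w.adicCompletion F),
        ∃ τ' : Gal(AlgebraicClosure (v.adicCompletion k)/v.adicCompletion k),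
          ∀ x, j (τ' x) = τ (j x) := by
  obtain ⟨j₀, hj₀⟩ := exists_completion_hom v w
  have : CharZero (v.adicCompletion k) := charZero_of_injective_algebraMap
    (algebraMap k (v.adicCompletion k)).injective
  let _ : Algebra (v.adicCompletion k) (w.adicCompletion F) := j₀.toAlgebra
  let j : AlgebraicClosure (v.adicCompletion k) →ₐ[v.adicCompletion k]
    AlgebraicClosure (w.adicCompletion F) := IsAlgClosed.lift
  have hj : ∀ a : v.adicCompletion k, j (algebraMap _ _ a) =
      algebraMap _ (AlgebraicClosure (w.adicCompletion F)) (j₀ a) := by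
    intro a
    rw [AlgHom.commutes]
    rfl
  have : Algebra.IsAlgebraic k kb := inferInstance
  have : Algebra.IsAlgebraic F kb := Algebra.IsAlgebraic.tower_top (K := k) F
  have : FaithfulSMul F (AlgebraicClosure (w.adicCompletion F)) := by
    rw [faithfulSMul_iff_algebraMap_injective]
    exact (algebraMap F (AlgebraicClosure (w.adicCompletion F))).injective
  have : Module.IsTorsionFree F (AlgebraicClosure (w.adicCompletion F)) := inferInstance
  let ι'' : kb →ₐ[F] AlgebraicClosure (w.adicCompletion F) := IsAlgClosed.lift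
  have hι'' : ∀ x : F, ι'' (algebraMap F kb x) =
      algebraMap _ (AlgebraicClosure (w.adicCompletion F)) (algebraMap F (w.adicCompletion F) x) := by
    intro x
    exact ι''.commutes x
  have hk : ∀ a : k, j (ι (algebraMap k kb a)) = algebraMap _ (AlgebraicClosure (w.adicCompletion F))
      (algebraMap F (w.adicCompletion F) (algebraMap k F a)) := by
    intro a
    rw [ι.commutes]
    rw [IsScalarTower.algebraMap_apply k (v.adicCompletion k) (AlgebraicClosure (v.adicCompletion k)),
      hj, hj₀]
  obtain ⟨ρ, hρ⟩ := exists_aut_of_embeddings (k := k)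
    ((j : _ →+* AlgebraicClosure (w.adicCompletion F)).comp
      (ι : kb →+* AlgebraicClosure (v.adicCompletion k))) (ι'' : kb →+* _) (by
      intro a
      change j (ι (algebraMap k kb a)) = ι'' (algebraMap k kb a)
      rw [hk, IsScalarTower.algebraMap_apply k F kb]
      exact (hι'' (algebraMap k F a)).symm)
  have hρ' : ∀ x : kb, j (ι (ρ x)) = ι'' x := hρ
  refine ⟨j, ρ, fun x => ?_, fun τ => ?_⟩
  · change j (ι (ρ (algebraMap F kb x))) = _
    rw [hρ', hι'']
  · obtain ⟨τ', hτ'⟩ := exists_restrict' (k := v.adicCompletion k)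
      (j : AlgebraicClosure (v.adicCompletion k) →+* AlgebraicClosure (w.adicCompletion F))
      (τ : AlgebraicClosure (w.adicCompletion F) →+* AlgebraicClosure (w.adicCompletion F)) (by
      intro a
      change τ (j (algebraMap _ _ a)) = j (algebraMap _ _ a)
      rw [hj, AlgEquiv.commutes])
    exact ⟨τ', hτ'⟩

universe u in
theorem cheb {k : Type u} [Field k] [NumberField k] (S : Finset (HeightOneSpectrum (𝓞 k)))
    (L : IntermediateField k (AlgebraicClosure k)) [FiniteDimensional k L]
    (σ : Gal(AlgebraicClosure k/k)) :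
    ∃ v, v ∉ S ∧ ∀ ι : AlgebraicClosure k →ₐ[k] AlgebraicClosure (v.adicCompletion k),
      ∃ g σ' : Gal(AlgebraicClosure k/k), (∀ x ∈ L, σ' x = σ x) ∧
      ∃ τ : Gal(AlgebraicClosure (v.adicCompletion k)/v.adicCompletion k),
        ∀ x, ι ((g * σ' * g⁻¹) x) = τ (ι x) := by
  classical
  let E : IntermediateField k (AlgebraicClosure k) := normalClosure k L (AlgebraicClosure k)
  have hLE : L ≤ E := IntermediateField.le_normalClosure L
  have hEfin : FiniteDimensional k E := inferInstance
  have hEnf : NumberField E := NumberField.of_module_finite k E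
  have hEn : Normal k E := inferInstance
  have hEg : IsGalois k E := ⟨⟩
  let s : Gal(E/k) := AlgEquiv.restrictNormalHom E σ
  have hs : ∀ x : E, (s x : AlgebraicClosure k) = σ x := fun x =>
    AlgEquiv.restrictNormal_commutes σ E x
  let F : IntermediateField k E := IntermediateField.fixedField (Subgroup.zpowers s)
  have hFfin : FiniteDimensional k F := inferInstance
  have hFnf : NumberField F := NumberField.of_module_finite k F
  have hFE : IsGalois F E := inferInstance
  have hfixF : F.fixingSubgroup = Subgroup.zpowers s :=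
    IntermediateField.fixingSubgroup_fixedField _
  let eF : F.fixingSubgroup ≃* Gal(E/F) := IntermediateField.fixingSubgroupEquiv F
  have hcyc : IsCyclic Gal(E/F) := by
    have h1 : IsCyclic F.fixingSubgroup := by
      rw [hfixF]
      infer_instance
    exact isCyclic_of_surjective eF eF.surjective
  let s' : Gal(E/F) := eF ⟨s, by rw [hfixF]; exact Subgroup.mem_zpowers s⟩
  have hs' : ∀ x : E, s' x = s x := fun x => rfl
  obtain ⟨w, hwT, P, hPw, hst⟩ := exists_stab_top (F := F) (E := E)
    ((finite_above (L := k) (F := F) S).toFinset)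
  obtain ⟨v, hvw⟩ := exists_below (L := k) w
  refine ⟨v, ?_, fun ι => ?_⟩
  · intro hv
    apply hwT
    rw [Set.Finite.mem_toFinset]
    exact ⟨v, hv, hvw⟩
  obtain ⟨j, ρ, hj1, hj2⟩ := exists_j_tower (kb := AlgebraicClosure k) v w ι
  let i : E →ₐ[F] AlgebraicClosure (w.adicCompletion F) :=
    { toRingHom := (j.comp ((ι : AlgebraicClosure k →+* _).comp
        (ρ : AlgebraicClosure k →+* AlgebraicClosure k))).comp (algebraMap E (AlgebraicClosure k))
      commutes' := fun a => by
        exact hj1 a }
  have hi : ∀ x : E, i x = j (ι (ρ (x : AlgebraicClosure k))) := fun x => rfl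
  obtain ⟨τ, hτ⟩ := exists_local_lift w P hst i s'
  obtain ⟨τ', hτ'⟩ := hj2 τ
  obtain ⟨σ', hσ'⟩ := exists_restrict (k := k) (F := v.adicCompletion k)
    (ι.comp (ρ : AlgebraicClosure k →ₐ[k] AlgebraicClosure k)) τ'
  have hσ'' : ∀ a, ι (ρ (σ' a)) = τ' (ι (ρ a)) := hσ'
  refine ⟨ρ, σ', fun x hx => ?_, τ', fun x => ?_⟩
  · let x' : E := ⟨x, hLE hx⟩
    have h1 : j (ι (ρ (σ' x))) = j (ι (ρ (σ x))) := by
      rw [hσ'', hτ']
      have h2 := hτ x'
      rw [hi, hi, hs', hs] at h2
      exact h2.symm
    exact ρ.injective (ι.injective (j.injective h1))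
  · have h1 : (ρ * σ' * ρ⁻¹) x = ρ (σ' (ρ⁻¹ x)) := rfl
    have h2 : ρ (ρ⁻¹ x) = x := ρ.apply_symm_apply x
    rw [h1, hσ'', h2]

end Pool.Agent.Lib.MP_2f3286_ag.Full
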