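import Mathlib

open Polynomial IntermediateField
open scoped IntermediateField.algebraAdjoinAdjoin

namespace Pool.Agent.Lib.MP_2f3286_ag.Full

namespace Pole

/-! ## Dedekind domains and valuation rings -/

section Ded

variable {O A : Type*} [CommRing O] [IsDedekindDomain O] [Field A] [Algebra O A]
  [IsFractionRing O A]

theorem ded_div (𝔭 : Ideal O) [𝔭.IsPrime] (h0 : 𝔭 ≠ ⊥) (a b : O) :
    ∃ c s : O, s ∉ 𝔭 ∧ (s * a = b * c ∨ s * b = a * c) := by
  have := IsLocalization.AtPrime.isDiscreteValuationRing_of_dedekind_domain O h0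
    (Localization.AtPrime 𝔭)
  obtain ⟨c, hc⟩ := ValuationRing.cond (algebraMap O (Localization.AtPrime 𝔭) a)
    (algebraMap O (Localization.AtPrime 𝔭) b)
  obtain ⟨c', s, rfl⟩ := IsLocalization.exists_mk'_eq 𝔭.primeCompl c
  have key : ∀ a b : O, algebraMap O (Localization.AtPrime 𝔭) a *
      IsLocalization.mk' (Localization.AtPrime 𝔭) c' s = algebraMap O _ b → (s : O) * b = a * c' := by
    intro a b h
    rw [← IsLocalization.mk'_one (M := 𝔭.primeCompl) (Localization.AtPrime 𝔭) b,
      ← IsLocalization.mk'_one (M := 𝔭.primeCompl) (Localization.AtPrime 𝔭) a,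
      ← IsLocalization.mk'_mul, IsLocalization.mk'_eq_iff_eq] at h
    have h2 := IsLocalization.injective (Localization.AtPrime 𝔭)
      (Ideal.primeCompl_le_nonZeroDivisors 𝔭) h
    simpa using h2.symm
  refine ⟨c', s, s.2, ?_⟩
  rcases hc with h | h
  · exact Or.inr (key _ _ h)
  · exact Or.inl (key _ _ h)

theorem le_of_cen (P Q : ValuationSubring A) (hP : ∀ z : O, algebraMap O A z ∈ P)
    (hQ : ∀ z : O, algebraMap O A z ∈ Q) (𝔭 : Ideal O) [𝔭.IsPrime] (h0 : 𝔭 ≠ ⊥)
    (h1 : ∀ z : O, z ∈ 𝔭 ↔ P.valuation (algebraMap O A z) < 1)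
    (h2 : ∀ z : O, z ∈ 𝔭 ↔ Q.valuation (algebraMap O A z) < 1) (x : A) (hx : x ∈ P) : x ∈ Q := by
  obtain ⟨a, b, hb, rfl⟩ := IsFractionRing.div_surjective (A := O) x
  have hb0 : algebraMap O A b ≠ 0 := IsFractionRing.to_map_ne_zero_of_mem_nonZeroDivisors hb
  have unitQ : ∀ z : O, z ∉ 𝔭 → (algebraMap O A z)⁻¹ ∈ Q := by
    intro z hz
    rw [h2, not_lt] at hz
    rw [← Q.valuation_le_one_iff, map_inv₀]
    exact inv_le_one_of_one_le₀ hz
  obtain ⟨c, s, hs, h | h⟩ := ded_div 𝔭 h0 a b
  · have hs0 : algebraMap O A s ≠ 0 := by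
      intro h0
      rw [map_eq_zero_iff _ (IsFractionRing.injective O A)] at h0
      exact hs (h0 ▸ 𝔭.zero_mem)
    have : algebraMap O A a / algebraMap O A b = algebraMap O A c * (algebraMap O A s)⁻¹ := by
      rw [div_eq_iff hb0, mul_assoc, mul_comm (algebraMap O A s)⁻¹, ← mul_assoc, eq_mul_inv_iff_mul_eq₀ hs0]
      rw [← map_mul, ← map_mul, mul_comm a s, h, mul_comm]
    rw [this]
    exact Q.mul_mem _ _ (hQ c) (unitQ s hs)
  · by_cases ha : a = 0
    · subst ha
      simp [Q.zero_mem]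
    have ha0 : algebraMap O A a ≠ 0 := by
      rwa [Ne, map_eq_zero_iff _ (IsFractionRing.injective O A)]
    have hs0 : algebraMap O A s ≠ 0 := by
      intro h0
      rw [map_eq_zero_iff _ (IsFractionRing.injective O A)] at h0
      exact hs (h0 ▸ 𝔭.zero_mem)
    have hc0 : algebraMap O A c ≠ 0 := by
      intro hc
      apply hb0
      have := congrArg (algebraMap O A) h
      rw [map_mul, map_mul, hc, mul_zero, mul_eq_zero] at this
      exact this.resolve_left hs0
    have e : algebraMap O A a / algebraMap O A b = algebraMap O A s * (algebraMap O A c)⁻¹ := by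
      rw [div_eq_iff hb0, mul_assoc, mul_comm (algebraMap O A c)⁻¹, ← mul_assoc,
        eq_mul_inv_iff_mul_eq₀ hc0]
      rw [← map_mul, ← map_mul, h]
    by_cases hc : c ∈ 𝔭
    · exfalso
      have h3 : P.valuation (algebraMap O A s) = 1 := by
        refine le_antisymm ((P.valuation_le_one_iff _).2 (hP s)) ?_
        rw [h1, not_lt] at hs
        exact hs
      rw [h1] at hc
      rw [e, ← P.valuation_le_one_iff, map_mul, h3, one_mul, map_inv₀] at hx
      have : (1 : P.ValueGroup) < (P.valuation (algebraMap O A c))⁻¹ := by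
        rw [one_lt_inv₀ (zero_lt_iff.2 ((Valuation.ne_zero_iff _).2 hc0))]
        exact hc
      exact absurd hx (not_le.2 this)
    · rw [e]
      exact Q.mul_mem _ _ (hQ s) (unitQ c hc)

theorem eq_of_cen (P Q : ValuationSubring A) (hP : ∀ z : O, algebraMap O A z ∈ P)
    (hQ : ∀ z : O, algebraMap O A z ∈ Q) (𝔭 : Ideal O) [𝔭.IsPrime] (h0 : 𝔭 ≠ ⊥)
    (h1 : ∀ z : O, z ∈ 𝔭 ↔ P.valuation (algebraMap O A z) < 1)
    (h2 : ∀ z : O, z ∈ 𝔭 ↔ Q.valuation (algebraMap O A z) < 1) : P = Q := by
  ext x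
  exact ⟨le_of_cen P Q hP hQ 𝔭 h0 h1 h2 x, le_of_cen Q P hQ hP 𝔭 h0 h2 h1 x⟩

omit [IsDedekindDomain O] [IsFractionRing O A] in
/-- the centre as an ideal -/
def cenI (P : ValuationSubring A) (hP : ∀ z : O, algebraMap O A z ∈ P) : Ideal O where
  carrier := {z | P.valuation (algebraMap O A z) < 1}
  add_mem' {a b} ha hb := by
    simp only [Set.mem_ofPred_eq, map_add] at *
    exact lt_of_le_of_lt (Valuation.map_add _ _ _) (max_lt ha hb)
  zero_mem' := by simp
  smul_mem' c x hx := by
    simp only [Set.mem_ofPred_eq, smul_eq_mul, map_mul] at *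
    exact lt_of_le_of_lt (mul_le_of_le_one_left (zero_le) ((P.valuation_le_one_iff _).2 (hP c))) hx

omit [IsDedekindDomain O] [IsFractionRing O A] in
theorem mem_cenI (P : ValuationSubring A) (hP : ∀ z : O, algebraMap O A z ∈ P) (z : O) :
    z ∈ cenI P hP ↔ P.valuation (algebraMap O A z) < 1 := Iff.rfl

omit [IsDedekindDomain O] [IsFractionRing O A] in
instance cenI_prime (P : ValuationSubring A) (hP : ∀ z : O, algebraMap O A z ∈ P) :
    (cenI P hP).IsPrime where
  ne_top' h := by
    have : (1 : O) ∈ cenI P hP := by rw [h]; trivial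
    rw [mem_cenI] at this
    simp at this
  mem_or_mem' {a b} h := by
    rw [mem_cenI, map_mul, map_mul] at h
    by_contra hc
    push Not at hc
    rw [mem_cenI, mem_cenI, not_lt, not_lt] at hc
    exact absurd h (not_lt.2 (one_le_mul hc.1 hc.2))

/-- an ideal `I` with `u O = 𝔭 I`; then every element of `I ^ m` is divisible by `u ^ m` outside `𝔭` -/
theorem exists_compl (𝔭 : Ideal O) [h𝔭 : 𝔭.IsPrime] (h0 : 𝔭 ≠ ⊥) (u : O) (hu0 : u ≠ 0)
    (hu : u ∈ 𝔭) :
    ∃ I : Ideal O, I ≠ ⊥ ∧ (∀ m : ℕ, 𝔭 ^ m * I ^ m = Ideal.span {u ^ m}) ∧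
      (∀ m : ℕ, Ideal.span {u ^ m} ≤ I ^ m) ∧
      ∀ (m j : ℕ), 𝔭 ^ (j + 1) * I ^ m < 𝔭 ^ j * I ^ m := by
  have hd : 𝔭 ∣ Ideal.span {u} := by
    rw [Ideal.dvd_iff_le, Ideal.span_singleton_le_iff_mem]
    exact hu
  obtain ⟨I, hI⟩ := hd
  have hI0 : I ≠ ⊥ := by
    rintro rfl
    rw [Ideal.mul_bot, Ideal.span_singleton_eq_bot] at hI
    exact hu0 hI
  have h1 : ∀ m : ℕ, 𝔭 ^ m * I ^ m = Ideal.span {u ^ m} := by
    intro m
    rw [← mul_pow, ← hI, Ideal.span_singleton_pow]
  refine ⟨I, hI0, h1, fun m => ?_, fun m j => ?_⟩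
  · rw [← h1 m]
    exact Ideal.mul_le_right
  · refine lt_of_le_of_ne ?_ ?_
    · rw [pow_succ', mul_assoc]
      exact Ideal.mul_le_right
    · intro h
      rw [pow_succ', mul_assoc] at h
      have h2 : 𝔭 ^ j * I ^ m ≠ 0 := by
        refine mul_ne_zero (pow_ne_zero _ ?_) (pow_ne_zero _ ?_)
        · exact h0
        · exact hI0
      have h3 : 𝔭 * (𝔭 ^ j * I ^ m) = 1 * (𝔭 ^ j * I ^ m) := by rw [h, one_mul]
      have h4 := mul_right_cancel₀ h2 h3
      exact h𝔭.ne_top (by rw [h4, Ideal.one_eq_top])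

end Ded

/-! ## counting dimensions -/

section Count

variable {F O : Type*} [Field F] [CommRing O] [Algebra F O]

theorem quot_bound (u : O) {ι : Type*} [Fintype ι] (b : ι → O)
    (hb : ∀ z : O, ∃ p : ι → F[X], z = ∑ i, aeval u (p i) * b i) (m : ℕ) :
    Module.Finite F (O ⧸ Ideal.span {u ^ m}) ∧
      Module.finrank F (O ⧸ Ideal.span {u ^ m}) ≤ Fintype.card ι * m := by
  let T : (ι × Fin m → F) →ₗ[F] (O ⧸ Ideal.span {u ^ m}) :=
    Fintype.linearCombination F (fun ij : ι × Fin m => Ideal.Quotient.mk (Ideal.span {u ^ m})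
      (u ^ (ij.2 : ℕ) * b ij.1))
  have hT : Function.Surjective T := by
    intro x
    obtain ⟨z, rfl⟩ := Ideal.Quotient.mk_surjective x
    obtain ⟨p, rfl⟩ := hb z
    refine ⟨fun ij => (p ij.1).coeff ij.2, ?_⟩
    simp only [T, Fintype.linearCombination_apply, Fintype.sum_prod_type]
    rw [map_sum]
    refine Finset.sum_congr rfl fun i _ => ?_
    have h1 : ∀ j : Fin m, (p i).coeff j • Ideal.Quotient.mk (Ideal.span {u ^ m})
        (u ^ (j : ℕ) * b i) = Ideal.Quotient.mk (Ideal.span {u ^ m})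
          ((algebraMap F O ((p i).coeff j) * u ^ (j : ℕ)) * b i) := by
      intro j
      rw [← Ideal.Quotient.mkₐ_eq_mk F, ← map_smul, Algebra.smul_def, mul_assoc]
    simp only [h1]
    rw [← map_sum, Ideal.Quotient.eq, ← Finset.sum_mul, ← sub_mul]
    refine Ideal.mul_mem_right _ _ ?_
    rw [Ideal.mem_span_singleton]
    have h2 : aeval u (p i) = ∑ j : Fin m, algebraMap F O ((p i).coeff j) * u ^ (j : ℕ) +
        u ^ m * ∑ j ∈ Finset.range ((p i).natDegree + 1),
          algebraMap F O ((p i).coeff (m + j)) * u ^ j := by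
      rw [Fin.sum_univ_eq_sum_range (fun j => algebraMap F O ((p i).coeff j) * u ^ j) m,
        aeval_eq_sum_range' (n := m + ((p i).natDegree + 1)) (by omega), Finset.sum_range_add,
        Finset.mul_sum]
      congr 1
      · exact Finset.sum_congr rfl fun j _ => by rw [Algebra.smul_def]
      · exact Finset.sum_congr rfl fun j _ => by rw [Algebra.smul_def, pow_add]; ring
    rw [h2]
    exact ⟨-(∑ j ∈ Finset.range ((p i).natDegree + 1),
          algebraMap F O ((p i).coeff (m + j)) * u ^ j), by ring⟩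
  refine ⟨Module.Finite.of_surjective T hT, ?_⟩
  have := LinearMap.finrank_le_finrank_of_surjective hT
  simpa using this

theorem quot_I (𝔭 I : Ideal O) (u : O) (m : ℕ) (h1 : 𝔭 ^ m * I ^ m = Ideal.span {u ^ m})
    (hle : Ideal.span {u ^ m} ≤ I ^ m) (h2 : ∀ j, 𝔭 ^ (j + 1) * I ^ m < 𝔭 ^ j * I ^ m)
    [Module.Finite F (O ⧸ Ideal.span {u ^ m})] :
    Module.Finite F (O ⧸ I ^ m) ∧ Module.finrank F (O ⧸ I ^ m) + m ≤
      Module.finrank F (O ⧸ Ideal.span {u ^ m}) := by
  let π : (O ⧸ Ideal.span {u ^ m}) →ₗ[F] (O ⧸ I ^ m) := (Ideal.Quotient.factorₐ F hle).toLinearMap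
  have hπ : ∀ z : O, π (Ideal.Quotient.mk _ z) = Ideal.Quotient.mk _ z := fun z => rfl
  have hs : Function.Surjective π := by
    intro x
    obtain ⟨z, rfl⟩ := Ideal.Quotient.mk_surjective x
    exact ⟨Ideal.Quotient.mk _ z, rfl⟩
  refine ⟨Module.Finite.of_surjective π hs, ?_⟩
  have h3 : ∀ j : ℕ, ∃ z, z ∈ 𝔭 ^ j * I ^ m ∧ z ∉ 𝔭 ^ (j + 1) * I ^ m := fun j =>
    SetLike.exists_of_lt (h2 j) |>.imp fun z hz => hz
  choose z hz1 hz2 using h3
  have mono : ∀ i j : ℕ, j ≤ i → 𝔭 ^ i * I ^ m ≤ 𝔭 ^ j * I ^ m := fun i j h =>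
    Ideal.mul_mono_left (Ideal.pow_le_pow_right h)
  have hker : ∀ j : Fin m, Ideal.Quotient.mk (Ideal.span {u ^ m}) (z j) ∈ LinearMap.ker π := by
    intro j
    rw [LinearMap.mem_ker, hπ, Ideal.Quotient.eq_zero_iff_mem]
    exact Ideal.mul_le_right (hz1 j)
  let f : Fin m → LinearMap.ker π := fun j => ⟨Ideal.Quotient.mk (Ideal.span {u ^ m}) (z j), hker j⟩
  have hli : LinearIndependent F f := by
    refine LinearIndependent.of_comp (LinearMap.ker π).subtype ?_
    rw [Fintype.linearIndependent_iff]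
    intro c hc
    have hc' : ∑ j : Fin m, algebraMap F O (c j) * z j ∈ Ideal.span {u ^ m} := by
      rw [← Ideal.Quotient.eq_zero_iff_mem, map_sum, ← hc]
      refine Finset.sum_congr rfl fun j _ => ?_
      simp only [f, Function.comp_apply, Submodule.subtype_apply]
      rw [← Ideal.Quotient.mkₐ_eq_mk F, ← map_smul, Algebra.smul_def]
    have key : ∀ n : ℕ, ∀ j : Fin m, (j : ℕ) = n → c j = 0 := by
      intro n
      induction n using Nat.strong_induction_on with
      | _ n ih =>
        intro j hj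
        by_contra hcj
        have h4 : ∑ i : Fin m, algebraMap F O (c i) * z i ∈ 𝔭 ^ ((j : ℕ) + 1) * I ^ m := by
          rw [← h1] at hc'
          exact mono m (j + 1) j.2 hc'
        rw [← Finset.add_sum_erase _ _ (Finset.mem_univ j)] at h4
        have h5 : ∑ i ∈ Finset.univ.erase j, algebraMap F O (c i) * z i ∈
            𝔭 ^ ((j : ℕ) + 1) * I ^ m := by
          refine Ideal.sum_mem _ fun i hi => ?_
          have hij : i ≠ j := Finset.ne_of_mem_erase hi
          rcases lt_trichotomy (i : ℕ) (j : ℕ) with h | h | h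
          · rw [ih i (hj ▸ h) i rfl, map_zero, zero_mul]
            exact Ideal.zero_mem _
          · exact absurd (Fin.ext h) hij
          · exact Ideal.mul_mem_left _ _ (mono i (j + 1) h (hz1 i))
        have h6 : algebraMap F O (c j) * z j ∈ 𝔭 ^ ((j : ℕ) + 1) * I ^ m := by
          have := Ideal.sub_mem _ h4 h5
          simpa using this
        refine hz2 j ?_
        have h7 := Ideal.mul_mem_left _ (algebraMap F O (c j)⁻¹) h6
        rwa [← mul_assoc, ← map_mul, inv_mul_cancel₀ hcj, map_one, one_mul] at h7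
    exact fun j => key j j rfl
  have h8 := hli.fintype_card_le_finrank
  rw [Fintype.card_fin] at h8
  have h9 := LinearMap.finrank_range_add_finrank_ker π
  rw [LinearMap.range_eq_top.2 hs, finrank_top] at h9
  omega

end Count

/-! ## the ring of integers over `F[u]` -/

section Facts

variable {F A : Type*} [Field F] [Field A] [Algebra F A]

theorem mem_adj (u x : A) : x ∈ Algebra.adjoin F {u} ↔ ∃ p : F[X], aeval u p = x := by
  rw [Algebra.adjoin_singleton_eq_range_aeval, AlgHom.mem_range]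

theorem pir (u : A) : IsPrincipalIdealRing (Algebra.adjoin F {u}) := by
  refine IsPrincipalIdealRing.of_surjective
    (aeval (⟨u, Algebra.self_mem_adjoin_singleton F u⟩ : Algebra.adjoin F {u}) :
      F[X] →ₐ[F] Algebra.adjoin F {u}).toRingHom ?_
  rintro ⟨x, hx⟩
  obtain ⟨p, rfl⟩ := (mem_adj u x).1 hx
  refine ⟨p, Subtype.ext ?_⟩
  exact (aeval_algHom_apply (Algebra.adjoin F {u}).val
    ⟨u, Algebra.self_mem_adjoin_singleton F u⟩ p).symm

theorem facts (u : A) [FiniteDimensional F⟮u⟯ A] [Algebra.IsSeparable F⟮u⟯ A] :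
    IsDedekindDomain (integralClosure (Algebra.adjoin F {u}) A) ∧
    IsFractionRing (integralClosure (Algebra.adjoin F {u}) A) A ∧
    Module.Finite (Algebra.adjoin F {u}) (integralClosure (Algebra.adjoin F {u}) A) ∧
    Module.Free (Algebra.adjoin F {u}) (integralClosure (Algebra.adjoin F {u}) A) ∧
    Module.finrank (Algebra.adjoin F {u}) (integralClosure (Algebra.adjoin F {u}) A) =
      Module.finrank F⟮u⟯ A := by
  have := pir (F := F) u
  refine ⟨integralClosure.isDedekindDomain (Algebra.adjoin F {u}) F⟮u⟯ A,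
    IsIntegralClosure.isFractionRing_of_finite_extension (Algebra.adjoin F {u}) F⟮u⟯ A _,
    IsIntegralClosure.finite (Algebra.adjoin F {u}) F⟮u⟯ A _,
    IsIntegralClosure.module_free (Algebra.adjoin F {u}) F⟮u⟯ A _,
    IsIntegralClosure.rank (Algebra.adjoin F {u}) F⟮u⟯ A _⟩

theorem val_F [Finite F] (Q : ValuationSubring A) (a : F) (ha : a ≠ 0) :
    Q.valuation (algebraMap F A a) = 1 := by
  cases nonempty_fintype F
  have h1 := FiniteField.pow_card_sub_one_eq_one a ha
  have h2 : Q.valuation (algebraMap F A a) ^ (Fintype.card F - 1) = 1 := by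
    rw [← map_pow, ← map_pow, h1, map_one, map_one]
  have h3 : Fintype.card F - 1 ≠ 0 := by
    have := Fintype.one_lt_card (α := F)
    omega
  rcases lt_trichotomy (Q.valuation (algebraMap F A a)) 1 with h | h | h
  · exact absurd h2 (ne_of_lt (pow_lt_one₀ (zero_le) h h3))
  · exact h
  · exact absurd h2 (ne_of_gt (one_lt_pow₀ h h3))

theorem F_mem [Finite F] (Q : ValuationSubring A) (a : F) : algebraMap F A a ∈ Q := by
  rw [← Q.valuation_le_one_iff]
  by_cases ha : a = 0
  · simp [ha]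
  · exact (val_F Q a ha).le

theorem aeval_mem [Finite F] (Q : ValuationSubring A) (u : A) (hu : u ∈ Q) (p : F[X]) :
    aeval u p ∈ Q := by
  rw [aeval_eq_sum_range]
  refine sum_mem fun i _ => ?_
  rw [Algebra.smul_def]
  exact Q.mul_mem _ _ (F_mem Q _) (pow_mem hu i)

theorem val_unit [Finite F] (Q : ValuationSubring A) (u : A) (hu : Q.valuation u < 1) (h : F[X])
    (h0 : h.coeff 0 ≠ 0) : Q.valuation (aeval u h) = 1 := by
  have e : aeval u h = algebraMap F A (h.coeff 0) + u * aeval u h.divX := by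
    conv_lhs => rw [← divX_mul_X_add h]
    simp
    ring
  have h1 : Q.valuation (u * aeval u h.divX) < 1 := by
    rw [map_mul, mul_comm]
    exact lt_of_le_of_lt (mul_le_of_le_one_left (zero_le) ((Q.valuation_le_one_iff _).2
      (aeval_mem Q u ((Q.valuation_le_one_iff _).1 hu.le) _))) hu
  rw [e, Valuation.map_add_eq_of_lt_left]
  · exact val_F Q _ h0
  · rw [val_F Q _ h0]
    exact h1

theorem int_mem [Finite F] (Q : ValuationSubring A) (u : A) (hu : u ∈ Q) (z : A)
    (hz : IsIntegral (Algebra.adjoin F {u}) z) : z ∈ Q := by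
  have hS : ∀ x : Algebra.adjoin F {u}, (x : A) ∈ Q := by
    rintro ⟨x, hx⟩
    obtain ⟨p, rfl⟩ := (mem_adj u x).1 hx
    exact aeval_mem Q u hu p
  let f : Algebra.adjoin F {u} →+* Q :=
    { toFun := fun x => ⟨x, hS x⟩
      map_one' := rfl
      map_mul' := fun _ _ => rfl
      map_zero' := rfl
      map_add' := fun _ _ => rfl }
  obtain ⟨p, hp, hpz⟩ := hz
  have : IsIntegral Q z := by
    refine ⟨p.map f, hp.map f, ?_⟩
    rw [eval₂_map]
    exact hpz
  obtain ⟨y, hy⟩ := IsIntegrallyClosedIn.isIntegral_iff.1 this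
  rw [← hy]
  exact y.2

theorem const_le {O : Type*} [CommRing O] [Algebra F O] [Algebra O A] [IsScalarTower F O A]
    (hinj : Function.Injective (algebraMap O A))
    (hmem : ∀ c : integralClosure F A, ∃ o : O, algebraMap O A o = c) (u' : O) (hu' : ¬ IsUnit u')
    [Module.Finite F (O ⧸ Ideal.span {u'})] :
    Module.Finite F (integralClosure F A) ∧ Module.finrank F (integralClosure F A) ≤
      Module.finrank F (O ⧸ Ideal.span {u'}) := by
  choose o ho using hmem
  let g : (integralClosure F A) →ₗ[F] (O ⧸ Ideal.span {u'}) :=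
    { toFun := fun c => Ideal.Quotient.mk (Ideal.span {u'}) (o c)
      map_add' := fun a b => by
        rw [← map_add]
        congr 1
        apply hinj
        rw [map_add, ho, ho, ho]
        rfl
      map_smul' := fun a b => by
        rw [RingHom.id_apply, ← Ideal.Quotient.mkₐ_eq_mk F, ← map_smul]
        congr 1
        apply hinj
        rw [ho, Algebra.smul_def a (o b), map_mul, ho, ← IsScalarTower.algebraMap_apply,
          ← Algebra.smul_def]
        rfl }
  have hg : Function.Injective g := by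
    rw [← LinearMap.ker_eq_bot, LinearMap.ker_eq_bot']
    intro c hc
    by_contra hc0
    have h1 : o c ∈ Ideal.span {u'} := Ideal.Quotient.eq_zero_iff_mem.1 hc
    rw [Ideal.mem_span_singleton] at h1
    obtain ⟨z, hz⟩ := h1
    have hcA : (c : A) ≠ 0 := fun h => hc0 (Subtype.ext h)
    have hinv : IsIntegral F ((c : A)⁻¹) := (IsIntegral.isAlgebraic c.2).inv.isIntegral
    apply hu'
    refine IsUnit.of_mul_eq_one (z * o ⟨_, hinv⟩) ?_
    rw [← mul_assoc, ← hz]
    apply hinj
    rw [map_mul, ho, ho, map_one]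
    exact mul_inv_cancel₀ hcA
  exact ⟨Module.Finite.of_injective g hg, LinearMap.finrank_le_finrank_of_injective hg⟩

end Facts

end Pole

/-- the counting step, for an abstract Dedekind domain `O` -/
theorem Pole.core {F A O : Type*} [Field F] [Finite F] [Field A] [Algebra F A] [CommRing O]
    [IsDedekindDomain O] [Algebra F O] [Algebra O A] [IsScalarTower F O A] [IsFractionRing O A]
    (t u : A) (hut : u * t = 1) (r : ℕ) {κ : Type*} [Fintype κ]
    (hκ : Fintype.card κ = r) (u' : O) (hu' : algebraMap O A u' = u) (b : κ → O)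
    (hb : ∀ z : O, ∃ p : κ → F[X], z = ∑ i, aeval u' (p i) * b i)
    (hC : ∀ c : integralClosure F A, ∃ o : O, algebraMap O A o = c)
    (P : ValuationSubring A) (hPu : P.valuation u < 1)
    (hO : ∀ Q : ValuationSubring A, Q.valuation u < 1 → ∀ z : O, algebraMap O A z ∈ Q)
    {s : Type*} [Fintype s] (hs : Fintype.card s = r) (w : s → A)
    (hw : ∀ (i : s) (Q : ValuationSubring A), t ∈ Q → w i ∈ Q)
    (hwli : ∀ d : ℕ, LinearIndependent F (fun ij : s × Fin (d + 1) => t ^ (ij.2 : ℕ) * w ij.1))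
    (c : ℕ) (h : F[X]) (h0 : h.coeff 0 ≠ 0)
    (hmul : ∀ i, ∃ o : O, algebraMap O A o = u ^ c * aeval u h * w i) :
    ∃ y : A, y ∉ P ∧ (∀ Q : ValuationSubring A, Q ≠ ⊤ → Q ≠ P → y ∈ Q) := by
  classical
  have hinj := IsFractionRing.injective O A
  have hu0 : u ≠ 0 := left_ne_zero_of_mul_eq_one hut
  have hu'0 : u' ≠ 0 := by
    rintro rfl
    rw [map_zero] at hu'
    exact hu0 hu'.symm
  let 𝔭 : Ideal O := Pole.cenI P (hO P hPu)
  have hp𝔭 : 𝔭.IsPrime := Pole.cenI_prime P (hO P hPu)
  have hu𝔭 : u' ∈ 𝔭 := by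
    rw [Pole.mem_cenI, hu']
    exact hPu
  have h𝔭0 : 𝔭 ≠ ⊥ := by
    intro hbot
    rw [hbot, Ideal.mem_bot] at hu𝔭
    exact hu'0 hu𝔭
  obtain ⟨I, hI0, hI1, hI2, hI3⟩ := Pole.exists_compl 𝔭 h𝔭0 u' hu'0 hu𝔭
  have hH0 : aeval u h ≠ 0 := by
    intro h3
    have := Pole.val_unit P u hPu h h0
    rw [h3, map_zero] at this
    exact zero_ne_one this
  -- the constants
  obtain ⟨f1, f2⟩ := Pole.quot_bound (F := F) u' b hb 1
  rw [hκ, mul_one, pow_one] at f2
  rw [pow_one] at f1
  have hnu : ¬ IsUnit u' := fun hun => hp𝔭.ne_top (Ideal.eq_top_of_isUnit_mem _ hu𝔭 hun)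
  obtain ⟨f3, f4⟩ := Pole.const_le hinj hC u' hnu
  have f5 : Module.finrank F (integralClosure F A) ≤ r := f4.trans f2
  -- the maps
  obtain ⟨d, hd⟩ : ∃ d, d = r * c + 1 := ⟨_, rfl⟩
  obtain ⟨m, hm⟩ : ∃ m, m = c + d := ⟨_, rfl⟩
  let xm : (s × Fin (d + 1) → F) →ₗ[F] A :=
    Fintype.linearCombination F (fun ij : s × Fin (d + 1) => t ^ (ij.2 : ℕ) * w ij.1)
  have hxm : ∀ a, xm a = ∑ ij : s × Fin (d + 1), a ij • (t ^ (ij.2 : ℕ) * w ij.1) := fun a =>
    Fintype.linearCombination_apply _ _ _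
  have hxinj : Function.Injective xm := by
    have := hwli d
    rw [Fintype.linearIndependent_iff] at this
    rw [← LinearMap.ker_eq_bot, LinearMap.ker_eq_bot']
    intro a ha
    rw [hxm] at ha
    exact funext (this a ha)
  choose o ho using hmul
  let T : (s × Fin (d + 1) → F) →ₗ[F] O :=
    Fintype.linearCombination F (fun ij : s × Fin (d + 1) => u' ^ (d - (ij.2 : ℕ)) * o ij.1)
  have hT : ∀ a, algebraMap O A (T a) = u ^ m * aeval u h * xm a := by
    intro a
    rw [hxm, Finset.mul_sum]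
    simp only [T, Fintype.linearCombination_apply]
    rw [map_sum]
    refine Finset.sum_congr rfl fun ij _ => ?_
    have h1 : u ^ (d - (ij.2 : ℕ)) * u ^ c = u ^ m * t ^ (ij.2 : ℕ) := by
      have h2 : (ij.2 : ℕ) ≤ d := Nat.lt_succ_iff.1 ij.2.2
      have h3 : m = (d - (ij.2 : ℕ)) + c + ij.2 := by omega
      rw [h3, pow_add, pow_add, mul_assoc _ (u ^ (ij.2 : ℕ)), ← mul_pow, hut, one_pow, mul_one]
    rw [Algebra.smul_def, Algebra.smul_def, map_mul, map_mul, map_pow, hu', ho,
      ← IsScalarTower.algebraMap_apply]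
    linear_combination (algebraMap F A (a ij) * aeval u h * w ij.1) * h1
  obtain ⟨g1, g2⟩ := Pole.quot_bound (F := F) u' b hb m
  rw [hκ] at g2
  obtain ⟨g3, g4⟩ := Pole.quot_I (F := F) 𝔭 I u' m (hI1 m) (hI2 m) (fun j => hI3 m j)
  let π : O →ₗ[F] (O ⧸ I ^ m) := (Ideal.Quotient.mkₐ F (I ^ m)).toLinearMap
  let N := LinearMap.ker (π.comp T)
  have hN : r < Module.finrank F N := by
    have e1 := LinearMap.finrank_range_add_finrank_ker (π.comp T)
    have e2 := Submodule.finrank_le (LinearMap.range (π.comp T))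
    rw [Module.finrank_fintype_fun_eq_card, Fintype.card_prod, Fintype.card_fin, hs] at e1
    have e3 : r * (d + 1) + m ≤ Module.finrank F N + r * m := by
      have : Module.finrank F N = Module.finrank F (LinearMap.ker (π.comp T)) := rfl
      omega
    subst hm
    subst hd
    nlinarith
  -- a nonconstant element
  obtain ⟨a, haN, hax⟩ : ∃ a ∈ N, ¬ IsIntegral F (xm a) := by
    by_contra hcon
    push Not at hcon
    let g : N →ₗ[F] Subalgebra.toSubmodule (integralClosure F A) :=
      LinearMap.codRestrict _ (xm.comp N.subtype) (fun a => hcon a a.2)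
    have hg : Function.Injective g := by
      intro a a' haa
      apply Subtype.ext
      apply hxinj
      exact congrArg Subtype.val haa
    have : Module.Finite F (Subalgebra.toSubmodule (integralClosure F A)) := f3
    have h5 := LinearMap.finrank_le_finrank_of_injective hg
    have h6 : Module.finrank F (Subalgebra.toSubmodule (integralClosure F A)) =
      Module.finrank F (integralClosure F A) := rfl
    omega
  have hTI : T a ∈ I ^ m := by
    have : π (T a) = 0 := haN
    exact Ideal.Quotient.eq_zero_iff_mem.1 this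
  have key : ∀ Q : ValuationSubring A, Q ≠ ⊤ → Q ≠ P → xm a ∈ Q := by
    intro Q hQ hQP
    by_cases htQ : t ∈ Q
    · rw [hxm]
      refine sum_mem fun ij _ => ?_
      rw [Algebra.smul_def]
      exact Q.mul_mem _ _ (Pole.F_mem Q _) (Q.mul_mem _ _ (pow_mem htQ _) (hw _ Q htQ))
    · have hQu : Q.valuation u < 1 := by
        rw [eq_inv_of_mul_eq_one_left hut, map_inv₀]
        rw [← Q.valuation_le_one_iff, not_le] at htQ
        exact inv_lt_one_of_one_lt₀ htQ
      let 𝔮 : Ideal O := Pole.cenI Q (hO Q hQu)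
      have hp𝔮 : 𝔮.IsPrime := Pole.cenI_prime Q (hO Q hQu)
      obtain ⟨g, hg1, hg2⟩ : ∃ g, g ∈ 𝔭 ∧ g ∉ 𝔮 := by
        by_contra hcon
        push Not at hcon
        have hle : 𝔭 ≤ 𝔮 := hcon
        have hmax : 𝔭.IsMaximal := hp𝔭.isMaximal h𝔭0
        have heq : 𝔭 = 𝔮 := hmax.eq_of_le hp𝔮.ne_top hle
        refine hQP (Pole.eq_of_cen Q P (hO Q hQu) (hO P hPu) 𝔭 h𝔭0 (fun z => ?_) (fun z => ?_))
        · rw [heq]
          exact Pole.mem_cenI _ _ _
        · exact Pole.mem_cenI _ _ _
      have h7 : g ^ m * T a ∈ Ideal.span {u' ^ m} := by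
        rw [← hI1 m]
        exact Ideal.mul_mem_mul (Ideal.pow_mem_pow hg1 m) hTI
      rw [Ideal.mem_span_singleton] at h7
      obtain ⟨z, hz⟩ := h7
      have h8 : algebraMap O A g ^ m * (aeval u h * xm a) = algebraMap O A z := by
        have := congrArg (algebraMap O A) hz
        rw [map_mul, map_pow, hT, map_mul, map_pow, hu'] at this
        refine mul_left_cancel₀ (pow_ne_zero m hu0) ?_
        linear_combination this
      have h9 : Q.valuation (algebraMap O A g) = 1 := by
        refine le_antisymm ((Q.valuation_le_one_iff _).2 (hO Q hQu g)) ?_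
        rw [Pole.mem_cenI, not_lt] at hg2
        exact hg2
      have h10 := congrArg Q.valuation h8
      rw [map_mul, map_mul, map_pow, h9, one_pow, one_mul, Pole.val_unit Q u hQu h h0,
        one_mul] at h10
      rw [← Q.valuation_le_one_iff, h10, Q.valuation_le_one_iff]
      exact hO Q hQu z
  refine ⟨xm a, ?_, key⟩
  have hx : xm a ∉ (integralClosure F A).toSubring := hax
  obtain ⟨V, hV1, hV2⟩ := Subring.exists_le_valuationSubring_of_isIntegrallyClosedIn hx
  have hVt : V ≠ ⊤ := by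
    rintro rfl
    exact hV2 (ValuationSubring.mem_top _)
  by_contra hxP
  by_cases hVP : V = P
  · exact hV2 (hVP ▸ hxP)
  · exact hV2 (key V hVt hVP)

theorem single_pole {F A : Type*} [Field F] [Finite F] [Field A] [Algebra F A] (t : A)
    (ht : Transcendental F t) [FiniteDimensional (adjoin F {t}) A]
    [Algebra.IsSeparable (adjoin F {t}) A] (P : ValuationSubring A) (hP : t ∉ P) :
    ∃ y : A, y ∉ P ∧ (∀ Q : ValuationSubring A, Q ≠ ⊤ → Q ≠ P → y ∈ Q) := by
  classical
  have ht0 : t ≠ 0 := fun h => hP (h ▸ P.zero_mem)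
  obtain ⟨u, hu⟩ : ∃ u, u = t⁻¹ := ⟨_, rfl⟩
  have hu0 : u ≠ 0 := by rw [hu]; exact inv_ne_zero ht0
  have hut : u * t = 1 := by rw [hu]; exact inv_mul_cancel₀ ht0
  have hK : F⟮u⟯ = F⟮t⟯ := by
    apply le_antisymm
    · rw [IntermediateField.adjoin_simple_le_iff, hu]
      exact IntermediateField.inv_mem _ (mem_adjoin_simple_self F t)
    · rw [IntermediateField.adjoin_simple_le_iff]
      have : t = u⁻¹ := by rw [hu, inv_inv]
      rw [this]
      exact IntermediateField.inv_mem _ (mem_adjoin_simple_self F u)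
  have : FiniteDimensional F⟮u⟯ A := by rw [hK]; infer_instance
  have : Algebra.IsSeparable F⟮u⟯ A := by rw [hK]; infer_instance
  have hr : Module.finrank F⟮u⟯ A = Module.finrank F⟮t⟯ A := by rw [hK]
  obtain ⟨i1, i2, i3, i4, i5⟩ := Pole.facts (F := F) u
  rw [hr] at i5
  set r := Module.finrank F⟮t⟯ A with hrdef
  have hPu : P.valuation u < 1 := by
    rw [hu, map_inv₀]
    rw [← P.valuation_le_one_iff, not_le] at hP
    exact inv_lt_one_of_one_lt₀ hP
  have hO : ∀ (Q : ValuationSubring A), Q.valuation u < 1 →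
      ∀ z : integralClosure (Algebra.adjoin F {u}) A, algebraMap _ A z ∈ Q := fun Q hQ z =>
    Pole.int_mem Q u ((Q.valuation_le_one_iff _).1 hQ.le) z z.2
  let uR : Algebra.adjoin F {u} := ⟨u, Algebra.self_mem_adjoin_singleton F u⟩
  let B := Module.Free.chooseBasis (Algebra.adjoin F {u})
    (integralClosure (Algebra.adjoin F {u}) A)
  have hBcard : Fintype.card (Module.Free.ChooseBasisIndex (Algebra.adjoin F {u})
      (integralClosure (Algebra.adjoin F {u}) A)) = r := by
    rw [← i5, Module.finrank_eq_card_basis B]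
  have hb : ∀ z : integralClosure (Algebra.adjoin F {u}) A,
      ∃ p : Module.Free.ChooseBasisIndex (Algebra.adjoin F {u})
        (integralClosure (Algebra.adjoin F {u}) A) → F[X],
        z = ∑ i, aeval (algebraMap (Algebra.adjoin F {u})
          (integralClosure (Algebra.adjoin F {u}) A) uR) (p i) * B i := by
    intro z
    have h1 : ∀ i, ∃ p : F[X], aeval u p = (B.repr z i : A) := fun i =>
      (Pole.mem_adj u _).1 (B.repr z i).2
    choose p hp using h1
    refine ⟨p, ?_⟩
    conv_lhs => rw [← B.sum_repr z]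
    refine Finset.sum_congr rfl fun i _ => ?_
    rw [Algebra.smul_def]
    congr 1
    apply Subtype.ext
    change (B.repr z i : A) = _
    rw [← hp]
    exact aeval_algebraMap_apply A (algebraMap (Algebra.adjoin F {u})
          (integralClosure (Algebra.adjoin F {u}) A) uR) (p i)
  obtain ⟨s, w, hw⟩ := FiniteDimensional.exists_is_basis_integral (Algebra.adjoin F {t}) F⟮t⟯ A
  obtain ⟨y, hy0, hy⟩ := exists_integral_multiples (Algebra.adjoin F {u}) F⟮u⟯
    (Finset.univ.image w)
  obtain ⟨g, hg⟩ := (Pole.mem_adj u _).1 y.2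
  have hg0 : g ≠ 0 := by
    rintro rfl
    rw [map_zero] at hg
    exact hy0 (Subtype.ext hg.symm)
  obtain ⟨h, hgh, hh⟩ := exists_eq_pow_rootMultiplicity_mul_and_not_dvd g hg0 0
  rw [map_zero, sub_zero] at hgh hh
  rw [X_dvd_iff] at hh
  refine Pole.core (O := integralClosure (Algebra.adjoin F {u}) A) t u hut r hBcard
    (algebraMap _ _ uR) rfl B hb (fun c => ⟨⟨c, IsIntegral.tower_top c.2⟩, rfl⟩) P hPu hO
    (s := s) ?_ w ?_ ?_ (rootMultiplicity 0 g) h hh ?_
  · rw [hrdef, Module.finrank_eq_card_basis w]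
  · exact fun i Q hQ => Pole.int_mem Q t hQ _ (hw i)
  · intro d
    have h1 : LinearIndependent F (fun j : Fin (d + 1) => (AdjoinSimple.gen F t) ^ (j : ℕ)) := by
      rw [Fintype.linearIndependent_iff]
      intro a ha j
      have h2 : aeval t (∑ j : Fin (d + 1), monomial (j : ℕ) (a j)) = 0 := by
        have := congrArg (algebraMap F⟮t⟯ A) ha
        rw [map_sum, map_zero] at this
        rw [map_sum, ← this]
        refine Finset.sum_congr rfl fun i _ => ?_
        rw [aeval_monomial, Algebra.smul_def, map_mul, map_pow, ← IsScalarTower.algebraMap_apply,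
          AdjoinSimple.algebraMap_gen]
      have h3 := (transcendental_iff.1 ht) _ h2
      have h4 := congrArg (fun q => coeff q (j : ℕ)) h3
      simp only [finsetSum_coeff, coeff_monomial, coeff_zero] at h4
      rw [Finset.sum_eq_single j] at h4
      · simpa using h4
      · intro i _ hij
        rw [if_neg (fun h => hij (Fin.ext h))]
      · simp
    have h5 := linearIndependent_smul h1 w.linearIndependent
    have h6 := h5.comp (Prod.swap : s × Fin (d + 1) → Fin (d + 1) × s) Prod.swap_injective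
    convert h6 using 1
    funext ij
    simp only [Function.comp_apply, Prod.fst_swap, Prod.snd_swap]
    rw [Algebra.smul_def, map_pow, AdjoinSimple.algebraMap_gen]
  · intro i
    have h7 := hy (w i) (Finset.mem_image_of_mem _ (Finset.mem_univ i))
    refine ⟨⟨_, h7⟩, ?_⟩
    change y • w i = _
    rw [Algebra.smul_def]
    congr 1
    change (y : A) = _
    rw [← hg]
    conv_lhs => rw [hgh, map_mul, map_pow, aeval_X]

end Pool.Agent.Lib.MP_2f3286_ag.Full
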