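import Mathlib
import Pool.Agent.Lib.MP_2f3286_ag.Full.Pole

/-!
# SEP: separable generation of function fields over finite fields
-/

open Polynomial IntermediateField

namespace Pool.Agent.Lib.MP_2f3286_ag.Full

section Sep

variable {F A : Type*} [Field F] [Field A] [Algebra F A]

/-- exchange: finite over `F(t)` implies finite over `F(y)`. -/
theorem fin_adjoin (t y : A) (ht : Transcendental F t) (hy : Transcendental F y)
    [FiniteDimensional F⟮t⟯ A] : FiniteDimensional F⟮y⟯ A := by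
  have halg : IsAlgebraic F⟮y⟯ t := isAlgebraic_adjoin_iff.mpr (.adjoin_singleton ht hy
    (isAlgebraic_adjoin_iff.mp (Algebra.IsAlgebraic.isAlgebraic y)))
  let Fyx := restrictScalars F F⟮y⟯⟮t⟯
  let Fxy := restrictScalars F F⟮t⟯⟮y⟯
  let : Algebra F⟮y⟯ Fyx := F⟮y⟯⟮t⟯.algebra
  let : Module F⟮y⟯ Fyx := Algebra.toModule
  let : SMul F⟮y⟯ Fyx := Algebra.toSMul
  let : Algebra F⟮t⟯ Fxy := F⟮t⟯⟮y⟯.algebra
  let : Module F⟮t⟯ Fxy := Algebra.toModule
  let : SMul F⟮t⟯ Fxy := Algebra.toSMul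
  have : FiniteDimensional F⟮y⟯ Fyx :=
    adjoin.finiteDimensional (isAlgebraic_iff_isIntegral.mp halg)
  have : FiniteDimensional Fyx A := by
    unfold Fyx
    rw [adjoin_simple_comm]
    have : IsScalarTower F⟮t⟯ Fxy A := isScalarTower_mid' F⟮t⟯⟮y⟯
    exact .right F⟮t⟯ Fxy A
  have : IsScalarTower F⟮y⟯ Fyx A := isScalarTower_mid' F⟮y⟯⟮t⟯
  exact .trans F⟮y⟯ Fyx A

variable (F A) in
/-- the subfield of `p`-th powers -/
noncomputable def powField [Finite F] (p : ℕ) [Fact p.Prime] [CharP F p] [CharP A p] :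
    IntermediateField F A :=
  (frobenius A p).fieldRange.toIntermediateField (fun x => by
    have : Function.Surjective (frobenius F p) := (PerfectRing.bijective_frobenius).2
    obtain ⟨y, hy⟩ := this x
    refine ⟨algebraMap F A y, ?_⟩
    rw [← hy, RingHom.map_frobenius])

theorem mem_powField [Finite F] (p : ℕ) [Fact p.Prime] [CharP F p] [CharP A p] {x : A} :
    x ∈ powField F A p ↔ ∃ z : A, z ^ p = x := Iff.rfl

/-- a separating element -/
theorem exists_separating [Finite F] (t : A) (ht : Transcendental F t) [FiniteDimensional F⟮t⟯ A] :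
    ∃ x₀ : A, Algebra.IsSeparable F⟮x₀⟯ A := by
  have h1 : Algebra.EssFiniteType F F⟮t⟯ :=
    essFiniteType_iff.2 (fg_adjoin_of_finite (Set.finite_singleton t))
  have h2 : Algebra.EssFiniteType F A := Algebra.EssFiniteType.comp F F⟮t⟯ A
  obtain ⟨s, hs, hsep⟩ := exists_isTranscendenceBasis_and_isSeparable_of_perfectField F A
  have hT : IsTranscendenceBasis F ((↑) : ({t} : Set A) → A) := by
    rw [isTranscendenceBasis_iff_algebraicIndependent_isAlgebraic]
    refine ⟨?_, ?_⟩
    · rw [algebraicIndependent_unique_type_iff]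
      exact ht
    · rw [Subtype.range_coe]
      rw [← isAlgebraic_adjoin_iff_top]
      infer_instance
  have hc : s.card = 1 := by
    have e1 := hT.cardinalMk_eq_trdeg
    have e2 := hs.cardinalMk_eq_trdeg
    rw [← e1] at e2
    simpa using e2
  obtain ⟨x, rfl⟩ := Finset.card_eq_one.1 hc
  refine ⟨x, ?_⟩
  have e : ((({x} : Finset A) : Set A)) = {x} := Finset.coe_singleton x
  exact e ▸ hsep

theorem algebraMap_mem_of_pow [Finite F] (p : ℕ) [Fact p.Prime] [CharP F p] [CharP A p]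
    (T : Subfield A) (hT : ∀ a : A, a ^ p ∈ T) (x : F) : algebraMap F A x ∈ T := by
  obtain ⟨z, hz⟩ := (mem_powField p).1 ((powField F A p).algebraMap_mem x)
  rw [← hz]
  exact hT z

/-- a subfield over `F` from a subfield containing the `p`-th powers -/
theorem eq_top_of_separating [Finite F] (p : ℕ) [Fact p.Prime] [CharP F p] [CharP A p] (x₀ : A)
    [Algebra.IsSeparable F⟮x₀⟯ A] (T : Subfield A) (hx : x₀ ∈ T) (hT : ∀ a : A, a ^ p ∈ T) :
    T = ⊤ := by
  have h1 : ∀ x ∈ F⟮x₀⟯, x ∈ T := by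
    intro x hx'
    have h2 : F⟮x₀⟯ ≤ T.toIntermediateField (algebraMap_mem_of_pow p T hT) :=
      adjoin_simple_le_iff.2 hx
    exact h2 hx'
  have : ExpChar F⟮x₀⟯ p := expChar_of_injective_algebraMap (algebraMap F F⟮x₀⟯).injective p
  have h3 := adjoin_eq_adjoin_pow_expChar_of_isSeparable' F⟮x₀⟯ A Set.univ p
  rw [adjoin_univ] at h3
  have h4 : adjoin F⟮x₀⟯ ((· ^ p) '' (Set.univ : Set A)) ≤
      T.toIntermediateField (fun x : F⟮x₀⟯ => h1 x x.2) := by
    rw [adjoin_le_iff]
    rintro _ ⟨a, -, rfl⟩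
    exact hT a
  rw [← h3] at h4
  rw [eq_top_iff]
  intro x _
  exact h4 (mem_top (x := x))

theorem eq_top_of_not_pow [Finite F] (t : A) (ht : Transcendental F t) [FiniteDimensional F⟮t⟯ A]
    (p : ℕ) [Fact p.Prime] [CharP F p] [CharP A p] (y : A) (hy : ∀ z : A, z ^ p ≠ y)
    (T : Subfield A) (hyT : y ∈ T) (hT : ∀ a : A, a ^ p ∈ T) : T = ⊤ := by
  obtain ⟨x₀, hx₀⟩ := exists_separating t ht
  have hp : p.Prime := Fact.out
  let B := powField F A p
  have hB : ∀ a : A, a ^ p ∈ B := fun a => (mem_powField p).2 ⟨a, rfl⟩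
  have hyB : y ∉ B := fun h => by
    obtain ⟨z, hz⟩ := (mem_powField p).1 h
    exact hy z hz
  have : CharP B p := charP_of_injective_algebraMap (algebraMap F B).injective p
  have hpi : IsPurelyInseparable B A := by
    rw [isPurelyInseparable_iff_pow_mem B p]
    exact fun x => ⟨1, ⟨⟨x ^ p, hB x⟩, by simp⟩⟩
  -- `A = B(x₀)`
  have h1 : adjoin B {x₀} = ⊤ := by
    have h2 := eq_top_of_separating (F := F) p x₀ (adjoin B {x₀}).toSubfield
      (mem_adjoin_simple_self B x₀) (fun a => (adjoin B {x₀}).algebraMap_mem ⟨a ^ p, hB a⟩)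
    rw [eq_top_iff]
    intro x _
    have h3 : x ∈ (adjoin B {x₀}).toSubfield := by rw [h2]; exact Subfield.mem_top x
    exact h3
  have hint : IsIntegral B x₀ := ⟨X ^ p - C ⟨x₀ ^ p, hB x₀⟩,
    monic_X_pow_sub_C _ hp.ne_zero, by simp⟩
  have hfd : FiniteDimensional B A := by
    have := adjoin.finiteDimensional hint
    rw [h1] at this
    exact topEquiv.toLinearEquiv.finiteDimensional
  have hn : Module.finrank B A ≤ p := by
    have e1 : Module.finrank B A = (minpoly B x₀).natDegree := by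
      rw [← adjoin.finrank hint, h1, finrank_top']
    rw [e1]
    refine (natDegree_le_of_dvd (minpoly.dvd B x₀ (p := X ^ p - C ⟨x₀ ^ p, hB x₀⟩) ?_) ?_).trans ?_
    · simp
    · exact (monic_X_pow_sub_C _ hp.ne_zero).ne_zero
    · rw [natDegree_X_pow_sub_C]
  obtain ⟨k, hk⟩ := IsPurelyInseparable.finrank_eq_pow (F := B) (E := A) p
  have hmul : Module.finrank B (adjoin B {y}) * Module.finrank (adjoin B {y}) A =
      Module.finrank B A := Module.finrank_mul_finrank B (adjoin B {y}) A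
  have hne : Module.finrank B (adjoin B {y}) ≠ 1 := by
    intro h
    rw [finrank_adjoin_simple_eq_one_iff] at h
    obtain ⟨b, hb⟩ := mem_bot.1 h
    exact hyB (hb ▸ b.2)
  have hk1 : k ≤ 1 := by
    by_contra hcon
    push Not at hcon
    have : p ^ 2 ≤ p ^ k := Nat.pow_le_pow_right hp.pos hcon
    have h2 := hp.two_le
    rw [hk] at hn
    nlinarith
  have hd2 : Module.finrank (adjoin B {y}) A = 1 := by
    have hpos : 0 < Module.finrank B (adjoin B {y}) := Module.finrank_pos
    interval_cases k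
    · rw [hk, pow_zero] at hmul
      exact Nat.eq_one_of_mul_eq_one_left hmul
    · rw [hk, pow_one] at hmul
      rcases (Nat.dvd_prime hp).1 ⟨_, hmul.symm⟩ with h | h
      · exact absurd h hne
      · rw [h] at hmul
        exact Nat.eq_of_mul_eq_mul_left hp.pos (by rw [hmul, mul_one])
  have h5 : adjoin B {y} = ⊤ := by
    rw [← finrank_eq_one_iff_eq_top]
    exact hd2
  have h6 : adjoin B {y} ≤ T.toIntermediateField (fun b : B => by
      obtain ⟨z, hz⟩ := (mem_powField p).1 b.2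
      change (b : A) ∈ T
      rw [← hz]
      exact hT z) := adjoin_simple_le_iff.2 hyT
  rw [h5] at h6
  rw [eq_top_iff]
  intro x _
  exact h6 (mem_top (x := x))

theorem isSeparable_of_gen (p : ℕ) [Fact p.Prime] [CharP A p] (y : A)
    [FiniteDimensional F⟮y⟯ A] (h : ∀ T : Subfield A, y ∈ T → (∀ a : A, a ^ p ∈ T) → T = ⊤) :
    Algebra.IsSeparable F⟮y⟯ A := by
  rw [← separableClosure.eq_top_iff]
  set S := separableClosure F⟮y⟯ A with hS
  have hch : CharP F⟮y⟯ p := (algebraMap F⟮y⟯ A).charP (algebraMap F⟮y⟯ A).injective p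
  have hyS : y ∈ S := S.algebraMap_mem ⟨y, mem_adjoin_simple_self F y⟩
  have hcS : CharP S p := (algebraMap S A).charP (algebraMap S A).injective p
  have hpi : IsPurelyInseparable S A := separableClosure.isPurelyInseparable F⟮y⟯ A
  have hfd : FiniteDimensional S A := FiniteDimensional.right F⟮y⟯ S A
  have key : ∀ n : ℕ, (∀ a : A, a ^ p ^ n ∈ S) → ∀ a : A, a ∈ S := by
    intro n
    induction n with
    | zero => intro hn a; simpa using hn a
    | succ n ih =>
      intro hn
      apply ih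
      have := h (S.toSubfield.comap (iterateFrobenius A p n)) ?_ ?_
      · intro a
        have h1 : a ∈ S.toSubfield.comap (iterateFrobenius A p n) := by
          rw [this]; exact Subfield.mem_top a
        exact h1
      · exact S.toSubfield.pow_mem hyS _
      · intro a
        change (iterateFrobenius A p n) (a ^ p) ∈ S
        rw [iterateFrobenius_def, ← pow_mul, ← pow_succ']
        exact hn a
  rw [eq_top_iff]
  intro x _
  refine key (IsPurelyInseparable.exponent S A) (fun a => ?_) x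
  obtain ⟨b, hb⟩ := IsPurelyInseparable.exponent_def' (K := S) p a
  rw [← hb]
  exact b.2

theorem transcendental_of_not_pow [Finite F] (p : ℕ) [Fact p.Prime] [CharP F p] [CharP A p]
    (y : A) (hy : ∀ z : A, z ^ p ≠ y) : Transcendental F y := by
  intro halg
  have hfd : FiniteDimensional F F⟮y⟯ := adjoin.finiteDimensional halg.isIntegral
  have hfin : Finite F⟮y⟯ := Module.finite_of_finite F
  have hch : CharP F⟮y⟯ p := charP_of_injective_algebraMap (algebraMap F F⟮y⟯).injective p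
  obtain ⟨z, hz⟩ := (PerfectRing.bijective_frobenius (R := F⟮y⟯) (p := p)).2
    ⟨y, mem_adjoin_simple_self F y⟩
  apply hy (z : A)
  have := congrArg (fun x : F⟮y⟯ => (x : A)) hz
  simpa [frobenius_def] using this

theorem sep_of_not_pow [Finite F] (t : A)
    (ht : Transcendental F t) [FiniteDimensional (adjoin F {t}) A] (p : ℕ) [Fact p.Prime]
    [CharP F p] (y : A) (hy : ∀ z : A, z ^ p ≠ y) :
    Transcendental F y ∧ FiniteDimensional (adjoin F {y}) A ∧
      Algebra.IsSeparable (adjoin F {y}) A := by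
  have : CharP A p := charP_of_injective_algebraMap (algebraMap F A).injective p
  have h1 := transcendental_of_not_pow (F := F) p y hy
  have h2 : FiniteDimensional F⟮y⟯ A := fin_adjoin t y ht h1
  exact ⟨h1, h2, isSeparable_of_gen p y (fun T => eq_top_of_not_pow t ht p y hy T)⟩

/-! ### roots of maximal order -/

theorem not_mem_adjoin_pow (u : A) (hu : Transcendental F u) (p : ℕ) (hp : 2 ≤ p) :
    u ∉ F⟮u ^ p⟯ := by
  intro h
  obtain ⟨r, s, hrs⟩ := (mem_adjoin_simple_iff F u).1 h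
  have hu0 : u ≠ 0 := by
    rintro rfl
    exact hu (isAlgebraic_zero)
  have hs0 : aeval (u ^ p) s ≠ 0 := by
    intro h0
    rw [h0, div_zero] at hrs
    exact hu0 hrs
  have h1 : aeval u (X * expand F p s) = aeval u (expand F p r) := by
    rw [map_mul, aeval_X, expand_aeval, expand_aeval]
    rw [eq_div_iff hs0] at hrs
    exact hrs
  have h2 : X * expand F p s = expand F p r := (transcendental_iff_injective.1 hu) h1
  have hs : s ≠ 0 := by
    rintro rfl
    simp at hs0
  have hp0 : 0 < p := by omega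
  have h3 := congrArg natDegree h2
  rw [natDegree_X_mul ((expand_ne_zero hp0).2 hs), natDegree_expand, natDegree_expand] at h3
  have h4 := congrArg (· % p) h3
  simp only [Nat.mul_mod_left] at h4
  rw [Nat.add_mod, Nat.mul_mod_left, zero_add, Nat.mod_mod] at h4
  rw [Nat.mod_eq_of_lt (by omega)] at h4
  omega

theorem exists_not_pow (t : A) (ht : Transcendental F t) [FiniteDimensional F⟮t⟯ A] (p : ℕ)
    (hp : 2 ≤ p) : ∀ (n : ℕ) (z : A), Transcendental F z → Module.finrank F⟮z⟯ A = n →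
    ∃ (w : A) (k : ℕ), w ^ p ^ k = z ∧ ∀ u : A, u ^ p ≠ w := by
  intro n
  induction n using Nat.strong_induction_on with
  | _ n ih =>
    intro z hz hn
    by_cases hcase : ∀ u : A, u ^ p ≠ z
    · exact ⟨z, 0, by simp, hcase⟩
    push Not at hcase
    obtain ⟨u, hu⟩ := hcase
    have hut : Transcendental F u := fun h => hz (hu ▸ h.pow p)
    have hle : F⟮z⟯ ≤ F⟮u⟯ := by
      rw [adjoin_simple_le_iff, ← hu]
      exact pow_mem (mem_adjoin_simple_self F u) p
    have hfz : FiniteDimensional F⟮z⟯ A := fin_adjoin t z ht hz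
    have hfu : FiniteDimensional F⟮u⟯ A := fin_adjoin t u ht hut
    have h1 := relfinrank_mul_finrank_top hle
    have h2 : relfinrank F⟮z⟯ F⟮u⟯ ≠ 1 := by
      rw [Ne, relfinrank_eq_one_iff, adjoin_simple_le_iff, ← hu]
      exact not_mem_adjoin_pow u hut p hp
    have h3 : 0 < Module.finrank F⟮z⟯ A := Module.finrank_pos
    have h4 : 0 < Module.finrank F⟮u⟯ A := Module.finrank_pos
    have h5 : relfinrank F⟮z⟯ F⟮u⟯ ≠ 0 := by
      intro h0
      rw [h0, zero_mul] at h1
      omega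
    have h6 : Module.finrank F⟮u⟯ A < n := by
      have h7 : 2 ≤ relfinrank F⟮z⟯ F⟮u⟯ := by omega
      rw [← hn, ← h1]
      nlinarith
    obtain ⟨w, k, hw, hw'⟩ := ih _ h6 u hut rfl
    exact ⟨w, k + 1, by rw [pow_succ, pow_mul, hw, hu], hw'⟩

theorem transcendental_of_notMem [Finite F] (P : ValuationSubring A) (z : A) (hz : z ∉ P) :
    Transcendental F z := by
  intro halg
  have hfd : FiniteDimensional F F⟮z⟯ := adjoin.finiteDimensional halg.isIntegral
  have hfin : Finite F⟮z⟯ := Module.finite_of_finite F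
  apply hz
  by_cases h0 : z = 0
  · rw [h0]; exact P.zero_mem
  let z' : F⟮z⟯ := ⟨z, mem_adjoin_simple_self F z⟩
  have hz' : z' ≠ 0 := fun h => h0 (congrArg Subtype.val h)
  have h1 : Units.mk0 z' hz' ^ Nat.card (F⟮z⟯)ˣ = 1 := pow_card_eq_one'
  have h2 : z ^ Nat.card (F⟮z⟯)ˣ = 1 := by
    have e : (((Units.mk0 z' hz' ^ Nat.card (F⟮z⟯)ˣ : (F⟮z⟯)ˣ) : F⟮z⟯) : A) =
        z ^ Nat.card (F⟮z⟯)ˣ := by
      rw [Units.val_pow_eq_pow_val, Units.val_mk0]
      rfl
    rw [← e, h1]
    rfl
  have h3 : (P.valuation z) ^ Nat.card (F⟮z⟯)ˣ = 1 := by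
    rw [← map_pow, h2, map_one]
  rw [← P.valuation_le_one_iff]
  exact ((pow_le_one_iff (Nat.card_pos.ne')).1 h3.le)

theorem mem_of_pow_mem (Q : ValuationSubring A) (u : A) (n : ℕ) (hn : n ≠ 0) (h : u ^ n ∈ Q) :
    u ∈ Q := by
  rw [← Q.valuation_le_one_iff] at h ⊢
  rw [map_pow] at h
  exact (pow_le_one_iff hn).1 h

/-- `sep_pole` from `single_pole` -/
theorem sep_pole_of [Finite F] (t : A)
    (ht : Transcendental F t) [FiniteDimensional (adjoin F {t}) A]
    (hsingle : ∀ w : A, Transcendental F w → FiniteDimensional (adjoin F {w}) A →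
      Algebra.IsSeparable (adjoin F {w}) A → ∀ P : ValuationSubring A, w ∉ P →
      ∃ y : A, y ∉ P ∧ (∀ Q : ValuationSubring A, Q ≠ ⊤ → Q ≠ P → y ∈ Q))
    (P : ValuationSubring A) (hP : P ≠ ⊤) :
    ∃ y : A, y ∉ P ∧ (∀ Q : ValuationSubring A, Q ≠ ⊤ → Q ≠ P → y ∈ Q) ∧
      FiniteDimensional (adjoin F {y}) A ∧ Algebra.IsSeparable (adjoin F {y}) A := by
  obtain ⟨p, hchar⟩ := CharP.exists F
  have hp : p.Prime := CharP.char_is_prime F p
  have : Fact p.Prime := ⟨hp⟩
  obtain ⟨z, hz⟩ : ∃ z, z ∉ P := by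
    by_contra hcon
    push Not at hcon
    exact hP (by ext x; exact ⟨fun _ => trivial, fun _ => hcon x⟩)
  obtain ⟨w, k, hw, hw'⟩ := exists_not_pow t ht p hp.two_le _ z
    (transcendental_of_notMem P z hz) rfl
  have hwP : w ∉ P := fun h => hz (hw ▸ pow_mem h _)
  obtain ⟨h1, h2, h3⟩ := sep_of_not_pow t ht p w hw'
  obtain ⟨y₀, hy₀, hy₀'⟩ := hsingle w h1 h2 h3 P hwP
  obtain ⟨y, j, hy, hy'⟩ := exists_not_pow t ht p hp.two_le _ y₀
    (transcendental_of_notMem P y₀ hy₀) rfl
  obtain ⟨-, h5, h6⟩ := sep_of_not_pow t ht p y hy'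
  refine ⟨y, fun h => hy₀ (hy ▸ pow_mem h _), fun Q hQ hQP => ?_, h5, h6⟩
  exact mem_of_pow_mem Q y (p ^ j) (pow_ne_zero _ hp.ne_zero) (hy ▸ hy₀' Q hQ hQP)

end Sep

theorem sep_pole {F A : Type*} [Field F] [Finite F] [Field A] [Algebra F A] (t : A)
    (ht : Transcendental F t) [FiniteDimensional (adjoin F {t}) A] (P : ValuationSubring A)
    (hP : P ≠ ⊤) :
    ∃ y : A, y ∉ P ∧ (∀ Q : ValuationSubring A, Q ≠ ⊤ → Q ≠ P → y ∈ Q) ∧
      FiniteDimensional (adjoin F {y}) A ∧ Algebra.IsSeparable (adjoin F {y}) A := by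
  refine sep_pole_of t ht (fun w hw hfd hsep Q hQ => ?_) P hP
  exact single_pole w hw Q hQ

end Pool.Agent.Lib.MP_2f3286_ag.Full
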