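import Pool.Agent.Lib.MP_2f3286_ag.Full.Cls0
import Pool.Agent.Lib.MP_2f3286_ag.Full.Sep
import Pool.Agent.Lib.MP_2f3286_ag.Full.Pole

open Polynomial IntermediateField IsDedekindDomain
open scoped Pointwise

namespace Pool.Agent.Lib.MP_2f3286_ag.Full

open scoped IntermediateField.algebraAdjoinAdjoin

theorem Cls.sep_pole_aux {F A : Type*} [Field F] [Finite F] [Field A] [Algebra F A] (t : A)
    (ht : Transcendental F t) [FiniteDimensional (adjoin F {t}) A] (P : ValuationSubring A)
    (hP : P ≠ ⊤) :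
    ∃ y : A, y ∉ P ∧ (∀ Q : ValuationSubring A, Q ≠ ⊤ → Q ≠ P → y ∈ Q) ∧
      FiniteDimensional (adjoin F {y}) A ∧ Algebra.IsSeparable (adjoin F {y}) A :=
  sep_pole_of t ht (fun w hw h1 h2 Q hQ => single_pole w hw Q hQ) P hP

theorem exists_ord {F A : Type*} [Field F] [Finite F] [Field A] [Algebra F A] (t : A)
    (ht : Transcendental F t) [FiniteDimensional (adjoin F {t}) A] (P : ValuationSubring A)
    (hP : P ≠ ⊤) :
    ∃ v : Aˣ →* Multiplicative ℤ, Function.Surjective v ∧ ∀ x : Aˣ, (x : A) ∈ P ↔ 1 ≤ v x := by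
  obtain ⟨y, hy, -, hfd, hsep⟩ := Cls.sep_pole_aux t ht P hP
  have hyP : y⁻¹ ∈ P := (P.mem_or_inv_mem y).resolve_left hy
  have hyt : Transcendental F y⁻¹ := by
    intro h
    have h2 : IsAlgebraic F y := by
      have := h.inv
      rwa [inv_inv] at this
    exact Cls.transc_of_notMem y P hy h2
  rw [← Cls.adjoin_inv_eq] at hfd hsep
  obtain ⟨h1, -, h3⟩ := class_fin (F := F) y⁻¹ hyt
  obtain ⟨v, hv, -⟩ := Cls.place_of_dedekind (R := integralClosure (Algebra.adjoin F {y⁻¹}) A) P hP
    (fun r => Cls.int_mem (F := F) P y⁻¹ hyP r r.2)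
  have hne : ∀ x : Aˣ, v.valuation A (x : A) ≠ 0 := fun x => by simp
  refine ⟨⟨⟨fun x => Multiplicative.ofAdd (-(WithZero.log (v.valuation A (x : A)))), ?_⟩, ?_⟩, ?_, ?_⟩
  · simp
  · intro a b
    simp only [Units.val_mul, map_mul]
    rw [WithZero.log_mul (hne a) (hne b), neg_add, ofAdd_add]
  · intro n
    obtain ⟨x, hx⟩ := v.valuation_surjective A (WithZero.exp (-(n.toAdd)))
    have hx0 : x ≠ 0 := by
      rintro rfl
      rw [map_zero] at hx
      exact WithZero.exp_ne_zero hx.symm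
    refine ⟨Units.mk0 x hx0, ?_⟩
    show Multiplicative.ofAdd (-(WithZero.log (v.valuation A (x : A)))) = n
    rw [hx, WithZero.log_exp, neg_neg]
    rfl
  · intro x
    rw [hv, Valuation.mem_valuationSubring_iff]
    show _ ↔ Multiplicative.ofAdd (0 : ℤ) ≤
      Multiplicative.ofAdd (-(WithZero.log (v.valuation A (x : A))))
    rw [Multiplicative.ofAdd_le, neg_nonneg]
    constructor
    · intro h
      have := (WithZero.log_le_log (hne x) one_ne_zero).mpr h
      simpa using this
    · intro h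
      rw [← WithZero.log_le_log (hne x) one_ne_zero]
      simpa using h

theorem exists_two_point_unit {F A : Type*} [Field F] [Finite F] [Field A] [Algebra F A] (t : A)
    (ht : Transcendental F t) [FiniteDimensional (adjoin F {t}) A] (P Q : ValuationSubring A)
    (hP : P ≠ ⊤) (hQ : Q ≠ ⊤) (hPQ : P ≠ Q) :
    ∃ u : Aˣ, (u : A)⁻¹ ∉ P ∧ (u : A) ∉ Q ∧
      ∀ O : ValuationSubring A, O ≠ ⊤ → O ≠ P → O ≠ Q → (u : A) ∈ O ∧ (u : A)⁻¹ ∈ O := by
  obtain ⟨y, hy, hyO, hfd, hsep⟩ := Cls.sep_pole_aux t ht Q hQ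
  have hyt : Transcendental F y := Cls.transc_of_notMem y Q hy
  obtain ⟨h1, h2, h3⟩ := class_fin (F := F) y hyt
  have hmem : ∀ O : ValuationSubring A, O ≠ ⊤ → O ≠ Q →
      ∀ r : integralClosure (Algebra.adjoin F {y}) A,
        algebraMap (integralClosure (Algebra.adjoin F {y}) A) A r ∈ O :=
    fun O hO hOQ r => Cls.int_mem (F := F) O y (hyO O hO hOQ) r r.2
  obtain ⟨v, hv, hvm⟩ := Cls.place_of_dedekind (R := integralClosure (Algebra.adjoin F {y}) A) P hP
    (hmem P hP hPQ)
  -- a power of the prime is principal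
  have hv0 : v.asIdeal ∈ nonZeroDivisors (Ideal (integralClosure (Algebra.adjoin F {y}) A)) :=
    mem_nonZeroDivisors_of_ne_zero v.ne_bot
  have : Fintype (ClassGroup (integralClosure (Algebra.adjoin F {y}) A)) := Fintype.ofFinite _
  have hpr := pow_card_eq_one (x := ClassGroup.mk0 ⟨v.asIdeal, hv0⟩)
  rw [← map_pow, ClassGroup.mk0_eq_one_iff] at hpr
  obtain ⟨π, hπ⟩ := hpr
  set h := Fintype.card (ClassGroup (integralClosure (Algebra.adjoin F {y}) A)) with hh
  have hhpos : h ≠ 0 := Fintype.card_ne_zero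
  have hπ' : v.asIdeal ^ h = Ideal.span {π} := hπ
  have hπv : π ∈ v.asIdeal := by
    have e1 : π ∈ v.asIdeal ^ h := by rw [hπ']; exact Ideal.mem_span_singleton_self π
    exact Ideal.pow_le_self hhpos e1
  have hπ0 : (π : A) ≠ 0 := by
    intro h0
    have e1 : π = 0 := Subtype.ext h0
    rw [e1, Ideal.span_singleton_eq_bot.mpr rfl] at hπ'
    exact v.ne_bot (pow_eq_zero_iff hhpos |>.mp hπ')
  have hπP : P.valuation (π : A) < 1 := (hvm π).mp hπv
  have hinvP : (π : A)⁻¹ ∉ P := by
    rw [← P.valuation_le_one_iff, map_inv₀, not_le]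
    exact (one_lt_inv₀ (by
      rw [zero_lt_iff]
      exact (Valuation.ne_zero_iff _).mpr hπ0)).mpr hπP
  refine ⟨Units.mk0 (π : A) hπ0, hinvP, ?_, ?_⟩
  · intro hQπ
    -- then `π` is integral over `F`
    have hall : ∀ O : ValuationSubring A, (π : A) ∈ O := by
      intro O
      by_cases hO : O = ⊤
      · rw [hO]; trivial
      by_cases hOQ : O = Q
      · rw [hOQ]; exact hQπ
      exact hmem O hO hOQ π
    have hint : IsIntegral F (π : A) := by
      by_contra hni
      have hni' : (π : A) ∉ (integralClosure F A).toSubring := hni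
      have : IsIntegrallyClosedIn (integralClosure F A).toSubring A :=
        inferInstanceAs (IsIntegrallyClosedIn (integralClosure F A) A)
      obtain ⟨V, -, hV⟩ := Subring.exists_le_valuationSubring_of_isIntegrallyClosedIn hni'
      exact hV (hall V)
    exact hinvP (Cls.int_mem' (F := F) P _ hint.inv)
  · intro O hO hOP hOQ
    obtain ⟨w, hw, hwm⟩ := Cls.place_of_dedekind (R := integralClosure (Algebra.adjoin F {y}) A) O hO
      (hmem O hO hOQ)
    refine ⟨hmem O hO hOQ π, ?_⟩
    have hne : π ∉ w.asIdeal := by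
      intro hπw
      have e1 : v.asIdeal ^ h ≤ w.asIdeal := by
        rw [hπ', Ideal.span_singleton_le_iff_mem]; exact hπw
      have e2 : v.asIdeal ≤ w.asIdeal := Ideal.IsPrime.le_of_pow_le e1
      have e3 : v.asIdeal = w.asIdeal := v.isMaximal.eq_of_le w.isPrime.ne_top e2
      have e4 : v = w := HeightOneSpectrum.ext e3
      exact hOP (by rw [hw, hv, e4])
    rw [hwm, not_lt] at hne
    have e5 : O.valuation (π : A) = 1 :=
      le_antisymm ((O.valuation_le_one_iff _).mpr (hmem O hO hOQ π)) hne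
    show (π : A)⁻¹ ∈ O
    rw [← O.valuation_le_one_iff, map_inv₀, e5, inv_one]

end Pool.Agent.Lib.MP_2f3286_ag.Full
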