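import Mathlib

open Polynomial IntermediateField IsDedekindDomain
open scoped Pointwise

namespace Pool.Agent.Lib.MP_2f3286_ag.Full

open scoped IntermediateField.algebraAdjoinAdjoin

/-- `F[y]` is a principal ideal ring -/
theorem Cls.cls_pid {F A : Type*} [Field F] [Field A] [Algebra F A] (y : A) :
    IsPrincipalIdealRing (Algebra.adjoin F {y}) := by
  let f : F[X] →ₐ[F] Algebra.adjoin F {y} := aeval ⟨y, Algebra.self_mem_adjoin_singleton F y⟩
  have hf : Function.Surjective f := by
    rintro ⟨z, hz⟩
    have hz' := hz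
    rw [Algebra.adjoin_singleton_eq_range_aeval] at hz'
    obtain ⟨p, hp⟩ := hz'
    refine ⟨p, Subtype.ext ?_⟩
    have := (aeval_algHom_apply (Algebra.adjoin F {y}).val
      (⟨y, Algebra.self_mem_adjoin_singleton F y⟩ : Algebra.adjoin F {y}) p)
    exact this.symm.trans hp
  exact IsPrincipalIdealRing.of_surjective f.toRingHom hf

theorem class_fin {F A : Type*} [Field F] [Finite F] [Field A] [Algebra F A] (y : A)
    (hy : Transcendental F y) [FiniteDimensional (adjoin F {y}) A]
    [Algebra.IsSeparable (adjoin F {y}) A] :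
    IsDedekindDomain (integralClosure (Algebra.adjoin F {y}) A) ∧
    Finite (ClassGroup (integralClosure (Algebra.adjoin F {y}) A)) ∧
    IsFractionRing (integralClosure (Algebra.adjoin F {y}) A) A := by
  have hpid := Cls.cls_pid (F := F) y
  have h1 : IsFractionRing (integralClosure (Algebra.adjoin F {y}) A) A :=
    integralClosure.isFractionRing_of_finite_extension (adjoin F {y}) A
  have h2 : IsDedekindDomain (integralClosure (Algebra.adjoin F {y}) A) :=
    integralClosure.isDedekindDomain (Algebra.adjoin F {y}) (adjoin F {y}) A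
  refine ⟨h2, ?_, h1⟩
  classical
  have : Fintype F := Fintype.ofFinite F
  -- `F[X]`-structures
  let S := integralClosure (Algebra.adjoin F {y}) A
  let f : F[X] →ₐ[F] Algebra.adjoin F {y} := aeval ⟨y, Algebra.self_mem_adjoin_singleton F y⟩
  have hf : Function.Surjective f := by
    rintro ⟨z, hz⟩
    have hz' := hz
    rw [Algebra.adjoin_singleton_eq_range_aeval] at hz'
    obtain ⟨p, hp⟩ := hz'
    refine ⟨p, Subtype.ext ?_⟩
    have := (aeval_algHom_apply (Algebra.adjoin F {y}).val
      (⟨y, Algebra.self_mem_adjoin_singleton F y⟩ : Algebra.adjoin F {y}) p)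
    exact this.symm.trans hp
  have hfi : Function.Injective f := by
    intro p q hpq
    have h3 : aeval y p = aeval y q := by
      have e1 := (aeval_algHom_apply (Algebra.adjoin F {y}).val
        (⟨y, Algebra.self_mem_adjoin_singleton F y⟩ : Algebra.adjoin F {y}) p)
      have e2 := (aeval_algHom_apply (Algebra.adjoin F {y}).val
        (⟨y, Algebra.self_mem_adjoin_singleton F y⟩ : Algebra.adjoin F {y}) q)
      have e3 : (Algebra.adjoin F {y}).val (f p) = (Algebra.adjoin F {y}).val (f q) := by
        rw [hpq]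
      exact e1.trans (e3.trans e2.symm)
    exact transcendental_iff_injective.mp hy h3
  let a1 : Algebra F[X] (Algebra.adjoin F {y}) := f.toRingHom.toAlgebra
  let a2 : Algebra F[X] (adjoin F {y}) :=
    ((algebraMap (Algebra.adjoin F {y}) (adjoin F {y})).comp f.toRingHom).toAlgebra
  let a3 : Algebra F[X] A :=
    ((algebraMap (Algebra.adjoin F {y}) A).comp f.toRingHom).toAlgebra
  let a4 : Algebra F[X] S :=
    ((algebraMap (Algebra.adjoin F {y}) S).comp f.toRingHom).toAlgebra
  have t1 : IsScalarTower F[X] (Algebra.adjoin F {y}) A := IsScalarTower.of_algebraMap_eq fun _ => rfl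
  have t2 : IsScalarTower F[X] (adjoin F {y}) A := IsScalarTower.of_algebraMap_eq fun _ => rfl
  have t3 : IsScalarTower F[X] S A := IsScalarTower.of_algebraMap_eq fun _ => rfl
  have i1 : IsFractionRing F[X] (adjoin F {y}) := by
    have hff : FaithfulSMul F[X] (adjoin F {y}) := by
      rw [faithfulSMul_iff_algebraMap_injective]
      exact (FaithfulSMul.algebraMap_injective (Algebra.adjoin F {y}) (adjoin F {y})).comp hfi
    refine IsFractionRing.of_field _ _ fun z => ?_
    obtain ⟨a, b, -, hab⟩ := IsFractionRing.div_surjective (A := Algebra.adjoin F {y}) z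
    obtain ⟨p, rfl⟩ := hf a
    obtain ⟨q, rfl⟩ := hf b
    exact ⟨p, q, hab.symm⟩
  have i3 : Algebra.IsIntegral F[X] (Algebra.adjoin F {y}) := by
    refine ⟨fun x => ?_⟩
    obtain ⟨p, rfl⟩ := hf x
    exact isIntegral_algebraMap
  have i2 : IsIntegralClosure S F[X] A := by
    refine ⟨Subtype.val_injective, fun {x} => ⟨fun hx => ?_, ?_⟩⟩
    · exact ⟨⟨x, hx.tower_top⟩, rfl⟩
    · rintro ⟨z, rfl⟩
      exact isIntegral_trans (R := F[X]) (A := Algebra.adjoin F {y}) _ z.2
  exact @Finite.of_fintype _ (ClassGroup.fintypeOfAdmissibleOfFinite (adjoin F {y}) A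
    (Polynomial.cardPowDegreeIsAdmissible :
      AbsoluteValue.IsAdmissible (Polynomial.cardPowDegree : AbsoluteValue F[X] ℤ)))


/-- places of a Dedekind domain -/
theorem Cls.place_of_dedekind {R K : Type*} [CommRing R] [IsDedekindDomain R] [Field K] [Algebra R K]
    [IsFractionRing R K] (P : ValuationSubring K) (hP : P ≠ ⊤)
    (hR : ∀ r : R, algebraMap R K r ∈ P) :
    ∃ v : HeightOneSpectrum R, P = (v.valuation K).valuationSubring ∧
      ∀ r : R, r ∈ v.asIdeal ↔ P.valuation (algebraMap R K r) < 1 := by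
  let f : R →+* P := (algebraMap R K).codRestrict P.toSubring hR
  let 𝔭 : Ideal R := (IsLocalRing.maximalIdeal P).comap f
  have hmem : ∀ r : R, r ∈ 𝔭 ↔ P.valuation (algebraMap R K r) < 1 := fun r =>
    (ValuationSubring.valuation_lt_one_iff P (f r))
  have h1 : 𝔭.IsPrime := Ideal.IsPrime.comap f
  have h2 : 𝔭 ≠ ⊥ := by
    intro hb
    apply hP
    rw [eq_top_iff]
    intro x _
    obtain ⟨a, b, hb0, rfl⟩ := IsFractionRing.div_surjective (A := R) x
    have hb' : b ≠ 0 := nonZeroDivisors.ne_zero hb0
    have h3 : b ∉ 𝔭 := by rw [hb]; exact hb'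
    rw [hmem, not_lt] at h3
    have h4 : P.valuation (algebraMap R K b) = 1 :=
      le_antisymm ((P.valuation_le_one_iff _).mpr (hR b)) h3
    rw [← P.valuation_le_one_iff, map_div₀, h4, div_one, P.valuation_le_one_iff]
    exact hR a
  let v : HeightOneSpectrum R := ⟨𝔭, h1, h2⟩
  refine ⟨v, ?_, hmem⟩
  rw [← HeightOneSpectrum.valuationSubringAtPrime_eq_valuationSubring]
  refine (ValuationSubring.eq_of_le_of_ne_top _ ?_ hP).symm
  rintro x ⟨a, s, hs, rfl⟩
  have h3 : ¬ P.valuation (algebraMap R K s) < 1 := by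
    rw [← hmem]; exact hs
  rw [not_lt] at h3
  have h4 : P.valuation (algebraMap R K s) = 1 :=
    le_antisymm ((P.valuation_le_one_iff _).mpr (hR s)) h3
  rw [← P.valuation_le_one_iff, map_mul, map_inv₀, h4, inv_one, mul_one, P.valuation_le_one_iff]
  exact hR a

theorem Cls.fin_mem {F A : Type*} [Field F] [Finite F] [Field A] [Algebra F A]
    (P : ValuationSubring A) (a : F) : algebraMap F A a ∈ P := by
  by_cases ha : a = 0
  · rw [ha, map_zero]; exact P.zero_mem
  have : Fintype F := Fintype.ofFinite F
  rw [← P.valuation_le_one_iff]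
  by_contra h
  rw [not_le] at h
  have h1 : a ^ (Fintype.card F - 1) = 1 := FiniteField.pow_card_sub_one_eq_one a ha
  have h2 : Fintype.card F - 1 ≠ 0 := by
    have := Fintype.one_lt_card (α := F)
    omega
  have h3 : P.valuation (algebraMap F A a) ^ (Fintype.card F - 1) = 1 := by
    rw [← map_pow, ← map_pow, h1, map_one, map_one]
  exact (one_lt_pow₀ h h2).ne' h3

theorem Cls.int_mem {F A : Type*} [Field F] [Finite F] [Field A] [Algebra F A]
    (P : ValuationSubring A) (z : A) (hz : z ∈ P) (s : A)
    (hs : IsIntegral (Algebra.adjoin F {z}) s) : s ∈ P := by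
  have h0 : ∀ r : Algebra.adjoin F {z}, (r : A) ∈ P := by
    rintro ⟨r, hr⟩
    induction hr using Algebra.adjoin_induction with
    | mem x hx =>
      rw [Set.mem_singleton_iff] at hx
      subst hx
      exact hz
    | algebraMap a => exact Cls.fin_mem P a
    | add x y _ _ h1 h2 => exact P.add_mem _ _ h1 h2
    | mul x y _ _ h1 h2 => exact P.mul_mem _ _ h1 h2
  let g : Algebra.adjoin F {z} →+* P :=
    (algebraMap (Algebra.adjoin F {z}) A).codRestrict P.toSubring h0
  obtain ⟨p, hp, hp0⟩ := hs
  have h1 : IsIntegral P s := by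
    refine ⟨p.map g, hp.map g, ?_⟩
    rw [eval₂_map]
    exact hp0
  obtain ⟨w, hw⟩ := IsIntegrallyClosed.algebraMap_eq_of_integral h1
  rw [← hw]
  exact w.2

theorem Cls.int_mem' {F A : Type*} [Field F] [Finite F] [Field A] [Algebra F A]
    (P : ValuationSubring A) (s : A) (hs : IsIntegral F s) : s ∈ P :=
  Cls.int_mem (F := F) P 0 P.zero_mem s hs.tower_top


theorem Cls.adjoin_inv_eq {F A : Type*} [Field F] [Field A] [Algebra F A] (y : A) :
    adjoin F {y⁻¹} = adjoin F {y} := by
  apply le_antisymm
  · rw [adjoin_simple_le_iff]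
    exact inv_mem (mem_adjoin_simple_self F y)
  · rw [adjoin_simple_le_iff]
    have := inv_mem (mem_adjoin_simple_self F y⁻¹)
    rwa [inv_inv] at this

/-- an element outside of some valuation ring is transcendental over a finite field -/
theorem Cls.transc_of_notMem {F A : Type*} [Field F] [Finite F] [Field A] [Algebra F A] (y : A)
    (P : ValuationSubring A) (hy : y ∉ P) : Transcendental F y := by
  intro h
  exact hy (Cls.int_mem' (F := F) P y (isAlgebraic_iff_isIntegral.mp h))

end Pool.Agent.Lib.MP_2f3286_ag.Full
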