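import Mathlib

namespace Pool.Agent.Lib.MP_2f3286_ag.Full

namespace LieAux

open LieModule Module Polynomial

/-- An endomorphism all of whose powers have trace zero is nilpotent (characteristic zero). -/
theorem isNilpotent_of_trace_pow {K V : Type*} [Field K] [CharZero K] [AddCommGroup V]
    [Module K V] [FiniteDimensional K V] (R : Module.End K V)
    (h : ∀ m : ℕ, LinearMap.trace K V (R ^ (m + 1)) = 0) : IsNilpotent R := by
  have hμ : minpoly K R ≠ 0 := minpoly.ne_zero (Algebra.IsIntegral.isIntegral R)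
  obtain ⟨q, hq, hq0⟩ := Polynomial.exists_eq_pow_rootMultiplicity_mul_and_not_dvd
    (minpoly K R) hμ 0
  set k := (minpoly K R).rootMultiplicity 0 with hk
  simp only [map_zero, sub_zero] at hq hq0
  have hcop : IsCoprime ((X : K[X]) ^ (k + 1)) q := by
    apply IsCoprime.pow_left
    exact (Polynomial.irreducible_X.coprime_iff_not_dvd).mpr hq0
  obtain ⟨a, b, hab⟩ := hcop
  have hzero : aeval R (X ^ k * q) = 0 := by
    rw [← hq]; exact minpoly.aeval K R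
  set E : Module.End K V := aeval R (a * X ^ (k + 1)) with hE
  have hE1 : aeval R (b * q) = 1 - E := by
    have : aeval R (a * X ^ (k + 1) + b * q) = 1 := by rw [hab, map_one]
    rw [map_add] at this
    rw [← this, hE]; abel
  have hid : IsIdempotentElem E := by
    have h1 : E * (1 - E) = 0 := by
      rw [← hE1, hE, ← map_mul]
      have : a * X ^ (k + 1) * (b * q) = (a * b * X) * (X ^ k * q) := by ring
      rw [this, map_mul, hzero, mul_zero]
    rw [mul_sub, mul_one, sub_eq_zero] at h1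
    exact h1.symm
  have htr : LinearMap.trace K V E = 0 := by
    have : E = ∑ i ∈ Finset.range (a.natDegree + 1), a.coeff i • R ^ (k + i + 1) := by
      rw [hE, map_mul, Polynomial.aeval_eq_sum_range, map_pow, aeval_X, Finset.sum_mul]
      refine Finset.sum_congr rfl fun i _ => ?_
      rw [smul_mul_assoc, ← pow_add]
      congr 2
      ring
    rw [this, map_sum]
    refine Finset.sum_eq_zero fun i _ => ?_
    rw [map_smul, h, smul_zero]
  have hE0 : E = 0 := LinearMap.IsIdempotentElem.eq_zero_of_trace_eq_zero hid htr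
  refine ⟨k, ?_⟩
  have h1 : aeval R (b * q) = 1 := by rw [hE1, hE0, sub_zero]
  have h2 : aeval R ((X : K[X]) ^ k) = R ^ k := by rw [map_pow, aeval_X]
  have h3 : aeval R ((X : K[X]) ^ k * (b * q)) = R ^ k := by
    rw [map_mul, h1, h2, mul_one]
  have h4 : (X : K[X]) ^ k * (b * q) = b * (X ^ k * q) := by ring
  rw [← h3, h4, map_mul, hzero, mul_zero]

variable {K 𝔤 V : Type*} [Field K] [CharZero K] [LieRing 𝔤] [LieAlgebra K 𝔤]
    [AddCommGroup V] [Module K V] [LieRingModule 𝔤 V] [LieModule K 𝔤 V] [FiniteDimensional K V]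

/-- An ideal acting by nilpotent endomorphisms on an irreducible module acts trivially. -/
theorem acts_trivially_of_nilpotent [LieModule.IsIrreducible K 𝔤 V] (J : LieIdeal K 𝔤)
    (h : ∀ x ∈ J, IsNilpotent (toEnd K 𝔤 V x)) : ∀ x ∈ J, ∀ v : V, ⁅x, v⁆ = 0 := by
  have hnt : Nontrivial V := LieModule.nontrivial_of_isIrreducible K 𝔤 V
  have hnil : LieModule.IsNilpotent J V := by
    rw [LieModule.isNilpotent_iff_forall' (R := K)]
    rintro ⟨x, hx⟩
    exact h x hx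
  have h1 : Nontrivial (maxTrivSubmodule K J V) := nontrivial_max_triv_of_isNilpotent K J V
  let N : LieSubmodule K 𝔤 V :=
    { carrier := {v | ∀ x ∈ J, ⁅x, v⁆ = 0}
      add_mem' := by
        intro a b ha hb x hx
        rw [lie_add, ha x hx, hb x hx, add_zero]
      zero_mem' := by
        intro x _
        exact lie_zero x
      smul_mem' := by
        intro c a ha x hx
        rw [lie_smul, ha x hx, smul_zero]
      lie_mem := by
        intro y a ha x hx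
        rw [leibniz_lie, ha x hx, lie_zero, add_zero]
        exact ha _ (lie_mem_left K 𝔤 J x y hx) }
  have hN : N ≠ ⊥ := by
    obtain ⟨⟨v, hv⟩, hv0⟩ := exists_ne (0 : maxTrivSubmodule K J V)
    intro hb
    apply hv0
    have hv' : v ∈ N := by
      intro x hx
      exact (mem_maxTrivSubmodule K J V v).mp hv ⟨x, hx⟩
    rw [hb, LieSubmodule.mem_bot] at hv'
    exact Subtype.ext hv'
  have hT : N = ⊤ := (IsSimpleOrder.eq_bot_or_eq_top N).resolve_left hN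
  intro x hx v
  have : v ∈ N := by rw [hT]; exact LieSubmodule.mem_top v
  exact this x hx

/-- The trace computation. -/
theorem trace_pow_eq_zero (J : LieIdeal K 𝔤) (r : 𝔤) (hr : r ∈ ⁅(⊤ : LieIdeal K 𝔤), J⁆)
    (hcomm : ∀ y ∈ J, ∀ v : V, ⁅r, ⁅y, v⁆⁆ = ⁅y, ⁅r, v⁆⁆) (m : ℕ) :
    LinearMap.trace K V ((toEnd K 𝔤 V r) ^ (m + 1)) = 0 := by
  set R := toEnd K 𝔤 V r with hR
  have hcomm' : ∀ y ∈ J, Commute R (toEnd K 𝔤 V y) := by
    intro y hy
    ext v
    exact hcomm y hy v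
  have key : ∀ s ∈ ⁅(⊤ : LieIdeal K 𝔤), J⁆,
      LinearMap.trace K V (toEnd K 𝔤 V s * R ^ m) = 0 := by
    intro s hs
    rw [← LieSubmodule.mem_toSubmodule, LieSubmodule.lieIdeal_oper_eq_linear_span'] at hs
    induction hs using Submodule.span_induction with
    | mem s hs =>
      obtain ⟨x, -, y, hy, rfl⟩ := hs
      have h1 : toEnd K 𝔤 V ⁅x, y⁆ = toEnd K 𝔤 V x * toEnd K 𝔤 V y -
          toEnd K 𝔤 V y * toEnd K 𝔤 V x := by
        ext v
        simp
      rw [h1, sub_mul, map_sub, sub_eq_zero]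
      have h2 : Commute (R ^ m) (toEnd K 𝔤 V y) := (hcomm' y hy).pow_left m
      calc LinearMap.trace K V (toEnd K 𝔤 V x * toEnd K 𝔤 V y * R ^ m)
          = LinearMap.trace K V (toEnd K 𝔤 V x * R ^ m * toEnd K 𝔤 V y) := by
            rw [mul_assoc, mul_assoc, h2.eq]
        _ = LinearMap.trace K V (toEnd K 𝔤 V y * (toEnd K 𝔤 V x * R ^ m)) :=
            LinearMap.trace_mul_comm K _ _
        _ = _ := by rw [mul_assoc]
    | zero => simp
    | add s t _ _ hs ht => rw [map_add, add_mul, map_add, hs, ht, add_zero]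
    | smul c s _ hs => rw [map_smul, smul_mul_assoc, map_smul, hs, smul_zero]
  rw [pow_succ']
  exact key r hr

/-- An ideal of commutators with elements of `J` that commutes with `J` acts trivially. -/
theorem acts_trivially_of_comm [LieModule.IsIrreducible K 𝔤 V] (J J' : LieIdeal K 𝔤)
    (hJ' : J' ≤ ⁅(⊤ : LieIdeal K 𝔤), J⁆)
    (hcomm : ∀ r ∈ J', ∀ y ∈ J, ∀ v : V, ⁅r, ⁅y, v⁆⁆ = ⁅y, ⁅r, v⁆⁆) :
    ∀ x ∈ J', ∀ v : V, ⁅x, v⁆ = 0 :=
  acts_trivially_of_nilpotent J' fun r hr =>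
    isNilpotent_of_trace_pow _ fun m => trace_pow_eq_zero J r (hJ' hr) (hcomm r hr) m

/-- In a semisimple Lie algebra every ideal is perfect. -/
theorem ideal_perfect {S : Type*} [LieRing S] [LieAlgebra K S] [LieAlgebra.IsSemisimple K S]
    (I : LieIdeal K S) : ⁅I, I⁆ = I := by
  apply le_antisymm (LieSubmodule.lie_le_left I I)
  set D : LieIdeal K S := ⁅I, I⁆ with hD
  set J : LieIdeal K S := I ⊓ Dᶜ with hJ
  have hJab : ⁅J, J⁆ = ⊥ := by
    rw [eq_bot_iff]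
    have h1 : ⁅J, J⁆ ≤ D := LieSubmodule.mono_lie inf_le_left inf_le_left
    have h2 : ⁅J, J⁆ ≤ Dᶜ := (LieSubmodule.lie_le_left J J).trans inf_le_right
    calc ⁅J, J⁆ ≤ D ⊓ Dᶜ := le_inf h1 h2
      _ = ⊥ := inf_compl_eq_bot
  have hJ0 : J = ⊥ := by
    have h := (LieAlgebra.hasTrivialRadical_iff_no_abelian_ideals K S).mp inferInstance
    apply h
    rw [LieAlgebra.abelian_iff_derived_one_eq_bot]
    exact hJab
  calc I = I ⊓ (D ⊔ Dᶜ) := by rw [sup_compl_eq_top, inf_top_eq]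
    _ = (I ⊓ D) ⊔ J := by rw [inf_sup_left]
    _ = I ⊓ D := by rw [hJ0, sup_bot_eq]
    _ ≤ D := inf_le_right

section Family

variable {ι : Type*} (W : ι → Type*) [∀ i, AddCommGroup (W i)]
    [∀ i, Module K (W i)] [∀ i, LieRingModule 𝔤 (W i)] [∀ i, LieModule K 𝔤 (W i)]

variable (K 𝔤) in
/-- The elements of the Lie algebra that act centrally on all the modules. -/
def centr : LieIdeal K 𝔤 where
  carrier := {x | ∀ y : 𝔤, ∀ i, ∀ w : W i, ⁅⁅y, x⁆, w⁆ = 0}
  add_mem' := by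
    intro a b ha hb y i w
    rw [lie_add, add_lie, ha, hb, add_zero]
  zero_mem' := by
    intro y i w
    rw [lie_zero, zero_lie]
  smul_mem' := by
    intro c a ha y i w
    rw [lie_smul, smul_lie, ha, smul_zero]
  lie_mem := by
    intro z a ha y i w
    have h1 : ⁅y, ⁅z, a⁆⁆ = ⁅⁅y, z⁆, a⁆ + ⁅z, ⁅y, a⁆⁆ := leibniz_lie y z a
    rw [h1, add_lie, ha, zero_add, lie_lie, ha, ha, lie_zero, sub_zero]

theorem mem_centr (x : 𝔤) : x ∈ centr K 𝔤 W ↔ ∀ y : 𝔤, ∀ i, ∀ w : W i, ⁅⁅y, x⁆, w⁆ = 0 := Iff.rfl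

variable [∀ i, FiniteDimensional K (W i)] [∀ i, LieModule.IsIrreducible K 𝔤 (W i)]

/-- An ideal that is abelian modulo the centralising ideal is contained in it. -/
theorem le_centr (J : LieIdeal K 𝔤) (hJ : ⁅J, J⁆ ≤ centr K 𝔤 W) : J ≤ centr K 𝔤 W := by
  have h1 : ∀ i, ∀ x ∈ ⁅J, J⁆, ∀ v : W i, ⁅x, v⁆ = 0 := by
    intro i
    apply acts_trivially_of_comm J ⁅J, J⁆ (LieSubmodule.mono_lie le_top le_rfl)
    intro r hr y _ v
    have h := hJ hr y i v
    have h2 : ⁅⁅y, r⁆, v⁆ = ⁅y, ⁅r, v⁆⁆ - ⁅r, ⁅y, v⁆⁆ := lie_lie y r v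
    rw [h2, sub_eq_zero] at h
    exact h.symm
  intro x hx y i w
  refine acts_trivially_of_comm (V := W i) J ⁅(⊤ : LieIdeal K 𝔤), J⁆ le_rfl ?_ _
    (LieSubmodule.lie_mem_lie (LieSubmodule.mem_top y) hx) w
  intro r hr z hz v
  have hrJ : r ∈ J := LieSubmodule.lie_le_right J ⊤ hr
  have h := h1 i ⁅r, z⁆ (LieSubmodule.lie_mem_lie hrJ hz) v
  rw [lie_lie, sub_eq_zero] at h
  exact h

variable [FiniteDimensional K 𝔤]

theorem hasTrivialRadical_quot : LieAlgebra.HasTrivialRadical K (𝔤 ⧸ centr K 𝔤 W) := by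
  rw [LieAlgebra.hasTrivialRadical_iff_no_abelian_ideals]
  intro A hA
  let π : 𝔤 →ₗ⁅K⁆ (𝔤 ⧸ centr K 𝔤 W) :=
    { (LieSubmodule.Quotient.mk' (centr K 𝔤 W) : 𝔤 →ₗ[K] 𝔤 ⧸ centr K 𝔤 W) with
      map_lie' := by
        intro x y
        exact LieSubmodule.Quotient.mk_bracket _ x y }
  have hπ : ∀ x, π x = 0 ↔ x ∈ centr K 𝔤 W := fun x => LieSubmodule.Quotient.mk_eq_zero' 
  have hs : Function.Surjective π := LieSubmodule.Quotient.surjective_mk' _
  have hle : A.comap π ≤ centr K 𝔤 W := by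
    apply le_centr
    rw [LieSubmodule.lie_le_iff]
    intro x hx y hy
    rw [← hπ, LieHom.map_lie]
    rw [LieIdeal.mem_comap] at hx hy
    have h1 : (⁅(⟨π x, hx⟩ : A), (⟨π y, hy⟩ : A)⁆ : A) = 0 := trivial_lie_zero _ _ _ _
    exact congrArg (Subtype.val) h1
  rw [eq_bot_iff]
  intro a ha
  obtain ⟨x, rfl⟩ := hs a
  rw [LieSubmodule.mem_bot, hπ]
  exact hle (LieIdeal.mem_comap.mpr ha)

/-- Every ideal is perfect modulo the centralising ideal. -/
theorem le_sup_centr (c : LieIdeal K 𝔤) : c ≤ ⁅c, c⁆ ⊔ centr K 𝔤 W := by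
  have _i := hasTrivialRadical_quot (K := K) (𝔤 := 𝔤) W
  let π : 𝔤 →ₗ⁅K⁆ (𝔤 ⧸ centr K 𝔤 W) :=
    { (LieSubmodule.Quotient.mk' (centr K 𝔤 W) : 𝔤 →ₗ[K] 𝔤 ⧸ centr K 𝔤 W) with
      map_lie' := by
        intro x y
        exact LieSubmodule.Quotient.mk_bracket _ x y }
  have hπ : ∀ x, π x = 0 ↔ x ∈ centr K 𝔤 W := fun x => LieSubmodule.Quotient.mk_eq_zero' 
  have hs : Function.Surjective π := LieSubmodule.Quotient.surjective_mk' _
  intro x hx
  have h1 : π x ∈ LieIdeal.map π ⁅c, c⁆ := by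
    rw [LieIdeal.map_bracket_eq π hs, ideal_perfect]
    exact LieIdeal.mem_map hx
  obtain ⟨⟨y, hy⟩, hyx⟩ := LieIdeal.mem_map_of_surjective hs h1
  have h2 : x - y ∈ centr K 𝔤 W := by
    rw [← hπ, map_sub, sub_eq_zero]
    exact hyx.symm
  have h3 : x = y + (x - y) := by abel
  rw [h3]
  exact add_mem (LieSubmodule.mem_sup_left hy) (LieSubmodule.mem_sup_right h2)

end Family

/-- dual families for a symmetric bilinear form -/
theorem exists_dual {E : Type*} [AddCommGroup E] [Module K E] [FiniteDimensional K E]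
    (B : LinearMap.BilinForm K E) (hB : ∀ x y, B x y = B y x) :
    ∃ (n : ℕ) (e e' : Fin n → E), (∀ z, B (z - ∑ l, B z (e' l) • e l) = 0) ∧
      (∀ z, B (z - ∑ l, B z (e l) • e' l) = 0) ∧ (∀ k, B (e k) (e' k) = 1) ∧
      (n = 0 → B = 0) := by
  obtain ⟨U, hU⟩ := Submodule.exists_isCompl (LinearMap.ker B)
  have hU' := hU.symm
  have hBs : LinearMap.IsSymm B := ⟨fun x y => hB x y⟩
  have hnd : (B.restrict U).Nondegenerate := hBs.nondegenerate_restrict_of_isCompl_ker hU'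
  have hsym : (B.restrict U).IsSymm := ⟨fun x y => hB x y⟩
  let b := Module.finBasis K U
  let b' := (B.restrict U).dualBasis hnd b
  have hdec : ∀ z, ∃ u ∈ U, ∃ v, B v = 0 ∧ z = u + v := by
    intro z
    have : z ∈ U ⊔ LinearMap.ker B := by rw [hU'.sup_eq_top]; exact Submodule.mem_top
    obtain ⟨u, hu, v, hv, rfl⟩ := Submodule.mem_sup.mp this
    exact ⟨u, hu, v, hv, rfl⟩
  refine ⟨_, fun l => (b l : E), fun l => (b' l : E), ?_, ?_, ?_, ?_⟩
  · intro z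
    obtain ⟨u, hu, v, hv, rfl⟩ := hdec z
    have h1 : ∀ l, B (u + v) (b' l : E) = B u (b' l) := by
      intro l; rw [map_add, hv, add_zero]
    simp_rw [h1]
    have h2 : (⟨u, hu⟩ : U) = ∑ l, B u (b' l) • b l := by
      conv_lhs => rw [← b.sum_repr ⟨u, hu⟩]
      refine Finset.sum_congr rfl fun l _ => ?_
      congr 1
      have h3 := LinearMap.BilinForm.dualBasis_repr_apply hnd b' ⟨u, hu⟩ l
      rw [LinearMap.BilinForm.dualBasis_dualBasis hnd hsym b] at h3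
      exact h3
    have h4 : u = ∑ l, B u (b' l) • (b l : E) := by
      have := congrArg (Subtype.val) h2
      simpa using this
    have h5 : u + v - ∑ l, B u (b' l) • (b l : E) = v := by
      rw [← h4]; abel
    rw [h5, hv]
  · intro z
    obtain ⟨u, hu, v, hv, rfl⟩ := hdec z
    have h1 : ∀ l, B (u + v) (b l : E) = B u (b l) := by
      intro l; rw [map_add, hv, add_zero]
    simp_rw [h1]
    have h2 : (⟨u, hu⟩ : U) = ∑ l, B u (b l) • b' l := by
      conv_lhs => rw [← b'.sum_repr ⟨u, hu⟩]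
      refine Finset.sum_congr rfl fun l _ => ?_
      congr 1
      exact LinearMap.BilinForm.dualBasis_repr_apply hnd b ⟨u, hu⟩ l
    have h4 : u = ∑ l, B u (b l) • (b' l : E) := by
      have := congrArg (Subtype.val) h2
      simpa using this
    have h5 : u + v - ∑ l, B u (b l) • (b' l : E) = v := by
      rw [← h4]; abel
    rw [h5, hv]
  · intro k
    have := LinearMap.BilinForm.apply_dualBasis_right hnd hsym b k k
    rw [if_pos rfl] at this
    exact this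
  · intro hn
    have hU0 : U = ⊥ := by
      rw [← Submodule.finrank_eq_zero (R := K)]
      exact hn
    rw [hU0] at hU
    have h6 : LinearMap.ker B = ⊤ := by simpa using hU.sup_eq_top
    exact LinearMap.ker_eq_top.mp h6

/-- invariance of the dual families -/
theorem dual_invariance {n : ℕ} (e e' : Fin n → 𝔤) (B : LinearMap.BilinForm K 𝔤)
    (hsym : ∀ x y, B x y = B y x) (hinv : ∀ x y z, B ⁅x, y⁆ z = B x ⁅y, z⁆)
    (h1 : ∀ z, B (z - ∑ l, B z (e' l) • e l) = 0)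
    (h2 : ∀ z, B (z - ∑ l, B z (e l) • e' l) = 0)
    (hrad : ∀ z, B z = 0 → ∀ w : V, ⁅z, w⁆ = 0)
    (b : 𝔤 →ₗ[K] V) (hbrad : ∀ z, B z = 0 → b z = 0) (x : 𝔤) :
    ∑ k, (⁅⁅x, e k⁆, b (e' k)⁆ + ⁅e k, b ⁅x, e' k⁆⁆) = 0 := by
  have hexp1 : ∀ (z : 𝔤) (w : V), ⁅z, w⁆ = ∑ l, B z (e' l) • ⁅e l, w⁆ := by
    intro z w
    have h := hrad _ (h1 z) w
    rw [sub_lie, sub_eq_zero] at h
    rw [h, sum_lie]
    exact Finset.sum_congr rfl fun l _ => smul_lie _ _ _
  have hexp2 : ∀ z : 𝔤, b z = ∑ l, B z (e l) • b (e' l) := by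
    intro z
    have h := hbrad _ (h2 z)
    rw [map_sub, sub_eq_zero] at h
    rw [h, map_sum]
    exact Finset.sum_congr rfl fun l _ => map_smul _ _ _
  have hA : ∑ k, ⁅⁅x, e k⁆, b (e' k)⁆ = ∑ k, ∑ l, B ⁅x, e k⁆ (e' l) • ⁅e l, b (e' k)⁆ :=
    Finset.sum_congr rfl fun k _ => hexp1 _ _
  have hB : ∑ k, ⁅e k, b ⁅x, e' k⁆⁆ = ∑ k, ∑ l, B ⁅x, e' k⁆ (e l) • ⁅e k, b (e' l)⁆ := by
    refine Finset.sum_congr rfl fun k _ => ?_
    rw [hexp2, lie_sum]
    exact Finset.sum_congr rfl fun l _ => lie_smul _ _ _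
  rw [Finset.sum_add_distrib, hA, hB]
  rw [Finset.sum_comm (f := fun k l => B ⁅x, e' k⁆ (e l) • ⁅e k, b (e' l)⁆)]
  rw [← Finset.sum_add_distrib]
  refine Finset.sum_eq_zero fun k _ => ?_
  rw [← Finset.sum_add_distrib]
  refine Finset.sum_eq_zero fun l _ => ?_
  rw [← add_smul]
  have h3 : B ⁅x, e' l⁆ (e k) = - B ⁅x, e k⁆ (e' l) := by
    calc B ⁅x, e' l⁆ (e k) = - B ⁅e' l, x⁆ (e k) := by
          rw [← lie_skew, map_neg, LinearMap.neg_apply]
      _ = - B (e' l) ⁅x, e k⁆ := by rw [hinv]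
      _ = - B ⁅x, e k⁆ (e' l) := by rw [hsym]
  rw [h3, add_neg_cancel, zero_smul]

/-- Schur's lemma -/
theorem schur [LieModule.IsIrreducible K 𝔤 V] (T : Module.End K V)
    (hT : ∀ (x : 𝔤) (v : V), T ⁅x, v⁆ = ⁅x, T v⁆) (h0 : T ≠ 0) : Function.Bijective T := by
  let N : LieSubmodule K 𝔤 V :=
    { LinearMap.ker T with
      lie_mem := by
        intro x v hv
        have hv' : T v = 0 := hv
        change T ⁅x, v⁆ = 0
        rw [hT, hv', lie_zero] }
  have hN : N = ⊥ := by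
    rcases IsSimpleOrder.eq_bot_or_eq_top N with h | h
    · exact h
    · exfalso
      apply h0
      ext v
      have : v ∈ N := by rw [h]; exact LieSubmodule.mem_top v
      exact this
  have hinj : Function.Injective T := by
    rw [← LinearMap.ker_eq_bot, LinearMap.ker_eq_bot']
    intro v hv
    have h1 : v ∈ N := hv
    rw [hN, LieSubmodule.mem_bot] at h1
    exact h1
  exact ⟨hinj, LinearMap.injective_iff_surjective.mp hinj⟩

end LieAux

open LieAux LieModule in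
theorem lie_h1 {K 𝔤 : Type*} [Field K] [CharZero K] [LieRing 𝔤] [LieAlgebra K 𝔤]
    [FiniteDimensional K 𝔤] {ι : Type*} [Finite ι] (W : ι → Type*) [∀ i, AddCommGroup (W i)]
    [∀ i, Module K (W i)] [∀ i, LieRingModule 𝔤 (W i)] [∀ i, LieModule K 𝔤 (W i)]
    [∀ i, FiniteDimensional K (W i)] [∀ i, LieModule.IsIrreducible K 𝔤 (W i)] (j : ι)
    (x₀ : 𝔤) (hx₀ : ∀ w : W j, ⁅x₀, w⁆ = 0 → w = 0)
    (b : 𝔤 →ₗ[K] W j) (hb : ∀ x y, b ⁅x, y⁆ = ⁅x, b y⁆ - ⁅y, b x⁆)
    (hker : ∀ x, (∀ i, ∀ w : W i, ⁅x, w⁆ = 0) → b x = 0) :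
    ∃ w, ∀ x, b x = ⁅x, w⁆ := by
  by_cases hz : ∃ z ∈ centr K 𝔤 W, ∃ w : W j, ⁅z, w⁆ ≠ 0
  · obtain ⟨z, hz, w₁, hw₁⟩ := hz
    have hcomm : ∀ (x : 𝔤) (v : W j), ⁅z, ⁅x, v⁆⁆ = ⁅x, ⁅z, v⁆⁆ := by
      intro x v
      have h := hz x j v
      rw [lie_lie, sub_eq_zero] at h
      exact h.symm
    obtain ⟨hinj, hsurj⟩ := schur (V := W j) (toEnd K 𝔤 (W j) z) (fun x v => hcomm x v) (by
      intro h
      exact hw₁ (LinearMap.congr_fun h w₁))
    obtain ⟨w, hw⟩ := hsurj (b z)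
    refine ⟨w, fun x => hinj ?_⟩
    have h1 : b ⁅x, z⁆ = 0 := hker _ fun i w => hz x i w
    rw [hb, sub_eq_zero] at h1
    change ⁅z, b x⁆ = ⁅z, ⁅x, w⁆⁆
    rw [← h1, hcomm, ← hw]
    rfl
  · push Not at hz
    have hb0 : ∀ z ∈ centr K 𝔤 W, b z = 0 := by
      intro z hzc
      apply hx₀
      have h1 : b ⁅x₀, z⁆ = 0 := hker _ fun i w => hzc x₀ i w
      rw [hb, sub_eq_zero] at h1
      rw [h1, hz z hzc]
    have hideal : ∀ c : LieIdeal K 𝔤, (∀ x ∈ ⁅c, c⁆, ∀ w : W j, ⁅x, w⁆ = 0) →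
        ∀ x ∈ c, ∀ w : W j, ⁅x, w⁆ = 0 := by
      intro c hc x hx w
      obtain ⟨y, hy, z, hzc, rfl⟩ := (LieSubmodule.mem_sup _ _ _).mp (le_sup_centr W c hx)
      rw [add_lie, hc y hy, hz z hzc, add_zero]
    have hb1 : ∀ c : LieIdeal K 𝔤, (∀ x ∈ c, ∀ w : W j, ⁅x, w⁆ = 0) → ∀ x ∈ c, b x = 0 := by
      intro c hc x hx
      obtain ⟨y, hy, z, hzc, rfl⟩ := (LieSubmodule.mem_sup _ _ _).mp (le_sup_centr W c hx)
      rw [map_add, hb0 z hzc, add_zero]
      clear hx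
      rw [← LieSubmodule.mem_toSubmodule, LieSubmodule.lieIdeal_oper_eq_linear_span'] at hy
      induction hy using Submodule.span_induction with
      | mem s hs =>
        obtain ⟨x, hx, y, hy, rfl⟩ := hs
        rw [hb, hc x hx, hc y hy, sub_zero]
      | zero => exact map_zero b
      | add s t _ _ hs ht =>
        rw [map_add, hs, ht, add_zero]
      | smul c s _ hs => rw [map_smul, hs, smul_zero]
    set B : LinearMap.BilinForm K 𝔤 := traceForm K 𝔤 (W j) with hBdef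
    have hBsym : ∀ x y, B x y = B y x := traceForm_comm K 𝔤 (W j)
    have hBinv : ∀ x y z, B ⁅x, y⁆ z = B x ⁅y, z⁆ := traceForm_apply_lie_apply K 𝔤 (W j)
    let rad : LieIdeal K 𝔤 :=
      { LinearMap.ker B with
        lie_mem := by
          intro x y hy
          have hy' : B y = 0 := hy
          change B ⁅x, y⁆ = 0
          ext z
          rw [← lie_skew, map_neg, LinearMap.neg_apply, hBinv, hy']
          simp }
    have hradmem : ∀ x, x ∈ rad ↔ B x = 0 := fun x => Iff.rfl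
    have htf : traceForm K rad (W j) = 0 := by
      ext ⟨x, hx⟩ ⟨y, hy⟩
      change B x y = 0
      rw [(hradmem x).mp hx, LinearMap.zero_apply]
    have hnil : LieModule.IsNilpotent (LieAlgebra.derivedSeries K rad 1) (W j) :=
      isNilpotent_derivedSeries_of_traceForm_eq_zero htf
    have hrad1 : ∀ x ∈ ⁅rad, rad⁆, ∀ w : W j, ⁅x, w⁆ = 0 := by
      apply acts_trivially_of_nilpotent
      intro x hx
      refine (LieModule.isNilpotent_iff_forall' (R := K)).mp hnil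
        ⟨⟨x, LieSubmodule.lie_le_left rad rad hx⟩, ?_⟩
      rwa [LieIdeal.derivedSeries_eq_derivedSeriesOfIdeal_comap, LieIdeal.mem_comap]
    have hrad2 : ∀ x, B x = 0 → ∀ w : W j, ⁅x, w⁆ = 0 := fun x hx => hideal rad hrad1 x hx
    have hrad3 : ∀ x, B x = 0 → b x = 0 := fun x hx => hb1 rad (fun x hx => hrad2 x hx) x hx
    obtain ⟨n, e, e', h1, h2, h3, h4⟩ := exists_dual B hBsym
    set C : Module.End K (W j) := ∑ k, toEnd K 𝔤 (W j) (e k) * toEnd K 𝔤 (W j) (e' k) with hC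
    have hCapp : ∀ w, C w = ∑ k, ⁅e k, ⁅e' k, w⁆⁆ := by
      intro w
      rw [hC, LinearMap.sum_apply]
      rfl
    have hCcomm : ∀ (x : 𝔤) (v : W j), C ⁅x, v⁆ = ⁅x, C v⁆ := by
      intro x v
      have h := dual_invariance e e' B hBsym hBinv h1 h2 hrad2
        ((toEnd K 𝔤 (W j) : 𝔤 →ₗ[K] Module.End K (W j)).flip v) (fun z hz => hrad2 z hz v) x
      rw [hCapp, hCapp, lie_sum, eq_comm, ← sub_eq_zero, ← Finset.sum_sub_distrib, ← h]
      refine Finset.sum_congr rfl fun k _ => ?_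
      change _ = ⁅⁅x, e k⁆, ⁅e' k, v⁆⁆ + ⁅e k, ⁅⁅x, e' k⁆, v⁆⁆
      rw [lie_lie, lie_lie x (e' k), lie_sub]
      abel
    have hβ : ∀ x, ⁅x, ∑ k, ⁅e k, b (e' k)⁆⁆ = C (b x) := by
      intro x
      have h := dual_invariance e e' B hBsym hBinv h1 h2 hrad2 b hrad3 x
      rw [hCapp, lie_sum, ← sub_eq_zero, ← Finset.sum_sub_distrib, ← h]
      refine Finset.sum_congr rfl fun k _ => ?_
      rw [lie_lie, hb x (e' k), lie_sub]
      abel
    have hnt : Nontrivial (W j) := LieModule.nontrivial_of_isIrreducible K 𝔤 (W j)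
    have hn : n ≠ 0 := by
      intro hn
      have hB0 := h4 hn
      obtain ⟨w, hw⟩ := exists_ne (0 : W j)
      apply hw
      apply hx₀
      apply hrad2
      rw [hB0, LinearMap.zero_apply]
    have hC0 : C ≠ 0 := by
      intro h
      have htr : LinearMap.trace K (W j) C = n := by
        rw [hC, map_sum]
        have : ∀ k, LinearMap.trace K (W j) (toEnd K 𝔤 (W j) (e k) * toEnd K 𝔤 (W j) (e' k)) =
            1 := h3
        simp [this]
      rw [h, map_zero] at htr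
      exact hn (by exact_mod_cast htr.symm)
    obtain ⟨hinj, hsurj⟩ := schur (V := W j) C hCcomm hC0
    obtain ⟨w, hw⟩ := hsurj (∑ k, ⁅e k, b (e' k)⁆)
    refine ⟨w, fun x => hinj ?_⟩
    rw [hCcomm, hw, hβ]

namespace LieAux

section Series

variable {K 𝔤 V : Type*} [Field K] [LieRing 𝔤] [LieAlgebra K 𝔤] [AddCommGroup V] [Module K V]
    [LieRingModule 𝔤 V] [LieModule K 𝔤 V]

/-- the subquotient `A'/A` -/
abbrev SubQuot (A A' : LieSubmodule K 𝔤 V) : Type _ := ↥A' ⧸ (LieSubmodule.comap A'.incl A)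

theorem subQuot_mk_eq_zero (A A' : LieSubmodule K 𝔤 V) (v : A') :
    (LieSubmodule.Quotient.mk v : SubQuot A A') = 0 ↔ (v : V) ∈ A :=
  LieSubmodule.Quotient.mk_eq_zero'

theorem subQuot_irreducible (A A' : LieSubmodule K 𝔤 V) (h : A ⋖ A') :
    LieModule.IsIrreducible K 𝔤 (SubQuot A A') := by
  obtain ⟨hlt, hcov⟩ := h
  obtain ⟨v, hv, hv'⟩ := SetLike.exists_of_lt hlt
  have hnt : Nontrivial (SubQuot A A') := by
    refine ⟨⟨LieSubmodule.Quotient.mk ⟨v, hv⟩, 0, ?_⟩⟩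
    rw [Ne, subQuot_mk_eq_zero]
    exact hv'
  apply LieModule.IsIrreducible.mk
  intro N hN
  let N₁ : LieSubmodule K 𝔤 V :=
    { carrier := {v | ∃ h : v ∈ A', (LieSubmodule.Quotient.mk ⟨v, h⟩ : SubQuot A A') ∈ N}
      add_mem' := by
        rintro a b ⟨ha, ha'⟩ ⟨hb, hb'⟩
        exact ⟨add_mem ha hb, add_mem ha' hb'⟩
      zero_mem' := ⟨zero_mem _, zero_mem N⟩
      smul_mem' := by
        rintro c a ⟨ha, ha'⟩
        exact ⟨A'.smul_mem c ha, N.smul_mem c ha'⟩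
      lie_mem := by
        rintro x a ⟨ha, ha'⟩
        exact ⟨A'.lie_mem ha, N.lie_mem ha'⟩ }
  have hAN : A < N₁ := by
    refine lt_of_le_of_ne ?_ ?_
    · intro w hw
      refine ⟨hlt.le hw, ?_⟩
      have : (LieSubmodule.Quotient.mk ⟨w, hlt.le hw⟩ : SubQuot A A') = 0 :=
        (subQuot_mk_eq_zero _ _ _).mpr hw
      rw [this]
      exact zero_mem N
    · intro hEq
      apply hN
      rw [eq_bot_iff]
      intro q hq
      obtain ⟨⟨w, hw⟩, rfl⟩ := LieSubmodule.Quotient.surjective_mk' _ q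
      have h1 : w ∈ N₁ := ⟨hw, hq⟩
      rw [← hEq] at h1
      rw [LieSubmodule.mem_bot]
      exact (subQuot_mk_eq_zero _ _ _).mpr h1
  have hN₁ : N₁ ≤ A' := by
    rintro w ⟨hw, -⟩
    exact hw
  have hEq : N₁ = A' := by
    by_contra hne
    exact hcov hAN (lt_of_le_of_ne hN₁ hne)
  rw [eq_top_iff]
  intro q _
  obtain ⟨⟨w, hw⟩, rfl⟩ := LieSubmodule.Quotient.surjective_mk' _ q
  rw [← hEq] at hw
  obtain ⟨h1, h2⟩ := hw
  exact h2

end Series

end LieAux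

open LieAux LieModule in
theorem lie_bad {K 𝔤 V : Type*} [Field K] [CharZero K] [LieRing 𝔤] [LieAlgebra K 𝔤]
    [FiniteDimensional K 𝔤] [AddCommGroup V] [Module K V] [LieRingModule 𝔤 V] [LieModule K 𝔤 V]
    [FiniteDimensional K V] (x₀ : 𝔤) (hx₀ : ∀ v : V, ⁅x₀, v⁆ = 0 → v = 0) :
    ∃ 𝔨 : Submodule K 𝔤, ∀ c : 𝔤 →ₗ[K] V, (∀ x y, c ⁅x, y⁆ = ⁅x, c y⁆ - ⁅y, c x⁆) →
      (¬ ∃ u, ∀ x, c x = ⁅x, u⁆) → ∃ (F F' : Submodule K V) (u : V),
        (∀ x : 𝔤, ∀ v ∈ F, ⁅x, v⁆ ∈ F) ∧ (∀ x ∈ 𝔨, ∀ v ∈ F, ⁅x, v⁆ ∈ F') ∧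
        (∀ x, c x - ⁅x, u⁆ ∈ F) ∧ ∃ k ∈ 𝔨, c k - ⁅k, u⁆ ∉ F' := by
  have _i : WellFoundedLT (LieSubmodule K 𝔤 V) := LieSubmodule.wellFoundedLT_of_isArtinian K 𝔤 V
  obtain ⟨a, ha0, n, han, hcov⟩ :=
    exists_covBy_seq_of_wellFoundedLT_wellFoundedGT (LieSubmodule K 𝔤 V)
  have ha0' : a 0 = ⊥ := isMin_iff_eq_bot.mp ha0
  have han' : a n = ⊤ := isMax_iff_eq_top.mp han
  let 𝔨 : Submodule K 𝔤 :=
    { carrier := {x | ∀ i < n, ∀ v ∈ a (i + 1), ⁅x, v⁆ ∈ a i}
      add_mem' := by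
        intro x y hx hy i hi v hv
        rw [add_lie]
        exact add_mem (hx i hi v hv) (hy i hi v hv)
      zero_mem' := by
        intro i hi v hv
        rw [zero_lie]
        exact zero_mem _
      smul_mem' := by
        intro c x hx i hi v hv
        rw [smul_lie]
        exact (a i).smul_mem c (hx i hi v hv) }
  refine ⟨𝔨, fun c hc hni => ?_⟩
  classical
  let P : ℕ → Prop := fun i => ∃ u, ∀ x, c x - ⁅x, u⁆ ∈ a i
  have hPn : ∃ i, P i := ⟨n, 0, fun x => by rw [han']; exact LieSubmodule.mem_top _⟩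
  have hmin : ∀ m < Nat.find hPn, ¬ P m := fun m hm => Nat.find_min hPn hm
  have hfn : Nat.find hPn ≤ n :=
    Nat.find_min' hPn ⟨0, fun x => by rw [han']; exact LieSubmodule.mem_top _⟩
  have hf : P (Nat.find hPn) := Nat.find_spec hPn
  obtain ⟨l, hl⟩ : ∃ l, Nat.find hPn = l + 1 := by
    refine Nat.exists_eq_succ_of_ne_zero ?_
    intro h0
    rw [h0] at hf
    obtain ⟨u, hu⟩ := hf
    apply hni
    refine ⟨u, fun x => ?_⟩
    have := hu x
    rw [ha0', LieSubmodule.mem_bot, sub_eq_zero] at this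
    exact this
  rw [hl] at hf hfn hmin
  obtain ⟨u, hu⟩ := hf
  have hPl : ¬ P l := hmin l (Nat.lt_succ_self l)
  have hln : l < n := hfn
  refine ⟨(a (l + 1)).toSubmodule, (a l).toSubmodule, u, fun x v hv => (a (l + 1)).lie_mem hv,
    fun x hx v hv => hx l hln v hv, hu, ?_⟩
  by_contra hcon
  push Not at hcon
  apply hPl
  let W : Fin n → Type _ := fun i => SubQuot (a i) (a (i + 1))
  have hirr : ∀ i : Fin n, LieModule.IsIrreducible K 𝔤 (SubQuot (a i) (a (i + 1))) :=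
    fun i => subQuot_irreducible _ _ (hcov i i.2)
  have hfd : ∀ i : Fin n, FiniteDimensional K (SubQuot (a i) (a (i + 1))) := fun i =>
    Module.Finite.of_surjective
      (LieSubmodule.Quotient.mk' (LieSubmodule.comap (a (i + 1)).incl (a i)) :
        ↥(a (i + 1)) →ₗ[K] SubQuot (a i) (a (i + 1))) (LieSubmodule.Quotient.surjective_mk' _)
  have hcoc : ∀ x y, c ⁅x, y⁆ - ⁅⁅x, y⁆, u⁆ = ⁅x, c y - ⁅y, u⁆⁆ - ⁅y, c x - ⁅x, u⁆⁆ := by
    intro x y
    rw [hc, lie_lie, lie_sub, lie_sub]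
    abel
  let c' : 𝔤 →ₗ[K] ↥(a (l + 1)) :=
    { toFun := fun x => ⟨c x - ⁅x, u⁆, hu x⟩
      map_add' := by
        intro x y
        apply Subtype.ext
        change c (x + y) - ⁅x + y, u⁆ = (c x - ⁅x, u⁆) + (c y - ⁅y, u⁆)
        rw [map_add, add_lie]
        abel
      map_smul' := by
        intro r x
        apply Subtype.ext
        change c (r • x) - ⁅r • x, u⁆ = r • (c x - ⁅x, u⁆)
        rw [map_smul, smul_lie, smul_sub] }
  have hc' : ∀ x y, c' ⁅x, y⁆ = ⁅x, c' y⁆ - ⁅y, c' x⁆ := by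
    intro x y
    apply Subtype.ext
    exact hcoc x y
  let q : ↥(a (l + 1)) →ₗ[K] SubQuot (a l) (a (l + 1)) :=
    (LieSubmodule.Quotient.mk' (LieSubmodule.comap (a (l + 1)).incl (a l)) :
        ↥(a (l + 1)) →ₗ[K] SubQuot (a l) (a (l + 1)))
  have hq : ∀ (x : 𝔤) v, q ⁅x, v⁆ = ⁅x, q v⁆ := fun x v => rfl
  have hq0 : ∀ v, q v = 0 ↔ (v : V) ∈ a l := fun v => subQuot_mk_eq_zero _ _ v
  have hqs : Function.Surjective q := LieSubmodule.Quotient.surjective_mk' _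
  obtain ⟨w, hw⟩ := lie_h1 (K := K) (𝔤 := 𝔤) (fun i : Fin n => SubQuot (a i) (a (i + 1))) ⟨l, hln⟩
    x₀ (by
      intro w hw
      obtain ⟨v, rfl⟩ := hqs w
      have h1 : ⁅x₀, (v : V)⁆ ∈ a l := (hq0 ⁅x₀, v⁆).mp hw
      let T : ↥(a l) →ₗ[K] ↥(a l) := toEnd K 𝔤 ↥(a l) x₀
      have hT : Function.Injective T := by
        rw [← LinearMap.ker_eq_bot, LinearMap.ker_eq_bot']
        intro z hz
        apply Subtype.ext
        apply hx₀
        exact congrArg Subtype.val hz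
      obtain ⟨z, hz⟩ := (LinearMap.injective_iff_surjective.mp hT) ⟨⁅x₀, (v : V)⁆, h1⟩
      have h2 : ⁅x₀, (z : V)⁆ = ⁅x₀, (v : V)⁆ := congrArg Subtype.val hz
      have h3 : (v : V) - z = 0 := by
        apply hx₀
        rw [lie_sub, h2, sub_self]
      have h4 : (v : V) = z := sub_eq_zero.mp h3
      apply (hq0 v).mpr
      rw [h4]
      exact z.2) (q ∘ₗ c') (by
      intro x y
      change q (c' ⁅x, y⁆) = ⁅x, q (c' y)⁆ - ⁅y, q (c' x)⁆
      rw [hc', map_sub, hq, hq]) (by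
      intro x hx
      change q (c' x) = 0
      apply (hq0 _).mpr
      have hxk : x ∈ 𝔨 := by
        intro i hi v hv
        have h1 := hx ⟨i, hi⟩ (LieSubmodule.Quotient.mk ⟨v, hv⟩)
        exact (subQuot_mk_eq_zero (a i) (a (i + 1)) ⁅x, ⟨v, hv⟩⁆).mp h1
      exact hcon x hxk)
  obtain ⟨v, rfl⟩ := hqs w
  refine ⟨u + v, fun x => ?_⟩
  have h1 : q (c' x) = q ⁅x, v⁆ := hw x
  rw [← sub_eq_zero, ← map_sub, hq0] at h1
  have h2 : c x - ⁅x, u + (v : V)⁆ = (c x - ⁅x, u⁆) - ⁅x, (v : V)⁆ := by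
    rw [lie_add]
    abel
  rw [h2]
  exact h1

end Pool.Agent.Lib.MP_2f3286_ag.Full
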