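import Mathlib
import Pool.Agent.Lib.MP_2f3286_ag.Full.Asym
import Pool.Agent.Lib.MP_2f3286_ag.Full.Lie

/-!
# Pointwise solvable cocycles with bounded solutions are coboundaries on a subgroup of finite index

`E_main`: finitely many cocycles `c q` of a group `Γ` with values in `∏ i, ℤ_[p i] ^ d i` (distinct
primes `p i`) such that every `γ` is solved by some `q` and some point of a compact set; if some
`γ₁` has no power with a nonzero fixed vector, then one `q` and one point of the compact set solve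
all `γ` of a subgroup of finite index.
-/

open Matrix

namespace Pool.Agent.Lib.MP_2f3286_ag.Full
namespace EMain

attribute [local instance 100] LieRing.ofAssociativeRing

/-- concrete matrix form of `lie_bad` -/
theorem bad_data {K n Q : Type*} [Field K] [CharZero K] [Fintype n] [DecidableEq n] [Fintype Q]
    [DecidableEq Q] (𝔤 : Submodule K (Matrix (n ⊕ Q) (n ⊕ Q) K))
    (h1 : ∀ X ∈ 𝔤, ∀ Y ∈ 𝔤, X * Y - Y * X ∈ 𝔤) (h2 : ∀ X ∈ 𝔤, ∀ q b, X (Sum.inr q) b = 0)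
    (X0 : Matrix (n ⊕ Q) (n ⊕ Q) K) (hX0 : X0 ∈ 𝔤) (hdet : X0.toBlocks₁₁.det ≠ 0) :
    ∃ 𝔨 : Submodule K (Matrix (n ⊕ Q) (n ⊕ Q) K), 𝔨 ≤ 𝔤 ∧ ∀ q : Q,
      (¬ ∃ u : n → K, ∀ X ∈ 𝔤, (fun a => X (Sum.inl a) (Sum.inr q)) = X.toBlocks₁₁.mulVec u) →
      ∃ (F F' : Submodule K (n → K)) (u : n → K),
        (∀ X ∈ 𝔤, ∀ v ∈ F, X.toBlocks₁₁.mulVec v ∈ F) ∧
        (∀ X ∈ 𝔨, ∀ v ∈ F, X.toBlocks₁₁.mulVec v ∈ F') ∧
        (∀ X ∈ 𝔤, (fun a => X (Sum.inl a) (Sum.inr q)) - X.toBlocks₁₁.mulVec u ∈ F) ∧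
        ∃ X ∈ 𝔨, (fun a => X (Sum.inl a) (Sum.inr q)) - X.toBlocks₁₁.mulVec u ∉ F' := by
  have hb : ∀ X ∈ 𝔤, ∀ Y ∈ 𝔤, (X * Y).toBlocks₁₁ = X.toBlocks₁₁ * Y.toBlocks₁₁ := by
    intro X hX Y hY
    ext a b
    simp [Matrix.mul_apply, toBlocks₁₁, Fintype.sum_sum_type, h2 Y hY]
  have hv : ∀ X ∈ 𝔤, ∀ Y ∈ 𝔤, ∀ q, (fun a => (X * Y) (Sum.inl a) (Sum.inr q)) =
      X.toBlocks₁₁.mulVec (fun a => Y (Sum.inl a) (Sum.inr q)) := by
    intro X hX Y hY q
    ext a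
    simp [Matrix.mul_apply, toBlocks₁₁, Fintype.sum_sum_type, h2 Y hY, mulVec, dotProduct]
  let L : LieSubalgebra K (Matrix (n ⊕ Q) (n ⊕ Q) K) :=
    { 𝔤 with lie_mem' := fun {X Y} hX hY => h1 X hX Y hY }
  have hL : ∀ x : L, (x : Matrix (n ⊕ Q) (n ⊕ Q) K) ∈ 𝔤 := fun x => x.2
  let f : L →ₗ⁅K⁆ Module.End K (n → K) :=
    { toFun := fun x => Matrix.toLin' (x : Matrix (n ⊕ Q) (n ⊕ Q) K).toBlocks₁₁
      map_add' := fun x y => by
        ext v a
        simp [toBlocks₁₁, mulVec, dotProduct, Pi.single_apply]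
      map_smul' := fun t x => by
        ext v a
        simp [toBlocks₁₁, mulVec, dotProduct, Pi.single_apply]
      map_lie' := fun {x y} => by
        have e1 : (⁅(x : Matrix (n ⊕ Q) (n ⊕ Q) K), (y : Matrix (n ⊕ Q) (n ⊕ Q) K)⁆ :
            Matrix (n ⊕ Q) (n ⊕ Q) K).toBlocks₁₁ =
            (x : Matrix (n ⊕ Q) (n ⊕ Q) K).toBlocks₁₁ * (y : Matrix (n ⊕ Q) (n ⊕ Q) K).toBlocks₁₁ -
            (y : Matrix (n ⊕ Q) (n ⊕ Q) K).toBlocks₁₁ * (x : Matrix (n ⊕ Q) (n ⊕ Q) K).toBlocks₁₁ := by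
          rw [← hb _ (hL x) _ (hL y), ← hb _ (hL y) _ (hL x)]
          rfl
        show Matrix.toLin' ((⁅(x : Matrix (n ⊕ Q) (n ⊕ Q) K), (y : Matrix (n ⊕ Q) (n ⊕ Q) K)⁆ :
            Matrix (n ⊕ Q) (n ⊕ Q) K).toBlocks₁₁) = _
        rw [e1, map_sub, Matrix.toLin'_mul, Matrix.toLin'_mul]
        rfl }
  let _ : LieRingModule L (n → K) := LieRingModule.compLieHom (n → K) f
  have _ : LieModule K L (n → K) := LieModule.compLieHom (n → K) f
  have hbr : ∀ (x : L) (v : n → K), ⁅x, v⁆ = (x : Matrix (n ⊕ Q) (n ⊕ Q) K).toBlocks₁₁.mulVec v := by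
    intro x v
    rfl
  obtain ⟨𝔨, h𝔨⟩ := lie_bad (K := K) (𝔤 := L) (V := n → K) ⟨X0, hX0⟩ (by
    intro v hv
    rw [hbr] at hv
    by_contra hne
    exact hdet (Matrix.exists_mulVec_eq_zero_iff.mp ⟨v, hne, hv⟩))
  refine ⟨𝔨.map L.subtype, ?_, ?_⟩
  · rintro X ⟨x, hx, rfl⟩
    exact x.2
  intro q hq
  let c : L →ₗ[K] (n → K) :=
    { toFun := fun x a => (x : Matrix (n ⊕ Q) (n ⊕ Q) K) (Sum.inl a) (Sum.inr q)
      map_add' := fun x y => by ext a; simp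
      map_smul' := fun t x => by ext a; simp }
  obtain ⟨F, F', u, hF, hF', hc, k, hk, hk'⟩ := h𝔨 c (by
    intro x y
    have e1 := hv _ (hL x) _ (hL y) q
    have e2 := hv _ (hL y) _ (hL x) q
    rw [hbr, hbr]
    show (fun a => (((x : Matrix (n ⊕ Q) (n ⊕ Q) K) * (y : Matrix (n ⊕ Q) (n ⊕ Q) K) -
      (y : Matrix (n ⊕ Q) (n ⊕ Q) K) * (x : Matrix (n ⊕ Q) (n ⊕ Q) K)) (Sum.inl a) (Sum.inr q))) = _
    show _ = (x : Matrix (n ⊕ Q) (n ⊕ Q) K).toBlocks₁₁ *ᵥ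
      (fun a => (y : Matrix (n ⊕ Q) (n ⊕ Q) K) (Sum.inl a) (Sum.inr q)) - 
      (y : Matrix (n ⊕ Q) (n ⊕ Q) K).toBlocks₁₁ *ᵥ
      (fun a => (x : Matrix (n ⊕ Q) (n ⊕ Q) K) (Sum.inl a) (Sum.inr q))
    rw [← e1, ← e2]
    rfl) (by
    rintro ⟨u, hu⟩
    exact hq ⟨u, fun X hX => by
      have := hu ⟨X, hX⟩
      rw [hbr] at this
      exact this⟩)
  refine ⟨F, F', u, ?_, ?_, ?_, k, ⟨k, hk, rfl⟩, hk'⟩
  · intro X hX v hvF
    exact hF ⟨X, hX⟩ v hvF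
  · rintro X ⟨x, hx, rfl⟩ v hvF
    exact hF' x hx v hvF
  · intro X hX
    exact hc ⟨X, hX⟩

/-- reduction of matrices modulo `p ^ K` -/
noncomputable def red {p : ℕ} [Fact p.Prime] (N : Type*) [Fintype N] [DecidableEq N] (K : ℕ) :
    Matrix N N ℤ_[p] →+* Matrix N N (ZMod (p ^ K)) :=
  (PadicInt.toZModPow K).mapMatrix

theorem toZModPow_eq_iff {p : ℕ} [Fact p.Prime] (K : ℕ) (x y : ℤ_[p]) :
    PadicInt.toZModPow K x = PadicInt.toZModPow K y ↔ ‖x - y‖ ≤ (p : ℝ) ^ (-(K : ℤ)) := by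
  rw [← sub_eq_zero, ← map_sub, ← RingHom.mem_ker, PadicInt.ker_toZModPow,
    PadicInt.norm_le_pow_iff_mem_span_pow]

theorem red_eq_iff {p : ℕ} [Fact p.Prime] {N : Type*} [Fintype N] [DecidableEq N] (K : ℕ)
    (M M' : Matrix N N ℤ_[p]) :
    red N K M = red N K M' ↔ ∀ i j, ‖M i j - M' i j‖ ≤ (p : ℝ) ^ (-(K : ℤ)) := by
  unfold red
  constructor
  · intro h i j
    rw [← toZModPow_eq_iff]
    exact congrFun (congrFun h i) j
  · intro h
    ext i j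
    exact (toZModPow_eq_iff K _ _).mpr (h i j)

theorem red_eq_one_iff {p : ℕ} [Fact p.Prime] {N : Type*} [Fintype N] [DecidableEq N] (K : ℕ)
    (M : Matrix N N ℤ_[p]) :
    red N K M = 1 ↔ ∃ A : Matrix N N ℤ_[p], M = 1 + (p : ℤ_[p]) ^ K • A := by
  constructor
  · intro h
    rw [← map_one (red N K), red_eq_iff] at h
    have h' : ∀ i j, ∃ a : ℤ_[p], M i j - (1 : Matrix N N ℤ_[p]) i j = (p : ℤ_[p]) ^ K * a := by
      intro i j
      have := (PadicInt.norm_le_pow_iff_mem_span_pow _ _).mp (h i j)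
      exact Ideal.mem_span_singleton.mp this
    choose A hA using h'
    refine ⟨Matrix.of A, ?_⟩
    ext i j
    simp only [Matrix.add_apply, Matrix.smul_apply, Matrix.of_apply, smul_eq_mul, ← hA]
    ring
  · rintro ⟨A, rfl⟩
    rw [map_add, map_one]
    have : red N K ((p : ℤ_[p]) ^ K • A) = 0 := by
      rw [← map_zero (red N K), red_eq_iff]
      intro i j
      simp only [Matrix.smul_apply, smul_eq_mul, Matrix.zero_apply, sub_zero, norm_mul, norm_pow, PadicInt.norm_p]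
      calc ((p : ℝ)⁻¹) ^ K * ‖A i j‖ ≤ ((p : ℝ)⁻¹) ^ K * 1 := by
            gcongr
            exact PadicInt.norm_le_one _
        _ = (p : ℝ) ^ (-(K : ℤ)) := by
            rw [mul_one, inv_pow, _root_.zpow_neg, zpow_natCast]
    rw [this, add_zero]

/-- powers -/
theorem red_pow_eq_one {p : ℕ} [Fact p.Prime] {N : Type*} [Fintype N] [DecidableEq N] (K m : ℕ)
    (M : Matrix N N ℤ_[p]) (hM : ∃ A : Matrix N N ℤ_[p], M = 1 + (p : ℤ_[p]) ^ 2 • A) :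
    red N K (M ^ (p ^ K * m)) = 1 := by
  obtain ⟨A, rfl⟩ := hM
  obtain ⟨P, hP⟩ : ∃ P : Polynomial ℤ, (1 + (p : Polynomial ℤ) * Polynomial.X) ^ p ^ K - 1 ^ p ^ K =
      (p : Polynomial ℤ) ^ (K + 1) * P :=
    dvd_sub_pow_of_dvd_sub (R := Polynomial ℤ) (p := p) ⟨Polynomial.X, by ring⟩ K
  have h1 := congrArg (Polynomial.aeval ((p : ℤ_[p]) • A)) hP
  simp only [map_sub, map_pow, map_add, map_one, map_mul, map_natCast, Polynomial.aeval_X,
    one_pow] at h1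
  have h2 : (1 + (p : ℤ_[p]) ^ 2 • A) = 1 + ((p : ℕ) : Matrix N N ℤ_[p]) * ((p : ℤ_[p]) • A) := by
    rw [← nsmul_eq_mul, ← Nat.cast_smul_eq_nsmul ℤ_[p], smul_smul, pow_two]
  rw [pow_mul, h2, map_pow]
  have h3 : red N K ((1 + ((p : ℕ) : Matrix N N ℤ_[p]) * ((p : ℤ_[p]) • A)) ^ p ^ K) = 1 := by
    rw [red_eq_one_iff]
    refine ⟨(p : ℤ_[p]) • (Polynomial.aeval ((p : ℤ_[p]) • A) P), ?_⟩
    rw [sub_eq_iff_eq_add.mp h1, add_comm, smul_smul, ← pow_succ]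
    congr 1
    rw [← Nat.cast_pow, ← nsmul_eq_mul, ← Nat.cast_smul_eq_nsmul ℤ_[p], Nat.cast_pow]
  rw [h3, one_pow]

theorem exists_finiteIndex {ι Γ : Type*} [Finite ι] [Group Γ] (p : ι → ℕ)
    [∀ i, Fact (p i).Prime] (N : ι → Type*) [∀ i, Fintype (N i)] [∀ i, DecidableEq (N i)]
    (r : ∀ i, Γ →* Matrix (N i) (N i) ℤ_[p i]) :
    ∃ Γ' : Subgroup Γ, Γ'.FiniteIndex ∧ ∀ γ ∈ Γ', ∀ i, ∃ A : Matrix (N i) (N i) ℤ_[p i],
      r i γ = 1 + (p i : ℤ_[p i]) ^ 2 • A := by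
  classical
  let φ : ∀ i, Γ →* (Matrix (N i) (N i) (ZMod (p i ^ 2)))ˣ := fun i =>
    MonoidHom.toHomUnits ((red (p := p i) (N i) 2).toMonoidHom.comp (r i))
  have hfin : ∀ i, (φ i).ker.FiniteIndex := by
    intro i
    have : NeZero (p i ^ 2) := ⟨pow_ne_zero _ (Fact.out : (p i).Prime).ne_zero⟩
    infer_instance
  refine ⟨⨅ i, (φ i).ker, Subgroup.finiteIndex_iInf hfin, ?_⟩
  intro γ hγ i
  rw [Subgroup.mem_iInf] at hγ
  have h := hγ i
  rw [MonoidHom.mem_ker] at h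
  have h' := congrArg Units.val h
  exact (red_eq_one_iff 2 (r i γ)).mp h'

/-- chinese remainder theorem for elements of `Γ'` -/
theorem crt {ι Γ : Type*} [Fintype ι] [DecidableEq ι] [Group Γ] (p : ι → ℕ)
    [∀ i, Fact (p i).Prime] (hp : Function.Injective p) (N : ι → Type*) [∀ i, Fintype (N i)]
    [∀ i, DecidableEq (N i)] (r : ∀ i, Γ →* Matrix (N i) (N i) ℤ_[p i]) 
    (hr : ∀ γ i, ∃ A : Matrix (N i) (N i) ℤ_[p i], r i γ = 1 + (p i : ℤ_[p i]) ^ 2 • A)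
    (γ : ι → Γ) (K : ℕ) : ∃ δ : Γ, ∀ i, red (N i) K (r i δ) = red (N i) K (r i (γ i)) := by
  have hexp : ∀ a : ι, ∃ e m : ℕ, e = 1 + p a ^ K * m ∧ ∀ i, i ≠ a → p i ^ K ∣ e := by
    intro a
    have hco : Nat.Coprime (p a ^ K) (∏ i ∈ Finset.univ.erase a, p i ^ K) := by
      rw [Nat.coprime_prod_right_iff]
      intro i hi
      apply Nat.Coprime.pow
      rw [Nat.coprime_primes Fact.out Fact.out]
      intro h
      exact (Finset.ne_of_mem_erase hi) (hp h).symm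
    obtain ⟨k, hk1, hk2⟩ := Nat.chineseRemainder hco 1 0
    have hk3 : ∀ i, i ≠ a → p i ^ K ∣ k := by
      intro i hi
      exact (Finset.dvd_prod_of_mem _ (Finset.mem_erase.mpr ⟨hi, Finset.mem_univ i⟩)).trans
        ((Nat.modEq_zero_iff_dvd).mp hk2)
    -- make it at least 1
    refine ⟨k + (p a ^ K) * (∏ i ∈ Finset.univ.erase a, p i ^ K), 
      (k + (p a ^ K) * (∏ i ∈ Finset.univ.erase a, p i ^ K) - 1) / p a ^ K, ?_, ?_⟩
    · have hpos : 1 ≤ k + (p a ^ K) * (∏ i ∈ Finset.univ.erase a, p i ^ K) := by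
        have h1 : 0 < p a ^ K := pow_pos (Fact.out : (p a).Prime).pos _
        have h2 : 0 < ∏ i ∈ Finset.univ.erase a, p i ^ K :=
          Finset.prod_pos fun i _ => pow_pos (Fact.out : (p i).Prime).pos _
        have := Nat.mul_pos h1 h2
        omega
      have hd : p a ^ K ∣ k + (p a ^ K) * (∏ i ∈ Finset.univ.erase a, p i ^ K) - 1 := by
        rw [← Nat.modEq_iff_dvd' hpos]
        have : k + (p a ^ K) * (∏ i ∈ Finset.univ.erase a, p i ^ K) ≡ 1 + 0 [MOD p a ^ K] :=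
          hk1.add ((Nat.modEq_zero_iff_dvd).mpr (dvd_mul_right _ _))
        exact this.symm
      rw [Nat.mul_div_cancel' hd]
      omega
    · intro i hi
      refine dvd_add (hk3 i hi) (dvd_mul_of_dvd_right ?_ _)
      exact Finset.dvd_prod_of_mem _ (Finset.mem_erase.mpr ⟨hi, Finset.mem_univ i⟩)
  choose e m he hdiv using hexp
  have hmain : ∀ s : Finset ι, ∃ δ : Γ, (∀ i ∈ s, red (N i) K (r i δ) = red (N i) K (r i (γ i))) ∧
      ∀ i ∉ s, red (N i) K (r i δ) = 1 := by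
    intro s
    induction s using Finset.induction with
    | empty => exact ⟨1, by simp, by simp⟩
    | insert a s ha ih =>
      obtain ⟨δ, h1, h2⟩ := ih
      have hoff : ∀ i, i ≠ a → red (N i) K (r i (γ a ^ e a)) = 1 := by
        intro i hi
        obtain ⟨k, hk⟩ := hdiv a i hi
        rw [map_pow, hk]
        exact red_pow_eq_one K k _ (hr _ _)
      refine ⟨δ * γ a ^ e a, ?_, ?_⟩
      · intro i hi
        rw [map_mul, map_mul]
        rcases Finset.mem_insert.mp hi with rfl | hi'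
        · rw [h2 i ha, one_mul, he, pow_add, pow_one, map_mul, map_mul, map_pow,
            red_pow_eq_one K _ _ (hr _ _), mul_one]
        · have hne : i ≠ a := fun h => ha (h ▸ hi')
          rw [hoff i hne, mul_one, h1 i hi']
      · intro i hi
        rw [Finset.mem_insert, not_or] at hi
        rw [map_mul, map_mul, hoff i hi.1, mul_one, h2 i hi.2]
  obtain ⟨δ, h, -⟩ := hmain Finset.univ
  exact ⟨δ, fun i => h i (Finset.mem_univ i)⟩

/-- approximate solvability at one prime -/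
theorem approx_one {p : ℕ} [Fact p.Prime] {n : Type*} [Fintype n]
    (m R : ℕ) (M : n → n → ℤ_[p]) (v : n → ℤ_[p]) (X : n → n → ℚ_[p]) (y : n → ℚ_[p])
    (t : n → ℤ_[p]) (h : ∀ a, v a = ∑ b, M a b * t b)
    (h1 : ∀ a b, ‖((M a b : ℤ_[p]) : ℚ_[p]) - (p : ℚ_[p]) ^ m * X a b‖ ≤ (p : ℝ) ^ (-((m : ℤ) + R)))
    (h2 : ∀ a, ‖((v a : ℤ_[p]) : ℚ_[p]) - (p : ℚ_[p]) ^ m * y a‖ ≤ (p : ℝ) ^ (-((m : ℤ) + R)))
    (a : n) : ‖y a - ∑ b, X a b * (t b : ℚ_[p])‖ ≤ (p : ℝ) ^ (-(R : ℤ)) := by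
  have hp0 : (0 : ℝ) < p := by exact_mod_cast (Fact.out : p.Prime).pos
  have hv : ((v a : ℤ_[p]) : ℚ_[p]) = ∑ b, ((M a b : ℤ_[p]) : ℚ_[p]) * (t b : ℚ_[p]) := by
    rw [h a, PadicInt.coe_sum]
    exact Finset.sum_congr rfl fun b _ => PadicInt.coe_mul _ _
  have e : (p : ℚ_[p]) ^ m * (y a - ∑ b, X a b * (t b : ℚ_[p])) =
      ∑ b, (((M a b : ℤ_[p]) : ℚ_[p]) - (p : ℚ_[p]) ^ m * X a b) * (t b : ℚ_[p]) -
        (((v a : ℤ_[p]) : ℚ_[p]) - (p : ℚ_[p]) ^ m * y a) := by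
    simp only [sub_mul, Finset.sum_sub_distrib, ← hv, mul_assoc, ← Finset.mul_sum]
    ring
  have hn : ‖(p : ℚ_[p]) ^ m * (y a - ∑ b, X a b * (t b : ℚ_[p]))‖ ≤
      (p : ℝ) ^ (-((m : ℤ) + R)) := by
    rw [e, sub_eq_add_neg]
    refine (IsUltrametricDist.norm_add_le_max _ _).trans (max_le ?_ (by rw [norm_neg]; exact h2 a))
    refine IsUltrametricDist.norm_sum_le_of_forall_le_of_nonneg (by positivity) ?_
    intro b _
    rw [norm_mul]
    calc _ ≤ (p : ℝ) ^ (-((m : ℤ) + R)) * 1 := by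
          gcongr
          · exact h1 a b
          · exact PadicInt.norm_le_one (t b)
      _ = _ := mul_one _
  rw [norm_mul, norm_pow, Padic.norm_p] at hn
  have : ((p : ℝ)⁻¹) ^ m = (p : ℝ) ^ (-(m : ℤ)) := by
    rw [inv_pow, _root_.zpow_neg, zpow_natCast]
  rw [this, neg_add, zpow_add₀ hp0.ne'] at hn
  exact le_of_mul_le_mul_left hn (by positivity)

theorem star {ι Γ Q : Type*} [Fintype ι] [DecidableEq ι] [Group Γ] [Fintype Q] [DecidableEq Q]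
    (p : ι → ℕ) [∀ i, Fact (p i).Prime] (hp : Function.Injective p) (d : ι → ℕ)
    (r : ∀ i, Γ →* Matrix (Fin (d i) ⊕ Q) (Fin (d i) ⊕ Q) ℤ_[p i]) 
    (hr : ∀ γ i, ∃ A : Matrix (Fin (d i) ⊕ Q) (Fin (d i) ⊕ Q) ℤ_[p i],
      r i γ = 1 + (p i : ℤ_[p i]) ^ 2 • A)
    (𝒯 : Set (∀ i, Fin (d i) → ℤ_[p i])) (h𝒯 : IsCompact 𝒯)
    (hB : ∀ γ, ∃ q, ∃ t ∈ 𝒯, ∀ i a, (r i γ - 1 : Matrix _ _ ℤ_[p i]) (Sum.inl a) (Sum.inr q) =
      ∑ b, (r i γ - 1 : Matrix _ _ ℤ_[p i]) (Sum.inl a) (Sum.inl b) * t i b)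
    (X : ∀ i, Matrix (Fin (d i) ⊕ Q) (Fin (d i) ⊕ Q) ℚ_[p i])
    (hX : ∀ i, ∀ R : ℕ, ∃ (m : ℕ) (γ : Γ), R ≤ m ∧ ∀ x y,
        ‖(((r i γ - 1 : Matrix _ _ ℤ_[p i]) x y : ℤ_[p i]) : ℚ_[p i]) -
          (p i : ℚ_[p i]) ^ m * X i x y‖ ≤ (p i : ℝ) ^ (-((m : ℤ) + R))) :
    ∃ q, ∃ t ∈ 𝒯, ∀ i a, X i (Sum.inl a) (Sum.inr q) =
      ∑ b, X i (Sum.inl a) (Sum.inl b) * (t i b : ℚ_[p i]) := by
  have step1 : ∀ R : ℕ, ∃ q, ∃ t ∈ 𝒯, ∀ i a, ‖X i (Sum.inl a) (Sum.inr q) -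
      ∑ b, X i (Sum.inl a) (Sum.inl b) * (t i b : ℚ_[p i])‖ ≤ (p i : ℝ) ^ (-(R : ℤ)) := by
    intro R
    choose m γ hm hγ using fun i => hX i R
    obtain ⟨δ, hδ⟩ := crt p hp _ r hr γ (Finset.univ.sup fun i => m i + R)
    obtain ⟨q, t, ht, h⟩ := hB δ
    refine ⟨q, t, ht, fun i a => ?_⟩
    have hp0 : (0 : ℝ) < p i := by exact_mod_cast (Fact.out : (p i).Prime).pos
    have hp1 : (1 : ℝ) ≤ p i := by exact_mod_cast (Fact.out : (p i).Prime).one_lt.le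
    have hE : ∀ x y, ‖(((r i δ - 1 : Matrix _ _ ℤ_[p i]) x y : ℤ_[p i]) : ℚ_[p i]) -
          (p i : ℚ_[p i]) ^ m i * X i x y‖ ≤ (p i : ℝ) ^ (-((m i : ℤ) + R)) := by
      intro x y
      have h1 := (red_eq_iff _ _ _).mp (hδ i) x y
      have h2 : (p i : ℝ) ^ (-((Finset.univ.sup fun i => m i + R : ℕ) : ℤ)) ≤
          (p i : ℝ) ^ (-((m i : ℤ) + R)) := by
        apply zpow_le_zpow_right₀ hp1
        have := Finset.le_sup (f := fun i => m i + R) (Finset.mem_univ i)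
        have h3 : ((m i + R : ℕ) : ℤ) ≤ ((Finset.univ.sup fun i => m i + R : ℕ) : ℤ) := by
          exact_mod_cast this
        push_cast at h3
        linarith
      have e : (((r i δ - 1 : Matrix _ _ ℤ_[p i]) x y : ℤ_[p i]) : ℚ_[p i]) -
          (p i : ℚ_[p i]) ^ m i * X i x y = ((r i δ x y - r i (γ i) x y : ℤ_[p i]) : ℚ_[p i]) +
          ((((r i (γ i) - 1 : Matrix _ _ ℤ_[p i]) x y : ℤ_[p i]) : ℚ_[p i]) -
          (p i : ℚ_[p i]) ^ m i * X i x y) := by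
        rw [Matrix.sub_apply, Matrix.sub_apply]
        push_cast
        ring
      rw [e]
      refine (IsUltrametricDist.norm_add_le_max _ _).trans (max_le ?_ (hγ i x y))
      exact (h1.trans h2)
    exact approx_one (m i) R (fun a b => (r i δ - 1 : Matrix _ _ ℤ_[p i]) (Sum.inl a) (Sum.inl b))
      (fun a => (r i δ - 1 : Matrix _ _ ℤ_[p i]) (Sum.inl a) (Sum.inr q))
      (fun a b => X i (Sum.inl a) (Sum.inl b)) (fun a => X i (Sum.inl a) (Sum.inr q)) (t i)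
      (fun a => h i a) (fun a b => hE _ _) (fun a => hE _ _) a
  let S : Q → ℕ → Set (∀ i, Fin (d i) → ℤ_[p i]) := fun q R => {t | t ∈ 𝒯 ∧ ∀ i a,
    ‖X i (Sum.inl a) (Sum.inr q) -
      ∑ b, X i (Sum.inl a) (Sum.inl b) * (t i b : ℚ_[p i])‖ ≤ (p i : ℝ) ^ (-(R : ℤ))}
  have hmono : ∀ q, Antitone (S q) := by
    intro q R R' hRR' t ht
    refine ⟨ht.1, fun i a => (ht.2 i a).trans ?_⟩
    have hp1 : (1 : ℝ) ≤ p i := by exact_mod_cast (Fact.out : (p i).Prime).one_lt.le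
    apply zpow_le_zpow_right₀ hp1
    have : (R : ℤ) ≤ R' := by exact_mod_cast hRR'
    linarith
  have hclosed : ∀ q R, IsClosed (S q R) := by
    intro q R
    have : S q R = 𝒯 ∩ ⋂ i, ⋂ a, {t | ‖X i (Sum.inl a) (Sum.inr q) -
      ∑ b, X i (Sum.inl a) (Sum.inl b) * (t i b : ℚ_[p i])‖ ≤ (p i : ℝ) ^ (-(R : ℤ))} := by
      ext t
      simp [S]
    rw [this]
    refine h𝒯.isClosed.inter (isClosed_iInter fun i => isClosed_iInter fun a => ?_)
    apply isClosed_le _ continuous_const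
    refine Continuous.norm (continuous_const.sub ?_)
    refine continuous_finsetSum _ fun b _ => continuous_const.mul ?_
    exact continuous_subtype_val.comp ((continuous_apply b).comp (continuous_apply i))
  have hq : ∃ q, ∀ R, (S q R).Nonempty := by
    by_contra hne
    push Not at hne
    choose Rq hRq using hne
    obtain ⟨q, t, ht, h⟩ := step1 (Finset.univ.sup Rq)
    have hmem : t ∈ S q (Finset.univ.sup Rq) := ⟨ht, h⟩
    have := hmono q (Finset.le_sup (f := Rq) (Finset.mem_univ q)) hmem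
    rw [hRq q] at this
    exact this
  obtain ⟨q, hq⟩ := hq
  obtain ⟨t, ht⟩ := IsCompact.nonempty_iInter_of_sequence_nonempty_isCompact_isClosed (S q)
    (fun i => hmono q (Nat.le_succ i)) hq
    (h𝒯.of_isClosed_subset (hclosed q 0) (fun t ht => ht.1)) (hclosed q)
  rw [Set.mem_iInter] at ht
  refine ⟨q, t, (ht 0).1, fun i a => ?_⟩
  have hp0 : (0 : ℝ) < p i := by exact_mod_cast (Fact.out : (p i).Prime).pos
  have hp1 : (1 : ℝ) < p i := by exact_mod_cast (Fact.out : (p i).Prime).one_lt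
  rw [← sub_eq_zero, ← norm_eq_zero]
  refine le_antisymm ?_ (norm_nonneg _)
  have hlim : Filter.Tendsto (fun R : ℕ => (p i : ℝ) ^ (-(R : ℤ))) Filter.atTop (nhds 0) := by
    have := tendsto_pow_atTop_nhds_zero_of_lt_one (r := ((p i : ℝ))⁻¹) (by positivity)
      (inv_lt_one_of_one_lt₀ hp1)
    refine this.congr fun R => ?_
    rw [inv_pow, _root_.zpow_neg, zpow_natCast]
  exact ge_of_tendsto' hlim fun R => (ht R).2 i a

/-- the contradiction at one prime -/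
theorem contra {p : ℕ} [Fact p.Prime] {n : Type*} [Fintype n] [DecidableEq n]
    (k x : Matrix n n ℚ_[p]) (vk vx u : n → ℚ_[p]) (F F' : Submodule ℚ_[p] (n → ℚ_[p]))
    (hkF : ∀ v ∈ F, k.mulVec v ∈ F) (hxF : ∀ v ∈ F, x.mulVec v ∈ F)
    (hkF' : ∀ v ∈ F, k.mulVec v ∈ F') (hvk : vk - k.mulVec u ∈ F) (hvx : vx - x.mulVec u ∈ F)
    (hnot : vk - k.mulVec u ∉ F') (S : Set ℕ) (hS : S.Infinite)
    (hdet : ∀ m ∈ S, (k + (p : ℚ_[p]) ^ m • x).det ≠ 0)
    (ht : ∀ m ∈ S, ∃ t : n → ℤ_[p],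
      (k + (p : ℚ_[p]) ^ m • x).mulVec (fun b => (t b : ℚ_[p])) = vk + (p : ℚ_[p]) ^ m • vx) :
    False := by
  have hp0 : (0 : ℝ) < p := by exact_mod_cast (Fact.out : p.Prime).pos
  have hp1 : (1 : ℝ) < p := by exact_mod_cast (Fact.out : p.Prime).one_lt
  apply hnot
  have hcl : IsClosed (F' : Set (n → ℚ_[p])) := F'.closed_of_finiteDimensional
  rw [← SetLike.mem_coe, ← hcl.closure_eq, Metric.mem_closure_iff]
  intro ε hε
  let f := (Matrix.toLin' x).toContinuousLinearMap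
  set C : ℝ := ‖f‖ + ‖vx‖ + 1 with hC
  have hCpos : 0 < C := by positivity
  obtain ⟨N, hN⟩ := exists_pow_lt_of_lt_one (div_pos hε hCpos) (inv_lt_one_of_one_lt₀ hp1)
  obtain ⟨m, hmS, hmN⟩ := hS.exists_gt N
  obtain ⟨t, ht⟩ := ht m hmS
  set T : n → ℚ_[p] := fun b => (t b : ℚ_[p]) with hT
  have hTnorm : ‖T‖ ≤ 1 := by
    rw [pi_norm_le_iff_of_nonneg zero_le_one]
    intro b
    exact PadicInt.norm_le_one (t b)
  set A := k + (p : ℚ_[p]) ^ m • x with hA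
  have hAF : ∀ v ∈ F, A.mulVec v ∈ F := by
    intro v hv
    rw [hA, add_mulVec, smul_mulVec]
    exact F.add_mem (hkF v hv) (F.smul_mem _ (hxF v hv))
  have hAw : A.mulVec (T - u) ∈ F := by
    rw [mulVec_sub, ht, hA, add_mulVec, smul_mulVec]
    have : vk + (p : ℚ_[p]) ^ m • vx - (k *ᵥ u + (p : ℚ_[p]) ^ m • x *ᵥ u) =
      (vk - k.mulVec u) + (p : ℚ_[p]) ^ m • (vx - x.mulVec u) := by
      rw [smul_sub]; abel
    rw [this]
    exact F.add_mem hvk (F.smul_mem _ hvx)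
  have hinj : Function.Injective (A.mulVec) := by
    intro a b hab
    by_contra hne
    exact hdet m hmS (Matrix.exists_mulVec_eq_zero_iff.mp ⟨a - b, sub_ne_zero.mpr hne, by
      rw [mulVec_sub, hab, sub_self]⟩)
  have hw : T - u ∈ F := by
    let g : F →ₗ[ℚ_[p]] F := (Matrix.toLin' A).restrict (fun v hv => hAF v hv)
    have hginj : Function.Injective g := by
      intro a b hab
      have := congrArg Subtype.val hab
      exact Subtype.ext (hinj this)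
    have hgsurj : Function.Surjective g := LinearMap.injective_iff_surjective.mp hginj
    obtain ⟨w, hw⟩ := hgsurj ⟨_, hAw⟩
    have := congrArg Subtype.val hw
    have h2 : (w : n → ℚ_[p]) = T - u := hinj this
    rw [← h2]
    exact w.2
  refine ⟨k.mulVec (T - u), hkF' _ hw, ?_⟩
  have hdiff : (vk - k.mulVec u) - k.mulVec (T - u) = (p : ℚ_[p]) ^ m • (x.mulVec T - vx) := by
    have h1 := ht
    rw [hA, add_mulVec, smul_mulVec] at h1
    rw [mulVec_sub, smul_sub]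
    have h2 : vk = k *ᵥ T + (p : ℚ_[p]) ^ m • x *ᵥ T - (p : ℚ_[p]) ^ m • vx := by
      rw [h1]; abel
    rw [h2]
    abel
  rw [dist_eq_norm, hdiff, norm_smul, norm_pow, Padic.norm_p]
  have hb : ‖x.mulVec T - vx‖ ≤ C := by
    have h1 : ‖x.mulVec T‖ ≤ ‖f‖ * 1 := by
      have h2 := f.le_opNorm T
      refine h2.trans ?_
      gcongr
    calc ‖x.mulVec T - vx‖ ≤ ‖x.mulVec T‖ + ‖vx‖ := norm_sub_le _ _
      _ ≤ C := by rw [hC]; linarith
  have hm : ((p : ℝ)⁻¹) ^ m ≤ ((p : ℝ)⁻¹) ^ N :=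
    pow_le_pow_of_le_one (by positivity) (inv_le_one_of_one_le₀ hp1.le) hmN.le
  calc ((p : ℝ)⁻¹) ^ m * ‖x.mulVec T - vx‖ ≤ ((p : ℝ)⁻¹) ^ N * C := by gcongr
    _ < ε / C * C := by gcongr
    _ = ε := by field_simp

/-- finitely many exceptional exponents -/
theorem det_finite {p : ℕ} [Fact p.Prime] {n : Type*} [Fintype n] [DecidableEq n]
    (k x : Matrix n n ℚ_[p]) (hx : x.det ≠ 0) :
    {m : ℕ | (k + (p : ℚ_[p]) ^ m • x).det = 0}.Finite := by
  classical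
  have hinj : Function.Injective (fun m : ℕ => (p : ℚ_[p]) ^ m) := by
    intro a b hab
    have h1 := congrArg norm hab
    simp only [norm_pow, Padic.norm_p] at h1
    have hp1 : (1 : ℝ) < p := by exact_mod_cast (Fact.out : p.Prime).one_lt
    rw [inv_pow, inv_pow, _root_.inv_inj] at h1
    exact pow_right_injective₀ (by linarith) hp1.ne' h1
  -- the polynomial `det (k + T x)`
  let P : Polynomial ℚ_[p] := (k.map Polynomial.C + (Polynomial.X : Polynomial ℚ_[p]) • x.map Polynomial.C).det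
  have heval : ∀ c : ℚ_[p], P.eval c = (k + c • x).det := by
    intro c
    show Polynomial.evalRingHom c (det _) = _
    rw [RingHom.map_det]
    congr 1
    ext i j
    simp only [RingHom.mapMatrix_apply, Matrix.map_apply, Matrix.add_apply, Matrix.smul_apply,
      smul_eq_mul, Polynomial.coe_evalRingHom, Polynomial.eval_add, Polynomial.eval_mul,
      Polynomial.eval_C, Polynomial.eval_X]
  have hP : P ≠ 0 := by
    intro h0
    -- det (c • k + x) = 0 for all nonzero c, hence the constant term is zero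
    let R : Polynomial ℚ_[p] := ((Polynomial.X : Polynomial ℚ_[p]) • k.map Polynomial.C + x.map Polynomial.C).det
    have hRe : ∀ c : ℚ_[p], R.eval c = (c • k + x).det := by
      intro c
      show Polynomial.evalRingHom c (det _) = _
      rw [RingHom.map_det]
      congr 1
      ext i j
      simp only [RingHom.mapMatrix_apply, Matrix.map_apply, Matrix.add_apply, Matrix.smul_apply,
      smul_eq_mul, Polynomial.coe_evalRingHom, Polynomial.eval_add, Polynomial.eval_mul,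
      Polynomial.eval_C, Polynomial.eval_X]
    have hR0 : ∀ c : ℚ_[p], c ≠ 0 → R.eval c = 0 := by
      intro c hc
      rw [hRe]
      have : c • k + x = c • (k + c⁻¹ • x) := by
        rw [smul_add, smul_smul, mul_inv_cancel₀ hc, one_smul]
      rw [this, det_smul, ← heval, h0]
      simp
    have hR : R = 0 := by
      apply Polynomial.eq_zero_of_infinite_isRoot
      apply Set.Infinite.mono (s := {c : ℚ_[p] | c ≠ 0})
      · intro c hc
        exact hR0 c hc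
      · have : ({0}ᶜ : Set ℚ_[p]).Infinite := (Set.finite_singleton 0).infinite_compl
        exact this
    apply hx
    have := hRe 0
    rw [hR] at this
    simpa using this.symm
  refine Set.Finite.of_finite_image (f := fun m : ℕ => (p : ℚ_[p]) ^ m) ?_ hinj.injOn
  refine (P.rootSet_finite ℚ_[p]).subset ?_
  rintro _ ⟨m, hm, rfl⟩
  rw [Polynomial.mem_rootSet]
  refine ⟨hP, ?_⟩
  rw [Polynomial.coe_aeval_eq_eval, heval]
  exact hm

theorem exists_avoid {K M V ι : Type*} [Field K] [Infinite K] [AddCommGroup M] [Module K M]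
    [AddCommGroup V] [Module K V] [Finite ι] (𝔨 : Submodule K M) (L : ι → M →ₗ[K] V)
    (F : ι → Submodule K V) (h : ∀ i, ∃ k ∈ 𝔨, L i k ∉ F i) : ∃ k ∈ 𝔨, ∀ i, L i k ∉ F i := by
  by_contra hcon
  push Not at hcon
  obtain ⟨i, hi⟩ := Subspace.exists_eq_top_of_iUnion_eq_univ (k := K) (E := 𝔨)
    (p := fun i => ((F i).comap (L i)).comap 𝔨.subtype) (by
      rw [Set.eq_univ_iff_forall]
      intro k
      obtain ⟨i, hi⟩ := hcon k k.2
      exact Set.mem_iUnion.mpr ⟨i, hi⟩)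
  obtain ⟨k, hk, hk'⟩ := h i
  have : (⟨k, hk⟩ : 𝔨) ∈ ((F i).comap (L i)).comap 𝔨.subtype := by
    rw [hi]; trivial
  exact hk' this

/-- a matrix congruent to one has nonzero determinant -/
theorem det_ne_zero_of_congr {p : ℕ} [Fact p.Prime] {n : Type*} [Fintype n] [DecidableEq n]
    (B : Matrix n n ℤ_[p]) : (1 + (p : ℤ_[p]) • B).det ≠ 0 := by
  intro h
  have h1 := congrArg (PadicInt.toZMod (p := p)) h
  rw [RingHom.map_det, map_zero] at h1
  have h2 : (PadicInt.toZMod (p := p)).mapMatrix (1 + (p : ℤ_[p]) • B) = 1 := by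
    ext i j
    simp [Matrix.one_apply, apply_ite]
  rw [h2, det_one] at h1
  exact one_ne_zero h1

/-- the block matrix -/
noncomputable def bigRep {R Γ Q n : Type*} [CommRing R] [Group Γ] [Fintype n] [DecidableEq n]
    [Fintype Q] [DecidableEq Q] (ρ : Γ →* Matrix n n R) (c : Q → Γ → n → R)
    (hc : ∀ q γ δ, c q (γ * δ) = c q γ + (ρ γ).mulVec (c q δ)) :
    Γ →* Matrix (n ⊕ Q) (n ⊕ Q) R where
  toFun γ := fromBlocks (ρ γ) (Matrix.of fun a q => c q γ a) 0 1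
  map_one' := by
    have h : ∀ q, c q 1 = 0 := by
      intro q
      have := hc q 1 1
      rw [mul_one, map_one, one_mulVec] at this
      exact left_eq_add.mp this
    rw [map_one]
    have : (Matrix.of fun a q => c q 1 a) = (0 : Matrix n Q R) := by
      ext a q
      simp [h]
    rw [this, fromBlocks_one]
  map_mul' γ δ := by
    rw [fromBlocks_multiply, map_mul]
    simp only [Matrix.mul_zero, add_zero, Matrix.zero_mul, Matrix.mul_one, zero_add]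
    congr 1
    ext a q
    simp only [Matrix.of_apply, Matrix.add_apply, Matrix.mul_apply, hc, Pi.add_apply, mulVec,
      dotProduct]
    ring

/-- the blocks of `Φ (r γ - 1)` -/
theorem blocks_exp {p : ℕ} [Fact p.Prime] {n Q Γ : Type*} [Group Γ] [Fintype n] [DecidableEq n]
    [Fintype Q] [DecidableEq Q] (ρ : Γ →* Matrix n n ℤ_[p]) (c : Q → Γ → n → ℤ_[p])
    (hc : ∀ q γ δ, c q (γ * δ) = c q γ + (ρ γ).mulVec (c q δ)) (γ : Γ)
    (Φ : Matrix (n ⊕ Q) (n ⊕ Q) ℤ_[p]) :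
    ((Φ * (bigRep ρ c hc γ - 1)).map (fun x : ℤ_[p] => (x : ℚ_[p]))).toBlocks₁₁ =
      (Φ.toBlocks₁₁ * (ρ γ - 1)).map (fun x : ℤ_[p] => (x : ℚ_[p])) ∧
    ∀ q a, ((Φ * (bigRep ρ c hc γ - 1)).map (fun x : ℤ_[p] => (x : ℚ_[p]))) (Sum.inl a)
      (Sum.inr q) = ((Φ.toBlocks₁₁.mulVec (c q γ) a : ℤ_[p]) : ℚ_[p]) := by
  constructor
  · ext a b
    simp only [toBlocks₁₁, Matrix.map_apply, Matrix.of_apply, Matrix.mul_apply,
      Fintype.sum_sum_type, Matrix.sub_apply, bigRep, MonoidHom.coe_mk, OneHom.coe_mk,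
      fromBlocks_apply₁₁, fromBlocks_apply₂₁, Matrix.zero_apply, Matrix.one_apply, Sum.inl.injEq,
      reduceCtorEq, if_false, sub_self, mul_zero, Finset.sum_const_zero, add_zero]
  · intro q a
    simp only [toBlocks₁₁, Matrix.map_apply, Matrix.of_apply, Matrix.mul_apply,
      Fintype.sum_sum_type, Matrix.sub_apply, bigRep, MonoidHom.coe_mk, OneHom.coe_mk,
      fromBlocks_apply₁₂, fromBlocks_apply₂₂, Matrix.one_apply, Sum.inr.injEq,
      reduceCtorEq, if_false, sub_self, mul_zero, Finset.sum_const_zero, add_zero, mulVec,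
      dotProduct, sub_zero]

end EMain

open EMain

theorem E_main {ι Q Γ : Type*} [Fintype ι] [DecidableEq ι] [Finite Q] [Group Γ] (p : ι → ℕ)
    [∀ i, Fact (p i).Prime] (hp : Function.Injective p) (d : ι → ℕ)
    (ρ : ∀ i, Γ →* Matrix (Fin (d i)) (Fin (d i)) ℤ_[p i])
    (c : Q → Γ → ∀ i, Fin (d i) → ℤ_[p i])
    (hc : ∀ q γ δ i, c q (γ * δ) i = c q γ i + (ρ i γ).mulVec (c q δ i))
    (𝒯 : Set (∀ i, Fin (d i) → ℤ_[p i])) (h𝒯 : IsCompact 𝒯)
    (hB : ∀ γ, ∃ q, ∃ t ∈ 𝒯, ∀ i, c q γ i = (ρ i γ).mulVec (t i) - t i)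
    (γ₁ : Γ) (hW : ∀ j, 1 ≤ j → ∀ i v, (ρ i (γ₁ ^ j)).mulVec v = v → v = 0) :
    ∃ Δ : Subgroup Γ, Δ.FiniteIndex ∧ ∃ q, ∃ u ∈ 𝒯, ∀ γ ∈ Δ, ∀ i,
      c q γ i = (ρ i γ).mulVec (u i) - u i := by
  classical
  have _ := Fintype.ofFinite Q
  let r : ∀ i, Γ →* Matrix (Fin (d i) ⊕ Q) (Fin (d i) ⊕ Q) ℤ_[p i] := fun i =>
    bigRep (ρ i) (fun q γ => c q γ i) (fun q γ δ => hc q γ δ i)
  obtain ⟨Γ', hfi, hΓ'⟩ := exists_finiteIndex p (fun i => Fin (d i) ⊕ Q) r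
  let r' : ∀ i, Γ' →* Matrix (Fin (d i) ⊕ Q) (Fin (d i) ⊕ Q) ℤ_[p i] := fun i =>
    (r i).comp Γ'.subtype
  have hr' : ∀ (γ : Γ') i, ∃ A : Matrix (Fin (d i) ⊕ Q) (Fin (d i) ⊕ Q) ℤ_[p i],
      r' i γ = 1 + (p i : ℤ_[p i]) ^ 2 • A := fun γ i => hΓ' γ γ.2 i
  choose 𝔤 hbr happ hexp using fun i => asym_lie (r' i) (fun γ => hr' γ i)
  -- the bottom rows vanish
  have hbot : ∀ i (γ : Γ') q x, (r' i γ - 1 : Matrix _ _ ℤ_[p i]) (Sum.inr q) x = 0 := by
    intro i γ q x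
    rcases x with b | q'
    · simp [r', r, bigRep]
    · simp [r', r, bigRep, Matrix.one_apply]
  have hb𝔤 : ∀ i, ∀ X ∈ 𝔤 i, ∀ q x, X (Sum.inr q) x = 0 := by
    intro i X hX q x
    have hp0 : (0 : ℝ) < p i := by exact_mod_cast (Fact.out : (p i).Prime).pos
    have hp1 : (1 : ℝ) < p i := by exact_mod_cast (Fact.out : (p i).Prime).one_lt
    rw [← norm_eq_zero]
    refine le_antisymm ?_ (norm_nonneg _)
    have hlim : Filter.Tendsto (fun R : ℕ => (p i : ℝ) ^ (-(R : ℤ))) Filter.atTop (nhds 0) := by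
      have := tendsto_pow_atTop_nhds_zero_of_lt_one (r := ((p i : ℝ))⁻¹) (by positivity)
        (inv_lt_one_of_one_lt₀ hp1)
      refine this.congr fun R => ?_
      rw [inv_pow, _root_.zpow_neg, zpow_natCast]
    refine ge_of_tendsto' hlim fun R => ?_
    obtain ⟨m, γ, hm, h⟩ := happ i X hX R
    have h1 := h (Sum.inr q) x
    rw [hbot, PadicInt.coe_zero, zero_sub, norm_neg, norm_mul, norm_pow, Padic.norm_p] at h1
    have h2 : ((p i : ℝ)⁻¹) ^ m = (p i : ℝ) ^ (-(m : ℤ)) := by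
      rw [inv_pow, _root_.zpow_neg, zpow_natCast]
    rw [h2, neg_add, zpow_add₀ hp0.ne'] at h1
    exact le_of_mul_le_mul_left h1 (by positivity)
  -- solvability
  have hB' : ∀ γ : Γ', ∃ q, ∃ t ∈ 𝒯, ∀ i a,
      (r' i γ - 1 : Matrix _ _ ℤ_[p i]) (Sum.inl a) (Sum.inr q) =
      ∑ b, (r' i γ - 1 : Matrix _ _ ℤ_[p i]) (Sum.inl a) (Sum.inl b) * t i b := by
    intro γ
    obtain ⟨q, t, ht, h⟩ := hB γ
    refine ⟨q, t, ht, fun i a => ?_⟩
    have h1 := congrFun (h i) a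
    have e1 : (r' i γ - 1 : Matrix _ _ ℤ_[p i]) (Sum.inl a) (Sum.inr q) = c q γ i a := by
      simp [r', r, bigRep]
    have e2 : ∀ b, (r' i γ - 1 : Matrix _ _ ℤ_[p i]) (Sum.inl a) (Sum.inl b) =
        ρ i γ a b - (1 : Matrix _ _ ℤ_[p i]) a b := by
      intro b
      simp [r', r, bigRep, Matrix.one_apply]
    rw [e1, h1]
    simp only [e2, sub_mul, Finset.sum_sub_distrib]
    have e3 : ∑ b, (1 : Matrix _ _ ℤ_[p i]) a b * t i b = t i a := by
      have := congrFun (one_mulVec (t i)) a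
      exact this
    rw [e3]
    rfl
  have hstar : ∀ X : ∀ i, Matrix (Fin (d i) ⊕ Q) (Fin (d i) ⊕ Q) ℚ_[p i], (∀ i, X i ∈ 𝔤 i) →
      ∃ q, ∃ t ∈ 𝒯, ∀ i a, X i (Sum.inl a) (Sum.inr q) =
      ∑ b, X i (Sum.inl a) (Sum.inl b) * (t i b : ℚ_[p i]) := fun X hX =>
    star p hp d r' hr' 𝒯 h𝒯 hB' X (fun i => happ i (X i) (hX i))
  -- the element `x₀`
  obtain ⟨j, hj1, -, hj⟩ := Subgroup.exists_pow_mem_of_index_ne_zero hfi.index_ne_zero γ₁
  choose Φ B hΦ hX0 using fun i => hexp i ⟨γ₁ ^ j, hj⟩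
  set X0 : ∀ i, Matrix (Fin (d i) ⊕ Q) (Fin (d i) ⊕ Q) ℚ_[p i] := fun i =>
    (Φ i * (r' i ⟨γ₁ ^ j, hj⟩ - 1)).map (fun x : ℤ_[p i] => (x : ℚ_[p i])) with hX0def
  have hΦ11 : ∀ i (Φ B : Matrix (Fin (d i) ⊕ Q) (Fin (d i) ⊕ Q) ℤ_[p i]),
      Φ = 1 + (p i : ℤ_[p i]) • B → Φ.toBlocks₁₁.det ≠ 0 := by
    intro i Φ B h
    have : Φ.toBlocks₁₁ = 1 + (p i : ℤ_[p i]) • B.toBlocks₁₁ := by
      rw [h]
      ext a b
      simp [toBlocks₁₁, Matrix.one_apply]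
    rw [this]
    exact det_ne_zero_of_congr _
  have hdet : ∀ i, (X0 i).toBlocks₁₁.det ≠ 0 := by
    intro i
    have h1 := (blocks_exp (ρ i) (fun q γ => c q γ i) (fun q γ δ => hc q γ δ i) (γ₁ ^ j) (Φ i)).1
    have h2 : (X0 i).toBlocks₁₁ =
      ((Φ i).toBlocks₁₁ * (ρ i (γ₁ ^ j) - 1)).map (fun x : ℤ_[p i] => (x : ℚ_[p i])) := h1
    rw [h2]
    have h3 : (((Φ i).toBlocks₁₁ * (ρ i (γ₁ ^ j) - 1)).map
        (fun x : ℤ_[p i] => (x : ℚ_[p i]))).det =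
        ((((Φ i).toBlocks₁₁ * (ρ i (γ₁ ^ j) - 1)).det : ℤ_[p i]) : ℚ_[p i]) :=
      (RingHom.map_det (PadicInt.Coe.ringHom (p := p i)) _).symm
    rw [h3, Ne, PadicInt.coe_eq_zero, det_mul, mul_eq_zero, not_or]
    refine ⟨hΦ11 i _ _ (hΦ i), ?_⟩
    intro h0
    obtain ⟨v, hv, hv0⟩ := Matrix.exists_mulVec_eq_zero_iff.mpr h0
    rw [sub_mulVec, one_mulVec, sub_eq_zero] at hv0
    exact hv (hW j hj1 i v hv0)
  choose 𝔨 h𝔨le h𝔨 using fun i => bad_data (𝔤 i) (hbr i) (hb𝔤 i) (X0 i) (hX0 i) (hdet i)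
  choose F F' u hF hF' hu hk using h𝔨
  -- the elements `k i`
  have hkex : ∀ i, ∃ k ∈ 𝔨 i, ∀ q hq,
      (fun a => k (Sum.inl a) (Sum.inr q)) - k.toBlocks₁₁.mulVec (u i q hq) ∉ F' i q hq := by
    intro i
    let L : {q // ¬ ∃ u, ∀ X ∈ 𝔤 i, (fun a => X (Sum.inl a) (Sum.inr q)) =
        X.toBlocks₁₁.mulVec u} → (Matrix (Fin (d i) ⊕ Q) (Fin (d i) ⊕ Q) ℚ_[p i]) →ₗ[ℚ_[p i]]
        (Fin (d i) → ℚ_[p i]) := fun q =>
      { toFun := fun k => (fun a => k (Sum.inl a) (Sum.inr q.1)) -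
          k.toBlocks₁₁.mulVec (u i q.1 q.2)
        map_add' := fun x y => by
          ext a
          simp only [toBlocks₁₁, mulVec, dotProduct, Pi.sub_apply, Pi.add_apply,
            Matrix.add_apply, Matrix.of_apply, add_mul, Finset.sum_add_distrib]
          ring
        map_smul' := fun s x => by
          ext a
          simp only [toBlocks₁₁, mulVec, dotProduct, Pi.sub_apply, Pi.smul_apply,
            Matrix.smul_apply, Matrix.of_apply, smul_eq_mul, mul_assoc, ← Finset.mul_sum,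
            RingHom.id_apply]
          ring }
    obtain ⟨k, hk, hk'⟩ := exists_avoid (𝔨 i) L (fun q => F' i q.1 q.2) (fun q => hk i q.1 q.2)
    exact ⟨k, hk, fun q hq => hk' ⟨q, hq⟩⟩
  choose k hkmem hkavoid using hkex
  have hξ : ∀ (m : ℕ) i, k i + (p i : ℚ_[p i]) ^ m • X0 i ∈ 𝔤 i := fun m i =>
    (𝔤 i).add_mem (h𝔨le i (hkmem i)) ((𝔤 i).smul_mem _ (hX0 i))
  choose Qf tf htf hsol using fun m : ℕ => hstar (fun i => k i + (p i : ℚ_[p i]) ^ m • X0 i) (hξ m)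
  -- an infinite set of exponents with the same `q`
  set D : Set ℕ := {m | ∀ i, ((k i).toBlocks₁₁ + (p i : ℚ_[p i]) ^ m • (X0 i).toBlocks₁₁).det ≠ 0}
    with hD
  have hDinf : D.Infinite := by
    have h1 : (⋃ i, {m : ℕ | ((k i).toBlocks₁₁ + (p i : ℚ_[p i]) ^ m •
        (X0 i).toBlocks₁₁).det = 0}).Finite := Set.finite_iUnion fun i => det_finite _ _ (hdet i)
    refine h1.infinite_compl.mono ?_
    intro m hm i h0
    exact hm (Set.mem_iUnion.mpr ⟨i, h0⟩)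
  obtain ⟨q, hq⟩ : ∃ q, {m | m ∈ D ∧ Qf m = q}.Infinite := by
    by_contra hcon
    push Not at hcon
    apply hDinf
    have h1 : (⋃ q, {m | m ∈ D ∧ Qf m = q}).Finite := by
      apply Set.finite_iUnion
      intro q
      exact Set.not_infinite.mp (by simpa using hcon q)
    refine h1.subset fun m hm => Set.mem_iUnion.mpr ⟨Qf m, hm, rfl⟩
  have hsolq : ∀ m, Qf m = q → ∀ i,
      ((k i).toBlocks₁₁ + (p i : ℚ_[p i]) ^ m • (X0 i).toBlocks₁₁).mulVec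
        (fun b => (tf m i b : ℚ_[p i])) = (fun a => k i (Sum.inl a) (Sum.inr q)) +
        (p i : ℚ_[p i]) ^ m • (fun a => X0 i (Sum.inl a) (Sum.inr q)) := by
    intro m hm i
    ext a
    have := hsol m i a
    rw [hm] at this
    exact this.symm
  have hgood : ∀ i, ∃ u, ∀ X ∈ 𝔤 i, (fun a => X (Sum.inl a) (Sum.inr q)) =
      X.toBlocks₁₁.mulVec u := by
    intro i
    by_contra hbad
    refine contra (k i).toBlocks₁₁ (X0 i).toBlocks₁₁ (fun a => k i (Sum.inl a) (Sum.inr q))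
      (fun a => X0 i (Sum.inl a) (Sum.inr q)) (u i q hbad) (F i q hbad) (F' i q hbad)
      (hF i q hbad _ (h𝔨le i (hkmem i))) (hF i q hbad _ (hX0 i)) (hF' i q hbad _ (hkmem i))
      (hu i q hbad _ (h𝔨le i (hkmem i))) (hu i q hbad _ (hX0 i)) (hkavoid i q hbad)
      _ hq (fun m hm => hm.1 i) (fun m hm => ⟨tf m i, hsolq m hm.2 i⟩)
  obtain ⟨m, hmD, hmq⟩ := hq.nonempty
  have hinner : ∀ i, ∀ X ∈ 𝔤 i, (fun a => X (Sum.inl a) (Sum.inr q)) =
      X.toBlocks₁₁.mulVec (fun b => (tf m i b : ℚ_[p i])) := by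
    intro i X hX
    obtain ⟨w, hw⟩ := hgood i
    have h1 := hw _ (hξ m i)
    have h2 := hsolq m hmq i
    have h3 : w = fun b => (tf m i b : ℚ_[p i]) := by
      by_contra hne
      apply hmD i
      refine Matrix.exists_mulVec_eq_zero_iff.mp ⟨w - fun b => (tf m i b : ℚ_[p i]),
        sub_ne_zero.mpr hne, ?_⟩
      rw [mulVec_sub, sub_eq_zero, h2]
      exact h1.symm
    rw [hw X hX, h3]
  refine ⟨Γ', hfi, q, tf m, htf m, fun γ hγ i => ?_⟩
  obtain ⟨Φ', B', hΦ', hmem⟩ := hexp i ⟨γ, hγ⟩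
  have h1 := hinner i _ hmem
  obtain ⟨e1, e2⟩ := blocks_exp (ρ i) (fun q γ => c q γ i) (fun q γ δ => hc q γ δ i) γ Φ'
  have h2 : Φ'.toBlocks₁₁.mulVec (c q γ i) = (Φ'.toBlocks₁₁ * (ρ i γ - 1)).mulVec (tf m i) := by
    ext a
    apply PadicInt.ext
    have h3 := congrFun h1 a
    have h4 : ((Φ' * (r' i ⟨γ, hγ⟩ - 1)).map (fun x : ℤ_[p i] => (x : ℚ_[p i]))) (Sum.inl a)
      (Sum.inr q) = ((Φ'.toBlocks₁₁.mulVec (c q γ i) a : ℤ_[p i]) : ℚ_[p i]) := e2 q a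
    have h5 : ((Φ' * (r' i ⟨γ, hγ⟩ - 1)).map (fun x : ℤ_[p i] => (x : ℚ_[p i]))).toBlocks₁₁ =
      (Φ'.toBlocks₁₁ * (ρ i γ - 1)).map (fun x : ℤ_[p i] => (x : ℚ_[p i])) := e1
    rw [h4, h5] at h3
    rw [h3]
    simp only [mulVec, dotProduct, Matrix.map_apply, PadicInt.coe_sum, PadicInt.coe_mul]
  rw [← mulVec_mulVec] at h2
  have h3 : c q γ i = (ρ i γ - 1).mulVec (tf m i) := by
    by_contra hne
    apply hΦ11 i Φ' B' hΦ'
    refine Matrix.exists_mulVec_eq_zero_iff.mp ⟨c q γ i - (ρ i γ - 1).mulVec (tf m i),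
      sub_ne_zero.mpr hne, ?_⟩
    rw [mulVec_sub, h2, sub_self]
  rw [h3, sub_mulVec, one_mulVec]

end Pool.Agent.Lib.MP_2f3286_ag.Full
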