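import Mathlib

/-!
# Theorem F, module INDEX: the index bound for unramified cyclic extensions
-/

namespace Pool.Agent.Lib.MP_2f3286_ag.Full

section Lattice

variable (n : ℕ) [NeZero n]

/-- the functions with sum zero, written multiplicatively -/
def sumZero : Subgroup (Multiplicative (ZMod n → ℤ)) where
  carrier := {f | ∑ i, f.toAdd i = 0}
  one_mem' := by simp
  mul_mem' {f g} hf hg := by
    simp only [Set.mem_ofPred_eq, toAdd_mul, Pi.add_apply, Finset.sum_add_distrib] at *
    omega
  inv_mem' {f} hf := by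
    simp only [Set.mem_ofPred_eq, toAdd_inv, Pi.neg_apply, Finset.sum_neg_distrib] at *
    omega

variable {n}

theorem mem_sumZero {f : Multiplicative (ZMod n → ℤ)} :
    f ∈ sumZero n ↔ ∑ i, f.toAdd i = 0 := Iff.rfl

theorem sum_shift (f : ZMod n → ℤ) : ∑ i, f (i - 1) = ∑ i, f i :=
  (Equiv.subRight (1 : ZMod n)).sum_comp f

variable (n) in
/-- `f ↦ σ f - f` on functions with sum zero -/
def shiftSub : sumZero n →* sumZero n where
  toFun f := ⟨Multiplicative.ofAdd fun i => f.1.toAdd (i - 1) - f.1.toAdd i, by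
    rw [mem_sumZero]
    simp only [toAdd_ofAdd, Finset.sum_sub_distrib]
    rw [sum_shift, sub_self]⟩
  map_one' := by
    ext1
    apply Multiplicative.toAdd.injective
    funext i
    simp
  map_mul' f g := by
    ext1
    apply Multiplicative.toAdd.injective
    funext i
    simp only [Subgroup.coe_mul, toAdd_mul, Pi.add_apply, toAdd_ofAdd]
    ring

theorem shiftSub_apply (f : sumZero n) (i : ZMod n) :
    ((shiftSub n f : Multiplicative (ZMod n → ℤ))).toAdd i = f.1.toAdd (i - 1) - f.1.toAdd i := rfl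

theorem zmod_const {f : ZMod n → ℤ} (h : ∀ i, f (i - 1) = f i) (i : ZMod n) : f i = f 0 := by
  have h1 : ∀ m : ℕ, f (m : ZMod n) = f 0 := by
    intro m
    induction m with
    | zero => simp
    | succ m ih =>
      rw [← h, ← ih]
      push_cast
      rw [add_sub_cancel_right]
  have h2 := h1 i.val
  rwa [ZMod.natCast_zmod_val] at h2

theorem shiftSub_injective : Function.Injective (shiftSub n) := by
  rw [injective_iff_map_eq_one]
  intro f hf
  have h1 : ∀ i, f.1.toAdd (i - 1) = f.1.toAdd i := by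
    intro i
    have h2 := congrArg (fun g : sumZero n => g.1.toAdd i) hf
    simp only [shiftSub_apply, OneMemClass.coe_one, toAdd_one, Pi.zero_apply] at h2
    omega
  have h2 := fun i => zmod_const h1 i
  have h3 : ∑ i, f.1.toAdd i = 0 := f.2
  rw [Finset.sum_congr rfl (fun i _ => h2 i), Finset.sum_const, Finset.card_univ, ZMod.card,
    nsmul_eq_mul] at h3
  have h4 : f.1.toAdd 0 = 0 := by
    rcases mul_eq_zero.mp h3 with h | h
    · exact absurd (by exact_mod_cast h) (NeZero.ne n)
    · exact h
  ext1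
  apply Multiplicative.toAdd.injective
  funext i
  rw [h2 i, h4]
  rfl

variable (n) in
/-- `f ↦ ∑ i f(i)` modulo `n` -/
def momentHom : sumZero n →* Multiplicative (ZMod n) where
  toFun f := Multiplicative.ofAdd (∑ i, i * (f.1.toAdd i : ZMod n))
  map_one' := by simp
  map_mul' f g := by
    rw [← ofAdd_add]
    congr 1
    rw [← Finset.sum_add_distrib]
    refine Finset.sum_congr rfl fun i _ => ?_
    simp only [Subgroup.coe_mul, toAdd_mul, Pi.add_apply]
    push_cast
    ring

theorem momentHom_shiftSub (f : sumZero n) : momentHom n (shiftSub n f) = 1 := by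
  change Multiplicative.ofAdd (∑ i, i * (((shiftSub n f).1.toAdd i : ℤ) : ZMod n)) = 1
  have h1 : ∑ i, i * (((shiftSub n f).1.toAdd i : ℤ) : ZMod n) = 0 := by
    have h2 : ∀ i : ZMod n, i * (((shiftSub n f).1.toAdd i : ℤ) : ZMod n) =
        ((i - 1) * (f.1.toAdd (i - 1) : ZMod n) - i * (f.1.toAdd i : ZMod n)) +
          (f.1.toAdd (i - 1) : ZMod n) := by
      intro i
      rw [shiftSub_apply]
      push_cast
      ring
    rw [Finset.sum_congr rfl fun i _ => h2 i, Finset.sum_add_distrib, Finset.sum_sub_distrib]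
    have h3 : ∑ i : ZMod n, (i - 1) * (f.1.toAdd (i - 1) : ZMod n) =
        ∑ i : ZMod n, i * (f.1.toAdd i : ZMod n) :=
      (Equiv.subRight (1 : ZMod n)).sum_comp fun i => i * (f.1.toAdd i : ZMod n)
    have h4 : ∑ i : ZMod n, (f.1.toAdd (i - 1) : ZMod n) = 0 := by
      have h5 : ∑ i, f.1.toAdd i = 0 := f.2
      have h6 := congrArg (fun z : ℤ => (z : ZMod n)) ((sum_shift f.1.toAdd).trans h5)
      simpa using h6
    rw [h3, h4]
    ring
  rw [h1]
  rfl

theorem momentHom_surjective : Function.Surjective (momentHom n) := by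
  intro z
  refine ⟨⟨Multiplicative.ofAdd (Pi.single (z.toAdd) 1 - Pi.single 0 1), ?_⟩, ?_⟩
  · rw [mem_sumZero]
    simp
  · change Multiplicative.ofAdd (∑ i, i * (((Pi.single (z.toAdd) 1 - Pi.single 0 1 : ZMod n → ℤ) i : ℤ) :
      ZMod n)) = z
    have h1 : ∑ i, i * (((Pi.single (z.toAdd) 1 - Pi.single 0 1 : ZMod n → ℤ) i : ℤ) :
      ZMod n) = z.toAdd := by
      have h2 : ∀ i : ZMod n, i * (((Pi.single (z.toAdd) 1 - Pi.single 0 1 : ZMod n → ℤ) i : ℤ) :
          ZMod n) = if i = z.toAdd then i else 0 := by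
        intro i
        simp only [Pi.sub_apply, Pi.single_apply]
        by_cases h3 : i = 0
        · subst h3
          split_ifs <;> simp
        · split_ifs <;> simp
      rw [Finset.sum_congr rfl fun i _ => h2 i]
      simp
    rw [h1]
    rfl

theorem dvd_index_range : n ∣ (shiftSub n).range.index := by
  have h1 : (shiftSub n).range ≤ (momentHom n).ker := by
    rintro _ ⟨f, rfl⟩
    exact momentHom_shiftSub f
  have h2 : (momentHom n).ker.index = n := by
    rw [Subgroup.index_ker, MonoidHom.range_eq_top.mpr momentHom_surjective]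
    simp
  have h3 := Subgroup.index_dvd_of_le h1
  rwa [h2] at h3

/-- the index of `σ - 1` on a sublattice of finite index -/
theorem relIndex_shiftSub (L : Subgroup (sumZero n)) (hL : L.index ≠ 0)
    (hs : L.map (shiftSub n) ≤ L) : n ∣ (L.map (shiftSub n)).relIndex L := by
  have h1 : (L.map (shiftSub n)).relIndex L * L.index = (L.map (shiftSub n)).index :=
    Subgroup.relIndex_mul_index hs
  have h2 : (L.map (shiftSub n)).relIndex (shiftSub n).range * (shiftSub n).range.index =
      (L.map (shiftSub n)).index :=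
    Subgroup.relIndex_mul_index (L.map_le_range _)
  have h3 : (L.map (shiftSub n)).relIndex (shiftSub n).range = L.index := by
    rw [MonoidHom.range_eq_map, Subgroup.relIndex_map_map_of_injective _ _ shiftSub_injective,
      Subgroup.relIndex_top_right]
  rw [h3, ← h1, mul_comm] at h2
  rw [← Nat.eq_of_mul_eq_mul_right (Nat.pos_of_ne_zero hL) h2]
  exact dvd_index_range

end Lattice

theorem index_bound {U C : Type*} [CommGroup U] [Finite C] (n : ℕ) [NeZero n] (σ : U ≃* U)
    (hσ : σ ^ n = 1) (F : Subgroup U) [Finite F]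
    (hF : ∀ u, ∏ i ∈ Finset.range n, (σ ^ i) u ∈ F) (v : U →* Multiplicative (ZMod n → ℤ))
    (hvσ : ∀ u i, (v (σ u)).toAdd i = (v u).toAdd (i - 1))
    (hv0 : ∀ u, ∑ i, (v u).toAdd i = 0)
    (hvfull : ∃ h : ℤ, h ≠ 0 ∧ ∃ u, (v u).toAdd = h • (Pi.single 0 1 - Pi.single 1 1))
    (cl : U → C) (hcl : ∀ u u', ∏ i ∈ Finset.range n, (σ ^ i) u = 1 →
      ∏ i ∈ Finset.range n, (σ ^ i) u' = 1 → cl u = cl u' → ∃ w, u' * w = u * σ w) :
    n ≤ Nat.card F * Nat.card C := by
  classical
  -- the norm
  let N : U →* U :=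
    { toFun := fun u => ∏ i ∈ Finset.range n, (σ ^ i) u
      map_one' := by simp
      map_mul' := fun a b => by simp [Finset.prod_mul_distrib] }
  have hN : ∀ u, N u = ∏ i ∈ Finset.range n, (σ ^ i) u := fun u => rfl
  let δ : U →* U :=
    { toFun := fun u => σ u / u
      map_one' := by simp
      map_mul' := fun a b => by
        rw [map_mul, mul_div_mul_comm] }
  have hδ : ∀ u, δ u = σ u / u := fun u => rfl
  -- `D = (σ - 1) U` lies in the kernel of the norm
  have hNσ : ∀ u, N (σ u) = N u := by
    intro u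
    rw [hN, hN]
    have h1 : ∀ i : ℕ, (σ ^ i) (σ u) = (σ ^ (i + 1)) u := fun i => by
      rw [pow_succ]; rfl
    rw [Finset.prod_congr rfl fun i _ => h1 i]
    have h2 := Finset.prod_range_succ (fun i => (σ ^ i) u) n
    have h3 := Finset.prod_range_succ' (fun i => (σ ^ i) u) n
    rw [h2] at h3
    simp only [hσ, pow_zero, MulAut.one_apply] at h3
    exact (mul_right_cancel h3).symm
  have hDN : δ.range ≤ N.ker := by
    rintro _ ⟨u, rfl⟩
    rw [MonoidHom.mem_ker, hδ, map_div, hNσ, div_self']
  -- upper bound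
  have hup1 : N.ker.index ≤ Nat.card F ∧ N.ker.index ≠ 0 := by
    rw [Subgroup.index_ker]
    have h1 : N.range ≤ F := by
      rintro _ ⟨u, rfl⟩
      exact hF u
    have h2 : Finite N.range := Finite.Set.subset (F : Set U) h1
    exact ⟨Nat.card_le_card_of_injective _ (Subgroup.inclusion_injective h1),
      Nat.card_pos.ne'⟩
  have hup2 : δ.range.relIndex N.ker ≤ Nat.card C ∧ δ.range.relIndex N.ker ≠ 0 := by
    have h1 : Function.Injective fun q : N.ker ⧸ (δ.range.subgroupOf N.ker) =>
        cl (q.out : U) := by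
      intro q q' h
      obtain ⟨w, hw⟩ := hcl _ _ (q.out.2 : N _ = 1) (q'.out.2 : N _ = 1) h
      rw [← q.out_eq', ← q'.out_eq']
      apply QuotientGroup.eq.mpr
      rw [Subgroup.mem_subgroupOf]
      refine ⟨w, ?_⟩
      rw [hδ]
      push_cast
      rw [div_eq_iff_eq_mul, inv_mul_eq_div, div_mul_eq_mul_div, eq_div_iff_mul_eq', mul_comm]
      exact hw.symm
    have h2 := Finite.of_injective _ h1
    exact ⟨Nat.card_le_card_of_injective _ h1, Nat.card_pos.ne'⟩
  have hup3 : δ.range.relIndex N.ker * N.ker.index = δ.range.index :=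
    Subgroup.relIndex_mul_index hDN
  -- lower bound
  let v' : U →* sumZero n := v.codRestrict (sumZero n) hv0
  have hv' : ∀ u, (v' u : Multiplicative (ZMod n → ℤ)) = v u := fun u => rfl
  have hcomm : ∀ u, shiftSub n (v' u) = v' (δ u) := by
    intro u
    ext1
    apply Multiplicative.toAdd.injective
    funext i
    rw [shiftSub_apply, hv', hv', hδ, map_div, toAdd_div, Pi.sub_apply, hvσ]
  have hmap : v'.range.map (shiftSub n) = δ.range.map v' := by
    ext f
    constructor
    · rintro ⟨_, ⟨u, rfl⟩, rfl⟩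
      exact ⟨δ u, ⟨u, rfl⟩, (hcomm u).symm⟩
    · rintro ⟨_, ⟨u, rfl⟩, rfl⟩
      exact ⟨v' u, ⟨u, rfl⟩, hcomm u⟩
  have hle : v'.range.map (shiftSub n) ≤ v'.range := by
    rw [hmap]
    exact Subgroup.map_le_range _ _
  obtain ⟨h, hh, u₀, hu₀⟩ := hvfull
  have hΛ1 : ∀ m : ℕ, ∃ u, (v u).toAdd =
      h • (Pi.single (m : ZMod n) 1 - Pi.single ((m : ZMod n) + 1) 1) := by
    intro m
    induction m with
    | zero => exact ⟨u₀, by simpa using hu₀⟩
    | succ m ih =>
      obtain ⟨u, hu⟩ := ih
      refine ⟨σ u, ?_⟩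
      funext i
      rw [hvσ, hu]
      simp only [Pi.smul_apply, Pi.sub_apply, Pi.single_apply, smul_eq_mul, Nat.cast_add,
        Nat.cast_one, sub_eq_iff_eq_add]
  have hΛ2 : ∀ m : ℕ, ∃ u, (v u).toAdd = h • (Pi.single (m : ZMod n) 1 - Pi.single 0 1) := by
    intro m
    induction m with
    | zero => exact ⟨1, by simp⟩
    | succ m ih =>
      obtain ⟨u, hu⟩ := ih
      obtain ⟨u', hu'⟩ := hΛ1 m
      refine ⟨u / u', ?_⟩
      rw [map_div, toAdd_div, hu, hu', ← smul_sub]
      push_cast
      congr 1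
      abel
  have hΛ3 : ∀ g : ZMod n → ℤ, ∑ i, g i = 0 → ∃ u, (v u).toAdd = h • g := by
    intro g hg
    have h1 : ∀ i : ZMod n, ∃ u, (v u).toAdd = h • (Pi.single i 1 - Pi.single 0 1) := by
      intro i
      have := hΛ2 i.val
      rwa [ZMod.natCast_zmod_val] at this
    choose w hw using h1
    refine ⟨∏ i, w i ^ g i, ?_⟩
    rw [map_prod, toAdd_prod]
    simp only [map_zpow, toAdd_zpow, hw]
    funext j
    simp only [Finset.sum_apply, Pi.smul_apply, Pi.sub_apply, Pi.single_apply, smul_eq_mul]
    have h2 : ∀ i : ZMod n, g i * (h * ((if j = i then 1 else 0) - if j = 0 then 1 else 0)) =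
        h * (if j = i then g i else 0) - (h * if j = 0 then 1 else 0) * g i := by
      intro i
      split_ifs <;> ring
    rw [Finset.sum_congr rfl fun i _ => h2 i, Finset.sum_sub_distrib, ← Finset.mul_sum,
      ← Finset.mul_sum, hg]
    simp
  have hΛ : v'.range.index ≠ 0 := by
    have : NeZero h.natAbs := ⟨Int.natAbs_ne_zero.mpr hh⟩
    let red : sumZero n →* Multiplicative (ZMod n → ZMod h.natAbs) :=
      { toFun := fun f => Multiplicative.ofAdd fun i => ((f.1.toAdd i : ℤ) : ZMod h.natAbs)
        map_one' := by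
          apply Multiplicative.toAdd.injective
          funext i
          simp
        map_mul' := fun f g => by
          apply Multiplicative.toAdd.injective
          funext i
          simp }
    have h1 : red.ker ≤ v'.range := by
      intro f hf
      rw [MonoidHom.mem_ker] at hf
      have h2 : ∀ i, h ∣ f.1.toAdd i := by
        intro i
        have h3 : ((f.1.toAdd i : ℤ) : ZMod h.natAbs) = 0 :=
          congrFun (congrArg Multiplicative.toAdd hf) i
        rw [ZMod.intCast_zmod_eq_zero_iff_dvd] at h3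
        exact Int.natAbs_dvd.mp h3
      choose g hg using h2
      have h4 : ∑ i, g i = 0 := by
        have h5 : ∑ i, f.1.toAdd i = 0 := f.2
        rw [Finset.sum_congr rfl fun i _ => hg i, ← Finset.mul_sum] at h5
        exact (mul_eq_zero.mp h5).resolve_left hh
      obtain ⟨u, hu⟩ := hΛ3 g h4
      refine ⟨u, ?_⟩
      ext1
      apply Multiplicative.toAdd.injective
      rw [hv', hu]
      funext i
      rw [hg i]
      rfl
    have h2 : red.ker.FiniteIndex := inferInstance
    have h3 : v'.range.FiniteIndex := Subgroup.finiteIndex_of_le h1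
    exact h3.index_ne_zero
  have hlow : n ∣ δ.range.index := by
    have h1 := relIndex_shiftSub v'.range hΛ hle
    rw [hmap, MonoidHom.range_eq_map v', Subgroup.relIndex_map_map, top_sup_eq,
      Subgroup.relIndex_top_right] at h1
    exact h1.trans (Subgroup.index_dvd_of_le le_sup_left)
  have hne : δ.range.index ≠ 0 := by
    rw [← hup3]
    exact mul_ne_zero hup2.2 hup1.2
  calc n ≤ δ.range.index := Nat.le_of_dvd (Nat.pos_of_ne_zero hne) hlow
    _ = δ.range.relIndex N.ker * N.ker.index := hup3.symm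
    _ ≤ Nat.card C * Nat.card F := Nat.mul_le_mul hup2.1 hup1.1
    _ = Nat.card F * Nat.card C := mul_comm _ _

end Pool.Agent.Lib.MP_2f3286_ag.Full
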