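import Mathlib
import Pool.Agent.Lib.MP_2f3286_ag.Full.Index

/-!
# Theorem F, module FINB (first part): valuation rings and the index bound
-/

open Polynomial IntermediateField

set_option linter.unusedSectionVars false
set_option linter.unusedVariables false

namespace Pool.Agent.Lib.MP_2f3286_ag.Full

namespace FinB

section General

variable {F A : Type*} [Field F] [Field A] [Algebra F A]

theorem algebraMap_mem [Finite F] (V : ValuationSubring A) (a : F) : algebraMap F A a ∈ V := by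
  rcases eq_or_ne a 0 with rfl | ha
  · rw [map_zero]
    exact V.zero_mem
  · rcases V.mem_or_inv_mem (algebraMap F A a) with h | h
    · exact h
    · have h1 : (algebraMap F A a)⁻¹ ^ (Nat.card F - 2) ∈ V := V.pow_mem h _
      have : Fintype F := Fintype.ofFinite F
      have h2 : a ^ (Nat.card F - 1) = 1 := by
        rw [Nat.card_eq_fintype_card]
        exact FiniteField.pow_card_sub_one_eq_one a ha
      have h3 : 2 ≤ Nat.card F := Finite.one_lt_card
      have h4 : (algebraMap F A a)⁻¹ ^ (Nat.card F - 2) = algebraMap F A a := by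
        have h5 : algebraMap F A a * algebraMap F A a ^ (Nat.card F - 2) = 1 := by
          rw [← pow_succ', ← map_pow]
          have h6 : Nat.card F - 2 + 1 = Nat.card F - 1 := by omega
          rw [h6, h2, map_one]
        rw [inv_pow]
        exact inv_eq_of_mul_eq_one_left h5
      rwa [h4] at h1

theorem adjoin_le [Finite F] (V : ValuationSubring A) {y : A} (hy : y ∈ V) (b : A)
    (hb : b ∈ Algebra.adjoin F {y}) : b ∈ V := by
  induction hb using Algebra.adjoin_induction with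
  | mem x hx =>
    rw [Set.mem_singleton_iff] at hx
    rwa [hx]
  | algebraMap r => exact algebraMap_mem V r
  | add x z _ _ hx hz => exact V.add_mem _ _ hx hz
  | mul x z _ _ hx hz => exact V.mul_mem _ _ hx hz

theorem mem_of_isIntegral {B : Type*} [CommRing B] [Algebra B A] (V : ValuationSubring A)
    (hB : ∀ b : B, algebraMap B A b ∈ V) {x : A} (hx : IsIntegral B x) : x ∈ V := by
  have h1 : IsIntegral V x := by
    let f : B →+* V := (algebraMap B A).codRestrict V.toSubring hB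
    have h2 := IsIntegral.map_of_comp_eq f (RingHom.id A) (by ext; rfl) hx
    exact h2
  obtain ⟨z, hz⟩ := IsIntegrallyClosed.isIntegral_iff.mp h1
  rw [← hz]
  exact z.2

theorem mem_integralClosure_of_forall {B : Type*} [CommRing B] [Algebra B A] {x : A}
    (h : ∀ V : ValuationSubring A, (∀ b : B, algebraMap B A b ∈ V) → x ∈ V) :
    IsIntegral B x := by
  by_contra hx
  have h1 : x ∉ (integralClosure B A).toSubring := hx
  have : IsIntegrallyClosedIn (integralClosure B A).toSubring A :=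
    inferInstanceAs (IsIntegrallyClosedIn (integralClosure B A) A)
  obtain ⟨V, hV, hxV⟩ := Subring.exists_le_valuationSubring_of_isIntegrallyClosedIn h1
  exact hxV (h V fun b => hV ((integralClosure B A).algebraMap_mem b))

theorem mem_closure_iff [Finite F] (y x : A) :
    x ∈ integralClosure (Algebra.adjoin F {y}) A ↔
      ∀ V : ValuationSubring A, y ∈ V → x ∈ V := by
  constructor
  · intro hx V hy
    exact mem_of_isIntegral V (fun b => adjoin_le V hy _ b.2) hx
  · intro h
    exact mem_integralClosure_of_forall fun V hV => h V (hV ⟨y, Algebra.subset_adjoin rfl⟩)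

theorem isAlgebraic_of_forall (x : A) (h : ∀ V : ValuationSubring A, x ∈ V) :
    IsAlgebraic F x :=
  (mem_integralClosure_of_forall (B := F) fun V _ => h V).isAlgebraic

end General

section Tower

variable {F A₀ A : Type*} [Field F] [Field A₀] [Field A] [Algebra F A₀]
    [Algebra A₀ A] [Algebra F A] [IsScalarTower F A₀ A]

variable (F) in
/-- the map on adjoined rings -/
noncomputable def adjMap (y : A₀) :
    Algebra.adjoin F {y} →+* Algebra.adjoin F {algebraMap A₀ A y} :=
  ((IsScalarTower.toAlgHom F A₀ A).comp (Algebra.adjoin F {y}).val).toRingHom.codRestrict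
    (Algebra.adjoin F {algebraMap A₀ A y}).toSubring (by
      intro b
      have h1 : IsScalarTower.toAlgHom F A₀ A (b : A₀) ∈
          (Algebra.adjoin F {y}).map (IsScalarTower.toAlgHom F A₀ A) :=
        Subalgebra.mem_map.mpr ⟨b, b.2, rfl⟩
      rw [AlgHom.map_adjoin, Set.image_singleton] at h1
      exact h1)

theorem adjMap_coe (y : A₀) (b : Algebra.adjoin F {y}) :
    ((adjMap F y b : Algebra.adjoin F {algebraMap A₀ A y}) : A) = algebraMap A₀ A (b : A₀) := rfl

theorem adjMap_surjective (y : A₀) : Function.Surjective (adjMap F (A := A) y) := by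
  rintro ⟨b, hb⟩
  have h1 : b ∈ (Algebra.adjoin F {y}).map (IsScalarTower.toAlgHom F A₀ A) := by
    rw [AlgHom.map_adjoin, Set.image_singleton]
    exact hb
  obtain ⟨c, hc, hcb⟩ := Subalgebra.mem_map.mp h1
  exact ⟨⟨c, hc⟩, Subtype.ext hcb⟩

theorem adjMap_injective (y : A₀) : Function.Injective (adjMap F (A := A) y) := by
  intro b c h
  apply Subtype.ext
  apply (algebraMap A₀ A).injective
  rw [← adjMap_coe, ← adjMap_coe, h]

theorem isIntegral_iff (y a : A₀) :
    IsIntegral (Algebra.adjoin F {algebraMap A₀ A y}) (algebraMap A₀ A a) ↔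
      IsIntegral (Algebra.adjoin F {y}) a := by
  constructor
  · intro h
    let e : Algebra.adjoin F {y} ≃+* Algebra.adjoin F {algebraMap A₀ A y} :=
      RingEquiv.ofBijective (adjMap F y) ⟨adjMap_injective y, adjMap_surjective y⟩
    have h1 : IsIntegral (Algebra.adjoin F {y}) (algebraMap A₀ A a) := by
      have h2 := IsIntegral.map_of_comp_eq (T := Algebra.adjoin F {y}) (U := A)
        (e.symm : _ →+* _) (RingHom.id A) (by
          ext z
          obtain ⟨w, rfl⟩ := e.surjective z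
          simp only [RingHom.comp_apply, RingHom.coe_coe, RingEquiv.symm_apply_apply, RingHom.id_apply]
          rfl) h
      exact h2
    exact (isIntegral_algebraMap_iff (algebraMap A₀ A).injective).mp h1
  · intro h
    exact IsIntegral.map_of_comp_eq (adjMap F y) (algebraMap A₀ A) rfl h

/-- the map on integral closures -/
noncomputable def clMap (y : A₀) : integralClosure (Algebra.adjoin F {y}) A₀ →+*
    integralClosure (Algebra.adjoin F {algebraMap A₀ A y}) A :=
  ((algebraMap A₀ A).comp (integralClosure (Algebra.adjoin F {y}) A₀).val.toRingHom).codRestrict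
    (integralClosure (Algebra.adjoin F {algebraMap A₀ A y}) A).toSubring (by
      intro b
      exact (isIntegral_iff y (b : A₀)).mpr b.2)

theorem clMap_coe (y : A₀) (b : integralClosure (Algebra.adjoin F {y}) A₀) :
    ((clMap (A := A) y b : integralClosure (Algebra.adjoin F {algebraMap A₀ A y}) A) : A) =
      algebraMap A₀ A (b : A₀) := rfl

theorem transcendental_map {y : A₀} (hy : Transcendental F y) :
    Transcendental F (algebraMap A₀ A y) :=
  (transcendental_algebraMap_iff (algebraMap A₀ A).injective).mpr hy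

theorem finite_adjoin [FiniteDimensional A₀ A] (y : A₀) [FiniteDimensional (adjoin F {y}) A₀] :
    FiniteDimensional (adjoin F {algebraMap A₀ A y}) A := by
  have h1 : Module.Finite (adjoin F {y}) A := Module.Finite.trans A₀ A
  have h2 : (adjoin F {y}).map (IsScalarTower.toAlgHom F A₀ A) =
      adjoin F {algebraMap A₀ A y} := by
    rw [IntermediateField.adjoin_map, Set.image_singleton]
    rfl
  let e : adjoin F {y} ≃ₐ[F] adjoin F {algebraMap A₀ A y} :=
    ((adjoin F {y}).equivMap (IsScalarTower.toAlgHom F A₀ A)).trans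
      (IntermediateField.equivOfEq h2)
  exact Module.Finite.of_equiv_equiv (A₁ := adjoin F {y}) (B₁ := A) e.toRingEquiv
    (RingEquiv.refl A) (by ext; rfl)

end Tower

section Main

variable {F A₀ A : Type*} [Field F] [Finite F] [Field A₀] [Field A] [Algebra F A₀]
    [Algebra A₀ A] [Algebra F A] [IsScalarTower F A₀ A]

theorem map_mem {y : A₀} (σ : A ≃ₐ[A₀] A) {x : A}
    (hx : x ∈ integralClosure (Algebra.adjoin F {algebraMap A₀ A y}) A) :
    σ x ∈ integralClosure (Algebra.adjoin F {algebraMap A₀ A y}) A := by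
  rw [mem_closure_iff] at hx ⊢
  intro V hV
  have h1 := hx (V.comap (σ : A →+* A)) (by
    rw [ValuationSubring.mem_comap]
    have h2 : (σ : A →+* A) (algebraMap A₀ A y) = algebraMap A₀ A y := σ.commutes y
    rwa [h2])
  rwa [ValuationSubring.mem_comap] at h1

/-- the action on the integral closure -/
noncomputable def resAut (y : A₀) : (A ≃ₐ[A₀] A) →*
    (integralClosure (Algebra.adjoin F {algebraMap A₀ A y}) A ≃+*
      integralClosure (Algebra.adjoin F {algebraMap A₀ A y}) A) where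
  toFun σ :=
    { toFun := fun x => ⟨σ x, map_mem σ x.2⟩
      invFun := fun x => ⟨σ⁻¹ x, map_mem σ⁻¹ x.2⟩
      left_inv := fun x => Subtype.ext (σ.symm_apply_apply _)
      right_inv := fun x => Subtype.ext (σ.apply_symm_apply _)
      map_mul' := fun a b => Subtype.ext (map_mul σ _ _)
      map_add' := fun a b => Subtype.ext (map_add σ _ _) }
  map_one' := rfl
  map_mul' σ τ := rfl

theorem resAut_coe (y : A₀) (σ : A ≃ₐ[A₀] A)
    (x : integralClosure (Algebra.adjoin F {algebraMap A₀ A y}) A) :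
    ((resAut (F := F) (A := A) y σ x : integralClosure (Algebra.adjoin F {algebraMap A₀ A y}) A) : A) =
      σ (x : A) := rfl

/-- a fixed unit is a constant -/
theorem const_of_fixed (y : A₀)
    (hconst : ∀ x : A, IsAlgebraic F x → ∃ a, algebraMap F A a = x)
    (σ : A ≃ₐ[A₀] A) (P : ValuationSubring A)
    (hy1 : ∀ Q : ValuationSubring A, algebraMap A₀ A y ∉ Q → ∃ i : ℕ, ∀ x, x ∈ Q ↔ (σ ^ i) x ∈ P)
    (x : A) (hσx : σ x = x) (hx0 : x ≠ 0)
    (hx : x ∈ integralClosure (Algebra.adjoin F {algebraMap A₀ A y}) A)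
    (hx' : x⁻¹ ∈ integralClosure (Algebra.adjoin F {algebraMap A₀ A y}) A) :
    ∃ a : F, a ≠ 0 ∧ algebraMap F A a = x := by
  have key : ∀ z : A, σ z = z → z ∈ integralClosure (Algebra.adjoin F {algebraMap A₀ A y}) A →
      z ∈ P → ∃ a : F, algebraMap F A a = z := by
    intro z hz hzc hzP
    refine hconst z (isAlgebraic_of_forall z fun V => ?_)
    by_cases hV : algebraMap A₀ A y ∈ V
    · exact (mem_closure_iff _ _).mp hzc V hV
    · obtain ⟨i, hi⟩ := hy1 V hV
      rw [hi]
      have h1 : ∀ j : ℕ, (σ ^ j) z = z := by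
        intro j
        induction j with
        | zero => simp
        | succ j ih => rw [pow_succ, AlgEquiv.mul_apply, hz, ih]
      rwa [h1]
  rcases P.mem_or_inv_mem x with h | h
  · obtain ⟨a, ha⟩ := key x hσx hx h
    refine ⟨a, ?_, ha⟩
    rintro rfl
    rw [map_zero] at ha
    exact hx0 ha.symm
  · obtain ⟨a, ha⟩ := key x⁻¹ (by rw [map_inv₀, hσx]) hx' h
    refine ⟨a⁻¹, ?_, ?_⟩
    · intro h0
      rw [inv_eq_zero] at h0
      rw [h0, map_zero] at ha
      exact hx0 (inv_eq_zero.mp ha.symm)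
    · rw [map_inv₀, ha, inv_inv]

theorem prod_fixed (τ : A ≃ₐ[A₀] A) (n : ℕ) (hτ : τ ^ n = 1) (u : A) (hu : u ≠ 0) :
    τ (∏ i ∈ Finset.range n, (τ ^ i) u) = ∏ i ∈ Finset.range n, (τ ^ i) u := by
  rw [map_prod]
  have h1 : ∀ i : ℕ, τ ((τ ^ i) u) = (τ ^ (i + 1)) u := fun i => by
    rw [pow_succ', AlgEquiv.mul_apply]
  rw [Finset.prod_congr rfl fun i _ => h1 i]
  have h2 := Finset.prod_range_succ (fun i => (τ ^ i) u) n
  have h3 := Finset.prod_range_succ' (fun i => (τ ^ i) u) n
  rw [h2] at h3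
  simp only [hτ, pow_zero, AlgEquiv.one_apply] at h3
  exact (mul_right_cancel₀ hu h3).symm

/-- `v(u)(i) = ord (σ^{-i} u)` -/
noncomputable def valHom (n : ℕ) [NeZero n] (τ : A ≃ₐ[A₀] A) (ord : Aˣ →* Multiplicative ℤ) :
    Aˣ →* Multiplicative (ZMod n → ℤ) where
  toFun u := Multiplicative.ofAdd fun i : ZMod n =>
    (ord (Units.map ((τ ^ i.val : A ≃ₐ[A₀] A) : A →* A) u)).toAdd
  map_one' := by
    apply Multiplicative.toAdd.injective
    funext i
    simp
  map_mul' a b := by
    apply Multiplicative.toAdd.injective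
    funext i
    simp

theorem valHom_apply (n : ℕ) [NeZero n] (τ : A ≃ₐ[A₀] A) (ord : Aˣ →* Multiplicative ℤ) (u : Aˣ)
    (i : ZMod n) : (valHom n τ ord u).toAdd i =
      (ord (Units.map ((τ ^ i.val : A ≃ₐ[A₀] A) : A →* A) u)).toAdd := rfl

theorem pow_val_add_one (n : ℕ) [NeZero n] {G : Type*} [Group G] (τ : G) (hτ : τ ^ n = 1)
    (i : ZMod n) : τ ^ (i.val) = τ ^ ((i - 1).val) * τ := by
  obtain ⟨j, rfl⟩ : ∃ j, i = j + 1 := ⟨i - 1, by ring⟩
  have h0 : ∀ m : ℕ, τ ^ m = τ ^ (m % n) := fun m => pow_eq_pow_mod m hτ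
  rw [add_sub_cancel_right, ZMod.val_add, ← h0, pow_add, ZMod.val_one_eq_one_mod, ← h0, pow_one]

theorem sum_zmod_val {n : ℕ} [NeZero n] (f : ℕ → ℤ) :
    ∑ i : ZMod n, f i.val = ∑ i ∈ Finset.range n, f i := by
  refine Finset.sum_nbij' (fun i => i.val) (fun i => (i : ZMod n)) ?_ ?_ ?_ ?_ ?_
  · intro i _
    exact Finset.mem_range.mpr (ZMod.val_lt i)
  · intro i _
    exact Finset.mem_univ _
  · intro i _
    exact ZMod.natCast_zmod_val i
  · intro i hi
    exact ZMod.val_cast_of_lt (Finset.mem_range.mp hi)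
  · intro i _
    rfl

theorem fin_bound_aux (y : A₀)
    (hconst : ∀ x : A, IsAlgebraic F x → ∃ a, algebraMap F A a = x)
    (n : ℕ) (hn : 2 ≤ n) (σ : A ≃ₐ[A₀] A) (hσn : σ ^ n = 1)
    (P : ValuationSubring A) (hyP : algebraMap A₀ A y ∉ P)
    (hsplit : ∀ i : ℕ, ¬ n ∣ i → ∃ x ∈ P, (σ ^ i) x ∉ P)
    (hy1 : ∀ Q : ValuationSubring A, algebraMap A₀ A y ∉ Q → ∃ i : ℕ, ∀ x, x ∈ Q ↔ (σ ^ i) x ∈ P)
    (ord : Aˣ →* Multiplicative ℤ) (hord : ∀ x : Aˣ, (x : A) ∈ P ↔ 1 ≤ ord x)
    (htwo : ∀ Q : ValuationSubring A, Q ≠ ⊤ → P ≠ Q →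
      ∃ u : Aˣ, (u : A)⁻¹ ∉ P ∧ (u : A) ∉ Q ∧
        ∀ O : ValuationSubring A, O ≠ ⊤ → O ≠ P → O ≠ Q → (u : A) ∈ O ∧ (u : A)⁻¹ ∈ O)
    {C : Type*} [Finite C]
    (hcl : ∃ cl : (integralClosure (Algebra.adjoin F {algebraMap A₀ A y}) A)ˣ → C,
      ∀ u u' : (integralClosure (Algebra.adjoin F {algebraMap A₀ A y}) A)ˣ,
        ∏ i ∈ Finset.range n, (σ ^ i) ((u : integralClosure (Algebra.adjoin F {algebraMap A₀ A y}) A) : A) = 1 →
        ∏ i ∈ Finset.range n, (σ ^ i) ((u' : integralClosure (Algebra.adjoin F {algebraMap A₀ A y}) A) : A) = 1 → cl u = cl u' →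
        ∃ w : (integralClosure (Algebra.adjoin F {algebraMap A₀ A y}) A)ˣ,
          ((u' : integralClosure (Algebra.adjoin F {algebraMap A₀ A y}) A) : A) * ((w : integralClosure (Algebra.adjoin F {algebraMap A₀ A y}) A) : A) =
            ((u : integralClosure (Algebra.adjoin F {algebraMap A₀ A y}) A) : A) * σ ((w : integralClosure (Algebra.adjoin F {algebraMap A₀ A y}) A) : A)) :
    n ≤ Nat.card Fˣ * Nat.card C := by
  classical
  have hn0 : NeZero n := ⟨by omega⟩
  have hn1 : Fact (1 < n) := ⟨by omega⟩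
  set S := integralClosure (Algebra.adjoin F {algebraMap A₀ A y}) A with hS
  set τ : A ≃ₐ[A₀] A := σ⁻¹ with hτdef
  have hτn : τ ^ n = 1 := by rw [hτdef, inv_pow, hσn, inv_one]
  -- units of `S` inside `A`
  let ι : Sˣ →* Aˣ := Units.map S.val.toRingHom.toMonoidHom
  have hι : ∀ u : Sˣ, ((ι u : Aˣ) : A) = ((u : S) : A) := fun u => rfl
  have hιinv : ∀ u : Sˣ, ((ι u : Aˣ) : A)⁻¹ = ((u⁻¹ : Sˣ) : S) := fun u => by
    rw [← Units.val_inv_eq_inv_val, ← map_inv, hι]
  have hιinj : Function.Injective ι := by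
    intro a b h
    apply Units.ext
    apply Subtype.ext
    rw [← hι, ← hι, h]
  have hιsurj : ∀ a : Aˣ, (a : A) ∈ S → (a : A)⁻¹ ∈ S → ∃ u : Sˣ, ι u = a := by
    intro a h1 h2
    refine ⟨⟨⟨a, h1⟩, ⟨(a : A)⁻¹, h2⟩, Subtype.ext (mul_inv_cancel₀ a.ne_zero),
      Subtype.ext (inv_mul_cancel₀ a.ne_zero)⟩, Units.ext rfl⟩
  -- the automorphism of `Sˣ`
  let s : Sˣ ≃* Sˣ := Units.mapEquiv (resAut (F := F) (A := A) y σ).toMulEquiv
  have hs : ∀ u : Sˣ, ((s u : Sˣ) : S) = resAut (F := F) (A := A) y σ u := fun u => rfl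
  have hspow : ∀ (i : ℕ) (u : Sˣ), ((((s ^ i) u : Sˣ) : S) : A) = (σ ^ i) ((u : S) : A) := by
    intro i
    induction i with
    | zero => intro u; simp
    | succ i ih =>
      intro u
      rw [pow_succ, MulAut.mul_apply, ih, pow_succ, AlgEquiv.mul_apply]
      rfl
  have hsn : s ^ n = 1 := by
    ext u
    rw [hspow, hσn]
    rfl
  have hprod : ∀ u : Sˣ, ((ι (∏ i ∈ Finset.range n, (s ^ i) u) : Aˣ) : A) =
      ∏ i ∈ Finset.range n, (σ ^ i) ((u : S) : A) := by
    intro u
    rw [map_prod, Units.coe_prod]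
    exact Finset.prod_congr rfl fun i _ => by rw [hι, hspow]
  -- constants
  let cst : Fˣ →* Sˣ := Units.map (algebraMap F S).toMonoidHom
  have hcst : ∀ a : Fˣ, (((cst a : Sˣ) : S) : A) = algebraMap F A a := fun a => rfl
  have hFfin : Finite cst.range := Finite.of_surjective _ cst.rangeRestrict_surjective
  have hFcard : Nat.card cst.range ≤ Nat.card Fˣ :=
    Nat.card_le_card_of_surjective _ cst.rangeRestrict_surjective
  have hF : ∀ u, ∏ i ∈ Finset.range n, (s ^ i) u ∈ cst.range := by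
    intro u
    have h1 := hprod u
    obtain ⟨a, ha0, ha⟩ := const_of_fixed y hconst σ P hy1
      ((ι (∏ i ∈ Finset.range n, (s ^ i) u) : Aˣ) : A)
      (by
        rw [h1]
        refine prod_fixed σ n hσn _ ?_
        have := (ι u).ne_zero
        rwa [hι] at this)
      (Units.ne_zero _) (by rw [hι]; exact Subtype.property _)
      (by rw [hιinv]; exact Subtype.property _)
    refine ⟨Units.mk0 a ha0, ?_⟩
    apply Units.ext
    apply Subtype.ext
    rw [hcst]
    exact ha
  -- the valuation vector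
  let v : Sˣ →* Multiplicative (ZMod n → ℤ) := (valHom n τ ord).comp ι
  have hv : ∀ (u : Sˣ) (i : ZMod n), (v u).toAdd i =
      (ord (Units.map ((τ ^ i.val : A ≃ₐ[A₀] A) : A →* A) (ι u))).toAdd := fun u i => rfl
  have hvσ : ∀ u i, (v (s u)).toAdd i = (v u).toAdd (i - 1) := by
    intro u i
    rw [hv, hv, pow_val_add_one n τ hτn i]
    congr 2
    apply Units.ext
    change (τ ^ (i - 1).val * τ) ((ι (s u) : Aˣ) : A) = (τ ^ (i - 1).val) ((ι u : Aˣ) : A)
    rw [AlgEquiv.mul_apply, hι, hι]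
    congr 1
    have h1 := hspow 1 u
    rw [pow_one, pow_one] at h1
    rw [h1]
    exact σ.symm_apply_apply _
  have hordc : ∀ a : Aˣ, (∃ b : F, b ≠ 0 ∧ algebraMap F A b = a) → ord a = 1 := by
    rintro a ⟨b, hb, hba⟩
    have h1 : ∀ c : Aˣ, (∃ b : F, algebraMap F A b = c) → 1 ≤ ord c := by
      rintro c ⟨b, hbc⟩
      rw [← hord, ← hbc]
      exact algebraMap_mem P b
    refine le_antisymm ?_ (h1 a ⟨b, hba⟩)
    have h2 := h1 a⁻¹ ⟨b⁻¹, by rw [map_inv₀, hba, Units.val_inv_eq_inv_val]⟩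
    rwa [map_inv, one_le_inv'] at h2
  have hv0 : ∀ u, ∑ i, (v u).toAdd i = 0 := by
    intro u
    have h1 : ∑ i, (v u).toAdd i = (ord (∏ i ∈ Finset.range n,
        Units.map ((τ ^ i : A ≃ₐ[A₀] A) : A →* A) (ι u))).toAdd := by
      rw [map_prod, toAdd_prod]
      simp only [hv]
      exact sum_zmod_val fun i => (ord (Units.map ((τ ^ i : A ≃ₐ[A₀] A) : A →* A) (ι u))).toAdd
    have h2 : ((∏ i ∈ Finset.range n, Units.map ((τ ^ i : A ≃ₐ[A₀] A) : A →* A) (ι u) : Aˣ) : A) =
        ∏ i ∈ Finset.range n, (τ ^ i) ((ι u : Aˣ) : A) := by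
      rw [Units.coe_prod]
      rfl
    have h3 := prod_fixed τ n hτn ((ι u : Aˣ) : A) (Units.ne_zero _)
    have hmem : ∀ u : Sˣ, ∏ i ∈ Finset.range n, (τ ^ i) ((ι u : Aˣ) : A) ∈ S := by
      intro u
      refine S.prod_mem fun i _ => ?_
      exact map_mem _ (u : S).2
    have h4 := const_of_fixed y hconst σ P hy1
      ((∏ i ∈ Finset.range n, Units.map ((τ ^ i : A ≃ₐ[A₀] A) : A →* A) (ι u) : Aˣ) : A)
      (by
        rw [h2]
        conv_lhs => rw [← h3]
        exact σ.apply_symm_apply _)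
      (Units.ne_zero _) (by rw [h2]; exact hmem u)
      (by
        rw [h2, ← Finset.prod_inv_distrib]
        have h5 : ∀ i : ℕ, ((τ ^ i) ((ι u : Aˣ) : A))⁻¹ = (τ ^ i) ((ι u⁻¹ : Aˣ) : A) := by
          intro i
          rw [← map_inv₀, hιinv]
          rfl
        rw [Finset.prod_congr rfl fun i _ => h5 i]
        exact hmem u⁻¹)
    rw [h1, hordc _ h4]
    rfl
  -- a unit with divisor `h (P - σ P)`
  have hQmem : ∀ (i : ℕ) (x : A), x ∈ P.comap ((τ ^ i : A ≃ₐ[A₀] A) : A →+* A) ↔
      (τ ^ i) x ∈ P := fun i x => Iff.rfl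
  have hτσ : ∀ (i : ℕ) (x : A), (τ ^ i) ((σ ^ i) x) = x := by
    intro i x
    rw [← AlgEquiv.mul_apply, hτdef, inv_pow, inv_mul_cancel]
    rfl
  have hyQ : ∀ i : ℕ, algebraMap A₀ A y ∉ P.comap ((τ ^ i : A ≃ₐ[A₀] A) : A →+* A) := by
    intro i h
    rw [hQmem, AlgEquiv.commutes] at h
    exact hyP h
  have hQtop : ∀ i : ℕ, P.comap ((τ ^ i : A ≃ₐ[A₀] A) : A →+* A) ≠ ⊤ := by
    intro i h
    exact hyQ i (h ▸ ValuationSubring.mem_top _)
  have hQP : ∀ i j : ℕ, i ≤ j → ¬ n ∣ (j - i) →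
      P.comap ((τ ^ j : A ≃ₐ[A₀] A) : A →+* A) ≠ P.comap ((τ ^ i : A ≃ₐ[A₀] A) : A →+* A) := by
    intro i j hij hd h
    obtain ⟨x, hx, hx'⟩ := hsplit (j - i) hd
    -- test on `σ^j x`
    have h1 : (σ ^ j) x ∈ P.comap ((τ ^ j : A ≃ₐ[A₀] A) : A →+* A) := by
      rw [hQmem, hτσ]
      exact hx
    rw [h, hQmem] at h1
    have h2 : (σ ^ j) x = (σ ^ i) ((σ ^ (j - i)) x) := by
      rw [← AlgEquiv.mul_apply, ← pow_add, Nat.add_sub_cancel' hij]
    rw [h2, hτσ] at h1
    exact hx' h1
  have hP0 : P = P.comap ((τ ^ 0 : A ≃ₐ[A₀] A) : A →+* A) := by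
    ext x
    rw [hQmem]
    simp
  have hvfull : ∃ h : ℤ, h ≠ 0 ∧ ∃ u, (v u).toAdd = h • (Pi.single 0 1 - Pi.single 1 1) := by
    have hPQ : P ≠ P.comap ((τ ^ 1 : A ≃ₐ[A₀] A) : A →+* A) := by
      intro h
      refine hQP 0 1 (by omega) (fun hd => ?_) (h.symm.trans hP0)
      exact absurd (Nat.le_of_dvd (by omega) hd) (by omega)
    obtain ⟨a, ha1, ha2, ha3⟩ := htwo _ (hQtop 1) hPQ
    have haS : (a : A) ∈ S ∧ (a : A)⁻¹ ∈ S := by
      have h1 : ∀ V : ValuationSubring A, algebraMap A₀ A y ∈ V → (a : A) ∈ V ∧ (a : A)⁻¹ ∈ V := by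
        intro V hV
        by_cases hT : V = ⊤
        · rw [hT]
          exact ⟨ValuationSubring.mem_top _, ValuationSubring.mem_top _⟩
        · refine ha3 V hT ?_ ?_
          · rintro rfl
            exact hyP hV
          · rintro rfl
            exact hyQ 1 hV
      exact ⟨(mem_closure_iff _ _).mpr fun V hV => (h1 V hV).1,
        (mem_closure_iff _ _).mpr fun V hV => (h1 V hV).2⟩
    obtain ⟨u, hu⟩ := hιsurj a haS.1 haS.2
    have hw : ∀ i : ℕ, 1 ≤ ord (Units.map ((τ ^ i : A ≃ₐ[A₀] A) : A →* A) a) ↔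
        (a : A) ∈ P.comap ((τ ^ i : A ≃ₐ[A₀] A) : A →+* A) := by
      intro i
      rw [← hord]
      rfl
    have hw' : ∀ i : ℕ, ord (Units.map ((τ ^ i : A ≃ₐ[A₀] A) : A →* A) a) ≤ 1 ↔
        (a : A)⁻¹ ∈ P.comap ((τ ^ i : A ≃ₐ[A₀] A) : A →+* A) := by
      intro i
      rw [← one_le_inv', ← map_inv, ← map_inv, ← hord]
      rw [hQmem]
      rw [Units.coe_map, Units.val_inv_eq_inv_val]
      rfl
    have h0 : 1 < ord (Units.map ((τ ^ 0 : A ≃ₐ[A₀] A) : A →* A) a) := by
      rw [← not_le, hw', ← hP0]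
      exact ha1
    have hi : ∀ i : ZMod n, i ≠ 0 → i ≠ 1 → (v u).toAdd i = 0 := by
      intro i hi0 hi1
      have hval0 : i.val ≠ 0 := fun h => hi0 ((ZMod.val_eq_zero i).mp h)
      have hval1 : i.val ≠ 1 := by
        intro h
        apply hi1
        rw [← ZMod.natCast_zmod_val i, h, Nat.cast_one]
      have hlt := ZMod.val_lt i
      obtain ⟨h1, h2⟩ := ha3 (P.comap ((τ ^ i.val : A ≃ₐ[A₀] A) : A →+* A)) (hQtop _)
        (fun h => hQP 0 i.val (by omega)
          (fun hd => absurd (Nat.le_of_dvd (by omega) hd) (by omega)) (h.trans hP0))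
        (hQP 1 i.val (by omega)
          (fun hd => absurd (Nat.le_of_dvd (by omega) hd) (by omega)))
      rw [hv, hu]
      have h3 := le_antisymm ((hw' _).mpr h2) ((hw _).mpr h1)
      rw [h3]
      rfl
    have h01 : (0 : ZMod n) ≠ 1 := zero_ne_one
    have hsum := hv0 u
    rw [← Finset.sum_subset (Finset.subset_univ {(0 : ZMod n), 1}) (fun i _ hi' => by
      simp only [Finset.mem_insert, Finset.mem_singleton, not_or] at hi'
      exact hi i hi'.1 hi'.2), Finset.sum_pair h01] at hsum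
    refine ⟨(v u).toAdd 0, ?_, u, ?_⟩
    · rw [hv, hu, ZMod.val_zero]
      intro h
      have h1 : ord (Units.map ((τ ^ 0 : A ≃ₐ[A₀] A) : A →* A) a) = 1 :=
        Multiplicative.toAdd.injective h
      rw [h1] at h0
      exact lt_irrefl _ h0
    · funext i
      simp only [Pi.smul_apply, Pi.sub_apply, Pi.single_apply, smul_eq_mul]
      by_cases hi0 : i = 0
      · subst hi0
        simp [h01]
      · by_cases hi1 : i = 1
        · subst hi1
          simp only [h01.symm, if_false, if_true]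
          linarith
        · rw [hi i hi0 hi1]
          simp [hi0, hi1]
  obtain ⟨cl, hcl⟩ := hcl
  have hfin := index_bound n s hsn cst.range hF v hvσ hv0 hvfull cl (by
    intro u u' h1 h2 h3
    obtain ⟨w, hw⟩ := hcl u u'
      (by rw [← hprod, h1, map_one, Units.val_one])
      (by rw [← hprod, h2, map_one, Units.val_one]) h3
    refine ⟨w, ?_⟩
    apply Units.ext
    apply Subtype.ext
    exact hw)
  exact hfin.trans (Nat.mul_le_mul_right _ hFcard)

end Main

end FinB

end Pool.Agent.Lib.MP_2f3286_ag.Full
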