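import Mathlib

open Polynomial IntermediateField IsDedekindDomain NumberField
open scoped Pointwise

namespace Pool.Agent.Lib.MP_2f3286_ag.Full

open Classical in
theorem galois_ring {S G : Type*} [CommRing S] [Group G] [Finite G] [MulSemiringAction G S]
    (h : ∀ g : G, g ≠ 1 → Ideal.span (Set.range fun b : S => b - g • b) = ⊤) :
    ∃ (n : ℕ) (x y : Fin n → S), ∀ g : G, ∑ i, x i * g • y i = if g = 1 then 1 else 0 := by
  have := Fintype.ofFinite G
  let m : G → (TensorProduct ℤ S S →ₐ[ℤ] S) := fun g =>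
    Algebra.TensorProduct.lift (AlgHom.id ℤ S) (MulSemiringAction.toRingHom G S g).toIntAlgHom
      (fun _ _ => Commute.all _ _)
  have hm : ∀ g x y, m g (x ⊗ₜ y) = x * g • y := by
    intro g x y
    simp [m]
  have key : ∀ g : G, g ≠ 1 → ∃ e : TensorProduct ℤ S S, m 1 e = 1 ∧ m g e = 0 := by
    intro g hg
    have h1 : (1 : S) ∈ Ideal.span (Set.range fun b : S => b - g • b) := by
      rw [h g hg]; trivial
    rw [Ideal.span, Finsupp.mem_span_range_iff_exists_finsupp] at h1
    obtain ⟨c, hc⟩ := h1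
    refine ⟨∑ b ∈ c.support, (c b) ⊗ₜ b - (∑ b ∈ c.support, c b * g • b) ⊗ₜ 1, ?_, ?_⟩
    · rw [map_sub, map_sum, hm]
      simp only [hm, one_smul, mul_one]
      rw [← Finset.sum_sub_distrib, ← hc, Finsupp.sum]
      refine Finset.sum_congr rfl fun b _ => ?_
      rw [smul_eq_mul]; ring
    · rw [map_sub, map_sum, hm]
      simp only [hm, smul_one, mul_one, sub_self]
  choose! e he using key
  let E : TensorProduct ℤ S S := ∏ g ∈ Finset.univ.filter (fun g : G => g ≠ 1), e g
  have hE1 : m 1 E = 1 := by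
    rw [map_prod]
    refine Finset.prod_eq_one fun g hg => (he g ?_).1
    simpa using hg
  have hE : ∀ g, g ≠ 1 → m g E = 0 := by
    intro g hg
    rw [map_prod]
    exact Finset.prod_eq_zero (i := g) (by simpa using hg) (he g hg).2
  obtain ⟨T, hT⟩ := TensorProduct.exists_finset E
  refine ⟨T.card, fun i => (T.equivFin.symm i).1.1, fun i => (T.equivFin.symm i).1.2, ?_⟩
  intro g
  have h2 : ∑ i, (T.equivFin.symm i).1.1 * g • (T.equivFin.symm i).1.2 = m g E := by
    rw [hT, map_sum, Equiv.sum_comp T.equivFin.symm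
      (fun z : T => (z.1.1 : S) * g • z.1.2), ← Finset.sum_coe_sort T (fun z => m g (z.1 ⊗ₜ z.2))]
    refine Finset.sum_congr rfl fun z _ => ?_
    rw [hm]
  rw [h2]
  split_ifs with hg
  · rw [hg, hE1]
  · exact hE g hg

theorem capitulation {R S : Type*} [CommRing R] [IsDedekindDomain R] [CommRing S]
    [IsDomain S] [Algebra R S] [FaithfulSMul R S] (σ : S ≃ₐ[R] S) (n : ℕ) (hn : 1 ≤ n)
    (hσ : σ ^ n = 1) (hinv : ∀ x : S, σ x = x → ∃ y, algebraMap R S y = x)
    (hunr : ∀ i : ℕ, ¬ n ∣ i → Ideal.span (Set.range fun b : S => b - (σ ^ i) b) = ⊤) :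
    ∃ cl : Sˣ → ClassGroup R, ∀ u u' : Sˣ, ∏ i ∈ Finset.range n, (σ ^ i) (u : S) = 1 →
      ∏ i ∈ Finset.range n, (σ ^ i) (u' : S) = 1 → cl u = cl u' →
      ∃ w : Sˣ, (u' : S) * w = u * σ w := by
  classical
  have hinj : Function.Injective (algebraMap R S) := FaithfulSMul.algebraMap_injective R S
  have hord : ∀ i : ℕ, σ ^ i = 1 → n ∣ i := by
    intro i hi
    by_contra hni
    have := hunr i hni
    rw [hi] at this
    simp only [AlgEquiv.one_apply, sub_self, Set.range_const, Ideal.span_singleton_eq_top] at this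
    exact not_isUnit_zero this
  -- descent data
  obtain ⟨N, x, y, hxy⟩ : ∃ (N : ℕ) (x y : Fin N → S), ∀ k < n,
      ∑ i, x i * (σ ^ k) (y i) = if k = 0 then 1 else 0 := by
    have hfin : Finite (Subgroup.zpowers σ) := by
      have : IsOfFinOrder σ := isOfFinOrder_iff_pow_eq_one.2 ⟨n, hn, hσ⟩
      exact Finite.of_equiv _ (finEquivZPowers this)
    obtain ⟨N, x, y, hxy⟩ := galois_ring (S := S) (G := Subgroup.zpowers σ) (by
      intro g hg
      obtain ⟨g, hg'⟩ := g
      have : IsOfFinOrder σ := isOfFinOrder_iff_pow_eq_one.2 ⟨n, hn, hσ⟩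
      obtain ⟨i, rfl⟩ := (this.mem_powers_iff_mem_zpowers).2 hg'
      have hni : ¬ n ∣ i := by
        rintro ⟨c, rfl⟩
        apply hg
        ext1
        simp [pow_mul, hσ]
      exact hunr i hni)
    refine ⟨N, x, y, fun k hk => ?_⟩
    have h1 := hxy ⟨σ ^ k, Subgroup.pow_mem _ (Subgroup.mem_zpowers σ) k⟩
    have h2 : ((⟨σ ^ k, Subgroup.pow_mem _ (Subgroup.mem_zpowers σ) k⟩ :
        Subgroup.zpowers σ) = 1) ↔ k = 0 := by
      rw [Subtype.ext_iff]
      constructor
      · intro h
        have := hord k h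
        exact Nat.eq_zero_of_dvd_of_lt this hk
      · rintro rfl
        rfl
    simp only [h2] at h1
    exact h1
  -- Hilbert 90
  have h90 : ∀ u : Sˣ, ∏ i ∈ Finset.range n, (σ ^ i) (u : S) = 1 →
      ∃ a : S, a ≠ 0 ∧ a = u * σ a := by
    intro u hu
    let f : Fin n → (S →* S) := fun i => ((σ ^ (i : ℕ) : S ≃ₐ[R] S) : S →* S)
    have hf : Function.Injective f := by
      intro i j hij
      have h1 : ∀ b : S, (σ ^ (i : ℕ)) b = (σ ^ (j : ℕ)) b := fun b => DFunLike.congr_fun hij b
      have h2 : σ ^ (i : ℕ) = σ ^ (j : ℕ) := AlgEquiv.ext h1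
      rcases le_total (i : ℕ) j with hle | hle
      · have h3 : σ ^ ((j : ℕ) - i) = 1 := by
          rw [← mul_right_inj (σ ^ (i : ℕ)), ← pow_add, Nat.add_sub_cancel' hle, h2, mul_one]
        have h4 := Nat.eq_zero_of_dvd_of_lt (hord _ h3) (by omega)
        exact Fin.ext (by omega)
      · have h3 : σ ^ ((i : ℕ) - j) = 1 := by
          rw [← mul_right_inj (σ ^ (j : ℕ)), ← pow_add, Nat.add_sub_cancel' hle, h2, mul_one]
        have h4 := Nat.eq_zero_of_dvd_of_lt (hord _ h3) (by omega)
        exact Fin.ext (by omega)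
    have hli := (linearIndependent_monoidHom S S).comp f hf
    rw [Fintype.linearIndependent_iff] at hli
    let P : ℕ → S := fun i => ∏ j ∈ Finset.range i, (σ ^ j) (u : S)
    have hne : ∃ c : S, ∑ i : Fin n, P i * (σ ^ (i : ℕ)) c ≠ 0 := by
      by_contra hcon
      push Not at hcon
      have := hli (fun i => P i) (by
        funext c
        have := hcon c
        simpa [f, Finset.sum_apply] using this) ⟨0, hn⟩
      simp [P] at this
    obtain ⟨c, hc⟩ := hne
    rw [Fin.sum_univ_eq_sum_range (fun i => P i * (σ ^ i) c)] at hc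
    refine ⟨_, hc, ?_⟩
    have hP : ∀ i, (u : S) * σ (P i) = P (i + 1) := by
      intro i
      simp only [P, map_prod]
      rw [Finset.prod_range_succ']
      simp only [pow_zero, AlgEquiv.one_apply]
      rw [mul_comm]
      congr 1
      refine Finset.prod_congr rfl fun j _ => ?_
      rw [pow_succ', AlgEquiv.mul_apply]
    have h5 : (u : S) * σ (∑ i ∈ Finset.range n, P i * (σ ^ i) c) =
        ∑ i ∈ Finset.range n, P (i + 1) * (σ ^ (i + 1)) c := by
      rw [map_sum, Finset.mul_sum]
      refine Finset.sum_congr rfl fun i _ => ?_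
      rw [map_mul, ← mul_assoc, hP, pow_succ', AlgEquiv.mul_apply]
    rw [h5]
    have h6 := Finset.sum_range_succ' (fun i => P i * (σ ^ i) c) n
    have h7 := Finset.sum_range_succ (fun i => P i * (σ ^ i) c) n
    have hPn : P n = 1 := hu
    have hP0 : P 0 = 1 := by simp [P]
    rw [h7, hPn, hP0, hσ, pow_zero] at h6
    exact add_right_cancel h6
  -- the ideals
  have hdesc : ∀ a : S, ∀ u : Sˣ, a = u * σ a →
      Ideal.map (algebraMap R S) (Ideal.comap (algebraMap R S) (Ideal.span {a})) =
        Ideal.span {a} := by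
    intro a u ha
    refine le_antisymm Ideal.map_comap_le ?_
    have hst : ∀ z ∈ Ideal.span {a}, σ z ∈ Ideal.span {a} := by
      intro z hz
      rw [Ideal.mem_span_singleton] at hz ⊢
      obtain ⟨w, rfl⟩ := hz
      have : σ a = a * (↑u⁻¹ : S) := by
        conv_rhs => rw [ha]
        rw [mul_comm (u : S), mul_assoc, Units.mul_inv, mul_one]
      rw [map_mul, this]
      exact ⟨(↑u⁻¹ : S) * σ w, by ring⟩
    have hstk : ∀ k : ℕ, ∀ z ∈ Ideal.span {a}, (σ ^ k) z ∈ Ideal.span {a} := by
      intro k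
      induction k with
      | zero => intro z hz; simpa using hz
      | succ k ih =>
        intro z hz
        rw [pow_succ', AlgEquiv.mul_apply]
        exact hst _ (ih z hz)
    have htr : ∀ z : S, ∃ r : R, algebraMap R S r = ∑ k ∈ Finset.range n, (σ ^ k) z := by
      intro z
      apply hinv
      rw [map_sum]
      have h6 := Finset.sum_range_succ' (fun i => (σ ^ i) z) n
      have h7 := Finset.sum_range_succ (fun i => (σ ^ i) z) n
      rw [h7, hσ, pow_zero] at h6
      have h8 : ∑ k ∈ Finset.range n, σ ((σ ^ k) z) = ∑ k ∈ Finset.range n, (σ ^ (k + 1)) z := by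
        refine Finset.sum_congr rfl fun k _ => ?_
        rw [pow_succ', AlgEquiv.mul_apply]
      rw [h8]
      exact (add_right_cancel h6).symm
    rw [Ideal.span_singleton_le_iff_mem]
    have h9 : a = ∑ i, x i * ∑ k ∈ Finset.range n, (σ ^ k) (y i * a) := by
      have : ∀ i, x i * ∑ k ∈ Finset.range n, (σ ^ k) (y i * a) =
          ∑ k ∈ Finset.range n, (x i * (σ ^ k) (y i)) * (σ ^ k) a := by
        intro i
        rw [Finset.mul_sum]
        refine Finset.sum_congr rfl fun k _ => ?_
        rw [map_mul]; ring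
      simp only [this]
      rw [Finset.sum_comm]
      simp only [← Finset.sum_mul]
      rw [Finset.sum_eq_single_of_mem 0 (Finset.mem_range.2 hn)]
      · rw [hxy 0 hn]; simp
      · intro k hk hk0
        rw [hxy k (Finset.mem_range.1 hk), if_neg hk0, zero_mul]
    have h11 : ∑ i, x i * ∑ k ∈ Finset.range n, (σ ^ k) (y i * a) ∈
        Ideal.map (algebraMap R S) (Ideal.comap (algebraMap R S) (Ideal.span {a})) := by
      refine Ideal.sum_mem _ fun i _ => Ideal.mul_mem_left _ _ ?_
      obtain ⟨r, hr⟩ := htr (y i * a)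
      rw [← hr]
      apply Ideal.mem_map_of_mem
      rw [Ideal.mem_comap, hr]
      exact Ideal.sum_mem _ fun k _ =>
        hstk k _ (Ideal.mul_mem_left _ _ (Ideal.mem_span_singleton_self a))
    rwa [← h9] at h11
  choose! A hA using h90
  have hne0 : ∀ u : Sˣ, ∏ i ∈ Finset.range n, (σ ^ i) (u : S) = 1 →
      Ideal.comap (algebraMap R S) (Ideal.span {A u}) ∈ nonZeroDivisors (Ideal R) := by
    intro u hu
    rw [mem_nonZeroDivisors_iff_ne_zero]
    intro h0
    have h1 := hdesc (A u) u (hA u hu).2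
    rw [h0] at h1
    simp only [Ideal.zero_eq_bot, Ideal.map_bot] at h1
    exact (hA u hu).1 (Ideal.span_singleton_eq_bot.1 h1.symm)
  refine ⟨fun u => if hu : ∏ i ∈ Finset.range n, (σ ^ i) (u : S) = 1 then
    ClassGroup.mk0 ⟨_, hne0 u hu⟩ else 1, ?_⟩
  intro u u' hu hu' hcl
  simp only [dif_pos hu, dif_pos hu'] at hcl
  rw [ClassGroup.mk0_eq_mk0_iff] at hcl
  obtain ⟨r, r', hr, hr', hrr⟩ := hcl
  have h10 := congrArg (Ideal.map (algebraMap R S)) hrr
  simp only [Ideal.map_mul, Ideal.map_span, Set.image_singleton] at h10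
  rw [hdesc (A u) u (hA u hu).2, hdesc (A u') u' (hA u' hu').2,
    Ideal.span_singleton_mul_span_singleton, Ideal.span_singleton_mul_span_singleton,
    Ideal.span_singleton_eq_span_singleton] at h10
  obtain ⟨w, hw⟩ := h10.symm
  -- r' A' w = r A
  refine ⟨w, ?_⟩
  have hr0 : algebraMap R S r' ≠ 0 := by
    rwa [Ne, FaithfulSMul.algebraMap_eq_zero_iff]
  have hsA : σ (A u') ≠ 0 := by
    rw [Ne, EmbeddingLike.map_eq_zero_iff]
    exact (hA u' hu').1
  have e1 : A u = u * σ (A u) := (hA u hu).2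
  have e2 : A u' = u' * σ (A u') := (hA u' hu').2
  have e3 : algebraMap R S r' * σ (A u') * σ w = algebraMap R S r * σ (A u) := by
    have := congrArg σ hw
    simpa [map_mul] using this
  have e4 : algebraMap R S r' * σ (A u') * ((u' : S) * w) =
      algebraMap R S r' * σ (A u') * (u * σ w) := by
    calc algebraMap R S r' * σ (A u') * ((u' : S) * w)
        = algebraMap R S r' * (u' * σ (A u')) * w := by ring
      _ = algebraMap R S r' * A u' * w := by rw [← e2]
      _ = algebraMap R S r * A u := hw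
      _ = algebraMap R S r * (u * σ (A u)) := by rw [← e1]
      _ = u * (algebraMap R S r * σ (A u)) := by ring
      _ = u * (algebraMap R S r' * σ (A u') * σ w) := by rw [e3]
      _ = algebraMap R S r' * σ (A u') * (u * σ w) := by ring
  exact mul_left_cancel₀ (mul_ne_zero hr0 hsA) e4

end Pool.Agent.Lib.MP_2f3286_ag.Full
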