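import Mathlib
import Pool.Agent.Lib.MP_2f3286_ag.Full.FinBAux
import Pool.Agent.Lib.MP_2f3286_ag.Full.GR
import Pool.Agent.Lib.MP_2f3286_ag.Full.Cls

/-!
# Theorem F, module FINB: the degree of an unramified cyclic extension that is totally split
over infinity is bounded
-/

open Polynomial IntermediateField

namespace Pool.Agent.Lib.MP_2f3286_ag.Full

theorem fin_bound {F A₀ A : Type*} [Field F] [Finite F] [Field A₀] [Field A] [Algebra F A₀]
    [Algebra A₀ A] [Algebra F A] [IsScalarTower F A₀ A] [FiniteDimensional A₀ A] (y : A₀)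
    (hy : Transcendental F y) [FiniteDimensional (adjoin F {y}) A₀]
    [Algebra.IsSeparable (adjoin F {y}) A₀]
    (hconst : ∀ x : A, IsAlgebraic F x → ∃ a, algebraMap F A a = x)
    (n : ℕ) (hn : 2 ≤ n) (σ : A ≃ₐ[A₀] A) (hσn : σ ^ n = 1)
    (hfix : ∀ x, σ x = x → ∃ a, algebraMap A₀ A a = x)
    (P : ValuationSubring A) (hyP : algebraMap A₀ A y ∉ P)
    (hsplit : ∀ i : ℕ, ¬ n ∣ i → ∃ x ∈ P, (σ ^ i) x ∉ P)
    (hy1 : ∀ Q : ValuationSubring A, algebraMap A₀ A y ∉ Q → ∃ i : ℕ, ∀ x, x ∈ Q ↔ (σ ^ i) x ∈ P)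
    (hunr : ∀ i : ℕ, ¬ n ∣ i →
      ∀ 𝔪 : Ideal (integralClosure (Algebra.adjoin F {algebraMap A₀ A y}) A), 𝔪.IsMaximal →
      ∃ b b' : integralClosure (Algebra.adjoin F {algebraMap A₀ A y}) A,
        (b' : A) = (σ ^ i) (b : A) ∧ b - b' ∉ 𝔪) :
    n ≤ Nat.card Fˣ * Nat.card (ClassGroup (integralClosure (Algebra.adjoin F {y}) A₀)) := by
  obtain ⟨hDed, hfin, -⟩ := class_fin (F := F) y hy
  have hfd : FiniteDimensional (adjoin F {algebraMap A₀ A y}) A := FinB.finite_adjoin y
  have hty : Transcendental F (algebraMap A₀ A y) := FinB.transcendental_map hy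
  have hP : P ≠ ⊤ := by
    rintro rfl
    exact hyP (ValuationSubring.mem_top _)
  obtain ⟨ord, -, hord⟩ := exists_ord (F := F) (algebraMap A₀ A y) hty P hP
  refine FinB.fin_bound_aux (F := F) y hconst n hn σ hσn P hyP hsplit hy1 ord hord
    (fun Q hQ hPQ => exists_two_point_unit (F := F) (algebraMap A₀ A y) hty P Q hP hQ hPQ) ?_
  let _ : Algebra (integralClosure (Algebra.adjoin F {y}) A₀)
      (integralClosure (Algebra.adjoin F {algebraMap A₀ A y}) A) := (FinB.clMap y).toAlgebra
  have halg : ∀ b : integralClosure (Algebra.adjoin F {y}) A₀,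
      ((algebraMap (integralClosure (Algebra.adjoin F {y}) A₀)
        (integralClosure (Algebra.adjoin F {algebraMap A₀ A y}) A) b :
          integralClosure (Algebra.adjoin F {algebraMap A₀ A y}) A) : A) =
        algebraMap A₀ A (b : A₀) := fun b => rfl
  have hfaith : FaithfulSMul (integralClosure (Algebra.adjoin F {y}) A₀)
      (integralClosure (Algebra.adjoin F {algebraMap A₀ A y}) A) := by
    rw [faithfulSMul_iff_algebraMap_injective]
    intro a b h
    apply Subtype.ext
    apply (algebraMap A₀ A).injective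
    rw [← halg, ← halg, h]
  let σ' : integralClosure (Algebra.adjoin F {algebraMap A₀ A y}) A
      ≃ₐ[integralClosure (Algebra.adjoin F {y}) A₀]
      integralClosure (Algebra.adjoin F {algebraMap A₀ A y}) A :=
    AlgEquiv.ofRingEquiv (f := FinB.resAut (F := F) (A := A) y σ) (by
      intro b
      apply Subtype.ext
      rw [FinB.resAut_coe, halg]
      exact σ.commutes _)
  have hσ' : ∀ x, ((σ' x : integralClosure (Algebra.adjoin F {algebraMap A₀ A y}) A) : A) =
      σ (x : A) := fun x => rfl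
  have hσp : ∀ (i : ℕ) x, (((σ' ^ i) x : integralClosure (Algebra.adjoin F {algebraMap A₀ A y}) A) :
      A) = (σ ^ i) (x : A) := by
    intro i
    induction i with
    | zero => intro x; simp
    | succ i ih =>
      intro x
      rw [pow_succ, AlgEquiv.mul_apply, ih, hσ', pow_succ, AlgEquiv.mul_apply]
  obtain ⟨cl, hcl⟩ := capitulation σ' n (by omega)
    (by
      ext x
      rw [hσp, hσn]
      rfl)
    (by
      intro x hx
      obtain ⟨a, ha⟩ := hfix (x : A) (by rw [← hσ', hx])
      refine ⟨⟨a, ?_⟩, ?_⟩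
      · have h1 := x.2
        rw [← ha] at h1
        exact (FinB.isIntegral_iff y a).mp h1
      · apply Subtype.ext
        rw [halg]
        exact ha)
    (by
      intro i hi
      by_contra hne
      obtain ⟨𝔪, h𝔪, hle⟩ := Ideal.exists_le_maximal _ hne
      obtain ⟨b, b', hb, hbm⟩ := hunr i hi 𝔪 h𝔪
      apply hbm
      apply hle
      apply Ideal.subset_span
      refine ⟨b, ?_⟩
      have : (σ' ^ i) b = b' := Subtype.ext (by rw [hσp, hb])
      simp only [this])
  refine ⟨cl, fun u u' h1 h2 h3 => ?_⟩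
  obtain ⟨w, hw⟩ := hcl u u'
    (by
      apply Subtype.ext
      rw [← Subalgebra.coe_val, map_prod]
      simp only [Subalgebra.coe_val, hσp]
      exact h1)
    (by
      apply Subtype.ext
      rw [← Subalgebra.coe_val, map_prod]
      simp only [Subalgebra.coe_val, hσp]
      exact h2) h3
  exact ⟨w, congrArg Subtype.val hw⟩

end Pool.Agent.Lib.MP_2f3286_ag.Full
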