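import Mathlib

/-!
# Finitely many points over one value of a function
-/

open Polynomial IntermediateField

namespace Pool.Agent.Lib.MP_2f3286_ag.Full

/-- Polynomial relations between the powers of a function with distinct values over one point. -/
theorem rel_eq_zero {k : Type*} [Field k] {K : Type*} [Field K] [Algebra k K] (t : K)
    (ht : Transcendental k t) (R : Subalgebra k K) (htR : t ∈ R)
    {kb : Type*} [Field kb] [Algebra k kb] (c₀ : k) {n : ℕ}
    (θ : Fin n → R →ₐ[k] kb) (hθ : ∀ i, θ i ⟨t, htR⟩ = algebraMap k kb c₀) (r : R)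
    (hr : Function.Injective fun i => θ i r) (m : ℕ) :
    ∀ P : Fin n → k[X], (∀ j, (P j).natDegree ≤ m) →
      ∑ j, aeval (⟨t, htR⟩ : R) (P j) * r ^ (j : ℕ) = 0 → P = 0 := by
  have htR' : Transcendental k (⟨t, htR⟩ : R) := fun h => ht (h.algHom R.val)
  have hval : ∀ P : Fin n → k[X], ∑ j, aeval (⟨t, htR⟩ : R) (P j) * r ^ (j : ℕ) = 0 →
      ∀ j, (P j).eval c₀ = 0 := by
    intro P hP
    have h1 : (Matrix.vandermonde fun i => θ i r).mulVec
        (fun j => algebraMap k kb ((P j).eval c₀)) = 0 := by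
      funext i
      have h2 := congrArg (θ i) hP
      rw [map_sum, map_zero] at h2
      rw [Pi.zero_apply, ← h2, Matrix.mulVec, dotProduct]
      refine Finset.sum_congr rfl fun j _ => ?_
      rw [Matrix.vandermonde_apply, map_mul, map_pow, ← aeval_algHom_apply, hθ,
        aeval_algebraMap_apply, mul_comm]
      rfl
    have h2 : (Matrix.vandermonde fun i => θ i r).det ≠ 0 :=
      Matrix.det_vandermonde_ne_zero_iff.mpr hr
    have h3 := Matrix.eq_zero_of_mulVec_eq_zero h2 h1
    intro j
    have h4 := congrFun h3 j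
    exact (map_eq_zero (algebraMap k kb)).mp h4
  induction m with
  | zero =>
    intro P hd hP
    funext j
    have h1 := hval P hP j
    have h2 := eq_C_of_natDegree_le_zero (hd j)
    rw [h2, eval_C] at h1
    rw [h2, h1, C_0]; rfl
  | succ m ih =>
    intro P hd hP
    have h1 := hval P hP
    have h2 : ∀ j, ∃ Q : k[X], P j = (X - C c₀) * Q := fun j => dvd_iff_isRoot.mpr (h1 j)
    choose Q hQ using h2
    have h3 : Q = 0 := by
      refine ih Q (fun j => ?_) ?_
      · by_cases h0 : Q j = 0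
        · rw [h0, natDegree_zero]; exact Nat.zero_le m
        · have h4 := hd j
          rw [hQ, natDegree_mul (X_sub_C_ne_zero c₀) h0, natDegree_X_sub_C] at h4
          omega
      · have h4 : aeval (⟨t, htR⟩ : R) (X - C c₀) *
            ∑ j, aeval (⟨t, htR⟩ : R) (Q j) * r ^ (j : ℕ) = 0 := by
          rw [← hP, Finset.mul_sum]
          refine Finset.sum_congr rfl fun j _ => ?_
          rw [hQ j, map_mul, mul_assoc]
        rcases mul_eq_zero.mp h4 with h5 | h5
        · exact absurd h5 (fun h => htR' ⟨_, X_sub_C_ne_zero c₀, h⟩)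
        · exact h5
    funext j
    rw [hQ j, h3]
    simp

/-- Every element satisfies a polynomial relation of bounded degree. -/
theorem exists_rel {k : Type*} [Field k] {K : Type*} [Field K] [Algebra k K] (t : K)
    [FiniteDimensional (adjoin k {t}) K] (R : Subalgebra k K) (htR : t ∈ R) (r : R) :
    ∃ P : Fin (Module.finrank (adjoin k {t}) K + 1) → k[X], P ≠ 0 ∧
      ∑ j, aeval (⟨t, htR⟩ : R) (P j) * r ^ (j : ℕ) = 0 := by
  classical
  set d := Module.finrank (adjoin k {t}) K with hd
  have hdep : ¬ LinearIndependent (adjoin k {t}) fun j : Fin (d + 1) => (r : K) ^ (j : ℕ) := by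
    intro h
    have h1 := h.fintype_card_le_finrank
    rw [Fintype.card_fin] at h1
    omega
  rw [Fintype.not_linearIndependent_iff] at hdep
  obtain ⟨g, hg, j₀, hj₀⟩ := hdep
  have hfrac : ∀ j, ∃ p q : k[X], aeval t q ≠ 0 ∧ (g j : K) * aeval t q = aeval t p := by
    intro j
    obtain ⟨p, q, hpq⟩ := (mem_adjoin_simple_iff k (α := t) (g j : K)).mp (g j).2
    by_cases h0 : aeval t q = 0
    · refine ⟨0, 1, by simp, ?_⟩
      rw [hpq, h0]; simp
    · exact ⟨p, q, h0, by rw [hpq, div_mul_cancel₀ _ h0]⟩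
  choose p q hq hpq using hfrac
  let P : Fin (d + 1) → k[X] := fun j => p j * ∏ i ∈ Finset.univ.erase j, q i
  have hP : ∀ j, aeval t (P j) = (g j : K) * aeval t (∏ i, q i) := by
    intro j
    rw [← Finset.mul_prod_erase Finset.univ q (Finset.mem_univ j), map_mul, map_mul, ← hpq,
      mul_assoc]
  refine ⟨P, fun hP0 => ?_, ?_⟩
  · have h1 : aeval t (P j₀) = 0 := by rw [hP0]; simp
    rw [hP, mul_eq_zero] at h1
    rcases h1 with h1 | h1
    · exact hj₀ (Subtype.ext h1)
    · rw [map_prod, Finset.prod_eq_zero_iff] at h1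
      obtain ⟨i, -, hi⟩ := h1
      exact hq i hi
  · apply Subtype.val_injective
    have h1 : ((∑ j, aeval (⟨t, htR⟩ : R) (P j) * r ^ (j : ℕ) : R) : K) =
        ∑ j, aeval t (P j) * (r : K) ^ (j : ℕ) := by
      have h2 : ∀ x : R, (x : K) = R.val x := fun _ => rfl
      rw [h2, map_sum]
      refine Finset.sum_congr rfl fun j _ => ?_
      rw [map_mul, map_pow, ← aeval_algHom_apply]
      rfl
    rw [h1]
    have h3 : ∑ j, aeval t (P j) * (r : K) ^ (j : ℕ) =
        aeval t (∏ i, q i) * ∑ j, g j • (r : K) ^ (j : ℕ) := by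
      rw [Finset.mul_sum]
      refine Finset.sum_congr rfl fun j _ => ?_
      rw [hP, IntermediateField.smul_def, smul_eq_mul]; ring
    rw [h3, hg, mul_zero]; rfl

/-- A relation can be divided by powers of `t - c₀`. -/
theorem exists_rel_ne {k : Type*} [Field k] {K : Type*} [Field K] [Algebra k K] (t : K)
    (ht : Transcendental k t) (R : Subalgebra k K) (htR : t ∈ R) (c₀ : k) {n : ℕ} (r : R) (m : ℕ) :
    ∀ P : Fin n → k[X], (∀ j, (P j).natDegree ≤ m) → P ≠ 0 →
      ∑ j, aeval (⟨t, htR⟩ : R) (P j) * r ^ (j : ℕ) = 0 →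
      ∃ P' : Fin n → k[X], (∃ j, (P' j).eval c₀ ≠ 0) ∧
        ∑ j, aeval (⟨t, htR⟩ : R) (P' j) * r ^ (j : ℕ) = 0 := by
  have htR' : Transcendental k (⟨t, htR⟩ : R) := fun h => ht (h.algHom R.val)
  induction m with
  | zero =>
    intro P hd hP0 hP
    refine ⟨P, ?_, hP⟩
    by_contra hcon
    push Not at hcon
    apply hP0
    funext j
    have h1 := hcon j
    have h2 := eq_C_of_natDegree_le_zero (hd j)
    rw [h2, eval_C] at h1
    rw [h2, h1, C_0]; rfl
  | succ m ih =>
    intro P hd hP0 hP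
    by_cases hcon : ∃ j, (P j).eval c₀ ≠ 0
    · exact ⟨P, hcon, hP⟩
    push Not at hcon
    have h2 : ∀ j, ∃ Q : k[X], P j = (X - C c₀) * Q := fun j => dvd_iff_isRoot.mpr (hcon j)
    choose Q hQ using h2
    refine ih Q (fun j => ?_) ?_ ?_
    · by_cases h0 : Q j = 0
      · rw [h0, natDegree_zero]; exact Nat.zero_le m
      · have h4 := hd j
        rw [hQ, natDegree_mul (X_sub_C_ne_zero c₀) h0, natDegree_X_sub_C] at h4
        omega
    · intro h
      apply hP0
      funext j
      rw [hQ j, h]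
      simp
    · have h4 : aeval (⟨t, htR⟩ : R) (X - C c₀) *
          ∑ j, aeval (⟨t, htR⟩ : R) (Q j) * r ^ (j : ℕ) = 0 := by
        rw [← hP, Finset.mul_sum]
        refine Finset.sum_congr rfl fun j _ => ?_
        rw [hQ j, map_mul, mul_assoc]
      rcases mul_eq_zero.mp h4 with h5 | h5
      · exact absurd h5 (fun h => htR' ⟨_, X_sub_C_ne_zero c₀, h⟩)
      · exact h5

/-- The values of a point over a rational value of `t` are algebraic. -/
theorem isAlgebraic_theta {k : Type*} [Field k] {K : Type*} [Field K] [Algebra k K] (t : K)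
    (ht : Transcendental k t) [FiniteDimensional (adjoin k {t}) K] (R : Subalgebra k K)
    (htR : t ∈ R) {Ω : Type*} [Field Ω] [Algebra k Ω] (c₀ : k) (θ : R →ₐ[k] Ω)
    (hθ : θ ⟨t, htR⟩ = algebraMap k Ω c₀) (r : R) : IsAlgebraic k (θ r) := by
  obtain ⟨P, hP0, hP⟩ := exists_rel t R htR r
  obtain ⟨P', ⟨j₀, hj₀⟩, hP'⟩ := exists_rel_ne t ht R htR c₀ r
    (Finset.univ.sup fun j => (P j).natDegree) P
    (fun j => Finset.le_sup (f := fun j => (P j).natDegree) (Finset.mem_univ j)) hP0 hP
  refine ⟨∑ j, C ((P' j).eval c₀) * X ^ (j : ℕ), ?_, ?_⟩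
  · intro h
    have h1 := congrArg (fun q => q.coeff (j₀ : ℕ)) h
    simp only [finsetSum_coeff, coeff_C_mul, coeff_X_pow, coeff_zero] at h1
    rw [Finset.sum_eq_single j₀] at h1
    · rw [if_pos rfl, mul_one] at h1
      exact hj₀ h1
    · intro j _ hj
      rw [if_neg (fun h => hj (Fin.ext h.symm)), mul_zero]
    · intro h; exact absurd (Finset.mem_univ _) h
  · have h2 := congrArg θ hP'
    rw [map_sum, map_zero] at h2
    rw [map_sum, ← h2]
    refine Finset.sum_congr rfl fun j _ => ?_
    rw [map_mul, map_mul, map_pow, map_pow, ← aeval_algHom_apply, hθ, aeval_X, aeval_C,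
      aeval_algebraMap_apply]
    rfl

/-- There are only finitely many points with a given value of a nonconstant function. -/
theorem finite_theta {k : Type*} [Field k] [Infinite k] {K : Type*} [Field K] [Algebra k K] (t : K)
    (ht : Transcendental k t) [FiniteDimensional (adjoin k {t}) K] (R : Subalgebra k K)
    (htR : t ∈ R) {kb : Type*} [Field kb] [Algebra k kb] (c₀ : k) :
    {θ : R →ₐ[k] kb | θ ⟨t, htR⟩ = algebraMap k kb c₀}.Finite := by
  classical
  set A : Set (R →ₐ[k] kb) := {θ | θ ⟨t, htR⟩ = algebraMap k kb c₀} with hA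
  by_contra hinf
  set d := Module.finrank (adjoin k {t}) K with hd
  obtain ⟨s, hsA, hs⟩ := (show A.Infinite from hinf).exists_subset_card_eq (d + 1)
  -- a separating element
  let e : Fin (d + 1) ≃ s := (Fintype.equivFinOfCardEq (by rw [Fintype.card_coe, hs])).symm
  let θ : Fin (d + 1) → R →ₐ[k] kb := fun i => (e i : R →ₐ[k] kb)
  have hθinj : Function.Injective θ := Subtype.val_injective.comp e.injective
  have hθ : ∀ i, θ i ⟨t, htR⟩ = algebraMap k kb c₀ := fun i => hsA (e i).2
  let E : Fin (d + 1) × Fin (d + 1) → Submodule k R := fun p =>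
    LinearMap.ker ((θ p.1).toLinearMap - (θ p.2).toLinearMap)
  let T : Finset (Submodule k R) := (Finset.univ.filter fun p => p.1 ≠ p.2).image E
  have hT : ⊤ ∉ T := by
    intro h
    obtain ⟨p, hp, hp'⟩ := Finset.mem_image.mp h
    rw [Finset.mem_filter] at hp
    apply hp.2
    apply hθinj
    apply AlgHom.ext
    intro x
    have h1 : x ∈ E p := by rw [hp']; trivial
    rw [LinearMap.mem_ker, LinearMap.sub_apply, sub_eq_zero] at h1
    exact h1
  obtain ⟨r, hr⟩ := (Set.ne_univ_iff_exists_notMem _).mp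
    (Subspace.biUnion_ne_univ_of_top_notMem hT)
  have hrinj : Function.Injective fun i => θ i r := by
    intro i j hij
    by_contra hne
    apply hr
    rw [Set.mem_iUnion₂]
    refine ⟨E (i, j), Finset.mem_image_of_mem _ (Finset.mem_filter.mpr ⟨Finset.mem_univ _, hne⟩), ?_⟩
    change r ∈ LinearMap.ker _
    rw [LinearMap.mem_ker, LinearMap.sub_apply, sub_eq_zero]
    exact hij
  obtain ⟨P, hP0, hP⟩ := exists_rel t R htR r
  exact hP0 (rel_eq_zero t ht R htR c₀ θ hθ r hrinj
    (Finset.univ.sup fun j => (P j).natDegree) P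
    (fun j => Finset.le_sup (f := fun j => (P j).natDegree) (Finset.mem_univ j)) hP)

end Pool.Agent.Lib.MP_2f3286_ag.Full
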