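import Pool.Agent.Lib.MP_2f3286_ag.Full.ValExt

open Polynomial IntermediateField
open scoped Pointwise

set_option autoImplicit false

namespace Pool.Agent.Lib.MP_2f3286_ag.Full

namespace Free


theorem geom_root {κ : Type*} [Field κ] {n : ℕ} {ζ : κ} (hζ : IsPrimitiveRoot ζ n) (k : ℕ)
    (hk : ¬ n ∣ k) : ∑ i ∈ Finset.range n, (ζ ^ k) ^ i = 0 := by
  have h1 : ζ ^ k - 1 ≠ 0 := by
    intro h
    exact hk (hζ.dvd_of_pow_eq_one k (sub_eq_zero.1 h))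
  have h2 : (∑ i ∈ Finset.range n, (ζ ^ k) ^ i) * (ζ ^ k - 1) = (ζ ^ k) ^ n - 1 := geom_sum_mul _ _
  rw [← pow_mul, mul_comm k n, pow_mul, hζ.pow_eq_one, one_pow, sub_self] at h2
  exact (mul_eq_zero.1 h2).resolve_right h1

theorem pow_frob {κ Ω : Type*} [Field κ] {p : ℕ} [Field Ω] [Algebra κ Ω]
    (ψ : Ω ≃+* Ω) (e : ℕ) (hψ : ∀ a : κ, ψ (algebraMap κ Ω a) = algebraMap κ Ω (a ^ p ^ e))
    (j : ℕ) (a : κ) : (ψ ^ j) (algebraMap κ Ω a) = algebraMap κ Ω (a ^ p ^ (e * j)) := by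
  induction j generalizing a with
  | zero => simp
  | succ j ih =>
    rw [pow_succ, RingAut.mul_apply, hψ, ih]
    congr 1
    rw [← pow_mul, ← pow_add]
    congr 2
    ring

end Free

open Free in
/-- descent along Frobenius -/
theorem frob_descent {κ Ω : Type*} [Field κ] [IsAlgClosed κ] {p : ℕ} [Fact p.Prime] [CharP κ p]
    (_hκ : ∀ x : κ, ∃ n, 1 ≤ n ∧ x ^ p ^ n = x) [Field Ω] [Algebra κ Ω] (ψ : Ω ≃+* Ω) (e : ℕ)
    (he : 1 ≤ e) (hψ : ∀ a : κ, ψ (algebraMap κ Ω a) = algebraMap κ Ω (a ^ p ^ e))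
    (x : Ω) (r : ℕ) (hr : 1 ≤ r) (hx : (ψ ^ r) x = x) :
    ∃ (n : ℕ) (c d : Fin n → κ), x = ∑ i, algebraMap κ Ω (c i) *
      ∑ j ∈ Finset.range r, (ψ ^ j) (algebraMap κ Ω (d i) * x) ∧
      ∀ i, ψ (∑ j ∈ Finset.range r, (ψ ^ j) (algebraMap κ Ω (d i) * x)) =
        ∑ j ∈ Finset.range r, (ψ ^ j) (algebraMap κ Ω (d i) * x) := by
  have hp : 1 < p := (Fact.out : p.Prime).one_lt
  have hq : 1 < p ^ (e * r) := Nat.one_lt_pow (by positivity) hp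
  obtain ⟨n, hn⟩ : ∃ n, p ^ (e * r) = n + 1 := ⟨p ^ (e * r) - 1, by omega⟩
  have hn0 : 0 < n := by omega
  have hnκ : (n : κ) = -1 := by
    have h1 : ((p ^ (e * r) : ℕ) : κ) = 0 := by
      push_cast
      rw [CharP.cast_eq_zero, zero_pow (by positivity)]
    rw [hn] at h1
    push_cast at h1
    linear_combination h1
  have : NeZero (n : κ) := ⟨by rw [hnκ]; exact neg_ne_zero.2 one_ne_zero⟩
  obtain ⟨ζ, hζ⟩ := HasEnoughRootsOfUnity.exists_primitiveRoot κ n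
  have hζ0 : ζ ≠ 0 := hζ.ne_zero hn0.ne'
  have hd : ∀ i : ℕ, (ζ ^ i) ^ p ^ (e * r) = ζ ^ i := by
    intro i
    rw [hn, pow_succ, ← pow_mul, mul_comm i n, pow_mul, hζ.pow_eq_one, one_pow, one_mul]
  have hsum : ∀ j < r, ∑ i ∈ Finset.range n, (-(ζ ^ i)⁻¹) * (ζ ^ i) ^ p ^ (e * j) =
      if j = 0 then 1 else 0 := by
    intro j hj
    have h1 : 1 ≤ p ^ (e * j) := Nat.one_le_pow _ _ (by omega)
    obtain ⟨k, hk⟩ : ∃ k, p ^ (e * j) = k + 1 := ⟨p ^ (e * j) - 1, by omega⟩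
    have h2 : ∀ i, (-(ζ ^ i)⁻¹) * (ζ ^ i) ^ p ^ (e * j) = - (ζ ^ k) ^ i := by
      intro i
      rw [hk, pow_succ]
      have : ζ ^ i ≠ 0 := pow_ne_zero _ hζ0
      field_simp
      ring
    rw [Finset.sum_congr rfl fun i _ => h2 i, Finset.sum_neg_distrib]
    split_ifs with h
    · subst h
      have : k = 0 := by simpa using hk.symm
      subst this
      simp [hnκ]
    · rw [geom_root hζ k, neg_zero]
      intro h3
      have h4 : 0 < k := by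
        have : 1 < p ^ (e * j) := Nat.one_lt_pow (by positivity) hp
        omega
      have h5 := Nat.le_of_dvd h4 h3
      have h6 : p ^ (e * j) < p ^ (e * r) :=
        Nat.pow_lt_pow_right hp (Nat.mul_lt_mul_of_pos_left hj (by omega))
      omega
  refine ⟨n, fun i => -(ζ ^ (i : ℕ))⁻¹, fun i => ζ ^ (i : ℕ), ?_, fun i => ?_⟩
  · have h3 : ∀ i : Fin n, algebraMap κ Ω (-(ζ ^ (i : ℕ))⁻¹) *
        ∑ j ∈ Finset.range r, (ψ ^ j) (algebraMap κ Ω (ζ ^ (i : ℕ)) * x) =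
        ∑ j ∈ Finset.range r, algebraMap κ Ω ((-(ζ ^ (i : ℕ))⁻¹) * (ζ ^ (i : ℕ)) ^ p ^ (e * j)) *
          (ψ ^ j) x := by
      intro i
      rw [Finset.mul_sum]
      refine Finset.sum_congr rfl fun j _ => ?_
      rw [map_mul, pow_frob ψ e hψ, ← mul_assoc, ← map_mul]
    rw [Finset.sum_congr rfl fun i _ => h3 i, Finset.sum_comm]
    have h4 : ∀ j ∈ Finset.range r, ∑ i : Fin n,
        algebraMap κ Ω ((-(ζ ^ (i : ℕ))⁻¹) * (ζ ^ (i : ℕ)) ^ p ^ (e * j)) * (ψ ^ j) x =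
        algebraMap κ Ω (if j = 0 then 1 else 0) * (ψ ^ j) x := by
      intro j hj
      rw [← Finset.sum_mul, ← map_sum, ← hsum j (Finset.mem_range.1 hj), Finset.sum_range]
    rw [Finset.sum_congr rfl h4, Finset.sum_eq_single 0]
    · simp
    · intro j _ hj
      simp [hj]
    · intro h
      exact absurd (Finset.mem_range.2 hr) h
  · have h5 : (ψ ^ r) (algebraMap κ Ω (ζ ^ (i : ℕ)) * x) = algebraMap κ Ω (ζ ^ (i : ℕ)) * x := by
      rw [map_mul, hx, pow_frob ψ e hψ, hd]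
    set w := algebraMap κ Ω (ζ ^ (i : ℕ)) * x with hw
    have h6 : ψ (∑ j ∈ Finset.range r, (ψ ^ j) w) = ∑ j ∈ Finset.range r, (ψ ^ (j + 1)) w := by
      rw [map_sum]
      refine Finset.sum_congr rfl fun j _ => ?_
      rw [pow_succ', RingAut.mul_apply]
    rw [h6]
    have h7 := Finset.sum_range_succ' (fun j => (ψ ^ j) w) r
    rw [Finset.sum_range_succ] at h7
    simp only [pow_zero, RingAut.one_apply, h5] at h7
    exact (add_right_cancel h7).symm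


namespace Free

open scoped IntermediateField.algebraAdjoinAdjoin in
theorem alg_of_transcendental {κ Ω : Type*} [Field κ] [Field Ω] [Algebra κ Ω] (t : Ω)
    (halg : ∀ x : Ω, IsAlgebraic (adjoin κ {t}) x) (u : Ω) (hu : Transcendental κ u) :
    ∀ x : Ω, IsAlgebraic (adjoin κ {u}) x := by
  have h1 : Algebra.IsAlgebraic (adjoin κ {t}) Ω := ⟨halg⟩
  have h2 : Algebra.IsAlgebraic (Algebra.adjoin κ {t}) Ω :=
    (IsFractionRing.comap_isAlgebraic_iff (A := Algebra.adjoin κ {t}) (K := adjoin κ {t})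
      (C := Ω)).2 h1
  have h3 : Algebra.trdeg κ Ω ≤ 1 := by
    have := Algebra.IsAlgebraic.trdeg_le_cardinalMk κ ({t} : Set Ω)
    simpa using this
  have h4 : AlgebraicIndependent κ (fun _ : Unit => u) :=
    algebraicIndependent_unique_type_iff.2 hu
  have h5 := h4.isTranscendenceBasis_of_lift_trdeg_le_of_finite (by simpa using h3)
  have h6 := h5.isAlgebraic_field
  rw [Set.range_const] at h6
  exact h6.isAlgebraic

theorem valuation_const {κ Ω : Type*} [Field κ] [Field Ω] [Algebra κ Ω]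
    (𝒱 : ValuationSubring Ω) (hκ𝒱 : ∀ a : κ, algebraMap κ Ω a ∈ 𝒱) (a : κ) (ha : a ≠ 0) :
    𝒱.valuation (algebraMap κ Ω a) = 1 := by
  refine le_antisymm ((𝒱.valuation_le_one_iff _).2 (hκ𝒱 a)) ?_
  have h1 := (𝒱.valuation_le_one_iff _).2 (hκ𝒱 a⁻¹)
  rw [map_inv₀, map_inv₀] at h1
  have h2 : 𝒱.valuation (algebraMap κ Ω a) ≠ 0 := by
    rw [Valuation.ne_zero_iff]
    exact (_root_.map_ne_zero _).2 ha
  rwa [inv_le_one₀ (zero_lt_iff.2 h2)] at h1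

/-- a place of a function field in one variable over an algebraically closed field has
residue field equal to the field of constants -/
theorem exists_const {κ Ω : Type*} [Field κ] [IsAlgClosed κ] [Field Ω] [Algebra κ Ω] (t : Ω)
    (halg : ∀ x : Ω, IsAlgebraic (adjoin κ {t}) x) (𝒱 : ValuationSubring Ω) (h𝒱 : 𝒱 ≠ ⊤)
    (hκ𝒱 : ∀ a : κ, algebraMap κ Ω a ∈ 𝒱) (u : Ω) (hu : u ∈ 𝒱) :
    ∃ a : κ, 𝒱.valuation (u - algebraMap κ Ω a) < 1 := by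
  by_contra! h
  have h1 : ∀ a : κ, 𝒱.valuation (u - algebraMap κ Ω a) = 1 := fun a =>
    le_antisymm ((𝒱.valuation_le_one_iff _).2 (sub_mem hu (hκ𝒱 a))) (h a)
  have h2 : ∀ f : κ[X], f ≠ 0 → 𝒱.valuation (aeval u f) = 1 := by
    intro f hf
    have h3 := (IsAlgClosed.splits f).eq_prod_roots
    rw [h3, map_mul, map_mul, aeval_C, valuation_const 𝒱 hκ𝒱 _ (leadingCoeff_ne_zero.2 hf),
      one_mul, map_multiset_prod, map_multiset_prod, Multiset.map_map, Multiset.map_map]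
    refine Multiset.prod_eq_one ?_
    intro x hx
    obtain ⟨a, -, rfl⟩ := Multiset.mem_map.1 hx
    simp [h1]
  have h4 : Transcendental κ u := by
    rintro ⟨f, hf, hf0⟩
    have := h2 f hf
    rw [hf0, map_zero] at this
    exact zero_ne_one this
  have h5 : ∀ x ∈ adjoin κ {u}, x ∈ 𝒱 := by
    intro x hx
    obtain ⟨r, s, rfl⟩ := (mem_adjoin_simple_iff κ x).1 hx
    rw [← 𝒱.valuation_le_one_iff, map_div₀]
    rcases eq_or_ne r 0 with rfl | hr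
    · simp
    rcases eq_or_ne s 0 with rfl | hs
    · simp
    rw [h2 r hr, h2 s hs, div_one]
  apply h𝒱
  refine top_le_iff.1 fun x _ => ?_
  have h6 := alg_of_transcendental t halg u h4 x
  have h7 : IsIntegral (adjoin κ {u}) x := h6.isIntegral
  obtain ⟨P, hP, hP0⟩ := h7
  have h8 : IsIntegral 𝒱 x := by
    let i : adjoin κ {u} →+* 𝒱 :=
      { toFun := fun y => ⟨y.1, h5 y.1 y.2⟩
        map_one' := rfl
        map_mul' := fun _ _ => rfl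
        map_zero' := rfl
        map_add' := fun _ _ => rfl }
    refine ⟨P.map i, hP.map i, ?_⟩
    rw [eval₂_map]
    exact hP0
  obtain ⟨y, hy⟩ := IsIntegrallyClosed.algebraMap_eq_of_integral (K := Ω) h8
  rw [← hy]
  exact y.2

theorem valuation_aeval {κ Ω : Type*} [Field κ] [Field Ω] [Algebra κ Ω] (t : Ω)
    (𝒱 : ValuationSubring Ω) (hκ𝒱 : ∀ a : κ, algebraMap κ Ω a ∈ 𝒱) (c : κ)
    (hc : 𝒱.valuation (t - algebraMap κ Ω c) < 1) (f : κ[X]) (hf : f.eval c ≠ 0) :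
    𝒱.valuation (aeval t f) = 1 := by
  have ht : t ∈ 𝒱 := by
    have h1 : t - algebraMap κ Ω c ∈ 𝒱 := (𝒱.valuation_le_one_iff _).1 hc.le
    have := add_mem h1 (hκ𝒱 c)
    rwa [sub_add_cancel] at this
  have hg : ∀ g : κ[X], aeval t g ∈ 𝒱 := by
    intro g
    rw [aeval_eq_sum_range]
    refine sum_mem fun i _ => ?_
    rw [Algebra.smul_def]
    exact mul_mem (hκ𝒱 _) (pow_mem ht _)
  obtain ⟨g, hg1⟩ : (X - C c) ∣ f - C (f.eval c) := by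
    rw [dvd_iff_isRoot]
    simp
  have h2 : aeval t f = (t - algebraMap κ Ω c) * aeval t g + algebraMap κ Ω (f.eval c) := by
    have := congrArg (aeval t) hg1
    simp only [map_sub, map_mul, aeval_X, aeval_C] at this
    rw [← this]
    ring
  rw [h2, Valuation.map_add_eq_of_lt_right, valuation_const 𝒱 hκ𝒱 _ hf]
  · rw [valuation_const 𝒱 hκ𝒱 _ hf, map_mul]
    exact mul_lt_one_of_lt_of_le hc ((𝒱.valuation_le_one_iff _).2 (hg g))

/-- two places with `t - c` in both maximal ideals have the same trace on `κ(t)` -/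
theorem same_trace_aux {κ Ω : Type*} [Field κ] [Field Ω] [Algebra κ Ω] (t : Ω)
    (𝒱 𝒲 : ValuationSubring Ω) (hκ𝒱 : ∀ a : κ, algebraMap κ Ω a ∈ 𝒱)
    (hκ𝒲 : ∀ a : κ, algebraMap κ Ω a ∈ 𝒲) (c : κ)
    (hc : 𝒱.valuation (t - algebraMap κ Ω c) < 1) (hc' : 𝒲.valuation (t - algebraMap κ Ω c) < 1)
    (x : Ω) (hx : x ∈ adjoin κ {t}) (hx𝒱 : x ∈ 𝒱) : x ∈ 𝒲 := by
  rcases eq_or_ne (t - algebraMap κ Ω c) 0 with h0 | h0
  · rw [sub_eq_zero] at h0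
    obtain ⟨r, s, rfl⟩ := (mem_adjoin_simple_iff κ x).1 hx
    rw [h0, aeval_algebraMap_apply, aeval_algebraMap_apply, ← map_div₀]
    exact hκ𝒲 _
  obtain ⟨r, s, rfl⟩ := (mem_adjoin_simple_iff κ x).1 hx
  rcases eq_or_ne r 0 with rfl | hr
  · simp
  rcases eq_or_ne s 0 with rfl | hs
  · simp
  obtain ⟨r₁, hr₁, hr₂⟩ := exists_eq_pow_rootMultiplicity_mul_and_not_dvd r hr c
  obtain ⟨s₁, hs₁, hs₂⟩ := exists_eq_pow_rootMultiplicity_mul_and_not_dvd s hs c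
  rw [dvd_iff_isRoot] at hr₂ hs₂
  set a := r.rootMultiplicity c
  set b := s.rootMultiplicity c
  have key : ∀ 𝒰 : ValuationSubring Ω, (∀ a : κ, algebraMap κ Ω a ∈ 𝒰) →
      𝒰.valuation (t - algebraMap κ Ω c) < 1 → (aeval t r / aeval t s ∈ 𝒰 ↔ b ≤ a) := by
    intro 𝒰 hκ𝒰 hcU
    have h1 : 𝒰.valuation (aeval t r) = 𝒰.valuation (t - algebraMap κ Ω c) ^ a := by
      rw [hr₁, map_mul, map_mul, valuation_aeval t 𝒰 hκ𝒰 c hcU r₁ hr₂]
      simp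
    have h2 : 𝒰.valuation (aeval t s) = 𝒰.valuation (t - algebraMap κ Ω c) ^ b := by
      rw [hs₁, map_mul, map_mul, valuation_aeval t 𝒰 hκ𝒰 c hcU s₁ hs₂]
      simp
    have h3 : 0 < 𝒰.valuation (t - algebraMap κ Ω c) :=
      zero_lt_iff.2 ((Valuation.ne_zero_iff _).2 h0)
    rw [← 𝒰.valuation_le_one_iff, map_div₀, h1, h2, div_le_one₀ (pow_pos h3 _)]
    exact pow_le_pow_iff_right_of_lt_one₀ h3 hcU
  exact (key 𝒲 hκ𝒲 hc').2 ((key 𝒱 hκ𝒱 hc).1 hx𝒱)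


theorem pow_apply_add {Ω : Type*} [Field Ω] (χ : Ω ≃+* Ω) (a b : ℕ) (x : Ω) :
    (χ ^ (a + b)) x = (χ ^ a) ((χ ^ b) x) := by
  rw [pow_add, RingAut.mul_apply]

theorem pow_fix_mul {Ω : Type*} [Field Ω] (χ : Ω ≃+* Ω) (r k : ℕ) (x : Ω) (h : (χ ^ r) x = x) :
    (χ ^ (r * k)) x = x := by
  induction k with
  | zero => simp
  | succ k ih => rw [mul_add, mul_one, pow_apply_add, h, ih]

theorem pow_fix_dvd {Ω : Type*} [Field Ω] (χ : Ω ≃+* Ω) {r s : ℕ} (x : Ω) (h : (χ ^ r) x = x)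
    (hs : r ∣ s) : (χ ^ s) x = x := by
  obtain ⟨k, rfl⟩ := hs
  exact pow_fix_mul χ r k x h

/-- all orbits are finite -/
theorem finite_orbit {κ Ω : Type*} [Field κ] [Field Ω] [Algebra κ Ω] (t : Ω)
    (halg : ∀ x : Ω, IsAlgebraic (adjoin κ {t}) x) (χ : Ω ≃+* Ω)
    (hχκ : ∀ a : κ, ∃ r, 1 ≤ r ∧ (χ ^ r) (algebraMap κ Ω a) = algebraMap κ Ω a)
    (hχt : χ t = t) (x : Ω) : ∃ r, 1 ≤ r ∧ (χ ^ r) x = x := by
  have hmem : ∀ y ∈ adjoin κ {t}, ∃ r, 1 ≤ r ∧ (χ ^ r) y = y := by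
    intro y hy
    induction hy using IntermediateField.adjoin_induction with
    | mem y hy =>
      rw [Set.mem_singleton_iff.1 hy]
      exact ⟨1, le_rfl, by simpa using hχt⟩
    | algebraMap a => exact hχκ a
    | add y z _ _ h1 h2 =>
      obtain ⟨r, hr, h1⟩ := h1
      obtain ⟨s, hs, h2⟩ := h2
      refine ⟨r * s, Nat.mul_pos hr hs, ?_⟩
      rw [map_add, pow_fix_dvd χ y h1 (dvd_mul_right _ _), pow_fix_dvd χ z h2 (dvd_mul_left _ _)]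
    | mul y z _ _ h1 h2 =>
      obtain ⟨r, hr, h1⟩ := h1
      obtain ⟨s, hs, h2⟩ := h2
      refine ⟨r * s, Nat.mul_pos hr hs, ?_⟩
      rw [map_mul, pow_fix_dvd χ y h1 (dvd_mul_right _ _), pow_fix_dvd χ z h2 (dvd_mul_left _ _)]
    | inv y _ h1 =>
      obtain ⟨r, hr, h1⟩ := h1
      exact ⟨r, hr, by rw [map_inv₀, h1]⟩
  set P := minpoly (adjoin κ {t}) x with hP
  have hP0 : P ≠ 0 := minpoly.ne_zero (halg x).isIntegral
  choose r hr hr' using fun i : ℕ => hmem (P.coeff i : Ω) (P.coeff i).2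
  set R := ∏ i ∈ Finset.range (P.natDegree + 1), r i with hR
  have hR1 : 1 ≤ R := by
    rw [hR]
    exact Nat.one_le_iff_ne_zero.2 (Finset.prod_ne_zero_iff.2 fun i _ => by
      have := hr i
      omega)
  have hroot : ∀ y : Ω, aeval y P = 0 → aeval ((χ ^ R) y) P = 0 := by
    intro y hy
    have h1 := congrArg (χ ^ R) hy
    rw [map_zero, aeval_eq_sum_range, map_sum] at h1
    rw [aeval_eq_sum_range, ← h1]
    refine Finset.sum_congr rfl fun i hi => ?_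
    rw [Algebra.smul_def, Algebra.smul_def, map_mul, map_pow]
    congr 1
    exact (pow_fix_dvd χ _ (hr' i) (Finset.dvd_prod_of_mem r hi)).symm
  have hroots : ∀ k : ℕ, aeval ((χ ^ (R * k)) x) P = 0 := by
    intro k
    induction k with
    | zero =>
      rw [mul_zero, pow_zero, RingAut.one_apply]
      exact minpoly.aeval _ x
    | succ k ih =>
      rw [mul_add, mul_one, add_comm, pow_apply_add]
      exact hroot _ ih
  have hfin : (P.rootSet Ω).Finite := P.rootSet_finite Ω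
  have := hfin.to_subtype
  obtain ⟨i, j, hij, h2⟩ := Finite.exists_ne_map_eq_of_infinite
    (fun k : ℕ => (⟨(χ ^ (R * k)) x, (mem_rootSet_of_ne hP0).2 (hroots k)⟩ : P.rootSet Ω))
  have h3 : (χ ^ (R * i)) x = (χ ^ (R * j)) x := congrArg Subtype.val h2
  have key : ∀ i j : ℕ, i < j → (χ ^ (R * i)) x = (χ ^ (R * j)) x → ∃ r, 1 ≤ r ∧ (χ ^ r) x = x := by
    intro i j hij h3
    obtain ⟨d, rfl⟩ := Nat.exists_eq_add_of_lt hij
    refine ⟨R * (d + 1), Nat.mul_pos hR1 (by omega), ?_⟩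
    rw [show R * (i + d + 1) = R * i + R * (d + 1) by ring, pow_apply_add] at h3
    exact ((χ ^ (R * i)).injective h3).symm
  rcases lt_or_gt_of_ne hij with h | h
  · exact key i j h h3
  · exact key j i h h3.symm

/-- Kummer elements -/
theorem exists_kummer {κ Ω : Type*} [Field κ] [Field Ω] [Algebra κ Ω] {ℓ : ℕ} [Fact ℓ.Prime]
    (hroot : ∀ m, ∃ ζ : κ, IsPrimitiveRoot ζ (ℓ ^ m)) (τ : Ω ≃ₐ[κ] Ω)
    (h1 : ∀ x, ∃ m, (τ ^ ℓ ^ m) x = x) (m : ℕ) (x₀ : Ω) (h2 : (τ ^ ℓ ^ m) x₀ ≠ x₀) :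
    ∃ (M : ℕ) (ζ : κ) (y : Ω), m < M ∧ IsPrimitiveRoot ζ (ℓ ^ M) ∧ y ≠ 0 ∧
      τ y = algebraMap κ Ω ζ * y := by
  classical
  have hℓ : ℓ.Prime := Fact.out
  have hit : ∀ (k : ℕ) (x : Ω), (τ ^ k) x = τ^[k] x := by
    intro k x
    rw [AlgEquiv.coe_pow]
  have hper : ∀ (k : ℕ) (x : Ω), (τ ^ k) x = x ↔ Function.IsPeriodicPt τ k x := by
    intro k x
    rw [hit]
    rfl
  have hex := h1 x₀
  obtain ⟨M, hM, hM'⟩ : ∃ M, (τ ^ ℓ ^ (M + 1)) x₀ = x₀ ∧ (τ ^ ℓ ^ M) x₀ ≠ x₀ := by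
    have h3 := Nat.find_spec hex
    have h4 : Nat.find hex ≠ 0 := by
      intro h0
      rw [h0, hper] at h3
      exact h2 ((hper _ _).2 (h3.trans_dvd (pow_dvd_pow _ (Nat.zero_le _))))
    obtain ⟨k, hk⟩ := Nat.exists_eq_succ_of_ne_zero h4
    rw [hk] at h3
    exact ⟨k, h3, Nat.find_min hex (by omega)⟩
  have hmM : m < M + 1 := by
    by_contra h
    rw [hper] at hM
    exact h2 ((hper _ _).2 (hM.trans_dvd (pow_dvd_pow _ (by omega))))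
  obtain ⟨ζ, hζ⟩ := hroot (M + 1)
  have hmin : Function.minimalPeriod τ x₀ = ℓ ^ (M + 1) :=
    Function.minimalPeriod_eq_prime_pow (fun h => hM' ((hper _ _).2 h)) ((hper _ _).1 hM)
  set n := ℓ ^ (M + 1) with hn
  have hn0 : 0 < n := pow_pos hℓ.pos _
  let E : Submonoid Ω :=
    { carrier := {x | (τ ^ n) x = x}
      one_mem' := map_one _
      mul_mem' := fun {a b} ha hb => by
        change (τ ^ n) (a * b) = a * b
        rw [map_mul, show (τ ^ n) a = a from ha, show (τ ^ n) b = b from hb] }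
  let f : Fin n → (E →* Ω) := fun i => ((τ ^ (i : ℕ) : Ω ≃ₐ[κ] Ω) : Ω →* Ω).comp E.subtype
  have hf : ∀ i (x : E), f i x = (τ ^ (i : ℕ)) (x : Ω) := fun _ _ => rfl
  have hinj : Function.Injective f := by
    intro i j hij
    have h5 : (τ ^ (i : ℕ)) x₀ = (τ ^ (j : ℕ)) x₀ := DFunLike.congr_fun hij ⟨x₀, hM⟩
    rw [hit, hit] at h5
    apply Fin.ext
    refine Function.iterate_injOn_Iio_minimalPeriod (f := τ) (x := x₀) ?_ ?_ h5
    · rw [hmin]; exact i.2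
    · rw [hmin]; exact j.2
  have hli := (linearIndependent_monoidHom E Ω).comp f hinj
  have h6 : ∃ x : E, ∑ i : Fin n, (algebraMap κ Ω ζ)⁻¹ ^ (i : ℕ) * (τ ^ (i : ℕ)) (x : Ω) ≠ 0 := by
    by_contra! h
    have h7 := (Fintype.linearIndependent_iff.1 hli)
      (fun i => (algebraMap κ Ω ζ)⁻¹ ^ (i : ℕ)) (by
        funext x
        simpa [Finset.sum_apply, hf] using h x) ⟨0, hn0⟩
    simp at h7
  obtain ⟨x, hx⟩ := h6
  have hζ0 : algebraMap κ Ω ζ ≠ 0 := (_root_.map_ne_zero _).2 (hζ.ne_zero hn0.ne')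
  refine ⟨M + 1, ζ, _, hmM, hζ, hx, ?_⟩
  rw [map_sum, Finset.mul_sum, ← Finset.sum_range (fun i => τ ((algebraMap κ Ω ζ)⁻¹ ^ i *
    (τ ^ i) (x : Ω))), ← Finset.sum_range (fun i => algebraMap κ Ω ζ *
      ((algebraMap κ Ω ζ)⁻¹ ^ i * (τ ^ i) (x : Ω)))]
  have h8 : ∀ i, τ ((algebraMap κ Ω ζ)⁻¹ ^ i * (τ ^ i) (x : Ω)) = algebraMap κ Ω ζ *
      ((algebraMap κ Ω ζ)⁻¹ ^ (i + 1) * (τ ^ (i + 1)) (x : Ω)) := by
    intro i
    rw [map_mul, map_pow, map_inv₀, AlgEquiv.commutes, pow_succ' τ, AlgEquiv.mul_apply, pow_succ']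
    field_simp
  rw [Finset.sum_congr rfl fun i _ => h8 i]
  have h9 := Finset.sum_range_succ' (fun i => algebraMap κ Ω ζ *
      ((algebraMap κ Ω ζ)⁻¹ ^ i * (τ ^ i) (x : Ω))) n
  rw [Finset.sum_range_succ] at h9
  have h10 : algebraMap κ Ω ζ * ((algebraMap κ Ω ζ)⁻¹ ^ n * (τ ^ n) (x : Ω)) =
      algebraMap κ Ω ζ * ((algebraMap κ Ω ζ)⁻¹ ^ 0 * (τ ^ 0) (x : Ω)) := by
    rw [show (τ ^ n) (x : Ω) = x from x.2, ← map_inv₀, ← map_pow, inv_pow, hζ.pow_eq_one]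
    simp
  rw [h10] at h9
  exact (add_right_cancel h9).symm


theorem val_lt_one_iff' {Ω : Type*} [Field Ω] (𝒱 : ValuationSubring Ω) (x : Ω) :
    𝒱.valuation x < 1 ↔ x = 0 ∨ x⁻¹ ∉ 𝒱 := by
  rcases eq_or_ne x 0 with rfl | hx
  · simp
  · have h0 : 0 < 𝒱.valuation x := zero_lt_iff.2 ((Valuation.ne_zero_iff _).2 hx)
    rw [← 𝒱.valuation_le_one_iff, map_inv₀, inv_le_one₀ h0, not_le]
    simp [hx]

theorem val_eq_of_orbit {Ω : Type*} [Field Ω] (𝒱 : ValuationSubring Ω) (χ : Ω ≃+* Ω)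
    (hχ : ∀ x, x ∈ 𝒱 ↔ χ x ∈ 𝒱) (y : Ω) (r : ℕ) (hr : 1 ≤ r) (h : (χ ^ r) y = y) :
    𝒱.valuation (χ y) = 𝒱.valuation y := by
  have hmono : ∀ a b : Ω, 𝒱.valuation a ≤ 𝒱.valuation b →
      𝒱.valuation (χ a) ≤ 𝒱.valuation (χ b) := by
    intro a b hab
    rcases eq_or_ne b 0 with rfl | hb
    · rw [map_zero, le_zero_iff, Valuation.zero_iff] at hab
      rw [hab]
    · have hb' : χ b ≠ 0 := (_root_.map_ne_zero _).2 hb
      have h1 : a / b ∈ 𝒱 := by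
        rw [← 𝒱.valuation_le_one_iff, map_div₀]
        exact (div_le_one₀ (zero_lt_iff.2 ((Valuation.ne_zero_iff _).2 hb))).2 hab
      rw [hχ, map_div₀, ← 𝒱.valuation_le_one_iff, map_div₀,
        div_le_one₀ (zero_lt_iff.2 ((Valuation.ne_zero_iff _).2 hb'))] at h1
      exact h1
  have hup : ∀ k : ℕ, 𝒱.valuation y ≤ 𝒱.valuation (χ y) →
      𝒱.valuation (χ y) ≤ 𝒱.valuation ((χ ^ (k + 1)) y) := by
    intro k hk
    induction k with
    | zero => simp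
    | succ k ih =>
      have h1 := hmono _ _ (hk.trans ih)
      rw [pow_succ' χ (k + 1), RingAut.mul_apply]
      exact h1
  have hdown : ∀ k : ℕ, 𝒱.valuation (χ y) ≤ 𝒱.valuation y →
      𝒱.valuation ((χ ^ (k + 1)) y) ≤ 𝒱.valuation (χ y) := by
    intro k hk
    induction k with
    | zero => simp
    | succ k ih =>
      have h1 := hmono _ _ (ih.trans hk)
      rw [pow_succ' χ (k + 1), RingAut.mul_apply]
      exact h1
  obtain ⟨k, rfl⟩ : ∃ k, r = k + 1 := ⟨r - 1, by omega⟩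
  rcases le_total (𝒱.valuation y) (𝒱.valuation (χ y)) with h1 | h1
  · refine le_antisymm ?_ h1
    have := hup k h1
    rwa [h] at this
  · refine le_antisymm h1 ?_
    have := hdown k h1
    rwa [h] at this

theorem free_aux {κ Ω : Type*} [Field κ] [IsAlgClosed κ] {p ℓ : ℕ} [Fact p.Prime] [CharP κ p]
    (hκ : ∀ x : κ, ∃ n, 1 ≤ n ∧ x ^ p ^ n = x) [Fact ℓ.Prime] (hpl : p ≠ ℓ) [Field Ω]
    [Algebra κ Ω] (t : Ω) (halg : ∀ x : Ω, IsAlgebraic (adjoin κ {t}) x)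
    (χ : Ω ≃+* Ω) (e : ℕ) (he : 1 ≤ e)
    (hχ : ∀ a : κ, χ (algebraMap κ Ω a) = algebraMap κ Ω (a ^ p ^ e)) (hχt : χ t = t)
    (τ : Ω ≃ₐ[κ] Ω) (hτχ : ∀ x, χ (τ x) = τ (χ x)) (hτ : ∀ x, ∃ m, (τ ^ ℓ ^ m) x = x)
    (𝒱 : ValuationSubring Ω) (h𝒱 : 𝒱 ≠ ⊤) (hκ𝒱 : ∀ a : κ, algebraMap κ Ω a ∈ 𝒱)
    (hχ𝒱 : ∀ x, x ∈ 𝒱 ↔ χ x ∈ 𝒱) (hτ𝒱 : ∀ x ∈ 𝒱, τ x ∈ 𝒱) :
    ∃ m, ∀ x, (τ ^ ℓ ^ m) x = x := by
  by_contra! h
  have hp : 1 < p := (Fact.out : p.Prime).one_lt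
  have hℓ : ℓ.Prime := Fact.out
  have hq : 1 < p ^ e := Nat.one_lt_pow (by omega) hp
  have hroot : ∀ m, ∃ ζ : κ, IsPrimitiveRoot ζ (ℓ ^ m) := by
    intro m
    have : NeZero ((ℓ ^ m : ℕ) : κ) := ⟨by
      intro h0
      rw [CharP.cast_eq_zero_iff κ p] at h0
      exact hpl ((Nat.prime_dvd_prime_iff_eq Fact.out hℓ).1 (Nat.Prime.dvd_of_dvd_pow Fact.out h0))⟩
    exact HasEnoughRootsOfUnity.exists_primitiveRoot κ (ℓ ^ m)
  obtain ⟨x₀, hx₀⟩ := h (p ^ e)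
  obtain ⟨M, ζ, y, hM, hζ, hy, hy'⟩ := exists_kummer hroot τ hτ (p ^ e) x₀ hx₀
  have hχκ : ∀ a : κ, ∃ r, 1 ≤ r ∧ (χ ^ r) (algebraMap κ Ω a) = algebraMap κ Ω a := by
    intro a
    obtain ⟨n, hn, ha⟩ := hκ a
    refine ⟨n, hn, ?_⟩
    rw [pow_frob χ e hχ]
    congr 1
    have : ∀ k, a ^ p ^ (k * n) = a := by
      intro k
      induction k with
      | zero => simp
      | succ k ih => rw [add_mul, one_mul, pow_add, pow_mul, ih, ha]
    exact this e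
  obtain ⟨r, hr, hr'⟩ := finite_orbit t halg χ hχκ hχt y
  have hv := val_eq_of_orbit 𝒱 χ hχ𝒱 y r hr hr'
  have hy0 : 0 < 𝒱.valuation y := zero_lt_iff.2 ((Valuation.ne_zero_iff _).2 hy)
  set u := χ y / y with hu
  have hu1 : 𝒱.valuation u = 1 := by
    rw [hu, map_div₀, hv, div_self hy0.ne']
  obtain ⟨a, ha⟩ := exists_const t halg 𝒱 h𝒱 hκ𝒱 u ((𝒱.valuation_le_one_iff _).1 hu1.le)
  have ha0 : a ≠ 0 := by
    rintro rfl
    rw [map_zero, sub_zero, hu1] at ha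
    exact lt_irrefl _ ha
  have hinv : ∀ x, τ x ∈ 𝒱 → x ∈ 𝒱 := by
    intro x hx
    obtain ⟨m, hm⟩ := hτ x
    have h1 : ∀ k, (τ ^ k) (τ x) ∈ 𝒱 := by
      intro k
      induction k with
      | zero => simpa using hx
      | succ k ih =>
        rw [pow_succ', AlgEquiv.mul_apply]
        exact hτ𝒱 _ ih
    have h2 : ℓ ^ m = (ℓ ^ m - 1) + 1 := by
      have : 0 < ℓ ^ m := pow_pos hℓ.pos _
      omega
    rw [h2, pow_succ, AlgEquiv.mul_apply] at hm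
    rw [← hm]
    exact h1 _
  have hlt : ∀ x, 𝒱.valuation x < 1 → 𝒱.valuation (τ x) < 1 := by
    intro x hx
    rw [val_lt_one_iff'] at hx ⊢
    rcases hx with rfl | hx
    · left
      simp
    · right
      rw [← map_inv₀]
      exact fun h => hx (hinv _ h)
  set ξ := ζ ^ (p ^ e - 1) with hξ
  have hζ0 : ζ ≠ 0 := hζ.ne_zero (pow_pos hℓ.pos _).ne'
  have hτu : τ u = algebraMap κ Ω ξ * u := by
    have h1 : algebraMap κ Ω ζ ≠ 0 := (_root_.map_ne_zero _).2 hζ0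
    rw [hu, map_div₀, ← hτχ, hy', map_mul, hχ, hξ]
    have h2 : ζ ^ p ^ e = ζ ^ (p ^ e - 1) * ζ := by
      rw [← pow_succ]
      congr 1
      omega
    rw [h2, map_mul]
    field_simp
  have h1 := hlt _ ha
  rw [map_sub, hτu, AlgEquiv.commutes] at h1
  have h2 : 𝒱.valuation (algebraMap κ Ω ξ * (u - algebraMap κ Ω a)) < 1 := by
    rw [map_mul]
    exact Right.mul_lt_one_of_le_of_lt ((𝒱.valuation_le_one_iff _).2 (hκ𝒱 _)) ha
  have h3 : 𝒱.valuation (algebraMap κ Ω (ξ * a - a)) < 1 := by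
    have h4 : algebraMap κ Ω (ξ * a - a) = (algebraMap κ Ω ξ * u - algebraMap κ Ω a) -
        algebraMap κ Ω ξ * (u - algebraMap κ Ω a) := by
      rw [map_sub, map_mul]
      ring
    rw [h4]
    exact Valuation.map_sub_lt _ h1 h2
  have h5 : ξ * a - a = 0 := by
    by_contra h0
    rw [valuation_const 𝒱 hκ𝒱 _ h0] at h3
    exact lt_irrefl _ h3
  have h6 : ξ = 1 := by
    have : (ξ - 1) * a = 0 := by linear_combination h5
    exact sub_eq_zero.1 ((mul_eq_zero.1 this).resolve_right ha0)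
  have h7 : ℓ ^ M ∣ p ^ e - 1 := hζ.dvd_of_pow_eq_one _ h6
  have h8 : ℓ ^ M ≤ p ^ e - 1 := Nat.le_of_dvd (by omega) h7
  have h9 : M < ℓ ^ M := Nat.lt_pow_self hℓ.one_lt
  omega

theorem exists_stab {κ Ω : Type*} [Field κ] [IsAlgClosed κ] {p ℓ : ℕ} [Fact p.Prime] [CharP κ p]
    (hκ : ∀ x : κ, ∃ n, 1 ≤ n ∧ x ^ p ^ n = x) [Fact ℓ.Prime] [Field Ω]
    [Algebra κ Ω] (t : Ω) (halg : ∀ x : Ω, IsAlgebraic (adjoin κ {t}) x)
    (θ : Multiplicative ℤ_[ℓ] →* (Ω ≃ₐ[κ] Ω)) (hθt : ∀ z, θ z t = t)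
    (hcont : ∀ x : Ω, ∃ m : ℕ, ∀ z : ℤ_[ℓ], θ (Multiplicative.ofAdd ((ℓ : ℤ_[ℓ]) ^ m * z)) x = x)
    (hfin : ∃ s : Finset Ω, ∀ x, (∀ z, θ z x = x) →
      x ∈ Submodule.span (adjoin κ {t}) (s : Set Ω))
    (ψ : Ω ≃+* Ω) (e : ℕ)
    (hψ : ∀ a : κ, ψ (algebraMap κ Ω a) = algebraMap κ Ω (a ^ p ^ e)) (hψt : ψ t = t)
    (hψθ : ∀ z x, ψ (θ z x) = θ z (ψ x)) (𝒱 : ValuationSubring Ω) (h𝒱 : 𝒱 ≠ ⊤)
    (hκ𝒱 : ∀ a : κ, algebraMap κ Ω a ∈ 𝒱) :
    ∃ (j : ℕ) (z : Multiplicative ℤ_[ℓ]), 1 ≤ j ∧ ∀ x, x ∈ 𝒱 ↔ θ z ((ψ ^ j) x) ∈ 𝒱 := by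
  -- a local parameter
  obtain ⟨t', c, ht', hc, hψt'⟩ : ∃ (t' : Ω) (c : κ), adjoin κ {t'} = adjoin κ {t} ∧
      𝒱.valuation (t' - algebraMap κ Ω c) < 1 ∧ ψ t' = t' := by
    by_cases ht𝒱 : t ∈ 𝒱
    · obtain ⟨c, hc⟩ := exists_const t halg 𝒱 h𝒱 hκ𝒱 t ht𝒱
      exact ⟨t, c, rfl, hc, hψt⟩
    · refine ⟨t⁻¹, 0, ?_, ?_, by rw [map_inv₀, hψt]⟩
      · apply le_antisymm
        · rw [adjoin_le_iff, Set.singleton_subset_iff]
          exact inv_mem (mem_adjoin_simple_self κ t)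
        · rw [adjoin_le_iff, Set.singleton_subset_iff]
          have := inv_mem (mem_adjoin_simple_self κ t⁻¹)
          rwa [inv_inv] at this
      · rw [map_zero, sub_zero, val_lt_one_iff', inv_inv]
        exact Or.inr ht𝒱
  obtain ⟨n, hn, hcn⟩ := hκ c
  have hcn' : ∀ k, c ^ p ^ (k * n) = c := by
    intro k
    induction k with
    | zero => simp
    | succ k ih => rw [add_mul, one_mul, pow_add, pow_mul, ih, hcn]
  have hpowt : ∀ k, (ψ ^ k) t' = t' := by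
    intro k
    induction k with
    | zero => simp
    | succ k ih => rw [pow_succ', RingAut.mul_apply, ih, hψt']
  -- the conjugates
  let V : ℕ → ValuationSubring Ω := fun k => 𝒱.comap ((ψ ^ (n * k) : Ω ≃+* Ω) : Ω →+* Ω)
  have hV : ∀ k x, x ∈ V k ↔ (ψ ^ (n * k)) x ∈ 𝒱 := fun _ _ => Iff.rfl
  have hVκ : ∀ k (a : κ), algebraMap κ Ω a ∈ V k := by
    intro k a
    rw [hV, pow_frob ψ e hψ]
    exact hκ𝒱 _
  have hVc : ∀ k, (V k).valuation (t' - algebraMap κ Ω c) < 1 := by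
    intro k
    have h1 : (ψ ^ (n * k)) (t' - algebraMap κ Ω c) = t' - algebraMap κ Ω c := by
      rw [map_sub, hpowt, pow_frob ψ e hψ, show e * (n * k) = (e * k) * n by ring, hcn']
    rw [val_lt_one_iff'] at hc ⊢
    rcases hc with hc | hc
    · exact Or.inl hc
    · right
      rw [hV, map_inv₀, h1]
      exact hc
  have htr : ∀ k, ∀ x ∈ adjoin κ {t}, x ∈ V k ↔ x ∈ 𝒱 := by
    intro k x hx
    rw [← ht'] at hx
    exact ⟨fun h => same_trace_aux t' (V k) 𝒱 (hVκ k) hκ𝒱 c (hVc k) hc x hx h,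
      fun h => same_trace_aux t' 𝒱 (V k) hκ𝒱 (hVκ k) c hc (hVc k) x hx h⟩
  -- the fixed field
  have hθκt : ∀ z, ∀ x ∈ adjoin κ {t}, θ z x = x := by
    intro z x hx
    obtain ⟨r, s, rfl⟩ := (mem_adjoin_simple_iff κ x).1 hx
    rw [map_div₀]
    congr 1
    · rw [← Polynomial.aeval_algHom_apply (θ z : Ω ≃ₐ[κ] Ω), hθt]
    · rw [← Polynomial.aeval_algHom_apply (θ z : Ω ≃ₐ[κ] Ω), hθt]
  let A : IntermediateField (adjoin κ {t}) Ω :=
    { carrier := {x | ∀ z, θ z x = x}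
      mul_mem' := fun ha hb z => by rw [map_mul, ha z, hb z]
      one_mem' := fun z => map_one _
      add_mem' := fun ha hb z => by rw [map_add, ha z, hb z]
      zero_mem' := fun z => map_zero _
      algebraMap_mem' := fun x z => hθκt z x x.2
      inv_mem' := fun x hx z => by rw [map_inv₀, hx z] }
  have hA : ∀ x, x ∈ A ↔ ∀ z, θ z x = x := fun _ => Iff.rfl
  have hAfin : FiniteDimensional (adjoin κ {t}) A := by
    obtain ⟨s, hs⟩ := hfin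
    have h1 : Subalgebra.toSubmodule A.toSubalgebra ≤ Submodule.span (adjoin κ {t}) (s : Set Ω) :=
      fun x hx => hs x hx
    have h2 : FiniteDimensional (adjoin κ {t}) (Submodule.span (adjoin κ {t}) (s : Set Ω)) :=
      FiniteDimensional.span_finset _ s
    exact Submodule.finiteDimensional_of_le h1
  have hψA : ∀ k x, x ∈ A → (ψ ^ k) x ∈ A := by
    intro k x hx
    induction k with
    | zero => simpa using hx
    | succ k ih =>
      intro z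
      rw [pow_succ', RingAut.mul_apply, ← hψθ, ih z]
  have hψA' : ∀ k x, (ψ ^ k) x ∈ A → x ∈ A := by
    intro k
    induction k with
    | zero => intro x hx; simpa using hx
    | succ k ih =>
      intro x hx
      refine ih x ?_
      intro z
      apply ψ.injective
      have := hx z
      rw [pow_succ', RingAut.mul_apply, ← hψθ] at this
      exact this
  -- pigeonhole
  let 𝔒 : ValuationSubring (adjoin κ {t}) := 𝒱.comap (algebraMap (adjoin κ {t}) Ω)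
  have hfinV := val_finite (M := A) 𝔒
  have hVA : ∀ k, ((V k).comap (algebraMap A Ω)).comap (algebraMap (adjoin κ {t}) A) = 𝔒 := by
    intro k
    ext x
    exact htr k x x.2
  have := hfinV.to_subtype
  obtain ⟨i, j, hij, h2⟩ := Finite.exists_ne_map_eq_of_infinite
    (fun k : ℕ => (⟨(V k).comap (algebraMap A Ω), hVA k⟩ :
      {𝒲 : ValuationSubring A | 𝒲.comap (algebraMap (adjoin κ {t}) A) = 𝔒}))
  have h3 : ∀ x ∈ A, (ψ ^ (n * i)) x ∈ 𝒱 ↔ (ψ ^ (n * j)) x ∈ 𝒱 := by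
    intro x hx
    have h4 : (V i).comap (algebraMap A Ω) = (V j).comap (algebraMap A Ω) :=
      congrArg Subtype.val h2
    have h5 := SetLike.ext_iff.1 h4 ⟨x, hx⟩
    exact h5
  have key : ∀ i j : ℕ, i < j → (∀ x ∈ A, (ψ ^ (n * i)) x ∈ 𝒱 ↔ (ψ ^ (n * j)) x ∈ 𝒱) →
      ∃ r, 1 ≤ r ∧ ∀ x ∈ A, x ∈ 𝒱 ↔ (ψ ^ r) x ∈ 𝒱 := by
    intro i j hij h3
    obtain ⟨d, rfl⟩ := Nat.exists_eq_add_of_lt hij
    refine ⟨n * (d + 1), Nat.mul_pos hn (by omega), fun x hx => ?_⟩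
    obtain ⟨y, hy⟩ := (ψ ^ (n * i)).surjective x
    have hyA : y ∈ A := hψA' (n * i) y (by rw [hy]; exact hx)
    have h6 := h3 y hyA
    rw [show n * (i + d + 1) = n * (d + 1) + n * i by ring, pow_apply_add, hy] at h6
    exact h6
  obtain ⟨r, hr, hr'⟩ : ∃ r, 1 ≤ r ∧ ∀ x ∈ A, x ∈ 𝒱 ↔ (ψ ^ r) x ∈ 𝒱 := by
    rcases lt_or_gt_of_ne hij with h | h
    · exact key i j h h3
    · exact key j i h fun x hx => (h3 x hx).symm
  -- transitivity
  let act : MulSemiringAction (Multiplicative ℤ_[ℓ]) Ω := MulSemiringAction.compHom Ω θ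
  have hact : ∀ (z : Multiplicative ℤ_[ℓ]) (x : Ω), z • x = θ z x := fun _ _ => rfl
  have hopen : ∀ x : Ω, IsOpen (MulAction.stabilizer (Multiplicative ℤ_[ℓ]) x :
      Set (Multiplicative ℤ_[ℓ])) := by
    intro x
    obtain ⟨m, hm⟩ := hcont x
    apply Subgroup.isOpen_of_mem_nhds _ (g := 1)
    have h7 : Metric.ball (0 : ℤ_[ℓ]) ((ℓ : ℝ) ^ (-(m : ℤ) + 1)) ∈ nhds (0 : ℤ_[ℓ]) :=
      Metric.ball_mem_nhds _ (zpow_pos (by exact_mod_cast (Fact.out : ℓ.Prime).pos) _)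
    refine Filter.mem_of_superset (show _ ∈ nhds (1 : Multiplicative ℤ_[ℓ]) from h7) ?_
    intro z hz
    have h8 : ‖(Multiplicative.toAdd z : ℤ_[ℓ])‖ ≤ (ℓ : ℝ) ^ (-(m : ℤ)) := by
      rw [PadicInt.norm_le_pow_iff_norm_lt_pow_add_one]
      have h81 : dist (Multiplicative.toAdd z : ℤ_[ℓ]) 0 < (ℓ : ℝ) ^ (-(m : ℤ) + 1) := hz
      rwa [dist_zero_right] at h81
    rw [PadicInt.norm_le_pow_iff_mem_span_pow, Ideal.mem_span_singleton] at h8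
    obtain ⟨w, hw⟩ := h8
    have h9 := hm w
    rw [← hw] at h9
    exact h9
  obtain ⟨z, hz⟩ := val_trans (E := A) (M := Ω) (G := Multiplicative ℤ_[ℓ]) hopen
    (fun g x => x.2 g) (fun x hx => ⟨⟨x, fun g => hx g⟩, rfl⟩)
    (𝒱.comap ((ψ ^ r : Ω ≃+* Ω) : Ω →+* Ω)) 𝒱 (by
      ext x
      exact (hr' x x.2).symm)
  refine ⟨r, z, hr, fun x => ?_⟩
  rw [hz x]
  have h10 : ∀ k, (ψ ^ k) (θ z x) = θ z ((ψ ^ k) x) := by
    intro k
    induction k with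
    | zero => simp
    | succ k ih => rw [pow_succ', RingAut.mul_apply, ih, hψθ, RingAut.mul_apply]
  rw [← h10]
  exact Iff.rfl

end Free

open Free in
/-- the group acts freely on the places -/
theorem free_places {κ Ω : Type*} [Field κ] [IsAlgClosed κ] {p ℓ : ℕ} [Fact p.Prime] [CharP κ p]
    (hκ : ∀ x : κ, ∃ n, 1 ≤ n ∧ x ^ p ^ n = x) [Fact ℓ.Prime] (hpl : p ≠ ℓ) [Field Ω]
    [Algebra κ Ω] (t : Ω) (_ht : Transcendental κ t) (halg : ∀ x : Ω, IsAlgebraic (adjoin κ {t}) x)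
    (θ : Multiplicative ℤ_[ℓ] →* (Ω ≃ₐ[κ] Ω)) (hθ : Function.Injective θ) (hθt : ∀ z, θ z t = t)
    (hcont : ∀ x : Ω, ∃ m : ℕ, ∀ z : ℤ_[ℓ], θ (Multiplicative.ofAdd ((ℓ : ℤ_[ℓ]) ^ m * z)) x = x)
    (hfin : ∃ s : Finset Ω, ∀ x, (∀ z, θ z x = x) →
      x ∈ Submodule.span (adjoin κ {t}) (s : Set Ω))
    (ψ : Ω ≃+* Ω) (e : ℕ) (he : 1 ≤ e)
    (hψ : ∀ a : κ, ψ (algebraMap κ Ω a) = algebraMap κ Ω (a ^ p ^ e)) (hψt : ψ t = t)
    (hψθ : ∀ z x, ψ (θ z x) = θ z (ψ x)) (𝒱 : ValuationSubring Ω) (h𝒱 : 𝒱 ≠ ⊤)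
    (hκ𝒱 : ∀ a : κ, algebraMap κ Ω a ∈ 𝒱) :
    (∃ (j : ℕ) (z : Multiplicative ℤ_[ℓ]), 1 ≤ j ∧ ∀ x, x ∈ 𝒱 ↔ θ z ((ψ ^ j) x) ∈ 𝒱) ∧
    ∀ z, (∀ x ∈ 𝒱, θ z x ∈ 𝒱) → z = 1 := by
  have hst := exists_stab hκ t halg θ hθt hcont hfin ψ e hψ hψt hψθ 𝒱 h𝒱 hκ𝒱
  refine ⟨hst, fun z hz => ?_⟩
  obtain ⟨j, z₀, hj, hz₀⟩ := hst
  let χ : Ω ≃+* Ω := (ψ ^ j : Ω ≃+* Ω).trans (θ z₀ : Ω ≃+* Ω)
  have hχ : ∀ x, χ x = θ z₀ ((ψ ^ j) x) := fun _ => rfl
  have hcomm : ∀ k x, (ψ ^ k) (θ z x) = θ z ((ψ ^ k) x) := by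
    intro k x
    induction k with
    | zero => simp
    | succ k ih => rw [pow_succ', RingAut.mul_apply, ih, hψθ, RingAut.mul_apply]
  have hpowt : ∀ k, (ψ ^ k) t = t := by
    intro k
    induction k with
    | zero => simp
    | succ k ih => rw [pow_succ', RingAut.mul_apply, ih, hψt]
  have hpow : ∀ (k : ℕ) (x : Ω), ((θ z) ^ k) x = θ (Multiplicative.ofAdd ((k : ℤ_[ℓ]) *
      Multiplicative.toAdd z)) x := by
    intro k x
    rw [← map_pow]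
    congr 2
  obtain ⟨m, hm⟩ := free_aux hκ hpl t halg χ (e * j) (Nat.mul_pos he hj)
    (fun a => by rw [hχ, pow_frob ψ e hψ, AlgEquiv.commutes]) (by rw [hχ, hpowt, hθt]) (θ z)
    (fun x => by
      rw [hχ, hχ, hcomm, ← AlgEquiv.mul_apply, ← AlgEquiv.mul_apply, ← map_mul, ← map_mul,
        mul_comm z z₀])
    (fun x => by
      obtain ⟨m, hm⟩ := hcont x
      refine ⟨m, ?_⟩
      rw [hpow]
      push_cast
      exact hm _) 𝒱 h𝒱 hκ𝒱 (fun x => hz₀ x) hz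
  have h1 : θ (Multiplicative.ofAdd (((ℓ ^ m : ℕ) : ℤ_[ℓ]) * Multiplicative.toAdd z)) = θ 1 := by
    ext x
    rw [← hpow, hm, map_one, AlgEquiv.one_apply]
  have h2 := hθ h1
  have h3 : ((ℓ ^ m : ℕ) : ℤ_[ℓ]) * Multiplicative.toAdd z = 0 := h2
  have h4 : ((ℓ ^ m : ℕ) : ℤ_[ℓ]) ≠ 0 := Nat.cast_ne_zero.2
    (pow_pos (Fact.out : ℓ.Prime).pos _).ne'
  exact (mul_eq_zero.1 h3).resolve_left h4

end Pool.Agent.Lib.MP_2f3286_ag.Full
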