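import Pool.Agent.Lib.MP_2f3286_ag.Full.Defs

/-!
# Open subgroups of free profinite groups of finite rank

Every open subgroup of a free profinite group of finite rank has, for every prime `ℓ`, finitely
many continuous homomorphisms to `ℤ/ℓ`, and all of them lift to `ℤ_ℓ`.
-/

namespace Pool.Agent.Lib.MP_2f3286_ag.Full

/-- The subgroup `N`, with its topology, is a free profinite group of finite rank. -/
def IsFreeProfinite {G : Type*} [Group G] [TopologicalSpace G] (N : Subgroup G) : Prop :=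
  ∃ (n : ℕ) (x : Fin n → N), ∀ (Q : Type) [Group Q] [Finite Q] (y : Fin n → Q),
    ∃! f : N →* Q, IsOpen ((f.ker : Subgroup N) : Set N) ∧ ∀ i, f (x i) = y i

namespace FreePro

/-- `P` is free profinite on `x` -/
def FreeOn {P : Type*} [Group P] [TopologicalSpace P] {n : ℕ} (x : Fin n → P) : Prop :=
  ∀ (Q : Type) [Group Q] [Finite Q] (y : Fin n → Q),
    ∃! f : P →* Q, IsOpen ((f.ker : Subgroup P) : Set P) ∧ ∀ i, f (x i) = y i

theorem eq_of_mem_ker {A Q : Type*} [Group A] [Group Q] (f : A →* Q) {a b : A}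
    (h : a⁻¹ * b ∈ f.ker) : f a = f b := by
  rw [MonoidHom.mem_ker, map_mul, map_inv, inv_mul_eq_one] at h
  exact h

theorem comap_finiteIndex {A Q : Type*} [Group A] [Group Q] (f : A →* Q) (H : Subgroup Q)
    [H.FiniteIndex] : (H.comap f).FiniteIndex := by
  constructor
  rw [Subgroup.index_comap]
  exact fun h => Subgroup.FiniteIndex.index_ne_zero (H := H)
    (Subgroup.index_eq_zero_of_relIndex_eq_zero h)

section

variable {P : Type*} [Group P] [TopologicalSpace P] [IsTopologicalGroup P] [CompactSpace P]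

theorem core_open (H : Subgroup P) (hH : IsOpen (H : Set P)) :
    IsOpen (H.normalCore : Set P) := by
  have := Subgroup.quotient_finite_of_isOpen H hH
  have : H.FiniteIndex := Subgroup.finiteIndex_of_finite_quotient
  have := Subgroup.finiteIndex_normalCore H
  exact Subgroup.isOpen_of_isClosed_of_finiteIndex _
    (Subgroup.normalCore_isClosed H (Subgroup.isClosed_of_isOpen H hH))

variable {n : ℕ} {x : Fin n → P}

omit [CompactSpace P] in
theorem FreeOn.existsUnique (hx : FreeOn x) {Q : Type*} [Group Q] [Finite Q] (y : Fin n → Q) :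
    ∃! f : P →* Q, IsOpen (f.ker : Set P) ∧ ∀ i, f (x i) = y i := by
  let e : Shrink.{0} Q ≃* Q := Shrink.mulEquiv
  obtain ⟨f, ⟨h1, h2⟩, h3⟩ := hx (Shrink.{0} Q) (fun i => e.symm (y i))
  refine ⟨e.toMonoidHom.comp f, ⟨?_, fun i => ?_⟩, ?_⟩
  · refine Subgroup.isOpen_mono (H₁ := f.ker) (fun a ha => ?_) h1
    rw [MonoidHom.mem_ker] at ha ⊢
    simp [ha]
  · simp [h2]
  · rintro g ⟨g1, g2⟩
    have := h3 (e.symm.toMonoidHom.comp g) ⟨?_, fun i => ?_⟩
    · rw [← this]
      ext a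
      simp
    · refine Subgroup.isOpen_mono (H₁ := g.ker) (fun a ha => ?_) g1
      rw [MonoidHom.mem_ker] at ha ⊢
      simp [ha]
    · simp [g2]

/-- an open subgroup containing the generators is everything -/
theorem FreeOn.eq_top (hx : FreeOn x) (H : Subgroup P) (hH : IsOpen (H : Set P))
    (h : ∀ i, x i ∈ H) : H = ⊤ := by
  classical
  have := Subgroup.quotient_finite_of_isOpen H hH
  let f1 : P →* Equiv.Perm ((P ⧸ H) ⊕ Unit) :=
    (Equiv.Perm.sumCongrHom (P ⧸ H) Unit).comp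
      ((MulAction.toPermHom P (P ⧸ H)).prod (1 : P →* Equiv.Perm Unit))
  have hl : ∀ g (c : P ⧸ H), f1 g (Sum.inl c) = Sum.inl (g • c) := fun g c => rfl
  have hr : ∀ g, f1 g (Sum.inr ()) = Sum.inr () := fun g => rfl
  let σ : Equiv.Perm ((P ⧸ H) ⊕ Unit) := Equiv.swap (Sum.inl ((1 : P) : P ⧸ H)) (Sum.inr ())
  let f2 : P →* Equiv.Perm ((P ⧸ H) ⊕ Unit) := (MulAut.conj σ).toMonoidHom.comp f1
  have hf2 : ∀ g, f2 g = σ * f1 g * σ⁻¹ := fun g => rfl
  have hk1 : IsOpen (f1.ker : Set P) := by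
    refine Subgroup.isOpen_mono (H₁ := H.normalCore) (fun a ha => ?_) (core_open H hH)
    rw [Subgroup.normalCore_eq_ker, MonoidHom.mem_ker] at ha
    rw [MonoidHom.mem_ker]
    change (Equiv.Perm.sumCongrHom (P ⧸ H) Unit) (MulAction.toPermHom P (P ⧸ H) a, 1) = 1
    rw [ha]
    exact map_one _
  have hk2 : IsOpen (f2.ker : Set P) := by
    refine Subgroup.isOpen_mono (H₁ := f1.ker) (fun a ha => ?_) hk1
    rw [MonoidHom.mem_ker] at ha ⊢
    rw [hf2, ha]
    simp
  have hag : ∀ g ∈ H, f2 g = f1 g := by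
    intro g hg
    have h1 : f1 g * σ * (f1 g)⁻¹ = σ := by
      have := Equiv.swap_apply_apply (f1 g) (Sum.inl ((1 : P) : P ⧸ H)) (Sum.inr ())
      rw [hl, hr] at this
      have h2 : g • ((1 : P) : P ⧸ H) = ((1 : P) : P ⧸ H) := by
        change ((g * 1 : P) : P ⧸ H) = _
        rw [mul_one]
        exact (QuotientGroup.eq).2 (by simpa using hg)
      rw [h2] at this
      exact this.symm
    rw [hf2]
    have h3 : f1 g * σ = σ * f1 g := by
      conv_rhs => rw [← h1]
      group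
    rw [← h3]
    group
  obtain ⟨f, -, hf⟩ := hx.existsUnique (fun i => f1 (x i))
  have e1 := hf f1 ⟨hk1, fun i => rfl⟩
  have e2 := hf f2 ⟨hk2, fun i => hag _ (h i)⟩
  have e : f1 = f2 := e1.trans e2.symm
  refine eq_top_iff.2 fun g _ => ?_
  have h4 : f1 g (Sum.inl ((1 : P) : P ⧸ H)) = f2 g (Sum.inl ((1 : P) : P ⧸ H)) := by rw [e]
  have h5 : f2 g (Sum.inl ((1 : P) : P ⧸ H)) = Sum.inl ((1 : P) : P ⧸ H) := by
    rw [hf2]
    have : σ⁻¹ (Sum.inl ((1 : P) : P ⧸ H)) = Sum.inr () := by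
      simp [σ]
    rw [Equiv.Perm.mul_apply, Equiv.Perm.mul_apply, this, hr]
    simp [σ]
  rw [h5, hl] at h4
  have h6 : g • ((1 : P) : P ⧸ H) = ((1 : P) : P ⧸ H) := Sum.inl_injective h4
  have h7 : ((g * 1 : P) : P ⧸ H) = ((1 : P) : P ⧸ H) := h6
  rw [mul_one] at h7
  have := (QuotientGroup.eq).1 h7
  simpa using this

/-- the abstract free group on the generators is dense -/
theorem FreeOn.dense (hx : FreeOn x) (V : Subgroup P) (hV : IsOpen (V : Set P)) (g : P) :
    ∃ w : FreeGroup (Fin n), g⁻¹ * FreeGroup.lift x w ∈ V := by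
  have h1 := hx.eq_top ((FreeGroup.lift x).range ⊔ V.normalCore)
    (Subgroup.isOpen_mono le_sup_right (core_open V hV)) (fun i => by
      refine Subgroup.mem_sup_left ⟨FreeGroup.of i, ?_⟩
      simp)
  have h2 : g ∈ (FreeGroup.lift x).range ⊔ V.normalCore := by rw [h1]; trivial
  rw [Subgroup.mem_sup_of_normal_right] at h2
  obtain ⟨y, ⟨w, hw⟩, z, hz, hyz⟩ := h2
  refine ⟨w, ?_⟩
  rw [hw, ← hyz]
  have : (y * z)⁻¹ * y = z⁻¹ := by group
  rw [this]
  exact V.inv_mem (Subgroup.normalCore_le V hz)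

theorem FreeOn.dense_in (hx : FreeOn x) (B : Subgroup P) (hB : IsOpen (B : Set P))
    (V : Subgroup B) (hV : IsOpen (V : Set B)) (a : B) :
    ∃ w : B.comap (FreeGroup.lift x), a⁻¹ * ⟨FreeGroup.lift x w, w.2⟩ ∈ V := by
  have hV' : IsOpen ((V.map B.subtype : Subgroup P) : Set P) := by
    rw [Subgroup.coe_map]
    exact hB.isOpenMap_subtype_val _ hV
  obtain ⟨w, hw⟩ := hx.dense _ hV' (a : P)
  obtain ⟨v, hv, hvw⟩ := hw
  have hwB : FreeGroup.lift x w ∈ B := by
    have : FreeGroup.lift x w = (a : P) * (v : P) := by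
      have h : (v : P) = (a : P)⁻¹ * FreeGroup.lift x w := hvw
      rw [h]
      group
    rw [this]
    exact B.mul_mem a.2 v.2
  refine ⟨⟨w, hwB⟩, ?_⟩
  have : a⁻¹ * ⟨FreeGroup.lift x w, hwB⟩ = v := Subtype.ext hvw.symm
  rw [this]
  exact hv

theorem FreeOn.ext (hx : FreeOn x) (B : Subgroup P) (hB : IsOpen (B : Set P))
    {Q : Type*} [Group Q] (f g : B →* Q) (hf : IsOpen (f.ker : Set B))
    (hg : IsOpen (g.ker : Set B))
    (h : ∀ w : B.comap (FreeGroup.lift x), f ⟨FreeGroup.lift x w, w.2⟩ =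
      g ⟨FreeGroup.lift x w, w.2⟩) : f = g := by
  ext a
  obtain ⟨w, hw⟩ := hx.dense_in B hB (f.ker ⊓ g.ker) (by
    rw [Subgroup.coe_inf]; exact hf.inter hg) a
  have h1 : f a = f ⟨FreeGroup.lift x w, w.2⟩ := eq_of_mem_ker f hw.1
  have h2 : g a = g ⟨FreeGroup.lift x w, w.2⟩ := eq_of_mem_ker g hw.2
  rw [h1, h2, h w]

/-- every homomorphism from the abstract open subgroup to a finite group extends -/
theorem FreeOn.extend (hx : FreeOn x) (B : Subgroup P) (hB : IsOpen (B : Set P))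
    {Q : Type*} [Group Q] [Finite Q] (ψ : (B.comap (FreeGroup.lift x)) →* Q) :
    ∃ Ψ : B →* Q, IsOpen (Ψ.ker : Set B) ∧
      ∀ w : B.comap (FreeGroup.lift x), Ψ ⟨FreeGroup.lift x w, w.2⟩ = ψ w := by
  classical
  have hBf : Finite (P ⧸ B) := Subgroup.quotient_finite_of_isOpen B hB
  have : B.FiniteIndex := Subgroup.finiteIndex_of_finite_quotient
  have : (B.comap (FreeGroup.lift x)).FiniteIndex := comap_finiteIndex _ B
  set K : Subgroup (FreeGroup (Fin n)) := ψ.ker.map (B.comap (FreeGroup.lift x)).subtype with hK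
  have : ψ.ker.FiniteIndex := by
    exact Subgroup.finiteIndex_ker ψ
  have : K.FiniteIndex := by
    constructor
    rw [hK, Subgroup.index_map_subtype]
    exact mul_ne_zero Subgroup.FiniteIndex.index_ne_zero Subgroup.FiniteIndex.index_ne_zero
  set C := K.normalCore with hC
  have : C.FiniteIndex := Subgroup.finiteIndex_normalCore K
  have : Finite (FreeGroup (Fin n) ⧸ C) := inferInstance
  obtain ⟨h, ⟨h1, h2⟩, -⟩ := hx.existsUnique (fun i => QuotientGroup.mk' C (FreeGroup.of i))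
  have h3 : ∀ w, h (FreeGroup.lift x w) = QuotientGroup.mk' C w := by
    intro w
    have : h.comp (FreeGroup.lift x) = QuotientGroup.mk' C := by
      refine FreeGroup.ext_hom _ _ fun i => ?_
      simp [h2]
    rw [← this]
    rfl
  have wd : ∀ u v : B.comap (FreeGroup.lift x), QuotientGroup.mk' C (u : FreeGroup (Fin n)) =
      QuotientGroup.mk' C (v : FreeGroup (Fin n)) → ψ u = ψ v := by
    intro u v huv
    have h4 : (u : FreeGroup (Fin n))⁻¹ * v ∈ C := QuotientGroup.eq.1 huv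
    have h5 := Subgroup.normalCore_le K h4
    obtain ⟨z, hz, hz2⟩ := h5
    have h6 : z = u⁻¹ * v := Subtype.ext hz2
    rw [SetLike.mem_coe, MonoidHom.mem_ker, h6, map_mul, map_inv, inv_mul_eq_one] at hz
    exact hz
  have hker : IsOpen ((h.comp B.subtype).ker : Set B) := by
    have : ((h.comp B.subtype).ker : Set B) = Subtype.val ⁻¹' (h.ker : Set P) := by
      ext a; simp [MonoidHom.mem_ker]
    rw [this]
    exact h1.preimage continuous_subtype_val
  have key : ∀ a : B, ∃ w : B.comap (FreeGroup.lift x), h a = QuotientGroup.mk' C (w : FreeGroup (Fin n)) := by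
    intro a
    obtain ⟨w, hw⟩ := hx.dense_in B hB _ hker a
    refine ⟨w, ?_⟩
    rw [MonoidHom.mem_ker, map_mul, map_inv, inv_mul_eq_one] at hw
    rw [← h3]
    exact hw
  choose w hw using key
  let Ψ : B →* Q := MonoidHom.mk' (fun a => ψ (w a)) (by
    intro a b
    rw [← map_mul]
    apply wd
    rw [← hw, Subgroup.coe_mul, map_mul, Subgroup.coe_mul, map_mul, ← hw, ← hw])
  refine ⟨Ψ, ?_, ?_⟩
  · refine Subgroup.isOpen_mono (H₁ := (h.comp B.subtype).ker) (fun a ha => ?_) hker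
    rw [MonoidHom.mem_ker] at ha ⊢
    change ψ (w a) = 1
    rw [← map_one ψ]
    apply wd
    rw [← hw]
    simpa using ha
  · intro v
    change ψ (w _) = ψ v
    apply wd
    rw [← hw, ← h3]

end

section

variable {P : Type*} [Group P] [TopologicalSpace P] [IsTopologicalGroup P] [CompactSpace P]
variable {n : ℕ} {x : Fin n → P} {B : Subgroup P} {ℓ : ℕ} [Fact ℓ.Prime]

theorem ker_open {A Q : Type*} [Group A] [TopologicalSpace A] [Group Q] [TopologicalSpace Q]
    [DiscreteTopology Q] (f : A →ₜ* Q) : IsOpen ((f : A →* Q).ker : Set A) := by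
  have : ((f : A →* Q).ker : Set A) = f ⁻¹' {1} := by
    ext a
    simp [MonoidHom.mem_ker]
  rw [this]
  exact (isOpen_discrete _).preimage f.continuous_toFun

theorem FreeOn.finite (hx : FreeOn x) (hB : IsOpen (B : Set P)) :
    Finite (B →ₜ* Multiplicative (ZMod ℓ)) := by
  classical
  have : NeZero ℓ := ⟨(Fact.out : ℓ.Prime).ne_zero⟩
  have : Finite (Multiplicative (ZMod ℓ)) := inferInstanceAs (Finite (ZMod ℓ))
  have hBf : Finite (P ⧸ B) := Subgroup.quotient_finite_of_isOpen B hB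
  have : B.FiniteIndex := Subgroup.finiteIndex_of_finite_quotient
  have : (B.comap (FreeGroup.lift x)).FiniteIndex := comap_finiteIndex _ B
  have : Group.FG (B.comap (FreeGroup.lift x)) := Subgroup.fg_of_index_ne_zero _
  obtain ⟨S, hS⟩ := (Group.fg_def.1 (inferInstance : Group.FG (B.comap (FreeGroup.lift x))))
  let r : (B →ₜ* Multiplicative (ZMod ℓ)) → (S → Multiplicative (ZMod ℓ)) :=
    fun f s => f ⟨FreeGroup.lift x (s : B.comap (FreeGroup.lift x)), (s : B.comap (FreeGroup.lift x)).2⟩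
  refine Finite.of_injective r fun f g hfg => ?_
  let ι : (B.comap (FreeGroup.lift x)) →* B :=
    { toFun := fun w => ⟨FreeGroup.lift x w, w.2⟩
      map_one' := Subtype.ext (by simp)
      map_mul' := fun u v => Subtype.ext (by simp) }
  have h1 : (f : B →* Multiplicative (ZMod ℓ)).comp ι = (g : B →* Multiplicative (ZMod ℓ)).comp ι := by
    refine MonoidHom.eq_of_eqOn_dense hS ?_
    intro s hs
    exact congrFun hfg ⟨s, hs⟩
  have h2 := hx.ext B hB (f : B →* Multiplicative (ZMod ℓ)) (g : B →* Multiplicative (ZMod ℓ))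
    (ker_open f) (ker_open g) (fun w => DFunLike.congr_fun h1 w)
  ext a
  exact DFunLike.congr_fun h2 a

theorem FreeOn.lift (hx : FreeOn x) (hB : IsOpen (B : Set P))
    (f : B →ₜ* Multiplicative (ZMod ℓ)) :
    ∃ F : B →ₜ* Multiplicative ℤ_[ℓ], ∀ a, PadicInt.toZMod (F a).toAdd = (f a).toAdd := by
  classical
  have hpr : ℓ.Prime := Fact.out
  have : NeZero ℓ := ⟨hpr.ne_zero⟩
  set FB := B.comap (FreeGroup.lift x) with hFB
  let ι : FB →* B :=
    { toFun := fun w => ⟨FreeGroup.lift x w, w.2⟩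
      map_one' := Subtype.ext (by simp)
      map_mul' := fun u v => Subtype.ext (by simp) }
  have hι : ∀ w : FB, ι w = ⟨FreeGroup.lift x w, w.2⟩ := fun w => rfl
  have : IsFreeGroup FB := subgroupIsFreeOfIsFree FB
  -- lift to the integers
  let g : FB →* Multiplicative ℤ := IsFreeGroup.lift
    (fun i => Multiplicative.ofAdd (((f (ι (IsFreeGroup.of i))).toAdd.val : ℤ)))
  let red : (m : ℕ) → Multiplicative ℤ →* Multiplicative (ZMod m) := fun m =>
    AddMonoidHom.toMultiplicative (Int.castAddHom (ZMod m))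
  have hred : ∀ m (z : Multiplicative ℤ), (red m z).toAdd = ((z.toAdd : ℤ) : ZMod m) :=
    fun m z => rfl
  have hg : ∀ w : FB, (((g w).toAdd : ℤ) : ZMod ℓ) = (f (ι w)).toAdd := by
    have : (red ℓ).comp g = (f : B →* Multiplicative (ZMod ℓ)).comp ι := by
      refine IsFreeGroup.ext_hom fun i => ?_
      change red ℓ (g (IsFreeGroup.of i)) = f (ι (IsFreeGroup.of i))
      have h1 : g (IsFreeGroup.of i) =
          Multiplicative.ofAdd (((f (ι (IsFreeGroup.of i))).toAdd.val : ℤ)) :=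
        IsFreeGroup.lift_of _ _
      rw [h1]
      apply Multiplicative.toAdd.injective
      rw [hred]
      simp
    intro w
    have h2 := DFunLike.congr_fun this w
    have h3 : (red ℓ (g w)).toAdd = (f (ι w)).toAdd := congrArg Multiplicative.toAdd h2
    rw [← h3]
    rfl
  -- the extensions
  have : ∀ m, NeZero (ℓ ^ m) := fun m => ⟨pow_ne_zero m hpr.ne_zero⟩
  have : ∀ m, Finite (Multiplicative (ZMod (ℓ ^ m))) := fun m =>
    inferInstanceAs (Finite (ZMod (ℓ ^ m)))
  have hext : ∀ m, ∃ Ψ : B →* Multiplicative (ZMod (ℓ ^ m)), IsOpen (Ψ.ker : Set B) ∧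
      ∀ w : FB, Ψ (ι w) = red (ℓ ^ m) (g w) := fun m =>
    hx.extend B hB ((red (ℓ ^ m)).comp g)
  choose Ψ hΨo hΨ using hext
  -- approximations
  have happ : ∀ (a : B) (m : ℕ), ∃ k : ℤ, ∀ j ≤ m, (Ψ j a).toAdd = (k : ZMod (ℓ ^ j)) := by
    intro a m
    let V : Subgroup B := ⨅ j : Fin (m + 1), (Ψ j).ker
    have hV : IsOpen (V : Set B) := by
      rw [Subgroup.coe_iInf]
      exact isOpen_iInter_of_finite fun j => hΨo j
    obtain ⟨w, hw⟩ := hx.dense_in B hB V hV a
    refine ⟨(g w).toAdd, fun j hj => ?_⟩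
    have h1 := (Subgroup.mem_iInf.1 hw) ⟨j, Nat.lt_succ_of_le hj⟩
    rw [MonoidHom.mem_ker, map_mul, map_inv, inv_mul_eq_one] at h1
    have h2 : Ψ j a = Ψ j (ι w) := h1
    rw [h2, hΨ, hred]
  choose k hk using happ
  have hz : ∀ a : B, ∃ z : ℤ_[ℓ], ∀ m, PadicInt.toZModPow m z = (Ψ m a).toAdd := by
    intro a
    have hc : ∀ {i j : ℕ}, i ≤ j → ((k a i : ℤ) : ℤ_[ℓ]) ≡ ((k a j : ℤ) : ℤ_[ℓ])
        [SMOD (IsLocalRing.maximalIdeal ℤ_[ℓ]) ^ i • (⊤ : Submodule ℤ_[ℓ] ℤ_[ℓ])] := by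
      intro i j hij
      rw [SModEq.sub_mem, smul_eq_mul, Ideal.mul_top, PadicInt.maximalIdeal_eq_span_p,
        Ideal.span_singleton_pow, ← PadicInt.ker_toZModPow, RingHom.mem_ker, map_sub,
        map_intCast, map_intCast, ← hk a i i le_rfl, ← hk a j i hij, sub_self]
    obtain ⟨z, hz⟩ := IsPrecomplete.prec
      (inferInstance : IsPrecomplete (IsLocalRing.maximalIdeal ℤ_[ℓ]) ℤ_[ℓ])
      (f := fun i => ((k a i : ℤ) : ℤ_[ℓ])) hc
    refine ⟨z, fun m => ?_⟩
    have h1 := hz m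
    rw [SModEq.sub_mem, smul_eq_mul, Ideal.mul_top, PadicInt.maximalIdeal_eq_span_p,
        Ideal.span_singleton_pow, ← PadicInt.ker_toZModPow, RingHom.mem_ker, map_sub,
        map_intCast, sub_eq_zero, ← hk a m m le_rfl] at h1
    exact h1.symm
  choose Z hZ using hz
  let F0 : B →* Multiplicative ℤ_[ℓ] := MonoidHom.mk' (fun a => Multiplicative.ofAdd (Z a)) (by
    intro a b
    apply Multiplicative.toAdd.injective
    change Z (a * b) = Z a + Z b
    rw [← PadicInt.ext_of_toZModPow]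
    intro m
    rw [hZ, map_add, hZ, hZ, map_mul, toAdd_mul])
  have hF0 : ∀ a, (F0 a).toAdd = Z a := fun a => rfl
  have hcont : Continuous F0 := by
    refine continuous_of_continuousAt_one F0 ?_
    rw [ContinuousAt, map_one]
    change Filter.Tendsto (fun a => (F0 a).toAdd) (nhds 1) (nhds (0 : ℤ_[ℓ]))
    rw [Metric.tendsto_nhds]
    intro ε hε
    obtain ⟨m, hm⟩ := PadicInt.exists_pow_neg_lt ℓ hε
    have h1 : ((Ψ m).ker : Set B) ∈ nhds (1 : B) := (hΨo m).mem_nhds (Subgroup.one_mem _)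
    filter_upwards [h1] with a ha
    rw [dist_zero_right]
    refine lt_of_le_of_lt ?_ hm
    rw [hF0]
    have h2 : Z a ∈ RingHom.ker (PadicInt.toZModPow (p := ℓ) m) := by
      rw [RingHom.mem_ker, hZ]
      rw [SetLike.mem_coe, MonoidHom.mem_ker] at ha
      rw [ha]
      rfl
    rw [PadicInt.ker_toZModPow] at h2
    exact (PadicInt.norm_le_pow_iff_mem_span_pow _ _).2 h2
  refine ⟨⟨F0, hcont⟩, fun a => ?_⟩
  change PadicInt.toZMod (Z a) = (f a).toAdd
  obtain ⟨w, hw⟩ := hx.dense_in B hB ((Ψ 1).ker ⊓ (f : B →* Multiplicative (ZMod ℓ)).ker) (by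
    rw [Subgroup.coe_inf]; exact (hΨo 1).inter (ker_open f)) a
  have h1 : f a = f (ι w) := eq_of_mem_ker (f : B →* Multiplicative (ZMod ℓ)) hw.2
  have h2 : Ψ 1 a = Ψ 1 (ι w) := eq_of_mem_ker (Ψ 1) hw.1
  rw [h1, ← hg]
  have h3 : Z a - (((g w).toAdd : ℤ) : ℤ_[ℓ]) ∈ RingHom.ker (PadicInt.toZModPow (p := ℓ) 1) := by
    rw [RingHom.mem_ker, map_sub, hZ, map_intCast, h2, hΨ, hred, sub_self]
  have h4 : Z a - (((g w).toAdd : ℤ) : ℤ_[ℓ]) ∈ RingHom.ker (PadicInt.toZMod (p := ℓ)) := by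
    rw [PadicInt.ker_toZMod, PadicInt.maximalIdeal_eq_span_p]
    rw [PadicInt.ker_toZModPow, pow_one] at h3
    exact h3
  rw [RingHom.mem_ker, map_sub, map_intCast, sub_eq_zero] at h4
  exact h4

end

end FreePro

theorem free_tfab {G : Type*} [Group G] [TopologicalSpace G] [IsTopologicalGroup G]
    [CompactSpace G] [T2Space G] [TotallyDisconnectedSpace G] (N : Subgroup G)
    (hN : IsClosed (N : Set G)) (hfree : IsFreeProfinite N) :
    ∀ A ≤ N, OpenIn N A → ∀ (ℓ : ℕ) [Fact ℓ.Prime],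
      Finite (A →ₜ* Multiplicative (ZMod ℓ)) ∧
      ∀ f : A →ₜ* Multiplicative (ZMod ℓ), ∃ F : A →ₜ* Multiplicative ℤ_[ℓ],
        ∀ a, PadicInt.toZMod (F a).toAdd = (f a).toAdd := by
  intro A hA hAo ℓ _
  obtain ⟨n, x, hx⟩ := hfree
  have : CompactSpace N := isCompact_iff_compactSpace.1 hN.isCompact
  have hx' : FreePro.FreeOn x := hx
  have hB : IsOpen ((A.subgroupOf N : Subgroup N) : Set N) := by
    obtain ⟨O, hO, hOA⟩ := hAo
    refine Subgroup.isOpen_mono (H₁ := O.subgroupOf N) (fun a ha => ?_)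
      (hO.preimage continuous_subtype_val)
    exact hOA ⟨ha, a.2⟩
  let e : A.subgroupOf N ≃* A := Subgroup.subgroupOfEquivOfLe hA
  have he : Continuous e := by
    refine Continuous.subtype_mk (f := fun a : A.subgroupOf N => ((a : N) : G)) ?_ _
    exact continuous_subtype_val.comp continuous_subtype_val
  have he' : Continuous e.symm := by
    refine Continuous.subtype_mk (f := fun a : A => (⟨(a : G), hA a.2⟩ : N)) ?_ _
    exact Continuous.subtype_mk continuous_subtype_val _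
  let E : A.subgroupOf N →ₜ* A := ⟨e.toMonoidHom, he⟩
  let E' : A →ₜ* A.subgroupOf N := ⟨e.symm.toMonoidHom, he'⟩
  have hEE : ∀ a, E (E' a) = a := fun a => e.apply_symm_apply a
  constructor
  · have := hx'.finite (ℓ := ℓ) hB
    refine Finite.of_injective (fun f : A →ₜ* Multiplicative (ZMod ℓ) => f.comp E) ?_
    intro f g hfg
    ext a
    have h1 : (f.comp E) (E' a) = (g.comp E) (E' a) := by
      have : f.comp E = g.comp E := hfg
      rw [this]
    have h2 : f (E (E' a)) = g (E (E' a)) := h1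
    rwa [hEE] at h2
  · intro f
    obtain ⟨F, hF⟩ := hx'.lift hB (f.comp E)
    refine ⟨F.comp E', fun a => ?_⟩
    have h1 := hF (E' a)
    have h2 : (f.comp E) (E' a) = f a := by
      change f (E (E' a)) = f a
      rw [hEE]
    rw [h2] at h1
    exact h1

end Pool.Agent.Lib.MP_2f3286_ag.Full
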