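import Mathlib
import Pool.Agent.Lib.MP_2f3286_ag.Full.Defs
import Pool.Agent.Lib.MP_2f3286_ag.Full.CharRep
import Pool.Agent.Lib.MP_2f3286_ag.Full.EMain

/-!
# Sections which are pointwise conjugate are conjugate
-/

open Matrix

namespace Pool.Agent.Lib.MP_2f3286_ag.Full

section prelim

variable {G : Type*} [Group G] [TopologicalSpace G]

theorem OpenIn.mono {N A B : Subgroup G} (h : OpenIn N A) (hAB : A ≤ B) : OpenIn N B := by
  obtain ⟨O, hO, hON⟩ := h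
  exact ⟨O, hO, hON.trans hAB⟩

variable [IsTopologicalGroup G]

theorem OpenIn.isOpen {N A : Subgroup G} (h : OpenIn N A) :
    IsOpen (A.subgroupOf N : Set N) := by
  obtain ⟨O, hO, hON⟩ := h
  have h1 : IsOpen ((O.subgroupOf N : Subgroup N) : Set N) := hO.preimage continuous_subtype_val
  refine Subgroup.isOpen_mono (H₁ := O.subgroupOf N) ?_ h1
  intro x hx
  exact hON ⟨hx, x.2⟩

theorem OpenIn.isClosed {N A : Subgroup G} (hN : IsClosed (N : Set G)) (hA : A ≤ N)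
    (h : OpenIn N A) : IsClosed (A : Set G) := by
  have h1 := Subgroup.isClosed_of_isOpen _ h.isOpen
  have h2 : (A : Set G) = Subtype.val '' ((A.subgroupOf N : Subgroup N) : Set N) := by
    ext x
    constructor
    · intro hx
      exact ⟨⟨x, hA hx⟩, hx, rfl⟩
    · rintro ⟨y, hy, rfl⟩
      exact hy
  rw [h2]
  exact hN.isClosedEmbedding_subtypeVal.isClosedMap _ h1

theorem OpenIn.finite [CompactSpace G] {N A : Subgroup G} (hN : IsClosed (N : Set G))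
    (h : OpenIn N A) [A.Normal] : Finite (N.map (QuotientGroup.mk' A)) := by
  have hNc : CompactSpace N := isCompact_iff_compactSpace.mp hN.isCompact
  have h1 := Subgroup.quotient_finite_of_isOpen _ h.isOpen
  let f : (N ⧸ A.subgroupOf N) → N.map (QuotientGroup.mk' A) :=
    Quotient.lift (fun n : N => (⟨QuotientGroup.mk' A n, n, n.2, rfl⟩ : N.map (QuotientGroup.mk' A)))
      (by
        intro a b hab
        apply Subtype.ext
        change (QuotientGroup.mk (a : G) : G ⧸ A) = QuotientGroup.mk (b : G)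
        rw [QuotientGroup.eq]
        have h3 := QuotientGroup.leftRel_apply.mp hab
        exact h3)
  refine Finite.of_surjective f ?_
  rintro ⟨_, n, hn, rfl⟩
  exact ⟨QuotientGroup.mk (⟨n, hn⟩ : N), rfl⟩

/-- a finite intersection of kernels of continuous characters is open -/
theorem openIn_kers [CompactSpace G] [TotallyDisconnectedSpace G] [T2Space G] {N H : Subgroup G}
    (hH : OpenIn N H) (K : Subgroup H) (hK : IsOpen (K : Set H)) : OpenIn N (K.map H.subtype) := by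
  obtain ⟨O, hO, hON⟩ := hH
  obtain ⟨U, hU, hUK⟩ := isOpen_induced_iff.mp hK
  have h1U : (1 : G) ∈ U := by
    have h1 : (1 : H) ∈ Subtype.val ⁻¹' U := by rw [hUK]; exact one_mem K
    exact h1
  obtain ⟨O', hO'⟩ := ProfiniteGrp.exist_openNormalSubgroup_sub_open_nhds_of_one hU h1U
  refine ⟨O ⊓ O'.toSubgroup, ?_, ?_⟩
  · exact hO.inter O'.isOpen'
  · rintro x ⟨⟨hx1, hx2⟩, hx3⟩
    have hxH : x ∈ H := hON ⟨hx1, hx3⟩
    refine ⟨⟨x, hxH⟩, ?_, rfl⟩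
    have h2 : (⟨x, hxH⟩ : H) ∈ Subtype.val ⁻¹' U := hO' hx2
    rw [hUK] at h2
    exact h2

theorem lift_contra (N H : Subgroup G) [H.Normal] (hHN : H ≤ N) (hHo : OpenIn N H) (p : ℕ)
    [Fact p.Prime]
    (hlift : ∀ A ≤ N, OpenIn N A → ∀ f : A →ₜ* Multiplicative (ZMod p),
      ∃ F : A →ₜ* Multiplicative ℤ_[p], ∀ a, PadicInt.toZMod (F a).toAdd = (f a).toAdd)
    (z : G) (hz : z ∈ N) (hzH : z ∉ H) (hzp : z ^ p ∈ H)
    (hχ : ∀ χ : H →ₜ* Multiplicative ℤ_[p], χ ⟨z ^ p, hzp⟩ = 1) : False := by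
  classical
  let π := QuotientGroup.mk' H
  have hπ : ∀ x, π x = 1 ↔ x ∈ H := fun x => by
    rw [QuotientGroup.mk'_apply, QuotientGroup.eq_one_iff]
  have hord : orderOf (π z) = p := by
    refine orderOf_eq_prime ?_ ?_
    · rw [← map_pow, hπ]; exact hzp
    · rw [Ne, hπ]; exact hzH
  let Z := Subgroup.zpowers (π z)
  have hcard : Nat.card Z = p := by rw [Nat.card_zpowers, hord]
  let A := Z.comap π
  have hHA : H ≤ A := fun x hx => by
    change π x ∈ Z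
    rw [(hπ x).mpr hx]; exact one_mem _
  have hzA : z ∈ A := Subgroup.mem_zpowers _
  have hAN : A ≤ N := by
    intro x hx
    obtain ⟨k, hk⟩ := Subgroup.mem_zpowers_iff.mp hx
    have h1 : x * (z ^ k)⁻¹ ∈ H := by
      rw [← hπ, map_mul, map_inv, map_zpow, hk, mul_inv_cancel]
    have h2 : x = (x * (z ^ k)⁻¹) * z ^ k := by group
    rw [h2]
    exact mul_mem (hHN h1) (zpow_mem hz k)
  let eqv : Z ≃* Multiplicative (ZMod p) := mulEquivOfPrimeCardEq (p := p) hcard (by simp)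
  let f0 : A →* Multiplicative (ZMod p) :=
    { toFun := fun a => eqv ⟨π a, a.2⟩
      map_one' := by
        rw [← map_one eqv]; congr 1
      map_mul' := fun a b => by
        rw [← map_mul eqv]; congr 1 }
  have hf0 : ∀ a : A, (a : G) ∈ H → f0 a = 1 := by
    intro a ha
    change eqv ⟨π a, a.2⟩ = 1
    rw [← map_one eqv]
    congr 1
    exact Subtype.ext ((hπ _).mpr ha)
  have hcont : Continuous f0 := by
    apply continuous_of_continuousAt_one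
    rw [ContinuousAt, map_one, Filter.tendsto_def]
    intro V hV
    obtain ⟨O, hO, hON⟩ := hHo
    have h1 : (Subtype.val : A → G) ⁻¹' (O : Set G) ∈ nhds (1 : A) :=
      continuous_subtype_val.continuousAt.preimage_mem_nhds (hO.mem_nhds (one_mem O))
    refine Filter.mem_of_superset h1 fun a ha => ?_
    change f0 a ∈ V
    rw [hf0 a (hON ⟨ha, hAN a.2⟩)]
    exact mem_of_mem_nhds hV
  obtain ⟨F, hF⟩ := hlift A hAN (hHo.mono hHA) ⟨f0, hcont⟩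
  let χ : H →ₜ* Multiplicative ℤ_[p] :=
    F.comp ⟨Subgroup.inclusion hHA, continuous_inclusion hHA⟩
  have h1 := hχ χ
  have h2 : F (⟨z, hzA⟩ ^ p) = 1 := by
    rw [← h1]
    change _ = F (Subgroup.inclusion hHA ⟨z ^ p, hzp⟩)
    congr 1
  rw [map_pow] at h2
  have h3 : p • (F ⟨z, hzA⟩).toAdd = 0 := by
    rw [← toAdd_pow, h2]; rfl
  have h4 : (F ⟨z, hzA⟩).toAdd = 0 := by
    rw [nsmul_eq_mul, mul_eq_zero] at h3
    refine h3.resolve_left ?_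
    exact_mod_cast (Fact.out : p.Prime).ne_zero
  have h5 := hF ⟨z, hzA⟩
  rw [h4, map_zero] at h5
  have h6 : f0 ⟨z, hzA⟩ = 1 := Multiplicative.toAdd.injective h5.symm
  have h7 : (⟨π z, hzA⟩ : Z) = 1 := by
    apply eqv.injective
    rw [map_one]; exact h6
  exact hzH ((hπ z).mp (congrArg Subtype.val h7))

end prelim

section step

variable {G Γ : Type*} [Group G] [TopologicalSpace G] [IsTopologicalGroup G] [CompactSpace G]
  [T2Space G] [TotallyDisconnectedSpace G] [Group Γ]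

/-- the common kernel of additive maps on a normal subgroup -/
def commonKer {G : Type*} [Group G] (H : Subgroup G) {ι : Type*} {V : ι → Type*}
    [∀ i, AddCommGroup (V i)] (e : ∀ i, H → V i) (he : ∀ i a b, e i (a * b) = e i a + e i b) :
    Subgroup G where
  carrier := {x | ∃ hx : x ∈ H, ∀ i, e i ⟨x, hx⟩ = 0}
  one_mem' := ⟨one_mem H, fun i => by
    have h1 := he i 1 1
    rw [mul_one, left_eq_add] at h1
    exact h1⟩
  mul_mem' := by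
    rintro a b ⟨ha, ha'⟩ ⟨hb, hb'⟩
    refine ⟨mul_mem ha hb, fun i => ?_⟩
    have h1 := he i ⟨a, ha⟩ ⟨b, hb⟩
    rw [ha', hb', add_zero] at h1
    exact h1
  inv_mem' := by
    rintro a ⟨ha, ha'⟩
    refine ⟨inv_mem ha, fun i => ?_⟩
    have h1 := he i ⟨a, ha⟩ ⟨a⁻¹, inv_mem ha⟩
    rw [ha' i, zero_add] at h1
    rw [← h1]
    have h2 : (⟨a, ha⟩ : H) * ⟨a⁻¹, inv_mem ha⟩ = 1 := Subtype.ext (mul_inv_cancel a)
    rw [h2]
    have h3 := he i 1 1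
    rw [mul_one, left_eq_add] at h3
    exact h3

theorem mem_commonKer {G : Type*} [Group G] (H : Subgroup G) {ι : Type*} {V : ι → Type*}
    [∀ i, AddCommGroup (V i)] (e : ∀ i, H → V i) (he : ∀ i a b, e i (a * b) = e i a + e i b)
    {x : G} : x ∈ commonKer H e he ↔ ∃ hx : x ∈ H, ∀ i, e i ⟨x, hx⟩ = 0 := Iff.rfl

theorem G_step (N : Subgroup G) [N.Normal]
    (hN : IsClosed (N : Set G)) (s s' : Γ →* G) (hloc : ∀ σ, ∃ n ∈ N, s σ = n * s' σ * n⁻¹)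
    (hfin : ∀ A ≤ N, OpenIn N A → ∀ (ℓ : ℕ) [Fact ℓ.Prime],
      Finite (A →ₜ* Multiplicative (ZMod ℓ)) ∧
      ∀ f : A →ₜ* Multiplicative (ZMod ℓ), ∃ F : A →ₜ* Multiplicative ℤ_[ℓ], ∀ a,
        PadicInt.toZMod (F a).toAdd = (f a).toAdd)
    (hW : ∀ (H H' : Subgroup G) [H.Normal] [H'.Normal], H ≤ N → H' ≤ H → OpenIn N H' →
      ∀ L : Finset ℕ, (∀ ℓ ∈ L, ℓ.Prime) →
      (∀ (ℓ : ℕ) [Fact ℓ.Prime], ℓ ∈ L → ∀ f : H →ₜ* Multiplicative (ZMod ℓ), ∀ h : H,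
        (h : G) ∈ H' → f h = 1) →
      ∃ γ : Γ, ∀ (ℓ : ℕ) [Fact ℓ.Prime], ℓ ∈ L → ∀ j, 1 ≤ j →
        ∀ χ : H →ₜ* Multiplicative ℤ_[ℓ],
          (∀ h, χ (MulAut.conjNormal (s' γ ^ j) h) = χ h) → ∀ h, χ h = 1)
    (H : Subgroup G) [H.Normal] (hHN : H ≤ N) (hHo : OpenIn N H) :
    (∃ n ∈ N, ∀ σ, s σ * (n * s' σ * n⁻¹)⁻¹ ∈ H) ∧
      ∀ z ∈ N, (∀ σ, z * s' σ = s' σ * z) → z ∈ H := by
  classical
  have hHcl := hHo.isClosed hN hHN
  have hHc : CompactSpace H := isCompact_iff_compactSpace.mp hHcl.isCompact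
  have hQfin : Finite (N.map (QuotientGroup.mk' H)) := hHo.finite hN
  set Q := N.map (QuotientGroup.mk' H) with hQ
  let L : Finset ℕ := (Nat.card Q).primeFactors
  have hL : ∀ ℓ ∈ L, ℓ.Prime := fun ℓ h => Nat.prime_of_mem_primeFactors h
  have hF : ∀ i : L, Fact (i : ℕ).Prime := fun i => ⟨hL i i.2⟩
  have hfinH : ∀ i : L, Finite (H →ₜ* Multiplicative (ZMod i)) := fun i => (hfin H hHN hHo i).1
  let K : Subgroup H := ⨅ i : L, ⨅ f : H →ₜ* Multiplicative (ZMod i), f.toMonoidHom.ker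
  have hKmem : ∀ x : H, x ∈ K ↔ ∀ (i : L) (f : H →ₜ* Multiplicative (ZMod i)), f x = 1 := by
    intro x
    simp only [K, Subgroup.mem_iInf]
    rfl
  have hK : IsOpen (K : Set H) := by
    have h1 : (K : Set H) = ⋂ i : L, ⋂ f : H →ₜ* Multiplicative (ZMod i), {x | f x = 1} := by
      ext x
      simp only [Set.mem_iInter]
      exact hKmem x
    rw [h1]
    refine isOpen_iInter_of_finite fun i => isOpen_iInter_of_finite fun f => ?_
    exact (isOpen_discrete ({1} : Set (Multiplicative (ZMod i)))).preimage f.continuous_toFun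
  have hKn : (K.map H.subtype).Normal := by
    refine ⟨?_⟩
    rintro _ ⟨x, hx, rfl⟩ g
    refine ⟨MulAut.conjNormal g x, ?_, MulAut.conjNormal_apply g x⟩
    have hx' := (hKmem x).mp hx
    refine (hKmem _).mpr fun i f => ?_
    exact hx' i (f.comp (⟨MulEquiv.toMonoidHom (MulAut.conjNormal g), continuous_conjNormal H g⟩ :
      H →ₜ* H))
  obtain ⟨γ₀, hγ₀⟩ := hW H (K.map H.subtype) hHN (by
    rintro _ ⟨x, -, rfl⟩; exact x.2) (openIn_kers hHo K hK) L hL (by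
    intro ℓ _ hℓ f h hh
    obtain ⟨x, hx, hxh⟩ := hh
    have h1 : x = h := Subtype.ext hxh
    rw [← h1]
    exact (hKmem x).mp hx ⟨ℓ, hℓ⟩ f)
  choose d e A he1 he2 he3 he4 he5 using fun i : L => char_rep H (i : ℕ) (hfinH i)
  have hgood : ∀ j, 1 ≤ j → ∀ i v, (A i (s' γ₀ ^ j)).mulVec v = v → v = 0 := fun j hj i v =>
    he5 i _ (fun χ hχ => hγ₀ i i.2 j hj χ hχ) v
  have hcm : ∀ {g x : G}, x ∈ H → g * x * g⁻¹ ∈ H := fun {g x} hx =>
    ‹H.Normal›.conj_mem x hx g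
  have hconj : ∀ i g x (hx : x ∈ H), e i ⟨g * x * g⁻¹, hcm hx⟩ = (A i g).mulVec (e i ⟨x, hx⟩) := by
    intro i g x hx
    have h1 : (⟨g * x * g⁻¹, hcm hx⟩ : H) = MulAut.conjNormal g ⟨x, hx⟩ :=
      Subtype.ext (MulAut.conjNormal_apply g (⟨x, hx⟩ : H)).symm
    rw [h1, he3]
  have he0 : ∀ i, e i 1 = 0 := by
    intro i
    have h1 := he2 i 1 1
    rw [mul_one, left_eq_add] at h1
    exact h1
  have heinv : ∀ i x (hx : x ∈ H), e i ⟨x⁻¹, inv_mem hx⟩ = - e i ⟨x, hx⟩ := by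
    intro i x hx
    have h1 := he2 i ⟨x, hx⟩ ⟨x⁻¹, inv_mem hx⟩
    have h2 : (⟨x, hx⟩ : H) * ⟨x⁻¹, inv_mem hx⟩ = 1 := Subtype.ext (mul_inv_cancel x)
    rw [h2, he0] at h1
    exact (neg_eq_of_add_eq_zero_right h1.symm).symm
  set Φ := commonKer H e he2 with hΦ
  have hΦH : Φ ≤ H := fun x hx => hx.1
  have hΦn : Φ.Normal := by
    refine ⟨?_⟩
    rintro x ⟨hx, hx'⟩ g
    refine ⟨hcm hx, fun i => ?_⟩
    rw [hconj i g x hx, hx', mulVec_zero]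
  let π := QuotientGroup.mk' Φ
  have hπ : ∀ x, π x = 1 ↔ x ∈ Φ := fun x => by
    rw [QuotientGroup.mk'_apply, QuotientGroup.eq_one_iff]
  -- elements of `H` commuting with the good element
  have hcentH : ∀ j, 1 ≤ j → ∀ w, w ∈ H → π (s' γ₀ ^ j) * π w = π w * π (s' γ₀ ^ j) → w ∈ Φ := by
    intro j hj w hw hcomm
    refine ⟨hw, fun i => ?_⟩
    have h1 : (s' γ₀ ^ j * w * (s' γ₀ ^ j)⁻¹) * w⁻¹ ∈ Φ := by
      rw [← hπ, map_mul, map_mul, map_mul, hcomm, map_inv, map_inv]; group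
    obtain ⟨h2, h3⟩ := h1
    have h4 := h3 i
    have h5 := he2 i ⟨s' γ₀ ^ j * w * (s' γ₀ ^ j)⁻¹, hcm hw⟩ ⟨w⁻¹, inv_mem hw⟩
    have h7 := hconj i (s' γ₀ ^ j) w hw
    have h6 : (⟨s' γ₀ ^ j * w * (s' γ₀ ^ j)⁻¹, hcm hw⟩ : H) * ⟨w⁻¹, inv_mem hw⟩ =
      ⟨(s' γ₀ ^ j * w * (s' γ₀ ^ j)⁻¹) * w⁻¹, h2⟩ := rfl
    rw [h6, h4, h7, heinv i w hw] at h5
    refine hgood j hj i _ ?_
    exact (sub_eq_zero.mp (by rw [sub_eq_add_neg]; exact h5.symm))
  have hcent : ∀ j, 1 ≤ j → ∀ z ∈ N, π (s' γ₀ ^ j) * π z = π z * π (s' γ₀ ^ j) → z ∈ Φ := by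
    intro j hj z hz hcomm
    by_cases hzH : z ∈ H
    · exact hcentH j hj z hzH hcomm
    exfalso
    let zb : Q := ⟨QuotientGroup.mk' H z, z, hz, rfl⟩
    have hzb : ∀ m : ℕ, zb ^ m = 1 ↔ z ^ m ∈ H := by
      intro m
      rw [← QuotientGroup.eq_one_iff (N := H), Subtype.ext_iff]
      exact Iff.rfl
    have hmd := orderOf_dvd_natCard zb
    have hm1 : orderOf zb ≠ 1 := by
      intro h
      apply hzH
      have h1 := (hzb 1).mp (by rw [pow_one]; exact orderOf_eq_one_iff.mp h)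
      rwa [pow_one] at h1
    have hm0 : 0 < orderOf zb := orderOf_pos zb
    set m := orderOf zb with hm
    have hp : (m.minFac).Prime := Nat.minFac_prime hm1
    have hpF : Fact (m.minFac).Prime := ⟨hp⟩
    have hpL : m.minFac ∈ L := by
      rw [Nat.mem_primeFactors]
      exact ⟨hp, (Nat.minFac_dvd m).trans hmd, Nat.card_pos.ne'⟩
    obtain ⟨m', hm'⟩ := Nat.minFac_dvd m
    have hz1H : z ^ m' ∉ H := by
      intro h
      have h1 := orderOf_dvd_of_pow_eq_one ((hzb m').mpr h)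
      rw [← hm] at h1
      have h2 : 0 < m' := by
        rcases Nat.eq_zero_or_pos m' with h | h
        · rw [h, mul_zero] at hm'; omega
        · exact h
      have h3 := Nat.le_of_dvd h2 h1
      have h4 := hp.two_le
      nlinarith
    have hz1p : (z ^ m') ^ m.minFac ∈ H := by
      rw [← pow_mul, mul_comm m' _, ← hm', ← hzb]
      exact pow_orderOf_eq_one zb
    have hz1Φ : (z ^ m') ^ m.minFac ∈ Φ := by
      apply hcentH j hj _ hz1p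
      have h1 : Commute (π (s' γ₀ ^ j)) (π z) := hcomm
      have h2 := (h1.pow_right m').pow_right m.minFac
      have h3 : π ((z ^ m') ^ m.minFac) = (π z ^ m') ^ m.minFac := by
        rw [map_pow, map_pow]
      rw [h3]
      exact h2
    obtain ⟨h3, h4⟩ := hz1Φ
    exact lift_contra N H hHN hHo m.minFac (fun B hB hBo => (hfin B hB hBo m.minFac).2) (z ^ m')
      (pow_mem hz m') hz1H h3 (fun χ => he4 ⟨m.minFac, hpL⟩ χ _ (h4 _))
  refine ⟨?_, fun z hz hcomm => hΦH (hcent 1 le_rfl z hz (by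
    rw [pow_one, ← map_mul, ← map_mul, hcomm]))⟩
  -- the subgroup acting trivially on `N / H`
  have hQn : Q.Normal := Subgroup.Normal.map ‹N.Normal› _ (QuotientGroup.mk'_surjective H)
  have hAutfin : Finite (MulAut Q) :=
    Finite.of_injective (fun f : MulAut Q => (f : Q → Q)) DFunLike.coe_injective
  let ψ : Γ →* MulAut Q := (MulAut.conjNormal (G := G ⧸ H) (H := Q)).comp
    ((QuotientGroup.mk' H).comp s')
  have hΔfi : (ψ.ker).FiniteIndex := Subgroup.finiteIndex_ker ψ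
  have hΔ₀ : ∀ γ : ψ.ker, ∀ n ∈ N, s' γ * n * (s' γ)⁻¹ * n⁻¹ ∈ H := by
    intro γ n hn
    have h1 : ψ γ = 1 := γ.2
    have h2 := congrArg (fun f : MulAut Q => ((f ⟨QuotientGroup.mk' H n, n, hn, rfl⟩ : Q) : G ⧸ H)) h1
    have h3 : QuotientGroup.mk' H (s' γ) * QuotientGroup.mk' H n * (QuotientGroup.mk' H (s' γ))⁻¹ =
      QuotientGroup.mk' H n := h2
    rw [← QuotientGroup.eq_one_iff (N := H)]
    change QuotientGroup.mk' H (s' γ * n * (s' γ)⁻¹ * n⁻¹) = 1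
    rw [map_mul, map_mul, map_mul, map_inv, map_inv, h3, mul_inv_cancel]
  choose r hrN hr using fun q : Q => q.2
  have hxmem : ∀ (q : Q) (γ : ψ.ker), (r q)⁻¹ * s γ * r q * (s' γ)⁻¹ ∈ H := by
    intro q γ
    obtain ⟨m, hm, hsm⟩ := hloc γ
    have h1 := hcm (g := (r q)⁻¹ * m) (hΔ₀ γ ((r q)⁻¹ * m)⁻¹ (inv_mem (mul_mem (inv_mem (hrN q)) hm)))
    rw [hsm]
    convert h1 using 1
    group
  -- the cocycles
  let x : Q → ψ.ker → G := fun q γ => (r q)⁻¹ * s γ * r q * (s' γ)⁻¹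
  have hx : ∀ q γ, x q γ ∈ H := hxmem
  obtain ⟨j₀, hj₀, -, hj₀m⟩ := Subgroup.exists_pow_mem_of_index_ne_zero hΔfi.index_ne_zero γ₀
  obtain ⟨Δ, hΔf, q, u, hu, hΔ⟩ := E_main (ι := L) (Q := Q) (Γ := ψ.ker) (fun i => (i : ℕ))
    (fun i i' h => Subtype.ext h) d (fun i => (A i).comp (s'.comp ψ.ker.subtype))
    (fun q γ i => e i ⟨x q γ, hx q γ⟩) (by
      intro q γ δ i
      have h1 : (⟨x q (γ * δ), hx q (γ * δ)⟩ : H) =
          ⟨x q γ, hx q γ⟩ * ⟨s' γ * x q δ * (s' γ)⁻¹, hcm (hx q δ)⟩ := by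
        apply Subtype.ext
        change (r q)⁻¹ * s (γ * δ) * r q * (s' (γ * δ))⁻¹ =
          ((r q)⁻¹ * s γ * r q * (s' γ)⁻¹) * (s' γ * ((r q)⁻¹ * s δ * r q * (s' δ)⁻¹) * (s' γ)⁻¹)
        rw [map_mul, map_mul]
        group
      rw [h1, he2, hconj i (s' γ) _ (hx q δ)]
      rfl)
    (Set.range fun h : H => fun i => - e i h)
    (isCompact_range (continuous_pi fun i => (he1 i).neg)) (by
      intro γ
      obtain ⟨m, hm, hsm⟩ := hloc γ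
      let q : Q := ⟨QuotientGroup.mk' H m, m, hm, rfl⟩
      have hq : (r q)⁻¹ * m ∈ H := by
        rw [← QuotientGroup.eq_one_iff (N := H)]
        change QuotientGroup.mk' H ((r q)⁻¹ * m) = 1
        rw [map_mul, map_inv, hr]
        exact inv_mul_cancel _
      refine ⟨q, _, ⟨⟨(r q)⁻¹ * m, hq⟩, rfl⟩, fun i => ?_⟩
      have h1 : (⟨x q γ, hx q γ⟩ : H) = ⟨(r q)⁻¹ * m, hq⟩ *
          ⟨s' γ * ((r q)⁻¹ * m)⁻¹ * (s' γ)⁻¹, hcm (inv_mem hq)⟩ := by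
        apply Subtype.ext
        change (r q)⁻¹ * s γ * r q * (s' γ)⁻¹ = ((r q)⁻¹ * m) *
          (s' γ * ((r q)⁻¹ * m)⁻¹ * (s' γ)⁻¹)
        rw [hsm]
        group
      rw [h1, he2, hconj i (s' γ) _ (inv_mem hq), heinv i _ hq, sub_neg_eq_add, add_comm]
      rfl)
    ⟨γ₀ ^ j₀, hj₀m⟩ (by
      intro j hj i v hv
      refine hgood (j₀ * j) (Nat.mul_pos hj₀ hj) i v ?_
      have h1 : s' γ₀ ^ (j₀ * j) = s' ((γ₀ ^ j₀) ^ j) := by
        rw [map_pow, map_pow, pow_mul]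
      rw [h1]
      exact hv)
  obtain ⟨h0, rfl⟩ := hu
  set n' : G := r q * h0 with hn'
  have hn'N : n' ∈ N := mul_mem (hrN q) (hHN h0.2)
  have hΔ' : ∀ γ : ψ.ker, γ ∈ Δ → π (s γ) = π (n' * s' γ * n'⁻¹) := by
    intro γ hγ
    have h1 : (h0 : G)⁻¹ * x q γ * (s' γ * h0 * (s' γ)⁻¹) ∈ Φ := by
      refine ⟨mul_mem (mul_mem (inv_mem h0.2) (hx q γ)) (hcm h0.2), fun i => ?_⟩
      have h2 : (⟨(h0 : G)⁻¹ * x q γ * (s' γ * h0 * (s' γ)⁻¹),
          mul_mem (mul_mem (inv_mem h0.2) (hx q γ)) (hcm h0.2)⟩ : H) =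
          ⟨(h0 : G)⁻¹, inv_mem h0.2⟩ * ⟨x q γ, hx q γ⟩ * ⟨s' γ * h0 * (s' γ)⁻¹, hcm h0.2⟩ := rfl
      rw [h2, he2, he2, hconj i (s' γ) _ h0.2, heinv i _ h0.2]
      have h3 := hΔ γ hγ i
      simp only at h3
      rw [h3]
      have h4 : ((A i).comp (s'.comp ψ.ker.subtype)) γ = A i (s' γ) := rfl
      rw [h4, mulVec_neg]
      have h5 : (⟨(h0 : G), h0.2⟩ : H) = h0 := rfl
      rw [h5]
      abel
    have h6 := hΦn.conj_mem _ h1 n'
    rw [← mul_inv_eq_one, ← map_inv, ← map_mul, hπ]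
    convert h6 using 1
    change _ = n' * ((h0 : G)⁻¹ * ((r q)⁻¹ * s γ * r q * (s' γ)⁻¹) * (s' γ * h0 * (s' γ)⁻¹)) * n'⁻¹
    rw [hn']
    group
  refine ⟨n', hn'N, fun σ => hΦH ?_⟩
  rw [← hπ, map_mul, map_inv, mul_inv_eq_one]
  obtain ⟨a₁, ha₁, -, ha₁m⟩ := Subgroup.exists_pow_mem_of_index_ne_zero hΔf.index_ne_zero
    (⟨γ₀ ^ j₀, hj₀m⟩ : ψ.ker)
  obtain ⟨b₁, hb₁, -, hb₁m⟩ := Subgroup.exists_pow_mem_of_index_ne_zero hΔf.index_ne_zero
    (⟨σ * γ₀ ^ j₀ * σ⁻¹, (MonoidHom.normal_ker ψ).conj_mem _ hj₀m σ⟩ : ψ.ker)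
  set J := j₀ * (a₁ * b₁) with hJ
  have hE1 : π (s (γ₀ ^ J)) = π (n' * s' (γ₀ ^ J) * n'⁻¹) := by
    have h1 := hΔ' _ (pow_mem ha₁m b₁)
    have h2 : (((⟨γ₀ ^ j₀, hj₀m⟩ : ψ.ker) ^ a₁) ^ b₁ : ψ.ker).1 = γ₀ ^ J := by
      change ((γ₀ ^ j₀) ^ a₁) ^ b₁ = γ₀ ^ J
      rw [hJ, ← pow_mul, ← pow_mul]
    rw [h2] at h1
    exact h1
  have hE2 : π (s (σ * γ₀ ^ J * σ⁻¹)) = π (n' * s' (σ * γ₀ ^ J * σ⁻¹) * n'⁻¹) := by
    have h1 := hΔ' _ (pow_mem hb₁m a₁)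
    have h2 : (((⟨σ * γ₀ ^ j₀ * σ⁻¹, (MonoidHom.normal_ker ψ).conj_mem _ hj₀m σ⟩ : ψ.ker) ^ b₁) ^ a₁ :
        ψ.ker).1 = σ * γ₀ ^ J * σ⁻¹ := by
      change ((σ * γ₀ ^ j₀ * σ⁻¹) ^ b₁) ^ a₁ = σ * γ₀ ^ J * σ⁻¹
      rw [conj_pow, conj_pow, hJ, ← pow_mul, ← pow_mul, mul_comm a₁ b₁]
    rw [h2] at h1
    exact h1
  have hJ1 : 1 ≤ J := Nat.mul_pos hj₀ (Nat.mul_pos ha₁ hb₁)
  set z := (s' σ)⁻¹ * n'⁻¹ * s σ * n' with hz
  have hzN : z ∈ N := by
    obtain ⟨m, hm, hsm⟩ := hloc σ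
    have h1 : z = ((s' σ)⁻¹ * (n'⁻¹ * m) * ((s' σ)⁻¹)⁻¹) * (m⁻¹ * n') := by
      rw [hz, hsm]; group
    rw [h1]
    exact mul_mem (‹N.Normal›.conj_mem _ (mul_mem (inv_mem hn'N) hm) _) (mul_mem (inv_mem hm) hn'N)
  have hzΦ : z ∈ Φ := by
    refine hcent J hJ1 z hzN ?_
    rw [← map_pow] 
    have h1 : π (s σ) * π (s (γ₀ ^ J)) * (π (s σ))⁻¹ = π (s (σ * γ₀ ^ J * σ⁻¹)) := by
      rw [map_mul s, map_mul s, map_inv s, map_mul π, map_mul π, map_inv π]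
    rw [hE1, hE2, map_mul s', map_mul s', map_inv s'] at h1
    simp only [map_mul, map_inv] at h1
    rw [hz]
    simp only [map_mul, map_inv]
    have h2 : π (s σ) * (π n' * π (s' (γ₀ ^ J)) * (π n')⁻¹) =
      π n' * (π (s' σ) * π (s' (γ₀ ^ J)) * (π (s' σ))⁻¹) * (π n')⁻¹ * π (s σ) := by
      rw [← h1]; group
    have h3 : (π (s' σ))⁻¹ * (π n')⁻¹ * π (s σ) * π n' * π (s' (γ₀ ^ J)) =
      (π (s' σ))⁻¹ * (π n')⁻¹ * (π (s σ) * (π n' * π (s' (γ₀ ^ J)) * (π n')⁻¹)) * π n' := by group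
    rw [h3, h2]
    group
  have h4 := (hπ z).mpr hzΦ
  rw [hz] at h4
  simp only [map_mul, map_inv] at h4 ⊢
  have h5 : π (s σ) = π n' * π (s' σ) * ((π (s' σ))⁻¹ * (π n')⁻¹ * π (s σ) * π n') * (π n')⁻¹ := by
    group
  rw [h5, h4]
  group

theorem G_main (N : Subgroup G) [N.Normal]
    (hN : IsClosed (N : Set G)) (s s' : Γ →* G) (hloc : ∀ σ, ∃ n ∈ N, s σ = n * s' σ * n⁻¹)
    (hfin : ∀ A ≤ N, OpenIn N A → ∀ (ℓ : ℕ) [Fact ℓ.Prime],
      Finite (A →ₜ* Multiplicative (ZMod ℓ)) ∧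
      ∀ f : A →ₜ* Multiplicative (ZMod ℓ), ∃ F : A →ₜ* Multiplicative ℤ_[ℓ], ∀ a,
        PadicInt.toZMod (F a).toAdd = (f a).toAdd)
    (hW : ∀ (H H' : Subgroup G) [H.Normal] [H'.Normal], H ≤ N → H' ≤ H → OpenIn N H' →
      ∀ L : Finset ℕ, (∀ ℓ ∈ L, ℓ.Prime) →
      (∀ (ℓ : ℕ) [Fact ℓ.Prime], ℓ ∈ L → ∀ f : H →ₜ* Multiplicative (ZMod ℓ), ∀ h : H,
        (h : G) ∈ H' → f h = 1) →
      ∃ γ : Γ, ∀ (ℓ : ℕ) [Fact ℓ.Prime], ℓ ∈ L → ∀ j, 1 ≤ j →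
        ∀ χ : H →ₜ* Multiplicative ℤ_[ℓ],
          (∀ h, χ (MulAut.conjNormal (s' γ ^ j) h) = χ h) → ∀ h, χ h = 1) :
    (∃ n ∈ N, ∀ σ, s σ = n * s' σ * n⁻¹) ∧ ∀ z ∈ N, (∀ σ, z * s' σ = s' σ * z) → z = 1 := by
  classical
  have hstep := G_step N hN s s' hloc hfin hW
  have hHN : ∀ O : OpenNormalSubgroup G, O.toSubgroup ⊓ N ≤ N := fun O => inf_le_right
  have hHo : ∀ O : OpenNormalSubgroup G, OpenIn N (O.toSubgroup ⊓ N) := fun O =>
    ⟨O.toSubgroup, O.isOpen', le_rfl⟩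
  have hHn : ∀ O : OpenNormalSubgroup G, (O.toSubgroup ⊓ N).Normal := fun O => inferInstance
  have hone : ∀ x : G, (∀ O : OpenNormalSubgroup G, x ∈ O.toSubgroup ⊓ N) → x = 1 := by
    intro x hx
    by_contra hne
    obtain ⟨O, hO⟩ := ProfiniteGrp.exist_openNormalSubgroup_sub_open_nhds_of_one
      (isOpen_compl_singleton (x := x)) (by
        rw [Set.mem_compl_iff, Set.mem_singleton_iff]
        exact fun h => hne h.symm)
    exact hO (hx O).1 rfl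
  refine ⟨?_, fun z hz hcomm => hone z fun O => (hstep _ (hHN O) (hHo O)).2 z hz hcomm⟩
  let t : OpenNormalSubgroup G → Set G := fun O =>
    {n | n ∈ N ∧ ∀ σ, s σ * (n * s' σ * n⁻¹)⁻¹ ∈ O.toSubgroup ⊓ N}
  have hcl : ∀ O, IsClosed (t O) := by
    intro O
    have h1 : t O = (N : Set G) ∩ ⋂ σ, (fun n => s σ * (n * s' σ * n⁻¹)⁻¹) ⁻¹'
        ((O.toSubgroup ⊓ N : Subgroup G) : Set G) := by
      ext n
      simp only [t, Set.mem_setOf_eq, Set.mem_inter_iff, Set.mem_iInter, Set.mem_preimage,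
        SetLike.mem_coe]
    rw [h1]
    refine hN.inter (isClosed_iInter fun σ => ?_)
    refine IsClosed.preimage (by fun_prop) ?_
    exact (Subgroup.isClosed_of_isOpen _ O.isOpen').inter hN
  have hdir : Directed (fun x1 x2 => x1 ⊇ x2) t := by
    intro O₁ O₂
    refine ⟨O₁ ⊓ O₂, ?_, ?_⟩
    · rintro n ⟨hn, hn'⟩
      exact ⟨hn, fun σ => ⟨(hn' σ).1.1, (hn' σ).2⟩⟩
    · rintro n ⟨hn, hn'⟩
      exact ⟨hn, fun σ => ⟨(hn' σ).1.2, (hn' σ).2⟩⟩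
  have hne : Nonempty (OpenNormalSubgroup G) := by
    obtain ⟨O, -⟩ := ProfiniteGrp.exist_openNormalSubgroup_sub_open_nhds_of_one
      (isOpen_univ (X := G)) (Set.mem_univ _)
    exact ⟨O⟩
  obtain ⟨n, hn⟩ := IsCompact.nonempty_iInter_of_directed_nonempty_isCompact_isClosed t hdir
    (fun O => by
      obtain ⟨n, hn, hn'⟩ := (hstep _ (hHN O) (hHo O)).1
      exact ⟨n, hn, hn'⟩) (fun O => (hcl O).isCompact) hcl
  rw [Set.mem_iInter] at hn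
  obtain ⟨O⟩ := hne
  refine ⟨n, (hn O).1, fun σ => ?_⟩
  have h1 := hone _ fun O => (hn O).2 σ
  rwa [mul_inv_eq_one] at h1

end step

end Pool.Agent.Lib.MP_2f3286_ag.Full
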