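import Mathlib
import Pool.Agent.Lib.MP_2f3286_ag.Full.BN
import Pool.Agent.Lib.MP_2f3286_ag.Full.ValExt
import Pool.Agent.Lib.MP_2f3286_ag.Full.Gauss

/-! # Theorem F: module GOODRED (good reduction)

For all but finitely many primes `p`, the Gauss valuation rings above a place of `kb` over `p`
extend uniquely to a given finite extension `L` of `kb(t)`. -/

open Polynomial IntermediateField 

namespace Pool.Agent.Lib.MP_2f3286_ag.Full

namespace GoodRed

/-- A primitive element, integral over `kb[t]`, with its minimal polynomial. -/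
theorem exists_prim {kb L : Type*} [Field kb] [CharZero kb] [Field L] [Algebra kb L] (t : L)
    (ht : Transcendental kb t) [FiniteDimensional (adjoin kb {t}) L] :
    ∃ (F : kb[X][X]) (y : L), F.Monic ∧ Irreducible F ∧
      F.natDegree = Module.finrank (adjoin kb {t}) L ∧
      F.eval₂ (aeval t : kb[X] →ₐ[kb] L).toRingHom y = 0 := by
  let _ : Algebra kb[X] L := (aeval t : kb[X] →ₐ[kb] L).toRingHom.toAlgebra
  let _ : Algebra kb[X] (adjoin kb {t}) :=
    (aeval (AdjoinSimple.gen kb t) : kb[X] →ₐ[kb] (adjoin kb {t})).toRingHom.toAlgebra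
  have hmapL : ∀ f : kb[X], algebraMap kb[X] L f = aeval t f := fun f => rfl
  have hmapE : ∀ f : kb[X], algebraMap kb[X] (adjoin kb {t}) f = aeval (AdjoinSimple.gen kb t) f :=
    fun f => rfl
  have : IsScalarTower kb[X] (adjoin kb {t}) L := IsScalarTower.of_algebraMap_eq fun f => by
    rw [hmapL, hmapE]
    have := Polynomial.aeval_algebraMap_apply L (AdjoinSimple.gen kb t) f
    rw [← this]
    rfl
  have hinjL : Function.Injective (algebraMap kb[X] L) := by
    intro f g hfg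
    rw [hmapL, hmapL] at hfg
    exact (transcendental_iff_injective.1 ht) hfg
  have : FaithfulSMul kb[X] L := (faithfulSMul_iff_algebraMap_injective _ _).2 hinjL
  have hinjE : Function.Injective (algebraMap kb[X] (adjoin kb {t})) := by
    intro f g hfg
    apply hinjL
    rw [IsScalarTower.algebraMap_apply kb[X] (adjoin kb {t}) L, hfg,
      ← IsScalarTower.algebraMap_apply kb[X] (adjoin kb {t}) L]
  have : FaithfulSMul kb[X] (adjoin kb {t}) := (faithfulSMul_iff_algebraMap_injective _ _).2 hinjE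
  have : IsFractionRing kb[X] (adjoin kb {t}) := by
    apply IsFractionRing.of_field
    intro z
    obtain ⟨r, s, hrs⟩ := (mem_adjoin_simple_iff kb (z : L)).1 z.2
    refine ⟨r, s, ?_⟩
    apply Subtype.ext
    rw [hrs]
    have h1 : ∀ f : kb[X], ((algebraMap kb[X] (adjoin kb {t}) f : adjoin kb {t}) : L) = aeval t f :=
      fun f => (IsScalarTower.algebraMap_apply kb[X] (adjoin kb {t}) L f).symm
    rw [IntermediateField.coe_div, h1, h1]
  have : CharZero (adjoin kb {t}) := charZero_of_injective_algebraMap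
    (algebraMap kb (adjoin kb {t})).injective
  obtain ⟨y₀, hy₀⟩ := Field.exists_primitive_element (adjoin kb {t}) L
  have halg : IsAlgebraic kb[X] y₀ :=
    (IsFractionRing.isAlgebraic_iff kb[X] (adjoin kb {t}) L).2 (Algebra.IsAlgebraic.isAlgebraic y₀)
  obtain ⟨d, hd0, hd⟩ := halg.exists_integral_multiple
  have htop : IntermediateField.adjoin (adjoin kb {t}) {d • y₀} = ⊤ := by
    rw [eq_top_iff, ← hy₀, IntermediateField.adjoin_le_iff, Set.singleton_subset_iff]
    have h1 : d • y₀ ∈ IntermediateField.adjoin (adjoin kb {t}) {d • y₀} :=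
      IntermediateField.mem_adjoin_simple_self _ _
    have h2 : y₀ = ((algebraMap kb[X] (adjoin kb {t}) d)⁻¹ : adjoin kb {t}) • (d • y₀) := by
      rw [← algebraMap_smul (adjoin kb {t}) d y₀, smul_smul, inv_mul_cancel₀, one_smul]
      intro h
      apply hd0
      apply hinjE
      rw [h, map_zero]
    have h3 := (IntermediateField.adjoin (adjoin kb {t}) {d • y₀}).smul_mem h1
      (x := (algebraMap kb[X] (adjoin kb {t}) d)⁻¹)
    rwa [← h2] at h3
  refine ⟨minpoly kb[X] (d • y₀), d • y₀, minpoly.monic hd, minpoly.irreducible hd, ?_, ?_⟩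
  · have h1 := minpoly.isIntegrallyClosed_eq_field_fractions' (adjoin kb {t}) hd
    have h2 : (minpoly (adjoin kb {t}) (d • y₀)).natDegree = (minpoly kb[X] (d • y₀)).natDegree := by
      rw [h1, (minpoly.monic hd).natDegree_map]
    rw [← h2]
    rw [← IntermediateField.adjoin.finrank (Algebra.IsIntegral.isIntegral (d • y₀)), htop]
    exact IntermediateField.finrank_top'
  · have := minpoly.aeval kb[X] (d • y₀)
    exact this


section Aux

variable {kb L : Type*} [Field kb] [Field L] [Algebra kb L] (t : L) (𝒲 : ValuationSubring L)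

/-- the map from the valuation ring of `kb` to the one of `L` -/
def incl : (𝒲.comap (algebraMap kb L)) →+* 𝒲 :=
  ((algebraMap kb L).comp (𝒲.comap (algebraMap kb L)).subtype).codRestrict 𝒲.toSubring
    Subtype.property

theorem coe_incl (x : 𝒲.comap (algebraMap kb L)) :
    (incl 𝒲 x : L) = algebraMap kb L (x : kb) := rfl

theorem isUnit_of_val {x : 𝒲.comap (algebraMap kb L)}
    (hx : 𝒲.valuation (algebraMap kb L (x : kb)) = 1) : IsUnit x := by
  have h0 : (x : kb) ≠ 0 := by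
    intro h
    rw [h, map_zero, map_zero] at hx
    exact zero_ne_one hx
  have h1 : ((x : kb))⁻¹ ∈ 𝒲.comap (algebraMap kb L) := by
    change algebraMap kb L _ ∈ 𝒲
    rw [← 𝒲.valuation_le_one_iff, map_inv₀, map_inv₀, hx, inv_one]
  refine IsUnit.of_mul_eq_one ⟨_, h1⟩ ?_
  apply Subtype.ext
  exact mul_inv_cancel₀ h0

theorem val_of_isUnit {x : 𝒲.comap (algebraMap kb L)} (hx : IsUnit x) :
    𝒲.valuation (algebraMap kb L (x : kb)) = 1 := by
  have h1 : IsUnit (incl 𝒲 x) := hx.map _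
  exact (𝒲.valuation_eq_one_iff _).1 h1

instance : IsLocalHom (incl (kb := kb) 𝒲) :=
  ⟨fun _ hx => isUnit_of_val 𝒲 ((𝒲.valuation_eq_one_iff _).1 hx)⟩

theorem gauss_scale (hG : ∀ f : kb[X], (∀ i, 𝒲.valuation (algebraMap kb L (f.coeff i)) ≤ 1) →
      (∃ i, 𝒲.valuation (algebraMap kb L (f.coeff i)) = 1) → 𝒲.valuation (aeval t f) = 1)
    (f : kb[X]) (hf : f ≠ 0) : ∃ i, f.coeff i ≠ 0 ∧
      𝒲.valuation (aeval t f) = 𝒲.valuation (algebraMap kb L (f.coeff i)) ∧
      ∀ j, 𝒲.valuation (algebraMap kb L (f.coeff j)) ≤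
        𝒲.valuation (algebraMap kb L (f.coeff i)) := by
  obtain ⟨i, hi, hmax⟩ := Finset.exists_max_image f.support
    (fun i => 𝒲.valuation (algebraMap kb L (f.coeff i))) (Polynomial.nonempty_support_iff.2 hf)
  have hi0 : f.coeff i ≠ 0 := Polynomial.mem_support_iff.1 hi
  have hmax' : ∀ j, 𝒲.valuation (algebraMap kb L (f.coeff j)) ≤
      𝒲.valuation (algebraMap kb L (f.coeff i)) := by
    intro j
    by_cases hj : j ∈ f.support
    · exact hmax j hj
    · rw [Polynomial.notMem_support_iff.1 hj, map_zero, map_zero]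
      exact zero_le
  have hv0 : 𝒲.valuation (algebraMap kb L (f.coeff i)) ≠ 0 := by
    rw [Valuation.ne_zero_iff]
    exact (_root_.map_ne_zero _).2 hi0
  have h1 := hG (C (f.coeff i)⁻¹ * f) (fun j => by
    rw [coeff_C_mul, map_mul, map_mul, map_inv₀, map_inv₀]
    rw [inv_mul_le_iff₀ (zero_lt_iff.2 hv0), mul_one]
    exact hmax' j) ⟨i, by rw [coeff_C_mul, inv_mul_cancel₀ hi0, map_one, map_one]⟩
  refine ⟨i, hi0, ?_, hmax'⟩
  rw [map_mul, aeval_C, map_mul, map_inv₀, map_inv₀] at h1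
  exact eq_of_inv_mul_eq_one h1 |>.symm


variable (hG : ∀ f : kb[X], (∀ i, 𝒲.valuation (algebraMap kb L (f.coeff i)) ≤ 1) →
      (∃ i, 𝒲.valuation (algebraMap kb L (f.coeff i)) = 1) → 𝒲.valuation (aeval t f) = 1)

/-- the valuation ring induced on `kb` -/
abbrev VV (kb : Type*) {L : Type*} [Field kb] [Field L] [Algebra kb L] (𝒲 : ValuationSubring L) :
    ValuationSubring kb :=
  ValuationSubring.comap 𝒲 (algebraMap kb L)

include hG in
theorem t_mem : t ∈ 𝒲 := by
  rw [← 𝒲.valuation_le_one_iff]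
  have h1 := hG X (fun i => by
    rw [coeff_X]
    split_ifs
    · rw [map_one, map_one]
    · rw [map_zero, map_zero]; exact zero_le) ⟨1, by rw [coeff_X_one, map_one, map_one]⟩
  rw [aeval_X] at h1
  exact h1.le

include hG in
theorem indep_aux (F₀ : (VV kb 𝒲)[X][X]) (hm : F₀.Monic)
    (hirr : Irreducible
      (F₀.map (mapRingHom (IsLocalRing.residue (VV kb 𝒲)))))
    (y : L)
    (hy : (F₀.map (mapRingHom (algebraMap (VV kb 𝒲) kb))).eval₂
      (aeval t : kb[X] →ₐ[kb] L).toRingHom y = 0) :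
    y ∈ 𝒲 ∧ ∀ P : (VV kb 𝒲)[X][X], P.natDegree < F₀.natDegree →
      P.map (mapRingHom (IsLocalRing.residue (VV kb 𝒲))) ≠ 0 →
      𝒲.valuation ((P.map (mapRingHom (algebraMap (VV kb 𝒲) kb))).eval₂
        (aeval t : kb[X] →ₐ[kb] L).toRingHom y) = 1 := by
  have ht𝒲 := t_mem t 𝒲 hG
  let t' : 𝒲 := ⟨t, ht𝒲⟩
  let ev₁ : (VV kb 𝒲)[X] →+* 𝒲 := eval₂RingHom (incl 𝒲) t'
  have hev₁ : ∀ f : (VV kb 𝒲)[X], ((ev₁ f : 𝒲) : L) = aeval t (f.map (algebraMap (VV kb 𝒲) kb)) := by
    intro f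
    have : ((algebraMap 𝒲 L).comp ev₁) =
        (aeval t : kb[X] →ₐ[kb] L).toRingHom.comp (mapRingHom (algebraMap (VV kb 𝒲) kb)) := by
      apply Polynomial.ringHom_ext
      · intro a
        simp only [RingHom.comp_apply, ev₁, coe_eval₂RingHom, eval₂_C, coe_mapRingHom, map_C]
        change algebraMap kb L (a : kb) = aeval t (C (a : kb))
        rw [aeval_C]
      · simp only [RingHom.comp_apply, ev₁, coe_eval₂RingHom, eval₂_X, coe_mapRingHom, map_X]
        change t = aeval t X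
        rw [aeval_X]
    exact congrArg (fun φ : (VV kb 𝒲)[X] →+* L => φ f) this
  have hy𝒲 : y ∈ 𝒲 := by
    have hint : IsIntegral 𝒲 y := by
      refine ⟨F₀.map ev₁, hm.map _, ?_⟩
      rw [eval₂_map]
      rw [eval₂_map] at hy
      rw [← hy]
      congr 1
      exact RingHom.ext hev₁
    obtain ⟨z, hz⟩ := (IsIntegrallyClosed.isIntegral_iff (R := 𝒲) (K := L)).1 hint
    rw [← hz]
    exact z.2
  refine ⟨hy𝒲, ?_⟩
  let y' : 𝒲 := ⟨y, hy𝒲⟩
  let ev : (VV kb 𝒲)[X][X] →+* 𝒲 := eval₂RingHom ev₁ y'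
  have hev : ∀ P : (VV kb 𝒲)[X][X], ((ev P : 𝒲) : L) =
      (P.map (mapRingHom (algebraMap (VV kb 𝒲) kb))).eval₂ (aeval t : kb[X] →ₐ[kb] L).toRingHom y := by
    intro P
    rw [eval₂_map]
    change algebraMap 𝒲 L (eval₂ ev₁ y' P) = _
    rw [hom_eval₂]
    congr 1
    exact RingHom.ext hev₁
  -- residue side
  let κ := IsLocalRing.ResidueField (VV kb 𝒲)
  let Ω := IsLocalRing.ResidueField 𝒲
  let hk : κ →+* Ω := IsLocalRing.ResidueField.map (incl 𝒲)
  let tb : Ω := IsLocalRing.residue 𝒲 t'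
  let yb : Ω := IsLocalRing.residue 𝒲 y'
  let _ : Algebra κ[X] Ω := (eval₂RingHom hk tb).toAlgebra
  have hb₁ : ∀ f : (VV kb 𝒲)[X], IsLocalRing.residue 𝒲 (ev₁ f) =
      algebraMap κ[X] Ω (f.map (IsLocalRing.residue (VV kb 𝒲))) := by
    intro f
    change _ = eval₂ hk tb (f.map (IsLocalRing.residue (VV kb 𝒲)))
    rw [eval₂_map]
    change IsLocalRing.residue 𝒲 (eval₂ (incl 𝒲) t' f) = _
    rw [hom_eval₂]
    rfl
  have hb : ∀ P : (VV kb 𝒲)[X][X], IsLocalRing.residue 𝒲 (ev P) =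
      aeval yb (P.map (mapRingHom (IsLocalRing.residue (VV kb 𝒲)))) := by
    intro P
    rw [aeval_def, eval₂_map]
    change IsLocalRing.residue 𝒲 (eval₂ ev₁ y' P) = _
    rw [hom_eval₂]
    congr 1
    exact RingHom.ext hb₁
  have hinj : Function.Injective (algebraMap κ[X] Ω) := by
    rw [injective_iff_map_eq_zero]
    intro fb hfb
    by_contra hne
    obtain ⟨f, rfl⟩ := Polynomial.map_surjective (IsLocalRing.residue (VV kb 𝒲))
      IsLocalRing.residue_surjective fb
    obtain ⟨i, hi⟩ : ∃ i, (f.map (IsLocalRing.residue (VV kb 𝒲))).coeff i ≠ 0 := by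
      by_contra! h
      exact hne (Polynomial.ext fun i => by rw [h i, coeff_zero])
    rw [coeff_map] at hi
    have hu : IsUnit (f.coeff i) := by
      by_contra h
      exact hi ((IsLocalRing.residue_eq_zero_iff _).2 ((IsLocalRing.mem_maximalIdeal _).2 h))
    have h1 : 𝒲.valuation ((ev₁ f : 𝒲) : L) = 1 := by
      rw [hev₁]
      apply hG
      · intro j
        rw [coeff_map]
        exact (𝒲.valuation_le_one_iff _).2 (f.coeff j).2
      · refine ⟨i, ?_⟩
        rw [coeff_map]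
        exact val_of_isUnit 𝒲 hu
    rw [← hb₁] at hfb
    have h2 := (𝒲.valuation_eq_one_iff _).2 h1
    exact (IsLocalRing.mem_maximalIdeal _).1 ((IsLocalRing.residue_eq_zero_iff _).1 hfb) h2
  have hfs : FaithfulSMul κ[X] Ω := (faithfulSMul_iff_algebraMap_injective _ _).2 hinj
  have htf : Module.IsTorsionFree κ[X] Ω :=
    Module.IsTorsionFree.trans_faithfulSMul κ[X] Ω Ω
  intro P hdeg hP
  rw [← hev]
  have hFb : aeval yb (F₀.map (mapRingHom (IsLocalRing.residue (VV kb 𝒲)))) = 0 := by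
    rw [← hb]
    have : ev F₀ = 0 := by
      apply Subtype.ext
      rw [hev, hy]
      rfl
    rw [this, map_zero]
  have hmon : (F₀.map (mapRingHom (IsLocalRing.residue (VV kb 𝒲)))).Monic := hm.map _
  have hint : IsIntegral κ[X] yb := ⟨_, hmon, hFb⟩
  rw [← 𝒲.valuation_eq_one_iff]
  by_contra hnu
  have hPb : aeval yb (P.map (mapRingHom (IsLocalRing.residue (VV kb 𝒲)))) = 0 := by
    rw [← hb]
    exact (IsLocalRing.residue_eq_zero_iff _).2 ((IsLocalRing.mem_maximalIdeal _).2 hnu)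
  have h1 := minpoly.IsIntegrallyClosed.degree_le_of_ne_zero (R := κ[X]) hP hPb
  have h2 : minpoly κ[X] yb ∣ F₀.map (mapRingHom (IsLocalRing.residue (VV kb 𝒲))) :=
    minpoly.isIntegrallyClosed_dvd hint hFb
  have h3 := (hirr.dvd_iff.1 h2).resolve_left (minpoly.not_isUnit κ[X] yb)
  have h4 : F₀.map (mapRingHom (IsLocalRing.residue (VV kb 𝒲))) = minpoly κ[X] yb :=
    eq_of_monic_of_associated hmon (minpoly.monic hint) h3
  have h5 : (P.map (mapRingHom (IsLocalRing.residue (VV kb 𝒲)))).natDegree <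
      (minpoly κ[X] yb).natDegree := by
    rw [← h4, hm.natDegree_map]
    exact lt_of_le_of_lt natDegree_map_le hdeg
  rw [degree_eq_natDegree (minpoly.ne_zero hint), degree_eq_natDegree hP, Nat.cast_le] at h1
  omega


include hG in
theorem coeff_val_le (f : kb[X]) (hf : 𝒲.valuation (aeval t f) ≤ 1) (j : ℕ) :
    𝒲.valuation (algebraMap kb L (f.coeff j)) ≤ 1 := by
  rcases eq_or_ne f 0 with rfl | h0
  · rw [coeff_zero, map_zero, map_zero]; exact zero_le
  · obtain ⟨i, -, hi, hmax⟩ := gauss_scale t 𝒲 hG f h0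
    exact (hmax j).trans (hi ▸ hf)

include hG in
theorem exists_coeff_val (f : kb[X]) (hf : 𝒲.valuation (aeval t f) = 1) :
    ∃ j, 𝒲.valuation (algebraMap kb L (f.coeff j)) = 1 := by
  have h0 : f ≠ 0 := by
    rintro rfl
    rw [map_zero, map_zero] at hf
    exact zero_ne_one hf
  obtain ⟨i, -, hi, -⟩ := gauss_scale t 𝒲 hG f h0
  exact ⟨i, hi ▸ hf⟩

theorem common_denom (n : ℕ) (c : Fin n → L) (hc : ∀ i, c i ∈ adjoin kb {t}) :
    ∃ (g : kb[X]) (f : Fin n → kb[X]), aeval t g ≠ 0 ∧ ∀ i, c i * aeval t g = aeval t (f i) := by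
  have h1 : ∀ i, ∃ r s : kb[X], aeval t s ≠ 0 ∧ c i * aeval t s = aeval t r := by
    intro i
    obtain ⟨r, s, hrs⟩ := (mem_adjoin_simple_iff kb (c i)).1 (hc i)
    by_cases hs : aeval t s = 0
    · refine ⟨0, 1, ?_, ?_⟩
      · rw [map_one]; exact one_ne_zero
      · rw [hrs, hs, div_zero, zero_mul, map_zero]
    · exact ⟨r, s, hs, by rw [hrs, div_mul_cancel₀ _ hs]⟩
  choose r s hs hrs using h1
  refine ⟨∏ i, s i, fun i => r i * ∏ j ∈ Finset.univ.erase i, s j, ?_, ?_⟩
  · rw [map_prod]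
    exact Finset.prod_ne_zero_iff.2 fun i _ => hs i
  · intro i
    rw [map_mul, ← hrs, mul_assoc, ← map_mul, Finset.mul_prod_erase _ _ (Finset.mem_univ i)]

include hG in
theorem hind_aux (F₀ : (VV kb 𝒲)[X][X]) (hm : F₀.Monic)
    (hirr : Irreducible (F₀.map (mapRingHom (IsLocalRing.residue (VV kb 𝒲)))))
    (y : L)
    (hy : (F₀.map (mapRingHom (algebraMap (VV kb 𝒲) kb))).eval₂
      (aeval t : kb[X] →ₐ[kb] L).toRingHom y = 0)
    (n : ℕ) (hn : F₀.natDegree = n) (c : Fin n → L) (hc : ∀ i, c i ∈ adjoin kb {t})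
    (hcW : ∀ i, c i ∈ 𝒲) (hc1 : ∃ i, 𝒲.valuation (c i) = 1) :
    𝒲.valuation (∑ i, c i * y ^ (i : ℕ)) = 1 := by
  obtain ⟨i₀, hi₀⟩ := hc1
  obtain ⟨g, f, hg, hf⟩ := common_denom t n c hc
  have hg0 : g ≠ 0 := by
    rintro rfl
    exact hg (map_zero _)
  obtain ⟨m, hm0, hgm, -⟩ := gauss_scale t 𝒲 hG g hg0
  set a := (g.coeff m)⁻¹ with ha
  have hg1 : 𝒲.valuation (aeval t (C a * g)) = 1 := by
    rw [map_mul, aeval_C, map_mul, hgm, ha, map_inv₀, map_inv₀]
    apply inv_mul_cancel₀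
    rw [Valuation.ne_zero_iff]
    exact (_root_.map_ne_zero _).2 hm0
  have hf' : ∀ i, c i * aeval t (C a * g) = aeval t (C a * f i) := by
    intro i
    rw [map_mul, map_mul, ← hf i]
    ring
  have hv : ∀ i, 𝒲.valuation (aeval t (C a * f i)) = 𝒲.valuation (c i) := by
    intro i
    rw [← hf' i, map_mul, hg1, mul_one]
  have hlift : ∀ i, ∃ p : (VV kb 𝒲)[X], p.map (algebraMap (VV kb 𝒲) kb) = C a * f i := by
    intro i
    have : C a * f i ∈ Polynomial.lifts (algebraMap (VV kb 𝒲) kb) := by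
      rw [Polynomial.lifts_iff_coeff_lifts]
      intro j
      have h1 := coeff_val_le t 𝒲 hG (C a * f i) (by
        rw [hv i]; exact (𝒲.valuation_le_one_iff _).2 (hcW i)) j
      exact ⟨⟨_, (𝒲.valuation_le_one_iff _).1 h1⟩, rfl⟩
    exact (Polynomial.mem_lifts _).1 this
  choose p hp using hlift
  obtain ⟨-, key⟩ := indep_aux t 𝒲 hG F₀ hm hirr y hy
  have h2 := key (∑ i : Fin n, C (p i) * X ^ (i : ℕ)) ?_ ?_
  · have h3 : ((∑ i : Fin n, C (p i) * X ^ (i : ℕ) : (VV kb 𝒲)[X][X]).map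
        (mapRingHom (algebraMap (VV kb 𝒲) kb))).eval₂ (aeval t : kb[X] →ₐ[kb] L).toRingHom y =
        aeval t (C a * g) * ∑ i, c i * y ^ (i : ℕ) := by
      rw [Polynomial.map_sum, eval₂_finsetSum, Finset.mul_sum]
      refine Finset.sum_congr rfl fun i _ => ?_
      rw [Polynomial.map_mul, Polynomial.map_pow, map_X, map_C, coe_mapRingHom, hp, eval₂_mul,
        eval₂_C, eval₂_pow, eval₂_X, ← mul_assoc, mul_comm _ (c i), hf' i]
      rfl
    rw [h3, map_mul, hg1, one_mul] at h2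
    exact h2
  · rw [hn]
    have hn0 : 0 < n := lt_of_le_of_lt (Nat.zero_le _) i₀.2
    rcases eq_or_ne (∑ i : Fin n, C (p i) * X ^ (i : ℕ) : (VV kb 𝒲)[X][X]) 0 with h | h
    · rw [h, natDegree_zero]
      exact hn0
    · exact (Polynomial.natDegree_lt_iff_degree_lt h).2 (degree_sum_fin_lt p)
  · intro h
    have h4 := congrArg (fun q => Polynomial.coeff q (i₀ : ℕ)) h
    simp only [coeff_map, finsetSum_coeff, coeff_C_mul, coeff_X_pow, coeff_zero,
      coe_mapRingHom] at h4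
    rw [Finset.sum_eq_single i₀] at h4
    · rw [if_pos rfl, mul_one] at h4
      obtain ⟨j, hj⟩ := exists_coeff_val t 𝒲 hG (C a * f i₀) (by rw [hv, hi₀])
      have h5 := congrArg (fun q => Polynomial.coeff q j) h4
      simp only [coeff_map, coeff_zero] at h5
      have h6 : IsUnit ((p i₀).coeff j) := by
        apply isUnit_of_val 𝒲
        rw [← hp i₀, coeff_map] at hj
        exact hj
      exact (IsLocalRing.mem_maximalIdeal _).1 ((IsLocalRing.residue_eq_zero_iff _).1 h5) h6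
    · intro i _ hi
      rw [if_neg, mul_zero]
      intro h
      exact hi (Fin.ext h).symm
    · intro h
      exact absurd (Finset.mem_univ _) h

end Aux

end GoodRed

open GoodRed

theorem good_red {kb L : Type*} [Field kb] [IsAlgClosed kb] [CharZero kb]
    [Algebra.IsAlgebraic ℚ kb] [Field L] [Algebra kb L] (t : L) (ht : Transcendental kb t)
    [FiniteDimensional (adjoin kb {t}) L] :
    ∃ B : Finset ℕ, ∀ p : ℕ, p.Prime → p ∉ B → ∀ 𝒲 𝒲' : ValuationSubring L,
      𝒲.valuation (p : L) < 1 → IsGauss kb t 𝒲 → IsGauss kb t 𝒲' →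
      𝒲.comap (algebraMap kb L) = 𝒲'.comap (algebraMap kb L) → 𝒲 = 𝒲' := by
  obtain ⟨F, y, hm, hirr, hdeg, hy⟩ := exists_prim t ht
  obtain ⟨B, hB⟩ := bertini_noether F hm hirr
  refine ⟨B, fun p hp hpB 𝒲 𝒲' hv hG hG' hc => ?_⟩
  have hpV : (𝒲.comap (algebraMap kb L)).valuation (p : kb) < 1 := by
    have hmem : (p : kb) ∈ 𝒲.comap (algebraMap kb L) := natCast_mem _ p
    have h1 := (𝒲.comap (algebraMap kb L)).valuation_lt_one_iff ⟨(p : kb), hmem⟩
    refine h1.1 ((IsLocalRing.mem_maximalIdeal _).2 fun hu => ?_)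
    have h2 := val_of_isUnit 𝒲 hu
    rw [map_natCast] at h2
    exact hv.ne h2
  obtain ⟨F₀, hm₀, hmap, hirr₀, -⟩ := hB p hp hpB _ hpV
  have hy' : (F₀.map (mapRingHom (algebraMap (𝒲.comap (algebraMap kb L)) kb))).eval₂
      (aeval t : kb[X] →ₐ[kb] L).toRingHom y = 0 := by rw [hmap, hy]
  have hn : F₀.natDegree = Module.finrank (adjoin kb {t}) L := by
    rw [← hdeg, ← hmap, hm₀.natDegree_map]
  have hyW : y ∈ 𝒲 := (indep_aux t 𝒲 hG F₀ hm₀ hirr₀ y hy').1
  symm
  refine val_unique_of_deg (E := adjoin kb {t}) 𝒲 (fun i => y ^ (i : ℕ))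
    (fun i => pow_mem hyW _) ?_ 𝒲' ?_
  · intro c hcW hc1
    exact hind_aux t 𝒲 hG F₀ hm₀ hirr₀ y hy' _ hn (fun i => algebraMap (adjoin kb {t}) L (c i))
      (fun i => (c i).2) hcW hc1
  · ext x
    exact (gauss_comap t ht 𝒲' 𝒲 hG' hG hc.symm (x : L) x.2)

end Pool.Agent.Lib.MP_2f3286_ag.Full
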