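import Pool.Agent.Lib.MP_2f3286_ag.Full.WChar
import Pool.Agent.Lib.MP_2f3286_ag.Full.GoodRed

/-!
# The main theorem on weights
-/

open Polynomial IntermediateField IsDedekindDomain NumberField
open scoped Pointwise

namespace Pool.Agent.Lib.MP_2f3286_ag.Full

theorem continuous_toZMod (ℓ : ℕ) [Fact ℓ.Prime] :
    Continuous (PadicInt.toZMod : ℤ_[ℓ] →+* ZMod ℓ) := by
  have h1 : IsLocallyConstant (PadicInt.toZMod : ℤ_[ℓ] →+* ZMod ℓ) := by
    rw [IsLocallyConstant.iff_exists_open]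
    intro x
    refine ⟨Metric.ball x 1, Metric.isOpen_ball, Metric.mem_ball_self one_pos, fun y hy => ?_⟩
    rw [Metric.mem_ball, dist_eq_norm] at hy
    rw [← sub_eq_zero, ← map_sub, ← RingHom.mem_ker, PadicInt.ker_toZMod,
      IsLocalRing.mem_maximalIdeal, PadicInt.mem_nonunits]
    exact hy
  exact h1.continuous

theorem frob_iter {kb : Type*} [Field kb] (V : ValuationSubring kb) (φ : kb →+* kb)
    (hφV : ∀ x, φ x ∈ V ↔ x ∈ V) (q : ℕ) (hφ : ∀ x ∈ V, V.valuation (φ x - x ^ q) < 1) (j : ℕ) :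
    ∀ x ∈ V, V.valuation (φ^[j] x - x ^ q ^ j) < 1 := by
  induction j with
  | zero =>
    intro x _
    simp
  | succ j ih =>
    intro x hx
    have h0 : ∀ j, φ^[j] x ∈ V := by
      intro j
      induction j with
      | zero => exact hx
      | succ j ihj => rw [Function.iterate_succ_apply', hφV]; exact ihj
    have h1 := hφ _ (h0 j)
    have h2 := ih x hx
    have h3 : V.valuation ((φ^[j] x) ^ q - (x ^ q ^ j) ^ q) < 1 := by
      obtain ⟨c, hc⟩ := sub_dvd_pow_sub_pow (⟨φ^[j] x, h0 j⟩ : V) (⟨x ^ q ^ j, pow_mem hx _⟩ : V) q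
      have h4 := congrArg (fun y : V => (y : kb)) hc
      push_cast at h4
      rw [h4, map_mul]
      exact mul_lt_one_of_lt_of_le h2 ((V.valuation_le_one_iff _).mpr c.2)
    have h5 : φ^[j + 1] x - x ^ q ^ (j + 1) =
        (φ (φ^[j] x) - (φ^[j] x) ^ q) + ((φ^[j] x) ^ q - (x ^ q ^ j) ^ q) := by
      rw [Function.iterate_succ_apply', ← pow_mul, ← pow_succ]
      ring
    rw [h5]
    exact V.valuation.map_add_lt h1 h3

universe u in
theorem W_main {k : Type u} [Field k] [NumberField k] {K : Type*} [Field K] [Algebra k K] (t : K)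
    (ht : Transcendental k t) [FiniteDimensional (adjoin k {t}) K] {M : Type*} [Field M]
    [Algebra K M] [IsGalois K M] [Algebra (AlgebraicClosure k) M] [Algebra k M]
    [IsScalarTower k K M] [IsScalarTower k (AlgebraicClosure k) M]
    (H H' : Subgroup Gal(M/K)) [H.Normal] [H'.Normal]
    (hHN : H ≤ geomGroup K M (AlgebraicClosure k)) (hH'H : H' ≤ H)
    (hH'o : OpenIn (geomGroup K M (AlgebraicClosure k)) H') (L : Finset ℕ)
    (_hL : ∀ ℓ ∈ L, ℓ.Prime)
    (hH'L : ∀ (ℓ : ℕ) [Fact ℓ.Prime], ℓ ∈ L → ∀ f : H →ₜ* Multiplicative (ZMod ℓ), ∀ h : H,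
      (h : Gal(M/K)) ∈ H' → f h = 1) :
    ∃ φ : Gal(AlgebraicClosure k/k), ∀ g : Gal(M/K),
      (∀ a, g (algebraMap (AlgebraicClosure k) M a) = algebraMap _ M (φ a)) →
      ∀ (ℓ : ℕ) [Fact ℓ.Prime], ℓ ∈ L → ∀ j, 1 ≤ j → ∀ χ : H →ₜ* Multiplicative ℤ_[ℓ],
        (∀ h, χ (MulAut.conjNormal (g ^ j) h) = χ h) → ∀ h, χ h = 1 := by
  classical
  set kb := AlgebraicClosure k with hkb
  have hN := isClosed_geomGroup K M kb
  have hH'N : H' ≤ geomGroup K M kb := hH'H.trans hHN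
  have hH'c : IsClosed (H' : Set Gal(M/K)) := hH'o.isClosed_of_le hH'N hN
  have hHc : IsClosed (H : Set Gal(M/K)) := by
    obtain ⟨O, hO, hON⟩ := hH'o
    exact OpenIn.isClosed_of_le ⟨O, hO, hON.trans hH'H⟩ hHN hN
  let tM : M := algebraMap K M t
  have htK : ∀ g : Gal(M/K), g tM = tM := fun g => g.commutes t
  have htM : Transcendental kb tM := by
    intro h1
    have h2 : IsAlgebraic k tM := IsAlgebraic.restrictScalars k h1
    exact ht ((isAlgebraic_algebraMap_iff (algebraMap K M).injective).mp h2)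
  have halg : ∀ x : M, IsAlgebraic (adjoin kb {tM}) x := isAlgebraic_M (k := k) t
  obtain ⟨E₁, hE₁f, hE₁⟩ := exists_fd (k := k) (kb := kb) t H' hH'o
  let L2 := fixedE H' hH'N
  let tL : L2 := ⟨tM, fun h _ => htK h⟩
  have hL2f : FiniteDimensional (adjoin kb {tL}) L2 :=
    finiteDimensional_coe L2 tL E₁ (fun x hx => hE₁ x hx)
  have : Algebra.IsAlgebraic ℚ kb := Algebra.IsAlgebraic.trans ℚ k kb
  obtain ⟨B, hB⟩ := good_red (kb := kb) (L := L2) tL (transcendental_coe L2 tL htM)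
  -- the prime
  obtain ⟨p, hp, hpB, hpL⟩ : ∃ p : ℕ, p.Prime ∧ p ∉ B ∧ p ∉ L := by
    obtain ⟨p, hp1, hp2⟩ := Nat.exists_infinite_primes ((B ∪ L).sup id + 1)
    refine ⟨p, hp2, fun h => ?_, fun h => ?_⟩
    · have := Finset.le_sup (f := id) (Finset.mem_union_left L h)
      simp only [id] at this
      omega
    · have := Finset.le_sup (f := id) (Finset.mem_union_right B h)
      simp only [id] at this
      omega
  have := Fact.mk hp
  obtain ⟨V, φ, e, he, hVp, hφV, hφ⟩ := exists_frob (k := k) p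
  obtain ⟨W, hWV, hWG⟩ := exists_gauss (kb := kb) (L := M) tM htM V
  have hpW : W.valuation (p : M) < 1 := by
    have h1 := (val_comap_lt_one (algebraMap kb M) W (p : kb)).mp (by rw [hWV]; exact hVp)
    rwa [map_natCast] at h1
  -- all Gauss valuation rings over `V` are conjugate under `H'`
  have key : ∀ W' : ValuationSubring M, IsGauss kb tM W' → W'.comap (algebraMap kb M) = V →
      ∃ h ∈ H', ∀ x, x ∈ W' ↔ h x ∈ W := by
    intro W' hG' hV'
    refine conj_of_gauss H' hH'N hH'c W W' ?_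
    refine hB p hp hpB _ _ ?_ ?_ ?_ ?_
    · rw [val_comap_lt_one, map_natCast]
      exact hpW
    · exact isGauss_comap (algebraMap L2 M) W (RingHom.id kb) (fun a => rfl) tL hWG
    · exact isGauss_comap (algebraMap L2 M) W' (RingHom.id kb) (fun a => rfl) tL hG'
    · have h1 : ∀ W'' : ValuationSubring M, (W''.comap (algebraMap L2 M)).comap (algebraMap kb L2) =
          W''.comap (algebraMap kb M) := fun W'' => by
        rw [ValuationSubring.comap_comap]
        rfl
      rw [h1, h1, hWV, hV']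
  refine ⟨φ, fun g hg ℓ _ hℓ j hj χ hχ => ?_⟩
  by_contra hne
  push Not at hne
  obtain ⟨χ₁, ⟨h₀, hh₀⟩, a, ha⟩ := exists_unit_char χ hne
  have hl0 : (ℓ : ℤ_[ℓ]) ^ a ≠ 0 := pow_ne_zero _ (by exact_mod_cast (Fact.out : ℓ.Prime).ne_zero)
  have hχ₁ : ∀ h, χ₁ (MulAut.conjNormal (g ^ j) h) = χ₁ h := by
    intro h
    apply Multiplicative.toAdd.injective
    apply mul_left_cancel₀ hl0
    rw [← ha, ← ha, hχ h]
  -- modification of `g`
  obtain ⟨h', hh'H, hh'⟩ := key (W.comap (g : M →+* M))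
    (isGauss_comap (g : M →+* M) W (φ : kb →+* kb) hg tM (by
      change IsGauss kb (g tM) W
      rw [htK g]
      exact hWG))
    (by
      ext x
      rw [ValuationSubring.mem_comap, ValuationSubring.mem_comap]
      change g (algebraMap kb M x) ∈ W ↔ _
      rw [hg, ← ValuationSubring.mem_comap, hWV]
      exact hφV x)
  have hγ₀W : ∀ x, (g * h'⁻¹) x ∈ W ↔ x ∈ W := by
    intro x
    have h1 := hh' (h'⁻¹ x)
    have h2 : h' (h'⁻¹ x) = x := h'.apply_symm_apply x
    rw [h2] at h1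
    exact h1
  have hγ₀k : ∀ a : kb, (g * h'⁻¹) (algebraMap kb M a) = algebraMap kb M (φ a) := by
    intro a
    have h1 : h'⁻¹ (algebraMap kb M a) = algebraMap kb M a := hH'N (H'.inv_mem hh'H) a
    change g (h'⁻¹ _) = _
    rw [h1, hg]
  set γ₀ := g * h'⁻¹ with hγ₀
  have hγW : ∀ (n : ℕ) (x : M), (γ₀ ^ n) x ∈ W ↔ x ∈ W := by
    intro n
    induction n with
    | zero => intro x; rfl
    | succ n ih =>
      intro x
      rw [pow_succ]
      change (γ₀ ^ n) (γ₀ x) ∈ W ↔ _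
      rw [ih, hγ₀W]
  have hγk : ∀ (n : ℕ) (a : kb), (γ₀ ^ n) (algebraMap kb M a) =
      algebraMap kb M ((φ : kb →+* kb)^[n] a) := by
    intro n
    induction n with
    | zero => intro a; rfl
    | succ n ih =>
      intro a
      rw [pow_succ, Function.iterate_succ_apply]
      change (γ₀ ^ n) (γ₀ _) = _
      rw [hγ₀k, ih]
      rfl
  have hquot : ∃ h'' ∈ H', γ₀ ^ j = g ^ j * h'' := by
    have h1 : (QuotientGroup.mk (g ^ j) : Gal(M/K) ⧸ H') = QuotientGroup.mk (γ₀ ^ j) := by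
      rw [QuotientGroup.mk_pow, QuotientGroup.mk_pow]
      congr 1
      rw [QuotientGroup.eq, hγ₀, ← mul_assoc, inv_mul_cancel, one_mul]
      exact H'.inv_mem hh'H
    rw [QuotientGroup.eq] at h1
    exact ⟨_, h1, by group⟩
  obtain ⟨h'', hh''H, hh''⟩ := hquot
  have hγχ : ∀ h, χ₁ (MulAut.conjNormal (γ₀ ^ j) h) = χ₁ h := by
    intro h
    have h1 : MulAut.conjNormal (γ₀ ^ j) h =
        MulAut.conjNormal (g ^ j) (⟨h'', hH'H hh''H⟩ * h * ⟨h'', hH'H hh''H⟩⁻¹) := by
      refine Subtype.ext ?_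
      rw [MulAut.conjNormal_apply, MulAut.conjNormal_apply, hh'']
      push_cast
      group
    rw [h1, hχ₁, map_mul, map_mul, map_inv, mul_comm (χ₁ ⟨h'', hH'H hh''H⟩), mul_inv_cancel_right]
  -- the decomposition group has full image
  let D : Subgroup H :=
    { carrier := {d | ∀ x, (d : Gal(M/K)) x ∈ W ↔ x ∈ W}
      mul_mem' := fun {a b} ha hb x => by
        change (a : Gal(M/K)) ((b : Gal(M/K)) x) ∈ W ↔ _
        rw [ha, hb]
      one_mem' := fun x => Iff.rfl
      inv_mem' := fun {a} ha x => by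
        rw [← ha]
        change (a : Gal(M/K)) ((a : Gal(M/K))⁻¹ x) ∈ W ↔ _
        rw [show (a : Gal(M/K)) ((a : Gal(M/K))⁻¹ x) = x from
          (a : Gal(M/K)).apply_symm_apply x] }
  have hDc : IsClosed (D : Set H) := by
    have h1 : (D : Set H) = ⋂ x : M, {d : H | (d : Gal(M/K)) x ∈ W ↔ x ∈ W} := by
      ext d
      simp only [Set.mem_iInter]
      exact Iff.rfl
    rw [h1]
    refine isClosed_iInter fun x => ?_
    rw [← isOpen_compl_iff, isOpen_iff_forall_mem_open]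
    intro d hd
    refine ⟨{d' : H | ((d⁻¹ * d' : H) : Gal(M/K)) x = x}, ?_, ?_, ?_⟩
    · intro d' hd' hd2
      apply hd
      have h3 : (d' : Gal(M/K)) x = (d : Gal(M/K)) x := by
        have h4 : ((d⁻¹ * d' : H) : Gal(M/K)) x = x := hd'
        conv_rhs => rw [← h4]
        change _ = (d : Gal(M/K)) ((d : Gal(M/K))⁻¹ ((d' : Gal(M/K)) x))
        exact ((d : Gal(M/K)).apply_symm_apply _).symm
      rw [Set.mem_ofPred_eq, ← h3]
      exact hd2
    · have h3 : Continuous fun d' : H => ((d⁻¹ * d' : H) : Gal(M/K)) :=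
        continuous_subtype_val.comp (continuous_const.mul continuous_id)
      exact (isOpen_stab (K := K) x).preimage h3
    · change ((d⁻¹ * d : H) : Gal(M/K)) x = x
      rw [inv_mul_cancel]
      rfl
  have hHcs : CompactSpace H := isCompact_iff_compactSpace.mp hHc.isCompact
  have hDcs : CompactSpace D := isCompact_iff_compactSpace.mp hDc.isCompact
  let ιD : D →ₜ* H := { toMonoidHom := D.subtype, continuous_toFun := continuous_subtype_val }
  let χD : D →ₜ* Multiplicative ℤ_[ℓ] := χ₁.comp ιD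
  have hsurj : Function.Surjective χD := by
    apply surj_of_unit
    obtain ⟨h₁, hh₁H, hh₁⟩ := key (W.comap ((h₀ : Gal(M/K)) : M →+* M))
      (isGauss_comap ((h₀ : Gal(M/K)) : M →+* M) W (RingHom.id kb) (fun a => hHN h₀.2 a) tM (by
        change IsGauss kb ((h₀ : Gal(M/K)) tM) W
        rw [htK]
        exact hWG))
      (by
        ext x
        rw [ValuationSubring.mem_comap, ValuationSubring.mem_comap]
        change (h₀ : Gal(M/K)) (algebraMap kb M x) ∈ W ↔ _
        rw [hHN h₀.2 x, ← ValuationSubring.mem_comap, hWV])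
    have hd : h₀ * (⟨h₁, hH'H hh₁H⟩ : H)⁻¹ ∈ D := by
      intro x
      have h2 := hh₁ (h₁⁻¹ x)
      have h3 : h₁ (h₁⁻¹ x) = x := h₁.apply_symm_apply x
      rw [h3] at h2
      exact h2
    refine ⟨⟨_, hd⟩, ?_⟩
    change IsUnit (χ₁ (h₀ * (⟨h₁, hH'H hh₁H⟩ : H)⁻¹)).toAdd
    let f : H →ₜ* Multiplicative (ZMod ℓ) :=
      { toFun := fun h => Multiplicative.ofAdd (PadicInt.toZMod (χ₁ h).toAdd)
        map_one' := by
          rw [map_one, toAdd_one, map_zero, ofAdd_zero]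
        map_mul' := fun a b => by
          rw [map_mul, toAdd_mul, map_add, ofAdd_add]
        continuous_toFun := continuous_ofAdd.comp ((continuous_toZMod ℓ).comp
          (continuous_toAdd.comp χ₁.continuous_toFun)) }
    have hf1 : f ⟨h₁, hH'H hh₁H⟩ = 1 := hH'L ℓ hℓ f _ hh₁H
    have hf2 : f (h₀ * (⟨h₁, hH'H hh₁H⟩ : H)⁻¹) = f h₀ := by
      rw [map_mul, map_inv, hf1, inv_one, mul_one]
    have hf3 : PadicInt.toZMod (χ₁ (h₀ * (⟨h₁, hH'H hh₁H⟩ : H)⁻¹)).toAdd =
        PadicInt.toZMod (χ₁ h₀).toAdd := Multiplicative.ofAdd.injective hf2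
    by_contra hnu
    have h4 : (χ₁ (h₀ * (⟨h₁, hH'H hh₁H⟩ : H)⁻¹)).toAdd ∈
        RingHom.ker (PadicInt.toZMod : ℤ_[ℓ] →+* ZMod ℓ) := by
      rw [PadicInt.ker_toZMod, IsLocalRing.mem_maximalIdeal]
      exact hnu
    rw [RingHom.mem_ker, hf3, ← RingHom.mem_ker, PadicInt.ker_toZMod,
      IsLocalRing.mem_maximalIdeal] at h4
    exact h4 hh₀
  have hpl : p ≠ ℓ := fun h => hpL (h ▸ hℓ)
  refine no_char tM htM htK halg hpl H hHN hHc E₁ (fun x hx => hE₁ x fun h hh => hx h (hH'H hh))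
    W hpW hWG χ₁ ?_ (γ₀ ^ j) hγχ (fun a => ⟨_, hγk j a⟩) (hγW j) (e * j)
    (Nat.one_le_iff_ne_zero.mpr (Nat.mul_ne_zero (by omega) (by omega))) ?_
  · intro z
    obtain ⟨d, hd⟩ := hsurj z
    exact ⟨d, hd, fun x hx => (d.2 x).mpr hx⟩
  · intro a ha
    have haV : a ∈ V := by rw [← hWV]; exact ha
    have h1 := frob_iter V (φ : kb →+* kb) hφV (p ^ e) hφ j a haV
    rw [← pow_mul, ← hWV, val_comap_lt_one, map_sub, map_pow] at h1
    rw [hγk]
    exact h1

end Pool.Agent.Lib.MP_2f3286_ag.Full
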