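import Mathlib
import Pool.Agent.Lib.MP_2f3286_ag.NilpKill
import Pool.Agent.Lib.MP_2f3286_ag.Points
import Pool.Agent.Lib.MP_2f3286_ag.SelmerCore
import Pool.Agent.Lib.MP_2f3286_ag.Full.Defs
import Pool.Agent.Lib.MP_2f3286_ag.Full.Cheb
import Pool.Agent.Lib.MP_2f3286_ag.Full.GMain
import Pool.Agent.Lib.MP_2f3286_ag.Full.WMain

/-!
# The core theorem: sections whose local points all lie over one rational point
-/

open Polynomial IntermediateField IsDedekindDomain NumberField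
open scoped Pointwise

namespace Pool.Agent.Lib.MP_2f3286_ag.Full

/-- An element approximately conjugate to `y` by elements of a closed subgroup is conjugate to it. -/
theorem exists_conj_of_approx {G : Type*} [Group G] [TopologicalSpace G] [IsTopologicalGroup G]
    [CompactSpace G] [T2Space G] [TotallyDisconnectedSpace G] (N : Subgroup G)
    (hN : IsClosed (N : Set G)) (x y : G)
    (h : ∀ U : Subgroup G, U.Normal → IsOpen (U : Set G) → ∃ n ∈ N, x⁻¹ * (n * y * n⁻¹) ∈ U) :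
    ∃ n ∈ N, x = n * y * n⁻¹ := by
  by_contra hcon
  push Not at hcon
  let C : Set G := (fun n : G => n * y * n⁻¹) '' (N : Set G)
  have hC : IsClosed C := (hN.isCompact.image (by fun_prop)).isClosed
  have hxC : x ∉ C := by
    rintro ⟨n, hn, e⟩
    exact hcon n hn e.symm
  have hO : IsOpen ((fun z : G => x * z) ⁻¹' Cᶜ) := hC.isOpen_compl.preimage (by fun_prop)
  have h1 : (1 : G) ∈ (fun z : G => x * z) ⁻¹' Cᶜ := by
    change x * 1 ∉ C
    rwa [mul_one]
  obtain ⟨U, hU⟩ := ProfiniteGrp.exist_openNormalSubgroup_sub_open_nhds_of_one hO h1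
  obtain ⟨n, hn, hnU⟩ := h U.toSubgroup U.isNormal' U.isOpen
  have h2 : x * (x⁻¹ * (n * y * n⁻¹)) ∉ C := hU hnU
  rw [mul_inv_cancel_left] at h2
  exact h2 ⟨n, hn, rfl⟩

universe u in
theorem full_core {k : Type u} [Field k] [NumberField k]
    {K : Type*} [Field K] [Algebra k K] (t : K) (ht : Transcendental k t)
    [FiniteDimensional (adjoin k {t}) K]
    (R : Subalgebra k K) (hRn : ∀ x : K, IsIntegral R x → x ∈ R)
    {M : Type*} [Field M] [Algebra K M] [IsGalois K M]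
    [Algebra (AlgebraicClosure k) M] [Algebra k M]
    [IsScalarTower k K M] [IsScalarTower k (AlgebraicClosure k) M]
    (hun : ∀ Ψ : integralClosure R M →+* AlgebraicClosure k,
      (∀ (a : AlgebraicClosure k) (b : integralClosure R M), (b : M) = algebraMap _ M a → Ψ b = a) →
      ∀ g ∈ geomGroup K M (AlgebraicClosure k),
        (∀ b b' : integralClosure R M, (b' : M) = g b → Ψ b' = Ψ b) → g = 1)
    (hfree : ∀ A ≤ geomGroup K M (AlgebraicClosure k),
      OpenIn (geomGroup K M (AlgebraicClosure k)) A → ∀ (ℓ : ℕ) [Fact ℓ.Prime],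
      Finite (A →ₜ* Multiplicative (ZMod ℓ)) ∧
      ∀ f : A →ₜ* Multiplicative (ZMod ℓ), ∃ F : A →ₜ* Multiplicative ℤ_[ℓ], ∀ a,
        PadicInt.toZMod (F a).toAdd = (f a).toAdd)
    (s : Gal(AlgebraicClosure k/k) →* Gal(M/K)) (hs : Continuous s)
    (hsec : ∀ σ a, s σ (algebraMap (AlgebraicClosure k) M a) =
      algebraMap (AlgebraicClosure k) M (σ a))
    (S : Finset (HeightOneSpectrum (𝓞 k)))
    (ι : ∀ v : {v : HeightOneSpectrum (𝓞 k) // v ∉ S},
      AlgebraicClosure k →ₐ[k] AlgebraicClosure (v.1.adicCompletion k))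
    (φ : ∀ v : {v : HeightOneSpectrum (𝓞 k) // v ∉ S},
      integralClosure R M →+* AlgebraicClosure (v.1.adicCompletion k))
    (hφ : ∀ v, Respects s (v.1.adicCompletion k)
      (ι v : _ →+* AlgebraicClosure (v.1.adicCompletion k)) (φ v))
    (θ : R → k) (hθ : ∀ v r, φ v (algebraMap R _ r) = ι v (algebraMap k _ (θ r))) :
    ∃ Ψ : integralClosure R M →+* AlgebraicClosure k, Respects s k (RingHom.id _) Ψ ∧
      (∀ r, Ψ (algebraMap R _ r) = algebraMap k _ (θ r)) ∧
      ∀ Ψ' : integralClosure R M →+* AlgebraicClosure k, Respects s k (RingHom.id _) Ψ' →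
        (∀ r, Ψ' (algebraMap R _ r) = algebraMap k _ (θ r)) → Ψ' = Ψ := by
  classical
  set kb := AlgebraicClosure k with hkbdef
  set N := geomGroup K M kb with hN
  have htow' : IsScalarTower k R M := IsScalarTower.of_algebraMap_eq fun x => by
    rw [IsScalarTower.algebraMap_apply k K M]; rfl
  have hRM : ∀ r : R, algebraMap R M r = algebraMap K M (r : K) := fun r => rfl
  have hRn' : ∀ x : K, IsIntegral R x → ∃ r : R, algebraMap R K r = x := fun x hx => ⟨⟨x, hRn x hx⟩, rfl⟩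
  have hBk : ∀ a : kb, IsIntegral R (algebraMap kb M a) := by
    intro a
    have h1 : IsIntegral k a := Algebra.IsIntegral.isIntegral a
    have h2 : IsIntegral k (algebraMap kb M a) := h1.algebraMap
    exact h2.tower_top
  have hkR : ∀ a : k, ∃ r : R, algebraMap R M r = algebraMap k M a := by
    intro a
    exact ⟨algebraMap k R a, by rw [← IsScalarTower.algebraMap_apply]⟩
  have hkθ : ∀ v (r : R), φ v (algebraMap R _ r) = ι v (algebraMap k kb (θ r)) := hθ
  -- `N` is closed and normal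
  have hNmem : ∀ {g : Gal(M/K)}, g ∈ N ↔ ∀ a : kb, g (algebraMap kb M a) = algebraMap kb M a :=
    Iff.rfl
  have hpres : ∀ (g : Gal(M/K)) (a : kb), ∃ a' : kb, g (algebraMap kb M a) = algebraMap kb M a' := by
    intro g a
    have h2 : IsIntegral k a := Algebra.IsIntegral.isIntegral a
    have h3 : Polynomial.aeval (g (algebraMap kb M a)) (minpoly k a) = 0 := by
      have h4 : (g.toAlgHom.restrictScalars k : M →ₐ[k] M) (algebraMap kb M a) =
        g (algebraMap kb M a) := rfl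
      rw [← h4, Polynomial.aeval_algHom_apply, Polynomial.aeval_algebraMap_apply, minpoly.aeval,
        map_zero, map_zero]
    have h5 : (((minpoly k a).map (algebraMap k kb)).map (algebraMap kb M)).IsRoot
        (g (algebraMap kb M a)) := by
      rw [Polynomial.map_map, ← IsScalarTower.algebraMap_eq, Polynomial.IsRoot,
        Polynomial.eval_map_algebraMap]
      exact h3
    have h0 : (minpoly k a).map (algebraMap k kb) ≠ 0 := by
      rw [Polynomial.map_ne_zero_iff (algebraMap k kb).injective]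
      exact minpoly.ne_zero h2
    obtain ⟨r', hr'⟩ := (IsAlgClosed.splits ((minpoly k a).map (algebraMap k kb))).mem_range_of_isRoot
      h0 h5
    exact ⟨r', hr'.symm⟩
  have hNn : N.Normal := by
    refine ⟨fun n hn g => ?_⟩
    rw [hNmem] at hn ⊢
    intro a
    obtain ⟨a', ha'⟩ := hpres g⁻¹ a
    rw [AlgEquiv.mul_apply, AlgEquiv.mul_apply, ha', hn, ← ha']
    exact g.apply_symm_apply _
  have hNcl : IsClosed (N : Set Gal(M/K)) := by
    have h1 : (N : Set Gal(M/K)) = ⋂ a : kb, (MulAction.stabilizer Gal(M/K) (algebraMap kb M a) :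
        Set Gal(M/K)) := by
      ext g
      rw [Set.mem_iInter]
      exact Iff.rfl
    rw [h1]
    refine isClosed_iInter fun a => ?_
    exact Subgroup.isClosed_of_isOpen _ (stabilizer_isOpen_of_isIntegral (K := K) _)
  -- the section acts on the integral closure
  have hsmem : ∀ (σ : Gal(kb/k)) (g : Gal(M/K)), (∀ a : kb, g (algebraMap kb M a) =
      algebraMap kb M (σ a)) → g * (s σ)⁻¹ ∈ N := by
    intro σ g hg
    rw [hNmem]
    intro a
    have h1 : (s σ)⁻¹ (algebraMap kb M a) = algebraMap kb M (σ⁻¹ a) := by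
      rw [← map_inv]; exact hsec σ⁻¹ a
    rw [AlgEquiv.mul_apply, h1, hg]
    congr 1
    exact σ.apply_symm_apply a
  -- descent of the local points
  have hval : ∀ v, ∀ b : integralClosure R M, ∃ β : kb, ι v β = φ v b := by
    intro v b
    obtain ⟨Q, hQm, hQ⟩ := b.2
    have h1 : Q.eval₂ (algebraMap R (integralClosure R M)) b = 0 := by
      apply Subtype.val_injective
      have h2 := Polynomial.hom_eval₂ Q (algebraMap R (integralClosure R M))
        (integralClosure R M).subtype b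
      refine h2.trans ?_
      exact hQ
    have h2 := congrArg (φ v) h1
    rw [Polynomial.hom_eval₂, map_zero] at h2
    -- `θ` is a ring homomorphism
    have hι : Function.Injective (ι v) := (ι v).toRingHom.injective
    let θ' : R →+* kb :=
      { toFun := fun r => algebraMap k kb (θ r)
        map_one' := hι (by rw [← hθ, map_one, map_one, map_one])
        map_mul' := fun a b => hι (by rw [map_mul, ← hθ, ← hθ, ← hθ, map_mul, map_mul])
        map_zero' := hι (by rw [← hθ, map_zero, map_zero, map_zero])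
        map_add' := fun a b => hι (by rw [map_add, ← hθ, ← hθ, ← hθ, map_add, map_add]) }
    have h3 : (φ v).comp (algebraMap R (integralClosure R M)) = ((ι v : _ →+* _)).comp θ' := by
      ext r
      exact hθ v r
    rw [h3, ← Polynomial.eval₂_map] at h2
    obtain ⟨β, -, hβ⟩ := root_mem _ (hQm.map θ').ne_zero h2
    exact ⟨β, hβ⟩
  have hdesc : ∀ v, ∃ Ψ : integralClosure R M →+* kb, ∀ b, φ v b = ι v (Ψ b) := by
    intro v
    let _ : Algebra kb (AlgebraicClosure (v.1.adicCompletion k)) := (ι v).toRingHom.toAlgebra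
    obtain ⟨Ψ, hΨ⟩ := exists_descent (F := kb) (φ v) (hval v)
    exact ⟨Ψ, fun b => (hΨ b).symm⟩
  choose Ψ hΨ using hdesc
  have hΨk : ∀ v (a : kb), Ψ v ⟨algebraMap kb M a, hBk a⟩ = a := by
    intro v a
    apply (ι v).toRingHom.injective
    change ι v _ = ι v a
    rw [← hΨ]
    exact (hφ v).1 a _ rfl
  have hΨθ : ∀ v r, Ψ v (algebraMap R _ r) = algebraMap k kb (θ r) := by
    intro v r
    apply (ι v).toRingHom.injective
    change ι v _ = ι v _
    rw [← hΨ, hθ]
  obtain ⟨v₀', hv₀'⟩ := exists_notMem S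
  obtain ⟨v₀, hv₀⟩ : ∃ v₀ : {v : HeightOneSpectrum (𝓞 k) // v ∉ S}, v₀ = ⟨v₀', hv₀'⟩ := ⟨_, rfl⟩
  -- freeness
  have hfr0 : ∀ g ∈ N, (∀ b, Ψ v₀ (actHom R g b) = Ψ v₀ b) → g = 1 := by
    intro g hg h
    refine hun (Ψ v₀) (fun a b hb => ?_) g hg fun b b' hb => ?_
    · have : b = ⟨algebraMap kb M a, hBk a⟩ := Subtype.ext hb
      rw [this]; exact hΨk v₀ a
    · have : b' = actHom R g b := Subtype.ext hb
      rw [this]; exact h b
  have hfree' : ∀ g h : Gal(M/K), h * g⁻¹ ∈ N →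
      (∀ b, Ψ v₀ (actHom R h b) = Ψ v₀ (actHom R g b)) → h = g := by
    intro g h hm he
    have h1 := hfr0 (h * g⁻¹) hm (by
      intro b
      rw [actHom_mul, he, ← actHom_mul, mul_inv_cancel, actHom_one])
    exact mul_inv_eq_one.mp h1
  -- transitivity
  have htrans : ∀ Ψ' : integralClosure R M →+* kb, (∀ a : kb, Ψ' ⟨algebraMap kb M a, hBk a⟩ = a) →
      (∀ r, Ψ' (algebraMap R _ r) = algebraMap k kb (θ r)) →
      ∃ g ∈ N, ∀ b, Ψ' b = Ψ v₀ (actHom R g b) := by
    intro Ψ' h1 h2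
    obtain ⟨g, hg, hg'⟩ := points_trans hRn' hBk (Ψ v₀) Ψ' (hΨk v₀) h1 θ (hΨθ v₀) h2 hkR
    exact ⟨g, hg, hg'⟩
  choose a haN ha using fun v => htrans (Ψ v) (hΨk v) (hΨθ v)
  have ha0 : a v₀ = 1 := hfr0 _ (haN v₀) fun b => (ha v₀ b).symm
  -- the cocycle
  have hcex : ∀ σ : Gal(kb/k), ∃ g ∈ N, ∀ b, Ψ v₀ (actHom R (g * s σ) b) = σ (Ψ v₀ b) := by
    intro σ
    let Ψ' : integralClosure R M →+* kb :=
      ((σ : kb →+* kb).comp (Ψ v₀)).comp (actHom R (s σ)⁻¹)
    have hΨ' : ∀ b, Ψ' b = σ (Ψ v₀ (actHom R (s σ)⁻¹ b)) := fun b => rfl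
    obtain ⟨g, hg, hg'⟩ := htrans Ψ' (by
      intro a
      have h1 : actHom R (s σ)⁻¹ ⟨algebraMap kb M a, hBk a⟩ =
          ⟨algebraMap kb M (σ⁻¹ a), hBk _⟩ := by
        apply Subtype.ext
        change (s σ)⁻¹ (algebraMap kb M a) = _
        rw [← map_inv]; exact hsec σ⁻¹ a
      rw [hΨ', h1, hΨk]
      exact σ.apply_symm_apply a) (by
      intro r
      rw [hΨ', actHom_alg, hΨθ, AlgEquiv.commutes])
    refine ⟨g, hg, fun b => ?_⟩
    rw [actHom_mul, ← hg', hΨ', ← actHom_mul, inv_mul_cancel, actHom_one]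
  choose c₀ hc₀N hc₀ using hcex
  let c : Gal(kb/k) → N := fun σ => ⟨c₀ σ, hc₀N σ⟩
  have hNconj : ∀ (σ : Gal(kb/k)) (x : Gal(M/K)), x ∈ N → s σ * x * (s σ)⁻¹ ∈ N :=
    fun σ x hx => hNn.conj_mem x hx (s σ)
  have hcoc : ∀ σ τ, (c (σ * τ) : Gal(M/K)) = c σ * (s σ * c τ * (s σ)⁻¹) := by
    intro σ τ
    change c₀ (σ * τ) = c₀ σ * (s σ * c₀ τ * (s σ)⁻¹)
    have h1 : c₀ (σ * τ) * s (σ * τ) = c₀ σ * (s σ * c₀ τ * (s σ)⁻¹) * s (σ * τ) := by
      apply hfree'
      · have : c₀ (σ * τ) * s (σ * τ) * (c₀ σ * (s σ * c₀ τ * (s σ)⁻¹) * s (σ * τ))⁻¹ =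
            c₀ (σ * τ) * (c₀ σ * (s σ * c₀ τ * (s σ)⁻¹))⁻¹ := by group
        rw [this]
        exact mul_mem (hc₀N _) (inv_mem (mul_mem (hc₀N _) (hNconj _ _ (hc₀N _))))
      · intro b
        rw [hc₀]
        have : c₀ σ * (s σ * c₀ τ * (s σ)⁻¹) * s (σ * τ) = (c₀ σ * s σ) * (c₀ τ * s τ) := by
          rw [map_mul]; group
        rw [this, actHom_mul, hc₀, hc₀]
        rfl
    exact mul_right_cancel h1
  have hloc : ∀ v (σ : Gal(kb/k))
      (τ : Gal(AlgebraicClosure (v.1.adicCompletion k)/v.1.adicCompletion k)),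
      (∀ x, ι v (σ x) = τ (ι v x)) → (c₀ σ) * (s σ * a v * (s σ)⁻¹) = a v := by
    intro v σ τ hστ
    have h0 : ∀ b, Ψ v (actHom R (s σ) b) = σ (Ψ v b) := by
      intro b
      apply (ι v).toRingHom.injective
      change ι v _ = ι v _
      rw [hστ, ← hΨ, ← hΨ]
      exact (hφ v).2 σ τ hστ b _ rfl
    have h1 : c₀ σ * (s σ * a v * (s σ)⁻¹) * s σ = a v * s σ := by
      apply hfree'
      · have : c₀ σ * (s σ * a v * (s σ)⁻¹) * s σ * (a v * s σ)⁻¹ =
          c₀ σ * (s σ * a v * (s σ)⁻¹) * (a v)⁻¹ := by group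
        rw [this]
        exact mul_mem (mul_mem (hc₀N _) (hNconj _ _ (haN v))) (inv_mem (haN v))
      · intro b
        have : c₀ σ * (s σ * a v * (s σ)⁻¹) * s σ = (c₀ σ * s σ) * a v := by group
        rw [this, actHom_mul, hc₀, ← ha, ← h0, ha, ← actHom_mul]
    exact mul_right_cancel h1
  -- continuity of the cocycle
  have hNc : CompactSpace N := isCompact_iff_compactSpace.mp hNcl.isCompact
  have hc1 : c 1 = 1 := by
    have h1 := hcoc 1 1
    rw [mul_one, map_one] at h1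
    simp only [one_mul, inv_one, mul_one] at h1
    exact Subtype.ext (mul_eq_left.mp h1.symm)
  have hcont : ContinuousAt c 1 := by
    rw [ContinuousAt, hc1, Filter.tendsto_def]
    intro W hW
    obtain ⟨W', hW'W, hW'o, h1W'⟩ := mem_nhds_iff.mp hW
    have hK : IsCompact (W'ᶜ : Set N) := hW'o.isClosed_compl.isCompact
    let O : integralClosure R M → Set N := fun b => {g : N | Ψ v₀ (actHom R (g : Gal(M/K)) b) ≠ Ψ v₀ b}
    have hOo : ∀ b, IsOpen (O b) := by
      intro b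
      rw [isOpen_iff_mem_nhds]
      intro g hg
      have h1 : {g' : Gal(M/K) | g' (b : M) = (g : Gal(M/K)) b} ∈ nhds (g : Gal(M/K)) := by
        have h2 : IsOpen (MulAction.stabilizer Gal(M/K) (b : M) : Set Gal(M/K)) :=
          stabilizer_isOpen_of_isIntegral (K := K) _
        have h3 : Continuous fun g' : Gal(M/K) => (g : Gal(M/K))⁻¹ * g' := by fun_prop
        have h4 := (h2.preimage h3).mem_nhds (x := (g : Gal(M/K))) (by
          change (g : Gal(M/K))⁻¹ * g ∈ MulAction.stabilizer Gal(M/K) (b : M)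
          rw [inv_mul_cancel]; exact one_mem _)
        refine Filter.mem_of_superset h4 ?_
        intro g' hg'
        have h5 : ((g : Gal(M/K))⁻¹ * g') (b : M) = b := hg'
        rw [AlgEquiv.mul_apply] at h5
        have h6 := congrArg (g : Gal(M/K)) h5
        have h7 : (g : Gal(M/K)) ((g : Gal(M/K))⁻¹ (g' (b : M))) = g' b :=
          (g : Gal(M/K)).apply_symm_apply _
        rw [h7] at h6
        exact h6
      have h8 : (Subtype.val : N → Gal(M/K)) ⁻¹' {g' : Gal(M/K) | g' (b : M) = (g : Gal(M/K)) b} ∈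
          nhds g := continuous_subtype_val.continuousAt.preimage_mem_nhds h1
      refine Filter.mem_of_superset h8 ?_
      intro g' hg'
      have h9 : actHom R (g' : Gal(M/K)) b = actHom R (g : Gal(M/K)) b := Subtype.ext hg'
      change Ψ v₀ (actHom R (g' : Gal(M/K)) b) ≠ Ψ v₀ b
      rw [h9]; exact hg
    have hcover : (W'ᶜ : Set N) ⊆ ⋃ b, O b := by
      intro g hg
      rw [Set.mem_iUnion]
      by_contra hcon
      push Not at hcon
      apply hg
      have h1 := hfr0 g g.2 (fun b => by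
        have := hcon b
        simp only [O, Set.mem_setOf_eq, not_not, ne_eq] at this
        exact this)
      have h2 : g = 1 := Subtype.ext h1
      rw [h2]; exact h1W'
    obtain ⟨t, ht⟩ := hK.elim_finite_subcover O hOo hcover
    have h1 : ⋂ b ∈ t, ({σ : Gal(kb/k) | s σ (b : M) = b} ∩ {σ : Gal(kb/k) | σ (Ψ v₀ b) = Ψ v₀ b}) ∈
        nhds (1 : Gal(kb/k)) := by
      rw [Filter.biInter_finset_mem]
      intro b _
      exact Filter.inter_mem (nhds_s s hs (Algebra.IsAlgebraic.isAlgebraic (R := K) (b : M)).isIntegral)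
        (nhds_fix _)
    refine Filter.mem_of_superset h1 ?_
    intro σ hσ
    simp only [Set.mem_iInter] at hσ
    apply hW'W
    by_contra hcon
    have h2 := ht hcon
    simp only [Set.mem_iUnion] at h2
    obtain ⟨b, hb, hOb⟩ := h2
    obtain ⟨h3, h4⟩ := hσ b hb
    apply hOb
    have h5 : actHom R (c₀ σ) b = actHom R (c₀ σ * s σ) b := by
      rw [actHom_mul]
      congr 1
      exact Subtype.ext h3.symm
    change Ψ v₀ (actHom R (c₀ σ) b) = Ψ v₀ b
    rw [h5, hc₀]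
    exact h4
  -- the section of the point
  have hmulN : ∀ σ τ, c₀ (σ * τ) * s (σ * τ) = (c₀ σ * s σ) * (c₀ τ * s τ) := by
    intro σ τ
    have h1 : c₀ (σ * τ) = c₀ σ * (s σ * c₀ τ * (s σ)⁻¹) := hcoc σ τ
    rw [h1, map_mul]; group
  let s₀ : Gal(kb/k) →* Gal(M/K) := MonoidHom.mk' (fun σ => c₀ σ * s σ) hmulN
  have hs₀ : ∀ σ, s₀ σ = c₀ σ * s σ := fun σ => rfl
  have hs₀k : ∀ σ (a : kb), s₀ σ (algebraMap kb M a) = algebraMap kb M (σ a) := by
    intro σ a
    rw [hs₀, AlgEquiv.mul_apply, hsec]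
    exact hc₀N σ (σ a)
  have hs₀c : Continuous s₀ := by
    apply continuous_of_continuousAt_one
    have h1 : ContinuousAt (fun σ => (c σ : Gal(M/K))) 1 :=
      continuous_subtype_val.continuousAt.comp hcont
    exact h1.mul hs.continuousAt
  have hs₀Ψ : ∀ σ b, Ψ v₀ (actHom R (s₀ σ) b) = σ (Ψ v₀ b) := fun σ b => hc₀ σ b
  have hsN : ∀ σ, s₀ σ * (s σ)⁻¹ ∈ N := by
    intro σ
    rw [hs₀, mul_inv_cancel_right]
    exact hc₀N σ
  -- agreement up to conjugation with the section `s`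
  have hlocv : ∀ v (σ : Gal(kb/k))
      (τ : Gal(AlgebraicClosure (v.1.adicCompletion k)/v.1.adicCompletion k)),
      (∀ x, ι v (σ x) = τ (ι v x)) → s σ = (a v)⁻¹ * s₀ σ * a v := by
    intro v σ τ h
    have h1 := hloc v σ τ h
    have h2 : s₀ σ * a v = a v * s σ := by
      rw [hs₀]
      nth_rewrite 2 [← h1]
      group
    rw [mul_assoc, h2, inv_mul_cancel_left]
  have hpt : ∀ σ, ∃ n ∈ N, s σ = n * s₀ σ * n⁻¹ := by
    intro σ
    refine exists_conj_of_approx N hNcl _ _ fun U hUn hUo => ?_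
    have hU1 : (s ⁻¹' (U : Set Gal(M/K))) ∩ (s₀ ⁻¹' (U : Set Gal(M/K))) ∈
        nhds (1 : Gal(kb/k)) := by
      refine Filter.inter_mem ?_ ?_
      · exact (hUo.preimage hs).mem_nhds (by
          change s 1 ∈ U
          rw [map_one]; exact one_mem U)
      · exact (hUo.preimage hs₀c).mem_nhds (by
          change s₀ 1 ∈ U
          rw [map_one]; exact one_mem U)
    obtain ⟨L, hL, hLU⟩ := (krullTopology_mem_nhds_one_iff k kb _).mp hU1
    obtain ⟨v, hv, hcheb⟩ := cheb S L σ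
    obtain ⟨g, σ', hσ', τ, hτ⟩ := hcheb (ι ⟨v, hv⟩)
    have h1 := hlocv ⟨v, hv⟩ _ τ hτ
    set A := a ⟨v, hv⟩ with hA
    have hAN : A ∈ N := haN ⟨v, hv⟩
    have hδ : σ⁻¹ * σ' ∈ L.fixingSubgroup := by
      rw [IntermediateField.mem_fixingSubgroup_iff]
      intro x hx
      rw [AlgEquiv.mul_apply, hσ' x hx]
      exact σ.symm_apply_apply x
    obtain ⟨hδ1, hδ2⟩ := hLU hδ
    change s (σ⁻¹ * σ') ∈ U at hδ1
    change s₀ (σ⁻¹ * σ') ∈ U at hδ2
    refine ⟨(s g)⁻¹ * A⁻¹ * s₀ g, ?_, ?_⟩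
    · have e : (s g)⁻¹ * A⁻¹ * s₀ g = ((s g)⁻¹ * A⁻¹ * (s₀ g * (s g)⁻¹) * (s g)) := by group
      rw [e]
      have h2 : A⁻¹ * (s₀ g * (s g)⁻¹) ∈ N := mul_mem (inv_mem hAN) (hsN g)
      have h3 := hNn.conj_mem _ h2 (s g)⁻¹
      rw [inv_inv] at h3
      rwa [mul_assoc (s g)⁻¹]
    · set n := (s g)⁻¹ * A⁻¹ * s₀ g with hn
      have h2 : s σ' = n * s₀ σ' * n⁻¹ := by
        have h3 : s g * s σ' * (s g)⁻¹ = A⁻¹ * (s₀ g * s₀ σ' * (s₀ g)⁻¹) * A := by
          rw [← map_inv, ← map_inv, ← map_mul, ← map_mul, ← map_mul, ← map_mul]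
          exact h1
        have h4 : s σ' = (s g)⁻¹ * (s g * s σ' * (s g)⁻¹) * s g := by group
        rw [h4, h3, hn]
        group
      have h5 : (s σ)⁻¹ * (n * s₀ σ * n⁻¹) = s (σ⁻¹ * σ') * (n * (s₀ (σ⁻¹ * σ'))⁻¹ * n⁻¹) := by
        have h6 : s (σ⁻¹ * σ') = (s σ)⁻¹ * (n * s₀ σ' * n⁻¹) := by
          rw [map_mul, map_inv, h2]
        rw [h6, map_mul, map_inv]
        group
      rw [h5]
      exact U.mul_mem hδ1 (hUn.conj_mem _ (inv_mem hδ2) n)
  -- the group theoretic theorem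
  obtain ⟨⟨n, hnN, hn⟩, hcent⟩ := G_main N hNcl s s₀ hpt hfree (by
    intro H H' hHn hH'n hHN hH'H hH'o L hL hH'L
    obtain ⟨γ, hγ⟩ := W_main t ht H H' hHN hH'H hH'o L hL hH'L
    exact ⟨γ, hγ (s₀ γ) (hs₀k γ)⟩)
  have hΨs : ∀ σ b, Ψ v₀ (actHom R n⁻¹ (actHom R (s σ) b)) = σ (Ψ v₀ (actHom R n⁻¹ b)) := by
    intro σ b
    rw [← hs₀Ψ, ← actHom_mul, ← actHom_mul, hn σ]
    congr 2
    group
  refine ⟨(Ψ v₀).comp (actHom R n⁻¹), ⟨fun x b hb => ?_, fun σ τ hστ b b' hb => ?_⟩,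
    fun r => ?_, fun Ψ' hΨ' hΨ'θ => ?_⟩
  · have h1 : actHom R n⁻¹ b = ⟨algebraMap kb M x, hBk x⟩ := by
      apply Subtype.ext
      change n⁻¹ (b : M) = algebraMap kb M x
      rw [hb]
      exact (inv_mem hnN : n⁻¹ ∈ N) x
    rw [RingHom.comp_apply, h1]
    exact hΨk v₀ x
  · have h1 : τ = σ := by
      ext x; exact (hστ x).symm
    have h2 : b' = actHom R (s σ) b := Subtype.ext hb
    rw [h1, h2]
    exact hΨs σ b
  · rw [RingHom.comp_apply, actHom_alg, hΨθ]
  · -- uniqueness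
    obtain ⟨g, hg, hg'⟩ := htrans Ψ' (fun a => hΨ'.1 a _ rfl) hΨ'θ
    have hΨ's : ∀ σ b, Ψ' (actHom R (s σ) b) = σ (Ψ' b) := fun σ b =>
      hΨ'.2 σ σ (fun x => rfl) b _ rfl
    have hcomm : ∀ σ, g * s σ = s₀ σ * g := by
      intro σ
      apply hfree'
      · have h1 : g * s σ * (s₀ σ * g)⁻¹ = g * (s₀ σ * g * (s σ)⁻¹)⁻¹ := by group
        have h2 : s₀ σ * g * (s σ)⁻¹ = (s₀ σ * (s σ)⁻¹) * (s σ * g * (s σ)⁻¹) := by group
        rw [h1, h2]
        exact mul_mem hg (inv_mem (mul_mem (hsN σ) (hNconj _ _ hg)))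
      · intro b
        rw [actHom_mul, ← hg', hΨ's, actHom_mul, hs₀Ψ, ← hg']
    have hz := hcent (g * n) (mul_mem hg hnN) (by
      intro σ
      have h1 := hcomm σ
      rw [hn σ] at h1
      have h2 : g * n * s₀ σ = (g * (n * s₀ σ * n⁻¹)) * n := by group
      rw [h2, h1]
      group)
    have h5 : g = n⁻¹ := mul_eq_one_iff_eq_inv.mp hz
    ext b
    rw [hg', h5]
    rfl

end Pool.Agent.Lib.MP_2f3286_ag.Full
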