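import Mathlib
import Pool.Agent.Lib.MP_2f3286_ag.Full.GMain

/-!
# Sections which are pointwise conjugate to one of finitely many sections
-/

open Matrix

namespace Pool.Agent.Lib.MP_2f3286_ag.Full

section step

variable {G Γ : Type*} [Group G] [TopologicalSpace G] [IsTopologicalGroup G] [CompactSpace G]
  [T2Space G] [TotallyDisconnectedSpace G] [Group Γ]

/-- the subgroup on which `s` and `s'` agree modulo `H`, acting trivially on `N / H` -/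
theorem exists_agree (N H : Subgroup G) [N.Normal] [H.Normal]
    (hQ : Finite (N.map (QuotientGroup.mk' H))) (s s' : Γ →* G)
    (hmod : ∀ σ, s σ * (s' σ)⁻¹ ∈ N) :
    ∃ Δ : Subgroup Γ, Δ.FiniteIndex ∧ Δ.Normal ∧ ∀ γ ∈ Δ, ∀ n ∈ N, n⁻¹ * s γ * n * (s' γ)⁻¹ ∈ H := by
  let π := QuotientGroup.mk' H
  let Q := N.map π
  have hQn : Q.Normal := Subgroup.Normal.map ‹N.Normal› _ (QuotientGroup.mk'_surjective H)
  have hmem : ∀ (γ : Γ) (q : Q), π (s γ) * q * (π (s' γ))⁻¹ ∈ Q := by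
    intro γ q
    have h1 : π (s γ) * q * (π (s' γ))⁻¹ = (π (s γ) * q * (π (s γ))⁻¹) * π (s γ * (s' γ)⁻¹) := by
      rw [map_mul, map_inv]; group
    rw [h1]
    exact mul_mem (hQn.conj_mem _ q.2 _) ⟨_, hmod γ, rfl⟩
  let act : MulAction Γ Q :=
    { smul := fun γ q => ⟨π (s γ) * q * (π (s' γ))⁻¹, hmem γ q⟩
      one_smul := fun q => Subtype.ext (by
        change π (s 1) * q * (π (s' 1))⁻¹ = q
        simp only [map_one, one_mul, inv_one, mul_one])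
      mul_smul := fun γ δ q => Subtype.ext (by
        change π (s (γ * δ)) * q * (π (s' (γ * δ)))⁻¹ =
          π (s γ) * (π (s δ) * q * (π (s' δ))⁻¹) * (π (s' γ))⁻¹
        rw [map_mul, map_mul, map_mul, map_mul]; group) }
  have hPf : Finite (Equiv.Perm Q) := by
    have := hQ
    infer_instance
  refine ⟨(MulAction.toPermHom Γ Q).ker, Subgroup.finiteIndex_ker _, MonoidHom.normal_ker _, ?_⟩
  intro γ hγ n hn
  have h1 : (MulAction.toPermHom Γ Q γ) ⟨π n, n, hn, rfl⟩ = ⟨π n, n, hn, rfl⟩ := by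
    rw [MonoidHom.mem_ker.mp hγ]; rfl
  have h2 : π (s γ) * π n * (π (s' γ))⁻¹ = π n := congrArg Subtype.val h1
  rw [← QuotientGroup.eq_one_iff (N := H)]
  change π (n⁻¹ * s γ * n * (s' γ)⁻¹) = 1
  rw [map_mul, map_mul, map_mul, map_inv, map_inv]
  have h3 : (π n)⁻¹ * π (s γ) * π n * (π (s' γ))⁻¹ =
    (π n)⁻¹ * (π (s γ) * π n * (π (s' γ))⁻¹) := by group
  rw [h3, h2, inv_mul_cancel]

theorem G_step_alt (N : Subgroup G) [N.Normal]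
    (hN : IsClosed (N : Set G)) {I : Type*} [Finite I] (s : Γ →* G) (s' : I → Γ →* G)
    (hmod : ∀ i σ, s σ * (s' i σ)⁻¹ ∈ N) (hloc : ∀ σ, ∃ i, ∃ n ∈ N, s σ = n * s' i σ * n⁻¹)
    (hfin : ∀ A ≤ N, OpenIn N A → ∀ (ℓ : ℕ) [Fact ℓ.Prime],
      Finite (A →ₜ* Multiplicative (ZMod ℓ)) ∧
      ∀ f : A →ₜ* Multiplicative (ZMod ℓ), ∃ F : A →ₜ* Multiplicative ℤ_[ℓ], ∀ a,
        PadicInt.toZMod (F a).toAdd = (f a).toAdd)
    (hW : ∀ (H H' : Subgroup G) [H.Normal] [H'.Normal], H ≤ N → H' ≤ H → OpenIn N H' →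
      ∀ L : Finset ℕ, (∀ ℓ ∈ L, ℓ.Prime) →
      (∀ (ℓ : ℕ) [Fact ℓ.Prime], ℓ ∈ L → ∀ f : H →ₜ* Multiplicative (ZMod ℓ), ∀ h : H,
        (h : G) ∈ H' → f h = 1) →
      ∃ γ : Γ, ∀ (ℓ : ℕ) [Fact ℓ.Prime], ℓ ∈ L → ∀ j, 1 ≤ j →
        ∀ χ : H →ₜ* Multiplicative ℤ_[ℓ],
          (∀ h, χ (MulAut.conjNormal (s γ ^ j) h) = χ h) → ∀ h, χ h = 1)
    (H : Subgroup G) [H.Normal] (hHN : H ≤ N) (hHo : OpenIn N H) :
    ∃ i, ∃ n ∈ N, ∀ σ, s σ * (n * s' i σ * n⁻¹)⁻¹ ∈ H := by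
  classical
  have hHcl := hHo.isClosed hN hHN
  have hHc : CompactSpace H := isCompact_iff_compactSpace.mp hHcl.isCompact
  have hQfin : Finite (N.map (QuotientGroup.mk' H)) := hHo.finite hN
  set Q := N.map (QuotientGroup.mk' H) with hQ
  let L : Finset ℕ := (Nat.card Q).primeFactors
  have hL : ∀ ℓ ∈ L, ℓ.Prime := fun ℓ h => Nat.prime_of_mem_primeFactors h
  have hF : ∀ i : L, Fact (i : ℕ).Prime := fun i => ⟨hL i i.2⟩
  have hfinH : ∀ i : L, Finite (H →ₜ* Multiplicative (ZMod i)) := fun i => (hfin H hHN hHo i).1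
  let K : Subgroup H := ⨅ i : L, ⨅ f : H →ₜ* Multiplicative (ZMod i), f.toMonoidHom.ker
  have hKmem : ∀ x : H, x ∈ K ↔ ∀ (i : L) (f : H →ₜ* Multiplicative (ZMod i)), f x = 1 := by
    intro x
    simp only [K, Subgroup.mem_iInf]
    rfl
  have hK : IsOpen (K : Set H) := by
    have h1 : (K : Set H) = ⋂ i : L, ⋂ f : H →ₜ* Multiplicative (ZMod i), {x | f x = 1} := by
      ext x
      simp only [Set.mem_iInter]
      exact hKmem x
    rw [h1]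
    refine isOpen_iInter_of_finite fun i => isOpen_iInter_of_finite fun f => ?_
    exact (isOpen_discrete ({1} : Set (Multiplicative (ZMod i)))).preimage f.continuous_toFun
  have hKn : (K.map H.subtype).Normal := by
    refine ⟨?_⟩
    rintro _ ⟨x, hx, rfl⟩ g
    refine ⟨MulAut.conjNormal g x, ?_, MulAut.conjNormal_apply g x⟩
    have hx' := (hKmem x).mp hx
    refine (hKmem _).mpr fun i f => ?_
    exact hx' i (f.comp (⟨MulEquiv.toMonoidHom (MulAut.conjNormal g), continuous_conjNormal H g⟩ :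
      H →ₜ* H))
  obtain ⟨γ₀, hγ₀⟩ := hW H (K.map H.subtype) hHN (by
    rintro _ ⟨x, -, rfl⟩; exact x.2) (openIn_kers hHo K hK) L hL (by
    intro ℓ _ hℓ f h hh
    obtain ⟨x, hx, hxh⟩ := hh
    have h1 : x = h := Subtype.ext hxh
    rw [← h1]
    exact (hKmem x).mp hx ⟨ℓ, hℓ⟩ f)
  choose d e A he1 he2 he3 he4 he5 using fun i : L => char_rep H (i : ℕ) (hfinH i)
  have hgood : ∀ j, 1 ≤ j → ∀ i v, (A i (s γ₀ ^ j)).mulVec v = v → v = 0 := fun j hj i v =>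
    he5 i _ (fun χ hχ => hγ₀ i i.2 j hj χ hχ) v
  have hcm : ∀ {g x : G}, x ∈ H → g * x * g⁻¹ ∈ H := fun {g x} hx =>
    ‹H.Normal›.conj_mem x hx g
  have hconj : ∀ i g x (hx : x ∈ H), e i ⟨g * x * g⁻¹, hcm hx⟩ = (A i g).mulVec (e i ⟨x, hx⟩) := by
    intro i g x hx
    have h1 : (⟨g * x * g⁻¹, hcm hx⟩ : H) = MulAut.conjNormal g ⟨x, hx⟩ :=
      Subtype.ext (MulAut.conjNormal_apply g (⟨x, hx⟩ : H)).symm
    rw [h1, he3]
  have he0 : ∀ i, e i 1 = 0 := by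
    intro i
    have h1 := he2 i 1 1
    rw [mul_one, left_eq_add] at h1
    exact h1
  have heinv : ∀ i x (hx : x ∈ H), e i ⟨x⁻¹, inv_mem hx⟩ = - e i ⟨x, hx⟩ := by
    intro i x hx
    have h1 := he2 i ⟨x, hx⟩ ⟨x⁻¹, inv_mem hx⟩
    have h2 : (⟨x, hx⟩ : H) * ⟨x⁻¹, inv_mem hx⟩ = 1 := Subtype.ext (mul_inv_cancel x)
    rw [h2, he0] at h1
    exact (neg_eq_of_add_eq_zero_right h1.symm).symm
  set Φ := commonKer H e he2 with hΦ
  have hΦH : Φ ≤ H := fun x hx => hx.1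
  have hΦn : Φ.Normal := by
    refine ⟨?_⟩
    rintro x ⟨hx, hx'⟩ g
    refine ⟨hcm hx, fun i => ?_⟩
    rw [hconj i g x hx, hx', mulVec_zero]
  let π := QuotientGroup.mk' Φ
  have hπ : ∀ x, π x = 1 ↔ x ∈ Φ := fun x => by
    rw [QuotientGroup.mk'_apply, QuotientGroup.eq_one_iff]
  -- elements of `H` commuting with the good element
  have hcentH : ∀ g : G, (∀ i v, (A i g).mulVec v = v → v = 0) → ∀ w, w ∈ H →
      π g * π w = π w * π g → w ∈ Φ := by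
    intro g hg w hw hcomm
    refine ⟨hw, fun i => ?_⟩
    have h1 : (g * w * g⁻¹) * w⁻¹ ∈ Φ := by
      rw [← hπ, map_mul, map_mul, map_mul, hcomm, map_inv, map_inv]; group
    obtain ⟨h2, h3⟩ := h1
    have h4 := h3 i
    have h5 := he2 i ⟨g * w * g⁻¹, hcm hw⟩ ⟨w⁻¹, inv_mem hw⟩
    have h7 := hconj i g w hw
    have h6 : (⟨g * w * g⁻¹, hcm hw⟩ : H) * ⟨w⁻¹, inv_mem hw⟩ =
      ⟨(g * w * g⁻¹) * w⁻¹, h2⟩ := rfl
    rw [h6, h4, h7, heinv i w hw] at h5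
    refine hg i _ ?_
    exact (sub_eq_zero.mp (by rw [sub_eq_add_neg]; exact h5.symm))
  have hcent : ∀ g : G, (∀ i v, (A i g).mulVec v = v → v = 0) → ∀ z ∈ N,
      π g * π z = π z * π g → z ∈ Φ := by
    intro g hg z hz hcomm
    by_cases hzH : z ∈ H
    · exact hcentH g hg z hzH hcomm
    exfalso
    let zb : Q := ⟨QuotientGroup.mk' H z, z, hz, rfl⟩
    have hzb : ∀ m : ℕ, zb ^ m = 1 ↔ z ^ m ∈ H := by
      intro m
      rw [← QuotientGroup.eq_one_iff (N := H), Subtype.ext_iff]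
      exact Iff.rfl
    have hmd := orderOf_dvd_natCard zb
    have hm1 : orderOf zb ≠ 1 := by
      intro h
      apply hzH
      have h1 := (hzb 1).mp (by rw [pow_one]; exact orderOf_eq_one_iff.mp h)
      rwa [pow_one] at h1
    have hm0 : 0 < orderOf zb := orderOf_pos zb
    set m := orderOf zb with hm
    have hp : (m.minFac).Prime := Nat.minFac_prime hm1
    have hpF : Fact (m.minFac).Prime := ⟨hp⟩
    have hpL : m.minFac ∈ L := by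
      rw [Nat.mem_primeFactors]
      exact ⟨hp, (Nat.minFac_dvd m).trans hmd, Nat.card_pos.ne'⟩
    obtain ⟨m', hm'⟩ := Nat.minFac_dvd m
    have hz1H : z ^ m' ∉ H := by
      intro h
      have h1 := orderOf_dvd_of_pow_eq_one ((hzb m').mpr h)
      rw [← hm] at h1
      have h2 : 0 < m' := by
        rcases Nat.eq_zero_or_pos m' with h | h
        · rw [h, mul_zero] at hm'; omega
        · exact h
      have h3 := Nat.le_of_dvd h2 h1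
      have h4 := hp.two_le
      nlinarith
    have hz1p : (z ^ m') ^ m.minFac ∈ H := by
      rw [← pow_mul, mul_comm m' _, ← hm', ← hzb]
      exact pow_orderOf_eq_one zb
    have hz1Φ : (z ^ m') ^ m.minFac ∈ Φ := by
      apply hcentH g hg _ hz1p
      have h1 : Commute (π g) (π z) := hcomm
      have h2 := (h1.pow_right m').pow_right m.minFac
      have h3 : π ((z ^ m') ^ m.minFac) = (π z ^ m') ^ m.minFac := by
        rw [map_pow, map_pow]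
      rw [h3]
      exact h2
    obtain ⟨h3, h4⟩ := hz1Φ
    exact lift_contra N H hHN hHo m.minFac (fun B hB hBo => (hfin B hB hBo m.minFac).2) (z ^ m')
      (pow_mem hz m') hz1H h3 (fun χ => he4 ⟨m.minFac, hpL⟩ χ _ (h4 _))
  -- the subgroup on which all the sections agree modulo `H`
  choose Δ₀ hΔ₀f hΔ₀n hΔ₀ using fun i : I => exists_agree N H hQfin s (s' i) (hmod i)
  let D : Subgroup Γ := ⨅ i, Δ₀ i
  have hDf : D.FiniteIndex := Subgroup.finiteIndex_iInf hΔ₀f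
  have hDn : D.Normal := Subgroup.normal_iInf_normal hΔ₀n
  have hDmem : ∀ {γ : Γ}, γ ∈ D → ∀ i, γ ∈ Δ₀ i := fun h i => (Subgroup.mem_iInf.mp h) i
  choose r hrN hr using fun q : Q => q.2
  have hxmem : ∀ (q : I × Q) (γ : D), (r q.2)⁻¹ * s γ * r q.2 * (s' q.1 γ)⁻¹ ∈ H := fun q γ =>
    hΔ₀ q.1 γ (hDmem γ.2 q.1) _ (hrN q.2)
  have hag : ∀ (i : I) (γ : Γ), γ ∈ D → s γ * (s' i γ)⁻¹ ∈ H := by
    intro i γ hγ
    have h1 := hΔ₀ i γ (hDmem hγ i) 1 (one_mem N)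
    rwa [inv_one, one_mul, mul_one] at h1
  have hadd3 : ∀ i (a y : H), e i (a * y * a⁻¹) = e i y := by
    intro i a y
    rw [he2, he2]
    have h1 := heinv i (a : G) a.2
    have h2 : (⟨(a : G)⁻¹, inv_mem a.2⟩ : H) = a⁻¹ := rfl
    rw [h2] at h1
    rw [h1]
    change e i a + e i y + - e i a = e i y
    abel
  have hconj' : ∀ i (j : I) (γ : Γ) (hγ : γ ∈ D) x (hx : x ∈ H),
      e i ⟨s' j γ * x * (s' j γ)⁻¹, hcm hx⟩ = (A i (s γ)).mulVec (e i ⟨x, hx⟩) := by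
    intro i j γ hγ x hx
    rw [← hconj i (s γ) x hx]
    have h1 := hadd3 i ⟨_, hag j γ hγ⟩ ⟨s' j γ * x * (s' j γ)⁻¹, hcm hx⟩
    rw [← h1]
    congr 1
    apply Subtype.ext
    change (s γ * (s' j γ)⁻¹) * (s' j γ * x * (s' j γ)⁻¹) * (s γ * (s' j γ)⁻¹)⁻¹ =
      s γ * x * (s γ)⁻¹
    group
  -- the cocycles
  let x : I × Q → D → G := fun q γ => (r q.2)⁻¹ * s γ * r q.2 * (s' q.1 γ)⁻¹
  have hx : ∀ q γ, x q γ ∈ H := hxmem
  obtain ⟨j₀, hj₀, -, hj₀m⟩ := Subgroup.exists_pow_mem_of_index_ne_zero hDf.index_ne_zero γ₀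
  obtain ⟨Δ, hΔf, ⟨i₁, q⟩, u, hu, hΔ⟩ := E_main (ι := L) (Q := I × Q) (Γ := D) (fun i => (i : ℕ))
    (fun i i' h => Subtype.ext h) d (fun i => (A i).comp (s.comp D.subtype))
    (fun q γ i => e i ⟨x q γ, hx q γ⟩) (by
      intro q γ δ i
      have h1 : (⟨x q (γ * δ), hx q (γ * δ)⟩ : H) =
          ⟨x q γ, hx q γ⟩ * ⟨s' q.1 γ * x q δ * (s' q.1 γ)⁻¹, hcm (hx q δ)⟩ := by
        apply Subtype.ext
        change (r q.2)⁻¹ * s (γ * δ) * r q.2 * (s' q.1 (γ * δ))⁻¹ =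
          ((r q.2)⁻¹ * s γ * r q.2 * (s' q.1 γ)⁻¹) *
            (s' q.1 γ * ((r q.2)⁻¹ * s δ * r q.2 * (s' q.1 δ)⁻¹) * (s' q.1 γ)⁻¹)
        rw [map_mul, map_mul]
        group
      rw [h1, he2, hconj' i q.1 γ γ.2 _ (hx q δ)]
      rfl)
    (Set.range fun h : H => fun i => - e i h)
    (isCompact_range (continuous_pi fun i => (he1 i).neg)) (by
      intro γ
      obtain ⟨i₀, m, hm, hsm⟩ := hloc γ
      let q : Q := ⟨QuotientGroup.mk' H m, m, hm, rfl⟩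
      have hq : (r q)⁻¹ * m ∈ H := by
        rw [← QuotientGroup.eq_one_iff (N := H)]
        change QuotientGroup.mk' H ((r q)⁻¹ * m) = 1
        rw [map_mul, map_inv, hr]
        exact inv_mul_cancel _
      refine ⟨(i₀, q), _, ⟨⟨(r q)⁻¹ * m, hq⟩, rfl⟩, fun i => ?_⟩
      have h1 : (⟨x (i₀, q) γ, hx (i₀, q) γ⟩ : H) = ⟨(r q)⁻¹ * m, hq⟩ *
          ⟨s' i₀ γ * ((r q)⁻¹ * m)⁻¹ * (s' i₀ γ)⁻¹, hcm (inv_mem hq)⟩ := by
        apply Subtype.ext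
        change (r q)⁻¹ * s γ * r q * (s' i₀ γ)⁻¹ = ((r q)⁻¹ * m) *
          (s' i₀ γ * ((r q)⁻¹ * m)⁻¹ * (s' i₀ γ)⁻¹)
        rw [hsm]
        group
      rw [h1, he2, hconj' i i₀ γ γ.2 _ (inv_mem hq), heinv i _ hq, sub_neg_eq_add, add_comm]
      rfl)
    ⟨γ₀ ^ j₀, hj₀m⟩ (by
      intro j hj i v hv
      refine hgood (j₀ * j) (Nat.mul_pos hj₀ hj) i v ?_
      have h1 : s γ₀ ^ (j₀ * j) = s ((γ₀ ^ j₀) ^ j) := by
        rw [map_pow, map_pow, pow_mul]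
      rw [h1]
      exact hv)
  obtain ⟨h0, rfl⟩ := hu
  set n' : G := r q * h0 with hn'
  have hn'N : n' ∈ N := mul_mem (hrN q) (hHN h0.2)
  have hΔ' : ∀ γ : D, γ ∈ Δ → π (s γ) = π (n' * s' i₁ γ * n'⁻¹) := by
    intro γ hγ
    have h1 : (h0 : G)⁻¹ * x (i₁, q) γ * (s' i₁ γ * h0 * (s' i₁ γ)⁻¹) ∈ Φ := by
      refine ⟨mul_mem (mul_mem (inv_mem h0.2) (hx (i₁, q) γ)) (hcm h0.2), fun i => ?_⟩
      have h2 : (⟨(h0 : G)⁻¹ * x (i₁, q) γ * (s' i₁ γ * h0 * (s' i₁ γ)⁻¹),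
          mul_mem (mul_mem (inv_mem h0.2) (hx (i₁, q) γ)) (hcm h0.2)⟩ : H) =
          ⟨(h0 : G)⁻¹, inv_mem h0.2⟩ * ⟨x (i₁, q) γ, hx (i₁, q) γ⟩ *
            ⟨s' i₁ γ * h0 * (s' i₁ γ)⁻¹, hcm h0.2⟩ := rfl
      rw [h2, he2, he2, hconj' i i₁ γ γ.2 _ h0.2, heinv i _ h0.2]
      have h3 := hΔ γ hγ i
      simp only at h3
      rw [h3]
      have h4 : ((A i).comp (s.comp D.subtype)) γ = A i (s γ) := rfl
      rw [h4, mulVec_neg]
      have h5 : (⟨(h0 : G), h0.2⟩ : H) = h0 := rfl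
      rw [h5]
      abel
    have h6 := hΦn.conj_mem _ h1 n'
    rw [← mul_inv_eq_one, ← map_inv, ← map_mul, hπ]
    convert h6 using 1
    change _ = n' * ((h0 : G)⁻¹ * ((r q)⁻¹ * s γ * r q * (s' i₁ γ)⁻¹) *
      (s' i₁ γ * h0 * (s' i₁ γ)⁻¹)) * n'⁻¹
    rw [hn']
    group
  refine ⟨i₁, n', hn'N, fun σ => hΦH ?_⟩
  rw [← hπ, map_mul, map_inv, mul_inv_eq_one]
  obtain ⟨a₁, ha₁, -, ha₁m⟩ := Subgroup.exists_pow_mem_of_index_ne_zero hΔf.index_ne_zero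
    (⟨γ₀ ^ j₀, hj₀m⟩ : D)
  obtain ⟨b₁, hb₁, -, hb₁m⟩ := Subgroup.exists_pow_mem_of_index_ne_zero hΔf.index_ne_zero
    (⟨σ * γ₀ ^ j₀ * σ⁻¹, hDn.conj_mem _ hj₀m σ⟩ : D)
  set J := j₀ * (a₁ * b₁) with hJ
  have hE1 : π (s (γ₀ ^ J)) = π (n' * s' i₁ (γ₀ ^ J) * n'⁻¹) := by
    have h1 := hΔ' _ (pow_mem ha₁m b₁)
    have h2 : (((⟨γ₀ ^ j₀, hj₀m⟩ : D) ^ a₁) ^ b₁ : D).1 = γ₀ ^ J := by
      change ((γ₀ ^ j₀) ^ a₁) ^ b₁ = γ₀ ^ J
      rw [hJ, ← pow_mul, ← pow_mul]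
    rw [h2] at h1
    exact h1
  have hE2 : π (s (σ * γ₀ ^ J * σ⁻¹)) = π (n' * s' i₁ (σ * γ₀ ^ J * σ⁻¹) * n'⁻¹) := by
    have h1 := hΔ' _ (pow_mem hb₁m a₁)
    have h2 : (((⟨σ * γ₀ ^ j₀ * σ⁻¹, hDn.conj_mem _ hj₀m σ⟩ : D) ^ b₁) ^ a₁ :
        D).1 = σ * γ₀ ^ J * σ⁻¹ := by
      change ((σ * γ₀ ^ j₀ * σ⁻¹) ^ b₁) ^ a₁ = σ * γ₀ ^ J * σ⁻¹
      rw [conj_pow, conj_pow, hJ, ← pow_mul, ← pow_mul, mul_comm a₁ b₁]
    rw [h2] at h1
    exact h1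
  have hJ1 : 1 ≤ J := Nat.mul_pos hj₀ (Nat.mul_pos ha₁ hb₁)
  set z := (s' i₁ σ)⁻¹ * n'⁻¹ * s σ * n' with hz
  have hzN : z ∈ N := by
    have h1 : z = ((s' i₁ σ)⁻¹ * (n'⁻¹ * (s σ * (s' i₁ σ)⁻¹)) * ((s' i₁ σ)⁻¹)⁻¹) * n' := by
      rw [hz]; group
    rw [h1]
    exact mul_mem (‹N.Normal›.conj_mem _ (mul_mem (inv_mem hn'N) (hmod i₁ σ)) _) hn'N
  have hzΦ : z ∈ Φ := by
    have hJD : γ₀ ^ J ∈ D := by
      rw [hJ, pow_mul]
      exact pow_mem hj₀m _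
    refine hcent (s' i₁ (γ₀ ^ J)) (fun i v hv => he5 i _ (fun χ hχ => ?_) v hv) z hzN ?_
    · refine hγ₀ i i.2 J hJ1 χ fun h => ?_
      rw [← hχ h]
      have h1 : MulAut.conjNormal (s γ₀ ^ J) h = (⟨_, hag i₁ _ hJD⟩ : H) *
          MulAut.conjNormal (s' i₁ (γ₀ ^ J)) h * (⟨_, hag i₁ _ hJD⟩ : H)⁻¹ := by
        apply Subtype.ext
        change ((MulAut.conjNormal (s γ₀ ^ J) h : H) : G) = (s (γ₀ ^ J) * (s' i₁ (γ₀ ^ J))⁻¹) *
          ((MulAut.conjNormal (s' i₁ (γ₀ ^ J)) h : H) : G) * (s (γ₀ ^ J) * (s' i₁ (γ₀ ^ J))⁻¹)⁻¹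
        rw [MulAut.conjNormal_apply, MulAut.conjNormal_apply, map_pow]
        group
      rw [h1, map_mul, map_mul, map_inv, mul_comm (χ _) (χ (MulAut.conjNormal _ h)),
        mul_inv_cancel_right]
    have h1 : π (s σ) * π (s (γ₀ ^ J)) * (π (s σ))⁻¹ = π (s (σ * γ₀ ^ J * σ⁻¹)) := by
      rw [map_mul s, map_mul s, map_inv s, map_mul π, map_mul π, map_inv π]
    rw [hE1, hE2, map_mul (s' i₁), map_mul (s' i₁), map_inv (s' i₁)] at h1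
    simp only [map_mul, map_inv] at h1
    rw [hz]
    simp only [map_mul, map_inv]
    have h2 : π (s σ) * (π n' * π (s' i₁ (γ₀ ^ J)) * (π n')⁻¹) =
      π n' * (π (s' i₁ σ) * π (s' i₁ (γ₀ ^ J)) * (π (s' i₁ σ))⁻¹) * (π n')⁻¹ * π (s σ) := by
      rw [← h1]; group
    have h3 : (π (s' i₁ σ))⁻¹ * (π n')⁻¹ * π (s σ) * π n' * π (s' i₁ (γ₀ ^ J)) =
      (π (s' i₁ σ))⁻¹ * (π n')⁻¹ * (π (s σ) * (π n' * π (s' i₁ (γ₀ ^ J)) * (π n')⁻¹)) * π n' := by group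
    rw [h3, h2]
    group
  have h4 := (hπ z).mpr hzΦ
  rw [hz] at h4
  simp only [map_mul, map_inv] at h4 ⊢
  have h5 : π (s σ) = π n' * π (s' i₁ σ) * ((π (s' i₁ σ))⁻¹ * (π n')⁻¹ * π (s σ) * π n') * (π n')⁻¹ := by
    group
  rw [h5, h4]
  group

theorem G_main_alt (N : Subgroup G) [N.Normal]
    (hN : IsClosed (N : Set G)) {I : Type*} [Finite I] (s : Γ →* G) (s' : I → Γ →* G)
    (hmod : ∀ i σ, s σ * (s' i σ)⁻¹ ∈ N) (hloc : ∀ σ, ∃ i, ∃ n ∈ N, s σ = n * s' i σ * n⁻¹)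
    (hfin : ∀ A ≤ N, OpenIn N A → ∀ (ℓ : ℕ) [Fact ℓ.Prime],
      Finite (A →ₜ* Multiplicative (ZMod ℓ)) ∧
      ∀ f : A →ₜ* Multiplicative (ZMod ℓ), ∃ F : A →ₜ* Multiplicative ℤ_[ℓ], ∀ a,
        PadicInt.toZMod (F a).toAdd = (f a).toAdd)
    (hW : ∀ (H H' : Subgroup G) [H.Normal] [H'.Normal], H ≤ N → H' ≤ H → OpenIn N H' →
      ∀ L : Finset ℕ, (∀ ℓ ∈ L, ℓ.Prime) →
      (∀ (ℓ : ℕ) [Fact ℓ.Prime], ℓ ∈ L → ∀ f : H →ₜ* Multiplicative (ZMod ℓ), ∀ h : H,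
        (h : G) ∈ H' → f h = 1) →
      ∃ γ : Γ, ∀ (ℓ : ℕ) [Fact ℓ.Prime], ℓ ∈ L → ∀ j, 1 ≤ j →
        ∀ χ : H →ₜ* Multiplicative ℤ_[ℓ],
          (∀ h, χ (MulAut.conjNormal (s γ ^ j) h) = χ h) → ∀ h, χ h = 1) :
    ∃ i, ∃ n ∈ N, ∀ σ, s σ = n * s' i σ * n⁻¹ := by
  classical
  have hstep := G_step_alt N hN s s' hmod hloc hfin hW
  have hHN : ∀ O : OpenNormalSubgroup G, O.toSubgroup ⊓ N ≤ N := fun O => inf_le_right
  have hHo : ∀ O : OpenNormalSubgroup G, OpenIn N (O.toSubgroup ⊓ N) := fun O =>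
    ⟨O.toSubgroup, O.isOpen', le_rfl⟩
  have hHn : ∀ O : OpenNormalSubgroup G, (O.toSubgroup ⊓ N).Normal := fun O => inferInstance
  have hone : ∀ x : G, (∀ O : OpenNormalSubgroup G, x ∈ O.toSubgroup ⊓ N) → x = 1 := by
    intro x hx
    by_contra hne
    obtain ⟨O, hO⟩ := ProfiniteGrp.exist_openNormalSubgroup_sub_open_nhds_of_one
      (isOpen_compl_singleton (x := x)) (by
        rw [Set.mem_compl_iff, Set.mem_singleton_iff]
        exact fun h => hne h.symm)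
    exact hO (hx O).1 rfl
  let : TopologicalSpace I := ⊥
  have : DiscreteTopology I := ⟨rfl⟩
  let t : OpenNormalSubgroup G → Set (I × G) := fun O =>
    {p | p.2 ∈ N ∧ ∀ σ, s σ * (p.2 * s' p.1 σ * p.2⁻¹)⁻¹ ∈ O.toSubgroup ⊓ N}
  have hcl : ∀ O, IsClosed (t O) := by
    intro O
    have h1 : t O = ((Prod.snd : I × G → G) ⁻¹' (N : Set G)) ∩
        ⋂ σ, (fun p : I × G => s σ * (p.2 * s' p.1 σ * p.2⁻¹)⁻¹) ⁻¹'
        ((O.toSubgroup ⊓ N : Subgroup G) : Set G) := by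
      ext n
      simp only [t, Set.mem_setOf_eq, Set.mem_inter_iff, Set.mem_iInter, Set.mem_preimage,
        SetLike.mem_coe]
    rw [h1]
    refine (hN.preimage continuous_snd).inter (isClosed_iInter fun σ => ?_)
    have hc : Continuous fun p : I × G => s' p.1 σ :=
      (continuous_of_discreteTopology (f := fun i : I => s' i σ)).comp continuous_fst
    refine IsClosed.preimage (by fun_prop) ?_
    exact (Subgroup.isClosed_of_isOpen _ O.isOpen').inter hN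
  have hdir : Directed (fun x1 x2 => x1 ⊇ x2) t := by
    intro O₁ O₂
    refine ⟨O₁ ⊓ O₂, ?_, ?_⟩
    · rintro n ⟨hn, hn'⟩
      exact ⟨hn, fun σ => ⟨(hn' σ).1.1, (hn' σ).2⟩⟩
    · rintro n ⟨hn, hn'⟩
      exact ⟨hn, fun σ => ⟨(hn' σ).1.2, (hn' σ).2⟩⟩
  have hne : Nonempty (OpenNormalSubgroup G) := by
    obtain ⟨O, -⟩ := ProfiniteGrp.exist_openNormalSubgroup_sub_open_nhds_of_one
      (isOpen_univ (X := G)) (Set.mem_univ _)
    exact ⟨O⟩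
  obtain ⟨⟨i, n⟩, hn⟩ := IsCompact.nonempty_iInter_of_directed_nonempty_isCompact_isClosed t hdir
    (fun O => by
      obtain ⟨i, n, hn, hn'⟩ := hstep _ (hHN O) (hHo O)
      exact ⟨(i, n), hn, hn'⟩) (fun O => (hcl O).isCompact) hcl
  rw [Set.mem_iInter] at hn
  obtain ⟨O⟩ := hne
  refine ⟨i, n, (hn O).1, fun σ => ?_⟩
  have h1 := hone _ fun O => (hn O).2 σ
  rwa [mul_inv_eq_one] at h1

end step

end Pool.Agent.Lib.MP_2f3286_ag.Full
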