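import Pool.Agent.Lib.MP_2f3286_ag.Full.Gauss
import Pool.Agent.Lib.MP_2f3286_ag.Full.ValExt

/-!
# Fixed fields of open subgroups of the geometric Galois group
-/

open Polynomial IntermediateField
open scoped Pointwise

namespace Pool.Agent.Lib.MP_2f3286_ag.Full

/-! ### Part A : topology -/

theorem OpenIn.isClosed_of_le {G : Type*} [Group G] [TopologicalSpace G] [IsTopologicalGroup G]
    {N A : Subgroup G} (h : OpenIn N A) (hAN : A ≤ N) (hN : IsClosed (N : Set G)) :
    IsClosed (A : Set G) := by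
  obtain ⟨O, hO, hON⟩ := h
  rw [← closure_subset_iff_isClosed]
  intro x hx
  have hxN : x ∈ N := by
    have h1 : closure (A : Set G) ⊆ N := closure_minimal (fun a ha => hAN ha) hN
    exact h1 hx
  have h2 : IsOpen ((fun y => x⁻¹ * y) ⁻¹' (O : Set G)) :=
    hO.preimage (continuous_const.mul continuous_id)
  obtain ⟨a, ha1, ha2⟩ := mem_closure_iff.mp hx _ h2
    (by simp only [Set.mem_preimage, inv_mul_cancel, SetLike.mem_coe]; exact O.one_mem)
  have h3 : x⁻¹ * a ∈ A := hON ⟨ha1, N.mul_mem (N.inv_mem hxN) (hAN ha2)⟩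
  have h4 : a * (x⁻¹ * a)⁻¹ ∈ A := A.mul_mem ha2 (A.inv_mem h3)
  have h5 : a * (x⁻¹ * a)⁻¹ = x := by group
  rw [h5] at h4
  exact h4

theorem isOpen_stab {K M : Type*} [Field K] [Field M] [Algebra K M] [Algebra.IsIntegral K M]
    (y : M) : IsOpen {g : Gal(M/K) | g y = y} :=
  stabilizer_isOpen_of_isIntegral (K := K) (L := M) y

theorem isClosed_stab {K M : Type*} [Field K] [Field M] [Algebra K M] [Algebra.IsIntegral K M]
    (y : M) : IsClosed {g : Gal(M/K) | g y = y} :=
  (MulAction.stabilizer Gal(M/K) y).isClosed_of_isOpen (isOpen_stab y)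

theorem isClosed_geomGroup (K M kb : Type*) [Field K] [Field M] [Field kb] [Algebra K M]
    [Algebra kb M] [Algebra.IsIntegral K M] : IsClosed (geomGroup K M kb : Set Gal(M/K)) := by
  have h1 : (geomGroup K M kb : Set Gal(M/K)) =
      ⋂ a : kb, {g : Gal(M/K) | g (algebraMap kb M a) = algebraMap kb M a} := by
    ext g
    simp only [Set.mem_iInter]
    exact Iff.rfl
  rw [h1]
  exact isClosed_iInter fun a => isClosed_stab _

/-! ### Part B : fields -/

section

variable {k K M kb : Type*} [Field k] [Field K] [Field M] [Field kb] [Algebra k kb] [Algebra k K]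
  [Algebra K M] [Algebra kb M] [Algebra k M] [IsScalarTower k K M] [IsScalarTower k kb M]

theorem adjoin_t_mem (t : K) (x : K) (hx : x ∈ adjoin k {t}) :
    algebraMap K M x ∈ adjoin kb {algebraMap K M t} := by
  obtain ⟨r, s, rfl⟩ := (IntermediateField.mem_adjoin_simple_iff k x).mp hx
  have h2 : ∀ p : k[X], algebraMap K M (aeval t p) =
      aeval (algebraMap K M t) (p.map (algebraMap k kb)) := by
    intro p
    rw [aeval_map_algebraMap, aeval_algebraMap_apply]
  rw [map_div₀, h2, h2]
  exact (IntermediateField.mem_adjoin_simple_iff kb _).mpr ⟨_, _, rfl⟩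

/-- elements of `K` are algebraic over `kb(t)` -/
theorem isAlgebraic_of_K (t : K) [FiniteDimensional (adjoin k {t}) K] (x : K) :
    IsAlgebraic (adjoin kb {algebraMap K M t}) (algebraMap K M x) := by
  have h1 : IsAlgebraic (adjoin k {t}) x := Algebra.IsAlgebraic.isAlgebraic x
  obtain ⟨p, hp0, hp⟩ := h1
  let f : adjoin k {t} →+* adjoin kb {algebraMap K M t} :=
    { toFun := fun y => ⟨algebraMap K M y, adjoin_t_mem t y y.2⟩
      map_one' := Subtype.ext (by simp)
      map_mul' := fun a b => Subtype.ext (by simp)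
      map_zero' := Subtype.ext (by simp)
      map_add' := fun a b => Subtype.ext (by simp) }
  refine ⟨p.map f, (Polynomial.map_ne_zero_iff f.injective).mpr hp0, ?_⟩
  rw [aeval_def, eval₂_map]
  have h2 : (algebraMap (adjoin kb {algebraMap K M t}) M).comp f =
      (algebraMap K M).comp (algebraMap (adjoin k {t}) K) := RingHom.ext fun y => rfl
  rw [h2, ← hom_eval₂, ← aeval_def, hp, map_zero]

/-- `M` is algebraic over `kb(t)` -/
theorem isAlgebraic_M [Algebra.IsAlgebraic K M] (t : K) [FiniteDimensional (adjoin k {t}) K]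
    (x : M) : IsAlgebraic (adjoin kb {algebraMap K M t}) x := by
  set F₀ := adjoin kb {algebraMap K M t} with hF₀
  let A := algebraicClosure F₀ M
  have hK : ∀ y : K, algebraMap K M y ∈ A := fun y =>
    mem_algebraicClosure_iff.mpr (isAlgebraic_of_K (k := k) t y)
  let f : K →+* A :=
    { toFun := fun y => ⟨algebraMap K M y, hK y⟩
      map_one' := Subtype.ext (by simp)
      map_mul' := fun a b => Subtype.ext (by simp)
      map_zero' := Subtype.ext (by simp)
      map_add' := fun a b => Subtype.ext (by simp) }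
  have h1 : IsAlgebraic A x := by
    obtain ⟨p, hp0, hp⟩ := Algebra.IsAlgebraic.isAlgebraic (R := K) x
    refine ⟨p.map f, (Polynomial.map_ne_zero_iff f.injective).mpr hp0, ?_⟩
    rw [aeval_def, eval₂_map]
    have h2 : (algebraMap A M).comp f = algebraMap K M := RingHom.ext fun y => rfl
    rw [h2, ← aeval_def, hp]
  exact IsAlgebraic.restrictScalars F₀ h1

theorem exists_fd [IsGalois K M] (t : K) [FiniteDimensional (adjoin k {t}) K]
    (H' : Subgroup Gal(M/K)) (ho : OpenIn (geomGroup K M kb) H') :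
    ∃ E : IntermediateField (adjoin kb {algebraMap K M t}) M,
      FiniteDimensional (adjoin kb {algebraMap K M t}) E ∧
      ∀ x : M, (∀ h ∈ H', h x = x) → x ∈ E := by
  obtain ⟨O, hO, hON⟩ := ho
  obtain ⟨K₁, hK₁, hK₁O⟩ := (krullTopology_mem_nhds_one_iff K M (O : Set Gal(M/K))).mp
    (hO.mem_nhds O.one_mem)
  set F₀ := adjoin kb {algebraMap K M t} with hF₀
  obtain ⟨s, hs⟩ := (inferInstance : FiniteDimensional (adjoin k {t}) K)
  obtain ⟨s₁, hs₁⟩ := (inferInstance : FiniteDimensional K K₁)
  let S : Set M := (algebraMap K M '' s) ∪ ((fun x : K₁ => (x : M)) '' s₁)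
  have hSf : Finite S := by
    apply Set.Finite.to_subtype
    exact (s.finite_toSet.image _).union (s₁.finite_toSet.image _)
  let E := adjoin F₀ S
  have hE : FiniteDimensional F₀ E := finiteDimensional_adjoin fun x _ =>
    (isAlgebraic_M (k := k) t x).isIntegral
  have hKE : ∀ y : K, algebraMap K M y ∈ E := by
    intro y
    have hy : y ∈ Submodule.span (adjoin k {t}) (s : Set K) := by rw [hs]; trivial
    induction hy using Submodule.span_induction with
    | mem x hx => exact subset_adjoin F₀ S (Or.inl ⟨x, hx, rfl⟩)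
    | zero => rw [map_zero]; exact E.zero_mem
    | add a b _ _ ha hb => rw [map_add]; exact E.add_mem ha hb
    | smul a b _ hb =>
      rw [Algebra.smul_def, map_mul]
      refine E.mul_mem ?_ hb
      exact E.algebraMap_mem (⟨_, adjoin_t_mem t (a : K) a.2⟩ : F₀)
  have hK₁E : ∀ y ∈ K₁, y ∈ E := by
    intro y hyK
    have hy : (⟨y, hyK⟩ : K₁) ∈ Submodule.span K (s₁ : Set K₁) := by rw [hs₁]; trivial
    have h3 : ∀ z : K₁, z ∈ Submodule.span K (s₁ : Set K₁) → (z : M) ∈ E := by
      intro z hz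
      induction hz using Submodule.span_induction with
      | mem x hx => exact subset_adjoin F₀ S (Or.inr ⟨x, hx, rfl⟩)
      | zero => exact E.zero_mem
      | add a b _ _ ha hb => exact E.add_mem ha hb
      | smul a b _ hb =>
        rw [Algebra.smul_def]
        exact E.mul_mem (hKE a) hb
    exact h3 _ hy
  refine ⟨E, hE, fun x hx => ?_⟩
  let E' : IntermediateField K M := E.toSubfield.toIntermediateField hKE
  have h1 : x ∈ IntermediateField.fixedField E'.fixingSubgroup := by
    rw [IntermediateField.mem_fixedField_iff]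
    intro g hg
    rw [IntermediateField.mem_fixingSubgroup_iff] at hg
    apply hx
    apply hON
    refine ⟨hK₁O ?_, fun a => ?_⟩
    · rw [SetLike.mem_coe, IntermediateField.mem_fixingSubgroup_iff]
      intro y hy
      exact hg y (hK₁E y hy)
    · apply hg
      have h4 : algebraMap kb M a ∈ F₀ := F₀.algebraMap_mem a
      exact E.algebraMap_mem (⟨_, h4⟩ : F₀)
  rw [InfiniteGalois.fixedField_fixingSubgroup] at h1
  exact h1

end

/-! ### Part C : passing to an intermediate field -/

section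

variable {kb M : Type*} [Field kb] [Field M] [Algebra kb M] (E : IntermediateField kb M)

theorem lift_adjoin (t : E) (a : M) (ha : a ∈ adjoin kb {(t : M)}) :
    ∃ a' ∈ adjoin kb {t}, (a' : M) = a := by
  obtain ⟨r, s, rfl⟩ := (IntermediateField.mem_adjoin_simple_iff kb a).mp ha
  refine ⟨aeval t r / aeval t s, (IntermediateField.mem_adjoin_simple_iff kb _).mpr
    ⟨r, s, rfl⟩, ?_⟩
  have h2 : ∀ p : kb[X], ((aeval t p : E) : M) = aeval (t : M) p := by
    intro p
    exact (aeval_algebraMap_apply M t p).symm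
  rw [← h2, ← h2]
  rfl

theorem adjoin_coe_mem (t : E) (a : E) (ha : a ∈ adjoin kb {t}) :
    (a : M) ∈ adjoin kb {(t : M)} := by
  obtain ⟨r, s, rfl⟩ := (IntermediateField.mem_adjoin_simple_iff kb a).mp ha
  refine (IntermediateField.mem_adjoin_simple_iff kb _).mpr ⟨r, s, ?_⟩
  have h2 : ∀ p : kb[X], ((aeval t p : E) : M) = aeval (t : M) p := by
    intro p
    exact (aeval_algebraMap_apply M t p).symm
  rw [← h2, ← h2]
  rfl

theorem transcendental_coe (t : E) (h : Transcendental kb (t : M)) : Transcendental kb t := by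
  intro h1
  exact h (h1.algebraMap (A := M))

theorem isAlgebraic_coe (t : E) (x : E) (hx : IsAlgebraic (adjoin kb {(t : M)}) (x : M)) :
    IsAlgebraic (adjoin kb {t}) x := by
  let f : adjoin kb {t} →+* adjoin kb {(t : M)} :=
    { toFun := fun y => ⟨(y : E), adjoin_coe_mem E t y y.2⟩
      map_one' := Subtype.ext (by simp)
      map_mul' := fun a b => Subtype.ext (by simp)
      map_zero' := Subtype.ext (by simp)
      map_add' := fun a b => Subtype.ext (by simp) }
  have hf : Function.Surjective f := by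
    rintro ⟨a, ha⟩
    obtain ⟨a', ha', rfl⟩ := lift_adjoin E t a ha
    exact ⟨⟨a', ha'⟩, rfl⟩
  exact IsAlgebraic.of_ringHom_of_comp_eq f (algebraMap E M) hx hf (algebraMap E M).injective rfl

theorem exists_finset_span (t : E) (E₁ : IntermediateField (adjoin kb {(t : M)}) M)
    [FiniteDimensional (adjoin kb {(t : M)}) E₁] (P : Set E)
    (hP0 : (0 : E) ∈ P) (hPa : ∀ a ∈ P, ∀ b ∈ P, a + b ∈ P)
    (hPs : ∀ a ∈ adjoin kb {t}, ∀ b ∈ P, a * b ∈ P) (hPE : ∀ x ∈ P, (x : M) ∈ E₁) :
    ∃ s : Finset E, ∀ x ∈ P, x ∈ Submodule.span (adjoin kb {t}) (s : Set E) := by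
  let Q : Submodule (adjoin kb {(t : M)}) E₁ :=
    { carrier := {y | ∃ x ∈ P, (x : M) = y}
      zero_mem' := ⟨0, hP0, rfl⟩
      add_mem' := by
        rintro a b ⟨x, hx, hxa⟩ ⟨y, hy, hyb⟩
        exact ⟨x + y, hPa x hx y hy, by push_cast; rw [hxa, hyb]⟩
      smul_mem' := by
        rintro c a ⟨x, hx, hxa⟩
        obtain ⟨c', hc', hcc⟩ := lift_adjoin E t c c.2
        refine ⟨c' * x, hPs c' hc' x hx, ?_⟩
        push_cast
        rw [hcc, hxa, Algebra.smul_def]
        rfl }
  have hQ : Module.Finite (adjoin kb {(t : M)}) Q := inferInstance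
  obtain ⟨s, hs⟩ := hQ
  have h1 : ∀ y : Q, ∃ x ∈ P, (x : M) = ((y : E₁) : M) := fun y => y.2
  choose g hgP hg using h1
  classical
  refine ⟨s.image g, fun x hx => ?_⟩
  have h2 : ∀ y : Q, y ∈ Submodule.span (adjoin kb {(t : M)}) (s : Set Q) →
      ∃ x' ∈ Submodule.span (adjoin kb {t}) ((s.image g : Finset E) : Set E),
        (x' : M) = ((y : E₁) : M) := by
    intro y hy
    induction hy using Submodule.span_induction with
    | mem y hy => exact ⟨g y, Submodule.subset_span (by
        rw [Finset.coe_image]; exact ⟨y, hy, rfl⟩), hg y⟩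
    | zero => exact ⟨0, Submodule.zero_mem _, rfl⟩
    | add a b _ _ ha hb =>
      obtain ⟨x, hx, hxa⟩ := ha
      obtain ⟨y, hy, hyb⟩ := hb
      exact ⟨x + y, Submodule.add_mem _ hx hy, by push_cast; rw [hxa, hyb]⟩
    | smul c a _ ha =>
      obtain ⟨x, hx, hxa⟩ := ha
      obtain ⟨c', hc', hcc⟩ := lift_adjoin E t c c.2
      refine ⟨(⟨c', hc'⟩ : adjoin kb {t}) • x, Submodule.smul_mem _ _ hx, ?_⟩
      rw [Algebra.smul_def]
      push_cast
      rw [hxa]
      change (c' : M) * _ = _
      rw [hcc, Algebra.smul_def]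
      rfl
  obtain ⟨x', hx', hxx⟩ := h2 ⟨⟨(x : M), hPE x hx⟩, x, hx, rfl⟩ (by rw [hs]; trivial)
  have h3 : x' = x := Subtype.ext hxx
  rwa [← h3]

theorem finiteDimensional_coe (t : E) (E₁ : IntermediateField (adjoin kb {(t : M)}) M)
    [FiniteDimensional (adjoin kb {(t : M)}) E₁] (hE : ∀ x ∈ E, x ∈ E₁) :
    FiniteDimensional (adjoin kb {t}) E := by
  obtain ⟨s, hs⟩ := exists_finset_span E t E₁ Set.univ trivial (fun _ _ _ _ => trivial)
    (fun _ _ _ _ => trivial) (fun x _ => hE x x.2)
  exact ⟨s, by rw [eq_top_iff]; exact fun x _ => hs x trivial⟩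

end

end Pool.Agent.Lib.MP_2f3286_ag.Full
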