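import Mathlib
import Pool.Agent.Lib.MP_2f3286_ag.Val
import Pool.Agent.Lib.MP_2f3286_ag.Full.PointsTwo
import Pool.Agent.Lib.MP_2f3286_ag.Full.WField

/-!
# The section of a point on the stabiliser of its image
-/

open Polynomial IntermediateField
open scoped Pointwise

namespace Pool.Agent.Lib.MP_2f3286_ag.Full

theorem geomGroup_normal (k : Type*) {K M kb : Type*} [Field K] [Field M] [Algebra K M]
    [Field k] [Field kb] [Algebra k kb] [Algebra.IsAlgebraic k kb] [IsAlgClosed kb]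
    [Algebra kb M] [Algebra k M] [Algebra k K] [IsScalarTower k K M] [IsScalarTower k kb M] :
    (geomGroup K M kb).Normal := by
  refine ⟨fun n hn g => ?_⟩
  rw [mem_geomGroup] at hn ⊢
  intro a
  obtain ⟨a', ha'⟩ := exists_apply_alg k g⁻¹ a
  rw [AlgEquiv.mul_apply, AlgEquiv.mul_apply, ha', hn, ← ha']
  exact g.apply_symm_apply _

section

variable {k kb K M : Type*} [Field k] [Field kb] [Algebra k kb] [IsGalois k kb] [IsAlgClosed kb]
  [Field K] [Field M] [Algebra k K] [Algebra K M] [IsGalois K M] [Algebra kb M] [Algebra k M]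
  [IsScalarTower k K M] [IsScalarTower k kb M] {R : Subalgebra k K}

theorem free_of_free (Ψ : integralClosure R M →+* kb)
    (hfr : ∀ g ∈ geomGroup K M kb, (∀ b, Ψ (actHom R g b) = Ψ b) → g = 1)
    (g h : Gal(M/K)) (hm : h * g⁻¹ ∈ geomGroup K M kb)
    (he : ∀ b, Ψ (actHom R h b) = Ψ (actHom R g b)) : h = g := by
  have h1 := hfr (h * g⁻¹) hm (by
    intro b
    rw [actHom_mul, he, ← actHom_mul, mul_inv_cancel, actHom_one])
  exact mul_inv_eq_one.mp h1

/-- The section of a point, on a group fixing its values on `R`. -/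
theorem exists_point_section (hRn : ∀ x : K, IsIntegral R x → x ∈ R)
    (hBk : ∀ a : kb, IsIntegral R (algebraMap kb M a))
    (s : Gal(kb/k) →* Gal(M/K)) (hs : Continuous s)
    (hsec : ∀ σ a, s σ (algebraMap kb M a) = algebraMap kb M (σ a))
    (Γ : Subgroup Gal(kb/k)) (Ψ : integralClosure R M →+* kb)
    (hΨ : ∀ a : kb, Ψ ⟨algebraMap kb M a, hBk a⟩ = a)
    (hfr : ∀ g ∈ geomGroup K M kb, (∀ b, Ψ (actHom R g b) = Ψ b) → g = 1)
    (hΓ : ∀ σ ∈ Γ, ∀ r : R, σ (Ψ (algebraMap R _ r)) = Ψ (algebraMap R _ r)) :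
    ∃ s' : Γ →* Gal(M/K), Continuous s' ∧ (∀ σ : Γ, s' σ * (s σ)⁻¹ ∈ geomGroup K M kb) ∧
      ∀ (σ : Γ) b, Ψ (actHom R (s' σ) b) = (σ : Gal(kb/k)) (Ψ b) := by
  classical
  set N := geomGroup K M kb with hN
  have hNn : N.Normal := geomGroup_normal k
  have hNcl : IsClosed (N : Set Gal(M/K)) := isClosed_geomGroup K M kb
  have hRn' : ∀ x : K, IsIntegral R x → ∃ r : R, algebraMap R K r = x :=
    fun x hx => ⟨⟨x, hRn x hx⟩, rfl⟩
  have hkR : ∀ a : k, ∃ r : R, algebraMap R M r = algebraMap k M a := by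
    intro a
    exact ⟨algebraMap k R a, by rw [← IsScalarTower.algebraMap_apply]⟩
  have hfree' : ∀ g h : Gal(M/K), h * g⁻¹ ∈ N →
      (∀ b, Ψ (actHom R h b) = Ψ (actHom R g b)) → h = g := free_of_free Ψ hfr
  -- the cocycle
  have hcex : ∀ σ : Γ, ∃ g ∈ N, ∀ b, Ψ (actHom R (g * s σ) b) = (σ : Gal(kb/k)) (Ψ b) := by
    intro σ
    let Ψ' : integralClosure R M →+* kb :=
      (((σ : Gal(kb/k)) : kb →+* kb).comp Ψ).comp (actHom R (s σ)⁻¹)
    have hΨ' : ∀ b, Ψ' b = (σ : Gal(kb/k)) (Ψ (actHom R (s σ)⁻¹ b)) := fun b => rfl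
    obtain ⟨g, hg, hg'⟩ := points_trans' hRn' hBk Ψ Ψ' hΨ (by
      intro a
      have h1 : actHom R (s σ)⁻¹ ⟨algebraMap kb M a, hBk a⟩ =
          ⟨algebraMap kb M ((σ : Gal(kb/k))⁻¹ a), hBk _⟩ := by
        apply Subtype.ext
        change (s σ)⁻¹ (algebraMap kb M a) = _
        rw [← map_inv]; exact hsec (σ : Gal(kb/k))⁻¹ a
      rw [hΨ', h1, hΨ]
      exact (σ : Gal(kb/k)).apply_symm_apply a) (by
      intro r
      rw [hΨ', actHom_alg, hΓ σ σ.2]) hkR
    refine ⟨g, hg, fun b => ?_⟩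
    rw [actHom_mul, ← hg', hΨ', ← actHom_mul, inv_mul_cancel, actHom_one]
  choose c₀ hc₀N hc₀ using hcex
  let c : Γ → N := fun σ => ⟨c₀ σ, hc₀N σ⟩
  have hNconj : ∀ (σ : Gal(kb/k)) (x : Gal(M/K)), x ∈ N → s σ * x * (s σ)⁻¹ ∈ N :=
    fun σ x hx => hNn.conj_mem x hx (s σ)
  have hcoc : ∀ σ τ, (c (σ * τ) : Gal(M/K)) = c σ * (s σ * c τ * (s σ)⁻¹) := by
    intro σ τ
    change c₀ (σ * τ) = c₀ σ * (s σ * c₀ τ * (s σ)⁻¹)
    have h1 : c₀ (σ * τ) * s (σ * τ : Γ) = c₀ σ * (s σ * c₀ τ * (s σ)⁻¹) * s (σ * τ : Γ) := by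
      apply hfree'
      · have : c₀ (σ * τ) * s (σ * τ : Γ) * (c₀ σ * (s σ * c₀ τ * (s σ)⁻¹) * s (σ * τ : Γ))⁻¹ =
            c₀ (σ * τ) * (c₀ σ * (s σ * c₀ τ * (s σ)⁻¹))⁻¹ := by group
        rw [this]
        exact mul_mem (hc₀N _) (inv_mem (mul_mem (hc₀N _) (hNconj _ _ (hc₀N _))))
      · intro b
        rw [hc₀]
        have : c₀ σ * (s σ * c₀ τ * (s σ)⁻¹) * s (σ * τ : Γ) = (c₀ σ * s σ) * (c₀ τ * s τ) := by
          rw [Subgroup.coe_mul, map_mul]; group
        rw [this, actHom_mul, hc₀, hc₀]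
        rfl
    exact mul_right_cancel h1
  -- continuity of the cocycle
  have hNc : CompactSpace N := isCompact_iff_compactSpace.mp hNcl.isCompact
  have hc1 : c 1 = 1 := by
    have h1 := hcoc 1 1
    rw [mul_one, Subgroup.coe_one, map_one] at h1
    simp only [one_mul, inv_one, mul_one] at h1
    exact Subtype.ext (mul_eq_left.mp h1.symm)
  have hcont : ContinuousAt c 1 := by
    rw [ContinuousAt, hc1, Filter.tendsto_def]
    intro W hW
    obtain ⟨W', hW'W, hW'o, h1W'⟩ := mem_nhds_iff.mp hW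
    have hK : IsCompact (W'ᶜ : Set N) := hW'o.isClosed_compl.isCompact
    let O : integralClosure R M → Set N := fun b => {g : N | Ψ (actHom R (g : Gal(M/K)) b) ≠ Ψ b}
    have hOo : ∀ b, IsOpen (O b) := by
      intro b
      rw [isOpen_iff_mem_nhds]
      intro g hg
      have h1 : {g' : Gal(M/K) | g' (b : M) = (g : Gal(M/K)) b} ∈ nhds (g : Gal(M/K)) := by
        have h2 : IsOpen (MulAction.stabilizer Gal(M/K) (b : M) : Set Gal(M/K)) :=
          stabilizer_isOpen_of_isIntegral (K := K) _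
        have h3 : Continuous fun g' : Gal(M/K) => (g : Gal(M/K))⁻¹ * g' := by fun_prop
        have h4 := (h2.preimage h3).mem_nhds (x := (g : Gal(M/K))) (by
          change (g : Gal(M/K))⁻¹ * g ∈ MulAction.stabilizer Gal(M/K) (b : M)
          rw [inv_mul_cancel]; exact one_mem _)
        refine Filter.mem_of_superset h4 ?_
        intro g' hg'
        have h5 : ((g : Gal(M/K))⁻¹ * g') (b : M) = b := hg'
        rw [AlgEquiv.mul_apply] at h5
        have h6 := congrArg (g : Gal(M/K)) h5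
        have h7 : (g : Gal(M/K)) ((g : Gal(M/K))⁻¹ (g' (b : M))) = g' b :=
          (g : Gal(M/K)).apply_symm_apply _
        rw [h7] at h6
        exact h6
      have h8 : (Subtype.val : N → Gal(M/K)) ⁻¹' {g' : Gal(M/K) | g' (b : M) = (g : Gal(M/K)) b} ∈
          nhds g := continuous_subtype_val.continuousAt.preimage_mem_nhds h1
      refine Filter.mem_of_superset h8 ?_
      intro g' hg'
      have h9 : actHom R (g' : Gal(M/K)) b = actHom R (g : Gal(M/K)) b := Subtype.ext hg'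
      change Ψ (actHom R (g' : Gal(M/K)) b) ≠ Ψ b
      rw [h9]; exact hg
    have hcover : (W'ᶜ : Set N) ⊆ ⋃ b, O b := by
      intro g hg
      rw [Set.mem_iUnion]
      by_contra hcon
      push Not at hcon
      apply hg
      have h1 := hfr g g.2 (fun b => by
        have := hcon b
        simp only [O, Set.mem_setOf_eq, not_not, ne_eq] at this
        exact this)
      have h2 : g = 1 := Subtype.ext h1
      rw [h2]; exact h1W'
    obtain ⟨t, ht⟩ := hK.elim_finite_subcover O hOo hcover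
    have h1 : ⋂ b ∈ t, ({σ : Gal(kb/k) | s σ (b : M) = b} ∩ {σ : Gal(kb/k) | σ (Ψ b) = Ψ b}) ∈
        nhds (1 : Gal(kb/k)) := by
      rw [Filter.biInter_finset_mem]
      intro b _
      exact Filter.inter_mem (nhds_s s hs (Algebra.IsAlgebraic.isAlgebraic (R := K) (b : M)).isIntegral)
        (nhds_fix _)
    have h1' : (Subtype.val : Γ → Gal(kb/k)) ⁻¹' (⋂ b ∈ t, ({σ : Gal(kb/k) | s σ (b : M) = b} ∩
        {σ : Gal(kb/k) | σ (Ψ b) = Ψ b})) ∈ nhds (1 : Γ) :=
      continuous_subtype_val.continuousAt.preimage_mem_nhds h1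
    refine Filter.mem_of_superset h1' ?_
    intro σ hσ
    simp only [Set.mem_iInter, Set.mem_preimage] at hσ
    apply hW'W
    by_contra hcon
    have h2 := ht hcon
    simp only [Set.mem_iUnion] at h2
    obtain ⟨b, hb, hOb⟩ := h2
    obtain ⟨h3, h4⟩ := hσ b hb
    apply hOb
    have h5 : actHom R (c₀ σ) b = actHom R (c₀ σ * s σ) b := by
      rw [actHom_mul]
      congr 1
      exact Subtype.ext h3.symm
    change Ψ (actHom R (c₀ σ) b) = Ψ b
    rw [h5, hc₀]
    exact h4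
  -- the section of the point
  have hmulN : ∀ σ τ : Γ, c₀ (σ * τ) * s (σ * τ : Γ) = (c₀ σ * s σ) * (c₀ τ * s τ) := by
    intro σ τ
    have h1 : c₀ (σ * τ) = c₀ σ * (s σ * c₀ τ * (s σ)⁻¹) := hcoc σ τ
    rw [h1, Subgroup.coe_mul, map_mul]; group
  let s₀ : Γ →* Gal(M/K) := MonoidHom.mk' (fun σ => c₀ σ * s σ) hmulN
  have hs₀ : ∀ σ, s₀ σ = c₀ σ * s σ := fun σ => rfl
  refine ⟨s₀, ?_, fun σ => ?_, fun σ b => hc₀ σ b⟩
  · apply continuous_of_continuousAt_one
    have h1 : ContinuousAt (fun σ => (c σ : Gal(M/K))) 1 :=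
      continuous_subtype_val.continuousAt.comp hcont
    have h2 : Continuous fun σ : Γ => s (σ : Gal(kb/k)) := hs.comp continuous_subtype_val
    exact h1.mul h2.continuousAt
  · rw [hs₀, mul_inv_cancel_right]
    exact hc₀N σ

end

end Pool.Agent.Lib.MP_2f3286_ag.Full
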