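import Mathlib
import Pool.Agent.Lib.MP_2f3286_ag.Full.FullCore
import Pool.Agent.Lib.MP_2f3286_ag.Full.GMainAlt
import Pool.Agent.Lib.MP_2f3286_ag.Full.FinTheta
import Pool.Agent.Lib.MP_2f3286_ag.Full.PointSec

/-!
# Sections whose local points all lie over one value of a nonconstant function
-/

open Polynomial IntermediateField IsDedekindDomain NumberField
open scoped Pointwise

namespace Pool.Agent.Lib.MP_2f3286_ag.Full

universe u in
/-- `W_main` for an open subgroup. -/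
theorem W_sub {k : Type u} [Field k] [NumberField k] {K : Type*} [Field K] [Algebra k K] (t : K)
    (ht : Transcendental k t) [FiniteDimensional (adjoin k {t}) K] {M : Type*} [Field M]
    [Algebra K M] [IsGalois K M] [Algebra (AlgebraicClosure k) M] [Algebra k M]
    [IsScalarTower k K M] [IsScalarTower k (AlgebraicClosure k) M]
    (s : Gal(AlgebraicClosure k/k) →* Gal(M/K))
    (hsec : ∀ σ a, s σ (algebraMap (AlgebraicClosure k) M a) =
      algebraMap (AlgebraicClosure k) M (σ a))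
    (Γ : Subgroup Gal(AlgebraicClosure k/k)) (hΓ : IsOpen (Γ : Set Gal(AlgebraicClosure k/k)))
    (H H' : Subgroup Gal(M/K)) [H.Normal] [H'.Normal]
    (hHN : H ≤ geomGroup K M (AlgebraicClosure k)) (hH'H : H' ≤ H)
    (hH'o : OpenIn (geomGroup K M (AlgebraicClosure k)) H') (L : Finset ℕ)
    (hL : ∀ ℓ ∈ L, ℓ.Prime)
    (hH'L : ∀ (ℓ : ℕ) [Fact ℓ.Prime], ℓ ∈ L → ∀ f : H →ₜ* Multiplicative (ZMod ℓ), ∀ h : H,
      (h : Gal(M/K)) ∈ H' → f h = 1) :
    ∃ γ : Γ, ∀ (ℓ : ℕ) [Fact ℓ.Prime], ℓ ∈ L → ∀ j, 1 ≤ j → ∀ χ : H →ₜ* Multiplicative ℤ_[ℓ],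
      (∀ h, χ (MulAut.conjNormal ((s.comp Γ.subtype) γ ^ j) h) = χ h) → ∀ h, χ h = 1 := by
  obtain ⟨φ, hφ⟩ := W_main t ht H H' hHN hH'H hH'o L hL hH'L
  have hfin : Γ.FiniteIndex := by
    have : Finite (Gal(AlgebraicClosure k/k) ⧸ Γ) := Subgroup.quotient_finite_of_isOpen Γ hΓ
    exact Subgroup.finiteIndex_of_finite_quotient
  obtain ⟨m, hm0, -, hm⟩ := Subgroup.exists_pow_mem_of_index_ne_zero hfin.index_ne_zero φ
  refine ⟨⟨φ ^ m, hm⟩, fun ℓ _ hℓ j hj χ hχ => ?_⟩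
  refine hφ (s φ) (hsec φ) ℓ hℓ (m * j) (Nat.mul_pos hm0 hj) χ ?_
  have e : s φ ^ (m * j) = (s.comp Γ.subtype) ⟨φ ^ m, hm⟩ ^ j := by
    rw [pow_mul, MonoidHom.comp_apply]
    congr 1
    exact (map_pow s φ m).symm
  rw [e]
  exact hχ

universe u in
/-- Uniqueness: an element commuting with the image of an open subgroup is trivial. -/
theorem cent_sub {k : Type u} [Field k] [NumberField k] {K : Type*} [Field K] [Algebra k K] (t : K)
    (ht : Transcendental k t) [FiniteDimensional (adjoin k {t}) K] {M : Type*} [Field M]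
    [Algebra K M] [IsGalois K M] [Algebra (AlgebraicClosure k) M] [Algebra k M]
    [IsScalarTower k K M] [IsScalarTower k (AlgebraicClosure k) M]
    (hfree : ∀ A ≤ geomGroup K M (AlgebraicClosure k),
      OpenIn (geomGroup K M (AlgebraicClosure k)) A → ∀ (ℓ : ℕ) [Fact ℓ.Prime],
      Finite (A →ₜ* Multiplicative (ZMod ℓ)) ∧
      ∀ f : A →ₜ* Multiplicative (ZMod ℓ), ∃ F : A →ₜ* Multiplicative ℤ_[ℓ], ∀ a,
        PadicInt.toZMod (F a).toAdd = (f a).toAdd)
    (s : Gal(AlgebraicClosure k/k) →* Gal(M/K))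
    (hsec : ∀ σ a, s σ (algebraMap (AlgebraicClosure k) M a) =
      algebraMap (AlgebraicClosure k) M (σ a))
    (Γ : Subgroup Gal(AlgebraicClosure k/k)) (hΓ : IsOpen (Γ : Set Gal(AlgebraicClosure k/k)))
    (z : Gal(M/K)) (hz : z ∈ geomGroup K M (AlgebraicClosure k))
    (hc : ∀ σ ∈ Γ, z * s σ = s σ * z) : z = 1 := by
  have hNn : (geomGroup K M (AlgebraicClosure k)).Normal := geomGroup_normal k
  have hNcl := isClosed_geomGroup K M (AlgebraicClosure k)
  exact (G_main (Γ := Γ) (geomGroup K M (AlgebraicClosure k)) hNcl (s.comp Γ.subtype)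
    (s.comp Γ.subtype) (fun σ => ⟨1, one_mem _, by group⟩) hfree
    (fun H H' _ _ hHN hH'H hH'o L hL hH'L =>
      W_sub t ht s hsec Γ hΓ H H' hHN hH'H hH'o L hL hH'L)).2 z hz (fun σ => hc σ σ.2)

universe u in
theorem full_core_alt {k : Type u} [Field k] [NumberField k]
    {K : Type*} [Field K] [Algebra k K] (t : K) (ht : Transcendental k t)
    [FiniteDimensional (adjoin k {t}) K]
    (R : Subalgebra k K) (htR : t ∈ R) (hRn : ∀ x : K, IsIntegral R x → x ∈ R)
    {M : Type*} [Field M] [Algebra K M] [IsGalois K M]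
    [Algebra (AlgebraicClosure k) M] [Algebra k M]
    [IsScalarTower k K M] [IsScalarTower k (AlgebraicClosure k) M]
    (hun : ∀ Ψ : integralClosure R M →+* AlgebraicClosure k,
      (∀ (a : AlgebraicClosure k) (b : integralClosure R M), (b : M) = algebraMap _ M a → Ψ b = a) →
      ∀ g ∈ geomGroup K M (AlgebraicClosure k),
        (∀ b b' : integralClosure R M, (b' : M) = g b → Ψ b' = Ψ b) → g = 1)
    (hfree : ∀ A ≤ geomGroup K M (AlgebraicClosure k),
      OpenIn (geomGroup K M (AlgebraicClosure k)) A → ∀ (ℓ : ℕ) [Fact ℓ.Prime],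
      Finite (A →ₜ* Multiplicative (ZMod ℓ)) ∧
      ∀ f : A →ₜ* Multiplicative (ZMod ℓ), ∃ F : A →ₜ* Multiplicative ℤ_[ℓ], ∀ a,
        PadicInt.toZMod (F a).toAdd = (f a).toAdd)
    (s : Gal(AlgebraicClosure k/k) →* Gal(M/K)) (hs : Continuous s)
    (hsec : ∀ σ a, s σ (algebraMap (AlgebraicClosure k) M a) =
      algebraMap (AlgebraicClosure k) M (σ a))
    (S : Finset (HeightOneSpectrum (𝓞 k)))
    (ι : ∀ v : {v : HeightOneSpectrum (𝓞 k) // v ∉ S},
      AlgebraicClosure k →ₐ[k] AlgebraicClosure (v.1.adicCompletion k))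
    (φ : ∀ v : {v : HeightOneSpectrum (𝓞 k) // v ∉ S},
      integralClosure R M →+* AlgebraicClosure (v.1.adicCompletion k))
    (hφ : ∀ v, Respects s (v.1.adicCompletion k)
      (ι v : _ →+* AlgebraicClosure (v.1.adicCompletion k)) (φ v))
    (c₀ : k) (hθ : ∀ v, φ v (algebraMap R _ ⟨t, htR⟩) = ι v (algebraMap k _ c₀)) :
    ∃ (Δ : Subgroup Gal(AlgebraicClosure k/k)) (Ψ : integralClosure R M →+* AlgebraicClosure k),
      IsOpen (Δ : Set Gal(AlgebraicClosure k/k)) ∧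
      (∀ (a : AlgebraicClosure k) (b : integralClosure R M), (b : M) = algebraMap _ M a → Ψ b = a) ∧
      Ψ (algebraMap R _ ⟨t, htR⟩) = algebraMap k _ c₀ ∧
      (∀ σ ∈ Δ, ∀ b b' : integralClosure R M, (b' : M) = s σ b → Ψ b' = σ (Ψ b)) ∧
      (∀ Ψ' : integralClosure R M →+* AlgebraicClosure k,
        (∀ (a : AlgebraicClosure k) (b : integralClosure R M), (b : M) = algebraMap _ M a →
          Ψ' b = a) → (∀ r : R, Ψ' (algebraMap R _ r) = Ψ (algebraMap R _ r)) →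
        (∃ Δ' : Subgroup Gal(AlgebraicClosure k/k), IsOpen (Δ' : Set Gal(AlgebraicClosure k/k)) ∧
          ∀ σ ∈ Δ', ∀ b b' : integralClosure R M, (b' : M) = s σ b → Ψ' b' = σ (Ψ' b)) → Ψ' = Ψ) ∧
      ((∀ r : R, ∃ c : k, Ψ (algebraMap R _ r) = algebraMap k _ c) →
        Respects s k (RingHom.id _) Ψ) := by
  classical
  set kb := AlgebraicClosure k with hkbdef
  set N := geomGroup K M kb with hN
  have hNn : N.Normal := geomGroup_normal k
  have hNcl : IsClosed (N : Set Gal(M/K)) := isClosed_geomGroup K M kb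
  have hRn' : ∀ x : K, IsIntegral R x → ∃ r : R, algebraMap R K r = x :=
    fun x hx => ⟨⟨x, hRn x hx⟩, rfl⟩
  have hkR : ∀ a : k, ∃ r : R, algebraMap R M r = algebraMap k M a := by
    intro a
    exact ⟨algebraMap k R a, by rw [← IsScalarTower.algebraMap_apply]⟩
  have hBk : ∀ a : kb, IsIntegral R (algebraMap kb M a) := by
    intro a
    have h1 : IsIntegral k a := Algebra.IsIntegral.isIntegral a
    have h2 : IsIntegral k (algebraMap kb M a) := h1.algebraMap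
    exact h2.tower_top
  have hkB : ∀ a : k, algebraMap R (integralClosure R M) (algebraMap k R a) =
      ⟨algebraMap kb M (algebraMap k kb a), hBk _⟩ := by
    intro a
    apply Subtype.ext
    change algebraMap R M (algebraMap k R a) = algebraMap kb M (algebraMap k kb a)
    rw [← IsScalarTower.algebraMap_apply, ← IsScalarTower.algebraMap_apply]
  -- freeness at every point
  have hfr : ∀ Ψ : integralClosure R M →+* kb, (∀ a : kb, Ψ ⟨algebraMap kb M a, hBk a⟩ = a) →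
      ∀ g ∈ N, (∀ b, Ψ (actHom R g b) = Ψ b) → g = 1 := by
    intro Ψ hΨ g hg h
    refine hun Ψ (fun a b hb => ?_) g hg fun b b' hb => ?_
    · have : b = ⟨algebraMap kb M a, hBk a⟩ := Subtype.ext hb
      rw [this]; exact hΨ a
    · have : b' = actHom R g b := Subtype.ext hb
      rw [this]; exact h b
  -- the finite set of points of `R`
  let I : Set (R →ₐ[k] kb) := {θ | θ ⟨t, htR⟩ = algebraMap k kb c₀}
  have hIfin : Finite I := (finite_theta t ht R htR c₀ : I.Finite)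
  -- the point of `R` below a point
  let low : (Ψ : integralClosure R M →+* kb) → (∀ a : kb, Ψ ⟨algebraMap kb M a, hBk a⟩ = a) →
      R →ₐ[k] kb := fun Ψ hΨ =>
    { Ψ.comp (algebraMap R (integralClosure R M)) with
      commutes' := fun a => by
        change Ψ (algebraMap R (integralClosure R M) (algebraMap k R a)) = _
        rw [hkB, hΨ] }
  have hlow : ∀ Ψ hΨ r, low Ψ hΨ r = Ψ (algebraMap R _ r) := fun Ψ hΨ r => rfl
  -- the action
  let act : MulAction Gal(kb/k) I :=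
    { smul := fun σ θ => ⟨(σ : kb →ₐ[k] kb).comp θ.1, by
        change σ (θ.1 ⟨t, htR⟩) = _
        rw [θ.2]; exact σ.commutes c₀⟩
      one_smul := fun θ => Subtype.ext (AlgHom.ext fun r => rfl)
      mul_smul := fun σ τ θ => Subtype.ext (AlgHom.ext fun r => rfl) }
  have hsmul : ∀ (σ : Gal(kb/k)) (θ : I) (r : R), (σ • θ).1 r = σ (θ.1 r) := fun σ θ r => rfl
  let Γ : Subgroup Gal(kb/k) := (MulAction.toPermHom Gal(kb/k) I).ker
  have hΓmem : ∀ σ, σ ∈ Γ ↔ ∀ (θ : I) (r : R), σ (θ.1 r) = θ.1 r := by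
    intro σ
    constructor
    · intro h θ r
      have h1 : (MulAction.toPermHom Gal(kb/k) I σ) θ = θ := by
        rw [MonoidHom.mem_ker.mp h]; rfl
      have h2 : (σ • θ).1 r = θ.1 r := by
        change ((MulAction.toPermHom Gal(kb/k) I σ) θ).1 r = _
        rw [h1]
      exact h2
    · intro h
      rw [MonoidHom.mem_ker]
      ext1 θ
      exact Subtype.ext (AlgHom.ext fun r => h θ r)
  have hΓn : Γ.Normal := MonoidHom.normal_ker _
  have hΓcl : IsClosed (Γ : Set Gal(kb/k)) := by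
    have h1 : (Γ : Set Gal(kb/k)) = ⋂ (θ : I) (r : R),
        (MulAction.stabilizer Gal(kb/k) (θ.1 r) : Set Gal(kb/k)) := by
      ext σ
      simp only [Set.mem_iInter]
      exact hΓmem σ
    rw [h1]
    exact isClosed_iInter fun θ => isClosed_iInter fun r =>
      Subgroup.isClosed_of_isOpen _ (stabilizer_isOpen_of_isIntegral (K := k) _)
  have hΓf : Γ.FiniteIndex := by
    have : Finite (Equiv.Perm I) := inferInstance
    exact Subgroup.finiteIndex_ker _
  have hΓo : IsOpen (Γ : Set Gal(kb/k)) := Subgroup.isOpen_of_isClosed_of_finiteIndex Γ hΓcl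
  -- the points of `R` that are images of points
  let J : Type _ := {θ : I // ∃ Ψ : integralClosure R M →+* kb,
    (∀ a : kb, Ψ ⟨algebraMap kb M a, hBk a⟩ = a) ∧ ∀ r, Ψ (algebraMap R _ r) = θ.1 r}
  have hJfin : Finite J := Subtype.finite
  choose Ψ₀ hΨ₀ using fun j : J => j.2
  choose s' hs'c hs'N hs'Ψ using fun j : J => exists_point_section hRn hBk s hs hsec Γ (Ψ₀ j)
    (hΨ₀ j).1 (hfr _ (hΨ₀ j).1) (fun σ hσ r => by
      rw [(hΨ₀ j).2]; exact (hΓmem σ).mp hσ j.1 r)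
  -- descent of the local points
  have hdesc : ∀ v, ∃ Ψ : integralClosure R M →+* kb, ∀ b, φ v b = ι v (Ψ b) := by
    intro v
    have halgk : ∀ a : k, algebraMap k (AlgebraicClosure (v.1.adicCompletion k)) a =
        ι v (algebraMap k kb a) := fun a => ((ι v).commutes a).symm
    let θv : R →ₐ[k] AlgebraicClosure (v.1.adicCompletion k) :=
      { (φ v).comp (algebraMap R (integralClosure R M)) with
        commutes' := fun a => by
          change φ v (algebraMap R (integralClosure R M) (algebraMap k R a)) = _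
          rw [hkB, halgk]
          exact (hφ v).1 _ _ rfl }
    have hθv : ∀ r, θv r = φ v (algebraMap R _ r) := fun r => rfl
    have h1 : ∀ r, ∃ β : kb, ι v β = φ v (algebraMap R _ r) := by
      intro r
      obtain ⟨Q, hQ0, hQ⟩ := isAlgebraic_theta t ht R htR c₀ θv
        ((hθ v).trans ((ι v).commutes c₀)) r
      have h2 : (Q.map (algebraMap k kb)).eval₂ ((ι v : _ →+* _)) (θv r) = 0 := by
        rw [eval₂_map]
        have h3 : ((ι v : _ →+* _)).comp (algebraMap k kb) =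
            algebraMap k (AlgebraicClosure (v.1.adicCompletion k)) := (ι v).comp_algebraMap
        rw [h3]
        exact hQ
      obtain ⟨β, -, hβ⟩ := root_mem _ (by
        rw [Ne, Polynomial.map_eq_zero_iff (algebraMap k kb).injective]
        exact hQ0) h2
      exact ⟨β, hβ⟩
    have h2 : ∃ θ' : R →+* kb, ∀ r, ι v (θ' r) = φ v (algebraMap R _ r) := by
      let _ : Algebra kb (AlgebraicClosure (v.1.adicCompletion k)) := (ι v).toRingHom.toAlgebra
      exact exists_descent (F := kb) ((φ v).comp (algebraMap R _)) h1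
    obtain ⟨θ', hθ'⟩ := h2
    have hval : ∀ b : integralClosure R M, ∃ β : kb, ι v β = φ v b := by
      intro b
      obtain ⟨Q, hQm, hQ⟩ := b.2
      have h1 : Q.eval₂ (algebraMap R (integralClosure R M)) b = 0 := by
        apply Subtype.val_injective
        have h2 := Polynomial.hom_eval₂ Q (algebraMap R (integralClosure R M))
          (integralClosure R M).subtype b
        refine h2.trans ?_
        exact hQ
      have h2 := congrArg (φ v) h1
      rw [Polynomial.hom_eval₂, map_zero] at h2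
      have h3 : (φ v).comp (algebraMap R (integralClosure R M)) = ((ι v : _ →+* _)).comp θ' := by
        ext r
        exact (hθ' r).symm
      rw [h3, ← Polynomial.eval₂_map] at h2
      obtain ⟨β, -, hβ⟩ := root_mem _ (hQm.map θ').ne_zero h2
      exact ⟨β, hβ⟩
    let _ : Algebra kb (AlgebraicClosure (v.1.adicCompletion k)) := (ι v).toRingHom.toAlgebra
    obtain ⟨Ψ, hΨ⟩ := exists_descent (F := kb) (φ v) hval
    exact ⟨Ψ, fun b => (hΨ b).symm⟩
  choose Ψ hΨ using hdesc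
  have hΨk : ∀ v (a : kb), Ψ v ⟨algebraMap kb M a, hBk a⟩ = a := by
    intro v a
    apply (ι v).toRingHom.injective
    change ι v _ = ι v a
    rw [← hΨ]
    exact (hφ v).1 a _ rfl
  have hΨt : ∀ v, Ψ v (algebraMap R _ ⟨t, htR⟩) = algebraMap k kb c₀ := by
    intro v
    apply (ι v).toRingHom.injective
    change ι v _ = ι v _
    rw [← hΨ, hθ]
  have hΨs : ∀ v (σ : Gal(kb/k))
      (τ : Gal(AlgebraicClosure (v.1.adicCompletion k)/v.1.adicCompletion k)),
      (∀ x, ι v (σ x) = τ (ι v x)) → ∀ b, Ψ v (actHom R (s σ) b) = σ (Ψ v b) := by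
    intro v σ τ hστ b
    apply (ι v).toRingHom.injective
    change ι v _ = ι v _
    rw [hστ, ← hΨ, ← hΨ]
    exact (hφ v).2 σ τ hστ b _ rfl
  -- the conjugate of a point
  have hconj : ∀ (g : Gal(kb/k)) (Φ : integralClosure R M →+* kb),
      (∀ a : kb, Φ ⟨algebraMap kb M a, hBk a⟩ = a) →
      ∃ Φ' : integralClosure R M →+* kb, (∀ a : kb, Φ' ⟨algebraMap kb M a, hBk a⟩ = a) ∧
        ∀ b, Φ' b = g (Φ (actHom R (s g)⁻¹ b)) := by
    intro g Φ hΦ
    refine ⟨((g : kb →+* kb).comp Φ).comp (actHom R (s g)⁻¹), fun a => ?_, fun b => rfl⟩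
    have h1 : actHom R (s g)⁻¹ ⟨algebraMap kb M a, hBk a⟩ =
        ⟨algebraMap kb M (g⁻¹ a), hBk _⟩ := by
      apply Subtype.ext
      change (s g)⁻¹ (algebraMap kb M a) = _
      rw [← map_inv]; exact hsec g⁻¹ a
    change g (Φ (actHom R (s g)⁻¹ ⟨algebraMap kb M a, hBk a⟩)) = a
    rw [h1, hΦ]
    exact g.apply_symm_apply a
  -- agreement up to conjugation
  have hpt : ∀ σ : Γ, ∃ j : J, ∃ n ∈ N, (s.comp Γ.subtype) σ = n * s' j σ * n⁻¹ := by
    intro σ
    by_contra hcon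
    push Not at hcon
    have h1 : ∀ j : J, ∃ U : Subgroup Gal(M/K), U.Normal ∧ IsOpen (U : Set Gal(M/K)) ∧
        ∀ n ∈ N, (s σ)⁻¹ * (n * s' j σ * n⁻¹) ∉ U := by
      intro j
      by_contra hcon2
      push Not at hcon2
      obtain ⟨n, hn, hn'⟩ := exists_conj_of_approx N hNcl (s σ) (s' j σ) hcon2
      exact hcon j n hn hn'
    choose U hUn hUo hU using h1
    let V : Subgroup Gal(M/K) := ⨅ j, U j
    have hVn : V.Normal := Subgroup.normal_iInf_normal hUn
    have hVo : IsOpen (V : Set Gal(M/K)) := by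
      have h2 : (V : Set Gal(M/K)) = ⋂ j, (U j : Set Gal(M/K)) := Subgroup.coe_iInf
      rw [h2]
      exact isOpen_iInter_of_finite hUo
    have hnb : ∀ j : J, (Subtype.val : Γ → Gal(kb/k)) '' ((s' j) ⁻¹' (V : Set Gal(M/K))) ∈
        nhds (1 : Gal(kb/k)) := by
      intro j
      have h2 : IsOpen ((Subtype.val : Γ → Gal(kb/k)) '' ((s' j) ⁻¹' (V : Set Gal(M/K)))) :=
        hΓo.isOpenMap_subtype_val _ (hVo.preimage (hs'c j))
      refine h2.mem_nhds ⟨1, ?_, rfl⟩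
      change s' j 1 ∈ V
      rw [map_one]; exact one_mem V
    have hnb2 : (s ⁻¹' (V : Set Gal(M/K))) ∩ ((Γ : Set Gal(kb/k)) ∩
        ⋂ j : J, (Subtype.val : Γ → Gal(kb/k)) '' ((s' j) ⁻¹' (V : Set Gal(M/K)))) ∈
        nhds (1 : Gal(kb/k)) := by
      refine Filter.inter_mem ?_ (Filter.inter_mem (hΓo.mem_nhds (one_mem Γ))
        (Filter.iInter_mem.mpr hnb))
      exact (hVo.preimage hs).mem_nhds (by
        change s 1 ∈ V
        rw [map_one]; exact one_mem V)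
    obtain ⟨L, hL, hLU⟩ := (krullTopology_mem_nhds_one_iff k kb _).mp hnb2
    obtain ⟨v, hv, hcheb⟩ := cheb S L σ
    obtain ⟨g, σ', hσ', τ, hτ⟩ := hcheb (ι ⟨v, hv⟩)
    have hδ : (σ : Gal(kb/k))⁻¹ * σ' ∈ L.fixingSubgroup := by
      rw [IntermediateField.mem_fixingSubgroup_iff]
      intro x hx
      rw [AlgEquiv.mul_apply, hσ' x hx]
      exact (σ : Gal(kb/k)).symm_apply_apply x
    obtain ⟨hδ1, hδ2, hδ3⟩ := hLU hδ
    change s ((σ : Gal(kb/k))⁻¹ * σ') ∈ V at hδ1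
    have hσ'Γ : σ' ∈ Γ := by
      have h2 := Γ.mul_mem σ.2 hδ2
      rwa [mul_inv_cancel_left] at h2
    -- the conjugated local point
    obtain ⟨Φ, hΦk, hΦ⟩ := hconj g⁻¹ (Ψ ⟨v, hv⟩) (hΨk _)
    have hΦ' : ∀ b, Φ b = g⁻¹ (Ψ ⟨v, hv⟩ (actHom R (s g) b)) := by
      intro b
      rw [hΦ, map_inv, inv_inv]
    have hΦt : Φ (algebraMap R _ ⟨t, htR⟩) = algebraMap k kb c₀ := by
      rw [hΦ', actHom_alg, hΨt, AlgEquiv.commutes]
    have hΦs : ∀ b, Φ (actHom R (s σ') b) = σ' (Φ b) := by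
      intro b
      rw [hΦ', hΦ']
      have e1 : actHom R (s g) (actHom R (s σ') b) =
          actHom R (s (g * σ' * g⁻¹)) (actHom R (s g) b) := by
        rw [← actHom_mul, ← actHom_mul, ← map_mul, ← map_mul]
        congr 2
        group
      rw [e1, hΨs ⟨v, hv⟩ _ τ hτ, ← AlgEquiv.mul_apply, ← AlgEquiv.mul_apply]
      congr 1
      group
    have hmem : low Φ hΦk ∈ I := hΦt
    let j : J := ⟨⟨low Φ hΦk, hmem⟩, Φ, hΦk, fun r => rfl⟩
    obtain ⟨n, hn, hn'⟩ := points_trans' hRn' hBk (Ψ₀ j) Φ (hΨ₀ j).1 hΦk (by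
      intro r
      rw [(hΨ₀ j).2]; rfl) hkR
    have hnN : n ∈ N := hn
    have hrel : n * s σ' = s' j ⟨σ', hσ'Γ⟩ * n := by
      apply free_of_free (Ψ₀ j) (hfr _ (hΨ₀ j).1)
      · have h2 : n * s σ' * (s' j ⟨σ', hσ'Γ⟩ * n)⁻¹ =
            n * (s' j ⟨σ', hσ'Γ⟩ * n * (s σ')⁻¹)⁻¹ := by group
        have h3 : s' j ⟨σ', hσ'Γ⟩ * n * (s σ')⁻¹ =
          (s' j ⟨σ', hσ'Γ⟩ * (s σ')⁻¹) * (s σ' * n * (s σ')⁻¹) := by group
        rw [h2, h3]
        exact mul_mem hnN (inv_mem (mul_mem (hs'N j ⟨σ', hσ'Γ⟩) (hNn.conj_mem _ hnN _)))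
      · intro b
        rw [actHom_mul, ← hn', hΦs, actHom_mul, hs'Ψ, ← hn']
    refine hU j n⁻¹ (inv_mem hnN) ?_
    have hVU : V ≤ U j := iInf_le _ _
    apply hVU
    have hδ4 : s' j (σ⁻¹ * ⟨σ', hσ'Γ⟩) ∈ V := by
      have h2 := Set.mem_iInter.mp hδ3 j
      obtain ⟨x, hx, hx'⟩ := h2
      have h3 : x = σ⁻¹ * ⟨σ', hσ'Γ⟩ := Subtype.ext hx'
      rw [← h3]; exact hx
    have h2 : s σ' = n⁻¹ * s' j ⟨σ', hσ'Γ⟩ * n := by
      rw [mul_assoc, ← hrel, inv_mul_cancel_left]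
    have h5 : (s σ)⁻¹ * (n⁻¹ * s' j σ * n⁻¹⁻¹) =
        s ((σ : Gal(kb/k))⁻¹ * σ') * (n⁻¹ * (s' j (σ⁻¹ * ⟨σ', hσ'Γ⟩))⁻¹ * n⁻¹⁻¹) := by
      rw [map_mul, map_inv, h2, map_mul, map_inv]
      group
    rw [h5]
    exact V.mul_mem hδ1 (hVn.conj_mem _ (inv_mem hδ4) n⁻¹)
  -- the group theoretic theorem
  obtain ⟨j, n, hnN, hn⟩ := G_main_alt (Γ := Γ) N hNcl (s.comp Γ.subtype) s'
    (fun j σ => by
      have h1 := inv_mem (hs'N j σ)
      have h2 : (s.comp Γ.subtype) σ * (s' j σ)⁻¹ = (s' j σ * (s σ)⁻¹)⁻¹ := by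
        rw [mul_inv_rev, inv_inv]; rfl
      rw [h2]; exact h1) hpt hfree
    (fun H H' _ _ hHN hH'H hH'o L hL hH'L =>
      W_sub t ht s hsec Γ hΓo H H' hHN hH'H hH'o L hL hH'L)
  let Φ : integralClosure R M →+* kb := (Ψ₀ j).comp (actHom R n⁻¹)
  have hΦ : ∀ b, Φ b = Ψ₀ j (actHom R n⁻¹ b) := fun b => rfl
  have hΦk : ∀ a : kb, Φ ⟨algebraMap kb M a, hBk a⟩ = a := by
    intro a
    have h1 : actHom R n⁻¹ ⟨algebraMap kb M a, hBk a⟩ = ⟨algebraMap kb M a, hBk a⟩ := by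
      apply Subtype.ext
      exact (inv_mem hnN : n⁻¹ ∈ N) a
    rw [hΦ, h1, (hΨ₀ j).1]
  have hΦs : ∀ σ ∈ Γ, ∀ b, Φ (actHom R (s σ) b) = σ (Φ b) := by
    intro σ hσ b
    rw [hΦ, hΦ]
    have h1 := hs'Ψ j ⟨σ, hσ⟩ (actHom R n⁻¹ b)
    rw [← actHom_mul] at h1 ⊢
    have h2 : n⁻¹ * s σ = s' j ⟨σ, hσ⟩ * n⁻¹ := by
      have h3 : s σ = n * s' j ⟨σ, hσ⟩ * n⁻¹ := hn ⟨σ, hσ⟩
      rw [h3]; group
    rw [h2]
    exact h1
  -- uniqueness
  have huniq : ∀ Φ' : integralClosure R M →+* kb, (∀ a : kb, Φ' ⟨algebraMap kb M a, hBk a⟩ = a) →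
      (∀ r : R, Φ' (algebraMap R _ r) = Φ (algebraMap R _ r)) →
      (∃ Δ' : Subgroup Gal(kb/k), IsOpen (Δ' : Set Gal(kb/k)) ∧
        ∀ σ ∈ Δ', ∀ b, Φ' (actHom R (s σ) b) = σ (Φ' b)) → Φ' = Φ := by
    rintro Φ' hΦ'k hΦ'r ⟨Δ', hΔ'o, hΔ'⟩
    obtain ⟨z, hz, hz'⟩ := points_trans' hRn' hBk Φ Φ' hΦk hΦ'k hΦ'r hkR
    have hzN : z ∈ N := hz
    have h1 : z = 1 := by
      refine cent_sub t ht hfree s hsec (Γ ⊓ Δ') (hΓo.inter hΔ'o) z hz ?_
      rintro σ ⟨hσ1, hσ2⟩
      apply free_of_free Φ (hfr _ hΦk)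
      · have h2 : z * s σ * (s σ * z)⁻¹ = z * (s σ * z * (s σ)⁻¹)⁻¹ := by group
        rw [h2]
        exact mul_mem hzN (inv_mem (hNn.conj_mem _ hzN _))
      · intro b
        rw [actHom_mul, ← hz', hΔ' σ hσ2, actHom_mul, hΦs σ hσ1, ← hz']
    ext b
    rw [hz', h1, actHom_one]
  refine ⟨Γ, Φ, hΓo, fun a b hb => ?_, ?_, fun σ hσ b b' hb => ?_, fun Φ' h1 h2 h3 => ?_,
    fun hk => ?_⟩
  · have : b = ⟨algebraMap kb M a, hBk a⟩ := Subtype.ext hb
    rw [this]; exact hΦk a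
  · rw [hΦ, actHom_alg, (hΨ₀ j).2]
    exact j.1.2
  · have : b' = actHom R (s σ) b := Subtype.ext hb
    rw [this]; exact hΦs σ hσ b
  · obtain ⟨Δ', hΔ'o, hΔ'⟩ := h3
    exact huniq Φ' (fun a => h1 a _ rfl) h2 ⟨Δ', hΔ'o, fun σ hσ b => hΔ' σ hσ b _ rfl⟩
  · -- descent to `k`
    have hall : ∀ (g : Gal(kb/k)) (b : integralClosure R M), Φ (actHom R (s g) b) = g (Φ b) := by
      intro g b
      obtain ⟨Φ', hΦ'k, hΦ'⟩ := hconj g Φ hΦk
      have h1 : Φ' = Φ := by
        refine huniq Φ' hΦ'k (fun r => ?_) ⟨Γ, hΓo, fun σ hσ b => ?_⟩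
        · rw [hΦ', actHom_alg]
          obtain ⟨c, hc⟩ := hk r
          rw [hc, AlgEquiv.commutes]
        · have h2 : g⁻¹ * σ * g ∈ Γ := by
            have := hΓn.conj_mem σ hσ g⁻¹
            rwa [inv_inv] at this
          rw [hΦ', hΦ']
          have e1 : actHom R (s g)⁻¹ (actHom R (s σ) b) =
              actHom R (s (g⁻¹ * σ * g)) (actHom R (s g)⁻¹ b) := by
            rw [← actHom_mul, ← actHom_mul]
            congr 1
            rw [map_mul, map_mul, map_inv]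
            group
          rw [e1, hΦs _ h2, ← AlgEquiv.mul_apply, ← AlgEquiv.mul_apply]
          congr 1
          group
      have h3 := hΦ' (actHom R (s g) b)
      rw [h1, ← actHom_mul, inv_mul_cancel, actHom_one] at h3
      exact h3
    refine ⟨fun x b hb => ?_, fun σ τ hστ b b' hb => ?_⟩
    · have : b = ⟨algebraMap kb M x, hBk x⟩ := Subtype.ext hb
      rw [this]; exact hΦk x
    · have h1 : τ = σ := by
        ext x; exact (hστ x).symm
      have h2 : b' = actHom R (s σ) b := Subtype.ext hb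
      rw [h1, h2]
      exact hall σ b

end Pool.Agent.Lib.MP_2f3286_ag.Full
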