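import Mathlib
import Pool.Agent.Lib.MP_2f3286_ag.NormFinal
import Pool.Agent.Lib.MP_2f3286_ag.Full.FullCore
import Pool.Agent.Lib.MP_2f3286_ag.Full.FreePro
import Pool.Agent.Lib.MP_2f3286_ag.Full.WField

/-!
# Adelic sections of the full fundamental group of a very affine curve over a number field
-/

open IsDedekindDomain NumberField Polynomial

namespace Pool.Agent.Lib.MP_2f3286_ag.Full

theorem trdeg_gen {k K : Type*} [Field k] [Field K] [Algebra k K] {t : K}
    (ht : Transcendental k t) (hK : IntermediateField.adjoin k {t} = ⊤) : Algebra.trdeg k K = 1 := by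
  have h1 : IsTranscendenceBasis k (Subtype.val : ({t} : Set K) → K) := by
    rw [isTranscendenceBasis_iff_algebraicIndependent_isAlgebraic]
    refine ⟨algebraicIndependent_unique_type_iff.mpr ht, ?_⟩
    rw [Subtype.range_val]
    constructor
    intro x
    have hx : x ∈ IntermediateField.adjoin k {t} := by rw [hK]; exact IntermediateField.mem_top
    obtain ⟨r, s, rfl⟩ := (IntermediateField.mem_adjoin_simple_iff k x).mp hx
    have h2 : ∀ p : k[X], IsAlgebraic (Algebra.adjoin k {t}) (aeval t p) := fun p =>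
      isAlgebraic_algebraMap (⟨aeval t p, aeval_mem_adjoin_singleton k t⟩ : Algebra.adjoin k {t})
    rw [div_eq_mul_inv]
    exact (h2 r).mul (h2 s).inv
  rw [← h1.cardinalMk_eq_trdeg]
  simp

theorem trdeg_of_finite {k K : Type*} [Field k] [Field K] [Algebra k K] {t : K}
    (ht : Transcendental k t) [FiniteDimensional (IntermediateField.adjoin k {t}) K] :
    Algebra.trdeg k K = 1 := by
  let E := IntermediateField.adjoin k {t}
  let t' : E := ⟨t, IntermediateField.mem_adjoin_simple_self k t⟩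
  have h1 : Transcendental k t' := by
    intro h
    exact ht (h.algebraMap (A := K))
  have h2 : IntermediateField.adjoin k {t'} = ⊤ := by
    apply IntermediateField.lift_injective
    rw [IntermediateField.lift_adjoin_simple, IntermediateField.lift_top]
  exact trdeg_top (K := E) (trdeg_gen h1 h2)

universe u in
theorem full_final {k : Type u} [Field k] [NumberField k]
    {F : Type*} [Field F] [NumberField F] [Algebra F k]
    {K : Type*} [Field K] [Algebra k K]
    (R : Subalgebra k K) (hRn : ∀ y : K, IsIntegral R y → y ∈ R)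
    (f : R) (hf : Transcendental k (f : K))
    [FiniteDimensional (IntermediateField.adjoin k {(f : K)}) K]
    (S₀ : Finset (HeightOneSpectrum (𝓞 F))) (S : Finset (HeightOneSpectrum (𝓞 k)))
    (hS : ∀ v : HeightOneSpectrum (𝓞 k), v ∈ S ↔ ∃ w ∈ S₀, v.asIdeal.LiesOver w.asIdeal)
    (A : Finset F)
    (hA : (Fintype.card (InfinitePlace F) + S₀.card ≤ 1 ∧ Module.finrank F k ≤ A.card) ∨
      (Fintype.card (InfinitePlace F) + S₀.card ≤ 2 ∧ 2 * Module.finrank F k ≤ A.card))
    (hunit : ∀ c ∈ A, IsUnit (f - algebraMap k R (algebraMap F k c)))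
    {M : Type*} [Field M] [Algebra K M] [IsGalois K M]
    [Algebra (AlgebraicClosure k) M] [Algebra k M]
    [IsScalarTower k K M] [IsScalarTower k (AlgebraicClosure k) M]
    (hroots : ∀ c ∈ A, ∀ n : ℕ, 1 ≤ n →
      ∃ b : M, b ^ n = algebraMap R M (f - algebraMap k R (algebraMap F k c)))
    (hRU : ∀ r : R, algebraMap R M r ∈ divUnitRing R M)
    (hun : ∀ Ψ : integralClosure R M →+* AlgebraicClosure k,
      (∀ (a : AlgebraicClosure k) (b : integralClosure R M), (b : M) = algebraMap _ M a → Ψ b = a) →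
      ∀ g ∈ geomGroup K M (AlgebraicClosure k),
        (∀ b b' : integralClosure R M, (b' : M) = g b → Ψ b' = Ψ b) → g = 1)
    (hfree : IsFreeProfinite (geomGroup K M (AlgebraicClosure k)) ∨
      ∀ A ≤ geomGroup K M (AlgebraicClosure k),
      OpenIn (geomGroup K M (AlgebraicClosure k)) A → ∀ (ℓ : ℕ) [Fact ℓ.Prime],
      Finite (A →ₜ* Multiplicative (ZMod ℓ)) ∧
      ∀ f : A →ₜ* Multiplicative (ZMod ℓ), ∃ F : A →ₜ* Multiplicative ℤ_[ℓ], ∀ a,
        PadicInt.toZMod (F a).toAdd = (f a).toAdd)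
    (s : Gal(AlgebraicClosure k/k) →* Gal(M/K)) (hs : Continuous s)
    (hsec : ∀ σ a, s σ (algebraMap (AlgebraicClosure k) M a) =
      algebraMap (AlgebraicClosure k) M (σ a))
    (ι : ∀ v : {v : HeightOneSpectrum (𝓞 k) // v ∉ S},
      AlgebraicClosure k →ₐ[k] AlgebraicClosure (v.1.adicCompletion k))
    (φ : ∀ v : {v : HeightOneSpectrum (𝓞 k) // v ∉ S},
      integralClosure R M →+* AlgebraicClosure (v.1.adicCompletion k))
    (hφ : ∀ v, Respects s (v.1.adicCompletion k)
      (ι v : _ →+* AlgebraicClosure (v.1.adicCompletion k)) (φ v))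
    (T : Finset (HeightOneSpectrum (𝓞 k)))
    (hint : ∀ v, v.1 ∉ T → ∀ c ∈ A, ∃ y : v.1.adicCompletion k, Valued.v y = 1 ∧
      φ v (algebraMap R (integralClosure R M) (f - algebraMap k R (algebraMap F k c))) =
        algebraMap _ _ y) :
    ∃ (x : R →ₐ[k] k) (Ψ : integralClosure R M →+* AlgebraicClosure k),
      (∀ r, Ψ (algebraMap R _ r) = algebraMap k _ (x r)) ∧
      (∀ v r, φ v (algebraMap R _ r) = ι v (algebraMap k _ (x r))) ∧
      Respects s k (RingHom.id _) Ψ ∧
      ∀ Ψ' : integralClosure R M →+* AlgebraicClosure k,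
        Respects s k (RingHom.id _) Ψ' → Ψ' = Ψ := by
  classical
  have hN := isClosed_geomGroup K M (AlgebraicClosure k)
  have hfree := hfree.elim (free_tfab _ hN) id
  have htr := trdeg_of_finite hf
  have hf' : ∀ c : k, f ≠ algebraMap k R c := by
    rintro c rfl
    exact hf (isAlgebraic_algebraMap c)
  obtain ⟨x, ψ, hxψ, -, hψφ, hψu, -⟩ := norm_final htr R f hf' S₀ S hS A hA hunit hroots hRU s hs
    hsec ι φ hφ T hint
  have hφx : ∀ v r, φ v (algebraMap R _ r) = ι v (algebraMap k _ (x r)) := by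
    intro v r
    rw [hψφ v ⟨algebraMap R M r, hRU r⟩ _ rfl, hxψ]
  obtain ⟨Ψ, h1, h2, h3⟩ := full_core (f : K) hf R hRn hun hfree s hs hsec S ι φ hφ x hφx
  refine ⟨x, Ψ, h2, hφx, h1, fun Ψ' hΨ' => h3 Ψ' hΨ' ?_⟩
  have hle : ∀ c : M, c ∈ divUnitRing R M → c ∈ (integralClosure R M) := by
    intro c hc
    have h1 : divUnitRing R M ≤ (integralClosure R M).toSubring := by
      rw [divUnitRing, Subring.closure_le]
      intro b hb
      exact hb.1
    exact h1 hc
  let inc : divUnitRing R M →+* integralClosure R M :=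
    { toFun := fun c => ⟨c, hle c c.2⟩
      map_one' := rfl
      map_mul' := fun _ _ => rfl
      map_zero' := rfl
      map_add' := fun _ _ => rfl }
  have h4 : Ψ'.comp inc = ψ := by
    refine hψu _ ⟨fun a b hb => ?_, fun σ τ hστ b b' hb => ?_⟩
    · exact hΨ'.1 a (inc b) hb
    · exact hΨ'.2 σ τ hστ (inc b) (inc b') hb
  intro r
  have h5 := congrArg (fun ψ => ψ ⟨algebraMap R M r, hRU r⟩) h4
  simp only [hxψ] at h5
  exact h5

end Pool.Agent.Lib.MP_2f3286_ag.Full
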