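import Mathlib
import Pool.Agent.Lib.MP_2f3286_ag.Full.FullFinal
import Pool.Agent.Lib.MP_2f3286_ag.Pt.FinLift

/-!
# Adelic sections of the fundamental group of a very affine curve over a number field
-/

open IsDedekindDomain NumberField Polynomial

namespace Pool.Agent.Lib.MP_2f3286_ag.Full

theorem root_of_unit {R M kb : Type*} [CommRing R] [Field M] [Field kb] [Algebra R M]
    [Algebra kb M] (hmax : Pt.IsRadClosed R M kb) (b : M) (h1 : IsIntegral R b)
    (h2 : IsIntegral R b⁻¹) (n : ℕ) (hn : 1 ≤ n) : ∃ c : M, c ^ n = b := by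
  by_cases hb : b = 0
  · exact ⟨0, by rw [hb, zero_pow (by omega)]⟩
  refine hmax n b hn hb fun Ψ _ => ⟨1, 1, ⟨b, h1⟩, ?_, ?_, ?_⟩
  · rw [map_one]; exact one_ne_zero
  · intro h0
    have h3 : Ψ ⟨b, h1⟩ * Ψ ⟨b⁻¹, h2⟩ = 1 := by
      rw [← map_mul]
      have h4 : (⟨b, h1⟩ * ⟨b⁻¹, h2⟩ : integralClosure R M) = 1 :=
        Subtype.ext (mul_inv_cancel₀ hb)
      rw [h4, map_one]
    rw [h0, zero_mul] at h3
    exact zero_ne_one h3
  · simp

universe u in
theorem full_final2 {k : Type u} [Field k] [NumberField k]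
    {F : Type*} [Field F] [NumberField F] [Algebra F k]
    {K : Type*} [Field K] [Algebra k K]
    (R : Subalgebra k K) (hRn : ∀ y : K, IsIntegral R y → y ∈ R) (hfg : R.FG)
    (f : R) (hf : Transcendental k (f : K))
    [FiniteDimensional (IntermediateField.adjoin k {(f : K)}) K]
    (S₀ : Finset (HeightOneSpectrum (𝓞 F))) (S : Finset (HeightOneSpectrum (𝓞 k)))
    (hS : ∀ v : HeightOneSpectrum (𝓞 k), v ∈ S ↔ ∃ w ∈ S₀, v.asIdeal.LiesOver w.asIdeal)
    (A : Finset F)
    (hA : (Fintype.card (InfinitePlace F) + S₀.card ≤ 1 ∧ Module.finrank F k ≤ A.card) ∨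
      (Fintype.card (InfinitePlace F) + S₀.card ≤ 2 ∧ 2 * Module.finrank F k ≤ A.card))
    (hunit : ∀ c ∈ A, IsUnit (f - algebraMap k R (algebraMap F k c)))
    {M : Type*} [Field M] [Algebra K M] [IsGalois K M]
    [Algebra (AlgebraicClosure k) M] [Algebra k M]
    [IsScalarTower k K M] [IsScalarTower k (AlgebraicClosure k) M]
    (hRU : ∀ r : R, algebraMap R M r ∈
      Subring.closure {b : M | IsIntegral R b ∧ IsIntegral R b⁻¹})
    (hun : ∀ Ψ : integralClosure R M →+* AlgebraicClosure k,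
      (∀ (a : AlgebraicClosure k) (b : integralClosure R M), (b : M) = algebraMap _ M a → Ψ b = a) →
      ∀ g ∈ geomGroup K M (AlgebraicClosure k),
        (∀ b b' : integralClosure R M, (b' : M) = g b → Ψ b' = Ψ b) → g = 1)
    (hmax : Pt.IsRadClosed R M (AlgebraicClosure k))
    (s : Gal(AlgebraicClosure k/k) →* Gal(M/K)) (hs : Continuous s)
    (hsec : ∀ σ a, s σ (algebraMap (AlgebraicClosure k) M a) =
      algebraMap (AlgebraicClosure k) M (σ a))
    (ι : ∀ v : {v : HeightOneSpectrum (𝓞 k) // v ∉ S},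
      AlgebraicClosure k →ₐ[k] AlgebraicClosure (v.1.adicCompletion k))
    (φ : ∀ v : {v : HeightOneSpectrum (𝓞 k) // v ∉ S},
      integralClosure R M →+* AlgebraicClosure (v.1.adicCompletion k))
    (hφ : ∀ v, Respects s (v.1.adicCompletion k)
      (ι v : _ →+* AlgebraicClosure (v.1.adicCompletion k)) (φ v))
    (T : Finset (HeightOneSpectrum (𝓞 k)))
    (hint : ∀ v, v.1 ∉ T → ∀ c ∈ A, ∃ y : v.1.adicCompletion k, Valued.v y = 1 ∧
      φ v (algebraMap R (integralClosure R M) (f - algebraMap k R (algebraMap F k c))) =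
        algebraMap _ _ y) :
    ∃ (x : R →ₐ[k] k) (Ψ : integralClosure R M →+* AlgebraicClosure k),
      (∀ r, Ψ (algebraMap R _ r) = algebraMap k _ (x r)) ∧
      (∀ v r, φ v (algebraMap R _ r) = ι v (algebraMap k _ (x r))) ∧
      Respects s k (RingHom.id _) Ψ ∧
      ∀ Ψ' : integralClosure R M →+* AlgebraicClosure k,
        Respects s k (RingHom.id _) Ψ' → Ψ' = Ψ := by
  refine full_final R hRn f hf S₀ S hS A hA hunit (fun c hc n hn => ?_) (fun r => ?_) hun
    (Or.inr fun B hBN hBo ℓ hℓ => ?_) s hs hsec ι φ hφ T hint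
  · obtain ⟨u, hu⟩ := hunit c hc
    refine root_of_unit hmax _ ?_ ?_ n hn
    · rw [← hu]; exact isIntegral_algebraMap
    · have h1 : (algebraMap R M (u : R))⁻¹ = algebraMap R M (↑u⁻¹ : R) := by
        apply inv_eq_of_mul_eq_one_right
        rw [← map_mul, Units.mul_inv, map_one]
      rw [← hu, h1]; exact isIntegral_algebraMap
  · have h1 : {b : M | IsIntegral R b ∧ IsIntegral R b⁻¹} ⊆ {b : M | IsDivUnit R b} :=
      fun b hb => ⟨hb.1, hb.2, fun n hn => root_of_unit hmax b hb.1 hb.2 n hn⟩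
    exact Subring.closure_mono h1 (hRU r)
  · obtain ⟨O, hO, hON⟩ := hBo
    exact Pt.fin_lift (k := k) (f : K) hf R f.2 hfg (fun Ψ hΨ g hg h => hun Ψ hΨ g hg h) hmax _
      (fun g => Iff.rfl) B hBN O hO hON ℓ

end Pool.Agent.Lib.MP_2f3286_ag.Full
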