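import Mathlib
import Pool.Agent.Lib.MP_2f3286_ag.Full.FullFinal2
import Pool.Agent.Lib.MP_2f3286_ag.Full.FullCoreAlt
import Pool.Agent.Lib.MP_2f3286_ag.Pt.MaxUnr

/-!
# Adelic sections of the fundamental group of an affine curve over a number field, general case
-/

open IsDedekindDomain NumberField Polynomial

namespace Pool.Agent.Lib.MP_2f3286_ag.Full

universe u in
theorem gen_final {k : Type u} [Field k] [NumberField k]
    {F : Type*} [Field F] [NumberField F] [Algebra F k]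
    {K : Type*} [Field K] [Algebra k K]
    (R : Subalgebra k K) (hRn : ∀ y : K, IsIntegral R y → y ∈ R) (hfg : R.FG)
    (f : R) (hf : Transcendental k (f : K))
    [FiniteDimensional (IntermediateField.adjoin k {(f : K)}) K]
    (S₀ : Finset (HeightOneSpectrum (𝓞 F))) (S : Finset (HeightOneSpectrum (𝓞 k)))
    (hS : ∀ v : HeightOneSpectrum (𝓞 k), v ∈ S ↔ ∃ w ∈ S₀, v.asIdeal.LiesOver w.asIdeal)
    (A : Finset F)
    (hA : (Fintype.card (InfinitePlace F) + S₀.card ≤ 1 ∧ Module.finrank F k ≤ A.card) ∨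
      (Fintype.card (InfinitePlace F) + S₀.card ≤ 2 ∧ 2 * Module.finrank F k ≤ A.card))
    (hunit : ∀ c ∈ A, IsUnit (f - algebraMap k R (algebraMap F k c)))
    {M : Type*} [Field M] [Algebra K M] [IsGalois K M]
    [Algebra (AlgebraicClosure k) M] [Algebra k M]
    [IsScalarTower k K M] [IsScalarTower k (AlgebraicClosure k) M]
    (hun : ∀ Ψ : integralClosure R M →+* AlgebraicClosure k,
      (∀ (a : AlgebraicClosure k) (b : integralClosure R M), (b : M) = algebraMap _ M a → Ψ b = a) →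
      ∀ g ∈ geomGroup K M (AlgebraicClosure k),
        (∀ b b' : integralClosure R M, (b' : M) = g b → Ψ b' = Ψ b) → g = 1)
    (hmax : Pt.IsRadClosed R M (AlgebraicClosure k))
    (s : Gal(AlgebraicClosure k/k) →* Gal(M/K)) (hs : Continuous s)
    (hsec : ∀ σ a, s σ (algebraMap (AlgebraicClosure k) M a) =
      algebraMap (AlgebraicClosure k) M (σ a))
    (ι : ∀ v : {v : HeightOneSpectrum (𝓞 k) // v ∉ S},
      AlgebraicClosure k →ₐ[k] AlgebraicClosure (v.1.adicCompletion k))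
    (φ : ∀ v : {v : HeightOneSpectrum (𝓞 k) // v ∉ S},
      integralClosure R M →+* AlgebraicClosure (v.1.adicCompletion k))
    (hφ : ∀ v, Respects s (v.1.adicCompletion k)
      (ι v : _ →+* AlgebraicClosure (v.1.adicCompletion k)) (φ v))
    (T : Finset (HeightOneSpectrum (𝓞 k)))
    (hint : ∀ v, v.1 ∉ T → ∀ c ∈ A, ∃ y : v.1.adicCompletion k, Valued.v y = 1 ∧
      φ v (algebraMap R (integralClosure R M) (f - algebraMap k R (algebraMap F k c))) =
        algebraMap _ _ y) :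
    ∃ (c₀ : k) (Δ : Subgroup Gal(AlgebraicClosure k/k))
      (Ψ : integralClosure R M →+* AlgebraicClosure k),
      (∀ v, φ v (algebraMap R _ f) = ι v (algebraMap k _ c₀)) ∧
      IsOpen (Δ : Set Gal(AlgebraicClosure k/k)) ∧
      (∀ (a : AlgebraicClosure k) (b : integralClosure R M), (b : M) = algebraMap _ M a → Ψ b = a) ∧
      Ψ (algebraMap R _ f) = algebraMap k _ c₀ ∧
      (∀ σ ∈ Δ, ∀ b b' : integralClosure R M, (b' : M) = s σ b → Ψ b' = σ (Ψ b)) ∧
      (∀ Ψ' : integralClosure R M →+* AlgebraicClosure k,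
        (∀ (a : AlgebraicClosure k) (b : integralClosure R M), (b : M) = algebraMap _ M a →
          Ψ' b = a) → (∀ r : R, Ψ' (algebraMap R _ r) = Ψ (algebraMap R _ r)) →
        (∃ Δ' : Subgroup Gal(AlgebraicClosure k/k), IsOpen (Δ' : Set Gal(AlgebraicClosure k/k)) ∧
          ∀ σ ∈ Δ', ∀ b b' : integralClosure R M, (b' : M) = s σ b → Ψ' b' = σ (Ψ' b)) → Ψ' = Ψ) ∧
      ((∀ r : R, ∃ c : k, Ψ (algebraMap R _ r) = algebraMap k _ c) →
        Respects s k (RingHom.id _) Ψ) := by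
  classical
  set kb := AlgebraicClosure k with hkb
  have htr := trdeg_of_finite hf
  have hfree : ∀ A ≤ geomGroup K M kb, OpenIn (geomGroup K M kb) A → ∀ (ℓ : ℕ) [Fact ℓ.Prime],
      Finite (A →ₜ* Multiplicative (ZMod ℓ)) ∧
      ∀ f : A →ₜ* Multiplicative (ZMod ℓ), ∃ F : A →ₜ* Multiplicative ℤ_[ℓ], ∀ a,
        PadicInt.toZMod (F a).toAdd = (f a).toAdd := by
    intro B hBN hBo ℓ hℓ
    obtain ⟨O, hO, hON⟩ := hBo
    exact Pt.fin_lift (k := k) (f : K) hf R f.2 hfg (fun Ψ hΨ g hg h => hun Ψ hΨ g hg h) hmax _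
      (fun g => Iff.rfl) B hBN O hO hON ℓ
  have hBk : ∀ a : kb, IsIntegral R (algebraMap kb M a) := Pt.integral_const R
  -- the small ring
  let u : F → K := fun c => (f : K) - algebraMap k K (algebraMap F k c)
  let R₁ : Subalgebra k K := Algebra.adjoin k (insert (f : K) ((fun c => (u c)⁻¹) '' (A : Set F)))
  have huR : ∀ c ∈ A, u c ∈ R ∧ (u c)⁻¹ ∈ R := by
    intro c hc
    obtain ⟨w, hw⟩ := hunit c hc
    have h1 : (w : R) = (f - algebraMap k R (algebraMap F k c)) := hw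
    have h2 : ((w : R) : K) = u c := by rw [h1]; rfl
    refine ⟨by rw [← h2]; exact (w : R).2, ?_⟩
    have h3 : ((↑w⁻¹ : R) : K) = (u c)⁻¹ := by
      rw [← h2]
      refine eq_inv_of_mul_eq_one_left ?_
      have h4 := congrArg (Subtype.val : R → K) (w.inv_mul)
      exact h4
    rw [← h3]; exact (↑w⁻¹ : R).2
  have hle : R₁ ≤ R := by
    refine Algebra.adjoin_le ?_
    rintro x (rfl | ⟨c, hc, rfl⟩)
    · exact f.2
    · exact (huR c hc).2
  have hf₁ : (f : K) ∈ R₁ := Algebra.subset_adjoin (Set.mem_insert _ _)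
  let f₁ : R₁ := ⟨f, hf₁⟩
  have huR₁ : ∀ c ∈ A, (u c)⁻¹ ∈ R₁ := fun c hc =>
    Algebra.subset_adjoin (Set.mem_insert_of_mem _ ⟨c, hc, rfl⟩)
  have hu0 : ∀ c : F, u c ≠ 0 := by
    intro c h0
    have h1 : (f : K) = algebraMap k K (algebraMap F k c) := sub_eq_zero.mp h0
    exact hf (by rw [h1]; exact isAlgebraic_algebraMap _)
  have hAne : A.Nonempty := by
    rw [← Finset.card_pos]
    have : 0 < Module.finrank F k := Module.finrank_pos
    rcases hA with h | h <;> omega
  have hunit₁ : ∀ c ∈ A, IsUnit (f₁ - algebraMap k R₁ (algebraMap F k c)) := by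
    intro c hc
    refine IsUnit.of_mul_eq_one ⟨(u c)⁻¹, huR₁ c hc⟩ (Subtype.ext ?_)
    exact mul_inv_cancel₀ (hu0 c)
  -- integral elements
  have hint₁ : ∀ b : M, IsIntegral R₁ b → IsIntegral R b := by
    intro b hb
    let _ : Algebra R₁ R := (Subalgebra.inclusion hle).toAlgebra
    have : IsScalarTower R₁ R M := IsScalarTower.of_algebraMap_eq fun x => rfl
    exact hb.tower_top
  let inc : integralClosure R₁ M →+* integralClosure R M :=
    { toFun := fun b => ⟨b, hint₁ _ b.2⟩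
      map_one' := rfl
      map_mul' := fun _ _ => rfl
      map_zero' := rfl
      map_add' := fun _ _ => rfl }
  have hunitM : ∀ c ∈ A, IsIntegral R₁ (algebraMap K M (u c)) ∧
      IsIntegral R₁ (algebraMap K M (u c))⁻¹ := by
    intro c hc
    constructor
    · have h1 : algebraMap K M (u c) =
          algebraMap R₁ M (f₁ - algebraMap k R₁ (algebraMap F k c)) := rfl
      rw [h1]; exact isIntegral_algebraMap
    · have h1 : (algebraMap K M (u c))⁻¹ = algebraMap R₁ M ⟨(u c)⁻¹, huR₁ c hc⟩ := by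
        rw [← map_inv₀]; rfl
      rw [h1]; exact isIntegral_algebraMap
  have hroots : ∀ c ∈ A, ∀ n : ℕ, 1 ≤ n → ∃ b : M, b ^ n = algebraMap K M (u c) := by
    intro c hc n hn
    exact root_of_unit hmax _ (hint₁ _ (hunitM c hc).1) (hint₁ _ (hunitM c hc).2) n hn
  have hdiv : ∀ c ∈ A, IsDivUnit R₁ (algebraMap K M (u c)) := fun c hc =>
    ⟨(hunitM c hc).1, (hunitM c hc).2, hroots c hc⟩
  have hBk₁ : ∀ a : kb, IsIntegral R₁ (algebraMap kb M a) := Pt.integral_const R₁
  have hconst : ∀ a : k, algebraMap k M a ∈ divUnitRing R₁ M := by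
    intro a
    refine Subring.subset_closure ?_
    rw [IsScalarTower.algebraMap_apply k kb M]
    refine ⟨hBk₁ _, by rw [← map_inv₀]; exact hBk₁ _, fun n hn => ?_⟩
    obtain ⟨c, hc⟩ := IsAlgClosed.exists_pow_nat_eq (algebraMap k kb a) hn
    exact ⟨algebraMap kb M c, by rw [← map_pow, hc]⟩
  have hRU₁ : ∀ r : R₁, algebraMap R₁ M r ∈ divUnitRing R₁ M := by
    rintro ⟨r, hr⟩
    change algebraMap K M r ∈ divUnitRing R₁ M
    induction hr using Algebra.adjoin_induction with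
    | mem r hr =>
      rcases hr with rfl | ⟨c, hc, rfl⟩
      · obtain ⟨c, hc⟩ := hAne
        have h1 : algebraMap K M (f : K) =
            algebraMap K M (u c) + algebraMap k M (algebraMap F k c) := by
          rw [IsScalarTower.algebraMap_apply k K M, ← map_add]
          congr 1
          exact (sub_add_cancel _ _).symm
        rw [h1]
        exact add_mem (Subring.subset_closure (hdiv c hc)) (hconst _)
      · beta_reduce
        rw [map_inv₀]
        exact Subring.subset_closure (hdiv c hc).inv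
    | algebraMap a =>
      rw [← IsScalarTower.algebraMap_apply]
      exact hconst a
    | add a b _ _ ha hb => rw [map_add]; exact add_mem ha hb
    | mul a b _ _ ha hb => rw [map_mul]; exact mul_mem ha hb
  have hres : ∀ v, Respects s (v.1.adicCompletion k)
      (ι v : _ →+* AlgebraicClosure (v.1.adicCompletion k)) ((φ v).comp inc) := fun v =>
    ⟨fun a b hb => (hφ v).1 a (inc b) hb, fun σ τ hστ b b' hb => (hφ v).2 σ τ hστ (inc b) (inc b') hb⟩
  obtain ⟨x, ψ, hxψ, -, hψφ, -, -⟩ := norm_final htr R₁ f₁ (fun c h => hf (by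
    have h1 : (f : K) = algebraMap k K c := congrArg (Subtype.val : R₁ → K) h
    rw [h1]; exact isAlgebraic_algebraMap c)) S₀ S hS A hA hunit₁
    (fun c hc n hn => hroots c hc n hn) hRU₁ s hs hsec ι (fun v => (φ v).comp inc) hres T
    (fun v hv c hc => hint v hv c hc)
  have hφf : ∀ v, φ v (algebraMap R _ f) = ι v (algebraMap k _ (x f₁)) := by
    intro v
    have h1 := hψφ v ⟨algebraMap R₁ M f₁, hRU₁ f₁⟩ (algebraMap R₁ _ f₁) rfl
    rw [hxψ] at h1
    exact h1
  obtain ⟨Δ, Ψ, h1, h2, h3, h4, h5, h6⟩ := full_core_alt (f : K) hf R f.2 hRn hun hfree s hs hsec S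
    ι φ hφ (x f₁) hφf
  exact ⟨x f₁, Δ, Ψ, hφf, h1, h2, h3, h4, h5, h6⟩

universe u in
/-- Two points over the same point of `R` with the same section over a finite extension agree. -/
theorem uniq_open {k : Type u} [Field k] [NumberField k]
    {K : Type*} [Field K] [Algebra k K] (t : K) (ht : Transcendental k t)
    [FiniteDimensional (IntermediateField.adjoin k {t}) K]
    (R : Subalgebra k K) (hRn : ∀ x : K, IsIntegral R x → x ∈ R)
    {M : Type*} [Field M] [Algebra K M] [IsGalois K M]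
    [Algebra (AlgebraicClosure k) M] [Algebra k M]
    [IsScalarTower k K M] [IsScalarTower k (AlgebraicClosure k) M]
    (hun : ∀ Ψ : integralClosure R M →+* AlgebraicClosure k,
      (∀ (a : AlgebraicClosure k) (b : integralClosure R M), (b : M) = algebraMap _ M a → Ψ b = a) →
      ∀ g ∈ geomGroup K M (AlgebraicClosure k),
        (∀ b b' : integralClosure R M, (b' : M) = g b → Ψ b' = Ψ b) → g = 1)
    (hfree : ∀ A ≤ geomGroup K M (AlgebraicClosure k),
      OpenIn (geomGroup K M (AlgebraicClosure k)) A → ∀ (ℓ : ℕ) [Fact ℓ.Prime],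
      Finite (A →ₜ* Multiplicative (ZMod ℓ)) ∧
      ∀ f : A →ₜ* Multiplicative (ZMod ℓ), ∃ F : A →ₜ* Multiplicative ℤ_[ℓ], ∀ a,
        PadicInt.toZMod (F a).toAdd = (f a).toAdd)
    (s : Gal(AlgebraicClosure k/k) →* Gal(M/K))
    (hsec : ∀ σ a, s σ (algebraMap (AlgebraicClosure k) M a) =
      algebraMap (AlgebraicClosure k) M (σ a))
    (Ψ Ψ' : integralClosure R M →+* AlgebraicClosure k)
    (hΨ : ∀ (a : AlgebraicClosure k) (b : integralClosure R M), (b : M) = algebraMap _ M a → Ψ b = a)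
    (hΨ' : ∀ (a : AlgebraicClosure k) (b : integralClosure R M), (b : M) = algebraMap _ M a →
      Ψ' b = a)
    (hr : ∀ r : R, Ψ' (algebraMap R _ r) = Ψ (algebraMap R _ r))
    (Δ Δ' : Subgroup Gal(AlgebraicClosure k/k)) (hΔo : IsOpen (Δ : Set Gal(AlgebraicClosure k/k)))
    (hΔ'o : IsOpen (Δ' : Set Gal(AlgebraicClosure k/k)))
    (hΔ : ∀ σ ∈ Δ, ∀ b b' : integralClosure R M, (b' : M) = s σ b → Ψ b' = σ (Ψ b))
    (hΔ' : ∀ σ ∈ Δ', ∀ b b' : integralClosure R M, (b' : M) = s σ b → Ψ' b' = σ (Ψ' b)) :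
    Ψ' = Ψ := by
  classical
  set kb := AlgebraicClosure k with hkb
  have hBk : ∀ a : kb, IsIntegral R (algebraMap kb M a) := Pt.integral_const R
  have hNn : (geomGroup K M kb).Normal := geomGroup_normal k
  have hkR : ∀ a : k, ∃ r : R, algebraMap R M r = algebraMap k M a := by
    intro a
    exact ⟨algebraMap k R a, by rw [← IsScalarTower.algebraMap_apply]⟩
  have hfr : ∀ g ∈ geomGroup K M kb, (∀ b, Ψ (actHom R g b) = Ψ b) → g = 1 := by
    intro g hg h
    refine hun Ψ hΨ g hg fun b b' hb => ?_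
    have : b' = actHom R g b := Subtype.ext hb
    rw [this]; exact h b
  obtain ⟨z, hz, hz'⟩ := points_trans' (fun x hx => ⟨⟨x, hRn x hx⟩, rfl⟩) hBk Ψ Ψ'
    (fun a => hΨ a _ rfl) (fun a => hΨ' a _ rfl) hr hkR
  have hzN : z ∈ geomGroup K M kb := hz
  have h1 : z = 1 := by
    refine cent_sub t ht hfree s hsec (Δ ⊓ Δ') (hΔo.inter hΔ'o) z hz ?_
    rintro σ ⟨hσ1, hσ2⟩
    apply free_of_free Ψ hfr
    · have h2 : z * s σ * (s σ * z)⁻¹ = z * (s σ * z * (s σ)⁻¹)⁻¹ := by group
      rw [h2]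
      exact mul_mem hzN (inv_mem (hNn.conj_mem _ hzN _))
    · intro b
      rw [actHom_mul, ← hz', hΔ' σ hσ2 b (actHom R (s σ) b) rfl, actHom_mul,
        hΔ σ hσ1 (actHom R z b) (actHom R (s σ) (actHom R z b)) rfl, ← hz']
  ext b
  rw [hz', h1, actHom_one]

universe u in
/-- The general case and the case where `R` lies in the ring generated by units of coverings. -/
theorem gen_final' {k : Type u} [Field k] [NumberField k]
    {F : Type*} [Field F] [NumberField F] [Algebra F k]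
    {K : Type*} [Field K] [Algebra k K]
    (R : Subalgebra k K) (hRn : ∀ y : K, IsIntegral R y → y ∈ R) (hfg : R.FG)
    (f : R) (hf : Transcendental k (f : K))
    [FiniteDimensional (IntermediateField.adjoin k {(f : K)}) K]
    (S₀ : Finset (HeightOneSpectrum (𝓞 F))) (S : Finset (HeightOneSpectrum (𝓞 k)))
    (hS : ∀ v : HeightOneSpectrum (𝓞 k), v ∈ S ↔ ∃ w ∈ S₀, v.asIdeal.LiesOver w.asIdeal)
    (A : Finset F)
    (hA : (Fintype.card (InfinitePlace F) + S₀.card ≤ 1 ∧ Module.finrank F k ≤ A.card) ∨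
      (Fintype.card (InfinitePlace F) + S₀.card ≤ 2 ∧ 2 * Module.finrank F k ≤ A.card))
    (hunit : ∀ c ∈ A, IsUnit (f - algebraMap k R (algebraMap F k c)))
    {M : Type*} [Field M] [Algebra K M] [IsGalois K M]
    [Algebra (AlgebraicClosure k) M] [Algebra k M]
    [IsScalarTower k K M] [IsScalarTower k (AlgebraicClosure k) M]
    (hun : ∀ Ψ : integralClosure R M →+* AlgebraicClosure k,
      (∀ (a : AlgebraicClosure k) (b : integralClosure R M), (b : M) = algebraMap _ M a → Ψ b = a) →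
      ∀ g ∈ geomGroup K M (AlgebraicClosure k),
        (∀ b b' : integralClosure R M, (b' : M) = g b → Ψ b' = Ψ b) → g = 1)
    (hmax : Pt.IsRadClosed R M (AlgebraicClosure k))
    (s : Gal(AlgebraicClosure k/k) →* Gal(M/K)) (hs : Continuous s)
    (hsec : ∀ σ a, s σ (algebraMap (AlgebraicClosure k) M a) =
      algebraMap (AlgebraicClosure k) M (σ a))
    (ι : ∀ v : {v : HeightOneSpectrum (𝓞 k) // v ∉ S},
      AlgebraicClosure k →ₐ[k] AlgebraicClosure (v.1.adicCompletion k))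
    (φ : ∀ v : {v : HeightOneSpectrum (𝓞 k) // v ∉ S},
      integralClosure R M →+* AlgebraicClosure (v.1.adicCompletion k))
    (hφ : ∀ v, Respects s (v.1.adicCompletion k)
      (ι v : _ →+* AlgebraicClosure (v.1.adicCompletion k)) (φ v))
    (T : Finset (HeightOneSpectrum (𝓞 k)))
    (hint : ∀ v, v.1 ∉ T → ∀ c ∈ A, ∃ y : v.1.adicCompletion k, Valued.v y = 1 ∧
      φ v (algebraMap R (integralClosure R M) (f - algebraMap k R (algebraMap F k c))) =
        algebraMap _ _ y) :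
    ∃ (c₀ : k) (Δ : Subgroup Gal(AlgebraicClosure k/k))
      (Ψ : integralClosure R M →+* AlgebraicClosure k),
      IsOpen (Δ : Set Gal(AlgebraicClosure k/k)) ∧
      (∀ (a : AlgebraicClosure k) (b : integralClosure R M), (b : M) = algebraMap _ M a → Ψ b = a) ∧
      (∀ σ ∈ Δ, ∀ b b' : integralClosure R M, (b' : M) = s σ b → Ψ b' = σ (Ψ b)) ∧
      Ψ (algebraMap R _ f) = algebraMap k _ c₀ ∧
      (∀ v, φ v (algebraMap R _ f) = ι v (algebraMap k _ c₀)) ∧
      (∀ Ψ' : integralClosure R M →+* AlgebraicClosure k,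
        (∀ (a : AlgebraicClosure k) (b : integralClosure R M), (b : M) = algebraMap _ M a →
          Ψ' b = a) → (∀ r : R, Ψ' (algebraMap R _ r) = Ψ (algebraMap R _ r)) →
        (∃ Δ' : Subgroup Gal(AlgebraicClosure k/k), IsOpen (Δ' : Set Gal(AlgebraicClosure k/k)) ∧
          ∀ σ ∈ Δ', ∀ b b' : integralClosure R M, (b' : M) = s σ b → Ψ' b' = σ (Ψ' b)) → Ψ' = Ψ) ∧
      ((∀ r : R, ∃ c : k, Ψ (algebraMap R _ r) = algebraMap k _ c) →
        Respects s k (RingHom.id _) Ψ) ∧
      ((∀ r : R, algebraMap R M r ∈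
        Subring.closure {b : M | IsIntegral R b ∧ IsIntegral R b⁻¹}) →
        (∀ r : R, ∃ c : k, Ψ (algebraMap R _ r) = algebraMap k _ c ∧
          ∀ v, φ v (algebraMap R _ r) = ι v (algebraMap k _ c)) ∧
        ∀ Ψ' : integralClosure R M →+* AlgebraicClosure k,
          Respects s k (RingHom.id _) Ψ' → Ψ' = Ψ) := by
  by_cases hRU : ∀ r : R, algebraMap R M r ∈
      Subring.closure {b : M | IsIntegral R b ∧ IsIntegral R b⁻¹}
  · obtain ⟨x, Ψ, h1, h2, h3, h4⟩ := full_final2 R hRn hfg f hf S₀ S hS A hA hunit hRU hun hmax s hs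
      hsec ι φ hφ T hint
    have hΨs : ∀ σ ∈ (⊤ : Subgroup Gal(AlgebraicClosure k/k)), ∀ b b' : integralClosure R M,
        (b' : M) = s σ b → Ψ b' = σ (Ψ b) := fun σ _ b b' hb => h3.2 σ σ (fun x => rfl) b b' hb
    refine ⟨x f, ⊤, Ψ, isOpen_univ, h3.1, hΨs, h1 f, fun v => h2 v f, fun Ψ' hΨ' hr hs' => ?_,
      fun _ => h3, fun _ => ⟨fun r => ⟨x r, h1 r, fun v => h2 v r⟩, h4⟩⟩
    obtain ⟨Δ', hΔ'o, hΔ'⟩ := hs'
    refine uniq_open (f : K) hf R hRn hun (fun B hBN hBo ℓ hℓ => ?_) s hsec Ψ Ψ' h3.1 hΨ' hr ⊤ Δ'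
      isOpen_univ hΔ'o hΨs hΔ'
    obtain ⟨O, hO, hON⟩ := hBo
    exact Pt.fin_lift (k := k) (f : K) hf R f.2 hfg (fun Ψ hΨ g hg h => hun Ψ hΨ g hg h) hmax _
      (fun g => Iff.rfl) B hBN O hO hON ℓ
  · obtain ⟨c₀, Δ, Ψ, h0, h1, h2, h3, h4, h5, h6⟩ := gen_final R hRn hfg f hf S₀ S hS A hA hunit hun
      hmax s hs hsec ι φ hφ T hint
    exact ⟨c₀, Δ, Ψ, h1, h2, h4, h3, h0, h5, h6, fun h => absurd h hRU⟩

end Pool.Agent.Lib.MP_2f3286_ag.Full
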