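import Mathlib
import Pool.Agent.Lib.MP_2f3286_ag.Full.Defs
import Pool.Agent.Lib.MP_2f3286_ag.Full.Gauss

/-!
# Reduction of a field extension of `kb(t)` at a Gauss valuation
-/

open Polynomial IntermediateField
open scoped Pointwise

namespace Pool.Agent.Lib.MP_2f3286_ag.Full

namespace NL

open IsLocalRing

section Res

variable (kb : Type*) {L : Type*} [Field kb] [Field L] [Algebra kb L] (𝒲 : ValuationSubring L)

/-- trace on the constants -/
abbrev tr : ValuationSubring kb := 𝒲.comap (algebraMap kb L)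

/-- the inclusion of valuation rings -/
def trHom : tr kb 𝒲 →+* 𝒲 := (algebraMap kb L).restrict (tr kb 𝒲) 𝒲 (fun _ hx => hx)

theorem trHom_coe (a : tr kb 𝒲) : ((trHom kb 𝒲 a : 𝒲) : L) = algebraMap kb L a := rfl

instance trHom_local : IsLocalHom (trHom kb 𝒲) := by
  constructor
  intro a ha
  obtain ⟨b, hb⟩ := ha.exists_right_inv
  have h0 : (a : kb) ≠ 0 := by
    rintro h
    have : trHom kb 𝒲 a = 0 := by
      apply Subtype.ext
      rw [trHom_coe, h, map_zero]; rfl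
    rw [this, zero_mul] at hb
    exact zero_ne_one hb
  have h1 : algebraMap kb L (a : kb) * (b : L) = 1 := congrArg Subtype.val hb
  have h2 : (b : L) = algebraMap kb L (a : kb)⁻¹ := by
    rw [map_inv₀]; exact (inv_eq_of_mul_eq_one_right h1).symm
  have h3 : (a : kb)⁻¹ ∈ tr kb 𝒲 := by
    rw [ValuationSubring.mem_comap, ← h2]; exact b.2
  exact IsUnit.of_mul_eq_one ⟨_, h3⟩ (Subtype.ext (mul_inv_cancel₀ h0))

/-- residue field of the constants -/
abbrev kap := ResidueField (tr kb 𝒲)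

/-- residue field -/
abbrev Om := ResidueField 𝒲

noncomputable instance algRes : Algebra (kap kb 𝒲) (Om 𝒲) := (ResidueField.map (trHom kb 𝒲)).toAlgebra

theorem algRes_residue (a : tr kb 𝒲) :
    algebraMap (kap kb 𝒲) (Om 𝒲) (residue _ a) = residue _ (trHom kb 𝒲 a) :=
  ResidueField.map_residue _ _

theorem residue_zero_iff (x : 𝒲) : residue 𝒲 x = 0 ↔ 𝒲.valuation (x : L) < 1 := by
  rw [residue_eq_zero_iff, ValuationSubring.valuation_lt_one_iff]

theorem residue_ne_zero_iff (x : 𝒲) : residue 𝒲 x ≠ 0 ↔ 𝒲.valuation (x : L) = 1 := by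
  rw [Ne, residue_zero_iff, not_lt]
  constructor
  · intro h; exact le_antisymm ((𝒲.valuation_le_one_iff _).2 x.2) h
  · intro h; exact h.ge

theorem residue_eq_iff (x y : 𝒲) : residue 𝒲 x = residue 𝒲 y ↔
    𝒲.valuation ((x : L) - y) < 1 := by
  rw [← sub_eq_zero, ← map_sub, residue_zero_iff]
  rfl

theorem val_lt_iff {E : Type*} [Field E] (A : ValuationSubring E) (x : E) :
    A.valuation x < 1 ↔ x = 0 ∨ x⁻¹ ∉ A := by
  by_cases h : x = 0
  · simp [h]
  · have h0 : A.valuation x ≠ 0 := (_root_.map_ne_zero _).2 h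
    rw [← ValuationSubring.valuation_le_one_iff, map_inv₀, not_le, or_iff_right h,
      one_lt_inv₀ (zero_lt_iff.2 h0)]

theorem val_lt_iff_tr (a : kb) :
    (tr kb 𝒲).valuation a < 1 ↔ 𝒲.valuation (algebraMap kb L a) < 1 := by
  rw [val_lt_iff, val_lt_iff, ValuationSubring.mem_comap, map_inv₀, map_eq_zero]

/-- restriction to the valuation ring -/
def restr (f : L ≃+* L) (hf : ∀ x, f x ∈ 𝒲 ↔ x ∈ 𝒲) : 𝒲 ≃+* 𝒲 where
  toFun x := ⟨f x, (hf x).2 x.2⟩
  invFun x := ⟨f.symm x, (hf _).1 (by rw [f.apply_symm_apply]; exact x.2)⟩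
  left_inv x := Subtype.ext (f.symm_apply_apply _)
  right_inv x := Subtype.ext (f.apply_symm_apply _)
  map_mul' x y := Subtype.ext (map_mul f _ _)
  map_add' x y := Subtype.ext (map_add f _ _)

theorem restr_coe (f : L ≃+* L) (hf : ∀ x, f x ∈ 𝒲 ↔ x ∈ 𝒲) (x : 𝒲) :
    ((restr 𝒲 f hf x : 𝒲) : L) = f x := rfl

/-- induced automorphism of the residue field -/
noncomputable def resAut (f : L ≃+* L) (hf : ∀ x, f x ∈ 𝒲 ↔ x ∈ 𝒲) : Om 𝒲 ≃+* Om 𝒲 :=
  ResidueField.mapEquiv (restr 𝒲 f hf)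

theorem resAut_residue (f : L ≃+* L) (hf : ∀ x, f x ∈ 𝒲 ↔ x ∈ 𝒲) (x : 𝒲) :
    resAut 𝒲 f hf (residue _ x) = residue _ (restr 𝒲 f hf x) := rfl

theorem exists_lift (x : Om 𝒲) : ∃ y : 𝒲, residue 𝒲 y = x := IsLocalRing.residue_surjective x

end Res

section Const

variable {kb : Type*} [Field kb] (V : ValuationSubring kb)

theorem isAlgClosed_res [IsAlgClosed kb] : IsAlgClosed (ResidueField V) := by
  apply IsAlgClosed.of_exists_root
  intro q hq hirr
  obtain ⟨Q, hQ1, hQ2, hQ3⟩ := Polynomial.lifts_and_natDegree_eq_and_monic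
    (f := residue V) (p := q) (by
      rw [Polynomial.lifts_iff_coeff_lifts]
      intro n
      exact IsLocalRing.residue_surjective _) hq
  have hd : (Q.map (algebraMap V kb)).degree ≠ 0 := by
    rw [hQ3.degree_map, Polynomial.degree_eq_natDegree hQ3.ne_zero, hQ2]
    have := hirr.natDegree_pos
    intro h
    have h' : q.natDegree = 0 := by exact_mod_cast h
    omega
  obtain ⟨x, hx⟩ := IsAlgClosed.exists_root _ hd
  have hint : IsIntegral V x := ⟨Q, hQ3, by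
    rw [← Polynomial.eval_map]; exact hx⟩
  obtain ⟨y, hy⟩ := IsIntegrallyClosed.isIntegral_iff.1 hint
  refine ⟨residue V y, ?_⟩
  rw [← hQ1, Polynomial.eval_map, Polynomial.eval₂_hom]
  have : Q.eval y = 0 := by
    apply FaithfulSMul.algebraMap_injective V kb
    rw [map_zero, ← Polynomial.eval₂_hom, ← Polynomial.eval_map, hy]; exact hx
  rw [this, map_zero]

theorem charP_res (p : ℕ) [Fact p.Prime] (hp : V.valuation (p : kb) < 1) :
    CharP (ResidueField V) p := by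
  have h : ((p : ℕ) : ResidueField V) = 0 := by
    have : residue V (p : V) = 0 := by
      rw [residue_zero_iff]
      exact_mod_cast hp
    rw [← this, map_natCast]
  exact (CharP.charP_iff_prime_eq_zero Fact.out).2 h

theorem algebraic_res [CharZero kb] [Algebra.IsAlgebraic ℚ kb] (p : ℕ) [Fact p.Prime]
    (hp : V.valuation (p : kb) < 1) (x : ResidueField V) : ∃ n, 1 ≤ n ∧ x ^ p ^ n = x := by
  have := charP_res V p hp
  obtain ⟨a, rfl⟩ := IsLocalRing.residue_surjective x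
  have h1 : IsAlgebraic ℤ (a : kb) := by
    have : IsAlgebraic ℚ (a : kb) := Algebra.IsAlgebraic.isAlgebraic _
    exact (IsFractionRing.isAlgebraic_iff ℤ ℚ kb).2 this
  obtain ⟨f, hf0, hf⟩ := h1
  have h2 : aeval (a : kb) f.primPart = 0 := by
    have h3 := hf
    rw [f.eq_C_content_mul_primPart, map_mul, aeval_C] at h3
    refine (mul_eq_zero.1 h3).resolve_left ?_
    have : f.content ≠ 0 := Polynomial.content_eq_zero_iff.not.2 hf0
    simpa using this
  let : Algebra (ZMod p) (ResidueField V) := ZMod.algebra _ p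
  have h3 : IsAlgebraic (ZMod p) (residue V a) := by
    refine ⟨f.primPart.map (Int.castRingHom (ZMod p)), ?_, ?_⟩
    · intro h0
      have hprim := f.isPrimitive_primPart
      have hdvd : C (p : ℤ) ∣ f.primPart := by
        rw [Polynomial.C_dvd_iff_dvd_coeff]
        intro i
        have := congrArg (fun g => g.coeff i) h0
        simp only [coeff_map, coeff_zero, eq_intCast] at this
        exact (ZMod.intCast_zmod_eq_zero_iff_dvd _ _).1 this
      have hu := hprim _ hdvd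
      have := Int.natAbs_of_isUnit hu
      simp at this
      exact (Fact.out : p.Prime).one_lt.ne' this
    · rw [aeval_def, eval₂_map]
      have e1 : (algebraMap (ZMod p) (ResidueField V)).comp (Int.castRingHom (ZMod p)) =
        (residue V).comp (algebraMap ℤ V) := RingHom.ext_int _ _
      rw [e1, ← Polynomial.hom_eval₂, residue_eq_zero_iff]
      have e2 : f.primPart.eval₂ (algebraMap ℤ V) a = 0 := by
        apply Subtype.ext
        have e3 : ((f.primPart.eval₂ (algebraMap ℤ V) a : V) : kb) =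
          algebraMap V kb (f.primPart.eval₂ (algebraMap ℤ V) a) := rfl
        rw [e3, Polynomial.hom_eval₂]
        have e4 : (algebraMap V kb).comp (algebraMap ℤ V) = algebraMap ℤ kb := RingHom.ext_int _ _
        rw [e4]
        exact h2
      rw [e2]; exact zero_mem _
  have h4 : IsIntegral (ZMod p) (residue V a) := h3.isIntegral
  have : FiniteDimensional (ZMod p) (ZMod p)⟮residue V a⟯ :=
    IntermediateField.adjoin.finiteDimensional h4
  have : Finite (ZMod p)⟮residue V a⟯ := Module.finite_of_finite (ZMod p)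
  let : Fintype (ZMod p)⟮residue V a⟯ := Fintype.ofFinite _
  obtain ⟨n, -, hn⟩ := FiniteField.card (ZMod p)⟮residue V a⟯ p
  refine ⟨n, n.2, ?_⟩
  have h5 := FiniteField.pow_card (⟨residue V a, mem_adjoin_simple_self _ _⟩ :
    (ZMod p)⟮residue V a⟯)
  rw [hn] at h5
  exact congrArg Subtype.val h5

end Const

section Scale

variable {L : Type*} [Field L] (𝒲 : ValuationSubring L)

theorem exists_scale {ι : Type*} (s : Finset ι) (c : ι → L) (h : ∃ i ∈ s, c i ≠ 0) :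
    ∃ j ∈ s, c j ≠ 0 ∧ ∀ i ∈ s, 𝒲.valuation (c i / c j) ≤ 1 := by
  obtain ⟨i₀, hi₀, hc⟩ := h
  obtain ⟨j, hj, hmax⟩ := s.exists_max_image (fun i => 𝒲.valuation (c i)) ⟨i₀, hi₀⟩
  have h0 : 𝒲.valuation (c j) ≠ 0 := by
    intro h
    have := hmax i₀ hi₀
    rw [h, le_zero_iff, map_eq_zero] at this
    exact hc this
  refine ⟨j, hj, fun h => h0 (by rw [h, map_zero]), fun i hi => ?_⟩
  rw [map_div₀]
  exact (div_le_one₀ (zero_lt_iff.2 h0)).2 (hmax i hi)

end Scale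

section Gauss

variable {kb L : Type*} [Field kb] [Field L] [Algebra kb L] (t : L)
  (𝒲 : ValuationSubring L)

theorem t_mem (hG : IsGauss kb t 𝒲) : t ∈ 𝒲 := by
  rw [← ValuationSubring.valuation_le_one_iff]
  have := hG X (fun i => by
    rw [coeff_X]; split_ifs <;> simp) ⟨1, by simp⟩
  rw [aeval_X] at this
  exact this.le

/-- the residue of `t` -/
noncomputable def tres (hG : IsGauss kb t 𝒲) : Om 𝒲 := residue 𝒲 ⟨t, t_mem t 𝒲 hG⟩

/-- polynomials over the trace -/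
theorem aeval_tr (hG : IsGauss kb t 𝒲) (f : (tr kb 𝒲)[X]) :
    ∃ y : 𝒲, (y : L) = aeval t (f.map (algebraMap (tr kb 𝒲) kb)) ∧
      residue 𝒲 y = aeval (tres t 𝒲 hG) (f.map (residue (tr kb 𝒲))) := by
  refine ⟨f.eval₂ (trHom kb 𝒲) ⟨t, t_mem t 𝒲 hG⟩, ?_, ?_⟩
  · have e : ((f.eval₂ (trHom kb 𝒲) ⟨t, t_mem t 𝒲 hG⟩ : 𝒲) : L) =
      algebraMap 𝒲 L (f.eval₂ (trHom kb 𝒲) ⟨t, t_mem t 𝒲 hG⟩) := rfl
    rw [e, hom_eval₂, aeval_def, eval₂_map]
    rfl
  · rw [hom_eval₂, aeval_def, eval₂_map]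
    rfl

/-- lifting polynomials with coefficients in the trace -/
theorem exists_tr (f : kb[X]) (hf : ∀ i, 𝒲.valuation (algebraMap kb L (f.coeff i)) ≤ 1) :
    ∃ f₀ : (tr kb 𝒲)[X], f₀.map (algebraMap (tr kb 𝒲) kb) = f := by
  have : f ∈ Polynomial.lifts (algebraMap (tr kb 𝒲) kb) := by
    rw [Polynomial.lifts_iff_coeff_lifts]
    intro n
    exact ⟨⟨f.coeff n, (𝒲.valuation_le_one_iff _).1 (hf n)⟩, rfl⟩
  obtain ⟨f₀, hf₀⟩ := (Polynomial.mem_lifts _).1 this
  exact ⟨f₀, hf₀⟩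

theorem val_coeff (f : (tr kb 𝒲)[X]) (i : ℕ) :
    𝒲.valuation (algebraMap kb L ((f.map (algebraMap (tr kb 𝒲) kb)).coeff i)) ≤ 1 := by
  rw [coeff_map]
  exact (𝒲.valuation_le_one_iff _).2 (f.coeff i).2

theorem tres_transcendental (hG : IsGauss kb t 𝒲) :
    Transcendental (kap kb 𝒲) (tres t 𝒲 hG) := by
  rw [transcendental_iff]
  intro q hq
  by_contra hq0
  obtain ⟨f, rfl⟩ := Polynomial.map_surjective (residue (tr kb 𝒲))
    IsLocalRing.residue_surjective q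
  obtain ⟨y, hy1, hy2⟩ := aeval_tr t 𝒲 hG f
  rw [hq, residue_zero_iff, hy1] at hy2
  have : ∃ i, (f.map (residue (tr kb 𝒲))).coeff i ≠ 0 := by
    by_contra h
    push Not at h
    exact hq0 (Polynomial.ext (by simpa using h))
  obtain ⟨i, hi⟩ := this
  have h1 := hG (f.map (algebraMap (tr kb 𝒲) kb)) (val_coeff 𝒲 f) ⟨i, by
    rw [coeff_map] at hi ⊢
    have h2 : residue 𝒲 (trHom kb 𝒲 (f.coeff i)) ≠ 0 := by
      rw [← algRes_residue]
      exact (_root_.map_ne_zero _).2 hi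
    exact (residue_ne_zero_iff 𝒲 _).1 h2⟩
  rw [h1] at hy2
  exact lt_irrefl _ hy2

/-- the value of a polynomial is the value of a constant -/
theorem exists_prim (f : kb[X]) (hf : f ≠ 0) :
    ∃ a : kb, a ≠ 0 ∧ (∀ i, 𝒲.valuation (algebraMap kb L ((C a * f).coeff i)) ≤ 1) ∧
      ∃ i, 𝒲.valuation (algebraMap kb L ((C a * f).coeff i)) = 1 := by
  have : ∃ i ∈ f.support, algebraMap kb L (f.coeff i) ≠ 0 := by
    refine ⟨f.natDegree, ?_, ?_⟩
    · exact natDegree_mem_support_of_nonzero hf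
    · rw [_root_.map_ne_zero]; exact leadingCoeff_ne_zero.2 hf
  obtain ⟨j, hj, hj0, hs⟩ := exists_scale 𝒲 f.support _ this
  have hj1 : f.coeff j ≠ 0 := (_root_.map_ne_zero _).1 hj0
  refine ⟨(f.coeff j)⁻¹, inv_ne_zero hj1, fun i => ?_, j, ?_⟩
  · by_cases hi : i ∈ f.support
    · have := hs i hi
      rw [coeff_C_mul, mul_comm, ← div_eq_mul_inv, map_div₀]; exact this
    · rw [coeff_C_mul, notMem_support_iff.1 hi, mul_zero, map_zero, map_zero]; exact zero_le_one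
  · rw [coeff_C_mul, inv_mul_cancel₀ hj1, map_one, map_one]

theorem residue_mem (hG : IsGauss kb t 𝒲) (c : L) (hc : c ∈ adjoin kb {t}) (hcW : c ∈ 𝒲) :
    residue 𝒲 ⟨c, hcW⟩ ∈ adjoin (kap kb 𝒲) {tres t 𝒲 hG} := by
  obtain ⟨r, s, hrs⟩ := (IntermediateField.mem_adjoin_simple_iff kb c).1 hc
  by_cases h0 : aeval t s = 0
  · rw [h0, div_zero] at hrs
    have : (⟨c, hcW⟩ : 𝒲) = 0 := Subtype.ext hrs
    rw [this, map_zero]; exact zero_mem _
  have hs0 : s ≠ 0 := by rintro rfl; simp at h0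
  obtain ⟨a, ha, ha1, ha2⟩ := exists_prim (L := L) 𝒲 s hs0
  have hval := hG _ ha1 ha2
  obtain ⟨s₀, hs₀⟩ := exists_tr 𝒲 (C a * s) ha1
  -- numerator
  have hr1 : ∀ i, 𝒲.valuation (algebraMap kb L ((C a * r).coeff i)) ≤ 1 := by
    by_cases hr0 : C a * r = 0
    · intro i; rw [hr0]; simp
    obtain ⟨b, hb, hb1, hb2⟩ := exists_prim (L := L) 𝒲 (C a * r) hr0
    have hvalr := hG _ hb1 hb2
    have h1 : aeval t (C b * (C a * r)) = algebraMap kb L b * (c * aeval t (C a * s)) := by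
      simp only [map_mul, aeval_C]
      rw [hrs]; field_simp
    rw [h1, map_mul, map_mul, hval, mul_one] at hvalr
    have hb3 : 1 ≤ 𝒲.valuation (algebraMap kb L b) := by
      by_contra hlt
      rw [not_le] at hlt
      have h2 : 𝒲.valuation c ≤ 1 := (𝒲.valuation_le_one_iff _).2 hcW
      have h3 : 𝒲.valuation (algebraMap kb L b) * 𝒲.valuation c < 1 :=
        mul_lt_one_of_lt_of_le hlt h2
      rw [hvalr] at h3
      exact lt_irrefl _ h3
    intro i
    have h4 := hb1 i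
    rw [coeff_C_mul, map_mul, map_mul] at h4
    calc 𝒲.valuation (algebraMap kb L ((C a * r).coeff i))
        = 1 * 𝒲.valuation (algebraMap kb L ((C a * r).coeff i)) := (one_mul _).symm
      _ ≤ 𝒲.valuation (algebraMap kb L b) * 𝒲.valuation (algebraMap kb L ((C a * r).coeff i)) :=
        mul_le_mul_left hb3 _
      _ ≤ 1 := h4
  obtain ⟨r₀, hr₀⟩ := exists_tr 𝒲 (C a * r) hr1
  obtain ⟨y, hy1, hy2⟩ := aeval_tr t 𝒲 hG s₀
  obtain ⟨z, hz1, hz2⟩ := aeval_tr t 𝒲 hG r₀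
  rw [hs₀] at hy1
  rw [hr₀] at hz1
  have hyne : residue 𝒲 y ≠ 0 := by
    rw [residue_ne_zero_iff, hy1]; exact hval
  have hmul : (⟨c, hcW⟩ : 𝒲) * y = z := by
    apply Subtype.ext
    change c * (y : L) = z
    rw [hy1, hz1, hrs]
    simp only [map_mul, aeval_C]
    field_simp
  have hres : residue 𝒲 ⟨c, hcW⟩ = residue 𝒲 z / residue 𝒲 y := by
    rw [eq_div_iff hyne, ← map_mul, hmul]
  rw [hres, hy2, hz2]
  exact (IntermediateField.mem_adjoin_simple_iff _ _).2 ⟨_, _, rfl⟩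

/-- reduction of linear relations over `kb(t)` -/
theorem rel_reduce (hG : IsGauss kb t 𝒲) {ι : Type*} (s : Finset ι)
    (c : ι → adjoin kb {t}) (x : ι → 𝒲) (h : ∑ i ∈ s, (c i : L) * (x i : L) = 0)
    (hne : ∃ i ∈ s, c i ≠ 0) :
    ∃ d : ι → adjoin (kap kb 𝒲) {tres t 𝒲 hG}, (∃ i ∈ s, d i ≠ 0) ∧
      ∑ i ∈ s, (d i : Om 𝒲) * residue 𝒲 (x i) = 0 := by
  classical
  obtain ⟨j, hj, hj0, hs⟩ := exists_scale 𝒲 s (fun i => (c i : L)) (by
    obtain ⟨i, hi, h0⟩ := hne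
    exact ⟨i, hi, by simpa using h0⟩)
  have hs' : ∀ i ∈ s, (c i : L) / c j ∈ 𝒲 := fun i hi => (𝒲.valuation_le_one_iff _).1 (hs i hi)
  set D : ι → 𝒲 := fun i => if hi : i ∈ s then ⟨(c i : L) / c j, hs' i hi⟩ else 0 with hD
  have hDi : ∀ i (hi : i ∈ s), D i = ⟨(c i : L) / c j, hs' i hi⟩ := fun i hi => by
    simp only [hD, dif_pos hi]
  have hDmem : ∀ i, residue 𝒲 (D i) ∈ adjoin (kap kb 𝒲) {tres t 𝒲 hG} := by
    intro i
    by_cases hi : i ∈ s
    · rw [hDi i hi]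
      exact residue_mem t 𝒲 hG _ (div_mem (c i).2 (c j).2) _
    · simp only [hD, dif_neg hi, map_zero]; exact zero_mem _
  refine ⟨fun i => ⟨residue 𝒲 (D i), hDmem i⟩, ⟨j, hj, ?_⟩, ?_⟩
  · intro h0
    have h1 : residue 𝒲 (D j) = 0 := congrArg Subtype.val h0
    have h2 : D j = 1 := by
      rw [hDi j hj]; exact Subtype.ext (div_self hj0)
    rw [h2, map_one] at h1
    exact one_ne_zero h1
  · have h1 : ∑ i ∈ s, D i * x i = 0 := by
      apply Subtype.ext
      have e : ((∑ i ∈ s, D i * x i : 𝒲) : L) = ∑ i ∈ s, (D i : L) * (x i : L) := by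
        push_cast; rfl
      rw [e]
      have : ∑ i ∈ s, (D i : L) * (x i : L) = (∑ i ∈ s, (c i : L) * (x i : L)) / c j := by
        rw [Finset.sum_div]
        refine Finset.sum_congr rfl fun i hi => ?_
        rw [hDi i hi]; exact div_mul_eq_mul_div _ _ _
      rw [this, h, zero_div]; rfl
    calc ∑ i ∈ s, residue 𝒲 (D i) * residue 𝒲 (x i) = residue 𝒲 (∑ i ∈ s, D i * x i) := by
          rw [map_sum]; exact Finset.sum_congr rfl fun i _ => (map_mul _ _ _).symm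
      _ = 0 := by rw [h1, map_zero]

theorem alg_res (halg : ∀ x : L, IsAlgebraic (adjoin kb {t}) x) (hG : IsGauss kb t 𝒲)
    (x : Om 𝒲) : IsAlgebraic (adjoin (kap kb 𝒲) {tres t 𝒲 hG}) x := by
  obtain ⟨y, rfl⟩ := exists_lift 𝒲 x
  obtain ⟨f, hf0, hf⟩ := halg (y : L)
  rw [aeval_eq_sum_range] at hf
  have h1 : ∑ i ∈ Finset.range (f.natDegree + 1), (f.coeff i : L) * ((y ^ i : 𝒲) : L) = 0 := by
    rw [← hf]
    refine Finset.sum_congr rfl fun i _ => ?_
    rw [Algebra.smul_def]; rfl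
  obtain ⟨d, ⟨j, hj, hdj⟩, hd⟩ := rel_reduce t 𝒲 hG _ (fun i => f.coeff i) (fun i => y ^ i) h1
    ⟨f.natDegree, Finset.self_mem_range_succ _, by
      rw [coeff_natDegree]; exact leadingCoeff_ne_zero.2 hf0⟩
  refine ⟨∑ i ∈ Finset.range (f.natDegree + 1), C (d i) * X ^ i, ?_, ?_⟩
  · intro h0
    have := congrArg (fun q => q.coeff j) h0
    simp only [finsetSum_coeff, coeff_C_mul, coeff_X_pow, coeff_zero] at this
    rw [Finset.sum_eq_single j] at this
    · simp only [if_true, mul_one] at this; exact hdj this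
    · intro b _ hb; rw [if_neg (Ne.symm hb), mul_zero]
    · intro h; exact absurd hj h
  · rw [map_sum, ← hd]
    refine Finset.sum_congr rfl fun i _ => ?_
    rw [map_mul, aeval_C, map_pow, aeval_X, map_pow]; rfl

/-- residues of a finite dimensional `kb(t)`-space -/
theorem fin_res (hG : IsGauss kb t 𝒲) (s : Finset L) :
    ∃ s' : Finset (Om 𝒲), ∀ y : 𝒲, (y : L) ∈ Submodule.span (adjoin kb {t}) (s : Set L) →
      residue 𝒲 y ∈ Submodule.span (adjoin (kap kb 𝒲) {tres t 𝒲 hG}) (s' : Set (Om 𝒲)) := by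
  classical
  set S := Submodule.span (adjoin kb {t}) (s : Set L) with hS
  set R : Set (Om 𝒲) := {z | ∃ y : 𝒲, (y : L) ∈ S ∧ residue 𝒲 y = z} with hR
  obtain ⟨b, hbR, hspan, hlin⟩ := exists_linearIndependent
    (adjoin (kap kb 𝒲) {tres t 𝒲 hG}) R
  have hfd : FiniteDimensional (adjoin kb {t}) S := FiniteDimensional.span_finset _ s
  have hbfin : b.Finite := by
    by_contra hinf
    obtain ⟨T, hTb, hTc⟩ := (Set.not_finite.1 hinf : b.Infinite).exists_subset_card_eq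
      (Module.finrank (adjoin kb {t}) S + 1)
    have hlT : LinearIndependent (adjoin (kap kb 𝒲) {tres t 𝒲 hG})
        (fun i : T => (i : Om 𝒲)) :=
      LinearIndependent.comp hlin (Set.inclusion hTb) (Set.inclusion_injective hTb)
    have hlift : ∀ z : T, ∃ y : 𝒲, (y : L) ∈ S ∧ residue 𝒲 y = (z : Om 𝒲) := fun z =>
      hbR (hTb z.2)
    choose y hyS hyr using hlift
    have hli : LinearIndependent (adjoin kb {t}) (fun z : T => (⟨(y z : L), hyS z⟩ : S)) := by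
      rw [Fintype.linearIndependent_iff]
      intro g hg
      by_contra hne
      push Not at hne
      obtain ⟨i₀, hi₀⟩ := hne
      have h1 : ∑ i, (g i : L) * (y i : L) = 0 := by
        have := congrArg Subtype.val hg
        rw [← S.subtype_apply, map_sum] at this
        simpa [Algebra.smul_def] using this
      obtain ⟨d, ⟨j, -, hdj⟩, hd⟩ := rel_reduce t 𝒲 hG Finset.univ g y h1
        ⟨i₀, Finset.mem_univ _, hi₀⟩
      rw [Fintype.linearIndependent_iff] at hlT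
      refine hdj (hlT d ?_ j)
      rw [← hd]
      refine Finset.sum_congr rfl fun i _ => ?_
      rw [hyr i]; rfl
    have := hli.fintype_card_le_finrank
    rw [Fintype.card_coe, hTc] at this
    omega
  refine ⟨hbfin.toFinset, fun y hy => ?_⟩
  rw [Set.Finite.coe_toFinset, hspan]
  exact Submodule.subset_span ⟨y, hy, rfl⟩

end Gauss

section Eigen

theorem root_eigen {kb L : Type*} [Field kb] [IsAlgClosed kb] [AddCommGroup L] [Module kb L]
    (T : L →ₗ[kb] L) (n : ℕ) : ∀ (q : kb[X]), q ≠ 0 → q.natDegree = n → ∀ z : L, z ≠ 0 →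
      aeval T q z = 0 → ∃ a, q.IsRoot a ∧ ∃ y, y ≠ 0 ∧ T y = a • y := by
  induction n with
  | zero =>
    intro q hq hn z hz h
    rw [eq_C_of_natDegree_eq_zero hn, aeval_C, Module.algebraMap_end_apply] at h
    refine absurd ((smul_eq_zero.1 h).resolve_right hz) ?_
    rw [← hn]
    exact leadingCoeff_ne_zero.2 hq
  | succ n ih =>
    intro q hq hn z hz h
    obtain ⟨a, ha⟩ := IsAlgClosed.exists_root q (by
      rw [Polynomial.degree_eq_natDegree hq, hn]; exact_mod_cast Nat.succ_ne_zero n)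
    obtain ⟨r, hr⟩ := Polynomial.dvd_iff_isRoot.2 ha
    have hr0 : r ≠ 0 := by rintro rfl; rw [mul_zero] at hr; exact hq hr
    have hrn : r.natDegree = n := by
      rw [hr, natDegree_mul (X_sub_C_ne_zero a) hr0, natDegree_X_sub_C] at hn
      omega
    by_cases h0 : aeval T r z = 0
    · obtain ⟨b, hb, hy⟩ := ih r hr0 hrn z hz h0
      refine ⟨b, ?_, hy⟩
      rw [hr]
      exact Polynomial.root_mul_left_of_isRoot _ hb
    · refine ⟨a, ha, _, h0, ?_⟩
      rw [hr, map_mul, Module.End.mul_apply, map_sub, aeval_X, aeval_C, LinearMap.sub_apply,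
        Module.algebraMap_end_apply] at h
      exact sub_eq_zero.1 h

theorem exists_eigen {kb L : Type*} [Field kb] [IsAlgClosed kb] [Field L] [Algebra kb L]
    (ℓ : ℕ) (hℓ : 1 ≤ ℓ) (τ : L ≃ₐ[kb] L) (x : L) (hx : τ x ≠ x) (hxl : (τ ^ ℓ) x = x) :
    ∃ (ξ : kb) (y : L), ∑ i ∈ Finset.range ℓ, ξ ^ i = 0 ∧ y ≠ 0 ∧
      τ y = algebraMap kb L ξ * y := by
  set q : kb[X] := ∑ i ∈ Finset.range ℓ, X ^ i with hq
  have hq1 : q.coeff (ℓ - 1) = 1 := by
    rw [hq, finsetSum_coeff, Finset.sum_eq_single (ℓ - 1)]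
    · simp
    · intro b _ hb
      rw [coeff_X_pow, if_neg (Ne.symm hb)]
    · intro h; exact absurd (Finset.mem_range.2 (by omega)) h
  have hq0 : q ≠ 0 := by
    intro h; rw [h, coeff_zero] at hq1; exact zero_ne_one hq1
  have hpow : ∀ (i : ℕ) (w : L), (τ.toLinearMap ^ i) w = (τ ^ i) w := by
    intro i
    induction i with
    | zero => intro w; rfl
    | succ i ih => intro w; rw [pow_succ, pow_succ, Module.End.mul_apply, ih]; rfl
  have hz : aeval τ.toLinearMap q (τ x - x) = 0 := by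
    rw [hq, map_sum, LinearMap.sum_apply]
    have : ∀ i ∈ Finset.range ℓ, (aeval τ.toLinearMap (X ^ i : kb[X])) (τ x - x) =
        (τ ^ (i + 1)) x - (τ ^ i) x := by
      intro i _
      rw [map_pow, aeval_X, hpow, map_sub, pow_succ, AlgEquiv.mul_apply]
    rw [Finset.sum_congr rfl this, Finset.sum_range_sub (fun i => (τ ^ i) x), hxl, pow_zero,
      AlgEquiv.one_apply, sub_self]
  obtain ⟨ξ, hξ, y, hy, hTy⟩ := root_eigen τ.toLinearMap _ q hq0 rfl _ (sub_ne_zero.2 hx) hz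
  refine ⟨ξ, y, ?_, hy, ?_⟩
  · have := hξ
    rw [IsRoot.def, hq, eval_finsetSum] at this
    simpa using this
  · rw [← Algebra.smul_def]; exact hTy

end Eigen

section Main

variable {kb L : Type*} [Field kb] [Field L] [Algebra kb L] (𝒲 : ValuationSubring L)

/-- automorphism over the constants -/
noncomputable def resAlg (f : L ≃ₐ[kb] L) (hf : ∀ x, f x ∈ 𝒲 ↔ x ∈ 𝒲) :
    Om 𝒲 ≃ₐ[kap kb 𝒲] Om 𝒲 :=
  AlgEquiv.ofRingEquiv (f := resAut 𝒲 (f : L ≃+* L) hf) (by
    intro a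
    obtain ⟨a, rfl⟩ := IsLocalRing.residue_surjective a
    rw [algRes_residue, resAut_residue]
    congr 1
    apply Subtype.ext
    rw [restr_coe, trHom_coe]
    exact f.commutes _)

theorem resAlg_residue (f : L ≃ₐ[kb] L) (hf : ∀ x, f x ∈ 𝒲 ↔ x ∈ 𝒲) (x : 𝒲) :
    resAlg 𝒲 f hf (residue _ x) = residue _ (⟨f x, (hf _).2 x.2⟩ : 𝒲) := rfl

/-- the action on the residue field -/
noncomputable def resHom {G : Type*} [Group G] (θ : G →* (L ≃ₐ[kb] L))
    (hθ : ∀ z x, θ z x ∈ 𝒲 ↔ x ∈ 𝒲) : G →* (Om 𝒲 ≃ₐ[kap kb 𝒲] Om 𝒲) where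
  toFun z := resAlg 𝒲 (θ z) (hθ z)
  map_one' := by
    ext x
    obtain ⟨x, rfl⟩ := exists_lift 𝒲 x
    rw [resAlg_residue, AlgEquiv.one_apply]
    congr 1
    apply Subtype.ext
    change θ 1 (x : L) = x
    rw [map_one]; rfl
  map_mul' z w := by
    ext x
    obtain ⟨x, rfl⟩ := exists_lift 𝒲 x
    rw [AlgEquiv.mul_apply, resAlg_residue, resAlg_residue, resAlg_residue]
    congr 1
    apply Subtype.ext
    change θ (z * w) (x : L) = θ z (θ w x)
    rw [map_mul]; rfl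

theorem resHom_residue {G : Type*} [Group G] (θ : G →* (L ≃ₐ[kb] L))
    (hθ : ∀ z x, θ z x ∈ 𝒲 ↔ x ∈ 𝒲) (z : G) (x : 𝒲) :
    resHom 𝒲 θ hθ z (residue _ x) = residue _ (⟨θ z x, (hθ z _).2 x.2⟩ : 𝒲) := rfl

variable {ℓ : ℕ} [Fact ℓ.Prime]

/-- every element of `ℤ_ℓ` is `n + ℓ ^ m w` -/
theorem exists_nat_add (m : ℕ) (z : ℤ_[ℓ]) : ∃ (n : ℕ) (w : ℤ_[ℓ]), z = n + (ℓ : ℤ_[ℓ]) ^ m * w := by
  have := PadicInt.appr_spec m z
  obtain ⟨w, hw⟩ := Ideal.mem_span_singleton.1 this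
  exact ⟨z.appr m, w, by rw [← hw]; ring⟩

/-- elements fixed by `1` and by an open subgroup are fixed -/
theorem fixed_of_one {A : Type*} {G : Type*} [Group G] [MulAction G A]
    (θ : Multiplicative ℤ_[ℓ] →* G) (x : A) (m : ℕ)
    (hm : ∀ z : ℤ_[ℓ], θ (Multiplicative.ofAdd ((ℓ : ℤ_[ℓ]) ^ m * z)) • x = x)
    (h1 : θ (Multiplicative.ofAdd 1) • x = x) (z : Multiplicative ℤ_[ℓ]) : θ z • x = x := by
  obtain ⟨n, w, hn⟩ := exists_nat_add m z.toAdd
  have hz : z = Multiplicative.ofAdd (1 : ℤ_[ℓ]) ^ n *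
      Multiplicative.ofAdd ((ℓ : ℤ_[ℓ]) ^ m * w) := by
    rw [← ofAdd_nsmul, ← ofAdd_add, nsmul_one, ← hn]; rfl
  have h2 : ∀ n : ℕ, θ (Multiplicative.ofAdd 1 ^ n) • x = x := by
    intro n
    induction n with
    | zero => rw [pow_zero, map_one, one_smul]
    | succ n ih => rw [pow_succ, map_mul, mul_smul, h1, ih]
  rw [hz, map_mul, mul_smul, hm, h2]

/-- averaging: a fixed residue is the residue of a fixed element -/
theorem exists_fixed_lift {p : ℕ} [Fact p.Prime] (hpl : p ≠ ℓ) (hp : 𝒲.valuation (p : L) < 1)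
    [CharZero L]
    (θ : Multiplicative ℤ_[ℓ] →* (L ≃ₐ[kb] L)) (hθ : ∀ z x, θ z x ∈ 𝒲 ↔ x ∈ 𝒲)
    (hcont : ∀ x : L, ∃ m : ℕ, ∀ z : ℤ_[ℓ], θ (Multiplicative.ofAdd ((ℓ : ℤ_[ℓ]) ^ m * z)) x = x)
    (x : Om 𝒲) (hx : ∀ z, resHom 𝒲 θ hθ z x = x) :
    ∃ y : 𝒲, residue 𝒲 y = x ∧ ∀ z, θ z (y : L) = y := by
  obtain ⟨y, rfl⟩ := exists_lift 𝒲 x
  obtain ⟨m, hm⟩ := hcont y
  have := charP_res 𝒲 p hp
  set S : 𝒲 := ∑ i ∈ Finset.range (ℓ ^ m),
    (⟨θ (Multiplicative.ofAdd (1 : ℤ_[ℓ]) ^ i) y, (hθ _ _).2 y.2⟩ : 𝒲) with hS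
  have hN : ((ℓ ^ m : ℕ) : Om 𝒲) ≠ 0 := by
    intro h
    rw [CharP.cast_eq_zero_iff (Om 𝒲) p] at h
    have := (Nat.prime_dvd_prime_iff_eq (Fact.out : p.Prime) (Fact.out : ℓ.Prime)).1
      ((Fact.out : p.Prime).dvd_of_dvd_pow h)
    exact hpl this
  have hNr : residue 𝒲 ((ℓ ^ m : ℕ) : 𝒲) = ((ℓ ^ m : ℕ) : Om 𝒲) := map_natCast _ _
  have hNu : IsUnit ((ℓ ^ m : ℕ) : 𝒲) := by
    rw [← residue_ne_zero_iff_isUnit, hNr]; exact hN
  obtain ⟨v, hv⟩ := hNu.exists_right_inv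
  have hSres : residue 𝒲 S = ((ℓ ^ m : ℕ) : Om 𝒲) * residue 𝒲 y := by
    rw [hS, map_sum]
    rw [Finset.sum_congr rfl fun i _ => (resHom_residue 𝒲 θ hθ _ y).symm]
    rw [Finset.sum_congr rfl fun i _ => hx _, Finset.sum_const, Finset.card_range, nsmul_eq_mul]
  have hScoe : (S : L) = ∑ i ∈ Finset.range (ℓ ^ m),
      θ (Multiplicative.ofAdd (1 : ℤ_[ℓ]) ^ i) (y : L) := by
    rw [hS]; push_cast; rfl
  have hSfix1 : θ (Multiplicative.ofAdd 1) (S : L) = S := by
    rw [hScoe, map_sum]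
    have h1 : ∀ i ∈ Finset.range (ℓ ^ m), θ (Multiplicative.ofAdd 1)
        (θ (Multiplicative.ofAdd (1 : ℤ_[ℓ]) ^ i) (y : L)) =
        θ (Multiplicative.ofAdd (1 : ℤ_[ℓ]) ^ (i + 1)) (y : L) := by
      intro i _
      rw [pow_succ', map_mul]; rfl
    rw [Finset.sum_congr rfl h1]
    have h2 := Finset.sum_range_succ (fun i => θ (Multiplicative.ofAdd (1 : ℤ_[ℓ]) ^ i) (y : L))
      (ℓ ^ m)
    rw [Finset.sum_range_succ'] at h2
    have h3 : θ (Multiplicative.ofAdd (1 : ℤ_[ℓ]) ^ (ℓ ^ m)) (y : L) = y := by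
      have := hm 1
      rw [mul_one] at this
      have e : Multiplicative.ofAdd (1 : ℤ_[ℓ]) ^ (ℓ ^ m) =
          Multiplicative.ofAdd ((ℓ : ℤ_[ℓ]) ^ m) := by
        rw [← ofAdd_nsmul, nsmul_one]; push_cast; rfl
      rw [e]; exact this
    rw [h3, pow_zero, map_one θ, AlgEquiv.one_apply] at h2
    exact add_right_cancel h2
  have hSfix2 : ∀ z : ℤ_[ℓ], θ (Multiplicative.ofAdd ((ℓ : ℤ_[ℓ]) ^ m * z)) (S : L) = S := by
    intro z
    rw [hScoe, map_sum]
    refine Finset.sum_congr rfl fun i _ => ?_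
    rw [← AlgEquiv.mul_apply, ← map_mul, mul_comm, map_mul, AlgEquiv.mul_apply, hm]
  have hSfix : ∀ z, θ z (S : L) = S := fun z =>
    fixed_of_one (A := L) (G := L ≃ₐ[kb] L) θ (S : L) m hSfix2 hSfix1 z
  refine ⟨v * S, ?_, fun z => ?_⟩
  · have h1 := congrArg (residue 𝒲) hv
    rw [map_mul, map_one, hNr] at h1
    rw [map_mul, hSres, ← mul_assoc, mul_comm (residue 𝒲 v), h1, one_mul]
  · have hv2 : ((ℓ ^ m : ℕ) : L) * (v : L) = 1 := by
      have := congrArg Subtype.val hv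
      simpa using this
    have hv3 : (v : L) = ((ℓ ^ m : ℕ) : L)⁻¹ := eq_inv_of_mul_eq_one_right hv2
    change θ z ((v : L) * (S : L)) = (v : L) * S
    rw [map_mul, hSfix, hv3, map_inv₀, map_natCast]

end Main

end NL

end Pool.Agent.Lib.MP_2f3286_ag.Full
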