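import Pool.Agent.Lib.MP_2f3286_ag.Full.NoTowerAux
import Pool.Agent.Lib.MP_2f3286_ag.Full.FinB
import Pool.Agent.Lib.MP_2f3286_ag.Full.Sep

/-!
# No equivariant `ℤ_ℓ`-extension in characteristic `p`
-/

set_option linter.unusedSectionVars false

open Polynomial IntermediateField

namespace Pool.Agent.Lib.MP_2f3286_ag.Full

namespace NoTower

section M

variable {κ Ω : Type*} [Field κ] [IsAlgClosed κ] [Field Ω] [Algebra κ Ω] {p ℓ : ℕ}
  [Fact p.Prime] [CharP κ p] [Fact ℓ.Prime]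

theorem bound [CharP Ω p] (hκ : ∀ x : κ, ∃ n, 1 ≤ n ∧ x ^ p ^ n = x) (t : Ω)
    (halg : ∀ x : Ω, IsAlgebraic (adjoin κ {t}) x) (ψ : Ω ≃+* Ω) (e : ℕ)
    (he : 1 ≤ e) (hψ : ∀ a : κ, ψ (algebraMap κ Ω a) = algebraMap κ Ω (a ^ p ^ e))
    (hper : ∀ x : Ω, ∃ r, 1 ≤ r ∧ (ψ ^ r) x = x) (θ : Multiplicative ℤ_[ℓ] →* (Ω ≃ₐ[κ] Ω))
    (hcont : ∀ x : Ω, ∃ m : ℕ, ∀ z : ℤ_[ℓ], θ (Multiplicative.ofAdd ((ℓ : ℤ_[ℓ]) ^ m * z)) x = x)
    (hψθ : ∀ z x, ψ (θ z x) = θ z (ψ x)) (hκQ : ∀ (Q : ValuationSubring Ω) (a : κ), algebraMap κ Ω a ∈ Q)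
    (hfree : ∀ Q : ValuationSubring Ω, Q ≠ ⊤ → ∀ z, (∀ x ∈ Q, θ z x ∈ Q) → z = 1)
    (V : ValuationSubring Ω) (hV : t ∉ V) (hψV : ∀ x, x ∈ V ↔ ψ x ∈ V)
    (A₀ : IntermediateField (frobField Ω p e) Ω) (hA₀ : ∀ x, x ∈ A₀ ↔ x ∈ fixS ψ θ 0)
    (y : A₀) (hy : Transcendental (frobField Ω p e) y)
    [FiniteDimensional (adjoin (frobField Ω p e) {y}) A₀]
    [Algebra.IsSeparable (adjoin (frobField Ω p e) {y}) A₀] (hyV : (y : Ω) ∉ V)
    (hyQ : ∀ Q : ValuationSubring A₀, y ∉ Q → Q = V.comap (algebraMap A₀ Ω)) (m : ℕ) (hm : 1 ≤ m) :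
    ℓ ^ m ≤ Nat.card (frobField Ω p e)ˣ *
      Nat.card (ClassGroup (integralClosure (Algebra.adjoin (frobField Ω p e) {y}) A₀)) := by
  have : Finite (frobField Ω p e) := frobField_finite he
  have hE0 : ∀ x : A₀, algebraMap A₀ Ω x ∈ fixS ψ θ 0 := fun x => (hA₀ _).1 x.2
  have hE : ∀ x : A₀, algebraMap A₀ Ω x ∈ fixS ψ θ m := fun x => fix0_le m (hE0 x)
  have hE1 : ∀ x ∈ fixS ψ θ 0, ∃ a : A₀, algebraMap A₀ Ω a = x :=
    fun x hx => ⟨⟨x, (hA₀ x).2 hx⟩, rfl⟩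
  have hfd : FiniteDimensional A₀ (bigA ψ θ m hE) := finite_bigA ψ θ hψθ m hE hE0 hE1
  have halgΩ : Algebra.IsAlgebraic A₀ Ω := algebraic_top hκ ψ e he hψ hper θ hcont hψθ hE0 hE1
  have hVtop : V ≠ ⊤ := by
    rintro rfl
    exact hV trivial
  have hsplit : ∀ i : ℕ, (∀ x ∈ fixS ψ θ m, x ∈ V → θ (Multiplicative.ofAdd (i : ℤ_[ℓ])) x ∈ V) →
      ℓ ^ m ∣ i := fun i h =>
    split_dvd hκ t halg ψ e he hψ hper θ hcont hψθ hE0 V (hκQ V) hV hψV (hfree V hVtop) m i h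
  refine fin_bound (F := frobField Ω p e) (A₀ := A₀) (A := bigA ψ θ m hE) y hy ?_ (ℓ ^ m) ?_
    (sig ψ θ hψθ m hE hE0) (sig_pow_eq_one ψ θ hψθ m hE hE0) ?_
    (V.comap (algebraMap (bigA ψ θ m hE) Ω)) ?_ ?_ ?_ ?_
  · intro x hx
    have : IsScalarTower (frobField Ω p e) (bigA ψ θ m hE) Ω :=
      IsScalarTower.of_algebraMap_eq fun _ => rfl
    have h1 : IsAlgebraic (frobField Ω p e) (algebraMap (bigA ψ θ m hE) Ω x) := hx.algebraMap
    obtain ⟨a, ha⟩ := exists_const_of_alg_frobField (κ := κ) he h1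
    have h2 : a ^ p ^ e = a := by
      apply (algebraMap κ Ω).injective
      rw [← hψ, ha]
      exact x.2.1
    have h3 : (x : Ω) ∈ frobField Ω p e := by
      rw [mem_frobField]
      change (algebraMap (bigA ψ θ m hE) Ω x) ^ p ^ e = algebraMap (bigA ψ θ m hE) Ω x
      rw [← ha, ← map_pow, h2]
    exact ⟨⟨x, h3⟩, rfl⟩
  · calc 2 ≤ ℓ := (Fact.out : ℓ.Prime).two_le
      _ = ℓ ^ 1 := (pow_one ℓ).symm
      _ ≤ ℓ ^ m := Nat.pow_le_pow_right (Fact.out : ℓ.Prime).pos hm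
  · exact sig_fix ψ θ hψθ m hE hE0 hE1
  · exact hyV
  · intro i hi
    by_contra hcon
    push Not at hcon
    apply hi
    apply hsplit
    intro x hx hxV
    have h1 := hcon ⟨x, hx⟩ hxV
    have h2 := sig_pow ψ θ hψθ m hE hE0 i ⟨x, hx⟩
    rw [ValuationSubring.mem_comap] at h1
    have h3 : algebraMap (bigA ψ θ m hE) Ω ((sig ψ θ hψθ m hE hE0 ^ i) ⟨x, hx⟩) =
      θ (Multiplicative.ofAdd (i : ℤ_[ℓ])) x := h2
    rwa [h3] at h1
  · intro Q hQ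
    let σ := sig ψ θ hψθ m hE hE0
    have hfin : Finite (Subgroup.zpowers σ) := sig_finite ψ θ hψθ m hE hE0
    let _ : TopologicalSpace (Subgroup.zpowers σ) := ⊥
    have : DiscreteTopology (Subgroup.zpowers σ) := ⟨rfl⟩
    have hQ0 : Q.comap (algebraMap A₀ (bigA ψ θ m hE)) = V.comap (algebraMap A₀ Ω) :=
      hyQ _ hQ
    obtain ⟨g, hg⟩ := val_trans (E := A₀) (M := bigA ψ θ m hE) (G := Subgroup.zpowers σ)
      (fun x => isOpen_discrete _) (fun g x => AlgEquiv.commutes (g : bigA ψ θ m hE ≃ₐ[A₀] bigA ψ θ m hE) x)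
      (fun x hx => sig_fix ψ θ hψθ m hE hE0 hE1 x (hx ⟨σ, Subgroup.mem_zpowers σ⟩))
      (V.comap (algebraMap (bigA ψ θ m hE) Ω)) Q (by
        rw [hQ0]
        rfl)
    have hord : IsOfFinOrder σ :=
      isOfFinOrder_iff_pow_eq_one.2 ⟨ℓ ^ m, pow_pos (Fact.out : ℓ.Prime).pos m,
        sig_pow_eq_one ψ θ hψθ m hE hE0⟩
    obtain ⟨i, hi⟩ := hord.mem_powers_iff_mem_zpowers.2 g.2
    have hi' : σ ^ i = g := hi
    refine ⟨i, fun x => ?_⟩
    rw [hg x]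
    change _ ↔ (σ ^ i) x ∈ _
    rw [hi']
    rfl
  · intro i hi 𝔪 h𝔪
    by_contra hcon
    push Not at hcon
    exact hi (inert_dvd hκ ψ e he hψ hper θ hcont hψθ hκQ hfree hE0 m hE y hy i 𝔪 h𝔪 hcon)

theorem main_aux (hκ : ∀ x : κ, ∃ n, 1 ≤ n ∧ x ^ p ^ n = x) (t : Ω) (ht : Transcendental κ t)
    (halg : ∀ x : Ω, IsAlgebraic (adjoin κ {t}) x) (ψ : Ω ≃+* Ω) (e : ℕ)
    (he : 1 ≤ e) (hψ : ∀ a : κ, ψ (algebraMap κ Ω a) = algebraMap κ Ω (a ^ p ^ e)) (hψt : ψ t = t)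
    (θ : Multiplicative ℤ_[ℓ] →* (Ω ≃ₐ[κ] Ω)) (hθt : ∀ z, θ z t = t)
    (hcont : ∀ x : Ω, ∃ m : ℕ, ∀ z : ℤ_[ℓ], θ (Multiplicative.ofAdd ((ℓ : ℤ_[ℓ]) ^ m * z)) x = x)
    (hfin : ∃ s : Finset Ω, ∀ x, (∀ z, θ z x = x) →
      x ∈ Submodule.span (adjoin κ {t}) (s : Set Ω))
    (hψθ : ∀ z x, ψ (θ z x) = θ z (ψ x))
    (hfree : ∀ Q : ValuationSubring Ω, Q ≠ ⊤ → ∀ z, (∀ x ∈ Q, θ z x ∈ Q) → z = 1)
    (V : ValuationSubring Ω) (hV : t ∉ V) (hψV : ∀ x, x ∈ V ↔ ψ x ∈ V) : False := by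
  have : CharP Ω p := charP_top κ Ω p
  have : Finite (frobField Ω p e) := frobField_finite he
  have hκQ : ∀ (Q : ValuationSubring Ω) (a : κ), algebraMap κ Ω a ∈ Q := const_mem hκ
  have hper := exists_period hκ t halg ψ e hψ hψt
  let A₀ : IntermediateField (frobField Ω p e) Ω :=
    (fixS ψ θ 0).toIntermediateField (fun x => frob_le_fix he hψ θ x x.2)
  have hA₀ : ∀ x, x ∈ A₀ ↔ x ∈ fixS ψ θ 0 := fun x => Iff.rfl
  let t₀ : A₀ := ⟨t, hψt, fun z => hθt _⟩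
  have htr : Transcendental (frobField Ω p e) t₀ := by
    intro h
    have h2 : IsAlgebraic (frobField Ω p e) (algebraMap A₀ Ω t₀) := h.algebraMap
    exact transc_frobField (κ := κ) he ht h2
  obtain ⟨s, hs⟩ := hfin
  have hfd : FiniteDimensional (adjoin (frobField Ω p e) {t₀}) A₀ :=
    finite_A0 he ht ψ hψ hψt A₀ (fun x hx => hx.1) t₀ rfl s
      (fun x hx => hs x (theta_of_fix0 hx))
  obtain ⟨y, hyP, hyQ, hfdy, hsep⟩ := sep_pole t₀ htr (V.comap (algebraMap A₀ Ω)) (by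
    intro h
    have h1 : t₀ ∈ V.comap (algebraMap A₀ Ω) := by rw [h]; trivial
    exact hV h1)
  have hy : Transcendental (frobField Ω p e) y := by
    intro h
    have h2 : IsAlgebraic (frobField Ω p e) (algebraMap A₀ Ω y) := h.algebraMap
    obtain ⟨a, ha⟩ := exists_const_of_alg_frobField (κ := κ) he h2
    apply hyP
    rw [ValuationSubring.mem_comap, ← ha]
    exact hκQ V a
  have hyQ' : ∀ Q : ValuationSubring A₀, y ∉ Q → Q = V.comap (algebraMap A₀ Ω) := by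
    intro Q hQ
    by_contra hne
    apply hQ
    apply hyQ Q _ hne
    rintro rfl
    exact hQ trivial
  have hb := bound hκ t halg ψ e he hψ hper θ hcont hψθ hκQ hfree V hV hψV A₀ hA₀ y hy hyP hyQ'
  have h1 := hb (Nat.card (frobField Ω p e)ˣ *
      Nat.card (ClassGroup (integralClosure (Algebra.adjoin (frobField Ω p e) {y}) A₀)) + 1)
      (by omega)
  have h2 := (Nat.lt_pow_self (Fact.out : ℓ.Prime).one_lt :
    Nat.card (frobField Ω p e)ˣ *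
      Nat.card (ClassGroup (integralClosure (Algebra.adjoin (frobField Ω p e) {y}) A₀)) + 1 <
      ℓ ^ _)
  omega

end M

end NoTower

open NoTower in
/-- no equivariant `ℤ_ℓ`-extension in characteristic `p` -/
theorem no_tower {κ Ω : Type*} [Field κ] [IsAlgClosed κ] {p ℓ : ℕ} [Fact p.Prime] [CharP κ p]
    (hκ : ∀ x : κ, ∃ n, 1 ≤ n ∧ x ^ p ^ n = x) [Fact ℓ.Prime] (hpl : p ≠ ℓ) [Field Ω]
    [Algebra κ Ω] (t : Ω) (ht : Transcendental κ t) (halg : ∀ x : Ω, IsAlgebraic (adjoin κ {t}) x)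
    (θ : Multiplicative ℤ_[ℓ] →* (Ω ≃ₐ[κ] Ω)) (hθ : Function.Injective θ) (hθt : ∀ z, θ z t = t)
    (hcont : ∀ x : Ω, ∃ m : ℕ, ∀ z : ℤ_[ℓ], θ (Multiplicative.ofAdd ((ℓ : ℤ_[ℓ]) ^ m * z)) x = x)
    (hfin : ∃ s : Finset Ω, ∀ x, (∀ z, θ z x = x) →
      x ∈ Submodule.span (adjoin κ {t}) (s : Set Ω))
    (ψ : Ω ≃+* Ω) (e : ℕ) (he : 1 ≤ e)
    (hψ : ∀ a : κ, ψ (algebraMap κ Ω a) = algebraMap κ Ω (a ^ p ^ e)) (hψt : ψ t = t)
    (hψθ : ∀ z x, ψ (θ z x) = θ z (ψ x)) : False := by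
  have hκQ : ∀ (Q : ValuationSubring Ω) (a : κ), algebraMap κ Ω a ∈ Q := const_mem hκ
  -- a place at infinity
  obtain ⟨V, hV⟩ : ∃ V : ValuationSubring Ω, t ∉ V := by
    by_contra hcon
    push Not at hcon
    have h1 : t ∈ (⨅ V : {V : ValuationSubring Ω // (∅ : Set Ω) ⊆ V.toSubring}, V.1.toSubring) := by
      rw [Subring.mem_iInf]
      exact fun V => hcon V.1
    rw [iInf_valuationSubring_superset] at h1
    have h2 : IsIntegral (Subring.closure (∅ : Set Ω)) t := h1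
    have h3 : IsIntegral κ t := by
      obtain ⟨f, hf, hft⟩ := h2
      have hmem : ∀ x ∈ Subring.closure (∅ : Set Ω), x ∈ (algebraMap κ Ω).range := by
        intro x hx
        exact (Subring.closure_le.2 (Set.empty_subset _) : _ ≤ (algebraMap κ Ω).range) hx
      have hlift : f.map (Subring.closure (∅ : Set Ω)).subtype ∈ Polynomial.lifts (algebraMap κ Ω) := by
        rw [Polynomial.lifts_iff_coeff_lifts]
        intro n
        rw [coeff_map]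
        exact hmem _ (f.coeff n).2
      obtain ⟨g, hg, -, hgm⟩ := Polynomial.lifts_and_natDegree_eq_and_monic hlift
        (hf.map (Subring.closure (∅ : Set Ω)).subtype)
      refine ⟨g, hgm, ?_⟩
      rw [← eval_map, hg, eval_map]
      exact hft
    exact ht h3.isAlgebraic
  have hVtop : V ≠ ⊤ := by
    rintro rfl
    exact hV trivial
  obtain ⟨⟨j, z, hj, hz⟩, -⟩ := free_places hκ hpl t ht halg θ hθ hθt hcont hfin ψ e he hψ hψt hψθ
    V hVtop (hκQ V)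
  have hfree : ∀ Q : ValuationSubring Ω, Q ≠ ⊤ → ∀ z, (∀ x ∈ Q, θ z x ∈ Q) → z = 1 :=
    fun Q hQ => (free_places hκ hpl t ht halg θ hθ hθt hcont hfin ψ e he hψ hψt hψθ Q hQ
      (hκQ Q)).2
  have hψj : ∀ (j : ℕ) z x, (ψ ^ j) (θ z x) = θ z ((ψ ^ j) x) := by
    intro j
    induction j with
    | zero => intro z x; simp
    | succ j ih =>
      intro z x
      rw [pow_succ, mul_app, hψθ, ih, mul_app]
  have hψt' : (ψ ^ j) t = t := by
    clear hz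
    induction j with
    | zero => simp
    | succ j ih =>
      rcases Nat.eq_zero_or_pos j with rfl | hj'
      · simpa using hψt
      · rw [pow_succ, mul_app, hψt, ih hj']
  have hcomm : ∀ z z' x, θ z (θ z' x) = θ z' (θ z x) := by
    intro z z' x
    have h1 : θ (z * z') = θ (z' * z) := by rw [mul_comm]
    rw [map_mul, map_mul] at h1
    exact congrArg (fun f : Ω ≃ₐ[κ] Ω => f x) h1
  refine main_aux (κ := κ) hκ t ht halg ((ψ ^ j).trans (θ z).toRingEquiv) (e * j)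
    (Nat.mul_pos he hj) (fun a => ?_) ?_ θ hθt hcont hfin (fun z' x => ?_) hfree V hV hz
  · change θ z ((ψ ^ j) (algebraMap κ Ω a)) = _
    rw [pow_frob ψ e hψ j a, AlgEquiv.commutes]
  · change θ z ((ψ ^ j) t) = t
    rw [hψt', hθt]
  · change θ z ((ψ ^ j) (θ z' x)) = θ z' (θ z ((ψ ^ j) x))
    rw [hψj, hcomm]

end Pool.Agent.Lib.MP_2f3286_ag.Full
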