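import Mathlib
import Pool.Agent.Lib.MP_2f3286_ag.Full.Defs
import Pool.Agent.Lib.MP_2f3286_ag.Full.Gauss
import Pool.Agent.Lib.MP_2f3286_ag.Full.NoLiftAux
import Pool.Agent.Lib.MP_2f3286_ag.Full.NoTower

/-!
# No equivariant `ℤ_ℓ`-extension with a Gauss valuation
-/

open Polynomial IntermediateField
open scoped Pointwise

namespace Pool.Agent.Lib.MP_2f3286_ag.Full

set_option linter.unusedVariables false in
theorem no_lift {kb L : Type*} [Field kb] [IsAlgClosed kb] [CharZero kb] [Algebra.IsAlgebraic ℚ kb]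
    [Field L] [Algebra kb L] (t : L) (ht : Transcendental kb t)
    (halg : ∀ x : L, IsAlgebraic (adjoin kb {t}) x) {p ℓ : ℕ} [Fact p.Prime] [Fact ℓ.Prime]
    (hpl : p ≠ ℓ) (𝒲 : ValuationSubring L) (hp : 𝒲.valuation (p : L) < 1) (hG : IsGauss kb t 𝒲)
    (θ : Multiplicative ℤ_[ℓ] →* (L ≃ₐ[kb] L)) (hθ : Function.Injective θ) (hθt : ∀ z, θ z t = t)
    (hθW : ∀ z x, x ∈ 𝒲 → θ z x ∈ 𝒲)
    (hcont : ∀ x : L, ∃ m : ℕ, ∀ z : ℤ_[ℓ], θ (Multiplicative.ofAdd ((ℓ : ℤ_[ℓ]) ^ m * z)) x = x)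
    (hfin : ∃ s : Finset L, ∀ x, (∀ z, θ z x = x) →
      x ∈ Submodule.span (adjoin kb {t}) (s : Set L))
    (g : L ≃+* L) (hgk : ∀ a : kb, ∃ b : kb, g (algebraMap kb L a) = algebraMap kb L b)
    (hgt : g t = t) (hgW : ∀ x, g x ∈ 𝒲 ↔ x ∈ 𝒲) (hgθ : ∀ z x, g (θ z x) = θ z (g x))
    (e : ℕ) (he : 1 ≤ e) (hfr : ∀ a : kb, algebraMap kb L a ∈ 𝒲 →
      𝒲.valuation (g (algebraMap kb L a) - algebraMap kb L a ^ p ^ e) < 1) : False := by
  have hθW' : ∀ z x, θ z x ∈ 𝒲 ↔ x ∈ 𝒲 := by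
    intro z x
    refine ⟨fun h => ?_, hθW z x⟩
    have := hθW z⁻¹ _ h
    rwa [← AlgEquiv.mul_apply, ← map_mul, inv_mul_cancel, map_one, AlgEquiv.one_apply] at this
  have : CharZero L := charZero_of_injective_algebraMap (algebraMap kb L).injective
  have hpV : (NL.tr kb 𝒲).valuation (p : kb) < 1 := by
    rw [NL.val_lt_iff_tr]
    rw [map_natCast]; exact hp
  have := NL.isAlgClosed_res (NL.tr kb 𝒲)
  have := NL.charP_res (NL.tr kb 𝒲) p hpV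
  have := NL.charP_res 𝒲 p hp
  refine no_tower (κ := NL.kap kb 𝒲) (Ω := NL.Om 𝒲) (p := p) (ℓ := ℓ)
    (NL.algebraic_res (NL.tr kb 𝒲) p hpV) hpl (NL.tres t 𝒲 hG) (NL.tres_transcendental t 𝒲 hG)
    (NL.alg_res t 𝒲 halg hG) (NL.resHom 𝒲 θ hθW') ?_ ?_ ?_ ?_ (NL.resAut 𝒲 g hgW) e he ?_ ?_ ?_
  · rw [injective_iff_map_eq_one]
    intro z hz
    by_contra hz1
    have h1 : θ z ≠ 1 := fun h => hz1 (hθ (by rw [h, map_one]))
    obtain ⟨x₀, hx₀⟩ : ∃ x₀, θ z x₀ ≠ x₀ := by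
      by_contra h
      push Not at h
      exact h1 (AlgEquiv.ext h)
    obtain ⟨m, hm⟩ := hcont x₀
    have hP : ∃ b : ℕ, θ (z ^ ℓ ^ b) x₀ = x₀ := ⟨m, by
      have := hm z.toAdd
      have e : z ^ ℓ ^ m = Multiplicative.ofAdd ((ℓ : ℤ_[ℓ]) ^ m * z.toAdd) := by
        rw [← Nat.cast_pow, ← nsmul_eq_mul, ofAdd_nsmul]; rfl
      rw [e]; exact this⟩
    classical
    obtain ⟨b, hb⟩ : ∃ b, Nat.find hP = b + 1 := by
      refine Nat.exists_eq_succ_of_ne_zero fun h0 => ?_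
      have := Nat.find_spec hP
      rw [h0, pow_zero, pow_one] at this
      exact hx₀ this
    have hb1 : θ (z ^ ℓ ^ b) x₀ ≠ x₀ := Nat.find_min hP (by omega)
    have hb2 : (θ (z ^ ℓ ^ b) ^ ℓ) x₀ = x₀ := by
      have := Nat.find_spec hP
      rwa [hb, pow_succ, pow_mul, map_pow] at this
    obtain ⟨ξ, y, hξ, hy, hτ⟩ := NL.exists_eigen ℓ (Fact.out : ℓ.Prime).one_le _ x₀ hb1 hb2
    obtain ⟨c, hc, hcy⟩ := exists_unit_mul t halg 𝒲 hG y hy
    have hcyW : algebraMap kb L c * y ∈ 𝒲 := (𝒲.valuation_le_one_iff _).1 hcy.le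
    have hcy0 : algebraMap kb L c * y ≠ 0 := by
      intro h; rw [h, map_zero] at hcy; exact zero_ne_one hcy
    have hτ' : θ (z ^ ℓ ^ b) (algebraMap kb L c * y) =
        algebraMap kb L ξ * (algebraMap kb L c * y) := by
      rw [map_mul, AlgEquiv.commutes, hτ]; ring
    have hξW : algebraMap kb L ξ ∈ 𝒲 := by
      have h2 := (hθW' (z ^ ℓ ^ b) (algebraMap kb L c * y)).2 hcyW
      rw [← ValuationSubring.valuation_le_one_iff, hτ', map_mul, hcy, mul_one] at h2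
      exact (𝒲.valuation_le_one_iff _).1 h2
    have hres : IsLocalRing.residue 𝒲 ⟨_, hξW⟩ = 1 := by
      have h2 : NL.resHom 𝒲 θ hθW' (z ^ ℓ ^ b) = 1 := by rw [map_pow, hz, one_pow]
      have h3 := NL.resHom_residue 𝒲 θ hθW' (z ^ ℓ ^ b) ⟨_, hcyW⟩
      rw [h2, AlgEquiv.one_apply] at h3
      have h4 : (⟨θ (z ^ ℓ ^ b) (algebraMap kb L c * y), (hθW' _ _).2 hcyW⟩ : 𝒲) =
          ⟨_, hξW⟩ * ⟨_, hcyW⟩ := Subtype.ext hτ'
      rw [h4, map_mul] at h3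
      have h5 : IsLocalRing.residue 𝒲 ⟨_, hcyW⟩ ≠ 0 := (NL.residue_ne_zero_iff 𝒲 _).2 hcy
      exact mul_right_cancel₀ h5 (by rw [one_mul]; exact h3.symm)
    have hsum : ∑ i ∈ Finset.range ℓ, (⟨_, hξW⟩ : 𝒲) ^ i = 0 := by
      apply Subtype.ext
      have e1 : ((∑ i ∈ Finset.range ℓ, (⟨_, hξW⟩ : 𝒲) ^ i : 𝒲) : L) =
          algebraMap kb L (∑ i ∈ Finset.range ℓ, ξ ^ i) := by
        have e2 : ((∑ i ∈ Finset.range ℓ, (⟨_, hξW⟩ : 𝒲) ^ i : 𝒲) : L) =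
          𝒲.subtype (∑ i ∈ Finset.range ℓ, (⟨_, hξW⟩ : 𝒲) ^ i) := rfl
        rw [e2, map_sum, map_sum]
        exact Finset.sum_congr rfl fun i _ => by rw [map_pow, map_pow]; rfl
      rw [e1, hξ, map_zero]; rfl
    have h6 := congrArg (IsLocalRing.residue 𝒲) hsum
    rw [map_sum, map_zero] at h6
    rw [Finset.sum_congr rfl fun i _ => by rw [map_pow, hres, one_pow], Finset.sum_const,
      Finset.card_range, nsmul_eq_mul, mul_one] at h6
    rw [CharP.cast_eq_zero_iff (NL.Om 𝒲) p] at h6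
    exact hpl ((Nat.prime_dvd_prime_iff_eq (Fact.out : p.Prime) (Fact.out : ℓ.Prime)).1 h6)
  · intro z
    rw [NL.tres, NL.resHom_residue]
    congr 1
    exact Subtype.ext (hθt z)
  · intro x
    obtain ⟨y, rfl⟩ := NL.exists_lift 𝒲 x
    obtain ⟨m, hm⟩ := hcont y
    refine ⟨m, fun z => ?_⟩
    rw [NL.resHom_residue]
    congr 1
    exact Subtype.ext (hm z)
  · obtain ⟨s, hs⟩ := hfin
    obtain ⟨s', hs'⟩ := NL.fin_res t 𝒲 hG s
    refine ⟨s', fun x hx => ?_⟩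
    obtain ⟨y, rfl, hy⟩ := NL.exists_fixed_lift 𝒲 hpl hp θ hθW' hcont x hx
    exact hs' y (hs _ hy)
  · intro a
    obtain ⟨a, rfl⟩ := IsLocalRing.residue_surjective a
    rw [← map_pow, NL.algRes_residue, NL.algRes_residue, NL.resAut_residue, NL.residue_eq_iff,
      NL.restr_coe, NL.trHom_coe, NL.trHom_coe]
    have := hfr a a.2
    rw [← map_pow] at this
    exact this
  · rw [NL.tres, NL.resAut_residue]
    congr 1
    exact Subtype.ext hgt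
  · intro z x
    obtain ⟨y, rfl⟩ := NL.exists_lift 𝒲 x
    rw [NL.resHom_residue, NL.resAut_residue, NL.resAut_residue, NL.resHom_residue]
    congr 1
    exact Subtype.ext (hgθ z y)

end Pool.Agent.Lib.MP_2f3286_ag.Full
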