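import Pool.Agent.Lib.MP_2f3286_ag.Full.ValExt
import Pool.Agent.Lib.MP_2f3286_ag.Full.Free

/-!
# Towers in characteristic `p`: places, periods, descent along Frobenius (for `no_tower`)
-/

set_option linter.unusedSectionVars false

open Polynomial IntermediateField

namespace Pool.Agent.Lib.MP_2f3286_ag.Full

namespace NoTower

section A

variable {κ Ω : Type*} [Field κ] {p : ℕ} [Field Ω] [Algebra κ Ω]

theorem mul_app (f g : Ω ≃+* Ω) (x : Ω) : (f * g) x = f (g x) := rfl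

theorem pow_fix (ψ : Ω ≃+* Ω) {r : ℕ} {x : Ω} (h : (ψ ^ r) x = x) (k : ℕ) :
    (ψ ^ (r * k)) x = x := by
  induction k with
  | zero => simp
  | succ k ih =>
    rw [Nat.mul_succ, pow_add, mul_app, h, ih]

theorem pow_frob (ψ : Ω ≃+* Ω) (e : ℕ)
    (hψ : ∀ a : κ, ψ (algebraMap κ Ω a) = algebraMap κ Ω (a ^ p ^ e)) (j : ℕ) (a : κ) :
    (ψ ^ j) (algebraMap κ Ω a) = algebraMap κ Ω (a ^ p ^ (e * j)) := by
  induction j generalizing a with
  | zero => simp
  | succ j ih =>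
    rw [pow_succ, mul_app, hψ, ih, ← pow_mul, ← pow_add, Nat.mul_succ, add_comm]

/-- the periodic elements -/
def perField (ψ : Ω ≃+* Ω) : Subfield Ω where
  carrier := {x | ∃ r, 1 ≤ r ∧ (ψ ^ r) x = x}
  one_mem' := ⟨1, le_rfl, map_one _⟩
  zero_mem' := ⟨1, le_rfl, map_zero _⟩
  add_mem' := by
    rintro x y ⟨r, hr, hx⟩ ⟨s, hs, hy⟩
    refine ⟨r * s, Nat.mul_pos hr hs, ?_⟩
    rw [map_add, pow_fix ψ hx s, mul_comm r s, pow_fix ψ hy r]
  mul_mem' := by
    rintro x y ⟨r, hr, hx⟩ ⟨s, hs, hy⟩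
    refine ⟨r * s, Nat.mul_pos hr hs, ?_⟩
    rw [map_mul, pow_fix ψ hx s, mul_comm r s, pow_fix ψ hy r]
  neg_mem' := by
    rintro x ⟨r, hr, hx⟩
    exact ⟨r, hr, by rw [map_neg, hx]⟩
  inv_mem' := by
    rintro x ⟨r, hr, hx⟩
    exact ⟨r, hr, by rw [map_inv₀, hx]⟩

theorem mem_perField {ψ : Ω ≃+* Ω} {x : Ω} : x ∈ perField ψ ↔ ∃ r, 1 ≤ r ∧ (ψ ^ r) x = x :=
  Iff.rfl

theorem exists_period (hκ : ∀ x : κ, ∃ n, 1 ≤ n ∧ x ^ p ^ n = x) (t : Ω)
    (halg : ∀ x : Ω, IsAlgebraic (adjoin κ {t}) x) (ψ : Ω ≃+* Ω) (e : ℕ)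
    (hψ : ∀ a : κ, ψ (algebraMap κ Ω a) = algebraMap κ Ω (a ^ p ^ e)) (hψt : ψ t = t) (x : Ω) :
    ∃ r, 1 ≤ r ∧ (ψ ^ r) x = x := by
  classical
  have hle : ∀ y : adjoin κ {t}, (y : Ω) ∈ perField ψ := by
    have h1 : adjoin κ {t} ≤ (perField ψ).toIntermediateField (by
        intro a
        obtain ⟨n, hn, ha⟩ := hκ a
        refine ⟨n, hn, ?_⟩
        rw [pow_frob ψ e hψ n a]
        congr 1
        clear hψ
        induction e with
        | zero => simp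
        | succ e ih => rw [Nat.succ_mul, pow_add, pow_mul, ih, ha]) := by
      rw [adjoin_le_iff]
      rintro _ rfl
      exact ⟨1, le_rfl, by simpa using hψt⟩
    exact fun y => h1 y.2
  obtain ⟨f, hf0, hfx⟩ := halg x
  choose r hr1 hr using fun y : adjoin κ {t} => mem_perField.1 (hle y)
  let R := ∏ i ∈ Finset.range (f.natDegree + 1), r (f.coeff i)
  have hR : 1 ≤ R := Nat.succ_le_of_lt (Finset.prod_pos fun i _ => hr1 _)
  have hfixc : ∀ i, (ψ ^ R) (algebraMap (adjoin κ {t}) Ω (f.coeff i)) =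
      algebraMap (adjoin κ {t}) Ω (f.coeff i) := by
    intro i
    by_cases hi : i ∈ Finset.range (f.natDegree + 1)
    · obtain ⟨c, hc⟩ := Finset.dvd_prod_of_mem (fun i => r (f.coeff i)) hi
      change (ψ ^ (∏ i ∈ Finset.range (f.natDegree + 1), r (f.coeff i))) _ = _
      rw [hc]
      exact pow_fix ψ (hr _) c
    · have : f.coeff i = 0 := coeff_eq_zero_of_natDegree_lt (by simpa using hi)
      rw [this]
      simp
  have hroot : ∀ k : ℕ, aeval (((ψ ^ R) ^ k) x) f = 0 := by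
    intro k
    induction k with
    | zero => simpa using hfx
    | succ k ih =>
      rw [pow_succ', mul_app]
      have h1 := congrArg (ψ ^ R) ih
      rw [map_zero] at h1
      rw [← h1]
      rw [aeval_eq_sum_range, aeval_eq_sum_range, map_sum]
      refine Finset.sum_congr rfl fun i _ => ?_
      rw [Algebra.smul_def, Algebra.smul_def, map_mul, hfixc i, map_pow]
  have hfin : (f.rootSet Ω).Finite := f.rootSet_finite Ω
  have hnot : ¬ Function.Injective fun k : ℕ => ((ψ ^ R) ^ k) x := by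
    intro hinj
    have h1 : (Set.range fun k : ℕ => ((ψ ^ R) ^ k) x) ⊆ f.rootSet Ω := by
      rintro _ ⟨k, rfl⟩
      exact (mem_rootSet.2 ⟨hf0, hroot k⟩)
    exact Set.infinite_range_of_injective hinj (hfin.subset h1)
  simp only [Function.Injective, not_forall] at hnot
  obtain ⟨a, b, hab, hne⟩ := hnot
  have key : ∀ a b : ℕ, a < b → ((ψ ^ R) ^ a) x = ((ψ ^ R) ^ b) x → ∃ r, 1 ≤ r ∧ (ψ ^ r) x = x := by
    intro a b hlt h
    refine ⟨R * (b - a), Nat.mul_pos hR (Nat.sub_pos_of_lt hlt), ?_⟩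
    have h2 : b = a + (b - a) := by omega
    rw [h2, pow_add, mul_app] at h
    have h3 := ((ψ ^ R) ^ a).injective h
    rw [pow_mul]
    exact h3.symm
  rcases lt_or_gt_of_ne hne with h | h
  · exact key a b h hab
  · exact key b a h hab.symm

end A

section B

variable {κ Ω : Type*} [Field κ] {p : ℕ} [Fact p.Prime] [Field Ω] [Algebra κ Ω]

theorem charP_top (κ Ω : Type*) [Field κ] (p : ℕ) [CharP κ p] [Field Ω] [Algebra κ Ω] : CharP Ω p := charP_of_injective_algebraMap (algebraMap κ Ω).injective p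

theorem descend_rel (ψ : Ω ≃+* Ω) (e : ℕ)
    (hψ : ∀ a : κ, ψ (algebraMap κ Ω a) = algebraMap κ Ω (a ^ p ^ e)) {ι : Type*}
    (s : Finset ι) (a : ι → Ω) (ha : ∀ i ∈ s, ψ (a i) = a i) (c : ι → κ)
    (hc : ∃ i ∈ s, c i ≠ 0) (hsum : ∑ i ∈ s, algebraMap κ Ω (c i) * a i = 0) :
    ∃ c' : ι → κ, (∀ i, c' i ^ p ^ e = c' i) ∧ (∃ i ∈ s, c' i ≠ 0) ∧
      ∑ i ∈ s, algebraMap κ Ω (c' i) * a i = 0 := by
  classical
  have hq : p ^ e ≠ 0 := pow_ne_zero _ (Fact.out : p.Prime).ne_zero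
  induction s using Finset.strongInduction generalizing c with
  | H s ih =>
    obtain ⟨i0, hi0, hc0⟩ := hc
    -- normalise
    let d : ι → κ := fun i => c i / c i0
    have hd0 : d i0 = 1 := div_self hc0
    have hdsum : ∑ i ∈ s, algebraMap κ Ω (d i) * a i = 0 := by
      have h1 : ∀ i, algebraMap κ Ω (d i) * a i =
          (algebraMap κ Ω (c i0))⁻¹ * (algebraMap κ Ω (c i) * a i) := by
        intro i
        simp only [d, map_div₀]
        ring
      simp only [h1]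
      rw [← Finset.mul_sum, hsum, mul_zero]
    have hdsum2 : ∑ i ∈ s, algebraMap κ Ω (d i ^ p ^ e) * a i = 0 := by
      have h1 := congrArg ψ hdsum
      rw [map_sum, map_zero] at h1
      rw [← h1]
      refine Finset.sum_congr rfl fun i hi => ?_
      rw [map_mul, hψ, ha i hi]
    by_cases hall : ∀ i ∈ s, d i ^ p ^ e = d i
    · refine ⟨fun i => if i ∈ s then d i else 0, ?_, ⟨i0, hi0, by simp [hi0, hd0]⟩, ?_⟩
      · intro i
        by_cases hi : i ∈ s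
        · simp only [hi, if_true]
          exact hall i hi
        · simp only [hi, if_false]
          exact zero_pow hq
      · rw [← hdsum]
        refine Finset.sum_congr rfl fun i hi => ?_
        simp [hi]
    · push Not at hall
      obtain ⟨i1, hi1, hne⟩ := hall
      have hsub : ∑ i ∈ s.erase i0, algebraMap κ Ω (d i ^ p ^ e - d i) * a i = 0 := by
        have h1 : ∑ i ∈ s, algebraMap κ Ω (d i ^ p ^ e - d i) * a i = 0 := by
          simp only [map_sub, sub_mul, Finset.sum_sub_distrib]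
          rw [hdsum, hdsum2, sub_zero]
        rw [← Finset.add_sum_erase s _ hi0] at h1
        simpa [hd0] using h1
      have hi10 : i1 ≠ i0 := by
        rintro rfl
        simp [hd0] at hne
      obtain ⟨c', h1, ⟨i2, hi2, h2⟩, h3⟩ := ih (s.erase i0) (Finset.erase_ssubset hi0)
        (fun i hi => ha i (Finset.mem_of_mem_erase hi)) (fun i => d i ^ p ^ e - d i)
        ⟨i1, Finset.mem_erase.2 ⟨hi10, hi1⟩, sub_ne_zero.2 hne⟩ hsub
      refine ⟨fun i => if i = i0 then 0 else c' i, ?_, ⟨i2, Finset.mem_of_mem_erase hi2, ?_⟩, ?_⟩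
      · intro i
        by_cases hi : i = i0
        · simp only [hi, if_true]
          exact zero_pow hq
        · simp [hi, h1]
      · simp [Finset.ne_of_mem_erase hi2, h2]
      · rw [← Finset.add_sum_erase s _ hi0]
        simp only [if_true, map_zero, zero_mul, zero_add]
        rw [← h3]
        refine Finset.sum_congr rfl fun i hi => ?_
        simp [Finset.ne_of_mem_erase hi]

theorem const_mem (hκ : ∀ x : κ, ∃ n, 1 ≤ n ∧ x ^ p ^ n = x) (Q : ValuationSubring Ω) (a : κ) :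
    algebraMap κ Ω a ∈ Q := by
  obtain ⟨n, hn, ha⟩ := hκ a
  by_cases h0 : a = 0
  · rw [h0, map_zero]; exact zero_mem _
  have hp := (Fact.out : p.Prime)
  have h1 : 1 < p ^ n := Nat.one_lt_pow (by omega) hp.one_lt
  have h2 : a ^ (p ^ n - 1) = 1 := by
    have : a ^ (p ^ n - 1) * a = 1 * a := by
      rw [← pow_succ, Nat.sub_add_cancel h1.le, ha, one_mul]
    exact mul_right_cancel₀ h0 this
  have h3 : Q.valuation (algebraMap κ Ω a) ^ (p ^ n - 1) = 1 := by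
    rw [← map_pow, ← map_pow, h2, map_one, map_one]
  have h4 : Q.valuation (algebraMap κ Ω a) = 1 := by
    exact (pow_eq_one_iff.1 h3).resolve_right (by omega)
  exact (Q.valuation_le_one_iff _).1 h4.le

variable (κ) in
/-- the subfield with `p ^ e` elements -/
def frobField (Ω : Type*) [Field Ω] (p e : ℕ) [Fact p.Prime] [CharP Ω p] : Subfield Ω :=
  (iterateFrobenius Ω p e).eqLocusField (RingHom.id Ω)

theorem mem_frobField {e : ℕ} [CharP Ω p] {x : Ω} : x ∈ frobField Ω p e ↔ x ^ p ^ e = x := Iff.rfl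

theorem frobField_finite {e : ℕ} (he : 1 ≤ e) [CharP Ω p] : Finite (frobField Ω p e) := by
  have hp := (Fact.out : p.Prime)
  have h1 : 1 < p ^ e := Nat.one_lt_pow (by omega) hp.one_lt
  have h0 : (X ^ p ^ e - X : Polynomial Ω) ≠ 0 := FiniteField.X_pow_card_pow_sub_X_ne_zero Ω (by omega) hp.one_lt
  refine Set.Finite.subset ((X ^ p ^ e - X : Polynomial Ω).rootSet_finite Ω) ?_
  intro x hx
  rw [mem_rootSet]
  refine ⟨h0, ?_⟩
  have : x ^ p ^ e = x := hx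
  simp [this]

theorem exists_const_of_isAlgebraic [IsAlgClosed κ] {x : Ω} (h : IsAlgebraic κ x) :
    ∃ a, algebraMap κ Ω a = x := by
  have h1 : (minpoly κ x).degree = 1 :=
    IsAlgClosed.degree_eq_one_of_irreducible κ (minpoly.irreducible h.isIntegral)
  exact minpoly.mem_range_of_degree_eq_one κ x h1

theorem exists_const_of_frob [IsAlgClosed κ] {e : ℕ} (he : 1 ≤ e) {x : Ω} (h : x ^ p ^ e = x) :
    ∃ a : κ, algebraMap κ Ω a = x ∧ a ^ p ^ e = a := by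
  have hp := (Fact.out : p.Prime)
  have hx : IsAlgebraic κ x := by
    refine ⟨X ^ p ^ e - X, FiniteField.X_pow_card_pow_sub_X_ne_zero κ (by omega) hp.one_lt, ?_⟩
    simp [h]
  obtain ⟨a, ha⟩ := exists_const_of_isAlgebraic hx
  refine ⟨a, ha, ?_⟩
  apply (algebraMap κ Ω).injective
  rw [map_pow, ha, h]

theorem exists_const_of_alg_frobField [IsAlgClosed κ] {e : ℕ} (he : 1 ≤ e) [CharP Ω p] {x : Ω}
    (h : IsAlgebraic (frobField Ω p e) x) : ∃ a : κ, algebraMap κ Ω a = x := by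
  obtain ⟨f, hf0, hfx⟩ := h
  have hlift : ∃ g : κ[X], g.map (algebraMap κ Ω) = f.map (frobField Ω p e).subtype := by
    have : f.map (frobField Ω p e).subtype ∈ Polynomial.lifts (algebraMap κ Ω) := by
      rw [Polynomial.lifts_iff_coeff_lifts]
      intro n
      rw [coeff_map]
      obtain ⟨a, ha, -⟩ := exists_const_of_frob (κ := κ) he (x := ((f.coeff n : frobField Ω p e) : Ω))
        (f.coeff n).2
      exact ⟨a, ha⟩
    exact (Polynomial.mem_lifts _).1 this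
  obtain ⟨g, hg⟩ := hlift
  apply exists_const_of_isAlgebraic
  refine ⟨g, ?_, ?_⟩
  · rintro rfl
    rw [Polynomial.map_zero] at hg
    exact hf0 ((Polynomial.map_eq_zero_iff (Subtype.val_injective)).1 hg.symm)
  · rw [aeval_def, ← eval_map, hg, eval_map]
    exact hfx

end B

section C

variable {κ Ω : Type*} [Field κ] {p : ℕ} [Fact p.Prime] [Field Ω] [Algebra κ Ω]

theorem transc_frobField [IsAlgClosed κ] {e : ℕ} (he : 1 ≤ e) [CharP Ω p] {t : Ω}
    (ht : Transcendental κ t) : Transcendental (frobField Ω p e) t := by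
  intro h
  obtain ⟨a, ha⟩ := exists_const_of_alg_frobField (κ := κ) he h
  exact ht (ha ▸ isAlgebraic_algebraMap a)

theorem clear_frac {t : Ω} {ι : Type*} [Fintype ι] (g : ι → adjoin κ {t}) :
    ∃ (D : κ[X]) (G : ι → κ[X]), aeval t D ≠ 0 ∧
      ∀ i, aeval t D * (g i : Ω) = aeval t (G i) := by
  classical
  have h1 : ∀ i, ∃ r s : κ[X], aeval t s ≠ 0 ∧ aeval t s * (g i : Ω) = aeval t r := by
    intro i
    obtain ⟨r, s, hrs⟩ := (mem_adjoin_simple_iff κ _).1 (g i).2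
    by_cases hs : aeval t s = 0
    · refine ⟨0, 1, by simp, ?_⟩
      rw [hrs, hs]
      simp
    · refine ⟨r, s, hs, ?_⟩
      rw [hrs]
      field_simp
  choose r s hs hrs using h1
  refine ⟨∏ i, s i, fun i => r i * ∏ j ∈ Finset.univ.erase i, s j, ?_, fun i => ?_⟩
  · rw [map_prod]
    exact Finset.prod_ne_zero_iff.2 fun i _ => hs i
  · rw [map_prod, ← Finset.mul_prod_erase Finset.univ _ (Finset.mem_univ i), map_mul, map_prod,
      ← hrs i]
    ring

theorem finite_A0 [IsAlgClosed κ] {e : ℕ} (he : 1 ≤ e) [CharP Ω p] {t : Ω}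
    (ht : Transcendental κ t) (ψ : Ω ≃+* Ω)
    (hψ : ∀ a : κ, ψ (algebraMap κ Ω a) = algebraMap κ Ω (a ^ p ^ e)) (hψt : ψ t = t)
    (A₀ : IntermediateField (frobField Ω p e) Ω) (hA : ∀ x ∈ A₀, ψ x = x) (t₀ : A₀)
    (ht₀ : (t₀ : Ω) = t) (s : Finset Ω)
    (hs : ∀ x ∈ A₀, x ∈ Submodule.span (adjoin κ {t}) (s : Set Ω)) :
    FiniteDimensional (adjoin (frobField Ω p e) {t₀}) A₀ := by
  classical
  have htr : Transcendental (frobField Ω p e) t₀ := by
    intro h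
    have h2 : IsAlgebraic (frobField Ω p e) (algebraMap A₀ Ω t₀) := h.algebraMap
    have h3 : algebraMap A₀ Ω t₀ = t := ht₀
    rw [h3] at h2
    exact transc_frobField (κ := κ) he ht h2
  have key : ∀ u : Finset A₀, LinearIndependent (adjoin (frobField Ω p e) {t₀})
      (fun i : u => (i : A₀)) → u.card ≤ s.card := by
    intro u hu
    have hli : LinearIndependent (adjoin κ {t}) (fun i : u => ((i : A₀) : Ω)) := by
      rw [Fintype.linearIndependent_iff]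
      by_contra hcon
      push Not at hcon
      obtain ⟨g, hg, i1, hi1⟩ := hcon
      obtain ⟨D, G, hD, hG⟩ := clear_frac g
      have hsum : ∑ i : u, aeval t (G i) * ((i : A₀) : Ω) = 0 := by
        have h1 : ∀ i : u, aeval t (G i) * ((i : A₀) : Ω) = aeval t D * (g i • ((i : A₀) : Ω)) := by
          intro i
          rw [← hG i, Algebra.smul_def, mul_assoc]
          rfl
        simp only [h1]
        rw [← Finset.mul_sum, hg, mul_zero]
      have hG1 : G i1 ≠ 0 := by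
        intro h
        have h1 := hG i1
        rw [h, map_zero] at h1
        rcases mul_eq_zero.1 h1 with h2 | h2
        · exact hD h2
        · exact hi1 (Subtype.ext h2)
      let N := Finset.univ.sup fun i : u => (G i).natDegree
      have hN : ∀ i : u, (G i).natDegree ≤ N := fun i =>
        Finset.le_sup (f := fun i : u => (G i).natDegree) (Finset.mem_univ i)
      have hexp : ∀ i : u, aeval t (G i) = ∑ k ∈ Finset.range (N + 1),
          algebraMap κ Ω ((G i).coeff k) * t ^ k := by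
        intro i
        rw [aeval_eq_sum_range' (Nat.lt_succ_of_le (hN i))]
        simp only [Algebra.smul_def]
      obtain ⟨c', hc1, ⟨⟨i2, k2⟩, hik, hc2⟩, hc3⟩ := descend_rel ψ e hψ
        ((Finset.univ : Finset u) ×ˢ Finset.range (N + 1))
        (fun ik => t ^ ik.2 * ((ik.1 : A₀) : Ω)) (fun ik _ => by
          rw [map_mul, map_pow, hψt, hA _ ((ik.1 : A₀)).2]) (fun ik => (G ik.1).coeff ik.2)
        ⟨(i1, (G i1).natDegree), by
          simpa using Nat.lt_succ_of_le (hN i1), by simpa using hG1⟩ (by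
          rw [Finset.sum_product, ← hsum]
          refine Finset.sum_congr rfl fun i _ => ?_
          rw [hexp i, Finset.sum_mul]
          refine Finset.sum_congr rfl fun k _ => ?_
          simp only []
          ring)
      let H : u → (frobField Ω p e)[X] := fun i => ∑ k ∈ Finset.range (N + 1),
        monomial k (⟨algebraMap κ Ω (c' (i, k)), by
          rw [mem_frobField, ← map_pow, hc1]⟩ : frobField Ω p e)
      have hHval : ∀ i : u, ((aeval t₀ (H i) : A₀) : Ω) = ∑ k ∈ Finset.range (N + 1),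
          algebraMap κ Ω (c' (i, k)) * t ^ k := by
        intro i
        simp only [H, map_sum, aeval_monomial]
        rw [AddSubmonoidClass.coe_finsetSum]
        refine Finset.sum_congr rfl fun k _ => ?_
        rw [MulMemClass.coe_mul, SubmonoidClass.coe_pow, ht₀]
        rfl
      have hmem : ∀ i : u, aeval t₀ (H i) ∈ adjoin (frobField Ω p e) {t₀} := fun i =>
        algebra_adjoin_le_adjoin _ _ (aeval_mem_adjoin_singleton _ _)
      have hzero := Fintype.linearIndependent_iff.1 hu (fun i => ⟨aeval t₀ (H i), hmem i⟩) (by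
        apply Subtype.ext
        rw [AddSubmonoidClass.coe_finsetSum, ZeroMemClass.coe_zero, ← hc3, Finset.sum_product]
        refine Finset.sum_congr rfl fun i _ => ?_
        have h1 : (((⟨aeval t₀ (H i), hmem i⟩ : adjoin (frobField Ω p e) {t₀}) • (i : A₀) : A₀) : Ω)
          = ((aeval t₀ (H i) : A₀) : Ω) * ((i : A₀) : Ω) := rfl
        rw [h1, hHval i, Finset.sum_mul]
        refine Finset.sum_congr rfl fun k _ => ?_
        simp only []
        ring) i2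
      have h3 : aeval t₀ (H i2) = 0 := congrArg Subtype.val hzero
      have h4 : H i2 = 0 := by
        by_contra h
        exact htr ⟨H i2, h, h3⟩
      have h5 := congrArg (fun f => ((f.coeff k2 : frobField Ω p e) : Ω)) h4
      have hk2 : k2 < N + 1 := by simpa using hik
      simp only [H, finsetSum_coeff, coeff_monomial, coeff_zero] at h5
      rw [Finset.sum_eq_single k2 (by
        intro b _ hb
        simp [hb]) (by
        intro h
        exact absurd (Finset.mem_range.2 hk2) h)] at h5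
      simp only [if_true] at h5
      exact hc2 ((map_eq_zero (algebraMap κ Ω)).1 h5)
    have h6 := linearIndependent_le_span' _ hli (s : Set Ω) (by
      rintro _ ⟨i, rfl⟩
      exact hs _ (i : A₀).2)
    simpa using h6
  have h7 : Module.rank (adjoin (frobField Ω p e) {t₀}) A₀ ≤ (s.card : ℕ) := rank_le key
  exact Module.rank_lt_aleph0_iff.1 (lt_of_le_of_lt h7 (Cardinal.natCast_lt_aleph0))

end C

section D

variable {κ Ω : Type*} [Field κ] [Field Ω] [Algebra κ Ω]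

theorem val_const (Q : ValuationSubring Ω) (hκQ : ∀ a : κ, algebraMap κ Ω a ∈ Q) (a : κ)
    (ha : a ≠ 0) : Q.valuation (algebraMap κ Ω a) = 1 := by
  have h1 := (Q.valuation_le_one_iff _).2 (hκQ a)
  have h2 := (Q.valuation_le_one_iff _).2 (hκQ a⁻¹)
  have h3 : Q.valuation (algebraMap κ Ω a) * Q.valuation (algebraMap κ Ω a⁻¹) = 1 := by
    rw [← map_mul, ← map_mul, mul_inv_cancel₀ ha, map_one, map_one]
  exact le_antisymm h1 (by
    rw [← h3]
    exact mul_le_of_le_one_right' h2)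

theorem residue_const [IsAlgClosed κ] {t : Ω} (halg : ∀ x : Ω, IsAlgebraic (adjoin κ {t}) x)
    (V : ValuationSubring Ω) (hκV : ∀ a : κ, algebraMap κ Ω a ∈ V) (hV : t ∉ V) (x : Ω)
    (hx : x ∈ V) : ∃ a : κ, V.valuation (x - algebraMap κ Ω a) < 1 := by
  classical
  obtain ⟨f, hf0, hfx⟩ := halg x
  obtain ⟨D, G, hD, hG⟩ := clear_frac (fun i : Fin (f.natDegree + 1) => f.coeff i)
  have ht0 : t ≠ 0 := by
    rintro rfl
    exact hV (zero_mem _)
  have hsum : ∑ i : Fin (f.natDegree + 1), aeval t (G i) * x ^ (i : ℕ) = 0 := by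
    have h1 : ∀ i : Fin (f.natDegree + 1), aeval t (G i) * x ^ (i : ℕ) =
        aeval t D * (((f.coeff i : adjoin κ {t}) : Ω) * x ^ (i : ℕ)) := by
      intro i
      rw [← hG i, mul_assoc]
    simp only [h1]
    rw [← Finset.mul_sum]
    have h2 : aeval x f = ∑ i : Fin (f.natDegree + 1), ((f.coeff i : adjoin κ {t}) : Ω) * x ^ (i : ℕ) := by
      rw [aeval_eq_sum_range, Finset.sum_range]
      rfl
    rw [← h2, hfx, mul_zero]
  have hlast : G (Fin.last f.natDegree) ≠ 0 := by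
    intro h
    have h1 := hG (Fin.last f.natDegree)
    rw [h, map_zero] at h1
    rcases mul_eq_zero.1 h1 with h2 | h2
    · exact hD h2
    · have h3 : f.leadingCoeff = 0 := Subtype.ext h2
      exact hf0 (leadingCoeff_eq_zero.1 h3)
  let K := Finset.univ.sup fun i : Fin (f.natDegree + 1) => (G i).natDegree
  have hK : ∀ i, (G i).natDegree ≤ K := fun i =>
    Finset.le_sup (f := fun i : Fin (f.natDegree + 1) => (G i).natDegree) (Finset.mem_univ i)
  have hex : ∃ i, (G i).coeff K ≠ 0 := by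
    obtain ⟨i, -, hi⟩ := Finset.exists_mem_eq_sup (Finset.univ : Finset (Fin (f.natDegree + 1)))
      ⟨_, Finset.mem_univ 0⟩ (fun i => (G i).natDegree)
    by_cases h0 : G i = 0
    · have hK0 : K = 0 := by
        change Finset.univ.sup _ = 0
        rw [hi, h0, natDegree_zero]
      refine ⟨Fin.last _, ?_⟩
      rw [hK0]
      have h1 : (G (Fin.last f.natDegree)).natDegree = 0 := by
        have := hK (Fin.last f.natDegree)
        omega
      rw [← h1]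
      exact mt leadingCoeff_eq_zero.1 hlast
    · refine ⟨i, ?_⟩
      have : K = (G i).natDegree := hi
      rw [this]
      exact mt leadingCoeff_eq_zero.1 h0
  let P : κ[X] := ∑ i : Fin (f.natDegree + 1), monomial (i : ℕ) ((G i).coeff K)
  have hP0 : P ≠ 0 := by
    obtain ⟨i, hi⟩ := hex
    intro h
    have h1 := congrArg (fun g => g.coeff (i : ℕ)) h
    simp only [P, finsetSum_coeff, coeff_monomial, coeff_zero] at h1
    rw [Finset.sum_eq_single i (by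
      intro b _ hb
      rw [if_neg]
      exact fun h => hb (Fin.ext h)) (by simp)] at h1
    simp only [if_true] at h1
    exact hi h1
  have hu : V.valuation t⁻¹ < 1 := by
    rw [map_inv₀]
    have h1 : 1 < V.valuation t := by
      rw [← not_le, V.valuation_le_one_iff]
      exact hV
    exact inv_lt_one_of_one_lt₀ h1
  have hxv : V.valuation x ≤ 1 := (V.valuation_le_one_iff _).2 hx
  have hterm : ∀ i, V.valuation (t⁻¹ ^ K * aeval t (G i) - algebraMap κ Ω ((G i).coeff K)) < 1 := by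
    intro i
    rw [aeval_eq_sum_range' (Nat.lt_succ_of_le (hK i)), Finset.sum_range_succ, mul_add,
      Finset.mul_sum]
    have h1 : t⁻¹ ^ K * ((G i).coeff K • t ^ K) = algebraMap κ Ω ((G i).coeff K) := by
      rw [Algebra.smul_def, mul_left_comm, ← mul_pow, inv_mul_cancel₀ ht0, one_pow, mul_one]
    rw [h1, add_sub_cancel_right]
    apply Valuation.map_sum_lt _ one_ne_zero
    intro k hk
    have hk' : k < K := Finset.mem_range.1 hk
    have h2 : t⁻¹ ^ K * ((G i).coeff k • t ^ k) =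
        algebraMap κ Ω ((G i).coeff k) * t⁻¹ ^ (K - k) := by
      rw [Algebra.smul_def, mul_left_comm]
      congr 1
      have h3 : K = (K - k) + k := by omega
      calc t⁻¹ ^ K * t ^ k = t⁻¹ ^ ((K - k) + k) * t ^ k := by rw [← h3]
        _ = t⁻¹ ^ (K - k) := by
          rw [pow_add, mul_assoc, ← mul_pow, inv_mul_cancel₀ ht0, one_pow, mul_one]
    rw [h2, map_mul, map_pow]
    have h4 : V.valuation (algebraMap κ Ω ((G i).coeff k)) ≤ 1 :=
      (V.valuation_le_one_iff _).2 (hκV _)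
    have h5 : V.valuation t⁻¹ ^ (K - k) < 1 := pow_lt_one₀ (zero_le) hu (by omega)
    exact lt_of_le_of_lt (mul_le_of_le_one_left' h4) h5
  have hPx : V.valuation (aeval x P) < 1 := by
    have h1 : aeval x P = ∑ i : Fin (f.natDegree + 1),
        algebraMap κ Ω ((G i).coeff K) * x ^ (i : ℕ) := by
      simp only [P, map_sum, aeval_monomial]
    have h2 : ∑ i : Fin (f.natDegree + 1), (t⁻¹ ^ K * aeval t (G i)) * x ^ (i : ℕ) = 0 := by
      simp only [mul_assoc]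
      rw [← Finset.mul_sum, hsum, mul_zero]
    have h3 : aeval x P = ∑ i : Fin (f.natDegree + 1),
        -((t⁻¹ ^ K * aeval t (G i) - algebraMap κ Ω ((G i).coeff K)) * x ^ (i : ℕ)) := by
      rw [h1, Finset.sum_neg_distrib]
      simp only [sub_mul, Finset.sum_sub_distrib]
      rw [h2]
      ring
    rw [h3]
    apply Valuation.map_sum_lt _ one_ne_zero
    intro i _
    rw [Valuation.map_neg, map_mul, map_pow]
    exact lt_of_le_of_lt (mul_le_of_le_one_right' (pow_le_one₀ (zero_le) hxv)) (hterm i)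
  by_contra hcon
  push Not at hcon
  have hone : ∀ a : κ, V.valuation (x - algebraMap κ Ω a) = 1 := fun a =>
    le_antisymm ((V.valuation_le_one_iff _).2 (sub_mem hx (hκV a))) (hcon a)
  have hsp := (IsAlgClosed.splits P).eq_prod_roots
  have h1 : V.valuation (aeval x P) = 1 := by
    rw [hsp, map_mul, map_mul, aeval_C, val_const V hκV _ (mt leadingCoeff_eq_zero.1 hP0), one_mul,
      map_multiset_prod, map_multiset_prod, Multiset.map_map, Multiset.map_map]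
    apply Multiset.prod_eq_one
    intro y hy
    obtain ⟨a, -, rfl⟩ := Multiset.mem_map.1 hy
    simp only [Function.comp_apply, map_sub, aeval_X, aeval_C]
    exact hone a
  rw [h1] at hPx
  exact lt_irrefl _ hPx

end D

section E

variable {κ Ω : Type*} [Field κ] [Field Ω] [Algebra κ Ω] {ℓ : ℕ} [Fact ℓ.Prime]

theorem theta_add (θ : Multiplicative ℤ_[ℓ] →* (Ω ≃ₐ[κ] Ω)) (a b : ℤ_[ℓ]) (x : Ω) :
    θ (Multiplicative.ofAdd (a + b)) x =
      θ (Multiplicative.ofAdd a) (θ (Multiplicative.ofAdd b) x) := by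
  rw [ofAdd_add, map_mul]
  rfl

/-- the elements fixed by `ℓ ^ m ℤ_ℓ` -/
def Om (θ : Multiplicative ℤ_[ℓ] →* (Ω ≃ₐ[κ] Ω)) (m : ℕ) : Subfield Ω where
  carrier := {x | ∀ z : ℤ_[ℓ], θ (Multiplicative.ofAdd ((ℓ : ℤ_[ℓ]) ^ m * z)) x = x}
  one_mem' z := map_one _
  zero_mem' z := map_zero _
  add_mem' {x y} hx hy z := by rw [map_add, hx z, hy z]
  mul_mem' {x y} hx hy z := by rw [map_mul, hx z, hy z]
  neg_mem' {x} hx z := by rw [map_neg, hx z]
  inv_mem' x hx z := by rw [map_inv₀, hx z]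

theorem mem_Om {θ : Multiplicative ℤ_[ℓ] →* (Ω ≃ₐ[κ] Ω)} {m : ℕ} {x : Ω} :
    x ∈ Om θ m ↔ ∀ z : ℤ_[ℓ], θ (Multiplicative.ofAdd ((ℓ : ℤ_[ℓ]) ^ m * z)) x = x := Iff.rfl

theorem theta_mem_Om {θ : Multiplicative ℤ_[ℓ] →* (Ω ≃ₐ[κ] Ω)} {m : ℕ} {x : Ω} (hx : x ∈ Om θ m)
    (a : ℤ_[ℓ]) : θ (Multiplicative.ofAdd a) x ∈ Om θ m := by
  intro z
  rw [← theta_add, add_comm, theta_add, hx z]

theorem dvd_of_stable (θ : Multiplicative ℤ_[ℓ] →* (Ω ≃ₐ[κ] Ω))
    (hcont : ∀ x : Ω, ∃ m : ℕ, ∀ z : ℤ_[ℓ], θ (Multiplicative.ofAdd ((ℓ : ℤ_[ℓ]) ^ m * z)) x = x)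
    (Q : ValuationSubring Ω) (hfree : ∀ z, (∀ x ∈ Q, θ z x ∈ Q) → z = 1) (m i : ℕ)
    (h : ∀ x ∈ Q, x ∈ Om θ m → θ (Multiplicative.ofAdd (i : ℤ_[ℓ])) x ∈ Q) : ℓ ^ m ∣ i := by
  let ρ : Multiplicative ℤ_[ℓ] →* (Ω ≃ₐ[κ] Ω) :=
    θ.comp (AddMonoidHom.toMultiplicative (AddMonoidHom.mulLeft ((ℓ : ℤ_[ℓ]) ^ m)))
  have hρ : ∀ z x, ρ z x = θ (Multiplicative.ofAdd ((ℓ : ℤ_[ℓ]) ^ m * z.toAdd)) x := fun _ _ => rfl
  let act : MulSemiringAction (Multiplicative ℤ_[ℓ]) Ω := MulSemiringAction.compHom Ω ρ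
  have hact : ∀ (z : Multiplicative ℤ_[ℓ]) (x : Ω), z • x = ρ z x := fun _ _ => rfl
  have hiter : ∀ k : ℕ, ∀ x ∈ Q, x ∈ Om θ m →
      θ (Multiplicative.ofAdd ((k : ℤ_[ℓ]) * (i : ℤ_[ℓ]))) x ∈ Q := by
    intro k
    induction k with
    | zero => intro x hx _; simpa using hx
    | succ k ih =>
      intro x hx hxm
      have h1 := h _ (ih x hx hxm) (theta_mem_Om hxm _)
      rw [← theta_add] at h1
      have h2 : ((k + 1 : ℕ) : ℤ_[ℓ]) * (i : ℤ_[ℓ]) = (i : ℤ_[ℓ]) + (k : ℤ_[ℓ]) * (i : ℤ_[ℓ]) := by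
        push_cast; ring
      rwa [h2]
  have hback : ∀ x ∈ Om θ m, θ (Multiplicative.ofAdd (i : ℤ_[ℓ])) x ∈ Q → x ∈ Q := by
    intro x hx hi
    have h1 := hiter (ℓ ^ m - 1) _ hi (theta_mem_Om hx _)
    rw [← theta_add] at h1
    have hpos : 1 ≤ ℓ ^ m := Nat.one_le_pow _ _ (Fact.out : ℓ.Prime).pos
    have h2 : ((ℓ ^ m - 1 : ℕ) : ℤ_[ℓ]) * (i : ℤ_[ℓ]) + (i : ℤ_[ℓ]) = (ℓ : ℤ_[ℓ]) ^ m * (i : ℤ_[ℓ]) := by
      rw [Nat.cast_sub hpos]
      push_cast
      ring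
    rwa [h2, hx] at h1
  obtain ⟨g, hg⟩ := val_trans (E := Om θ m) (M := Ω) (G := Multiplicative ℤ_[ℓ]) (by
      intro x
      obtain ⟨m', hm'⟩ := hcont x
      apply Subgroup.isOpen_of_mem_nhds (g := 1)
      have h1 : Metric.ball (0 : ℤ_[ℓ]) ((ℓ : ℝ) ^ (-(m' : ℤ))) ∈ nhds (0 : ℤ_[ℓ]) :=
        Metric.ball_mem_nhds _ (zpow_pos (by exact_mod_cast (Fact.out : ℓ.Prime).pos) _)
      refine Filter.mem_of_superset h1 ?_
      intro z hz
      have h2 : ‖z.toAdd‖ ≤ (ℓ : ℝ) ^ (-(m' : ℤ)) := by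
        have h3 : z.toAdd ∈ Metric.ball (0 : ℤ_[ℓ]) ((ℓ : ℝ) ^ (-(m' : ℤ))) := hz
        exact (mem_ball_zero_iff.1 h3).le
      rw [PadicInt.norm_le_pow_iff_mem_span_pow, Ideal.mem_span_singleton] at h2
      obtain ⟨w, hw⟩ := h2
      change θ (Multiplicative.ofAdd ((ℓ : ℤ_[ℓ]) ^ m * z.toAdd)) x = x
      rw [hw, mul_left_comm]
      exact hm' _)
    (by
      intro g x
      exact x.2 _)
    (by
      intro x hx
      exact ⟨⟨x, fun z => hx (Multiplicative.ofAdd z)⟩, rfl⟩) Q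
    (Q.comap ((θ (Multiplicative.ofAdd (i : ℤ_[ℓ])) : Ω ≃ₐ[κ] Ω) : Ω →+* Ω)) (by
      ext x
      exact ⟨fun hx => h _ hx x.2, fun hx => hback _ x.2 hx⟩)
  have hz := hfree (Multiplicative.ofAdd ((ℓ : ℤ_[ℓ]) ^ m * g.toAdd + -(i : ℤ_[ℓ]))) (by
    intro x hx
    have h1 := (hg (θ (Multiplicative.ofAdd (-(i : ℤ_[ℓ]))) x)).1 (by
      change θ (Multiplicative.ofAdd (i : ℤ_[ℓ])) (θ (Multiplicative.ofAdd (-(i : ℤ_[ℓ]))) x) ∈ Q
      rw [← theta_add, add_neg_cancel]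
      simpa using hx)
    rw [hact, hρ, ← theta_add] at h1
    exact h1)
  have hz' : (ℓ : ℤ_[ℓ]) ^ m * g.toAdd + -(i : ℤ_[ℓ]) = 0 := hz
  have hdvd : (ℓ : ℤ_[ℓ]) ^ m ∣ ((i : ℤ) : ℤ_[ℓ]) := ⟨g.toAdd, by
    push_cast
    linear_combination -hz'⟩
  rw [PadicInt.pow_p_dvd_int_iff] at hdvd
  exact_mod_cast hdvd

end E

section F

variable {κ Ω : Type*} [Field κ] [Field Ω] [Algebra κ Ω] {p ℓ : ℕ} [Fact ℓ.Prime]

theorem psi_mem_Om {θ : Multiplicative ℤ_[ℓ] →* (Ω ≃ₐ[κ] Ω)} {m : ℕ} {ψ : Ω ≃+* Ω}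
    (hψθ : ∀ z x, ψ (θ z x) = θ z (ψ x)) {x : Ω} (hx : x ∈ Om θ m) (j : ℕ) :
    (ψ ^ j) x ∈ Om θ m := by
  induction j with
  | zero => simpa using hx
  | succ j ih =>
    rw [pow_succ']
    intro z
    change θ _ (ψ ((ψ ^ j) x)) = ψ ((ψ ^ j) x)
    rw [← hψθ, ih z]

theorem const_mem_Om (θ : Multiplicative ℤ_[ℓ] →* (Ω ≃ₐ[κ] Ω)) (m : ℕ) (a : κ) :
    algebraMap κ Ω a ∈ Om θ m := fun z => (θ _).commutes a

theorem isIntegral_const [Fact p.Prime] (hκ : ∀ x : κ, ∃ n, 1 ≤ n ∧ x ^ p ^ n = x) {R : Type*}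
    [CommRing R] [Algebra R Ω] (a : κ) : IsIntegral R (algebraMap κ Ω a) := by
  obtain ⟨n, hn, ha⟩ := hκ a
  by_cases h0 : a = 0
  · rw [h0, map_zero]; exact isIntegral_zero
  have hp := (Fact.out : p.Prime)
  have h1 : 1 < p ^ n := Nat.one_lt_pow (by omega) hp.one_lt
  have h2 : a ^ (p ^ n - 1) = 1 := by
    have : a ^ (p ^ n - 1) * a = 1 * a := by
      rw [← pow_succ, Nat.sub_add_cancel h1.le, ha, one_mul]
    exact mul_right_cancel₀ h0 this
  apply IsIntegral.of_pow (n := p ^ n - 1) (by omega)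
  rw [← map_pow, h2, map_one]
  exact isIntegral_one

theorem val_sum_lt (Q : ValuationSubring Ω) {n : ℕ} (c y : Fin n → Ω) (hc : ∀ k, c k ∈ Q)
    (hy : ∀ k, Q.valuation (y k) < 1) : Q.valuation (∑ k, c k * y k) < 1 := by
  apply Valuation.map_sum_lt _ one_ne_zero
  intro k _
  rw [map_mul]
  exact lt_of_le_of_lt (mul_le_of_le_one_left' ((Q.valuation_le_one_iff _).2 (hc k))) (hy k)

/-- if `θ i` moves the integral elements fixed by `ψ` only modulo the maximal ideal, it moves all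
integral elements only modulo the maximal ideal -/
theorem theta_sub_lt [IsAlgClosed κ] [Fact p.Prime] [CharP κ p]
    (hκ : ∀ x : κ, ∃ n, 1 ≤ n ∧ x ^ p ^ n = x) (ψ : Ω ≃+* Ω) (e : ℕ) (he : 1 ≤ e)
    (hψ : ∀ a : κ, ψ (algebraMap κ Ω a) = algebraMap κ Ω (a ^ p ^ e))
    (hper : ∀ x : Ω, ∃ r, 1 ≤ r ∧ (ψ ^ r) x = x) (θ : Multiplicative ℤ_[ℓ] →* (Ω ≃ₐ[κ] Ω))
    (hψθ : ∀ z x, ψ (θ z x) = θ z (ψ x)) {R : Type*} [CommRing R] [Algebra R Ω]
    (hR : ∀ x : R, ψ (algebraMap R Ω x) = algebraMap R Ω x) (Q : ValuationSubring Ω)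
    (hκQ : ∀ a : κ, algebraMap κ Ω a ∈ Q) (m i : ℕ)
    (h : ∀ b, ψ b = b → b ∈ Om θ m → IsIntegral R b →
      Q.valuation (θ (Multiplicative.ofAdd (i : ℤ_[ℓ])) b - b) < 1) (c : Ω) (hcm : c ∈ Om θ m)
    (hc : IsIntegral R c) : Q.valuation (θ (Multiplicative.ofAdd (i : ℤ_[ℓ])) c - c) < 1 := by
  obtain ⟨r, hr, hrc⟩ := hper c
  obtain ⟨n, cc, d, hsum, hfix⟩ := frob_descent hκ ψ e he hψ c r hr hrc
  let y : Fin n → Ω := fun k => ∑ j ∈ Finset.range r, (ψ ^ j) (algebraMap κ Ω (d k) * c)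
  have hsum' : c = ∑ k, algebraMap κ Ω (cc k) * y k := hsum
  have hym : ∀ k, y k ∈ Om θ m := fun k =>
    sum_mem fun j _ => psi_mem_Om hψθ (mul_mem (const_mem_Om θ m _) hcm) j
  have hpsi : ∀ (j : ℕ) (x : Ω), IsIntegral R x → IsIntegral R ((ψ ^ j) x) := by
    intro j
    induction j with
    | zero => intro x hx; simpa using hx
    | succ j ih =>
      intro x hx
      rw [pow_succ']
      change IsIntegral R (ψ ((ψ ^ j) x))
      let f : Ω →ₐ[R] Ω := { (ψ : Ω →+* Ω) with commutes' := hR }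
      exact (ih x hx).map f
  have hyint : ∀ k, IsIntegral R (y k) := fun k =>
    IsIntegral.sum _ fun j _ => hpsi j _ ((isIntegral_const hκ (d k)).mul hc)
  have hy : ∀ k, Q.valuation (θ (Multiplicative.ofAdd (i : ℤ_[ℓ])) (y k) - y k) < 1 := fun k =>
    h (y k) (hfix k) (hym k) (hyint k)
  have heq : θ (Multiplicative.ofAdd (i : ℤ_[ℓ])) c - c =
      ∑ k, algebraMap κ Ω (cc k) * (θ (Multiplicative.ofAdd (i : ℤ_[ℓ])) (y k) - y k) := by
    conv_lhs => rw [hsum']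
    rw [map_sum, ← Finset.sum_sub_distrib]
    refine Finset.sum_congr rfl fun k _ => ?_
    rw [map_mul, AlgEquiv.commutes, mul_sub]
  rw [heq]
  exact val_sum_lt Q _ _ (fun k => hκQ _) hy

theorem stable_of_integral [IsAlgClosed κ] [Fact p.Prime] [CharP κ p]
    (hκ : ∀ x : κ, ∃ n, 1 ≤ n ∧ x ^ p ^ n = x) (ψ : Ω ≃+* Ω) (e : ℕ) (he : 1 ≤ e)
    (hψ : ∀ a : κ, ψ (algebraMap κ Ω a) = algebraMap κ Ω (a ^ p ^ e))
    (hper : ∀ x : Ω, ∃ r, 1 ≤ r ∧ (ψ ^ r) x = x) (θ : Multiplicative ℤ_[ℓ] →* (Ω ≃ₐ[κ] Ω))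
    (hψθ : ∀ z x, ψ (θ z x) = θ z (ψ x)) {E : Type*} [Field E] [Algebra E Ω]
    [Algebra.IsAlgebraic E Ω] (hE1 : ∀ x : E, ψ (algebraMap E Ω x) = algebraMap E Ω x)
    (hE2 : ∀ z (x : E), θ z (algebraMap E Ω x) = algebraMap E Ω x) (Q : ValuationSubring Ω)
    (hκQ : ∀ a : κ, algebraMap κ Ω a ∈ Q) (m i : ℕ)
    (h : ∀ b, ψ b = b → b ∈ Om θ m → IsIntegral (Q.comap (algebraMap E Ω)) b →
      Q.valuation (θ (Multiplicative.ofAdd (i : ℤ_[ℓ])) b - b) < 1) (x : Ω) (hx : x ∈ Q)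
    (hxm : x ∈ Om θ m) : θ (Multiplicative.ofAdd (i : ℤ_[ℓ])) x ∈ Q := by
  let f : E →+* Om θ m := (algebraMap E Ω).codRestrict (Om θ m) (fun x z => hE2 _ x)
  let _ : Algebra E (Om θ m) := f.toAlgebra
  have : IsScalarTower E (Om θ m) Ω := IsScalarTower.of_algebraMap_eq fun _ => rfl
  have : Algebra.IsAlgebraic E (Om θ m) := Algebra.IsAlgebraic.tower_bot E (Om θ m) Ω
  obtain ⟨a, b, ha, hb, hb1, hab⟩ := exists_integral_div (Q.comap (algebraMap E Ω))
    (Q.comap (algebraMap (Om θ m) Ω)) rfl ⟨x, hxm⟩ hx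
  have hmain := theta_sub_lt (R := Q.comap (algebraMap E Ω)) hκ ψ e he hψ hper θ hψθ
    (fun x => hE1 x) Q hκQ m i h
  have : IsScalarTower (Q.comap (algebraMap E Ω)) (Om θ m) Ω :=
    IsScalarTower.of_algebraMap_eq fun _ => rfl
  have ha' : IsIntegral (Q.comap (algebraMap E Ω)) (a : Ω) := ha.algebraMap (B := Ω)
  have hb' : IsIntegral (Q.comap (algebraMap E Ω)) (b : Ω) := hb.algebraMap (B := Ω)
  have hθa := hmain a a.2 ha'
  have hθb := hmain b b.2 hb'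
  have hbQ : Q.valuation (b : Ω) = 1 := by
    have h1 : b ∈ Q.comap (algebraMap (Om θ m) Ω) := (ValuationSubring.valuation_le_one_iff _ _).1 hb1.le
    have hb0 : b ≠ 0 := by
      rintro rfl
      simp at hb1
    have h2 : b⁻¹ ∈ Q.comap (algebraMap (Om θ m) Ω) := by
      rw [← ValuationSubring.valuation_le_one_iff, map_inv₀, hb1, inv_one]
    have h3 : Q.valuation (b : Ω) ≤ 1 := (Q.valuation_le_one_iff _).2 h1
    have h4 : Q.valuation ((b : Ω)⁻¹) ≤ 1 := (Q.valuation_le_one_iff _).2 (by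
      have h5 : ((b⁻¹ : Om θ m) : Ω) ∈ Q := h2
      simpa using h5)
    rw [map_inv₀] at h4
    have h5 : Q.valuation (b : Ω) ≠ 0 := by
      rw [Valuation.ne_zero_iff]
      exact fun h => hb0 (Subtype.ext h)
    exact le_antisymm h3 ((inv_le_one₀ (zero_lt_iff.2 h5)).1 h4)
  have hxab : x * (b : Ω) = a := congrArg Subtype.val hab
  have hθbQ : Q.valuation (θ (Multiplicative.ofAdd (i : ℤ_[ℓ])) (b : Ω)) = 1 := by
    have h1 : θ (Multiplicative.ofAdd (i : ℤ_[ℓ])) (b : Ω) =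
        (θ (Multiplicative.ofAdd (i : ℤ_[ℓ])) (b : Ω) - b) + b := by ring
    rw [h1, Valuation.map_add_eq_of_lt_right _ (by rw [hbQ]; exact hθb), hbQ]
  have haQ : Q.valuation (a : Ω) ≤ 1 := by
    rw [← hxab, map_mul, hbQ, mul_one]
    exact (Q.valuation_le_one_iff _).2 hx
  have hθaQ : Q.valuation (θ (Multiplicative.ofAdd (i : ℤ_[ℓ])) (a : Ω)) ≤ 1 := by
    have h1 : θ (Multiplicative.ofAdd (i : ℤ_[ℓ])) (a : Ω) =
        (θ (Multiplicative.ofAdd (i : ℤ_[ℓ])) (a : Ω) - a) + a := by ring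
    rw [h1]
    exact (Valuation.map_add_le _ hθa.le haQ)
  rw [← Q.valuation_le_one_iff]
  have h6 := congrArg (fun y => Q.valuation (θ (Multiplicative.ofAdd (i : ℤ_[ℓ])) y)) hxab
  simp only [map_mul, hθbQ, mul_one] at h6
  rw [h6]
  exact hθaQ

end F

section G

theorem clear_one {F E M : Type*} [Field F] [Field E] [Field M] [Algebra F E] [Algebra E M]
    (y : E) (Q : ValuationSubring M)
    (hyQ : ∀ f : F[X], algebraMap E M (aeval y f) ∈ Q) (z : E) (hz : algebraMap E M z ∈ Q)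
    (hgen : ∃ r s : F[X], z = aeval y r / aeval y s) :
    ∃ r s : F[X], Q.valuation (algebraMap E M (aeval y s)) = 1 ∧ z * aeval y s = aeval y r := by
  classical
  obtain ⟨r, s, hrs⟩ := hgen
  by_cases hs : aeval y s = 0
  · refine ⟨0, 1, by simp, ?_⟩
    rw [hrs, hs]
    simp
  obtain ⟨g, r', s', hr, hs', hcop⟩ : ∃ g r' s' : F[X], r = g * r' ∧ s = g * s' ∧
      IsCoprime r' s' := by
    let _ : GCDMonoid F[X] := EuclideanDomain.gcdMonoid F[X]
    obtain ⟨r', s', hr, hs', hu⟩ := extract_gcd r s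
    exact ⟨_, r', s', hr, hs', (gcd_isUnit_iff r' s').1 hu⟩
  rw [hs', map_mul] at hs
  have hg : aeval y g ≠ 0 := fun h => hs (by rw [h, zero_mul])
  have hs'0 : aeval y s' ≠ 0 := fun h => hs (by rw [h, mul_zero])
  have hz' : z * aeval y s' = aeval y r' := by
    rw [hrs, hr, hs', map_mul, map_mul]
    field_simp
  refine ⟨r', s', ?_, hz'⟩
  have h1 : Q.valuation (algebraMap E M (aeval y s')) ≤ 1 := (Q.valuation_le_one_iff _).2 (hyQ s')
  refine le_antisymm h1 ?_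
  by_contra hlt
  rw [not_le] at hlt
  obtain ⟨u, w, huw⟩ := hcop
  have h2 : Q.valuation (algebraMap E M (aeval y r')) < 1 := by
    rw [← hz', map_mul, map_mul]
    exact lt_of_le_of_lt (mul_le_of_le_one_left' ((Q.valuation_le_one_iff _).2 hz)) hlt
  have h3 := congrArg (fun f => Q.valuation (algebraMap E M (aeval y f))) huw
  simp only [map_add, map_mul, map_one] at h3
  have h4 : Q.valuation (algebraMap E M (aeval y u) * algebraMap E M (aeval y r') +
      algebraMap E M (aeval y w) * algebraMap E M (aeval y s')) < 1 := by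
    apply Valuation.map_add_lt
    · rw [map_mul]
      exact lt_of_le_of_lt (mul_le_of_le_one_left' ((Q.valuation_le_one_iff _).2 (hyQ u))) h2
    · rw [map_mul]
      exact lt_of_le_of_lt (mul_le_of_le_one_left' ((Q.valuation_le_one_iff _).2 (hyQ w))) hlt
  rw [h3] at h4
  exact lt_irrefl _ h4

theorem clear_den {F E M : Type*} [Field F] [Field E] [Field M] [Algebra F E] [Algebra E M]
    [Algebra F M] [IsScalarTower F E M] (y : E) (Q : ValuationSubring M)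
    (hyQ : ∀ f : F[X], algebraMap E M (aeval y f) ∈ Q)
    (hgen : ∀ z : E, ∃ r s : F[X], z = aeval y r / aeval y s) (c : M)
    (hc : IsIntegral (Q.comap (algebraMap E M)) c) :
    ∃ s : F[X], Q.valuation (algebraMap E M (aeval y s)) = 1 ∧ ∃ P : F[X][X], P.Monic ∧
      P.eval₂ ((algebraMap E M).comp (aeval y : F[X] →ₐ[F] E).toRingHom)
        (algebraMap E M (aeval y s) * c) = 0 := by
  classical
  obtain ⟨p0, hmon, hp0⟩ := hc
  let n := p0.natDegree
  have h1 : ∀ k : Fin n, ∃ r s : F[X], Q.valuation (algebraMap E M (aeval y s)) = 1 ∧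
      ((p0.coeff k : Q.comap (algebraMap E M)) : E) * aeval y s = aeval y r := fun k =>
    clear_one y Q hyQ _ (p0.coeff k).2 (hgen _)
  choose r s hs hrs using h1
  let S : F[X] := ∏ k, s k
  have hS : Q.valuation (algebraMap E M (aeval y S)) = 1 := by
    simp only [S, map_prod]
    exact Finset.prod_eq_one fun k _ => hs k
  let cf : Fin n → F[X] := fun k => (r k * ∏ j ∈ Finset.univ.erase k, s j) * S ^ (n - k - 1)
  have hcf : ∀ k : Fin n, aeval y (cf k) =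
      ((p0.coeff k : Q.comap (algebraMap E M)) : E) * aeval y S ^ (n - k) := by
    intro k
    have h2 : S = s k * ∏ j ∈ Finset.univ.erase k, s j := by
      simp only [S]
      rw [Finset.mul_prod_erase Finset.univ s (Finset.mem_univ k)]
    have h3 : aeval y S ^ (n - (k : ℕ)) = aeval y S ^ (n - k - 1) *
        (aeval y (s k) * aeval y (∏ j ∈ Finset.univ.erase k, s j)) := by
      rw [← map_mul, ← h2, ← pow_succ]
      congr 1
      have := k.2
      omega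
    rw [h3]
    simp only [cf, map_mul, map_pow]
    rw [← hrs k]
    ring
  refine ⟨S, hS, X ^ n + ∑ k : Fin n, C (cf k) * X ^ (k : ℕ), ?_, ?_⟩
  · exact monic_X_pow_add (degree_sum_fin_lt _)
  · have hp1 : c ^ n + ∑ k : Fin n,
        algebraMap E M ((p0.coeff k : Q.comap (algebraMap E M)) : E) * c ^ (k : ℕ) = 0 := by
      rw [eval₂_eq_sum_range, Finset.sum_range_succ, hmon.coeff_natDegree, map_one, one_mul,
        add_comm, Finset.sum_range] at hp0
      exact hp0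
    rw [eval₂_add, eval₂_pow, eval₂_X, eval₂_finsetSum]
    have h4 : ∀ k : Fin n, eval₂ ((algebraMap E M).comp (aeval y : F[X] →ₐ[F] E).toRingHom)
        (algebraMap E M (aeval y S) * c) (C (cf k) * X ^ (k : ℕ)) =
        algebraMap E M (aeval y S) ^ n *
          (algebraMap E M ((p0.coeff k : Q.comap (algebraMap E M)) : E) * c ^ (k : ℕ)) := by
      intro k
      rw [eval₂_mul, eval₂_C, eval₂_pow, eval₂_X]
      have h5 : ((algebraMap E M).comp (aeval y : F[X] →ₐ[F] E).toRingHom) (cf k) =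
          algebraMap E M (aeval y (cf k)) := rfl
      rw [h5, hcf k, map_mul, map_pow, mul_pow]
      have h6 : algebraMap E M (aeval y S) ^ n = algebraMap E M (aeval y S) ^ (n - k) *
          algebraMap E M (aeval y S) ^ (k : ℕ) := by
        rw [← pow_add]
        congr 1
        have := k.2
        omega
      rw [h6]
      ring
    simp only [h4]
    rw [← Finset.mul_sum, mul_pow, ← mul_add, hp1, mul_zero]

end G

section H

variable {κ Ω : Type*} [Field κ] [Field Ω] [Algebra κ Ω] {p ℓ : ℕ} [Fact ℓ.Prime]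

/-- the elements fixed by `ψ` and by `ℓ ^ m ℤ_ℓ` -/
def fixS (ψ : Ω ≃+* Ω) (θ : Multiplicative ℤ_[ℓ] →* (Ω ≃ₐ[κ] Ω)) (m : ℕ) : Subfield Ω where
  carrier := {x | ψ x = x ∧ x ∈ Om θ m}
  one_mem' := ⟨map_one _, one_mem _⟩
  zero_mem' := ⟨map_zero _, zero_mem _⟩
  add_mem' {x y} hx hy := ⟨by rw [map_add, hx.1, hy.1], add_mem hx.2 hy.2⟩
  mul_mem' {x y} hx hy := ⟨by rw [map_mul, hx.1, hy.1], mul_mem hx.2 hy.2⟩
  neg_mem' {x} hx := ⟨by rw [map_neg, hx.1], neg_mem hx.2⟩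
  inv_mem' x hx := ⟨by rw [map_inv₀, hx.1], inv_mem hx.2⟩

theorem mem_fixS {ψ : Ω ≃+* Ω} {θ : Multiplicative ℤ_[ℓ] →* (Ω ≃ₐ[κ] Ω)} {m : ℕ} {x : Ω} :
    x ∈ fixS ψ θ m ↔ ψ x = x ∧ x ∈ Om θ m := Iff.rfl

theorem theta_of_fix0 {ψ : Ω ≃+* Ω} {θ : Multiplicative ℤ_[ℓ] →* (Ω ≃ₐ[κ] Ω)} {x : Ω}
    (hx : x ∈ fixS ψ θ 0) (z : Multiplicative ℤ_[ℓ]) : θ z x = x := by
  have := hx.2 z.toAdd
  simpa using this

theorem frob_le_fix [IsAlgClosed κ] [Fact p.Prime] [CharP Ω p] {e : ℕ} (he : 1 ≤ e) {ψ : Ω ≃+* Ω}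
    (hψ : ∀ a : κ, ψ (algebraMap κ Ω a) = algebraMap κ Ω (a ^ p ^ e))
    (θ : Multiplicative ℤ_[ℓ] →* (Ω ≃ₐ[κ] Ω)) (x : Ω) (hx : x ∈ frobField Ω p e) :
    x ∈ fixS ψ θ 0 := by
  obtain ⟨a, rfl, ha⟩ := exists_const_of_frob (κ := κ) he hx
  exact ⟨by rw [hψ, ha], const_mem_Om θ 0 a⟩

theorem fix0_le {ψ : Ω ≃+* Ω} {θ : Multiplicative ℤ_[ℓ] →* (Ω ≃ₐ[κ] Ω)} {x : Ω} (m : ℕ)
    (hx : x ∈ fixS ψ θ 0) : x ∈ fixS ψ θ m :=
  ⟨hx.1, fun _ => theta_of_fix0 hx _⟩

theorem theta_nat {θ : Multiplicative ℤ_[ℓ] →* (Ω ≃ₐ[κ] Ω)} {x : Ω}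
    (h : θ (Multiplicative.ofAdd 1) x = x) (k : ℕ) :
    θ (Multiplicative.ofAdd (k : ℤ_[ℓ])) x = x := by
  induction k with
  | zero => simp
  | succ k ih =>
    rw [Nat.cast_succ, theta_add, h, ih]

theorem fix_of_theta_one {ψ : Ω ≃+* Ω} {θ : Multiplicative ℤ_[ℓ] →* (Ω ≃ₐ[κ] Ω)} {m : ℕ} {x : Ω}
    (hx : x ∈ fixS ψ θ m) (h : θ (Multiplicative.ofAdd 1) x = x) : x ∈ fixS ψ θ 0 := by
  refine ⟨hx.1, fun z => ?_⟩
  rw [pow_zero, one_mul]
  have h1 := PadicInt.appr_spec m z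
  rw [Ideal.mem_span_singleton] at h1
  obtain ⟨w, hw⟩ := h1
  have h2 : z = ((z.appr m : ℕ) : ℤ_[ℓ]) + (ℓ : ℤ_[ℓ]) ^ m * w := by
    rw [← hw]; ring
  rw [h2, theta_add, hx.2 w, theta_nat h]

theorem psi_theta_fix {ψ : Ω ≃+* Ω} {θ : Multiplicative ℤ_[ℓ] →* (Ω ≃ₐ[κ] Ω)}
    (hψθ : ∀ z x, ψ (θ z x) = θ z (ψ x)) {m : ℕ} {x : Ω} (hx : x ∈ fixS ψ θ m) (a : ℤ_[ℓ]) :
    θ (Multiplicative.ofAdd a) x ∈ fixS ψ θ m :=
  ⟨by rw [hψθ, hx.1], theta_mem_Om hx.2 a⟩

/-- the fixed field as an extension of a smaller field -/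
abbrev bigA (ψ : Ω ≃+* Ω) (θ : Multiplicative ℤ_[ℓ] →* (Ω ≃ₐ[κ] Ω)) (m : ℕ) {E : Type*} [Field E]
    [Algebra E Ω] (hE : ∀ x : E, algebraMap E Ω x ∈ fixS ψ θ m) : IntermediateField E Ω :=
  (fixS ψ θ m).toIntermediateField hE

/-- the automorphism `θ 1` of the fixed field -/
noncomputable def sig (ψ : Ω ≃+* Ω) (θ : Multiplicative ℤ_[ℓ] →* (Ω ≃ₐ[κ] Ω))
    (hψθ : ∀ z x, ψ (θ z x) = θ z (ψ x)) (m : ℕ) {E : Type*} [Field E]
    [Algebra E Ω] (hE : ∀ x : E, algebraMap E Ω x ∈ fixS ψ θ m)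
    (hE0 : ∀ x : E, algebraMap E Ω x ∈ fixS ψ θ 0) : bigA ψ θ m hE ≃ₐ[E] bigA ψ θ m hE where
  toFun x := ⟨θ (Multiplicative.ofAdd 1) x, psi_theta_fix hψθ x.2 1⟩
  invFun x := ⟨θ (Multiplicative.ofAdd (-1)) x, psi_theta_fix hψθ x.2 (-1)⟩
  left_inv x := Subtype.ext (by
    change θ (Multiplicative.ofAdd (-1)) (θ (Multiplicative.ofAdd 1) (x : Ω)) = x
    rw [← theta_add, neg_add_cancel]
    simp)
  right_inv x := Subtype.ext (by
    change θ (Multiplicative.ofAdd 1) (θ (Multiplicative.ofAdd (-1)) (x : Ω)) = x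
    rw [← theta_add, add_neg_cancel]
    simp)
  map_mul' x y := Subtype.ext (map_mul _ _ _)
  map_add' x y := Subtype.ext (map_add _ _ _)
  commutes' x := Subtype.ext (theta_of_fix0 (hE0 x) _)

theorem sig_pow (ψ : Ω ≃+* Ω) (θ : Multiplicative ℤ_[ℓ] →* (Ω ≃ₐ[κ] Ω))
    (hψθ : ∀ z x, ψ (θ z x) = θ z (ψ x)) (m : ℕ) {E : Type*} [Field E]
    [Algebra E Ω] (hE : ∀ x : E, algebraMap E Ω x ∈ fixS ψ θ m)
    (hE0 : ∀ x : E, algebraMap E Ω x ∈ fixS ψ θ 0) (i : ℕ) (x : bigA ψ θ m hE) :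
    (((sig ψ θ hψθ m hE hE0 ^ i) x : bigA ψ θ m hE) : Ω) =
      θ (Multiplicative.ofAdd (i : ℤ_[ℓ])) (x : Ω) := by
  induction i with
  | zero => simp
  | succ i ih =>
    rw [pow_succ', Nat.cast_succ, add_comm, theta_add, ← ih]
    rfl

theorem sig_pow_eq_one (ψ : Ω ≃+* Ω) (θ : Multiplicative ℤ_[ℓ] →* (Ω ≃ₐ[κ] Ω))
    (hψθ : ∀ z x, ψ (θ z x) = θ z (ψ x)) (m : ℕ) {E : Type*} [Field E]
    [Algebra E Ω] (hE : ∀ x : E, algebraMap E Ω x ∈ fixS ψ θ m)
    (hE0 : ∀ x : E, algebraMap E Ω x ∈ fixS ψ θ 0) :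
    sig ψ θ hψθ m hE hE0 ^ (ℓ ^ m) = 1 := by
  ext x
  rw [sig_pow]
  have h := x.2.2 1
  rw [mul_one] at h
  push_cast
  exact h

end H

section I

variable {κ Ω : Type*} [Field κ] [IsAlgClosed κ] [Field Ω] [Algebra κ Ω] {p ℓ : ℕ}
  [Fact p.Prime] [CharP κ p] [Fact ℓ.Prime]

theorem sig_finite (ψ : Ω ≃+* Ω) (θ : Multiplicative ℤ_[ℓ] →* (Ω ≃ₐ[κ] Ω))
    (hψθ : ∀ z x, ψ (θ z x) = θ z (ψ x)) (m : ℕ) {E : Type*} [Field E]
    [Algebra E Ω] (hE : ∀ x : E, algebraMap E Ω x ∈ fixS ψ θ m)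
    (hE0 : ∀ x : E, algebraMap E Ω x ∈ fixS ψ θ 0) :
    Finite (Subgroup.zpowers (sig ψ θ hψθ m hE hE0)) := by
  have h1 : IsOfFinOrder (sig ψ θ hψθ m hE hE0) :=
    isOfFinOrder_iff_pow_eq_one.2 ⟨ℓ ^ m, pow_pos (Fact.out : ℓ.Prime).pos m,
      sig_pow_eq_one ψ θ hψθ m hE hE0⟩
  exact h1.finite_zpowers

theorem sig_fix (ψ : Ω ≃+* Ω) (θ : Multiplicative ℤ_[ℓ] →* (Ω ≃ₐ[κ] Ω))
    (hψθ : ∀ z x, ψ (θ z x) = θ z (ψ x)) (m : ℕ) {E : Type*} [Field E]
    [Algebra E Ω] (hE : ∀ x : E, algebraMap E Ω x ∈ fixS ψ θ m)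
    (hE0 : ∀ x : E, algebraMap E Ω x ∈ fixS ψ θ 0)
    (hE1 : ∀ x ∈ fixS ψ θ 0, ∃ a : E, algebraMap E Ω a = x) (x : bigA ψ θ m hE)
    (hx : sig ψ θ hψθ m hE hE0 x = x) : ∃ a : E, algebraMap E (bigA ψ θ m hE) a = x := by
  have h1 : θ (Multiplicative.ofAdd 1) (x : Ω) = x := congrArg Subtype.val hx
  obtain ⟨a, ha⟩ := hE1 x (fix_of_theta_one x.2 h1)
  exact ⟨a, Subtype.ext ha⟩

theorem finite_bigA (ψ : Ω ≃+* Ω) (θ : Multiplicative ℤ_[ℓ] →* (Ω ≃ₐ[κ] Ω))
    (hψθ : ∀ z x, ψ (θ z x) = θ z (ψ x)) (m : ℕ) {E : Type*} [Field E]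
    [Algebra E Ω] (hE : ∀ x : E, algebraMap E Ω x ∈ fixS ψ θ m)
    (hE0 : ∀ x : E, algebraMap E Ω x ∈ fixS ψ θ 0)
    (hE1 : ∀ x ∈ fixS ψ θ 0, ∃ a : E, algebraMap E Ω a = x) :
    FiniteDimensional E (bigA ψ θ m hE) := by
  let σ := sig ψ θ hψθ m hE hE0
  have hfin : Finite (Subgroup.zpowers σ) := sig_finite ψ θ hψθ m hE hE0
  have hinv : Algebra.IsInvariant E (bigA ψ θ m hE) (Subgroup.zpowers σ) := ⟨fun x hx =>
    sig_fix ψ θ hψθ m hE hE0 hE1 x (hx ⟨σ, Subgroup.mem_zpowers σ⟩)⟩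
  have hgal : IsGaloisGroup (Subgroup.zpowers σ) E (bigA ψ θ m hE) :=
    { faithful := inferInstance
      commutes := inferInstance
      isInvariant := hinv }
  exact IsGaloisGroup.finiteDimensional (Subgroup.zpowers σ) E (bigA ψ θ m hE)

theorem algebraic_top (hκ : ∀ x : κ, ∃ n, 1 ≤ n ∧ x ^ p ^ n = x) (ψ : Ω ≃+* Ω) (e : ℕ)
    (he : 1 ≤ e) (hψ : ∀ a : κ, ψ (algebraMap κ Ω a) = algebraMap κ Ω (a ^ p ^ e))
    (hper : ∀ x : Ω, ∃ r, 1 ≤ r ∧ (ψ ^ r) x = x) (θ : Multiplicative ℤ_[ℓ] →* (Ω ≃ₐ[κ] Ω))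
    (hcont : ∀ x : Ω, ∃ m : ℕ, ∀ z : ℤ_[ℓ], θ (Multiplicative.ofAdd ((ℓ : ℤ_[ℓ]) ^ m * z)) x = x)
    (hψθ : ∀ z x, ψ (θ z x) = θ z (ψ x)) {E : Type*} [Field E] [Algebra E Ω]
    (hE0 : ∀ x : E, algebraMap E Ω x ∈ fixS ψ θ 0)
    (hE1 : ∀ x ∈ fixS ψ θ 0, ∃ a : E, algebraMap E Ω a = x) : Algebra.IsAlgebraic E Ω := by
  refine ⟨fun c => ?_⟩
  obtain ⟨m, hm⟩ := hcont c
  have hcm : c ∈ Om θ m := hm
  obtain ⟨r, hr, hrc⟩ := hper c
  obtain ⟨n, cc, d, hsum, hfix⟩ := frob_descent hκ ψ e he hψ c r hr hrc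
  have hE : ∀ x : E, algebraMap E Ω x ∈ fixS ψ θ m := fun x => fix0_le m (hE0 x)
  have hfd := finite_bigA ψ θ hψθ m hE hE0 hE1
  have hy : ∀ k, IsIntegral E (∑ j ∈ Finset.range r, (ψ ^ j) (algebraMap κ Ω (d k) * c)) := by
    intro k
    have hmem : (∑ j ∈ Finset.range r, (ψ ^ j) (algebraMap κ Ω (d k) * c)) ∈ bigA ψ θ m hE :=
      ⟨hfix k, sum_mem fun j _ => psi_mem_Om hψθ (mul_mem (const_mem_Om θ m _) hcm) j⟩
    have h1 : IsIntegral E (⟨_, hmem⟩ : bigA ψ θ m hE) := Algebra.IsIntegral.isIntegral _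
    exact h1.algebraMap (B := Ω)
  rw [hsum]
  exact (IsIntegral.sum _ fun k _ => (isIntegral_const hκ (cc k)).mul (hy k)).isAlgebraic

end I

section J

variable {κ Ω : Type*} [Field κ] [IsAlgClosed κ] [Field Ω] [Algebra κ Ω] {p ℓ : ℕ}
  [Fact p.Prime] [CharP κ p] [Fact ℓ.Prime]

/-- `σ ^ i` cannot map `V ∩ A_m` into itself unless `ℓ ^ m ∣ i` -/
theorem split_dvd (hκ : ∀ x : κ, ∃ n, 1 ≤ n ∧ x ^ p ^ n = x) (t : Ω)
    (halg : ∀ x : Ω, IsAlgebraic (adjoin κ {t}) x) (ψ : Ω ≃+* Ω) (e : ℕ)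
    (he : 1 ≤ e) (hψ : ∀ a : κ, ψ (algebraMap κ Ω a) = algebraMap κ Ω (a ^ p ^ e))
    (hper : ∀ x : Ω, ∃ r, 1 ≤ r ∧ (ψ ^ r) x = x) (θ : Multiplicative ℤ_[ℓ] →* (Ω ≃ₐ[κ] Ω))
    (hcont : ∀ x : Ω, ∃ m : ℕ, ∀ z : ℤ_[ℓ], θ (Multiplicative.ofAdd ((ℓ : ℤ_[ℓ]) ^ m * z)) x = x)
    (hψθ : ∀ z x, ψ (θ z x) = θ z (ψ x)) {E : Type*} [Field E] [Algebra E Ω]
    [Algebra.IsAlgebraic E Ω] (hE0 : ∀ x : E, algebraMap E Ω x ∈ fixS ψ θ 0)
    (V : ValuationSubring Ω) (hκV : ∀ a : κ, algebraMap κ Ω a ∈ V) (hV : t ∉ V)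
    (hψV : ∀ x, x ∈ V ↔ ψ x ∈ V) (hfree : ∀ z, (∀ x ∈ V, θ z x ∈ V) → z = 1) (m i : ℕ)
    (hcon : ∀ x ∈ fixS ψ θ m, x ∈ V → θ (Multiplicative.ofAdd (i : ℤ_[ℓ])) x ∈ V) :
    ℓ ^ m ∣ i := by
  apply dvd_of_stable θ hcont V hfree m i
  apply stable_of_integral hκ ψ e he hψ hper θ hψθ (fun x => (hE0 x).1)
    (fun z x => theta_of_fix0 (hE0 x) z) V hκV m i
  intro b hb hbm hbint
  have hbV : b ∈ V := mem_of_isIntegral_comap rfl hbint
  obtain ⟨a, ha⟩ := residue_const halg V hκV hV b hbV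
  have hψv : V.valuation (ψ (b - algebraMap κ Ω a)) < 1 := by
    rw [val_lt_one_iff] at ha ⊢
    rcases ha with ha | ha
    · left; rw [ha, map_zero]
    · right
      rwa [← map_inv₀, ← hψV]
  rw [map_sub, hb, hψ] at hψv
  have haq : a ^ p ^ e = a := by
    by_contra hne
    have h1 : V.valuation (algebraMap κ Ω (a ^ p ^ e - a)) = 1 :=
      val_const V hκV _ (sub_ne_zero.2 hne)
    have h2 : algebraMap κ Ω (a ^ p ^ e - a) =
        (b - algebraMap κ Ω a) - (b - algebraMap κ Ω (a ^ p ^ e)) := by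
      rw [map_sub]; ring
    rw [h2] at h1
    have h3 := Valuation.map_sub_lt V.valuation ha hψv
    rw [h1] at h3
    exact lt_irrefl _ h3
  have hafix : algebraMap κ Ω a ∈ fixS ψ θ m := ⟨by rw [hψ, haq], const_mem_Om θ m a⟩
  have hw : b - algebraMap κ Ω a ∈ fixS ψ θ m := sub_mem ⟨hb, hbm⟩ hafix
  have hθw : V.valuation (θ (Multiplicative.ofAdd (i : ℤ_[ℓ])) (b - algebraMap κ Ω a)) < 1 := by
    rw [val_lt_one_iff] at ha ⊢
    rcases ha with ha | ha
    · left; rw [ha, map_zero]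
    · right
      rw [← map_inv₀]
      intro hmem
      apply ha
      -- iterate
      have hiter : ∀ k : ℕ, ∀ x ∈ fixS ψ θ m, x ∈ V →
          θ (Multiplicative.ofAdd ((k : ℤ_[ℓ]) * (i : ℤ_[ℓ]))) x ∈ V := by
        intro k
        induction k with
        | zero => intro x _ hx; simpa using hx
        | succ k ih =>
          intro x hxm hx
          have h1 := hcon _ (psi_theta_fix hψθ hxm _) (ih x hxm hx)
          rw [← theta_add] at h1
          have h2 : ((k + 1 : ℕ) : ℤ_[ℓ]) * (i : ℤ_[ℓ]) =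
              (i : ℤ_[ℓ]) + (k : ℤ_[ℓ]) * (i : ℤ_[ℓ]) := by
            push_cast; ring
          rwa [h2]
      have h1 := hiter (ℓ ^ m - 1) _ (psi_theta_fix hψθ (inv_mem hw) _) hmem
      rw [← theta_add] at h1
      have hpos : 1 ≤ ℓ ^ m := Nat.one_le_pow _ _ (Fact.out : ℓ.Prime).pos
      have h2 : ((ℓ ^ m - 1 : ℕ) : ℤ_[ℓ]) * (i : ℤ_[ℓ]) + (i : ℤ_[ℓ]) =
          (ℓ : ℤ_[ℓ]) ^ m * (i : ℤ_[ℓ]) := by
        rw [Nat.cast_sub hpos]
        push_cast
        ring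
      rwa [h2, (inv_mem hw : _ ∈ fixS ψ θ m).2] at h1
  have h5 : θ (Multiplicative.ofAdd (i : ℤ_[ℓ])) b - b =
      θ (Multiplicative.ofAdd (i : ℤ_[ℓ])) (b - algebraMap κ Ω a) - (b - algebraMap κ Ω a) := by
    rw [map_sub, AlgEquiv.commutes]
    ring
  rw [h5]
  exact Valuation.map_sub_lt _ hθw ha

theorem not_isField_adjoin {F A : Type*} [Field F] [Field A] [Algebra F A] (y : A)
    (hy : Transcendental F y) : ¬ IsField (Algebra.adjoin F {y}) := by
  intro h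
  have hy0 : (⟨y, Algebra.self_mem_adjoin_singleton F y⟩ : Algebra.adjoin F {y}) ≠ 0 := by
    intro h0
    have : y = 0 := congrArg Subtype.val h0
    rw [this] at hy
    exact hy isAlgebraic_zero
  obtain ⟨b, hb⟩ := h.mul_inv_cancel hy0
  have hb' : y * (b : A) = 1 := congrArg Subtype.val hb
  obtain ⟨f, hf⟩ := Algebra.adjoin_mem_exists_aeval F y b.2
  have hf' : aeval y f = (b : A) := hf
  apply hy
  refine ⟨X * f - 1, ?_, ?_⟩
  · intro h0
    have h1 := congrArg (fun g => g.coeff 0) h0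
    simp at h1
  · rw [map_sub, map_mul, aeval_X, map_one, hf', hb', sub_self]

end J

section K

/-- a place of `Ω` over a maximal ideal of the ring of integral elements -/
theorem exists_place {F A Ω : Type*} [Field F] [Field A] [Field Ω] [Algebra F A] [Algebra A Ω]
    (y : A) (hy : Transcendental F y)
    (𝔪 : Ideal (integralClosure (Algebra.adjoin F {y}) A)) (h𝔪 : 𝔪.IsMaximal) :
    ∃ Q : ValuationSubring Ω, Q ≠ ⊤ ∧
      (∀ b : integralClosure (Algebra.adjoin F {y}) A, algebraMap A Ω (b : A) ∈ Q) ∧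
      ∀ b ∈ 𝔪, Q.valuation (algebraMap A Ω (b : A)) < 1 := by
  let B := integralClosure (Algebra.adjoin F {y}) A
  let g : B →+* Ω := (algebraMap A Ω).comp (algebraMap B A)
  have hg : Function.Injective g := (algebraMap A Ω).injective.comp Subtype.val_injective
  have hsurj : Function.Surjective g.rangeRestrict := g.rangeRestrict_surjective
  have hI : 𝔪.map g.rangeRestrict ≠ ⊤ := by
    intro h
    have h1 : (1 : g.range) ∈ 𝔪.map g.rangeRestrict := by rw [h]; trivial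
    rw [Ideal.mem_map_iff_of_surjective _ hsurj] at h1
    obtain ⟨x, hx, hx1⟩ := h1
    have h2 : g x = 1 := congrArg Subtype.val hx1
    have h3 : x = 1 := hg (by rw [h2, map_one])
    exact h𝔪.ne_top ((Ideal.eq_top_iff_one _).2 (h3 ▸ hx))
  obtain ⟨Q, hQ1, hQ2⟩ := Ideal.image_subset_nonunits_valuationSubring _ hI
  have hval : ∀ b ∈ 𝔪, Q.valuation (algebraMap A Ω (b : A)) < 1 := by
    intro b hb
    rw [← ValuationSubring.mem_nonunits_iff]
    apply hQ2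
    exact ⟨g.rangeRestrict b, Ideal.mem_map_of_mem _ hb, rfl⟩
  refine ⟨Q, ?_, fun b => hQ1 ⟨b, rfl⟩, hval⟩
  rintro rfl
  have hB : ¬ IsField B := by
    intro h
    exact not_isField_adjoin y hy (isField_of_isIntegral_of_isField
      (fun a b hab => Subtype.ext (congrArg (fun x : B => (x : A)) hab)) h)
  obtain ⟨b, hb, hb0⟩ := Submodule.exists_mem_ne_zero_of_ne_bot
    (Ring.ne_bot_of_isMaximal_of_not_isField h𝔪 hB)
  have h1 := hval b hb
  rw [val_lt_one_iff] at h1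
  rcases h1 with h1 | h1
  · exact hb0 (hg (by rw [map_zero]; exact h1))
  · exact h1 trivial

end K

section L

variable {κ Ω : Type*} [Field κ] [IsAlgClosed κ] [Field Ω] [Algebra κ Ω] {p ℓ : ℕ}
  [Fact p.Prime] [CharP κ p] [Fact ℓ.Prime]

theorem inert_dvd (hκ : ∀ x : κ, ∃ n, 1 ≤ n ∧ x ^ p ^ n = x) (ψ : Ω ≃+* Ω) (e : ℕ)
    (he : 1 ≤ e) (hψ : ∀ a : κ, ψ (algebraMap κ Ω a) = algebraMap κ Ω (a ^ p ^ e))
    (hper : ∀ x : Ω, ∃ r, 1 ≤ r ∧ (ψ ^ r) x = x) (θ : Multiplicative ℤ_[ℓ] →* (Ω ≃ₐ[κ] Ω))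
    (hcont : ∀ x : Ω, ∃ m : ℕ, ∀ z : ℤ_[ℓ], θ (Multiplicative.ofAdd ((ℓ : ℤ_[ℓ]) ^ m * z)) x = x)
    (hψθ : ∀ z x, ψ (θ z x) = θ z (ψ x)) (hκQ : ∀ (Q : ValuationSubring Ω) (a : κ), algebraMap κ Ω a ∈ Q)
    (hfree : ∀ Q : ValuationSubring Ω, Q ≠ ⊤ → ∀ z, (∀ x ∈ Q, θ z x ∈ Q) → z = 1)
    {F A₀ : Type*} [Field F] [Field A₀] [Algebra F A₀] [Algebra A₀ Ω] [Algebra F Ω]
    [IsScalarTower F A₀ Ω] [Algebra.IsAlgebraic A₀ Ω]
    (hE0 : ∀ x : A₀, algebraMap A₀ Ω x ∈ fixS ψ θ 0) (m : ℕ)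
    (hE : ∀ x : A₀, algebraMap A₀ Ω x ∈ fixS ψ θ m)
    (y : A₀) (hy : Transcendental F y) [FiniteDimensional (adjoin F {y}) A₀] (i : ℕ)
    (𝔪 : Ideal (integralClosure (Algebra.adjoin F {algebraMap A₀ (bigA ψ θ m hE) y}) (bigA ψ θ m hE)))
    (h𝔪 : 𝔪.IsMaximal)
    (hcon : ∀ b b' : integralClosure (Algebra.adjoin F {algebraMap A₀ (bigA ψ θ m hE) y})
      (bigA ψ θ m hE), (b' : bigA ψ θ m hE) = (sig ψ θ hψθ m hE hE0 ^ i) (b : bigA ψ θ m hE) →
      b - b' ∈ 𝔪) : ℓ ^ m ∣ i := by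
  classical
  let A := bigA ψ θ m hE
  let yA : A := algebraMap A₀ A y
  have hyA : Transcendental F yA := fun h =>
    hy ((isAlgebraic_algebraMap_iff (algebraMap A₀ A).injective).1 h)
  obtain ⟨Q, hQtop, hBQ, h𝔪Q⟩ := exists_place (Ω := Ω) yA hyA 𝔪 h𝔪
  let E := adjoin F {y}
  have hEΩ : Algebra.IsAlgebraic E Ω := by
    have : Algebra.IsAlgebraic E A₀ := Algebra.IsAlgebraic.of_finite E A₀
    exact Algebra.IsAlgebraic.trans E A₀ Ω
  apply dvd_of_stable θ hcont Q (hfree Q hQtop) m i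
  have hfixE : ∀ x : E, algebraMap E Ω x ∈ fixS ψ θ 0 := fun x => hE0 (x : A₀)
  apply stable_of_integral hκ ψ e he hψ hper θ hψθ (E := E) (fun x => (hfixE x).1)
    (fun z x => theta_of_fix0 (hfixE x) z) Q (hκQ Q) m i
  intro b hb hbm hbint
  let y' : E := AdjoinSimple.gen F y
  have hyy' : algebraMap E A₀ y' = y := rfl
  have hR : ∀ f : F[X], algebraMap E Ω (aeval y' f) = algebraMap A Ω (aeval yA f) := by
    intro f
    have h1 : algebraMap E A₀ (aeval y' f) = aeval y f := by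
      rw [← aeval_algebraMap_apply, hyy']
    have h2 : algebraMap A₀ A (aeval y f) = aeval yA f := by
      rw [← aeval_algebraMap_apply]
    rw [← h2, ← h1]
    rfl
  have hmemB : ∀ f : F[X], IsIntegral (Algebra.adjoin F {yA}) (aeval yA f) := fun f =>
    isIntegral_algebraMap (x := (⟨aeval yA f, aeval_mem_adjoin_singleton _ _⟩ : Algebra.adjoin F {yA}))
  obtain ⟨s, hs, P, hPm, hP⟩ := clear_den (F := F) (E := E) (M := Ω) y' Q
    (fun f => by rw [hR f]; exact hBQ ⟨aeval yA f, hmemB f⟩)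
    (fun z => by
      obtain ⟨r, s, hrs⟩ := (mem_adjoin_simple_iff F _).1 z.2
      refine ⟨r, s, ?_⟩
      apply (algebraMap E A₀).injective
      rw [map_div₀, ← aeval_algebraMap_apply, ← aeval_algebraMap_apply, hyy']
      exact hrs) b hbint
  let bA : A := ⟨b, hb, hbm⟩
  let c : A := aeval yA s * bA
  have hc : IsIntegral (Algebra.adjoin F {yA}) c := by
    let g : F[X] →+* Algebra.adjoin F {yA} :=
      (aeval (⟨yA, Algebra.self_mem_adjoin_singleton F yA⟩ : Algebra.adjoin F {yA}) :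
        F[X] →ₐ[F] Algebra.adjoin F {yA}).toRingHom
    refine ⟨P.map g, hPm.map g, ?_⟩
    rw [eval₂_map]
    apply (algebraMap A Ω).injective
    rw [map_zero, hom_eval₂, ← hP]
    have h1 : (algebraMap A Ω).comp ((algebraMap (Algebra.adjoin F {yA}) A).comp g) =
        (algebraMap E Ω).comp (aeval y' : F[X] →ₐ[F] E).toRingHom := by
      refine RingHom.ext fun f => ?_
      change algebraMap A Ω (algebraMap (Algebra.adjoin F {yA}) A
        (aeval (⟨yA, Algebra.self_mem_adjoin_singleton F yA⟩ : Algebra.adjoin F {yA}) f)) =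
        algebraMap E Ω (aeval y' f)
      rw [hR f]
      exact congrArg (algebraMap A Ω) (Subalgebra.aeval_coe (Algebra.adjoin F {yA})
        ⟨yA, Algebra.self_mem_adjoin_singleton F yA⟩ f).symm
    have h2 : algebraMap A Ω c = algebraMap E Ω (aeval y' s) * b := by
      rw [hR s]
      rfl
    rw [h1, h2]
  have hσfix : ∀ f : F[X], (sig ψ θ hψθ m hE hE0 ^ i) (aeval yA f) = aeval yA f := by
    intro f
    have h2 : algebraMap A₀ A (aeval y f) = aeval yA f := by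
      rw [← aeval_algebraMap_apply]
    rw [← h2, AlgEquiv.commutes]
  have hc' : IsIntegral (Algebra.adjoin F {yA}) ((sig ψ θ hψθ m hE hE0 ^ i) c) := by
    let f : A →ₐ[Algebra.adjoin F {yA}] A :=
      { ((sig ψ θ hψθ m hE hE0 ^ i : A ≃ₐ[A₀] A) : A →+* A) with
        commutes' := by
          intro r
          obtain ⟨f, hf⟩ := Algebra.adjoin_mem_exists_aeval F yA r.2
          change (sig ψ θ hψθ m hE hE0 ^ i) (r : A) = (r : A)
          rw [← hf, hσfix f] }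
    exact hc.map f
  have h3 := h𝔪Q _ (hcon ⟨c, hc⟩ ⟨_, hc'⟩ rfl)
  have h4 : algebraMap A Ω (((⟨c, hc⟩ : integralClosure (Algebra.adjoin F {yA}) A) -
      ⟨_, hc'⟩ : integralClosure (Algebra.adjoin F {yA}) A) : A) =
      -(algebraMap E Ω (aeval y' s) * (θ (Multiplicative.ofAdd (i : ℤ_[ℓ])) b - b)) := by
    have h5 : algebraMap A Ω c = algebraMap E Ω (aeval y' s) * b := by
      rw [hR s]
      rfl
    have h6 : algebraMap A Ω ((sig ψ θ hψθ m hE hE0 ^ i) c) =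
        algebraMap E Ω (aeval y' s) * θ (Multiplicative.ofAdd (i : ℤ_[ℓ])) b := by
      have h7 := sig_pow ψ θ hψθ m hE hE0 i c
      have h8 : algebraMap A Ω ((sig ψ θ hψθ m hE hE0 ^ i) c) =
        θ (Multiplicative.ofAdd (i : ℤ_[ℓ])) (algebraMap A Ω c) := h7
      rw [h8, h5, map_mul, theta_of_fix0 (hfixE _)]
    change algebraMap A Ω (c - (sig ψ θ hψθ m hE hE0 ^ i) c) = _
    rw [map_sub, h5, h6]
    ring
  rw [h4, Valuation.map_neg, map_mul, hs, one_mul] at h3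
  exact h3

end L

end NoTower

end Pool.Agent.Lib.MP_2f3286_ag.Full
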