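import Pool.Agent.Lib.MP_2f3286_ag.Full.WVal
import Pool.Agent.Lib.MP_2f3286_ag.Full.NoLift

/-!
# Characters invariant under a Frobenius of high power are trivial
-/

open Polynomial IntermediateField
open scoped Pointwise

namespace Pool.Agent.Lib.MP_2f3286_ag.Full

section

variable {K M kb : Type*} [Field K] [Field M] [Field kb] [Algebra K M] [Algebra kb M]

/-- The fixed field of a subgroup of the geometric group, as an extension of `kb`. -/
def fixedE (H : Subgroup Gal(M/K)) (hH : H ≤ geomGroup K M kb) : IntermediateField kb M where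
  carrier := {x | ∀ h ∈ H, h x = x}
  mul_mem' {a b} ha hb h hh := by rw [map_mul, ha h hh, hb h hh]
  one_mem' h _ := map_one h
  add_mem' {a b} ha hb h hh := by rw [map_add, ha h hh, hb h hh]
  zero_mem' h _ := map_zero h
  algebraMap_mem' a h hh := hH hh a
  inv_mem' a ha h hh := by rw [map_inv₀, ha h hh]

theorem mem_fixedE {H : Subgroup Gal(M/K)} {hH : H ≤ geomGroup K M kb} {x : M} :
    x ∈ fixedE H hH ↔ ∀ h ∈ H, h x = x := Iff.rfl

theorem geom_fix_adjoin (g : Gal(M/K)) (hg : g ∈ geomGroup K M kb) (t : M) (ht : g t = t) (a : M)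
    (ha : a ∈ adjoin kb {t}) : g a = a := by
  obtain ⟨r, s, rfl⟩ := (IntermediateField.mem_adjoin_simple_iff kb a).mp ha
  have h2 : ∀ q : kb[X], g (aeval t q) = aeval t q := by
    intro q
    induction q using Polynomial.induction_on' with
    | add a b ha hb => rw [map_add, map_add, ha, hb]
    | monomial n c => rw [aeval_monomial, map_mul, map_pow, ht, hg c]
  rw [map_div₀, h2, h2]

theorem conj_of_gauss [IsGalois K M] (H' : Subgroup Gal(M/K)) (hH' : H' ≤ geomGroup K M kb)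
    (hcl : IsClosed (H' : Set Gal(M/K))) (W W' : ValuationSubring M)
    (h : W.comap (algebraMap (fixedE H' hH') M) = W'.comap (algebraMap (fixedE H' hH') M)) :
    ∃ g ∈ H', ∀ x, x ∈ W' ↔ g x ∈ W := by
  have hc : CompactSpace H' := isCompact_iff_compactSpace.mp hcl.isCompact
  obtain ⟨g, hg⟩ := val_trans (E := fixedE H' hH') (M := M) (G := H')
    (fun x => (isOpen_stab x).preimage continuous_subtype_val)
    (fun g x => x.2 g g.2) (fun x hx => ⟨⟨x, fun g hg => hx ⟨g, hg⟩⟩, rfl⟩) W W' h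
  exact ⟨g, g.2, hg⟩

/-- restriction of an automorphism to an invariant subfield -/
def restrRing (L : IntermediateField kb M) (g : Gal(M/K)) (h1 : ∀ x ∈ L, g x ∈ L)
    (h2 : ∀ x ∈ L, g⁻¹ x ∈ L) : L ≃+* L where
  toFun x := ⟨g x, h1 x x.2⟩
  invFun x := ⟨g⁻¹ x, h2 x x.2⟩
  left_inv x := Subtype.ext (g.symm_apply_apply x)
  right_inv x := Subtype.ext (g.apply_symm_apply x)
  map_mul' a b := Subtype.ext (map_mul g _ _)
  map_add' a b := Subtype.ext (map_add g _ _)

theorem no_char [IsGalois K M] [IsAlgClosed kb] [CharZero kb] [Algebra.IsAlgebraic ℚ kb] (t : M)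
    (ht : Transcendental kb t) (htK : ∀ g : Gal(M/K), g t = t)
    (halg : ∀ x : M, IsAlgebraic (adjoin kb {t}) x) {p ℓ : ℕ} [Fact p.Prime] [Fact ℓ.Prime]
    (hpl : p ≠ ℓ) (H : Subgroup Gal(M/K)) [H.Normal] (hHN : H ≤ geomGroup K M kb)
    (hHc : IsClosed (H : Set Gal(M/K))) (E₁ : IntermediateField (adjoin kb {t}) M)
    [FiniteDimensional (adjoin kb {t}) E₁] (hE₁ : ∀ x : M, (∀ h ∈ H, h x = x) → x ∈ E₁)
    (W : ValuationSubring M) (hp : W.valuation (p : M) < 1) (hG : IsGauss kb t W)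
    (χ : H →ₜ* Multiplicative ℤ_[ℓ])
    (hD : ∀ z, ∃ d : H, χ d = z ∧ ∀ x ∈ W, (d : Gal(M/K)) x ∈ W)
    (γ : Gal(M/K)) (hγχ : ∀ h, χ (MulAut.conjNormal γ h) = χ h)
    (hγk : ∀ a : kb, ∃ b : kb, γ (algebraMap kb M a) = algebraMap kb M b)
    (hγW : ∀ x, γ x ∈ W ↔ x ∈ W) (e : ℕ) (he : 1 ≤ e)
    (hfr : ∀ a : kb, algebraMap kb M a ∈ W →
      W.valuation (γ (algebraMap kb M a) - algebraMap kb M a ^ p ^ e) < 1) : False := by
  classical
  have hc : CompactSpace H := isCompact_iff_compactSpace.mp hHc.isCompact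
  let Ker : Subgroup Gal(M/K) := χ.toMonoidHom.ker.map H.subtype
  have hKer : ∀ g : Gal(M/K), g ∈ Ker ↔ ∃ h : H, χ h = 1 ∧ (h : Gal(M/K)) = g := by
    intro g
    constructor
    · rintro ⟨h, hh, rfl⟩
      exact ⟨h, hh, rfl⟩
    · rintro ⟨h, hh, rfl⟩
      exact ⟨h, hh, rfl⟩
  have hKN : Ker ≤ geomGroup K M kb := by
    intro g hg
    obtain ⟨h, -, rfl⟩ := (hKer g).mp hg
    exact hHN h.2
  have hKc : IsClosed (Ker : Set Gal(M/K)) := by
    have h1 : (Ker : Set Gal(M/K)) = Subtype.val '' {h : H | χ h = 1} := by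
      ext g
      exact hKer g
    rw [h1]
    exact hHc.isClosedEmbedding_subtypeVal.isClosedMap _
      (isClosed_singleton.preimage χ.continuous_toFun)
  let L := fixedE Ker hKN
  -- the restriction of elements of `H`
  have hmapL : ∀ g : Gal(M/K), (∀ k ∈ Ker, g⁻¹ * k * g ∈ Ker) → ∀ x ∈ L, g x ∈ L := by
    intro g hg x hx k hk
    have h1 : (g⁻¹ * k * g) x = x := hx _ (hg k hk)
    have h2 : g ((g⁻¹ * k * g) x) = k (g x) := by
      change g (g⁻¹ (k (g x))) = _
      exact g.apply_symm_apply _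
    rw [← h2, h1]
  have hHnorm : ∀ (g : H), ∀ k ∈ Ker, (g : Gal(M/K))⁻¹ * k * g ∈ Ker := by
    intro g k hk
    obtain ⟨h, hh, rfl⟩ := (hKer k).mp hk
    exact (hKer _).mpr ⟨g⁻¹ * h * g, by rw [map_mul, map_mul, hh, mul_one, ← map_mul,
      inv_mul_cancel, map_one], rfl⟩
  have hHmap : ∀ g : H, ∀ x ∈ L, (g : Gal(M/K)) x ∈ L := fun g => hmapL g (hHnorm g)
  let r : H →* (L ≃ₐ[kb] L) :=
    { toFun := fun h => AlgEquiv.ofRingEquiv
        (f := restrRing L (h : Gal(M/K)) (hHmap h) (hHmap h⁻¹))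
        (fun a => Subtype.ext (hHN h.2 a))
      map_one' := AlgEquiv.ext fun x => Subtype.ext rfl
      map_mul' := fun a b => AlgEquiv.ext fun x => Subtype.ext rfl }
  have hr : ∀ (h : H) (x : L), ((r h x : L) : M) = (h : Gal(M/K)) (x : M) := fun h x => rfl
  have hker : χ.toMonoidHom.ker ≤ r.ker := by
    intro h hh
    rw [MonoidHom.mem_ker]
    refine AlgEquiv.ext fun x => Subtype.ext ?_
    exact x.2 h ((hKer _).mpr ⟨h, hh, rfl⟩)
  choose sec hsec hsecW using hD
  let θ : Multiplicative ℤ_[ℓ] →* (L ≃ₐ[kb] L) :=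
    χ.toMonoidHom.liftOfRightInverse sec hsec ⟨r, hker⟩
  have hθr : ∀ h : H, θ (χ h) = r h := fun h =>
    MonoidHom.liftOfRightInverse_comp_apply _ _ hsec ⟨r, hker⟩ h
  have hθs : ∀ z, θ z = r (sec z) := fun z => by
    conv_lhs => rw [← hsec z]
    exact hθr _
  have htL : t ∈ L := fun h _ => htK h
  let tL : L := ⟨t, htL⟩
  have hγinv : ∀ h, χ (MulAut.conjNormal γ⁻¹ h) = χ h := by
    intro h
    rw [← hγχ (MulAut.conjNormal γ⁻¹ h)]
    congr 1
    refine Subtype.ext ?_
    rw [MulAut.conjNormal_apply, MulAut.conjNormal_apply]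
    group
  have hγK : ∀ k ∈ Ker, γ⁻¹ * k * γ ∈ Ker := by
    intro k hk
    obtain ⟨h, hh, rfl⟩ := (hKer k).mp hk
    refine (hKer _).mpr ⟨MulAut.conjNormal γ⁻¹ h, by rw [hγinv, hh], ?_⟩
    rw [MulAut.conjNormal_apply, inv_inv]
  have hγK' : ∀ k ∈ Ker, (γ⁻¹)⁻¹ * k * γ⁻¹ ∈ Ker := by
    intro k hk
    obtain ⟨h, hh, rfl⟩ := (hKer k).mp hk
    refine (hKer _).mpr ⟨MulAut.conjNormal γ h, by rw [hγχ, hh], ?_⟩
    rw [MulAut.conjNormal_apply, inv_inv]
  let g : L ≃+* L := restrRing L γ (hmapL γ hγK) (hmapL γ⁻¹ hγK')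
  refine no_lift (kb := kb) (L := L) tL (transcendental_coe L tL ht)
    (fun x => isAlgebraic_coe L tL x (halg x)) hpl (W.comap (algebraMap L M)) ?_ ?_ θ ?_ ?_ ?_ ?_
    ?_ g ?_ ?_ ?_ ?_ e he ?_
  · rw [val_comap_lt_one, map_natCast]
    exact hp
  · exact isGauss_comap (algebraMap L M) W (RingHom.id kb) (fun a => rfl) tL hG
  · rw [injective_iff_map_eq_one]
    intro z hz
    rw [hθs] at hz
    have h1 : (sec z : Gal(M/K)) ∈
        (IntermediateField.fixedField Ker : IntermediateField K M).fixingSubgroup := by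
      rw [IntermediateField.mem_fixingSubgroup_iff]
      intro x hx
      have h2 : x ∈ L := fun k hk => (IntermediateField.mem_fixedField_iff _ _).mp hx k hk
      have h3 := congrArg (fun f : L ≃ₐ[kb] L => ((f ⟨x, h2⟩ : L) : M)) hz
      exact h3
    have h4 : (IntermediateField.fixedField Ker : IntermediateField K M).fixingSubgroup = Ker :=
      InfiniteGalois.fixingSubgroup_fixedField ⟨Ker, hKc⟩
    rw [h4] at h1
    obtain ⟨h, hh, h5⟩ := (hKer _).mp h1
    have h6 : h = sec z := Subtype.ext h5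
    rw [← hsec z, ← h6]
    exact hh
  · intro z
    rw [hθs]
    exact Subtype.ext (htK _)
  · intro z x hx
    rw [hθs]
    exact hsecW z _ hx
  · intro x
    let S : Subgroup H :=
      { carrier := {h | (h : Gal(M/K)) (x : M) = x}
        mul_mem' := fun {a b} ha hb => by
          change (a : Gal(M/K)) ((b : Gal(M/K)) (x : M)) = x
          rw [show (b : Gal(M/K)) (x : M) = x from hb]
          exact ha
        one_mem' := rfl
        inv_mem' := fun {a} ha => by
          change (a : Gal(M/K))⁻¹ (x : M) = x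
          conv_lhs => rw [← show (a : Gal(M/K)) (x : M) = x from ha]
          exact (a : Gal(M/K)).symm_apply_apply _ }
    have hS : IsOpen (S : Set H) := (isOpen_stab (K := K) (x : M)).preimage continuous_subtype_val
    have hSf : S.index ≠ 0 := by
      have : Finite (H ⧸ S) := Subgroup.quotient_finite_of_isOpen S hS
      exact Subgroup.index_ne_zero_of_finite
    set N₀ := (S.index).factorial with hN₀
    have hpow : ∀ h : H, h ^ N₀ ∈ S := fun h =>
      Subgroup.pow_mem_of_index_ne_zero_of_dvd hSf h fun m hm hm' => Nat.dvd_factorial hm hm'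
    have hN0 : (N₀ : ℤ_[ℓ]) ≠ 0 := by exact_mod_cast Nat.factorial_ne_zero _
    refine ⟨(N₀ : ℤ_[ℓ]).valuation, fun z => ?_⟩
    have h1 := PadicInt.unitCoeff_spec hN0
    set u := PadicInt.unitCoeff hN0 with hu
    have h2 : (ℓ : ℤ_[ℓ]) ^ (N₀ : ℤ_[ℓ]).valuation * z = N₀ • (((u⁻¹ : ℤ_[ℓ]ˣ) : ℤ_[ℓ]) * z) := by
      rw [nsmul_eq_mul]
      conv_rhs => rw [h1]
      rw [mul_assoc, mul_left_comm, ← mul_assoc (u : ℤ_[ℓ]), Units.mul_inv, one_mul]
    rw [h2, ofAdd_nsmul, map_pow, hθs, ← map_pow]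
    exact Subtype.ext (hpow _)
  · obtain ⟨s, hs⟩ := exists_finset_span L tL E₁ {x : L | ∀ h ∈ H, h (x : M) = x}
      (fun h _ => map_zero h) (fun a ha b hb h hh => by
        push_cast
        rw [map_add, ha h hh, hb h hh])
      (fun a ha b hb h hh => by
        push_cast
        rw [map_mul, hb h hh, geom_fix_adjoin h (hHN hh) t (htK h) a
          (adjoin_coe_mem L tL a ha)])
      (fun x hx => hE₁ x hx)
    refine ⟨s, fun x hx => hs x fun h hh => ?_⟩
    have h1 := congrArg (fun y : L => (y : M)) (hx (χ ⟨h, hh⟩))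
    simp only [hθr] at h1
    exact h1
  · intro a
    obtain ⟨b, hb⟩ := hγk a
    exact ⟨b, Subtype.ext hb⟩
  · exact Subtype.ext (htK γ)
  · intro x
    exact hγW x
  · intro z x
    have h1 : χ (MulAut.conjNormal γ (sec z)) = z := by rw [hγχ, hsec]
    have h2 : θ z = r (MulAut.conjNormal γ (sec z)) := by rw [← hθr, h1]
    conv_rhs => rw [h2]
    rw [hθs]
    refine Subtype.ext ?_
    change γ ((sec z : Gal(M/K)) (x : M)) =
      ((MulAut.conjNormal γ (sec z) : H) : Gal(M/K)) (γ (x : M))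
    rw [MulAut.conjNormal_apply]
    change _ = γ ((sec z : Gal(M/K)) (γ⁻¹ (γ (x : M))))
    congr 2
    exact (γ.symm_apply_apply _).symm
  · intro a ha
    rw [val_comap_lt_one]
    exact hfr a ha

end

end Pool.Agent.Lib.MP_2f3286_ag.Full
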